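import Mathlib

/-!
# Graph bootstrap percolation: definitions (problem MP_30c94c_pr)
-/

open SimpleGraph MeasureTheory unitInterval

namespace MP30c94c

variable {W V : Type*}

/-- `InClosure H G e`: the pair `e` is an edge of the final graph of the `H`-bootstrap process
started from `G`: either `e` is an edge of `G`, or there is a copy of `H` (the image of `H` under
an injection `f` of its vertices) which contains `e` and all of whose other edges are already
present. -/
inductive InClosure (H : SimpleGraph W) (G : SimpleGraph V) : Sym2 V → Prop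
  | base {e : Sym2 V} (he : e ∈ G.edgeSet) : InClosure H G e
  | step {e : Sym2 V} (f : W ↪ V) (he : e ∈ (H.map f).edgeSet)
      (h : ∀ e' ∈ (H.map f).edgeSet, e' ≠ e → InClosure H G e') : InClosure H G e

/-- The final graph `⟨G⟩_H` of the `H`-bootstrap process. -/
def closure (H : SimpleGraph W) (G : SimpleGraph V) : SimpleGraph V where
  Adj u v := u ≠ v ∧ InClosure H G s(u, v)
  symm := ⟨fun u v h => ⟨h.1.symm, by rw [Sym2.eq_swap]; exact h.2⟩⟩
  loopless := ⟨fun u h => h.1 rfl⟩

/-- `G` percolates if the final graph is complete. -/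
def Percolates (H : SimpleGraph W) (G : SimpleGraph V) : Prop := closure H G = ⊤

/-- The critical probability `p_c(n, H)`. -/
noncomputable def pc (n : ℕ) (H : SimpleGraph W) : ℝ :=
  sInf {p : ℝ | 0 < p ∧ ∃ hp : p ∈ Set.Icc (0 : ℝ) 1,
    1 / 2 ≤ (binomialRandom (Fin n) ⟨p, hp⟩).real {G | Percolates H G}}

/-- the graph `K_{2,t}` -/
abbrev K2 (t : ℕ) : SimpleGraph (Fin 2 ⊕ Fin t) := completeBipartiteGraph (Fin 2) (Fin t)

end MP30c94c
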