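import Mathlib
import Pool.Agent.Lib.MP30c94c.Defs

/-!
# Basic computations in `G(n,p)`
-/

open SimpleGraph MeasureTheory unitInterval Finset

namespace MP30c94c

attribute [local instance] Classical.propDecidable

set_option linter.unusedSectionVars false

section finite
variable {V : Type*} [Fintype V]

/-- all possible edges -/
noncomputable def allE (V : Type*) [Fintype V] : Finset (Sym2 V) :=
  univ.filter fun e => ¬ e.IsDiag

/-- weight of a graph -/
noncomputable def wt (p : ℝ) (G : SimpleGraph V) : ℝ :=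
  p ^ (G.edgeFinset).card * (1 - p) ^ ((allE V).card - (G.edgeFinset).card)

/-- expectation -/
noncomputable def Ex (p : ℝ) (f : SimpleGraph V → ℝ) : ℝ := ∑ G : SimpleGraph V, wt p G * f G

/-- probability -/
noncomputable def Pr (p : ℝ) (A : SimpleGraph V → Prop) : ℝ :=
  Ex p (fun G => if A G then 1 else 0)

lemma edgeFinset_subset_allE (G : SimpleGraph V) : G.edgeFinset ⊆ allE V := by
  intro e he
  simp only [allE, mem_filter, mem_univ, true_and]
  exact G.not_isDiag_of_mem_edgeFinset he

lemma sum_graph_eq (F : Finset (Sym2 V) → ℝ) :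
    ∑ G : SimpleGraph V, F G.edgeFinset = ∑ ω ∈ (allE V).powerset, F ω := by
  refine Finset.sum_bij' (fun G _ => G.edgeFinset) (fun ω _ => fromEdgeSet (ω : Set (Sym2 V)))
    ?_ ?_ ?_ ?_ ?_
  · intro G _
    simpa using edgeFinset_subset_allE G
  · intro ω _
    simp
  · intro G _
    simp
  · intro ω hω
    ext e
    simp only [mem_edgeFinset, edgeSet_fromEdgeSet, Set.mem_sdiff, mem_coe]
    constructor
    · exact fun h => h.1
    · intro h
      refine ⟨h, ?_⟩
      have := (mem_powerset.1 hω) h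
      simpa [allE] using this
  · intro G _
    rfl

lemma sum_powerset_wt (p : ℝ) (T U : Finset (Sym2 V)) (hT : T ⊆ U) :
    ∑ ω ∈ U.powerset, (p ^ ω.card * (1 - p) ^ (U.card - ω.card)) * (if T ⊆ ω then 1 else 0)
      = p ^ T.card := by
  have h1 : ∑ ω ∈ U.powerset, (p ^ ω.card * (1 - p) ^ (U.card - ω.card)) *
      (if T ⊆ ω then (1:ℝ) else 0) =
      ∑ ω ∈ (U \ T).powerset, p ^ T.card * (p ^ ω.card * (1 - p) ^ ((U \ T).card - ω.card)) := by
    simp only [mul_ite, mul_one, mul_zero]
    rw [← Finset.sum_filter]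
    refine Finset.sum_bij' (fun ω _ => ω \ T) (fun ω _ => ω ∪ T) ?_ ?_ ?_ ?_ ?_
    · intro ω hω
      simp only [mem_filter, mem_powerset] at hω ⊢
      exact sdiff_subset_sdiff hω.1 le_rfl
    · intro ω hω
      simp only [mem_filter, mem_powerset] at hω ⊢
      exact ⟨union_subset (hω.trans sdiff_subset) hT, subset_union_right⟩
    · intro ω hω
      simp only [mem_filter, mem_powerset] at hω
      exact sdiff_union_of_subset hω.2
    · intro ω hω
      simp only [mem_powerset] at hω
      rw [union_sdiff_right]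
      apply Finset.sdiff_eq_self_of_disjoint
      exact Finset.disjoint_of_subset_left hω sdiff_disjoint
    · intro ω hω
      simp only [mem_filter, mem_powerset] at hω
      have hc : (ω \ T).card + T.card = ω.card := card_sdiff_add_card_eq_card hω.2
      have hc2 : (U \ T).card + T.card = U.card := card_sdiff_add_card_eq_card hT
      rw [← mul_assoc, ← pow_add, ← hc, ← hc2]
      congr 2
      · omega
      · omega
  rw [h1, ← Finset.mul_sum, Finset.sum_pow_mul_eq_add_pow]
  simp

lemma sum_powerset_wt' (p : ℝ) (T U : Finset (Sym2 V)) (hT : T ⊆ U) :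
    ∑ ω ∈ U.powerset, (p ^ ω.card * (1 - p) ^ (U.card - ω.card)) *
      (if Disjoint T ω then 1 else 0) = (1 - p) ^ T.card := by
  have h1 : ∑ ω ∈ U.powerset, (p ^ ω.card * (1 - p) ^ (U.card - ω.card)) *
      (if Disjoint T ω then (1:ℝ) else 0) =
      ∑ ω ∈ (U \ T).powerset,
        (1 - p) ^ T.card * (p ^ ω.card * (1 - p) ^ ((U \ T).card - ω.card)) := by
    simp only [mul_ite, mul_one, mul_zero]
    rw [← Finset.sum_filter]
    have : U.powerset.filter (fun ω => Disjoint T ω) = (U \ T).powerset := by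
      ext ω
      simp only [mem_filter, mem_powerset]
      constructor
      · rintro ⟨h1, h2⟩
        intro e he
        rw [mem_sdiff]
        exact ⟨h1 he, fun h => Finset.disjoint_left.1 h2 h he⟩
      · intro h
        refine ⟨h.trans sdiff_subset, ?_⟩
        exact Finset.disjoint_of_subset_right h disjoint_sdiff
    rw [this]
    refine Finset.sum_congr rfl ?_
    intro ω hω
    simp only [mem_powerset] at hω
    have hc := card_le_card hω
    have hc2 : (U \ T).card + T.card = U.card := card_sdiff_add_card_eq_card hT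
    rw [mul_left_comm, ← pow_add]
    congr 2
    omega
  rw [h1, ← Finset.mul_sum, Finset.sum_pow_mul_eq_add_pow]
  simp

lemma Pr_subset (p : ℝ) (T : Finset (Sym2 V)) (hT : T ⊆ allE V) :
    Pr p (fun G => T ⊆ G.edgeFinset) = p ^ T.card := by
  rw [← sum_powerset_wt p T (allE V) hT, ← sum_graph_eq]
  unfold Pr Ex wt
  refine Finset.sum_congr rfl fun G _ => ?_
  by_cases h : T ⊆ G.edgeFinset <;> simp [h]

lemma Pr_disjoint (p : ℝ) (T : Finset (Sym2 V)) (hT : T ⊆ allE V) :
    Pr p (fun G => Disjoint T G.edgeFinset) = (1 - p) ^ T.card := by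
  rw [← sum_powerset_wt' p T (allE V) hT, ← sum_graph_eq]
  unfold Pr Ex wt
  refine Finset.sum_congr rfl fun G _ => ?_
  by_cases h : Disjoint T G.edgeFinset <;> simp [h]

lemma wt_nonneg {p : ℝ} (h0 : 0 ≤ p) (h1 : p ≤ 1) (G : SimpleGraph V) : 0 ≤ wt p G := by
  unfold wt
  have := sub_nonneg.2 h1
  positivity

lemma Ex_mono {p : ℝ} (h0 : 0 ≤ p) (h1 : p ≤ 1) {f g : SimpleGraph V → ℝ} (h : ∀ G, f G ≤ g G) :
    Ex p f ≤ Ex p g := by
  unfold Ex
  exact Finset.sum_le_sum fun G _ => mul_le_mul_of_nonneg_left (h G) (wt_nonneg h0 h1 G)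

lemma Ex_add (p : ℝ) (f g : SimpleGraph V → ℝ) :
    Ex p (fun G => f G + g G) = Ex p f + Ex p g := by
  unfold Ex
  rw [← Finset.sum_add_distrib]
  exact Finset.sum_congr rfl fun G _ => mul_add _ _ _

lemma Ex_smul (p c : ℝ) (f : SimpleGraph V → ℝ) :
    Ex p (fun G => c * f G) = c * Ex p f := by
  unfold Ex
  rw [Finset.mul_sum]
  exact Finset.sum_congr rfl fun G _ => by ring

lemma Ex_sum {ι : Type*} (p : ℝ) (s : Finset ι) (f : ι → SimpleGraph V → ℝ) :
    Ex p (fun G => ∑ i ∈ s, f i G) = ∑ i ∈ s, Ex p (f i) := by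
  unfold Ex
  simp_rw [Finset.mul_sum]
  exact Finset.sum_comm

lemma Ex_const (p c : ℝ) : Ex p (fun _ : SimpleGraph V => c) = c := by
  have h := Pr_subset (V := V) p ∅ (by simp)
  simp only [Pr, empty_subset, if_true, card_empty, pow_zero] at h
  have := Ex_smul (V := V) p c (fun _ => 1)
  rw [h] at this
  simpa using this

lemma Pr_nonneg {p : ℝ} (h0 : 0 ≤ p) (h1 : p ≤ 1) (A : SimpleGraph V → Prop) : 0 ≤ Pr p A := by
  have := Ex_mono (V := V) h0 h1 (f := fun _ => 0) (g := fun G => if A G then 1 else 0)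
    (fun G => by split_ifs <;> norm_num)
  rw [Ex_const] at this
  exact this

lemma Pr_mono {p : ℝ} (h0 : 0 ≤ p) (h1 : p ≤ 1) {A B : SimpleGraph V → Prop}
    (h : ∀ G, A G → B G) : Pr p A ≤ Pr p B := by
  refine Ex_mono h0 h1 fun G => ?_
  by_cases hA : A G
  · simp [hA, h G hA]
  · simp only [hA, if_false]
    split_ifs <;> norm_num

lemma Pr_le_one {p : ℝ} (h0 : 0 ≤ p) (h1 : p ≤ 1) (A : SimpleGraph V → Prop) : Pr p A ≤ 1 := by
  have := Ex_mono (V := V) h0 h1 (f := fun G => if A G then 1 else 0) (g := fun _ => 1)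
    (fun G => by split_ifs <;> norm_num)
  rw [Ex_const] at this
  exact this

lemma Pr_not (p : ℝ) (A : SimpleGraph V → Prop) : Pr p (fun G => ¬ A G) = 1 - Pr p A := by
  have h : Pr p (fun G => ¬ A G) + Pr p A = 1 := by
    have h2 := Ex_const (V := V) p 1
    unfold Pr
    rw [← Ex_add, ← h2]
    refine congrArg (Ex p) ?_
    ext G
    by_cases hA : A G
    · simp [hA, h2]
    · simp [hA, h2]
  linarith

/-- union bound -/
lemma Pr_exists_le {ι : Type*} {p : ℝ} (h0 : 0 ≤ p) (h1 : p ≤ 1) (s : Finset ι)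
    (A : ι → SimpleGraph V → Prop) :
    Pr p (fun G => ∃ i ∈ s, A i G) ≤ ∑ i ∈ s, Pr p (A i) := by
  unfold Pr
  rw [← Ex_sum]
  refine Ex_mono h0 h1 fun G => ?_
  by_cases h : ∃ i ∈ s, A i G
  · rw [if_pos h]
    obtain ⟨i, hi, hA⟩ := h
    have := Finset.single_le_sum (f := fun i => if A i G then (1:ℝ) else 0)
      (fun j _ => by split_ifs <;> norm_num) hi
    simp only [hA, if_true] at this
    exact this
  · rw [if_neg h]
    exact Finset.sum_nonneg fun j _ => by split_ifs <;> norm_num

lemma Pr_or_le {p : ℝ} (h0 : 0 ≤ p) (h1 : p ≤ 1) (A B : SimpleGraph V → Prop) :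
    Pr p (fun G => A G ∨ B G) ≤ Pr p A + Pr p B := by
  unfold Pr
  rw [← Ex_add]
  refine Ex_mono h0 h1 fun G => ?_
  by_cases hA : A G <;> by_cases hB : B G <;> simp [hA, hB]

/-- connection to Mathlib's `G(V, p)` -/
lemma real_binomialRandom (p : I) (A : SimpleGraph V → Prop) :
    (binomialRandom V p).real {G | A G} = Pr (p : ℝ) A := by
  have hfin : ({G : SimpleGraph V | A G}) = ⋃ G ∈ univ.filter (fun G => A G), {G} := by
    ext G; simp
  have hms : ∀ G : SimpleGraph V, MeasurableSet ({G} : Set (SimpleGraph V)) := by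
    intro G
    have := (measurableEmbedding_edgeSet (V := V)).measurable
      (Set.Finite.measurableSet (Set.finite_singleton G.edgeSet))
    convert this using 1
    ext G'
    simp
  rw [hfin, measureReal_biUnion_finset (by
    intro G _ G' _ hne
    simpa using hne) (fun G _ => hms G)]
  unfold Pr Ex
  rw [Finset.sum_filter]
  refine Finset.sum_congr rfl fun G _ => ?_
  by_cases hA : A G
  · simp only [if_pos hA]
    rw [mul_one, measureReal_def, binomialRandom_singleton]
    have hcard : ((Nat.card V).choose 2) = (allE V).card := by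
      rw [Nat.card_eq_fintype_card, ← Sym2.card_subtype_not_diag, Fintype.card_subtype]
      rfl
    have h2 : G.edgeSet.ncard = G.edgeFinset.card := by
      rw [← coe_edgeFinset, Set.ncard_coe_finset]
    rw [hcard, h2]
    unfold wt
    simp [ENNReal.toReal_mul, ENNReal.toReal_pow]
  · simp only [if_neg hA, mul_zero]

end finite

end MP30c94c
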