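import Mathlib
import Pool.Agent.Lib.MP30c94c.Prob

/-!
# Common definitions for the modules of MP_30c94c_pr
-/

open SimpleGraph Finset

namespace MP30c94c

attribute [local instance] Classical.propDecidable

/-- number of edges of `G` inside the vertex set `U` -/
noncomputable def eIn {V : Type*} [Fintype V] (G : SimpleGraph V) (U : Finset V) : ℕ :=
  (G.edgeFinset.filter fun e => ∀ v ∈ e, v ∈ U).card

/-- `G` contains a copy of `F` -/
def Contains {W V : Type*} (F : SimpleGraph W) (G : SimpleGraph V) : Prop :=
  ∃ f : W ↪ V, ∀ a b, F.Adj a b → G.Adj (f a) (f b)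

end MP30c94c
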