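import Mathlib
import Pool.Agent.Lib.MP30c94c.Basic

/-! # Module CN: connectivity, non-bipartiteness and minimum degree of `G(n, C n^{-x})`, `x < 1` -/

open SimpleGraph Finset Filter

namespace MP30c94c

attribute [local instance] Classical.propDecidable

namespace CN

variable {V : Type*} [Fintype V]

/-- the pairs between `S` and its complement -/
noncomputable def cutE (S : Finset V) : Finset (Sym2 V) :=
  (S ×ˢ Sᶜ).image (fun q => s(q.1, q.2))

lemma cutE_sub (S : Finset V) : cutE S ⊆ allE V := by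
  intro e he
  simp only [cutE, mem_image, mem_product, mem_compl] at he
  obtain ⟨⟨a, b⟩, ⟨ha, hb⟩, rfl⟩ := he
  simp only [allE, mem_filter, mem_univ, true_and, Sym2.mk_isDiag_iff]
  rintro rfl
  exact hb ha

lemma card_cutE (S : Finset V) : (cutE S).card = S.card * (Fintype.card V - S.card) := by
  unfold cutE
  rw [card_image_of_injOn, card_product, card_compl]
  rintro ⟨a, b⟩ hab ⟨c, d⟩ hcd h
  simp only [coe_product, Set.mem_prod, mem_coe, mem_compl] at hab hcd
  simp only [Sym2.eq_iff] at h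
  rcases h with ⟨rfl, rfl⟩ | ⟨rfl, rfl⟩
  · rfl
  · exact absurd hcd.1 hab.2

/-- the pairs inside `S` -/
noncomputable def inE (S : Finset V) : Finset (Sym2 V) :=
  S.offDiag.image (fun q => s(q.1, q.2))

lemma inE_sub (S : Finset V) : inE S ⊆ allE V := by
  intro e he
  simp only [inE, mem_image, mem_offDiag] at he
  obtain ⟨⟨a, b⟩, ⟨ha, hb, hab⟩, rfl⟩ := he
  simpa [allE] using hab

omit [Fintype V] in
lemma card_inE (S : Finset V) : (inE S).card = S.card.choose 2 :=
  Sym2.card_image_offDiag S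

/-- the pairs `{v, w}`, `w ∉ J` -/
noncomputable def starE (v : V) (J : Finset V) : Finset (Sym2 V) :=
  ((insert v J)ᶜ).image (fun w => s(v, w))

lemma starE_sub (v : V) (J : Finset V) : starE v J ⊆ allE V := by
  intro e he
  simp only [starE, mem_image, mem_compl, mem_insert, not_or] at he
  obtain ⟨w, ⟨h1, h2⟩, rfl⟩ := he
  simp only [allE, mem_filter, mem_univ, true_and, Sym2.mk_isDiag_iff]
  exact fun h => h1 h.symm

lemma card_starE (v : V) (J : Finset V) :
    Fintype.card V ≤ (starE v J).card + (J.card + 1) := by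
  unfold starE
  rw [card_image_of_injective]
  · have h1 := card_compl (insert v J)
    have h2 := card_insert_le v J
    omega
  · intro a b h
    simp only [Sym2.eq_iff] at h
    rcases h with ⟨_, h⟩ | ⟨h1, h2⟩
    · exact h
    · rw [← h1, ← h2]

lemma pow_le_exp {p : ℝ} (h1 : p ≤ 1) (k : ℕ) : (1 - p) ^ k ≤ Real.exp (-(p * k)) := by
  have h := Real.one_sub_le_exp_neg p
  calc (1 - p) ^ k ≤ (Real.exp (-p)) ^ k := pow_le_pow_left₀ (by linarith) h k
    _ = Real.exp (-(p * k)) := by
        rw [← Real.exp_nat_mul]; congr 1; ring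

/-- not connected: a sparse cut -/
lemma exists_cut [Nonempty V] {G : SimpleGraph V} (h : ¬ G.Connected) :
    ∃ S : Finset V, S.Nonempty ∧ 2 * S.card ≤ Fintype.card V ∧ Disjoint (cutE S) G.edgeFinset := by
  have h1 : ¬ G.Preconnected := fun hp => h ⟨hp⟩
  simp only [SimpleGraph.Preconnected, not_forall] at h1
  obtain ⟨u, v, huv⟩ := h1
  set R : Finset V := univ.filter fun w => G.Reachable u w with hR
  have huR : u ∈ R := by simp [hR]
  have hvR : v ∉ R := by simpa [hR] using huv
  have hno : ∀ a ∈ R, ∀ b ∉ R, ¬ G.Adj a b := by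
    intro a ha b hb hab
    apply hb
    simp only [hR, mem_filter, mem_univ, true_and] at ha ⊢
    exact ha.trans hab.reachable
  by_cases hc : 2 * R.card ≤ Fintype.card V
  · refine ⟨R, ⟨u, huR⟩, hc, ?_⟩
    rw [Finset.disjoint_left]
    intro e he
    simp only [cutE, mem_image, mem_product, mem_compl] at he
    obtain ⟨⟨a, b⟩, ⟨ha, hb⟩, rfl⟩ := he
    simp only [mem_edgeFinset, mem_edgeSet]
    exact hno a ha b hb
  · refine ⟨Rᶜ, ⟨v, by simpa using hvR⟩, ?_, ?_⟩
    · rw [card_compl]; omega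
    · rw [Finset.disjoint_left]
      intro e he
      simp only [cutE, mem_image, mem_product, compl_compl, mem_compl] at he
      obtain ⟨⟨a, b⟩, ⟨ha, hb⟩, rfl⟩ := he
      simp only [mem_edgeFinset, mem_edgeSet]
      exact fun hab => hno b hb a ha hab.symm

/-- 2-colourable: a large independent set -/
lemma exists_indep {G : SimpleGraph V} (h : G.Colorable 2) :
    ∃ S : Finset V, Fintype.card V ≤ 2 * S.card ∧ Disjoint (inE S) G.edgeFinset := by
  obtain ⟨c⟩ := h
  have hval : ∀ {a b}, G.Adj a b → c a ≠ c b := fun hab => c.valid hab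
  have key : ∀ i : Fin 2, Disjoint (inE (univ.filter fun v => c v = i)) G.edgeFinset := by
    intro i
    rw [Finset.disjoint_left]
    intro e he
    simp only [inE, mem_image, mem_offDiag, mem_filter, mem_univ, true_and] at he
    obtain ⟨⟨a, b⟩, ⟨ha, hb, hab⟩, rfl⟩ := he
    simp only [mem_edgeFinset, mem_edgeSet]
    intro hadj
    exact hval hadj (ha.trans hb.symm)
  have hsum : (univ.filter fun v => c v = 0).card + (univ.filter fun v => c v = 1).card
      = Fintype.card V := by
    have h1 := Finset.card_filter_add_card_filter_not (s := (univ : Finset V)) (fun v => c v = 0)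
    rw [Finset.card_univ] at h1
    rw [← h1]
    congr 2
    ext v
    simp only [mem_filter, mem_univ, true_and]
    generalize c v = i
    fin_cases i <;> simp
  by_cases hc : Fintype.card V ≤ 2 * (univ.filter fun v => c v = 0).card
  · exact ⟨_, hc, key 0⟩
  · exact ⟨_, by omega, key 1⟩

/-- small degree: a star with few missing leaves -/
lemma exists_star [Nonempty V] {G : SimpleGraph V} {D : ℕ} {v : V}
    (h : (univ.filter fun w => G.Adj v w).card < D) :
    ∃ f : Fin D → V, Disjoint (starE v (univ.image f)) G.edgeFinset := by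
  set N := univ.filter fun w => G.Adj v w with hN
  have hD : 0 < D := by omega
  -- a surjection onto N
  obtain ⟨f, hf⟩ : ∃ f : Fin D → V, N ⊆ univ.image f := by
    let e := N.equivFin
    refine ⟨fun i => if hi : (i : ℕ) < N.card then (e.symm ⟨i, hi⟩ : V)
      else Classical.arbitrary V, ?_⟩
    intro w hw
    simp only [mem_image, mem_univ, true_and]
    have h1 := (e ⟨w, hw⟩).2
    refine ⟨⟨(e ⟨w, hw⟩ : ℕ), by omega⟩, ?_⟩
    simp
  refine ⟨f, ?_⟩
  rw [Finset.disjoint_left]
  intro e he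
  simp only [starE, mem_image, mem_compl, mem_insert, not_or] at he
  obtain ⟨w, ⟨h1, h2⟩, rfl⟩ := he
  simp only [mem_edgeFinset, mem_edgeSet]
  intro hadj
  have : w ∈ N := by simpa [hN] using hadj
  have := hf this
  simp only [mem_image, mem_univ, true_and] at this
  exact h2 (by simpa using this)

lemma bound_cut {n : ℕ} {p : ℝ} (h0 : 0 ≤ p) (h1 : p ≤ 1) :
    Pr (V := Fin n) p (fun G => ∃ S ∈ (univ.filter fun S : Finset (Fin n) =>
      S.Nonempty ∧ 2 * S.card ≤ n), Disjoint (cutE S) G.edgeFinset)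
      ≤ (1 + Real.exp (-(p * n / 2))) ^ n - 1 := by
  refine (Pr_exists_le h0 h1 _ _).trans ?_
  set ρ := Real.exp (-(p * n / 2)) with hρ
  have hsum : ∑ S : Finset (Fin n), ρ ^ S.card = (1 + ρ) ^ n := by
    have := Finset.sum_pow_mul_eq_add_pow ρ 1 (univ : Finset (Fin n))
    simp only [one_pow, mul_one, card_univ, Fintype.card_fin] at this
    rw [add_comm] 
    rw [← this]
    simp
  have hle : ∑ S ∈ (univ.filter fun S : Finset (Fin n) => S.Nonempty ∧ 2 * S.card ≤ n),
      Pr (V := Fin n) p (fun G => Disjoint (cutE S) G.edgeFinset)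
      ≤ ∑ S ∈ (univ.filter fun S : Finset (Fin n) => S.Nonempty ∧ 2 * S.card ≤ n),
          ρ ^ S.card := by
    refine Finset.sum_le_sum fun S hS => ?_
    simp only [mem_filter, mem_univ, true_and] at hS
    rw [Pr_disjoint p _ (cutE_sub S), card_cutE, Fintype.card_fin]
    refine (pow_le_exp h1 _).trans ?_
    rw [hρ, ← Real.exp_nat_mul]
    apply Real.exp_le_exp.2
    have hc : S.card ≤ n := by omega
    have h2 : (n : ℝ) / 2 ≤ ((n - S.card : ℕ) : ℝ) := by
      rw [Nat.cast_sub hc]
      have : (2 : ℝ) * S.card ≤ n := by exact_mod_cast hS.2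
      linarith
    push_cast
    have h3 : (0 : ℝ) ≤ p * S.card := by positivity
    have := mul_le_mul_of_nonneg_left h2 h3
    nlinarith [this]
  refine hle.trans ?_
  have hmem : (∅ : Finset (Fin n)) ∉
      (univ.filter fun S : Finset (Fin n) => S.Nonempty ∧ 2 * S.card ≤ n) := by simp
  have h2 : ∑ S ∈ Finset.cons ∅ _ hmem, ρ ^ S.card ≤ ∑ S : Finset (Fin n), ρ ^ S.card :=
    Finset.sum_le_sum_of_subset_of_nonneg (subset_univ _) fun S _ _ => by positivity
  rw [hsum, Finset.sum_cons] at h2
  simp only [card_empty, pow_zero] at h2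
  linarith

lemma bound_indep {n : ℕ} {p : ℝ} (h0 : 0 ≤ p) (h1 : p ≤ 1) (hn : 8 ≤ n) :
    Pr (V := Fin n) p (fun G => ∃ S ∈ (univ.filter fun S : Finset (Fin n) =>
      n ≤ 2 * S.card), Disjoint (inE S) G.edgeFinset)
      ≤ 2 ^ n * Real.exp (-(p * ((n : ℝ) ^ 2 / 16))) := by
  refine (Pr_exists_le h0 h1 _ _).trans ?_
  calc _ ≤ ∑ S ∈ (univ.filter fun S : Finset (Fin n) => n ≤ 2 * S.card),
        Real.exp (-(p * ((n : ℝ) ^ 2 / 16))) := by
        refine Finset.sum_le_sum fun S hS => ?_
        simp only [mem_filter, mem_univ, true_and] at hS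
        rw [Pr_disjoint p _ (inE_sub S), card_inE]
        refine (pow_le_exp h1 _).trans ?_
        apply Real.exp_le_exp.2
        have h2 : ((n : ℝ) ^ 2 / 16) ≤ ((S.card.choose 2 : ℕ) : ℝ) := by
          rw [Nat.cast_choose_two]
          have h3 : (n : ℝ) / 2 ≤ S.card := by
            have : (n : ℝ) ≤ 2 * S.card := by exact_mod_cast hS
            linarith
          have h4 : (8 : ℝ) ≤ n := by exact_mod_cast hn
          nlinarith
        have := mul_le_mul_of_nonneg_left h2 h0
        linarith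
    _ ≤ _ := by
        rw [sum_const, nsmul_eq_mul]
        refine mul_le_mul_of_nonneg_right ?_ (Real.exp_pos _).le
        have : (univ.filter fun S : Finset (Fin n) => n ≤ 2 * S.card).card ≤ 2 ^ n := by
          refine (card_filter_le _ _).trans ?_
          simp
        exact_mod_cast this

lemma bound_star {n : ℕ} {p : ℝ} (h0 : 0 ≤ p) (h1 : p ≤ 1) (D : ℕ) (hn : 2 * (D + 1) ≤ n) :
    Pr (V := Fin n) p (fun G => ∃ q ∈ (univ : Finset (Fin n × (Fin D → Fin n))),
      Disjoint (starE q.1 (univ.image q.2)) G.edgeFinset)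
      ≤ (n : ℝ) ^ (D + 1) * Real.exp (-(p * n / 2)) := by
  refine (Pr_exists_le h0 h1 _ _).trans ?_
  calc _ ≤ ∑ q ∈ (univ : Finset (Fin n × (Fin D → Fin n))),
        Real.exp (-(p * n / 2)) := by
        refine Finset.sum_le_sum fun q _ => ?_
        rw [Pr_disjoint p _ (starE_sub _ _)]
        refine (pow_le_exp h1 _).trans ?_
        apply Real.exp_le_exp.2
        have h2 := card_starE q.1 (univ.image q.2)
        rw [Fintype.card_fin] at h2
        have h3 : (univ.image q.2).card ≤ D := by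
          refine card_image_le.trans ?_
          simp
        have h4 : (n : ℝ) / 2 ≤ ((starE q.1 (univ.image q.2)).card : ℝ) := by
          have : n ≤ 2 * (starE q.1 (univ.image q.2)).card := by omega
          have : (n : ℝ) ≤ 2 * (starE q.1 (univ.image q.2)).card := by exact_mod_cast this
          linarith
        have := mul_le_mul_of_nonneg_left h4 h0
        linarith
    _ ≤ _ := by
        rw [sum_const, nsmul_eq_mul]
        refine mul_le_mul_of_nonneg_right ?_ (Real.exp_pos _).le
        simp [pow_succ, mul_comm]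

lemma total_bound {n : ℕ} {p : ℝ} (h0 : 0 ≤ p) (h1 : p ≤ 1) (D : ℕ) (hn : 2 * (D + 1) ≤ n)
    (hn8 : 8 ≤ n) :
    Pr (V := Fin n) p (fun G => ¬ (G.Connected ∧ ¬ G.Colorable 2 ∧
        ∀ v, D ≤ (univ.filter fun w => G.Adj v w).card)) ≤
      ((1 + Real.exp (-(p * n / 2))) ^ n - 1) +
      (2 ^ n * Real.exp (-(p * ((n : ℝ) ^ 2 / 16))) +
        (n : ℝ) ^ (D + 1) * Real.exp (-(p * n / 2))) := by
  have : Nonempty (Fin n) := ⟨⟨0, by omega⟩⟩
  refine le_trans (Pr_mono h0 h1 (B := fun G =>
    (∃ S ∈ (univ.filter fun S : Finset (Fin n) =>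
      S.Nonempty ∧ 2 * S.card ≤ n), Disjoint (cutE S) G.edgeFinset) ∨
    ((∃ S ∈ (univ.filter fun S : Finset (Fin n) =>
      n ≤ 2 * S.card), Disjoint (inE S) G.edgeFinset) ∨
     (∃ q ∈ (univ : Finset (Fin n × (Fin D → Fin n))),
      Disjoint (starE q.1 (univ.image q.2)) G.edgeFinset))) ?_) ?_
  · intro G hG
    by_cases hc : G.Connected
    · by_cases hb : G.Colorable 2
      · right; left
        obtain ⟨S, h2, h3⟩ := exists_indep hb
        exact ⟨S, by simpa using h2, h3⟩
      · right; right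
        have : ∃ v, (univ.filter fun w => G.Adj v w).card < D := by
          by_contra hcon
          push Not at hcon
          exact hG ⟨hc, hb, hcon⟩
        obtain ⟨v, hv⟩ := this
        obtain ⟨f, hf⟩ := exists_star hv
        refine ⟨(v, f), mem_univ _, ?_⟩
        rw [Finset.disjoint_left] at hf ⊢
        intro e he
        refine hf ?_
        simp only [starE, mem_image, mem_compl, mem_insert, not_or] at he ⊢
        exact he
    · left
      obtain ⟨S, h2, h3, h4⟩ := exists_cut hc
      rw [Fintype.card_fin] at h3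
      exact ⟨S, by simpa using ⟨h2, h3⟩, h4⟩
  · refine (Pr_or_le h0 h1 _ _).trans (add_le_add (bound_cut h0 h1) ?_)
    exact (Pr_or_le h0 h1 _ _).trans (add_le_add (bound_indep h0 h1 hn8) (bound_star h0 h1 D hn))

end CN

open CN in
theorem good_whp (x : ℝ) (_hx0 : 0 < x) (hx : x < 1) (D : ℕ) (C : ℝ) (hC : 0 < C)
    (δ : ℝ) (hδ : 0 < δ) :
    ∀ᶠ n : ℕ in atTop, ∀ p : ℝ, p = C * (n : ℝ) ^ (-x) → p ≤ 1 →
      Pr (V := Fin n) p (fun G => ¬ (G.Connected ∧ ¬ G.Colorable 2 ∧
        ∀ v, D ≤ (univ.filter fun w => G.Adj v w).card)) ≤ δ := by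
  -- `y n = n^{1-x} → ∞`
  have hy : Tendsto (fun n : ℕ => (n : ℝ) ^ (1 - x)) atTop atTop :=
    (tendsto_rpow_atTop (by linarith)).comp tendsto_natCast_atTop_atTop
  have hA : Tendsto (fun n : ℕ => (n : ℝ) ^ (D + 1) * Real.exp (-(C * (n : ℝ) ^ (1 - x) / 2)))
      atTop (nhds 0) := by
    have h1 := (tendsto_rpow_mul_exp_neg_mul_atTop_nhds_zero ((D + 1 : ℕ) / (1 - x)) (C / 2)
      (by positivity)).comp hy
    refine h1.congr' ?_
    filter_upwards [eventually_gt_atTop 0] with n hn
    have hn' : (0 : ℝ) < n := by exact_mod_cast hn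
    simp only [Function.comp]
    rw [← Real.rpow_mul hn'.le, mul_div_cancel₀ _ (by linarith : (1 - x) ≠ 0), Real.rpow_natCast]
    congr 2
    ring
  have hB : Tendsto (fun n : ℕ => (n : ℝ) * Real.exp (-(C * (n : ℝ) ^ (1 - x) / 2)))
      atTop (nhds 0) := by
    have h1 := (tendsto_rpow_mul_exp_neg_mul_atTop_nhds_zero (1 / (1 - x)) (C / 2)
      (by positivity)).comp hy
    refine h1.congr' ?_
    filter_upwards [eventually_gt_atTop 0] with n hn
    have hn' : (0 : ℝ) < n := by exact_mod_cast hn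
    simp only [Function.comp]
    rw [← Real.rpow_mul hn'.le, mul_div_cancel₀ _ (by linarith : (1 - x) ≠ 0), Real.rpow_one]
    congr 2
    ring
  have hB2 : Tendsto (fun n : ℕ => Real.exp ((n : ℝ) * Real.exp (-(C * (n : ℝ) ^ (1 - x) / 2)))
      - 1) atTop (nhds 0) := by
    have := ((Real.continuous_exp.tendsto 0).comp hB).sub_const 1
    simpa using this
  have hE : Tendsto (fun n : ℕ => Real.exp (-(n : ℝ))) atTop (nhds 0) :=
    Real.tendsto_exp_neg_atTop_nhds_zero.comp tendsto_natCast_atTop_atTop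
  filter_upwards [hA.eventually_le_const (show (0 : ℝ) < δ / 3 by positivity),
    hB2.eventually_le_const (show (0 : ℝ) < δ / 3 by positivity),
    hE.eventually_le_const (show (0 : ℝ) < δ / 3 by positivity),
    hy.eventually_ge_atTop (32 / C), eventually_ge_atTop (2 * (D + 1)),
    eventually_ge_atTop 8] with n h1 h2 h3 h4 h5 h6 p hp hp1
  have hn' : (0 : ℝ) < n := by
    have : 0 < n := by omega
    exact_mod_cast this
  have hp0 : 0 ≤ p := by rw [hp]; positivity
  have hpn : p * n = C * (n : ℝ) ^ (1 - x) := by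
    rw [hp, sub_eq_add_neg, Real.rpow_add hn', Real.rpow_one]
    ring
  refine (total_bound hp0 hp1 D h5 h6).trans ?_
  have e1 : (1 + Real.exp (-(p * n / 2))) ^ n - 1 ≤ δ / 3 := by
    refine le_trans ?_ h2
    rw [hpn]
    gcongr
    have := Real.add_one_le_exp (Real.exp (-(C * (n : ℝ) ^ (1 - x) / 2)))
    calc (1 + Real.exp (-(C * (n : ℝ) ^ (1 - x) / 2))) ^ n
        ≤ (Real.exp (Real.exp (-(C * (n : ℝ) ^ (1 - x) / 2)))) ^ n := by
          refine pow_le_pow_left₀ (by positivity) (by linarith) n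
      _ = _ := by rw [← Real.exp_nat_mul]
  have e3 : (n : ℝ) ^ (D + 1) * Real.exp (-(p * n / 2)) ≤ δ / 3 := by
    rw [hpn]; exact h1
  have e2 : (2 : ℝ) ^ n * Real.exp (-(p * ((n : ℝ) ^ 2 / 16))) ≤ δ / 3 := by
    refine le_trans ?_ h3
    have g1 : (2 : ℝ) ^ n ≤ Real.exp n := by
      have := Real.add_one_le_exp (1 : ℝ)
      calc (2 : ℝ) ^ n ≤ (Real.exp 1) ^ n := pow_le_pow_left₀ (by norm_num) (by linarith) n
        _ = Real.exp n := by rw [← Real.exp_nat_mul, mul_one]
    have g2 : p * ((n : ℝ) ^ 2 / 16) ≥ 2 * n := by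
      have : p * ((n : ℝ) ^ 2 / 16) = (C * (n : ℝ) ^ (1 - x)) * n / 16 := by
        rw [← hpn]; ring
      rw [this]
      have g3 : 32 ≤ C * (n : ℝ) ^ (1 - x) := by
        have := mul_le_mul_of_nonneg_left h4 hC.le
        rwa [mul_div_cancel₀ _ hC.ne'] at this
      nlinarith
    calc (2 : ℝ) ^ n * Real.exp (-(p * ((n : ℝ) ^ 2 / 16)))
        ≤ Real.exp n * Real.exp (-(2 * n)) := by
          refine mul_le_mul g1 (Real.exp_le_exp.2 (by linarith)) (Real.exp_pos _).le
            (Real.exp_pos _).le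
      _ = Real.exp (-(n : ℝ)) := by rw [← Real.exp_add]; congr 1; ring
  linarith

end MP30c94c
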