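import Mathlib
import Pool.Agent.Lib.MP30c94c.Basic

/-!
# First moment: dense small vertex sets do not appear below the threshold
-/

open SimpleGraph Finset Filter

namespace MP30c94c

attribute [local instance] Classical.propDecidable

set_option linter.unusedSectionVars false

section finite
variable {V : Type*} [Fintype V]

/-- pairs inside `S` -/
noncomputable def pairsIn (S : Finset V) : Finset (Sym2 V) :=
  (allE V).filter fun e => ∀ v ∈ e, v ∈ S

lemma card_pairsIn_le (S : Finset V) : (pairsIn S).card ≤ (S.card + 1) ^ 2 := by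
  have h1 : pairsIn S ⊆ S.sym2 := by
    intro e he
    rw [Finset.mem_sym2_iff]
    exact (mem_filter.1 he).2
  refine (Finset.card_le_card h1).trans ?_
  rw [Finset.card_sym2, Nat.choose_two_right]
  refine (Nat.div_le_self _ _).trans ?_
  have : S.card + 1 - 1 ≤ S.card + 1 := Nat.sub_le _ _
  calc (S.card + 1) * (S.card + 1 - 1) ≤ (S.card + 1) * (S.card + 1) :=
        Nat.mul_le_mul_left _ this
    _ = (S.card + 1) ^ 2 := by ring

lemma Pr_edges_ge {p : ℝ} (h0 : 0 ≤ p) (h1 : p ≤ 1) (S : Finset V) (m : ℕ) :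
    Pr p (fun G => m ≤ eIn G S) ≤ 2 ^ ((S.card + 1) ^ 2) * p ^ m := by
  have h2 : Pr p (fun G => m ≤ eIn G S) ≤
      Pr p (fun G => ∃ T ∈ (pairsIn S).powersetCard m, T ⊆ G.edgeFinset) := by
    refine Pr_mono h0 h1 fun G hG => ?_
    obtain ⟨T, hT, hTc⟩ := Finset.exists_subset_card_eq hG
    refine ⟨T, ?_, hT.trans (Finset.filter_subset _ _)⟩
    rw [mem_powersetCard]
    refine ⟨hT.trans ?_, hTc⟩
    intro e he
    rw [mem_filter] at he
    exact mem_filter.2 ⟨edgeFinset_subset_allE G he.1, he.2⟩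
  refine h2.trans ((Pr_exists_le h0 h1 _ _).trans ?_)
  have h3 : ∀ T ∈ (pairsIn S).powersetCard m, Pr p (fun G => T ⊆ G.edgeFinset) = p ^ m := by
    intro T hT
    rw [mem_powersetCard] at hT
    rw [Pr_subset p T (hT.1.trans (Finset.filter_subset _ _)), hT.2]
  rw [Finset.sum_congr rfl h3, Finset.sum_const, nsmul_eq_mul]
  refine mul_le_mul_of_nonneg_right ?_ (pow_nonneg h0 m)
  have h4 : ((pairsIn S).powersetCard m).card ≤ 2 ^ ((S.card + 1) ^ 2) := by
    calc ((pairsIn S).powersetCard m).card ≤ ((pairsIn S).powerset).card :=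
          Finset.card_le_card (by
            intro T hT
            rw [mem_powersetCard] at hT
            exact mem_powerset.2 hT.1)
      _ = 2 ^ (pairsIn S).card := Finset.card_powerset _
      _ ≤ _ := Nat.pow_le_pow_right (by norm_num) (card_pairsIn_le S)
  exact_mod_cast h4

end finite

/-- First moment bound. -/
theorem first_moment (N X : ℤ) (hN : 0 < N) (hX : 0 < X) (L : ℕ) :
    ∃ c : ℝ, 0 < c ∧ c ≤ 1 ∧ ∀ n : ℕ, 1 ≤ n → ∀ p : ℝ, 0 ≤ p →
      p ≤ c * (n : ℝ) ^ (-((X : ℝ) / N)) →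
      Pr (V := Fin n) p (fun G => ∃ S : Finset (Fin n), S.Nonempty ∧ S.card ≤ L ∧
        N * (S.card : ℤ) ≤ X * (eIn G S : ℤ)) ≤ 1 / 4 := by
  set A : ℝ := 2 ^ ((L + 1) ^ 2) with hA
  have hApos : 0 < A := by positivity
  refine ⟨1 / (4 * A * (L + 1)), by positivity, ?_, ?_⟩
  · rw [div_le_one (by positivity)]
    have h1 : (1:ℝ) ≤ A := one_le_pow₀ (by norm_num)
    have h2 : (0:ℝ) ≤ L := by positivity
    nlinarith
  intro n hn p hp0 hp
  set c : ℝ := 1 / (4 * A * (L + 1)) with hc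
  have hcpos : 0 < c := by positivity
  have hc1 : c ≤ 1 := by
    rw [hc, div_le_one (by positivity)]
    have h1 : (1:ℝ) ≤ A := one_le_pow₀ (by norm_num)
    have h2 : (0:ℝ) ≤ L := by positivity
    nlinarith
  have hNr : (0:ℝ) < N := by exact_mod_cast hN
  have hXr : (0:ℝ) < X := by exact_mod_cast hX
  have hn' : (1:ℝ) ≤ n := by exact_mod_cast hn
  have hp1 : p ≤ 1 := by
    refine hp.trans ?_
    have h2 : (n:ℝ) ^ (-((X : ℝ) / N)) ≤ 1 :=
      Real.rpow_le_one_of_one_le_of_nonpos hn' (by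
        have := div_pos hXr hNr
        linarith)
    have h3 : 0 ≤ (n:ℝ) ^ (-((X : ℝ) / N)) := by positivity
    nlinarith
  -- bound for a fixed set
  have hfix : ∀ S : Finset (Fin n), S.Nonempty → S.card ≤ L →
      Pr (V := Fin n) p (fun G => N * (S.card : ℤ) ≤ X * (eIn G S : ℤ)) ≤
        A * c * ((n:ℝ) ^ S.card)⁻¹ := by
    intro S hS hSL
    set s := S.card with hs
    have hspos : 0 < s := Finset.card_pos.2 hS
    set m : ℕ := ⌈(N:ℝ) * s / X⌉₊ with hm
    have hmge : (N:ℝ) * s / X ≤ m := Nat.le_ceil _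
    have hmpos : 1 ≤ m := by
      rw [hm, Nat.one_le_ceil_iff]
      positivity
    have h1 : Pr (V := Fin n) p (fun G => N * (s : ℤ) ≤ X * (eIn G S : ℤ)) ≤
        Pr (V := Fin n) p (fun G => m ≤ eIn G S) := by
      refine Pr_mono hp0 hp1 fun G hG => ?_
      rw [hm, Nat.ceil_le, div_le_iff₀ hXr]
      have : ((N * (s : ℤ) : ℤ) : ℝ) ≤ ((X * (eIn G S : ℤ) : ℤ) : ℝ) := by exact_mod_cast hG
      push_cast at this
      linarith
    refine h1.trans ((Pr_edges_ge hp0 hp1 S m).trans ?_)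
    have h2 : (2:ℝ) ^ ((S.card + 1) ^ 2) ≤ A := by
      rw [hA]
      exact pow_le_pow_right₀ (by norm_num) (Nat.pow_le_pow_left (by omega) 2)
    have h3 : p ^ m ≤ c * ((n:ℝ) ^ s)⁻¹ := by
      calc p ^ m ≤ (c * (n : ℝ) ^ (-((X : ℝ) / N))) ^ m := pow_le_pow_left₀ hp0 hp m
        _ = c ^ m * ((n : ℝ) ^ (-((X : ℝ) / N))) ^ m := mul_pow _ _ _
        _ ≤ c * ((n:ℝ) ^ s)⁻¹ := by
          refine mul_le_mul ?_ ?_ (by positivity) hcpos.le
          · calc c ^ m ≤ c ^ 1 := pow_le_pow_of_le_one hcpos.le hc1 hmpos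
              _ = c := pow_one c
          · rw [← Real.rpow_natCast, ← Real.rpow_mul (by positivity), ← Real.rpow_natCast (n:ℝ) s,
              ← Real.rpow_neg (by positivity)]
            refine Real.rpow_le_rpow_of_exponent_le hn' ?_
            have h4 : (s:ℝ) ≤ (X : ℝ) / N * m := by
              calc (s:ℝ) = (X : ℝ) / N * ((N:ℝ) * s / X) := by field_simp
                _ ≤ (X : ℝ) / N * m := mul_le_mul_of_nonneg_left hmge (by positivity)
            linarith
    calc (2:ℝ) ^ ((S.card + 1) ^ 2) * p ^ m ≤ A * (c * ((n:ℝ) ^ s)⁻¹) :=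
          mul_le_mul h2 h3 (pow_nonneg hp0 m) hApos.le
      _ = A * c * ((n:ℝ) ^ s)⁻¹ := by ring
  -- union bound
  have hunion : Pr (V := Fin n) p (fun G => ∃ S : Finset (Fin n), S.Nonempty ∧ S.card ≤ L ∧
        N * (S.card : ℤ) ≤ X * (eIn G S : ℤ)) ≤
      ∑ s ∈ Finset.Icc 1 L, ∑ S ∈ (univ : Finset (Fin n)).powersetCard s,
        Pr (V := Fin n) p (fun G => N * (S.card : ℤ) ≤ X * (eIn G S : ℤ)) := by
    have h1 : Pr (V := Fin n) p (fun G => ∃ S : Finset (Fin n), S.Nonempty ∧ S.card ≤ L ∧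
        N * (S.card : ℤ) ≤ X * (eIn G S : ℤ)) ≤
        Pr (V := Fin n) p (fun G => ∃ s ∈ Finset.Icc 1 L,
          ∃ S ∈ (univ : Finset (Fin n)).powersetCard s,
            N * (S.card : ℤ) ≤ X * (eIn G S : ℤ)) := by
      refine Pr_mono hp0 hp1 fun G hG => ?_
      obtain ⟨S, h1, h2, h3⟩ := hG
      exact ⟨S.card, Finset.mem_Icc.2 ⟨Finset.card_pos.2 h1, h2⟩, S,
        Finset.mem_powersetCard.2 ⟨Finset.subset_univ _, rfl⟩, h3⟩
    refine h1.trans ((Pr_exists_le hp0 hp1 _ _).trans ?_)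
    exact Finset.sum_le_sum fun s _ => Pr_exists_le hp0 hp1 _ _
  refine hunion.trans ?_
  have h5 : ∀ s ∈ Finset.Icc 1 L, ∑ S ∈ (univ : Finset (Fin n)).powersetCard s,
        Pr (V := Fin n) p (fun G => N * (S.card : ℤ) ≤ X * (eIn G S : ℤ)) ≤ A * c := by
    intro s hs
    rw [Finset.mem_Icc] at hs
    have h6 : ∀ S ∈ (univ : Finset (Fin n)).powersetCard s,
        Pr (V := Fin n) p (fun G => N * (S.card : ℤ) ≤ X * (eIn G S : ℤ)) ≤
          A * c * ((n:ℝ) ^ s)⁻¹ := by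
      intro S hS
      rw [Finset.mem_powersetCard] at hS
      have := hfix S (Finset.card_pos.1 (by omega)) (by omega)
      rw [hS.2] at this ⊢
      exact this
    refine (Finset.sum_le_sum h6).trans ?_
    rw [Finset.sum_const, nsmul_eq_mul, Finset.card_powersetCard, Finset.card_univ,
      Fintype.card_fin]
    have h7 : ((n.choose s : ℕ) : ℝ) ≤ (n:ℝ) ^ s := by
      exact_mod_cast Nat.choose_le_pow n s
    have h8 : (0:ℝ) < (n:ℝ) ^ s := by positivity
    calc ((n.choose s : ℕ) : ℝ) * (A * c * ((n:ℝ) ^ s)⁻¹) ≤ (n:ℝ) ^ s * (A * c * ((n:ℝ) ^ s)⁻¹) :=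
          mul_le_mul_of_nonneg_right h7 (by positivity)
      _ = A * c := by field_simp
  refine (Finset.sum_le_sum h5).trans ?_
  rw [Finset.sum_const, nsmul_eq_mul, Nat.card_Icc, hc]
  have hL : ((L + 1 - 1 : ℕ) : ℝ) ≤ (L:ℝ) + 1 := by
    simp
  have hL0 : (0:ℝ) ≤ ((L + 1 - 1 : ℕ) : ℝ) := by positivity
  calc ((L + 1 - 1 : ℕ) : ℝ) * (A * (1 / (4 * A * (L + 1)))) ≤
        ((L:ℝ) + 1) * (A * (1 / (4 * A * (L + 1)))) :=
        mul_le_mul_of_nonneg_right hL (by positivity)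
    _ = 1 / 4 := by field_simp

end MP30c94c
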