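import Mathlib
import Pool.Agent.Lib.MP30c94c.Basic

/-!
# Lower bound, part 1: colourings, merges and the potential
-/

open SimpleGraph Finset

namespace MP30c94c

attribute [local instance] Classical.propDecidable

set_option linter.unusedSectionVars false

/-- The numerical data of the potential function. -/
structure Pot where
  k : ℕ
  M : ℕ
  N : ℤ
  X : ℤ
  eta : ℤ
  g : ℕ → ℤ
  w : ℕ → ℕ → ℤ
  M2 : 2 ≤ M
  kpos : 1 ≤ k
  Npos : 0 < N
  X0 : 0 ≤ X
  eta0 : 0 ≤ eta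
  g1 : g 1 = N
  gle : ∀ a, 1 ≤ a → a ≤ M → g a ≤ N
  w11 : w 1 1 = X
  wsymm : ∀ a b, w a b = w b a
  w0 : ∀ a b, 1 ≤ a → a ≤ M → 1 ≤ b → b ≤ M → 0 ≤ w a b
  gadd : ∀ a b, 1 ≤ a → 1 ≤ b → a + b ≤ M → g a + g b = g (a + b) + k * eta
  I1 : ∀ a c s, 1 ≤ a → a ≤ c → c ≤ M → 1 ≤ s → s ≤ M → w c s ≤ w a s
  I2 : ∀ a b s, 1 ≤ a → 1 ≤ b → a + b ≤ M → 1 ≤ s → s ≤ M →
    eta * s ≤ w a s + w b s - w (a + b) s
  I3 : ∀ a b s, 1 ≤ a → 1 ≤ b → a + b ≤ M → 1 ≤ s → s ≤ M →
    eta * s + (s - 1) ≤ w a s + w b s - g s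
  I4 : ∀ a b, 1 ≤ a → 1 ≤ b → a + b ≤ M → w a b = X
  I4' : ∀ a, 1 ≤ a → a < M → eta * a ≤ X
  psi0 : ∀ a b s, 1 ≤ a → a ≤ M → 1 ≤ b → b ≤ M → 1 ≤ s → s ≤ M → 0 ≤ w a s + w b s - g s
  fin : ∀ {ι : Type} (s : Finset ι) (f : ι → ℕ) (a b : ℕ) (p q r : Prop),
    1 ≤ a → a ≤ M → 1 ≤ b → b ≤ M → M + 1 ≤ a + b → (∀ i ∈ s, 1 ≤ f i ∧ f i ≤ M) →
    (k : ℤ) ≤ ∑ i ∈ s, (f i : ℤ) + (if p ∧ r then (a : ℤ) else 0) + (if q ∧ r then (b : ℤ) else 0) →
    g a + g b - (if p then X else 0) - (if q then X else 0) - (if r then w a b else 0)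
      - ∑ i ∈ s, (w a (f i) + w b (f i) - g (f i)) ≤ 0

variable {V : Type} [Fintype V]

/-- size of a colour class -/
noncomputable def sz (c : V → V) (i : V) : ℕ := (univ.filter fun v => c v = i).card

/-- adjacency of colour classes -/
def adjL (G : SimpleGraph V) (c : V → V) (i j : V) : Prop :=
  ∃ u v, c u = i ∧ c v = j ∧ G.Adj u v

lemma adjL_symm {G : SimpleGraph V} {c : V → V} {i j : V} (h : adjL G c i j) : adjL G c j i := by
  obtain ⟨u, v, h1, h2, h3⟩ := h
  exact ⟨v, u, h2, h1, h3.symm⟩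

/-- merging colour `j` into colour `i` -/
noncomputable def mrg (c : V → V) (i j : V) : V → V := fun v => if c v = j then i else c v

/-- cost of a pair of classes (twice the cost for loops) -/
noncomputable def cost (P : Pot) (G : SimpleGraph V) (c : V → V) (i j : V) : ℤ :=
  if adjL G c i j then (if i = j then 2 * P.X else P.w (sz c i) (sz c j)) else 0

lemma cost_symm (P : Pot) (G : SimpleGraph V) (c : V → V) (i j : V) :
    cost P G c i j = cost P G c j i := by
  unfold cost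
  by_cases h : adjL G c i j
  · have h' := adjL_symm h
    rw [if_pos h, if_pos h']
    by_cases hij : i = j
    · subst hij; rfl
    · rw [if_neg hij, if_neg (Ne.symm hij), P.wsymm]
  · have h' : ¬ adjL G c j i := fun h' => h (adjL_symm h')
    rw [if_neg h, if_neg h']

/-- twice the potential -/
noncomputable def Phi (P : Pot) (G : SimpleGraph V) (c : V → V) (D : Finset V) : ℤ :=
  2 * ∑ i ∈ D, P.g (sz c i) - ∑ i ∈ D, ∑ j ∈ D, cost P G c i j

/-- size measure -/
noncomputable def mu (P : Pot) (c : V → V) (D : Finset V) : ℤ :=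
  ∑ i ∈ D, (1 + (P.k + 1) * ((sz c i : ℤ) - 1))

lemma Phi_insert (P : Pot) (G : SimpleGraph V) (c : V → V) {a : V} {D : Finset V} (ha : a ∉ D) :
    Phi P G c (insert a D) = Phi P G c D + 2 * P.g (sz c a) - cost P G c a a
      - 2 * ∑ l ∈ D, cost P G c a l := by
  unfold Phi
  rw [Finset.sum_insert ha, Finset.sum_insert ha, Finset.sum_insert ha]
  have h1 : ∑ i ∈ D, ∑ j ∈ insert a D, cost P G c i j =
      ∑ i ∈ D, cost P G c a i + ∑ i ∈ D, ∑ j ∈ D, cost P G c i j := by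
    rw [← Finset.sum_add_distrib]
    refine Finset.sum_congr rfl fun i _ => ?_
    rw [Finset.sum_insert ha, cost_symm]
  rw [h1]
  ring

lemma cost_nonneg (P : Pot) (G : SimpleGraph V) (c : V → V) (hM : ∀ i, sz c i ≤ P.M) (i j : V) :
    0 ≤ cost P G c i j := by
  unfold cost
  split_ifs with h h2
  · have := P.X0; linarith
  · obtain ⟨u, v, h1, h2, h3⟩ := h
    have hi : 1 ≤ sz c i := Finset.card_pos.2 ⟨u, by simpa using h1⟩
    have hj : 1 ≤ sz c j := Finset.card_pos.2 ⟨v, by simpa using h2⟩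
    exact P.w0 _ _ hi (hM i) hj (hM j)
  · exact le_rfl

lemma Phi_union_le (P : Pot) (G : SimpleGraph V) (c : V → V) (hM : ∀ i, sz c i ≤ P.M)
    (D K : Finset V) (h : Disjoint D K) :
    Phi P G c (D ∪ K) ≤ Phi P G c D + 2 * ∑ l ∈ K, P.g (sz c l) := by
  induction K using Finset.induction_on with
  | empty => simp
  | insert a K ha ih =>
    have hd : Disjoint D K := Finset.disjoint_of_subset_right (Finset.subset_insert a K) h
    have haD : a ∉ D := fun h' => Finset.disjoint_left.1 h h' (Finset.mem_insert_self a K)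
    have haDK : a ∉ D ∪ K := by simp [ha, haD]
    rw [Finset.union_insert, Phi_insert P G c haDK, Finset.sum_insert ha]
    have h1 := ih hd
    have h2 := cost_nonneg P G c hM a a
    have h3 : 0 ≤ ∑ l ∈ D ∪ K, cost P G c a l :=
      Finset.sum_nonneg fun l _ => cost_nonneg P G c hM a l
    linarith

/-! ### Effect of a merge -/

lemma mrg_eq_iff {c : V → V} {i j l : V} (_hij : i ≠ j) (hli : l ≠ i) (hlj : l ≠ j) (v : V) :
    mrg c i j v = l ↔ c v = l := by
  unfold mrg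
  split_ifs with h
  · constructor
    · intro h'; exact absurd h'.symm hli
    · intro h'; exact absurd (h'.symm.trans h) hlj
  · rfl

lemma mrg_eq_i {c : V → V} {i j : V} (v : V) :
    mrg c i j v = i ↔ c v = i ∨ c v = j := by
  unfold mrg
  split_ifs with h
  · simp [h]
  · simp [h]

lemma mrg_ne_j {c : V → V} {i j : V} (hij : i ≠ j) (v : V) : mrg c i j v ≠ j := by
  unfold mrg
  split_ifs with h
  · exact hij
  · exact h

lemma sz_mrg {c : V → V} {i j l : V} (hij : i ≠ j) (hli : l ≠ i) (hlj : l ≠ j) :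
    sz (mrg c i j) l = sz c l := by
  unfold sz
  congr 1
  ext v
  simp only [mem_filter, mem_univ, true_and]
  exact mrg_eq_iff hij hli hlj v

lemma sz_mrg_i {c : V → V} {i j : V} (hij : i ≠ j) :
    sz (mrg c i j) i = sz c i + sz c j := by
  unfold sz
  rw [← Finset.card_union_of_disjoint]
  · congr 1
    ext v
    simp only [mem_filter, mem_univ, true_and, mem_union]
    exact mrg_eq_i v
  · rw [Finset.disjoint_left]
    intro v h1 h2
    simp only [mem_filter, mem_univ, true_and] at h1 h2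
    exact hij (h1.symm.trans h2)

lemma sz_mrg_j {c : V → V} {i j : V} (hij : i ≠ j) : sz (mrg c i j) j = 0 := by
  unfold sz
  rw [Finset.card_eq_zero, Finset.filter_eq_empty_iff]
  intro v _
  exact mrg_ne_j hij v

lemma adjL_mrg {G : SimpleGraph V} {c : V → V} {i j l l' : V} (hij : i ≠ j) (hli : l ≠ i)
    (hlj : l ≠ j) (hli' : l' ≠ i) (hlj' : l' ≠ j) :
    adjL G (mrg c i j) l l' ↔ adjL G c l l' := by
  unfold adjL
  simp only [mrg_eq_iff hij hli hlj, mrg_eq_iff hij hli' hlj']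

lemma adjL_mrg_i {G : SimpleGraph V} {c : V → V} {i j l : V} (hij : i ≠ j) (hli : l ≠ i)
    (hlj : l ≠ j) :
    adjL G (mrg c i j) i l ↔ adjL G c i l ∨ adjL G c j l := by
  unfold adjL
  simp only [mrg_eq_iff hij hli hlj, mrg_eq_i]
  constructor
  · rintro ⟨u, v, h1 | h1, h2, h3⟩
    · exact Or.inl ⟨u, v, h1, h2, h3⟩
    · exact Or.inr ⟨u, v, h1, h2, h3⟩
  · rintro (⟨u, v, h1, h2, h3⟩ | ⟨u, v, h1, h2, h3⟩)
    · exact ⟨u, v, Or.inl h1, h2, h3⟩
    · exact ⟨u, v, Or.inr h1, h2, h3⟩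

lemma adjL_mrg_ii {G : SimpleGraph V} {c : V → V} {i j : V} :
    adjL G (mrg c i j) i i ↔ adjL G c i i ∨ adjL G c j j ∨ adjL G c i j := by
  constructor
  · rintro ⟨u, v, h1, h2, h3⟩
    rw [mrg_eq_i] at h1 h2
    rcases h1 with h1 | h1 <;> rcases h2 with h2 | h2
    · exact Or.inl ⟨u, v, h1, h2, h3⟩
    · exact Or.inr (Or.inr ⟨u, v, h1, h2, h3⟩)
    · exact Or.inr (Or.inr ⟨v, u, h2, h1, h3.symm⟩)
    · exact Or.inr (Or.inl ⟨u, v, h1, h2, h3⟩)
  · rintro (⟨u, v, h1, h2, h3⟩ | ⟨u, v, h1, h2, h3⟩ | ⟨u, v, h1, h2, h3⟩)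
    · exact ⟨u, v, (mrg_eq_i u).2 (Or.inl h1), (mrg_eq_i v).2 (Or.inl h2), h3⟩
    · exact ⟨u, v, (mrg_eq_i u).2 (Or.inr h1), (mrg_eq_i v).2 (Or.inr h2), h3⟩
    · exact ⟨u, v, (mrg_eq_i u).2 (Or.inl h1), (mrg_eq_i v).2 (Or.inr h2), h3⟩

/-- The potential of a collection avoiding the merged classes does not change. -/
lemma Phi_mrg_of_notMem (P : Pot) (G : SimpleGraph V) {c : V → V} {i j : V} (hij : i ≠ j)
    {D : Finset V} (hi : i ∉ D) (hj : j ∉ D) : Phi P G (mrg c i j) D = Phi P G c D := by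
  unfold Phi
  have h1 : ∀ l ∈ D, l ≠ i ∧ l ≠ j := fun l hl =>
    ⟨fun h => hi (h ▸ hl), fun h => hj (h ▸ hl)⟩
  congr 1
  · congr 1
    refine Finset.sum_congr rfl fun l hl => ?_
    rw [sz_mrg hij (h1 l hl).1 (h1 l hl).2]
  · refine Finset.sum_congr rfl fun l hl => Finset.sum_congr rfl fun l' hl' => ?_
    unfold cost
    rw [sz_mrg hij (h1 l hl).1 (h1 l hl).2, sz_mrg hij (h1 l' hl').1 (h1 l' hl').2]
    simp only [adjL_mrg hij (h1 l hl).1 (h1 l hl).2 (h1 l' hl').1 (h1 l' hl').2]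

lemma mu_mrg_of_notMem (P : Pot) {c : V → V} {i j : V} (hij : i ≠ j)
    {D : Finset V} (hi : i ∉ D) (hj : j ∉ D) : mu P (mrg c i j) D = mu P c D := by
  unfold mu
  refine Finset.sum_congr rfl fun l hl => ?_
  rw [sz_mrg hij (fun h => hi (h ▸ hl)) (fun h => hj (h ▸ hl))]

/-- The key inequality for a merge. -/
lemma Phi_step (P : Pot) (G : SimpleGraph V) {c : V → V} (hM : ∀ i, sz c i ≤ P.M) {i j : V}
    (hij : i ≠ j) (hi : 0 < sz c i) (hj : 0 < sz c j) (hs : sz c i + sz c j ≤ P.M)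
    (K : Finset V) (hK : ∀ l ∈ K, adjL G c l i ∧ adjL G c l j)
    (hKk : (P.k : ℤ) ≤ ∑ l ∈ K, (sz c l : ℤ))
    (D : Finset V) (hiD : i ∉ D) (hjD : j ∉ D) (K1 : Finset V) (hK1 : K1 = (K \ D) \ {i, j}) :
    Phi P G c (insert i (insert j (D ∪ K1))) + 2 * ∑ l ∈ K1, ((sz c l : ℤ) - 1) ≤
      Phi P G (mrg c i j) (insert i D) := by
  have hszpos : ∀ l ∈ K, 1 ≤ sz c l := by
    intro l hl
    obtain ⟨⟨u, v, h1, h2, h3⟩, _⟩ := hK l hl
    exact Finset.card_pos.2 ⟨u, by simpa using h1⟩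
  have hdisj : Disjoint D K1 := by
    rw [hK1, Finset.disjoint_left]
    intro l h1 h2
    simp only [mem_sdiff] at h2
    exact h2.1.2 h1
  have hiY : i ∉ D ∪ K1 := by
    rw [hK1]; simp [hiD]
  have hjY : j ∉ D ∪ K1 := by
    rw [hK1]; simp [hjD]
  have hiY' : i ∉ insert j (D ∪ K1) := by
    rw [mem_insert]; exact fun h => h.elim hij hiY
  rw [Phi_insert P G c hiY', Phi_insert P G c hjY, Phi_insert P G (mrg c i j) hiD,
    Phi_mrg_of_notMem P G hij hiD hjD, Finset.sum_insert hjY]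
  have h1 := Phi_union_le P G c hM D K1 hdisj
  have hg := P.gadd _ _ hi hj hs
  rw [sz_mrg_i hij]
  -- split the sums
  rw [Finset.sum_union hdisj, Finset.sum_union hdisj]
  -- pointwise bounds
  have hD : ∑ l ∈ D, (if l ∈ K then P.eta * (sz c l : ℤ) else 0) ≤
      ∑ l ∈ D, (cost P G c i l + cost P G c j l - cost P G (mrg c i j) i l) := by
    refine Finset.sum_le_sum fun l hl => ?_
    have hli : l ≠ i := fun h => hiD (h ▸ hl)
    have hlj : l ≠ j := fun h => hjD (h ▸ hl)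
    unfold cost
    rw [sz_mrg_i hij, sz_mrg hij hli hlj]
    simp only [adjL_mrg_i hij hli hlj, if_neg (Ne.symm hli), if_neg (Ne.symm hlj)]
    by_cases hai : adjL G c i l <;> by_cases haj : adjL G c j l
    · have hl1 : 1 ≤ sz c l := by
        obtain ⟨u, v, h1, h2, h3⟩ := hai
        exact Finset.card_pos.2 ⟨v, by simpa using h2⟩
      have h2 := P.I2 _ _ _ hi hj hs hl1 (hM l)
      have h3 : (if l ∈ K then P.eta * (sz c l : ℤ) else 0) ≤ P.eta * (sz c l : ℤ) := by
        split_ifs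
        · exact le_rfl
        · exact mul_nonneg P.eta0 (by positivity)
      simp only [hai, haj, or_self, if_true]
      linarith
    · have hlK : l ∉ K := fun h => haj (adjL_symm (hK l h).2)
      have hl1 : 1 ≤ sz c l := by
        obtain ⟨u, v, h1, h2, h3⟩ := hai
        exact Finset.card_pos.2 ⟨v, by simpa using h2⟩
      have h2 := P.I1 (sz c i) (sz c i + sz c j) (sz c l) hi (by omega) hs hl1 (hM l)
      simp only [hlK, hai, haj, true_or, if_true, if_false]
      linarith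
    · have hlK : l ∉ K := fun h => hai (adjL_symm (hK l h).1)
      have hl1 : 1 ≤ sz c l := by
        obtain ⟨u, v, h1, h2, h3⟩ := haj
        exact Finset.card_pos.2 ⟨v, by simpa using h2⟩
      have h2 := P.I1 (sz c j) (sz c i + sz c j) (sz c l) hj (by omega) hs hl1 (hM l)
      simp only [hlK, hai, haj, or_true, if_true, if_false]
      linarith
    · have hlK : l ∉ K := fun h => hai (adjL_symm (hK l h).1)
      simp [hlK, hai, haj]
  have hK1b : ∑ l ∈ K1, P.eta * (sz c l : ℤ) ≤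
      ∑ l ∈ K1, (cost P G c i l + cost P G c j l - P.g (sz c l) - ((sz c l : ℤ) - 1)) := by
    refine Finset.sum_le_sum fun l hl => ?_
    rw [hK1] at hl
    simp only [mem_sdiff, mem_insert, mem_singleton, not_or] at hl
    have hli : i ≠ l := fun h => hl.2.1 h.symm
    have hlj : j ≠ l := fun h => hl.2.2 h.symm
    have hk := hK l hl.1.1
    unfold cost
    rw [if_pos (adjL_symm hk.1), if_pos (adjL_symm hk.2), if_neg hli, if_neg hlj]
    have := P.I3 _ _ _ hi hj hs (hszpos l hl.1.1) (hM l)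
    linarith
  have hij2 : P.eta * (if i ∈ K then (sz c i : ℤ) else 0) +
      P.eta * (if j ∈ K then (sz c j : ℤ) else 0) ≤
      (if adjL G c i i then P.X else 0) + (if adjL G c j j then P.X else 0) +
        (if adjL G c i j then P.X else 0) -
        (if adjL G c i i ∨ adjL G c j j ∨ adjL G c i j then P.X else 0) := by
    have e1 := P.I4' (sz c i) hi (by omega)
    have e2 := P.I4' (sz c j) hj (by omega)
    have e3 := P.X0
    have hKi : i ∈ K → adjL G c i i ∧ adjL G c i j := fun h => hK i h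
    have hKj : j ∈ K → adjL G c j j ∧ adjL G c i j := fun h =>
      ⟨(hK j h).2, adjL_symm (hK j h).1⟩
    by_cases hiK : i ∈ K <;> by_cases hjK : j ∈ K
    · have a1 := hKi hiK
      have a2 := hKj hjK
      simp only [hiK, hjK, a1.1, a1.2, a2.1, if_true, or_self]
      linarith
    · have a1 := hKi hiK
      simp only [hiK, hjK, a1.1, a1.2, if_true, if_false, true_or]
      have : 0 ≤ (if adjL G c j j then P.X else 0) := by split_ifs; exact e3; exact le_rfl
      linarith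
    · have a2 := hKj hjK
      simp only [hiK, hjK, a2.1, a2.2, if_true, if_false, true_or, or_true]
      have : 0 ≤ (if adjL G c i i then P.X else 0) := by split_ifs; exact e3; exact le_rfl
      linarith
    · simp only [hiK, hjK, if_false, mul_zero]
      by_cases b1 : adjL G c i i <;> by_cases b2 : adjL G c j j <;> by_cases b3 : adjL G c i j <;>
        simp only [b1, b2, b3, if_true, if_false, true_or, or_true, or_self] <;> linarith
  -- total number of units
  have htot : ∑ l ∈ K, (sz c l : ℤ) ≤ ∑ l ∈ D, (if l ∈ K then (sz c l : ℤ) else 0) +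
      ∑ l ∈ K1, (sz c l : ℤ) + (if i ∈ K then (sz c i : ℤ) else 0) +
      (if j ∈ K then (sz c j : ℤ) else 0) := by
    have hsplit : K ⊆ ((K ∩ D) ∪ K1) ∪ (K ∩ {i, j}) := by
      intro l hl
      rw [hK1]
      simp only [mem_union, mem_inter, mem_sdiff, mem_insert, mem_singleton]
      by_cases h1 : l ∈ D
      · exact Or.inl (Or.inl ⟨hl, h1⟩)
      · by_cases h2 : l = i ∨ l = j
        · exact Or.inr ⟨hl, h2⟩
        · exact Or.inl (Or.inr ⟨⟨hl, h1⟩, h2⟩)
    have hnn : ∀ l : V, (0:ℤ) ≤ (sz c l : ℤ) := fun l => by positivity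
    have s1 : ∑ l ∈ K, (sz c l : ℤ) ≤ ∑ l ∈ ((K ∩ D) ∪ K1) ∪ (K ∩ {i, j}), (sz c l : ℤ) :=
      Finset.sum_le_sum_of_subset_of_nonneg hsplit fun l _ _ => hnn l
    have s2 : ∀ A B : Finset V, ∑ l ∈ A ∪ B, (sz c l : ℤ) ≤
        ∑ l ∈ A, (sz c l : ℤ) + ∑ l ∈ B, (sz c l : ℤ) := by
      intro A B
      have := Finset.sum_union_inter (s₁ := A) (s₂ := B) (f := fun l => (sz c l : ℤ))
      have h3 : 0 ≤ ∑ l ∈ A ∩ B, (sz c l : ℤ) := Finset.sum_nonneg fun l _ => hnn l
      linarith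
    have s3 : ∑ l ∈ K ∩ D, (sz c l : ℤ) = ∑ l ∈ D, (if l ∈ K then (sz c l : ℤ) else 0) := by
      rw [Finset.inter_comm, ← Finset.sum_ite_mem]
    have s4 : ∑ l ∈ K ∩ {i, j}, (sz c l : ℤ) = (if i ∈ K then (sz c i : ℤ) else 0) +
        (if j ∈ K then (sz c j : ℤ) else 0) := by
      rw [Finset.inter_comm, ← Finset.sum_ite_mem, Finset.sum_pair hij]
    have s5 := s2 ((K ∩ D) ∪ K1) (K ∩ {i, j})
    have s6 := s2 (K ∩ D) K1
    linarith
  have hmul : P.eta * P.k ≤ P.eta * ∑ l ∈ K, (sz c l : ℤ) := mul_le_mul_of_nonneg_left hKk P.eta0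
  have hmul2 := mul_le_mul_of_nonneg_left htot P.eta0
  have e1 : P.eta * ∑ l ∈ D, (if l ∈ K then (sz c l : ℤ) else 0) =
      ∑ l ∈ D, (if l ∈ K then P.eta * (sz c l : ℤ) else 0) := by
    rw [Finset.mul_sum]
    refine Finset.sum_congr rfl fun l _ => ?_
    split_ifs <;> simp
  have e2 : P.eta * ∑ l ∈ K1, (sz c l : ℤ) = ∑ l ∈ K1, P.eta * (sz c l : ℤ) := Finset.mul_sum _ _ _
  -- costs of the pairs i, j
  have c1 : cost P G c i i = 2 * (if adjL G c i i then P.X else 0) := by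
    by_cases h : adjL G c i i <;> simp [cost, h]
  have c2 : cost P G c j j = 2 * (if adjL G c j j then P.X else 0) := by
    by_cases h : adjL G c j j <;> simp [cost, h]
  have c3 : cost P G c i j = (if adjL G c i j then P.X else 0) := by
    unfold cost
    rw [if_neg hij, P.I4 _ _ hi hj hs]
  have c4 : cost P G (mrg c i j) i i =
      2 * (if adjL G c i i ∨ adjL G c j j ∨ adjL G c i j then P.X else 0) := by
    by_cases h : adjL G c i i ∨ adjL G c j j ∨ adjL G c i j <;> simp [cost, adjL_mrg_ii, h]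
  rw [c1, c2, c3, c4]
  simp only [Finset.sum_sub_distrib, Finset.sum_add_distrib] at hD hK1b ⊢
  rw [mul_add, mul_add, mul_add, e1, e2] at hmul2
  linarith
end MP30c94c
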