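import Mathlib
import Pool.Agent.Lib.MP30c94c.LBPot

/-!
# Lower bound, part 2: the hull inequality along the merging process
-/

open SimpleGraph Finset

namespace MP30c94c

attribute [local instance] Classical.propDecidable

set_option linter.unusedSectionVars false

variable {V : Type} [Fintype V]

/-- `G` restricted to `S` -/
def restr (G : SimpleGraph V) (S : Finset V) : SimpleGraph V where
  Adj u v := G.Adj u v ∧ u ∈ S ∧ v ∈ S
  symm := ⟨fun _ _ h => ⟨h.1.symm, h.2.2, h.2.1⟩⟩
  loopless := ⟨fun _ h => G.loopless.irrefl _ h.1⟩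

lemma restr_adj {G : SimpleGraph V} {S : Finset V} {u v : V} :
    (restr G S).Adj u v ↔ G.Adj u v ∧ u ∈ S ∧ v ∈ S := Iff.rfl

/-- adjacency modulo a relation -/
def Adjr (G : SimpleGraph V) (r : V → V → Prop) (z u : V) : Prop :=
  ∃ z' u', r z z' ∧ r u u' ∧ G.Adj z' u'

/-- relation closed under the twin rule -/
def ClosedRel (G : SimpleGraph V) (k : ℕ) (r : V → V → Prop) : Prop :=
  ∀ u v, k ≤ (univ.filter fun z => Adjr G r z u ∧ Adjr G r z v).card → r u v

/-- the least closed equivalence relation -/
def Tw (G : SimpleGraph V) (k : ℕ) (u v : V) : Prop :=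
  ∀ r : V → V → Prop, Equivalence r → ClosedRel G k r → r u v

lemma Tw_equiv (G : SimpleGraph V) (k : ℕ) : Equivalence (Tw G k) where
  refl u := fun r hr _ => hr.refl u
  symm h := fun r hr hc => hr.symm (h r hr hc)
  trans h1 h2 := fun r hr hc => hr.trans (h1 r hr hc) (h2 r hr hc)

lemma Adjr_mono {G G' : SimpleGraph V} {r r' : V → V → Prop} (hG : ∀ u v, G.Adj u v → G'.Adj u v)
    (hr : ∀ u v, r u v → r' u v) {z u : V} (h : Adjr G r z u) : Adjr G' r' z u := by
  obtain ⟨z', u', h1, h2, h3⟩ := h
  exact ⟨z', u', hr _ _ h1, hr _ _ h2, hG _ _ h3⟩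

lemma Tw_closed (G : SimpleGraph V) (k : ℕ) : ClosedRel G k (Tw G k) := by
  intro u v h r hr hc
  refine hc u v (h.trans (Finset.card_le_card ?_))
  intro z hz
  simp only [mem_filter, mem_univ, true_and] at hz ⊢
  have hsub : ∀ a b, Tw G k a b → r a b := fun a b hab => hab r hr hc
  exact ⟨Adjr_mono (fun _ _ h => h) hsub hz.1, Adjr_mono (fun _ _ h => h) hsub hz.2⟩

lemma Tw_mono {G G' : SimpleGraph V} {k : ℕ} (hG : ∀ u v, G.Adj u v → G'.Adj u v) {u v : V}
    (h : Tw G k u v) : Tw G' k u v := by
  intro r hr hc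
  refine h r hr ?_
  intro a b hab
  refine hc a b (hab.trans (Finset.card_le_card ?_))
  intro z hz
  simp only [mem_filter, mem_univ, true_and] at hz ⊢
  exact ⟨Adjr_mono hG (fun _ _ h => h) hz.1, Adjr_mono hG (fun _ _ h => h) hz.2⟩

/-- The hull inequality for all collections of classes of a colouring. -/
def Bound (P : Pot) (G : SimpleGraph V) (c : V → V) : Prop :=
  ∀ D : Finset V, (∀ i ∈ D, 0 < sz c i) → ∃ S : Finset V, (∀ v, c v ∈ D → v ∈ S) ∧
    (∀ v v', c v = c v' → c v ∈ D → Tw (restr G S) P.k v v') ∧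
    (P.k + 1) * (2 * (P.N * (S.card : ℤ) - P.X * (eIn G S : ℤ))) +
      2 * max 0 ((S.card : ℤ) - mu P c D) ≤ (P.k + 1) * Phi P G c D

/-- Colourings reachable by merges creating classes of size at most `M`. -/
inductive Reach (P : Pot) (G : SimpleGraph V) : (V → V) → Prop
  | id : Reach P G (fun v => v)
  | merge {c : V → V} {i j : V} (hc : Reach P G c) (hij : i ≠ j) (hi : 0 < sz c i)
      (hj : 0 < sz c j) (hs : sz c i + sz c j ≤ P.M)
      (hk : P.k ≤ ∑ l ∈ univ.filter (fun l => adjL G c l i ∧ adjL G c l j), sz c l) :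
      Reach P G (mrg c i j)

lemma sz_id (i : V) : sz (fun v : V => v) i = 1 := by
  unfold sz
  rw [Finset.card_eq_one]
  exact ⟨i, by ext v; simp⟩

lemma Reach.le {P : Pot} {G : SimpleGraph V} {c : V → V} (h : Reach P G c) :
    ∀ i, sz c i ≤ P.M := by
  induction h with
  | id => intro i; rw [sz_id]; have := P.M2; omega
  | @merge c i j hc hij hi hj hs hk ih =>
    intro l
    by_cases hli : l = i
    · subst hli; rw [sz_mrg_i hij]; exact hs
    · by_cases hlj : l = j
      · subst hlj; rw [sz_mrg_j hij]; omega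
      · rw [sz_mrg hij hli hlj]; exact ih l

/-- handshake lemma inside a vertex set -/
lemma sum_adj_eq (G : SimpleGraph V) (D : Finset V) :
    ∑ i ∈ D, ∑ j ∈ D, (if G.Adj i j then (1 : ℤ) else 0) = 2 * (eIn G D : ℤ) := by
  have h1 := (restr G D).sum_degrees_eq_twice_card_edges
  have h2 : (restr G D).edgeFinset = G.edgeFinset.filter fun e => ∀ v ∈ e, v ∈ D := by
    ext e
    induction e using Sym2.ind with
    | _ u v =>
      rw [mem_edgeFinset, mem_edgeSet, restr_adj, mem_filter, mem_edgeFinset, mem_edgeSet]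
      simp
  rw [h2] at h1
  have h3 : ∑ v, (restr G D).degree v = ∑ v ∈ D, (D.filter fun j => G.Adj v j).card := by
    rw [← Finset.sum_subset (Finset.subset_univ D)]
    · refine Finset.sum_congr rfl fun v hv => ?_
      rw [← card_neighborFinset_eq_degree]
      congr 1
      ext j
      rw [mem_neighborFinset, restr_adj, mem_filter]
      tauto
    · intro v _ hv
      rw [← card_neighborFinset_eq_degree, Finset.card_eq_zero, Finset.eq_empty_iff_forall_notMem]
      intro j hj
      rw [mem_neighborFinset, restr_adj] at hj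
      exact hv hj.2.1
  rw [h3] at h1
  have h4 : ∀ i ∈ D, ∑ j ∈ D, (if G.Adj i j then (1 : ℤ) else 0) =
      ((D.filter fun j => G.Adj i j).card : ℤ) := by
    intro i _
    rw [Finset.sum_boole]
  rw [Finset.sum_congr rfl h4, ← Nat.cast_sum, h1]
  unfold eIn
  push_cast
  rfl

lemma adjL_id (G : SimpleGraph V) (i j : V) : adjL G (fun v => v) i j ↔ G.Adj i j := by
  unfold adjL
  constructor
  · rintro ⟨u, v, rfl, rfl, h⟩; exact h
  · intro h; exact ⟨i, j, rfl, rfl, h⟩

lemma Bound_id (P : Pot) (G : SimpleGraph V) : Bound P G (fun v => v) := by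
  intro D _
  refine ⟨D, fun v h => h, fun v v' h _ => by
    have h' : v = v' := h
    rw [h']; exact (Tw_equiv _ _).refl _, ?_⟩
  have h1 : mu P (fun v : V => v) D = (D.card : ℤ) := by
    unfold mu
    simp [sz_id]
  have h2 : Phi P G (fun v : V => v) D = 2 * (P.N * (D.card : ℤ) - P.X * (eIn G D : ℤ)) := by
    unfold Phi
    have h3 : ∀ i ∈ D, ∀ j ∈ D, cost P G (fun v : V => v) i j =
        P.X * (if G.Adj i j then (1 : ℤ) else 0) := by
      intro i _ j _
      unfold cost
      rw [sz_id, sz_id, P.w11]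
      simp only [adjL_id]
      by_cases h : G.Adj i j
      · simp [h, h.ne]
      · simp [h]
    rw [Finset.sum_congr rfl fun i hi => Finset.sum_congr rfl fun j hj => h3 i hi j hj]
    simp_rw [← Finset.mul_sum]
    rw [sum_adj_eq]
    simp only [sz_id, P.g1, Finset.sum_const, nsmul_eq_mul]
    ring
  rw [h1, h2]
  simp

/-- choose a small subcollection -/
lemma exists_small {ι : Type} (K : Finset ι) (f : ι → ℕ) (k : ℕ) (hf : ∀ i ∈ K, 1 ≤ f i)
    (hk : k ≤ ∑ i ∈ K, f i) : ∃ K' ⊆ K, K'.card ≤ k ∧ k ≤ ∑ i ∈ K', f i := by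
  by_cases h : K.card ≤ k
  · exact ⟨K, subset_rfl, h, hk⟩
  · rw [not_le] at h
    obtain ⟨K', hK', hc⟩ := Finset.exists_subset_card_eq h.le
    refine ⟨K', hK', hc.le, ?_⟩
    calc k = ∑ i ∈ K', 1 := by simp [hc]
      _ ≤ ∑ i ∈ K', f i := Finset.sum_le_sum fun i hi => hf i (hK' hi)

lemma sz_pos_of_adjL {G : SimpleGraph V} {c : V → V} {i j : V} (h : adjL G c i j) : 0 < sz c i := by
  obtain ⟨u, v, h1, h2, h3⟩ := h
  exact Finset.card_pos.2 ⟨u, by simpa using h1⟩

lemma Tw_merge (G : SimpleGraph V) (k : ℕ) {c : V → V} {i j : V} (S : Finset V) (D : Finset V)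
    (hS : ∀ v, c v ∈ D → v ∈ S) (hT : ∀ v v', c v = c v' → c v ∈ D → Tw (restr G S) k v v')
    (hi : i ∈ D) (hj : j ∈ D) (K : Finset V) (hKD : K ⊆ D)
    (hK : ∀ l ∈ K, adjL G c l i ∧ adjL G c l j) (hk : k ≤ ∑ l ∈ K, sz c l)
    {v v' : V} (hv : c v = i) (hv' : c v' = j) : Tw (restr G S) k v v' := by
  refine Tw_closed (restr G S) k v v' ?_
  have hsum : ∑ l ∈ K, sz c l = (univ.filter fun z => c z ∈ K).card := by
    rw [Finset.card_eq_sum_card_fiberwise (f := c) (t := K) (by
      intro z hz
      simpa using hz)]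
    refine Finset.sum_congr rfl fun l hl => ?_
    unfold sz
    congr 1
    ext z
    simp only [mem_filter, mem_univ, true_and]
    constructor
    · intro h; exact ⟨h ▸ hl, h⟩
    · intro h; exact h.2
  rw [hsum] at hk
  refine hk.trans (Finset.card_le_card ?_)
  intro z hz
  simp only [mem_filter, mem_univ, true_and] at hz ⊢
  obtain ⟨h1, h2⟩ := hK (c z) hz
  constructor
  · obtain ⟨a, b, ha, hb, hab⟩ := h1
    refine ⟨a, b, hT z a ha.symm (hKD hz), hT v b (hv.trans hb.symm) (hv ▸ hi), hab, ?_, ?_⟩
    · exact hS a (ha ▸ hKD hz)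
    · exact hS b (hb ▸ hi)
  · obtain ⟨a, b, ha, hb, hab⟩ := h2
    refine ⟨a, b, hT z a ha.symm (hKD hz), hT v' b (hv'.trans hb.symm) (hv' ▸ hj), hab, ?_, ?_⟩
    · exact hS a (ha ▸ hKD hz)
    · exact hS b (hb ▸ hj)

theorem Bound_of_Reach (P : Pot) (G : SimpleGraph V) {c : V → V} (h : Reach P G c) :
    Bound P G c := by
  induction h with
  | id => exact Bound_id P G
  | @merge c i j hc hij hi hj hs hk ih =>
    intro D hD
    have hjD : j ∉ D := fun h => by
      have := hD j h
      rw [sz_mrg_j hij] at this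
      exact lt_irrefl _ this
    by_cases hiD : i ∈ D
    · -- the merged class belongs to the collection
      obtain ⟨K, hKsub, hKcard, hKk⟩ := exists_small
        (univ.filter (fun l => adjL G c l i ∧ adjL G c l j)) (fun l => sz c l) P.k
        (fun l hl => sz_pos_of_adjL (mem_filter.1 hl).2.1) hk
      have hK : ∀ l ∈ K, adjL G c l i ∧ adjL G c l j := fun l hl => (mem_filter.1 (hKsub hl)).2
      set D0 := D.erase i with hD0
      have hiD0 : i ∉ D0 := Finset.notMem_erase i D
      have hjD0 : j ∉ D0 := fun h => hjD (Finset.mem_of_mem_erase h)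
      have hDe : insert i D0 = D := Finset.insert_erase hiD
      set K1 := (K \ D0) \ {i, j} with hK1
      have hstep := Phi_step P G hc.le hij hi hj hs K hK (by exact_mod_cast hKk) D0 hiD0 hjD0 K1 hK1
      rw [hDe] at hstep
      set D' := insert i (insert j (D0 ∪ K1)) with hD'
      have hD'pos : ∀ l ∈ D', 0 < sz c l := by
        intro l hl
        rw [hD', mem_insert, mem_insert, mem_union] at hl
        rcases hl with rfl | rfl | hl | hl
        · exact hi
        · exact hj
        · have hli : l ≠ i := fun h => hiD0 (h ▸ hl)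
          have hlj : l ≠ j := fun h => hjD0 (h ▸ hl)
          have := hD l (Finset.mem_of_mem_erase hl)
          rwa [sz_mrg hij hli hlj] at this
        · rw [hK1, mem_sdiff, mem_sdiff] at hl
          exact sz_pos_of_adjL (hK l hl.1.1).1
      obtain ⟨S, hS1, hS2, hS3⟩ := ih D' hD'pos
      have hDsub : ∀ v, mrg c i j v ∈ D → c v ∈ D' := by
        intro v hv
        rw [hD', mem_insert, mem_insert, mem_union]
        unfold mrg at hv
        split_ifs at hv with h
        · exact Or.inr (Or.inl h)
        · by_cases h2 : c v = i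
          · exact Or.inl h2
          · exact Or.inr (Or.inr (Or.inl (Finset.mem_erase.2 ⟨h2, hv⟩)))
      have hKD' : K ⊆ D' := by
        intro l hl
        rw [hD', mem_insert, mem_insert, mem_union, hK1, mem_sdiff, mem_sdiff, mem_insert,
          mem_singleton]
        by_cases h1 : l = i
        · exact Or.inl h1
        · by_cases h2 : l = j
          · exact Or.inr (Or.inl h2)
          · by_cases h3 : l ∈ D0
            · exact Or.inr (Or.inr (Or.inl h3))
            · exact Or.inr (Or.inr (Or.inr ⟨⟨hl, h3⟩, by tauto⟩))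
      have hiD' : i ∈ D' := by rw [hD']; exact Finset.mem_insert_self _ _
      have hjD' : j ∈ D' := by
        rw [hD']; exact Finset.mem_insert_of_mem (Finset.mem_insert_self _ _)
      refine ⟨S, fun v hv => hS1 v (hDsub v hv), ?_, ?_⟩
      · intro v v' hvv' hv
        have hvD := hDsub v hv
        have hvD2 := hDsub v' (hvv' ▸ hv)
        by_cases h1 : c v = c v'
        · exact hS2 v v' h1 hvD
        · have h2 : mrg c i j v = i ∧ mrg c i j v' = i := by
            by_contra hcon
            have h3 : mrg c i j v ≠ i := fun h => hcon ⟨h, hvv' ▸ h⟩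
            have h3' : mrg c i j v' ≠ i := hvv' ▸ h3
            have h4 : c v ≠ j := by
              intro h; exact h3 ((mrg_eq_i v).2 (Or.inr h))
            have h5 : c v' ≠ j := by
              intro h; exact h3' ((mrg_eq_i v').2 (Or.inr h))
            unfold mrg at hvv'
            rw [if_neg h4, if_neg h5] at hvv'
            exact h1 hvv'
          have h3 := (mrg_eq_i v).1 h2.1
          have h4 := (mrg_eq_i v').1 h2.2
          rcases h3 with h3 | h3 <;> rcases h4 with h4 | h4
          · exact absurd (h3.trans h4.symm) h1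
          · exact Tw_merge G P.k S D' hS1 hS2 hiD' hjD' K hKD' hK hKk h3 h4
          · exact (Tw_equiv _ _).symm
              (Tw_merge G P.k S D' hS1 hS2 hiD' hjD' K hKD' hK hKk h4 h3)
          · exact absurd (h3.trans h4.symm) h1
      · -- the numerical inequality
        have hjY : j ∉ D0 ∪ K1 := by
          rw [hK1]; simp [hjD0]
        have hiY' : i ∉ insert j (D0 ∪ K1) := by
          rw [mem_insert, mem_union, hK1]
          simp [hij, hiD0]
        have hdisj : Disjoint D0 K1 := by
          rw [hK1, Finset.disjoint_left]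
          intro l h1 h2
          simp only [mem_sdiff] at h2
          exact h2.1.2 h1
        have hmu' : mu P c D' = (1 + (P.k + 1) * ((sz c i : ℤ) - 1)) +
            ((1 + (P.k + 1) * ((sz c j : ℤ) - 1)) + (mu P c D0 +
              ∑ l ∈ K1, (1 + (P.k + 1) * ((sz c l : ℤ) - 1)))) := by
          unfold mu
          rw [hD', Finset.sum_insert hiY', Finset.sum_insert hjY, Finset.sum_union hdisj]
        have hmu : mu P (mrg c i j) D = (1 + (P.k + 1) * (((sz c i + sz c j : ℕ) : ℤ) - 1)) +
            mu P c D0 := by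
          rw [← mu_mrg_of_notMem P hij hiD0 hjD0, ← sz_mrg_i hij]
          conv_lhs => rw [← hDe]
          unfold mu
          rw [Finset.sum_insert hiD0]
        have hK1card : (K1.card : ℤ) ≤ P.k := by
          have : K1.card ≤ K.card := Finset.card_le_card (by
            rw [hK1]; exact Finset.sdiff_subset.trans Finset.sdiff_subset)
          exact_mod_cast this.trans hKcard
        have hsumK1 : ∑ l ∈ K1, (1 + (P.k + 1) * ((sz c l : ℤ) - 1)) =
            (K1.card : ℤ) + (P.k + 1) * ∑ l ∈ K1, ((sz c l : ℤ) - 1) := by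
          rw [Finset.sum_add_distrib, Finset.mul_sum]
          simp
        have hK1nn : 0 ≤ ∑ l ∈ K1, ((sz c l : ℤ) - 1) := by
          refine Finset.sum_nonneg fun l hl => ?_
          rw [hK1, mem_sdiff, mem_sdiff] at hl
          have : 1 ≤ sz c l := sz_pos_of_adjL (hK l hl.1.1).1
          have : (1:ℤ) ≤ sz c l := by exact_mod_cast this
          linarith
        have hkey : mu P c D' ≤ mu P (mrg c i j) D + (P.k + 1) * ∑ l ∈ K1, ((sz c l : ℤ) - 1) := by
          rw [hmu', hmu, hsumK1]
          push_cast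
          nlinarith
        have hmax : max 0 ((S.card : ℤ) - mu P (mrg c i j) D) ≤
            max 0 ((S.card : ℤ) - mu P c D') + (P.k + 1) * ∑ l ∈ K1, ((sz c l : ℤ) - 1) := by
          have hnn : 0 ≤ ((P.k : ℤ) + 1) * ∑ l ∈ K1, ((sz c l : ℤ) - 1) :=
            mul_nonneg (by positivity) hK1nn
          refine max_le ?_ ?_
          · have := le_max_left (0:ℤ) ((S.card : ℤ) - mu P c D')
            linarith
          · have := le_max_right (0:ℤ) ((S.card : ℤ) - mu P c D')
            linarith
        have hstep' : ((P.k : ℤ) + 1) * (Phi P G c D' + 2 * ∑ l ∈ K1, ((sz c l : ℤ) - 1)) ≤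
            (P.k + 1) * Phi P G (mrg c i j) D :=
          mul_le_mul_of_nonneg_left hstep (by positivity)
        linarith
    · -- the merged class does not belong to the collection
      have hpos : ∀ l ∈ D, 0 < sz c l := by
        intro l hl
        have hli : l ≠ i := fun h => hiD (h ▸ hl)
        have hlj : l ≠ j := fun h => hjD (h ▸ hl)
        have := hD l hl
        rwa [sz_mrg hij hli hlj] at this
      have hiff : ∀ v, mrg c i j v ∈ D ↔ c v ∈ D := by
        intro v
        unfold mrg
        split_ifs with h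
        · rw [h]
          exact ⟨fun h => absurd h hiD, fun h => absurd h hjD⟩
        · rfl
      obtain ⟨S, hS1, hS2, hS3⟩ := ih D hpos
      refine ⟨S, fun v hv => hS1 v ((hiff v).1 hv), ?_, ?_⟩
      · intro v v' hvv' hv
        refine hS2 v v' ?_ ((hiff v).1 hv)
        have h1 : c v ≠ j := fun h => hjD (h ▸ (hiff v).1 hv)
        have h2 : c v' ≠ j := fun h => hjD (h ▸ (hiff v').1 (hvv' ▸ hv))
        unfold mrg at hvv'
        rwa [if_neg h1, if_neg h2] at hvv'
      · rw [mu_mrg_of_notMem P hij hiD hjD, Phi_mrg_of_notMem P G hij hiD hjD]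
        exact hS3

end MP30c94c
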