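import Mathlib
import Pool.Agent.Lib.MP30c94c.LBMain

/-!
# Lower bound, part 3: percolation forces a small dense subgraph
-/

open SimpleGraph Finset

namespace MP30c94c

attribute [local instance] Classical.propDecidable

set_option linter.unusedSectionVars false

variable {V : Type} [Fintype V]

lemma card_fiber_sum (c : V → V) (K : Finset V) :
    ∑ l ∈ K, sz c l = (univ.filter fun z => c z ∈ K).card := by
  rw [Finset.card_eq_sum_card_fiberwise (f := c) (t := K) (by
    intro z hz
    simpa using hz)]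
  refine Finset.sum_congr rfl fun l hl => ?_
  unfold sz
  congr 1
  ext z
  simp only [mem_filter, mem_univ, true_and]
  constructor
  · intro h; exact ⟨h ▸ hl, h⟩
  · intro h; exact h.2

/-- number of colours used -/
noncomputable def ncol (c : V → V) : ℕ := (univ.image c).card

lemma ncol_mrg_lt {c : V → V} {i j : V} (hij : i ≠ j) (hj : 0 < sz c j) (hi : 0 < sz c i) :
    ncol (mrg c i j) < ncol c := by
  unfold ncol
  refine Finset.card_lt_card ?_
  rw [Finset.ssubset_iff_of_subset]
  · obtain ⟨v, hv⟩ := Finset.card_pos.1 hj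
    refine ⟨j, ?_, ?_⟩
    · rw [mem_image]
      exact ⟨v, mem_univ _, (mem_filter.1 hv).2⟩
    · rw [mem_image]
      rintro ⟨v, _, hv⟩
      exact mrg_ne_j hij v hv
  · intro l hl
    rw [mem_image] at hl ⊢
    obtain ⟨v, _, hv⟩ := hl
    by_cases h : c v = j
    · obtain ⟨u, hu⟩ := Finset.card_pos.1 hi
      refine ⟨u, mem_univ _, ?_⟩
      rw [(mem_filter.1 hu).2, ← hv]
      unfold mrg
      rw [if_pos h]
    · refine ⟨v, mem_univ _, ?_⟩
      rw [← hv]
      unfold mrg
      rw [if_neg h]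

/-- If no vertex set is dense, then a reachable colouring admits no big merge. -/
lemma no_big_merge (P : Pot) (G : SimpleGraph V)
    (hno : ∀ S : Finset V, S.Nonempty → P.X * (eIn G S : ℤ) < P.N * (S.card : ℤ))
    {c : V → V} (h : Reach P G c) {i j : V} (hij : i ≠ j) (hi : 0 < sz c i) (hj : 0 < sz c j)
    (hk : P.k ≤ ∑ l ∈ univ.filter (fun l => adjL G c l i ∧ adjL G c l j), sz c l) :
    sz c i + sz c j ≤ P.M := by
  by_contra hcon
  rw [not_le] at hcon
  set K := univ.filter (fun l => adjL G c l i ∧ adjL G c l j) with hK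
  set K1 := K \ {i, j} with hK1
  have hjK : j ∉ K1 := by rw [hK1]; simp
  have hiK : i ∉ insert j K1 := by rw [mem_insert, hK1]; simp [hij]
  have hKm : ∀ l ∈ K, adjL G c l i ∧ adjL G c l j := fun l hl => (mem_filter.1 hl).2
  have hpos : ∀ l ∈ insert i (insert j K1), 0 < sz c l := by
    intro l hl
    rw [mem_insert, mem_insert] at hl
    rcases hl with rfl | rfl | hl
    · exact hi
    · exact hj
    · rw [hK1, mem_sdiff] at hl
      exact sz_pos_of_adjL (hKm l hl.1).1
  obtain ⟨S, hS1, _, hS3⟩ := Bound_of_Reach P G h _ hpos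
  have hSne : S.Nonempty := by
    obtain ⟨u, hu⟩ := Finset.card_pos.1 hi
    refine ⟨u, hS1 u ?_⟩
    rw [(mem_filter.1 hu).2]
    exact Finset.mem_insert_self _ _
  have hgain := hno S hSne
  have hmax : 0 ≤ max 0 ((S.card : ℤ) - mu P c (insert i (insert j K1))) := le_max_left _ _
  have hPhi : 0 < Phi P G c (insert i (insert j K1)) := by
    have h1 : (0:ℤ) < (P.k + 1) * (2 * (P.N * (S.card : ℤ) - P.X * (eIn G S : ℤ))) := by
      have : (0:ℤ) < (P.k : ℤ) + 1 := by positivity
      have h2 : 0 < 2 * (P.N * (S.card : ℤ) - P.X * (eIn G S : ℤ)) := by linarith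
      exact mul_pos this h2
    have h2 : (0:ℤ) < (P.k + 1) * Phi P G c (insert i (insert j K1)) := by linarith
    have h3 : (0:ℤ) < (P.k : ℤ) + 1 := by positivity
    exact (mul_pos_iff_of_pos_left h3).1 h2
  rw [Phi_insert P G c hiK, Phi_insert P G c hjK, Finset.sum_insert hjK] at hPhi
  have hPK : Phi P G c K1 ≤ 2 * ∑ l ∈ K1, P.g (sz c l) := by
    have := Phi_union_le P G c h.le ∅ K1 (Finset.disjoint_empty_left _)
    simpa [Phi] using this
  have c1 : cost P G c i i = 2 * (if adjL G c i i then P.X else 0) := by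
    by_cases h : adjL G c i i <;> simp [cost, h]
  have c2 : cost P G c j j = 2 * (if adjL G c j j then P.X else 0) := by
    by_cases h : adjL G c j j <;> simp [cost, h]
  have c3 : cost P G c i j = (if adjL G c i j then P.w (sz c i) (sz c j) else 0) := by
    unfold cost
    rw [if_neg hij]
  have c4 : ∀ l ∈ K1, cost P G c i l = P.w (sz c i) (sz c l) := by
    intro l hl
    rw [hK1, mem_sdiff, mem_insert, mem_singleton, not_or] at hl
    unfold cost
    rw [if_pos (adjL_symm (hKm l hl.1).1), if_neg (Ne.symm hl.2.1)]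
  have c5 : ∀ l ∈ K1, cost P G c j l = P.w (sz c j) (sz c l) := by
    intro l hl
    rw [hK1, mem_sdiff, mem_insert, mem_singleton, not_or] at hl
    unfold cost
    rw [if_pos (adjL_symm (hKm l hl.1).2), if_neg (Ne.symm hl.2.2)]
  have hunits : (P.k : ℤ) ≤ ∑ l ∈ K1, (sz c l : ℤ) +
      (if adjL G c i i ∧ adjL G c i j then (sz c i : ℤ) else 0) +
      (if adjL G c j j ∧ adjL G c i j then (sz c j : ℤ) else 0) := by
    have hkz : (P.k : ℤ) ≤ ∑ l ∈ K, (sz c l : ℤ) := by exact_mod_cast hk
    refine hkz.trans ?_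
    have hsplit : ∑ l ∈ K, (sz c l : ℤ) = ∑ l ∈ K1, (sz c l : ℤ) +
        ∑ l ∈ K ∩ {i, j}, (sz c l : ℤ) := by
      rw [hK1, ← Finset.sdiff_inter_self_left, Finset.sum_sdiff Finset.inter_subset_left]
    rw [hsplit, Finset.inter_comm, ← Finset.sum_ite_mem, Finset.sum_pair hij]
    have e1 : i ∈ K ↔ adjL G c i i ∧ adjL G c i j := by
      rw [hK, mem_filter]; simp
    have e2 : j ∈ K ↔ adjL G c j j ∧ adjL G c i j := by
      rw [hK, mem_filter]
      constructor
      · rintro ⟨_, h1, h2⟩; exact ⟨h2, adjL_symm h1⟩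
      · rintro ⟨h1, h2⟩; exact ⟨mem_univ _, adjL_symm h2, h1⟩
    simp only [e1, e2]
    linarith
  have hfin := P.fin K1 (fun l => sz c l) (sz c i) (sz c j) (adjL G c i i) (adjL G c j j)
    (adjL G c i j) hi (h.le i) hj (h.le j) hcon (fun l hl => by
      rw [hK1, mem_sdiff] at hl
      exact ⟨sz_pos_of_adjL (hKm l hl.1).1, h.le l⟩) hunits
  rw [c1, c2, c3, Finset.sum_congr rfl c4, Finset.sum_congr rfl c5] at hPhi
  simp only [Finset.sum_sub_distrib, Finset.sum_add_distrib] at hfin
  linarith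

/-- the size bound for witnesses -/
def Pot.L (P : Pot) : ℕ := (P.k + 1) * P.M + (P.k + 1) * P.N.toNat + 1

theorem small_classes (P : Pot) (G : SimpleGraph V)
    (hno : ∀ S : Finset V, S.Nonempty → P.X * (eIn G S : ℤ) < P.N * (S.card : ℤ)) :
    (∀ u, (univ.filter fun v => Tw G P.k u v).card ≤ P.M) ∧
    (∀ u v, Tw G P.k u v → ∃ S : Finset V, S.card ≤ P.L ∧ Tw (restr G S) P.k u v) := by
  -- a reachable colouring with a minimal number of colours
  have hex : ∃ n, ∃ c, Reach P G c ∧ ncol c = n := ⟨_, _, Reach.id, rfl⟩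
  obtain ⟨c, hc, hcn⟩ := Nat.find_spec hex
  have hmin : ∀ c', Reach P G c' → ncol c ≤ ncol c' := by
    intro c' hc'
    rw [hcn]
    exact Nat.find_min' hex ⟨c', hc', rfl⟩
  have hstable : ∀ i j, i ≠ j → 0 < sz c i → 0 < sz c j →
      ¬ (P.k ≤ ∑ l ∈ univ.filter (fun l => adjL G c l i ∧ adjL G c l j), sz c l) := by
    intro i j hij hi hj hk
    have hs := no_big_merge P G hno hc hij hi hj hk
    have h1 := hmin _ (Reach.merge hc hij hi hj hs hk)
    have h2 := ncol_mrg_lt hij hj hi
    omega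
  have hclosed : ClosedRel G P.k (fun u v => c u = c v) := by
    intro u v huv
    by_contra hne
    have hu : 0 < sz c (c u) := Finset.card_pos.2 ⟨u, by simp⟩
    have hv : 0 < sz c (c v) := Finset.card_pos.2 ⟨v, by simp⟩
    refine hstable (c u) (c v) hne hu hv ?_
    rw [card_fiber_sum]
    refine huv.trans (Finset.card_le_card ?_)
    intro z hz
    simp only [mem_filter, mem_univ, true_and] at hz ⊢
    obtain ⟨⟨a, b, h1, h2, h3⟩, ⟨a', b', h1', h2', h3'⟩⟩ := hz
    exact ⟨⟨a, b, h1.symm, h2.symm, h3⟩, ⟨a', b', h1'.symm, h2'.symm, h3'⟩⟩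
  have hTw : ∀ u v, Tw G P.k u v → c u = c v := fun u v h =>
    h (fun u v => c u = c v) ⟨fun _ => rfl, fun h => h.symm, fun h h' => h.trans h'⟩ hclosed
  constructor
  · intro u
    refine (Finset.card_le_card ?_).trans (hc.le (c u))
    intro v hv
    simp only [mem_filter, mem_univ, true_and] at hv ⊢
    exact (hTw u v hv).symm
  · intro u v huv
    have hu : 0 < sz c (c u) := Finset.card_pos.2 ⟨u, by simp⟩
    obtain ⟨S, hS1, hS2, hS3⟩ := Bound_of_Reach P G hc {c u} (by
      intro i hi
      rw [mem_singleton] at hi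
      rw [hi]; exact hu)
    refine ⟨S, ?_, hS2 u v (hTw u v huv) (mem_singleton_self _)⟩
    have hSne : S.Nonempty := ⟨u, hS1 u (mem_singleton_self _)⟩
    have hgain := hno S hSne
    have hPhi : Phi P G c {c u} ≤ 2 * P.N := by
      have h1 := Phi_insert P G c (a := c u) (D := ∅) (by simp)
      have h2 : Phi P G c ∅ = 0 := by simp [Phi]
      rw [h2] at h1
      simp only [insert_empty_eq, Finset.sum_empty] at h1
      have h3 := P.gle (sz c (c u)) hu (hc.le _)
      have h4 := cost_nonneg P G c hc.le (c u) (c u)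
      linarith
    have hmu : mu P c {c u} ≤ 1 + (P.k + 1) * ((P.M : ℤ) - 1) := by
      unfold mu
      rw [Finset.sum_singleton]
      have : (sz c (c u) : ℤ) ≤ P.M := by exact_mod_cast hc.le (c u)
      have h2 : ((P.k : ℤ) + 1) * ((sz c (c u) : ℤ) - 1) ≤ (P.k + 1) * ((P.M : ℤ) - 1) :=
        mul_le_mul_of_nonneg_left (by linarith) (by positivity)
      linarith
    have hmax := le_max_right (0:ℤ) ((S.card : ℤ) - mu P c {c u})
    have h1 : (0:ℤ) ≤ (P.k + 1) * (2 * (P.N * (S.card : ℤ) - P.X * (eIn G S : ℤ))) :=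
      mul_nonneg (by positivity) (by linarith)
    have h2 : ((P.k : ℤ) + 1) * Phi P G c {c u} ≤ (P.k + 1) * (2 * P.N) :=
      mul_le_mul_of_nonneg_left hPhi (by positivity)
    have h3 : (S.card : ℤ) ≤ (P.k + 1) * P.M + (P.k + 1) * P.N + 1 := by
      nlinarith
    have h4 : ((P.N.toNat : ℕ) : ℤ) = P.N := Int.toNat_of_nonneg P.Npos.le
    unfold Pot.L
    have h5 : (S.card : ℤ) ≤ (((P.k + 1) * P.M + (P.k + 1) * P.N.toNat + 1 : ℕ) : ℤ) := by
      push_cast [h4]
      exact h3
    exact_mod_cast h5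

lemma eIn_restr (G : SimpleGraph V) (W S : Finset V) : eIn (restr G W) S = eIn G (S ∩ W) := by
  unfold eIn
  congr 1
  ext e
  induction e using Sym2.ind with
  | _ u v =>
    simp only [mem_filter, mem_edgeFinset, mem_edgeSet, restr_adj, mem_inter]
    simp only [Sym2.mem_iff, forall_eq_or_imp, forall_eq]
    tauto

/-- In a graph without small dense sets, every pair of `Tw` twins has a small witness. -/
theorem small_witness (P : Pot) (G : SimpleGraph V) (L' : ℕ)
    (hL1 : 2 * P.L ≤ L') (hL2 : P.k * (4 * P.L + 4) ≤ L') (hL3 : (P.M + 1) * P.L ≤ L')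
    (hno : ∀ S : Finset V, S.Nonempty → S.card ≤ L' →
      P.X * (eIn G S : ℤ) < P.N * (S.card : ℤ)) :
    ∀ u, (univ.filter fun v => Tw G P.k u v).card ≤ P.M := by
  have hnoW : ∀ W : Finset V, W.card ≤ L' → ∀ S : Finset V, S.Nonempty →
      P.X * (eIn (restr G W) S : ℤ) < P.N * (S.card : ℤ) := by
    intro W hW S hS
    rw [eIn_restr]
    by_cases hne : (S ∩ W).Nonempty
    · have h1 := hno (S ∩ W) hne ((Finset.card_le_card Finset.inter_subset_right).trans hW)
      have h2 : ((S ∩ W).card : ℤ) ≤ S.card := by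
        exact_mod_cast Finset.card_le_card Finset.inter_subset_left
      have h3 := mul_le_mul_of_nonneg_left h2 P.Npos.le
      linarith
    · rw [Finset.not_nonempty_iff_eq_empty] at hne
      rw [hne]
      have h0 : eIn G (∅ : Finset V) = 0 := by
        unfold eIn
        rw [Finset.card_eq_zero, Finset.filter_eq_empty_iff]
        intro e _ h
        induction e using Sym2.ind with
        | _ u v => exact absurd (h u (by simp)) (Finset.notMem_empty _)
      rw [h0]
      have : (0:ℤ) < S.card := by exact_mod_cast Finset.card_pos.2 hS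
      have := mul_pos P.Npos this
      simpa using this
  have hrr : ∀ W S : Finset V, ∀ u v, (restr (restr G W) S).Adj u v → (restr G S).Adj u v := by
    intro W S u v h
    rw [restr_adj, restr_adj] at h
    exact ⟨h.1.1, h.2⟩
  -- shrinking
  have hshrink : ∀ W : Finset V, W.card ≤ L' → ∀ u v, Tw (restr G W) P.k u v →
      ∃ S : Finset V, S.card ≤ P.L ∧ Tw (restr G S) P.k u v := by
    intro W hW u v huv
    obtain ⟨S, hS, hT⟩ := (small_classes P (restr G W) (hnoW W hW)).2 u v huv
    exact ⟨S, hS, Tw_mono (hrr W S) hT⟩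
  have hmonoW : ∀ W W' : Finset V, W ⊆ W' → ∀ u v, Tw (restr G W) P.k u v →
      Tw (restr G W') P.k u v := by
    intro W W' hW u v h
    refine Tw_mono ?_ h
    intro a b hab
    rw [restr_adj] at hab ⊢
    exact ⟨hab.1, hW hab.2.1, hW hab.2.2⟩
  let r : V → V → Prop := fun u v => ∃ S : Finset V, S.card ≤ P.L ∧ Tw (restr G S) P.k u v
  have hr : Equivalence r := by
    refine ⟨fun u => ⟨∅, by simp, (Tw_equiv _ _).refl u⟩, ?_, ?_⟩
    · rintro u v ⟨S, hS, h⟩
      exact ⟨S, hS, (Tw_equiv _ _).symm h⟩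
    · rintro u v z ⟨S, hS, h⟩ ⟨S', hS', h'⟩
      refine hshrink (S ∪ S') ?_ u z ?_
      · have := Finset.card_union_le S S'
        omega
      · exact (Tw_equiv _ _).trans (hmonoW _ _ Finset.subset_union_left _ _ h)
          (hmonoW _ _ Finset.subset_union_right _ _ h')
  have hrc : ClosedRel G P.k r := by
    intro u v huv
    obtain ⟨Z, hZ, hZc⟩ := Finset.exists_subset_card_eq huv
    have hZ' : ∀ z ∈ Z, ∃ W : Finset V, W.card ≤ 4 * P.L + 4 ∧
        Adjr (restr G W) (Tw (restr G W) P.k) z u ∧ Adjr (restr G W) (Tw (restr G W) P.k) z v := by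
      intro z hz
      have := hZ hz
      simp only [mem_filter, mem_univ, true_and] at this
      obtain ⟨⟨a, b, ⟨S1, hS1, h1⟩, ⟨S2, hS2, h2⟩, h3⟩,
        ⟨a', b', ⟨S1', hS1', h1'⟩, ⟨S2', hS2', h2'⟩, h3'⟩⟩ := this
      refine ⟨(S1 ∪ S2) ∪ (S1' ∪ S2') ∪ {a, b, a', b'}, ?_, ?_, ?_⟩
      · have e1 := Finset.card_union_le ((S1 ∪ S2) ∪ (S1' ∪ S2')) ({a, b, a', b'} : Finset V)
        have e2 := Finset.card_union_le (S1 ∪ S2) (S1' ∪ S2')
        have e3 := Finset.card_union_le S1 S2
        have e4 := Finset.card_union_le S1' S2'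
        have e5 : ({a, b, a', b'} : Finset V).card ≤ 4 := Finset.card_le_four
        omega
      · refine ⟨a, b, hmonoW S1 _ ?_ _ _ h1, hmonoW S2 _ ?_ _ _ h2, h3, ?_, ?_⟩
        · intro x hx; simp [hx]
        · intro x hx; simp [hx]
        · simp
        · simp
      · refine ⟨a', b', hmonoW S1' _ ?_ _ _ h1', hmonoW S2' _ ?_ _ _ h2', h3', ?_, ?_⟩
        · intro x hx; simp [hx]
        · intro x hx; simp [hx]
        · simp
        · simp
    choose! Wf hWc hW1 hW2 using hZ'
    have hcard : (Z.biUnion Wf).card ≤ L' := by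
      calc (Z.biUnion Wf).card ≤ Z.card * (4 * P.L + 4) := Finset.card_biUnion_le_card_mul _ _ _ hWc
        _ = P.k * (4 * P.L + 4) := by rw [hZc]
        _ ≤ L' := hL2
    refine hshrink (Z.biUnion Wf) hcard u v (Tw_closed _ _ u v ?_)
    refine hZc.symm.le.trans (Finset.card_le_card ?_)
    intro z hz
    simp only [mem_filter, mem_univ, true_and]
    have hsub : Wf z ⊆ Z.biUnion Wf := Finset.subset_biUnion_of_mem Wf hz
    have hG : ∀ a b, (restr G (Wf z)).Adj a b → (restr G (Z.biUnion Wf)).Adj a b := by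
      intro a b hab
      rw [restr_adj] at hab ⊢
      exact ⟨hab.1, hsub hab.2.1, hsub hab.2.2⟩
    exact ⟨Adjr_mono hG (fun a b h => hmonoW _ _ hsub a b h) (hW1 z hz),
      Adjr_mono hG (fun a b h => hmonoW _ _ hsub a b h) (hW2 z hz)⟩
  intro u
  by_contra hcon
  rw [not_le] at hcon
  obtain ⟨Z, hZ, hZc⟩ := Finset.exists_subset_card_eq (Nat.succ_le_of_lt hcon)
  have hZ' : ∀ z ∈ Z, ∃ S : Finset V, S.card ≤ P.L ∧ Tw (restr G S) P.k u z := by
    intro z hz
    have := hZ hz
    simp only [mem_filter, mem_univ, true_and] at this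
    exact this r hr hrc
  choose! Sf hSc hST using hZ'
  have hcard : (Z.biUnion Sf).card ≤ L' := by
    calc (Z.biUnion Sf).card ≤ Z.card * P.L := Finset.card_biUnion_le_card_mul _ _ _ hSc
      _ = (P.M + 1) * P.L := by rw [hZc]
      _ ≤ L' := hL3
  have h1 := (small_classes P (restr G (Z.biUnion Sf)) (hnoW _ hcard)).1 u
  have h2 : Z ⊆ univ.filter fun v => Tw (restr G (Z.biUnion Sf)) P.k u v := by
    intro z hz
    simp only [mem_filter, mem_univ, true_and]
    exact hmonoW _ _ (Finset.subset_biUnion_of_mem Sf hz) _ _ (hST z hz)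
  have h3 := Finset.card_le_card h2
  omega

/-! ### Relation with the `K_{2,k+1}` process -/

lemma Adjr_symm {G : SimpleGraph V} {r : V → V → Prop} {z u : V} (h : Adjr G r z u) :
    Adjr G r u z := by
  obtain ⟨a, b, h1, h2, h3⟩ := h
  exact ⟨b, a, h2, h1, h3.symm⟩

lemma Adjr_trans {G : SimpleGraph V} {r : V → V → Prop} (hr : Equivalence r) {z u u' : V}
    (h : Adjr G r z u) (hu : r u' u) : Adjr G r z u' := by
  obtain ⟨a, b, h1, h2, h3⟩ := h
  exact ⟨a, b, h1, hr.trans hu h2, h3⟩

lemma InClosure_sub (G : SimpleGraph V) (k : ℕ) (r : V → V → Prop) (hr : Equivalence r)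
    (hc : ClosedRel G k r) (e : Sym2 V) (h : InClosure (K2 (k + 1)) G e) :
    ∀ u v, e = s(u, v) → Adjr G r u v := by
  induction h with
  | @base e he =>
    rintro u v rfl
    exact ⟨u, v, hr.refl u, hr.refl v, he⟩
  | @step e f he h ih =>
    have key : ∀ (i : Fin 2) (j : Fin (k + 1)), e = s(f (Sum.inl i), f (Sum.inr j)) →
        Adjr G r (f (Sum.inl i)) (f (Sum.inr j)) := by
      intro i j hej
      obtain ⟨i', hi'⟩ : ∃ i' : Fin 2, i' ≠ i := exists_ne i
      have hadj : ∀ (a : Fin 2) (b : Fin (k + 1)),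
          s(f (Sum.inl a), f (Sum.inr b)) ∈ ((K2 (k + 1)).map f).edgeSet := by
        intro a b
        rw [mem_edgeSet, SimpleGraph.map_adj]
        exact ⟨Sum.inl a, Sum.inr b, by simp, rfl, rfl⟩
      have hne : ∀ (a : Fin 2) (b : Fin (k + 1)), (a ≠ i ∨ b ≠ j) →
          s(f (Sum.inl a), f (Sum.inr b)) ≠ e := by
        intro a b hab heq
        rw [hej, Sym2.eq_iff] at heq
        rcases heq with ⟨h1, h2⟩ | ⟨h1, h2⟩
        · rcases hab with hab | hab
          · exact hab (by simpa using f.injective h1)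
          · exact hab (by simpa using f.injective h2)
        · exact absurd (f.injective h1) (by simp)
      have hA : ∀ (a : Fin 2) (b : Fin (k + 1)), (a ≠ i ∨ b ≠ j) →
          Adjr G r (f (Sum.inl a)) (f (Sum.inr b)) := fun a b hab =>
        ih _ (hadj a b) (hne a b hab) _ _ rfl
      have hrii : r (f (Sum.inl i)) (f (Sum.inl i')) := by
        refine hc _ _ ?_
        have hcard : ((univ.erase j).map (Function.Embedding.inr.trans f)).card = k := by
          rw [Finset.card_map, Finset.card_erase_of_mem (mem_univ _)]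
          simp
        calc k = _ := hcard.symm
          _ ≤ _ := Finset.card_le_card ?_
        intro z hz
        rw [mem_map] at hz
        obtain ⟨b, hb, rfl⟩ := hz
        simp only [mem_filter, mem_univ, true_and]
        have hb' : b ≠ j := (Finset.mem_erase.1 hb).1
        exact ⟨Adjr_symm (hA i b (Or.inr hb')), Adjr_symm (hA i' b (Or.inr hb'))⟩
      exact Adjr_symm (Adjr_trans hr (Adjr_symm (hA i' j (Or.inl hi'))) hrii)
    intro u v huv
    induction e using Sym2.ind with
    | _ x y =>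
      rw [mem_edgeSet, SimpleGraph.map_adj] at he
      obtain ⟨a, b, hab, rfl, rfl⟩ := he
      have key2 : Adjr G r (f a) (f b) := by
        rcases a with a | a <;> rcases b with b | b
        · simp at hab
        · exact key a b rfl
        · exact Adjr_symm (key b a Sym2.eq_swap)
        · simp at hab
      rw [Sym2.eq_iff] at huv
      rcases huv with ⟨h1, h2⟩ | ⟨h1, h2⟩
      · rw [← h1, ← h2]; exact key2
      · rw [← h1, ← h2]; exact Adjr_symm key2

/-- Main deterministic lower bound. -/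
theorem dense_of_percolates (P : Pot) : ∃ L' : ℕ, ∀ (V : Type) [Fintype V] (G : SimpleGraph V),
    L' ≤ Fintype.card V → Percolates (K2 (P.k + 1)) G →
    ∃ S : Finset V, S.Nonempty ∧ S.card ≤ L' ∧ P.N * (S.card : ℤ) ≤ P.X * (eIn G S : ℤ) := by
  refine ⟨2 * P.L + P.k * (4 * P.L + 4) + (P.M + 1) * P.L + P.k + 2 + P.M, ?_⟩
  intro V _ G hcard hperc
  by_contra hcon
  push Not at hcon
  have hcl := small_witness P G (2 * P.L + P.k * (4 * P.L + 4) + (P.M + 1) * P.L + P.k + 2 + P.M)
    (by omega) (by omega) (by omega) (fun S h1 h2 => hcon S h1 h2)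
  -- all pairs are adjacent modulo the twin relation
  have hadj : ∀ u v : V, u ≠ v → Adjr G (Tw G P.k) u v := by
    intro u v huv
    have h1 : (closure (K2 (P.k + 1)) G).Adj u v := by
      unfold Percolates at hperc
      rw [hperc]
      exact huv
    exact InClosure_sub G P.k _ (Tw_equiv G P.k) (Tw_closed G P.k) _ h1.2 u v rfl
  have hall : ∀ u v : V, Tw G P.k u v := by
    intro u v
    refine Tw_closed G P.k u v ?_
    have h1 : (univ \ {u, v} : Finset V) ⊆
        univ.filter fun z => Adjr G (Tw G P.k) z u ∧ Adjr G (Tw G P.k) z v := by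
      intro z hz
      rw [mem_sdiff, mem_insert, mem_singleton, not_or] at hz
      simp only [mem_filter, mem_univ, true_and]
      exact ⟨hadj z u hz.2.1, hadj z v hz.2.2⟩
    refine le_trans ?_ (Finset.card_le_card h1)
    have h2 := Finset.le_card_sdiff ({u, v} : Finset V) (univ : Finset V)
    have h3 : ({u, v} : Finset V).card ≤ 2 := Finset.card_le_two
    rw [Finset.card_univ] at h2
    omega
  have hne : Nonempty V := by
    rw [← Fintype.card_pos_iff]; omega
  obtain ⟨u⟩ := hne
  have h1 := hcl u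
  have h2 : (univ.filter fun v => Tw G P.k u v) = univ := by
    ext v; simp [hall u v]
  rw [h2, Finset.card_univ] at h1
  omega

end MP30c94c
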