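import Mathlib
import Pool.Agent.Lib.MP30c94c.Basic

/-! # Module SD: deterministic percolation from a seed (`k = t - 1`) -/

open SimpleGraph Finset Filter

namespace MP30c94c

attribute [local instance] Classical.propDecidable

/-- The basic rule of the `K_{2,k+1}` process: if `u ≠ w` have at least `k` common neighbours in the
closure, then every closure-neighbour `v ≠ u` of `w` is a closure-neighbour of `u`. -/
theorem closure_rule {V : Type*} [Fintype V] (k : ℕ) (G : SimpleGraph V) {u w v : V}
    (huw : u ≠ w) (huv : v ≠ u) (hvw : (closure (K2 (k + 1)) G).Adj v w)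
    (hk : k ≤ (univ.filter fun z => (closure (K2 (k + 1)) G).Adj u z ∧
      (closure (K2 (k + 1)) G).Adj w z).card) :
    (closure (K2 (k + 1)) G).Adj v u := by
  by_cases hvu : (closure (K2 (k + 1)) G).Adj v u
  · exact hvu
  obtain ⟨Z, hZsub, hZcard⟩ := Finset.exists_subset_card_eq hk
  have hZ : ∀ z ∈ Z, (closure (K2 (k + 1)) G).Adj u z ∧ (closure (K2 (k + 1)) G).Adj w z := by
    intro z hz
    exact (Finset.mem_filter.1 (hZsub hz)).2
  have e : Fin k ≃ Z := (Z.equivFinOfCardEq hZcard).symm
  have hvZ : v ∉ Z := fun h => hvu (hZ v h).1.symm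
  have hf1 : Function.Injective (![u, w] : Fin 2 → V) := by
    intro a b hab
    fin_cases a <;> fin_cases b <;> simp_all
  have hf2 : Function.Injective (Fin.snoc (α := fun _ => V) (fun i => (e i : V)) v) := by
    rw [Fin.snoc_injective_iff]
    refine ⟨fun a b hab => e.injective (Subtype.ext hab), ?_⟩
    rintro ⟨i, hi⟩
    exact hvZ (hi ▸ (e i).2)
  have hf3 : ∀ a b, (![u, w] : Fin 2 → V) a ≠ Fin.snoc (α := fun _ => V) (fun i => (e i : V)) v b := by
    intro a b
    refine Fin.lastCases ?_ (fun i => ?_) b
    · rw [Fin.snoc_last]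
      fin_cases a
      · exact fun h => huv h.symm
      · exact fun h => hvw.ne h.symm
    · rw [Fin.snoc_castSucc]
      have hz := hZ (e i) (e i).2
      fin_cases a
      · exact hz.1.ne
      · exact hz.2.ne
  let f : Fin 2 ⊕ Fin (k + 1) ↪ V :=
    ⟨Sum.elim (![u, w]) (Fin.snoc (α := fun _ => V) (fun i => (e i : V)) v),
      Function.Injective.sumElim hf1 hf2 hf3⟩
  have fu : f (Sum.inl 0) = u := rfl
  have fw : f (Sum.inl 1) = w := rfl
  have fv : f (Sum.inr (Fin.last k)) = v := by
    show Fin.snoc (α := fun _ => V) (fun i => (e i : V)) v (Fin.last k) = v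
    rw [Fin.snoc_last]
  have fz : ∀ i : Fin k, f (Sum.inr i.castSucc) = e i := by
    intro i
    show Fin.snoc (α := fun _ => V) (fun i => (e i : V)) v i.castSucc = e i
    rw [Fin.snoc_castSucc]
  refine ⟨huv, InClosure.step f ?_ ?_⟩
  · rw [SimpleGraph.mem_edgeSet, SimpleGraph.map_adj]
    exact ⟨Sum.inr (Fin.last k), Sum.inl 0, by simp, fv, fu⟩
  · have key : ∀ (i : Fin 2) (j : Fin (k + 1)), s(f (Sum.inl i), f (Sum.inr j)) ≠ s(v, u) →
        InClosure (K2 (k + 1)) G s(f (Sum.inl i), f (Sum.inr j)) := by
      intro i j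
      refine Fin.lastCases ?_ (fun l => ?_) j
      · intro hne
        fin_cases i
        · exfalso
          apply hne
          show s(f (Sum.inl 0), _) = _
          rw [fu, fv, Sym2.eq_swap]
        · show InClosure (K2 (k + 1)) G s(f (Sum.inl 1), _)
          rw [fw, fv, Sym2.eq_swap]
          exact hvw.2
      · intro _
        have hz := hZ (e l) (e l).2
        fin_cases i
        · show InClosure (K2 (k + 1)) G s(f (Sum.inl 0), _)
          rw [fu, fz]
          exact hz.1.2
        · show InClosure (K2 (k + 1)) G s(f (Sum.inl 1), _)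
          rw [fw, fz]
          exact hz.2.2
    intro e' he' hne
    induction e' using Sym2.ind with
    | _ x y =>
      rw [SimpleGraph.mem_edgeSet, SimpleGraph.map_adj] at he'
      obtain ⟨a, b, hab, rfl, rfl⟩ := he'
      rcases a with i | i <;> rcases b with j | j
      · simp at hab
      · exact key i j hne
      · rw [Sym2.eq_swap] at hne ⊢
        exact key j i hne
      · simp at hab

/-- Percolation from a seed. `T u w` (for `u = w` or at least `k` common neighbours in the closure)
is the twin relation. If `G` is connected, not bipartite, has minimum degree at least `k + 2` and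
there is a vertex `b` with `k + 2` twins (a set `B` of `k + 2` vertices which pairwise have at
least `k` common neighbours in the closure), then `G` percolates. -/
theorem percolates_of_class {V : Type*} [Fintype V] (k : ℕ) (hk : 1 ≤ k) (G : SimpleGraph V)
    (hconn : G.Connected) (hbip : ¬ G.Colorable 2)
    (hdeg : ∀ v, k + 2 ≤ (univ.filter fun w => G.Adj v w).card)
    (B : Finset V) (hB : k + 2 ≤ B.card)
    (hBB : ∀ u ∈ B, ∀ w ∈ B, u ≠ w → k ≤ (univ.filter fun z =>
      (closure (K2 (k + 1)) G).Adj u z ∧ (closure (K2 (k + 1)) G).Adj w z).card) :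
    Percolates (K2 (k + 1)) G := by
  have hrule := @closure_rule V _ k G
  unfold Percolates
  generalize hC : closure (K2 (k + 1)) G = C at hBB hrule ⊢
  have hGC : ∀ a b, G.Adj a b → C.Adj a b := by
    intro a b h
    rw [← hC]
    exact ⟨h.ne, InClosure.base h⟩
  have hdegC : ∀ v, k + 2 ≤ (univ.filter fun w => C.Adj v w).card := fun v =>
    (hdeg v).trans (Finset.card_le_card fun w hw => by
      simp only [Finset.mem_filter, Finset.mem_univ, true_and] at hw ⊢
      exact hGC _ _ hw)
  clear hC hdeg
  obtain ⟨T, hT⟩ : ∃ T : V → V → Prop, ∀ u w, T u w ↔ (u = w ∨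
      k ≤ (univ.filter fun z => C.Adj u z ∧ C.Adj w z).card) := ⟨_, fun _ _ => Iff.rfl⟩
  have Trefl : ∀ u, T u u := fun u => (hT u u).2 (Or.inl rfl)
  have Tsymm : ∀ u w, T u w → T w u := by
    intro u w h
    rw [hT] at h ⊢
    rcases h with h | h
    · exact Or.inl h.symm
    · right
      simpa only [and_comm] using h
  have F2 : ∀ u w v, T u w → C.Adj v w → v ≠ u → C.Adj v u := by
    intro u w v h hvw hvu
    by_cases huw : u = w
    · rw [huw]; exact hvw
    rw [hT] at h
    exact hrule huw hvu hvw (h.resolve_left huw)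
  -- a set of common neighbours with two exceptions
  have Tof : ∀ (x y : V) (S : Finset V), k + 2 ≤ S.card →
      (∀ z ∈ S, z ≠ x → z ≠ y → C.Adj x z ∧ C.Adj y z) → T x y := by
    intro x y S hS h
    rw [hT]
    right
    have h1 : (S.erase x).erase y ⊆ univ.filter fun z => C.Adj x z ∧ C.Adj y z := by
      intro z hz
      rw [Finset.mem_erase, Finset.mem_erase] at hz
      simp only [Finset.mem_filter, Finset.mem_univ, true_and]
      exact h z hz.2.2 hz.2.1 hz.1
    have h2 := Finset.card_le_card h1
    have h3 : S.card - 1 ≤ (S.erase x).card := Finset.pred_card_le_card_erase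
    have h4 : (S.erase x).card - 1 ≤ ((S.erase x).erase y).card := Finset.pred_card_le_card_erase
    omega
  have Ttrans : ∀ u w x, T u w → T w x → T u x := by
    intro u w x h1 h2
    refine Tof u x _ (hdegC w) ?_
    intro z hz hzu hzx
    simp only [Finset.mem_filter, Finset.mem_univ, true_and] at hz
    exact ⟨(F2 u w z h1 hz.symm hzu).symm, (F2 x w z (Tsymm _ _ h2) hz.symm hzx).symm⟩
  -- large classes
  obtain ⟨P, hP⟩ : ∃ P : V → Prop, ∀ v, P v ↔ k + 2 ≤ (univ.filter fun x => T x v).card :=
    ⟨_, fun _ => Iff.rfl⟩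
  have F7' : ∀ v y y', P v → C.Adj v y → C.Adj v y' → T y y' := by
    intro v y y' hv hy hy'
    refine Tof y y' _ ((hP v).1 hv) ?_
    intro z hz hzy hzy'
    simp only [Finset.mem_filter, Finset.mem_univ, true_and] at hz
    exact ⟨F2 z v y hz hy.symm hzy.symm, F2 z v y' hz hy'.symm hzy'.symm⟩
  have F5 : ∀ v y, P v → C.Adj v y → P y := by
    intro v y hv hy
    rw [hP]
    refine (hdegC v).trans (Finset.card_le_card fun x hx => ?_)
    simp only [Finset.mem_filter, Finset.mem_univ, true_and] at hx ⊢
    exact F7' v x y hv hx hy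
  obtain ⟨b, hb⟩ : B.Nonempty := Finset.card_pos.1 (by omega)
  have hPb : P b := by
    rw [hP]
    refine hB.trans (Finset.card_le_card fun x hx => ?_)
    simp only [Finset.mem_filter, Finset.mem_univ, true_and]
    rw [hT]
    by_cases hxb : x = b
    · exact Or.inl hxb
    · exact Or.inr (hBB x hx b hb hxb)
  have hind : ∀ (Q : V → Prop) (a : V), Q a → (∀ x y, Q x → G.Adj x y → Q y) → ∀ v, Q v := by
    intro Q a ha hs v
    obtain ⟨p⟩ := hconn.preconnected a v
    induction p with
    | nil => exact ha
    | cons h p ih => exact ih (hs _ _ ha h)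
  have hPall : ∀ v, P v := hind P b hPb fun x y hx hxy => F5 x y hx (hGC _ _ hxy)
  have F7 : ∀ v y y', C.Adj v y → C.Adj v y' → T y y' := fun v y y' => F7' v y y' (hPall v)
  have claimA : ∀ a a' c c', T a a' → C.Adj a c → C.Adj a' c' → T c c' := by
    intro a a' c c' haa hac hac'
    by_cases h : c' = a
    · subst h
      exact Ttrans _ _ _ (F7 _ c a' hac hac'.symm) (Tsymm _ _ haa)
    · exact F7 a c c' hac (F2 a a' c' haa hac'.symm h).symm
  have hnb : ∀ v, ∃ y, C.Adj v y := by
    intro v
    have h := hdegC v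
    obtain ⟨y, hy⟩ : (univ.filter fun w => C.Adj v w).Nonempty := Finset.card_pos.1 (by omega)
    simp only [Finset.mem_filter, Finset.mem_univ, true_and] at hy
    exact ⟨y, hy⟩
  have hall : ∀ v, T v b := by
    obtain ⟨y0, hy0⟩ := hnb b
    by_cases hTy : T y0 b
    · refine hind (fun v => T v b) b (Trefl b) ?_
      intro x y hx hxy
      exact Ttrans _ _ _ (claimA x b y y0 hx (hGC _ _ hxy) hy0) hTy
    · exfalso
      have htwo : ∀ v, T v b ∨ T v y0 := by
        refine hind (fun v => T v b ∨ T v y0) b (Or.inl (Trefl b)) ?_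
        intro x y hx hxy
        rcases hx with hx | hx
        · exact Or.inr (claimA x b y y0 hx (hGC _ _ hxy) hy0)
        · exact Or.inl (claimA x y0 y b hx (hGC _ _ hxy) hy0.symm)
      apply hbip
      refine ⟨SimpleGraph.Coloring.mk (fun v => if T v b then (0 : Fin 2) else 1) ?_⟩
      intro x y hxy
      by_cases hx : T x b
      · have hy : ¬ T y b := by
          intro hy
          have h1 := claimA x b y y0 hx (hGC _ _ hxy) hy0
          exact hTy (Ttrans _ _ _ (Tsymm _ _ h1) hy)
        simp [hx, hy]
      · have hx' := (htwo x).resolve_left hx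
        have hy : T y b := claimA x y0 y b hx' (hGC _ _ hxy) hy0.symm
        simp [hx, hy]
  ext u v
  rw [SimpleGraph.top_adj]
  refine ⟨fun h => h.ne, fun huv => ?_⟩
  obtain ⟨w, hw⟩ := hnb u
  exact F2 v w u (Ttrans _ _ _ (hall v) (Tsymm _ _ (hall w))) hw huv

end MP30c94c
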