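import Mathlib
import Pool.Agent.Lib.MP30c94c.Basic

/-! # Module SM: second moment method for the appearance of a fixed graph -/

open SimpleGraph Finset Filter

namespace MP30c94c

attribute [local instance] Classical.propDecidable

/-- Chebyshev's inequality -/
lemma sm_cheb {V : Type*} [Fintype V] {p : ℝ} (h0 : 0 ≤ p) (h1 : p ≤ 1)
    (X : SimpleGraph V → ℝ) (A : SimpleGraph V → Prop) (μ : ℝ) (hμ : 0 < μ) (hE : Ex p X = μ)
    (hA : ∀ G, A G → X G = 0) :
    Pr p A ≤ (Ex p (fun G => X G ^ 2) - μ ^ 2) / μ ^ 2 := by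
  have h : Ex p (fun G => (X G - μ) ^ 2) = Ex p (fun G => X G ^ 2) - μ ^ 2 := by
    have : (fun G => (X G - μ) ^ 2) = fun G => (X G ^ 2 + ((-2 * μ) * X G + μ ^ 2)) := by
      ext G; ring
    rw [this, Ex_add, Ex_add, Ex_smul, Ex_const, hE]
    ring
  rw [← h, le_div_iff₀ (by positivity), mul_comm, Pr, ← Ex_smul]
  refine Ex_mono h0 h1 fun G => ?_
  by_cases hG : A G
  · simp [hG, hA G hG]
  · simp only [hG, if_false, mul_zero]
    positivity

section
variable {W : Type*} [Fintype W]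

/-- edges of the copy `f` of `F` -/
noncomputable def smE {n : ℕ} (F : SimpleGraph W) (f : W ↪ Fin n) : Finset (Sym2 (Fin n)) :=
  F.edgeFinset.image (Sym2.map f)

lemma smE_card {n : ℕ} (F : SimpleGraph W) (f : W ↪ Fin n) :
    (smE F f).card = F.edgeFinset.card :=
  card_image_of_injective _ (Sym2.map.injective f.injective)

lemma smE_sub {n : ℕ} (F : SimpleGraph W) (f : W ↪ Fin n) : smE F f ⊆ allE (Fin n) := by
  intro e he
  simp only [smE, mem_image] at he
  obtain ⟨e0, h0, rfl⟩ := he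
  simp only [allE, mem_filter, mem_univ, true_and]
  rw [mem_edgeFinset] at h0
  induction e0 with
  | _ a b =>
    rw [mem_edgeSet] at h0
    rw [Sym2.map_mk]
    simp only [Sym2.mk_isDiag_iff]
    intro h
    exact h0.ne (f.injective h)

lemma sm_contains {n : ℕ} (F : SimpleGraph W) (G : SimpleGraph (Fin n)) (f : W ↪ Fin n)
    (hf : smE F f ⊆ G.edgeFinset) : Contains F G := by
  refine ⟨f, fun a b hab => ?_⟩
  have : s(f a, f b) ∈ smE F f := by
    simp only [smE, mem_image]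
    exact ⟨s(a, b), by simpa using hab, rfl⟩
  simpa using hf this

lemma sm_Ex (p : ℝ) (F : SimpleGraph W) (n : ℕ) :
    Ex p (fun G => ∑ f : W ↪ Fin n, if smE F f ⊆ G.edgeFinset then (1:ℝ) else 0) =
      (Fintype.card (W ↪ Fin n)) * p ^ F.edgeFinset.card := by
  rw [Ex_sum]
  have : ∀ f ∈ (univ : Finset (W ↪ Fin n)),
      Ex p (fun G => if smE F f ⊆ G.edgeFinset then (1:ℝ) else 0) = p ^ F.edgeFinset.card := by
    intro f _
    have := Pr_subset p (smE F f) (smE_sub F f)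
    rw [smE_card] at this
    unfold Pr at this
    convert this
  rw [sum_congr rfl this]
  simp

lemma sm_Ex2 (p : ℝ) (F : SimpleGraph W) (n : ℕ) :
    Ex p (fun G => (∑ f : W ↪ Fin n, if smE F f ⊆ G.edgeFinset then (1:ℝ) else 0) ^ 2) =
      ∑ f : W ↪ Fin n, ∑ g : W ↪ Fin n, p ^ (smE F f ∪ smE F g).card := by
  have : (fun G : SimpleGraph (Fin n) =>
      (∑ f : W ↪ Fin n, if smE F f ⊆ G.edgeFinset then (1:ℝ) else 0) ^ 2) =
      fun G => ∑ f : W ↪ Fin n, ∑ g : W ↪ Fin n,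
        if smE F f ∪ smE F g ⊆ G.edgeFinset then (1:ℝ) else 0 := by
    ext G
    rw [sq, Finset.sum_mul_sum]
    refine sum_congr rfl fun f _ => sum_congr rfl fun g _ => ?_
    by_cases h1 : smE F f ⊆ G.edgeFinset <;> by_cases h2 : smE F g ⊆ G.edgeFinset <;>
      simp [union_subset_iff, h1, h2]
  rw [this, Ex_sum]
  refine sum_congr rfl fun f _ => ?_
  rw [Ex_sum]
  refine sum_congr rfl fun g _ => ?_
  have h := Pr_subset p _ (union_subset (smE_sub F f) (smE_sub F g))
  unfold Pr at h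
  convert h

/-- vertices of the copy `f` lying in the copy `g` -/
noncomputable def smU {n : ℕ} (f g : W ↪ Fin n) : Finset W := univ.filter fun w => ∃ v, g v = f w

lemma sm_inter {n : ℕ} (F : SimpleGraph W) (f g : W ↪ Fin n) :
    (smE F f ∩ smE F g).card ≤ eIn F (smU f g) := by
  have h : smE F f ∩ smE F g ⊆
      (F.edgeFinset.filter fun e => ∀ v ∈ e, v ∈ smU f g).image (Sym2.map f) := by
    intro e he
    rw [mem_inter] at he
    obtain ⟨h1, h2⟩ := he
    simp only [smE, mem_image] at h1 h2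
    obtain ⟨e1, h11, rfl⟩ := h1
    obtain ⟨e2, h21, h22⟩ := h2
    rw [mem_image]
    refine ⟨e1, ?_, rfl⟩
    rw [mem_filter]
    refine ⟨h11, fun v hv => ?_⟩
    simp only [smU, mem_filter, mem_univ, true_and]
    have : f v ∈ Sym2.map f e1 := Sym2.mem_map.2 ⟨v, hv, rfl⟩
    rw [← h22, Sym2.mem_map] at this
    obtain ⟨w, _, hw⟩ := this
    exact ⟨w, hw⟩
  exact (card_le_card h).trans card_image_le

lemma eIn_le (F : SimpleGraph W) (U : Finset W) : eIn F U ≤ F.edgeFinset.card :=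
  card_le_card (filter_subset _ _)

lemma sm_pair {n : ℕ} {p : ℝ} (h0 : 0 ≤ p) (h1 : p ≤ 1) (F : SimpleGraph W) (f g : W ↪ Fin n) :
    p ^ (smE F f ∪ smE F g).card ≤ p ^ (2 * F.edgeFinset.card) +
      ∑ U ∈ (univ : Finset (Finset W)).filter (fun U => 1 ≤ eIn F U),
        (if ∀ w ∈ U, ∃ v, g v = f w then p ^ (2 * F.edgeFinset.card - eIn F U) else 0) := by
  have hc := card_union_add_card_inter (smE F f) (smE F g)
  rw [smE_card, smE_card] at hc
  have hi := sm_inter F f g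
  have hnn : ∀ U ∈ (univ : Finset (Finset W)).filter (fun U => 1 ≤ eIn F U),
      0 ≤ (if ∀ w ∈ U, ∃ v, g v = f w then p ^ (2 * F.edgeFinset.card - eIn F U) else 0) := by
    intro U _
    split_ifs <;> positivity
  by_cases hU : 1 ≤ eIn F (smU f g)
  · have hs := Finset.single_le_sum hnn (a := smU f g) (by simp [hU])
    rw [if_pos (by
      intro w hw
      simpa [smU] using hw)] at hs
    have : p ^ (smE F f ∪ smE F g).card ≤ p ^ (2 * F.edgeFinset.card - eIn F (smU f g)) :=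
      pow_le_pow_of_le_one h0 h1 (by omega)
    have h2 : (0:ℝ) ≤ p ^ (2 * F.edgeFinset.card) := by positivity
    linarith
  · have : (smE F f ∪ smE F g).card = 2 * F.edgeFinset.card := by omega
    rw [this]
    have := Finset.sum_nonneg hnn
    linarith

lemma sm_count1 {n : ℕ} (U : Finset W) (g : W ↪ Fin n) :
    ((univ : Finset (W ↪ Fin n)).filter fun f => ∀ w ∈ U, ∃ v, g v = f w).card ≤
      (Fintype.card W) ^ U.card * n ^ (Fintype.card W - U.card) := by
  have h1 : ((univ : Finset (W ↪ Fin n)).filter fun f => ∀ w ∈ U, ∃ v, g v = f w).card ≤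
      (Fintype.piFinset (fun w : W => if w ∈ U then univ.image g else
        (univ : Finset (Fin n)))).card := by
    refine card_le_card_of_injOn (fun f => (f : W → Fin n)) ?_ ?_
    · intro f hf
      simp only [coe_filter, mem_univ, true_and, Set.mem_ofPred_eq] at hf
      simp only [Fintype.coe_piFinset, Set.mem_pi, Set.mem_univ, forall_const]
      intro w
      by_cases hw : w ∈ U
      · rw [if_pos hw]
        obtain ⟨v, hv⟩ := hf w hw
        simp only [coe_image, coe_univ, Set.image_univ, Set.mem_range]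
        exact ⟨v, hv⟩
      · rw [if_neg hw]
        simp
    · intro f _ f' _ h
      exact DFunLike.coe_injective h
  refine h1.trans (le_of_eq ?_)
  rw [Fintype.card_piFinset]
  have h2 : ∀ w : W, (if w ∈ U then univ.image g else (univ : Finset (Fin n))).card =
      if w ∈ U then Fintype.card W else n := by
    intro w
    by_cases hw : w ∈ U
    · rw [if_pos hw, if_pos hw, card_image_of_injective _ g.injective, card_univ]
    · rw [if_neg hw, if_neg hw]
      simp
  rw [prod_congr rfl (fun w _ => h2 w), prod_ite, prod_const, prod_const]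
  congr 2
  · rw [Finset.filter_mem_eq_inter, univ_inter]
  · rw [Finset.filter_not, Finset.filter_mem_eq_inter, univ_inter, ← Finset.compl_eq_univ_sdiff,
      card_compl]

lemma sm_count {n : ℕ} (U : Finset W) :
    ∑ f : W ↪ Fin n, ∑ g : W ↪ Fin n, (if ∀ w ∈ U, ∃ v, g v = f w then (1:ℝ) else 0) ≤
      (n : ℝ) ^ Fintype.card W *
        ((Fintype.card W : ℝ) ^ U.card * (n : ℝ) ^ (Fintype.card W - U.card)) := by
  rw [Finset.sum_comm]
  have h : ∀ g ∈ (univ : Finset (W ↪ Fin n)),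
      ∑ f : W ↪ Fin n, (if ∀ w ∈ U, ∃ v, g v = f w then (1:ℝ) else 0) ≤
      ((Fintype.card W : ℝ) ^ U.card * (n : ℝ) ^ (Fintype.card W - U.card)) := by
    intro g _
    rw [Finset.sum_boole]
    exact_mod_cast sm_count1 U g
  refine (Finset.sum_le_sum h).trans ?_
  rw [Finset.sum_const, nsmul_eq_mul, card_univ, Fintype.card_embedding_eq, Fintype.card_fin]
  refine mul_le_mul_of_nonneg_right ?_ (by positivity)
  exact_mod_cast Nat.descFactorial_le_pow n _

lemma sm_var {n : ℕ} {p : ℝ} (h0 : 0 ≤ p) (h1 : p ≤ 1) (F : SimpleGraph W) :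
    (∑ f : W ↪ Fin n, ∑ g : W ↪ Fin n, p ^ (smE F f ∪ smE F g).card) -
      ((Fintype.card (W ↪ Fin n)) * p ^ F.edgeFinset.card) ^ 2 ≤
    ∑ U ∈ (univ : Finset (Finset W)).filter (fun U => 1 ≤ eIn F U),
      p ^ (2 * F.edgeFinset.card - eIn F U) * ((n : ℝ) ^ Fintype.card W *
        ((Fintype.card W : ℝ) ^ U.card * (n : ℝ) ^ (Fintype.card W - U.card))) := by
  have h : ∑ f : W ↪ Fin n, ∑ g : W ↪ Fin n, p ^ (smE F f ∪ smE F g).card ≤
      ∑ f : W ↪ Fin n, ∑ g : W ↪ Fin n, (p ^ (2 * F.edgeFinset.card) +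
      ∑ U ∈ (univ : Finset (Finset W)).filter (fun U => 1 ≤ eIn F U),
        (if ∀ w ∈ U, ∃ v, g v = f w then p ^ (2 * F.edgeFinset.card - eIn F U) else 0)) :=
    Finset.sum_le_sum fun f _ => Finset.sum_le_sum fun g _ => sm_pair h0 h1 F f g
  have h2 : ∑ f : W ↪ Fin n, ∑ g : W ↪ Fin n, (p ^ (2 * F.edgeFinset.card) +
      ∑ U ∈ (univ : Finset (Finset W)).filter (fun U => 1 ≤ eIn F U),
        (if ∀ w ∈ U, ∃ v, g v = f w then p ^ (2 * F.edgeFinset.card - eIn F U) else 0)) =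
      ((Fintype.card (W ↪ Fin n)) * p ^ F.edgeFinset.card) ^ 2 +
      ∑ U ∈ (univ : Finset (Finset W)).filter (fun U => 1 ≤ eIn F U),
        p ^ (2 * F.edgeFinset.card - eIn F U) *
        ∑ f : W ↪ Fin n, ∑ g : W ↪ Fin n, (if ∀ w ∈ U, ∃ v, g v = f w then (1:ℝ) else 0) := by
    simp_rw [Finset.sum_add_distrib]
    congr 1
    · simp only [sum_const, card_univ, nsmul_eq_mul]
      ring
    · simp_rw [Finset.mul_sum]
      rw [Finset.sum_congr rfl (fun f _ => Finset.sum_comm), Finset.sum_comm]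
      refine sum_congr rfl fun U _ => sum_congr rfl fun f _ => sum_congr rfl fun g _ => ?_
      split_ifs <;> simp
  rw [h2] at h
  have h3 : ∑ U ∈ (univ : Finset (Finset W)).filter (fun U => 1 ≤ eIn F U),
        p ^ (2 * F.edgeFinset.card - eIn F U) *
        ∑ f : W ↪ Fin n, ∑ g : W ↪ Fin n, (if ∀ w ∈ U, ∃ v, g v = f w then (1:ℝ) else 0) ≤
      ∑ U ∈ (univ : Finset (Finset W)).filter (fun U => 1 ≤ eIn F U),
      p ^ (2 * F.edgeFinset.card - eIn F U) * ((n : ℝ) ^ Fintype.card W *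
        ((Fintype.card W : ℝ) ^ U.card * (n : ℝ) ^ (Fintype.card W - U.card))) :=
    Finset.sum_le_sum fun U _ => mul_le_mul_of_nonneg_left (sm_count U) (by positivity)
  linarith

end

/-- If every vertex subset `U` of `F` satisfies `x * e(F[U]) ≤ |U|`, then `G(n, C n^{-x})`
contains a copy of `F` with probability at least `1 - δ` for a suitable constant `C`. -/
theorem second_moment {W : Type*} [Fintype W] (F : SimpleGraph W) (x : ℝ) (hx : 0 < x)
    (hF : ∀ U : Finset W, x * eIn F U ≤ U.card) (δ : ℝ) (hδ : 0 < δ) :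
    ∃ C₀ : ℝ, 1 ≤ C₀ ∧ ∀ C, C₀ ≤ C → ∀ᶠ n : ℕ in atTop, ∀ p : ℝ, p = C * (n : ℝ) ^ (-x) → p ≤ 1 →
      Pr (V := Fin n) p (fun G => ¬ Contains F G) ≤ δ := by
  set m := Fintype.card W with hm
  set K : ℝ := (8 * (m : ℝ)) ^ m with hK
  have hK0 : 0 ≤ K := by positivity
  refine ⟨max 1 (K / δ), le_max_left _ _, fun C hC => ?_⟩
  have hC1 : 1 ≤ C := (le_max_left _ _).trans hC
  have hC2 : K / δ ≤ C := (le_max_right _ _).trans hC
  filter_upwards [eventually_ge_atTop (2 * m + 1)] with n hn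
  intro p hp hp1
  have hn0 : (0:ℝ) < n := by
    have : 0 < n := by omega
    exact_mod_cast this
  have hn1 : (1:ℝ) ≤ n := by
    have : 1 ≤ n := by omega
    exact_mod_cast this
  have hp0 : 0 < p := by
    rw [hp]
    have := Real.rpow_pos_of_pos hn0 (-x)
    positivity
  set e := F.edgeFinset.card with he
  -- number of embeddings
  have hN : ((n : ℝ) / 2) ^ m ≤ (Fintype.card (W ↪ Fin n) : ℝ) := by
    rw [Fintype.card_embedding_eq, Fintype.card_fin, ← hm]
    have h1 : (n + 1 - m) ^ m ≤ n.descFactorial m := Nat.pow_sub_le_descFactorial n m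
    have h2 : ((n : ℝ) / 2) ≤ ((n + 1 - m : ℕ) : ℝ) := by
      rw [Nat.cast_sub (by omega)]
      have : (2 * m + 1 : ℝ) ≤ n := by exact_mod_cast hn
      push_cast
      linarith
    calc ((n : ℝ) / 2) ^ m ≤ ((n + 1 - m : ℕ) : ℝ) ^ m := pow_le_pow_left₀ (by positivity) h2 m
      _ ≤ _ := by exact_mod_cast h1
  have hNpos : (0:ℝ) < Fintype.card (W ↪ Fin n) := lt_of_lt_of_le (by positivity) hN
  set μ : ℝ := (Fintype.card (W ↪ Fin n)) * p ^ e with hμ
  have hμ0 : 0 < μ := by positivity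
  have hμl : ((n : ℝ) / 2) ^ m * p ^ e ≤ μ := mul_le_mul_of_nonneg_right hN (by positivity)
  have hch := sm_cheb hp0.le hp1
    (fun G => ∑ f : W ↪ Fin n, if smE F f ⊆ G.edgeFinset then (1:ℝ) else 0)
    (fun G => ¬ Contains F G) μ hμ0 (sm_Ex p F n) (by
      intro G hG
      refine Finset.sum_eq_zero fun f _ => ?_
      rw [if_neg]
      intro h
      exact hG (sm_contains F G f h))
  rw [sm_Ex2] at hch
  have hv := sm_var (n := n) hp0.le hp1 F
  rw [← he, ← hμ, ← hm] at hv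
  refine hch.trans ?_
  rw [div_le_iff₀ (by positivity)]
  refine hv.trans ?_
  -- each term
  have hterm : ∀ U ∈ (univ : Finset (Finset W)).filter (fun U => 1 ≤ eIn F U),
      p ^ (2 * e - eIn F U) * ((n : ℝ) ^ m * ((m : ℝ) ^ U.card * (n : ℝ) ^ (m - U.card))) ≤
      (4 ^ m * (m : ℝ) ^ m * C⁻¹) * μ ^ 2 := by
    intro U hU
    rw [mem_filter] at hU
    have hU1 := hU.2
    have hUc : U.card ≤ m := Finset.card_le_univ U
    have hUe : eIn F U ≤ e := eIn_le F U
    have hm1 : 1 ≤ m := by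
      rcases Nat.eq_zero_or_pos m with h | h
      · exfalso
        have hWe : IsEmpty W := Fintype.card_eq_zero_iff.1 (hm ▸ h)
        have : F.edgeFinset = ∅ := by
          ext z
          induction z with
          | _ a b => exact (hWe.false a).elim
        have : e = 0 := by rw [he, this]; rfl
        omega
      · exact h
    have hm1' : (1:ℝ) ≤ m := by exact_mod_cast hm1
    -- key: n^{-|U|} p^{-e_U} ≤ C⁻¹
    have hkey : C * 1 ≤ (n : ℝ) ^ U.card * p ^ (eIn F U) := by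
      have h1 : (n : ℝ) ^ U.card * p ^ (eIn F U) =
          C ^ (eIn F U) * (n : ℝ) ^ ((U.card : ℝ) - x * eIn F U) := by
        rw [hp, mul_pow, ← Real.rpow_natCast ((n : ℝ) ^ (-x)) (eIn F U), ← Real.rpow_mul hn0.le,
          Real.rpow_sub hn0, ← Real.rpow_natCast (n : ℝ) U.card, neg_mul, Real.rpow_neg hn0.le]
        field_simp
      rw [h1]
      have h2 : C ≤ C ^ (eIn F U) := le_self_pow₀ hC1 (by omega)
      have h3 : (1:ℝ) ≤ (n : ℝ) ^ ((U.card : ℝ) - x * eIn F U) :=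
        Real.one_le_rpow hn1 (by linarith [hF U])
      exact mul_le_mul h2 h3 (by norm_num) (by positivity)
    have hμ2 : (((n : ℝ) / 2) ^ m * p ^ e) ^ 2 ≤ μ ^ 2 :=
      pow_le_pow_left₀ (by positivity) hμl 2
    have hC0 : 0 < C := by linarith
    have hmm : (m : ℝ) ^ U.card ≤ (m : ℝ) ^ m := pow_le_pow_right₀ hm1' hUc
    have hq : p ^ (2 * e - eIn F U) * ((n : ℝ) ^ m * ((m : ℝ) ^ U.card * (n : ℝ) ^ (m - U.card))) *
        C ≤ (m : ℝ) ^ m * ((n : ℝ) ^ m * p ^ e) ^ 2 := by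
      have e1 : p ^ (2 * e) = p ^ (2 * e - eIn F U) * p ^ (eIn F U) := by
        rw [← pow_add]
        congr 1
        omega
      have e2 : (n : ℝ) ^ m = (n : ℝ) ^ (m - U.card) * (n : ℝ) ^ U.card := by
        rw [← pow_add]
        congr 1
        omega
      have e3 : ((n : ℝ) ^ m * p ^ e) ^ 2 =
          (p ^ (2 * e - eIn F U) * ((n : ℝ) ^ m * (n : ℝ) ^ (m - U.card))) *
            ((n : ℝ) ^ U.card * p ^ (eIn F U)) := by
        calc ((n : ℝ) ^ m * p ^ e) ^ 2 = (n : ℝ) ^ m * (n : ℝ) ^ m * p ^ (2 * e) := by ring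
          _ = (n : ℝ) ^ m * ((n : ℝ) ^ (m - U.card) * (n : ℝ) ^ U.card) *
              (p ^ (2 * e - eIn F U) * p ^ (eIn F U)) := by rw [e1, ← e2]
          _ = _ := by ring
      rw [e3]
      have h5 : (m : ℝ) ^ U.card * C ≤ (m : ℝ) ^ m * ((n : ℝ) ^ U.card * p ^ (eIn F U)) :=
        mul_le_mul hmm (by linarith) hC0.le (by positivity)
      have h6 : 0 ≤ p ^ (2 * e - eIn F U) * ((n : ℝ) ^ m * (n : ℝ) ^ (m - U.card)) := by
        positivity
      calc p ^ (2 * e - eIn F U) * ((n : ℝ) ^ m * ((m : ℝ) ^ U.card * (n : ℝ) ^ (m - U.card))) * C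
          = (p ^ (2 * e - eIn F U) * ((n : ℝ) ^ m * (n : ℝ) ^ (m - U.card))) *
            ((m : ℝ) ^ U.card * C) := by ring
        _ ≤ (p ^ (2 * e - eIn F U) * ((n : ℝ) ^ m * (n : ℝ) ^ (m - U.card))) *
            ((m : ℝ) ^ m * ((n : ℝ) ^ U.card * p ^ (eIn F U))) :=
          mul_le_mul_of_nonneg_left h5 h6
        _ = _ := by ring
    have h7 : ((n : ℝ) ^ m * p ^ e) ^ 2 = 4 ^ m * (((n : ℝ) / 2) ^ m * p ^ e) ^ 2 := by
      rw [div_pow]
      have : (4:ℝ) ^ m = 2 ^ m * 2 ^ m := by rw [← mul_pow]; norm_num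
      rw [this]
      field_simp
    rw [h7] at hq
    have h8 : p ^ (2 * e - eIn F U) * ((n : ℝ) ^ m * ((m : ℝ) ^ U.card * (n : ℝ) ^ (m - U.card))) ≤
        (m : ℝ) ^ m * (4 ^ m * (((n : ℝ) / 2) ^ m * p ^ e) ^ 2) * C⁻¹ := by
      rw [← div_eq_mul_inv, le_div_iff₀ hC0]
      exact hq
    refine h8.trans ?_
    have h9 : (m : ℝ) ^ m * (4 ^ m * (((n : ℝ) / 2) ^ m * p ^ e) ^ 2) * C⁻¹ ≤
        (m : ℝ) ^ m * (4 ^ m * μ ^ 2) * C⁻¹ := by
      gcongr
    refine h9.trans (le_of_eq ?_)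
    ring
  refine (Finset.sum_le_sum hterm).trans ?_
  rw [Finset.sum_const, nsmul_eq_mul]
  have hcard : ((((univ : Finset (Finset W)).filter (fun U => 1 ≤ eIn F U)).card : ℕ) : ℝ) ≤
      2 ^ m := by
    have : ((univ : Finset (Finset W)).filter (fun U => 1 ≤ eIn F U)).card ≤ 2 ^ m := by
      refine (card_le_card (filter_subset _ _)).trans ?_
      rw [card_univ, Fintype.card_finset]
    exact_mod_cast this
  have hC0 : 0 < C := by linarith
  have hfin : 2 ^ m * (4 ^ m * (m : ℝ) ^ m * C⁻¹) ≤ δ := by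
    have : (2:ℝ) ^ m * (4 ^ m * (m : ℝ) ^ m * C⁻¹) = K / C := by
      rw [hK, mul_pow]
      have : (8:ℝ) ^ m = 2 ^ m * 4 ^ m := by rw [← mul_pow]; norm_num
      rw [this]
      ring
    rw [this, div_le_iff₀ hC0]
    rw [div_le_iff₀ hδ] at hC2
    linarith
  calc ((((univ : Finset (Finset W)).filter (fun U => 1 ≤ eIn F U)).card : ℕ) : ℝ) *
      ((4 ^ m * (m : ℝ) ^ m * C⁻¹) * μ ^ 2) ≤ 2 ^ m * ((4 ^ m * (m : ℝ) ^ m * C⁻¹) * μ ^ 2) :=
        mul_le_mul_of_nonneg_right hcard (by positivity)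
    _ = (2 ^ m * (4 ^ m * (m : ℝ) ^ m * C⁻¹)) * μ ^ 2 := by ring
    _ ≤ δ * μ ^ 2 := mul_le_mul_of_nonneg_right hfin (by positivity)

end MP30c94c
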