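import Mathlib
import Pool.Agent.Lib.MP30c94c.FM
import Pool.Agent.Lib.MP30c94c.LBFinal
import Pool.Agent.Lib.MP30c94c.SM
import Pool.Agent.Lib.MP30c94c.CN
import Pool.Agent.Lib.MP30c94c.SD

/-!
# Assembly: order of magnitude of the critical probability
-/

open SimpleGraph Finset Filter MeasureTheory

namespace MP30c94c

attribute [local instance] Classical.propDecidable

set_option linter.unusedSectionVars false

theorem threshold_of_data (P : Pot) (hX : 0 < P.X) (hXN : P.X < P.N)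
    (m : ℕ) (F : SimpleGraph (Fin m))
    (hF : ∀ U : Finset (Fin m), ((P.X : ℝ) / P.N) * eIn F U ≤ U.card)
    (hseed : ∀ (V : Type) [Fintype V] (G : SimpleGraph V), Contains F G →
        (∀ v, P.k + 2 ≤ (univ.filter fun w => G.Adj v w).card) →
        ∃ B : Finset V, P.k + 2 ≤ B.card ∧ ∀ u ∈ B, ∀ w ∈ B, u ≠ w →
          P.k ≤ (univ.filter fun z => (closure (K2 (P.k + 1)) G).Adj u z ∧
            (closure (K2 (P.k + 1)) G).Adj w z).card) :
    ∃ c C : ℝ, 0 < c ∧ 0 < C ∧ ∀ᶠ n : ℕ in atTop,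
      c * (n : ℝ) ^ (-((P.X : ℝ) / P.N)) ≤ pc n (K2 (P.k + 1)) ∧
      pc n (K2 (P.k + 1)) ≤ C * (n : ℝ) ^ (-((P.X : ℝ) / P.N)) := by
  have hNr : (0:ℝ) < P.N := by exact_mod_cast P.Npos
  have hXr : (0:ℝ) < P.X := by exact_mod_cast hX
  set x : ℝ := (P.X : ℝ) / P.N with hx
  have hx0 : 0 < x := div_pos hXr hNr
  have hx1 : x < 1 := by
    rw [hx, div_lt_one hNr]
    exact_mod_cast hXN
  obtain ⟨L', hL'⟩ := dense_of_percolates P
  obtain ⟨c, hc, hc1, hfm⟩ := first_moment P.N P.X P.Npos hX L'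
  obtain ⟨C, hC1, hsm⟩ := second_moment F x hx0 hF (1 / 4) (by norm_num)
  have hC : 0 < C := lt_of_lt_of_le one_pos hC1
  have hsm' := hsm C le_rfl
  have hcn := good_whp x hx0 hx1 (P.k + 2) C hC (1 / 4) (by norm_num)
  have htend : Tendsto (fun n : ℕ => C * (n : ℝ) ^ (-x)) atTop (nhds 0) := by
    have h1 : Tendsto (fun n : ℕ => (n : ℝ) ^ (-x)) atTop (nhds 0) :=
      (tendsto_rpow_neg_atTop hx0).comp tendsto_natCast_atTop_atTop
    simpa using h1.const_mul C
  have hle1 : ∀ᶠ n : ℕ in atTop, C * (n : ℝ) ^ (-x) ≤ 1 :=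
    (htend.eventually (gt_mem_nhds one_pos)).mono fun n hn => hn.le
  refine ⟨c, C, hc, hC, ?_⟩
  filter_upwards [hsm', hcn, hle1, eventually_ge_atTop L', eventually_ge_atTop 1]
    with n h1 h2 h3 h4 h5
  have hn0 : (0:ℝ) < n := by exact_mod_cast h5
  have hppos : 0 < C * (n : ℝ) ^ (-x) := by positivity
  -- the upper bound: `p = C n^{-x}` belongs to the set
  have hmem : C * (n : ℝ) ^ (-x) ∈ {p : ℝ | 0 < p ∧ ∃ hp : p ∈ Set.Icc (0 : ℝ) 1,
      1 / 2 ≤ (binomialRandom (Fin n) ⟨p, hp⟩).real {G | Percolates (K2 (P.k + 1)) G}} := by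
    refine ⟨hppos, ⟨hppos.le, h3⟩, ?_⟩
    rw [real_binomialRandom]
    have e1 := h1 _ rfl h3
    have e2 := h2 _ rfl h3
    have e3 : Pr (V := Fin n) (C * (n : ℝ) ^ (-x)) (fun G => ¬ Percolates (K2 (P.k + 1)) G) ≤
        1 / 4 + 1 / 4 := by
      refine le_trans ?_ (add_le_add e1 e2)
      refine le_trans (Pr_mono hppos.le h3 ?_) (Pr_or_le hppos.le h3 _ _)
      intro G hG
      by_contra hcon
      rw [not_or, not_not, not_not] at hcon
      obtain ⟨hcon1, hconn, hcol, hdeg⟩ := hcon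
      obtain ⟨B, hB, hBB⟩ := hseed (Fin n) G hcon1 hdeg
      exact hG (percolates_of_class P.k P.kpos G hconn hcol hdeg B hB hBB)
    rw [Pr_not] at e3
    change 1 / 2 ≤ Pr (V := Fin n) (C * (n : ℝ) ^ (-x)) (fun G => Percolates (K2 (P.k + 1)) G)
    linarith
  constructor
  · refine le_csInf ⟨_, hmem⟩ ?_
    rintro p ⟨hp0, hp, hprob⟩
    by_contra hcon
    rw [not_le] at hcon
    rw [real_binomialRandom] at hprob
    have e1 := hfm n h5 p hp0.le hcon.le
    have e2 : Pr (V := Fin n) p (fun G => Percolates (K2 (P.k + 1)) G) ≤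
        Pr (V := Fin n) p (fun G => ∃ S : Finset (Fin n), S.Nonempty ∧ S.card ≤ L' ∧
          P.N * (S.card : ℤ) ≤ P.X * (eIn G S : ℤ)) := by
      refine Pr_mono hp0.le hp.2 fun G hG => ?_
      exact hL' (Fin n) G (by rw [Fintype.card_fin]; exact h4) hG
    change 1 / 2 ≤ Pr (V := Fin n) p (fun G => Percolates (K2 (P.k + 1)) G) at hprob
    linarith
  · exact csInf_le ⟨0, fun p hp => hp.1.le⟩ hmem

end MP30c94c
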