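import Mathlib
import Pool.Agent.Lib.MP30c94c.LBMain

/-!
# Common definitions for `K_{s,t}`, `s ≥ 3` (MP_30c94c_pr)
-/

open SimpleGraph Finset

namespace MP30c94c

attribute [local instance] Classical.propDecidable

/-- the graph `K_{s,t}` -/
abbrev Kst (s t : ℕ) : SimpleGraph (Fin s ⊕ Fin t) := completeBipartiteGraph (Fin s) (Fin t)

/-- number of edges of the rooted graph `F` inside `U ∪ {roots}` -/
noncomputable def eR {W : Type} [Fintype W] (F : SimpleGraph (W ⊕ Fin 2)) (U : Finset W) : ℕ :=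
  eIn F (U.map ⟨Sum.inl, Sum.inl_injective⟩ ∪ {Sum.inr 0, Sum.inr 1})

/-- `G` contains a copy of the rooted graph `F` with roots at `a`, `b` -/
def RootedIn {W V : Type} (F : SimpleGraph (W ⊕ Fin 2)) (G : SimpleGraph V) (a b : V) : Prop :=
  ∃ f : (W ⊕ Fin 2) ↪ V, f (Sum.inr 0) = a ∧ f (Sum.inr 1) = b ∧
    ∀ x y, F.Adj x y → G.Adj (f x) (f y)

/-- Rooted graphs of size `O(L)` which create the pair of their roots in the `H`-process and
appear at `p = n^{-b/a} (log n)^C` with probability at least `1/2` for `L = ⌈log n⌉`. -/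
def HasGadgets {W₀ : Type} (H : SimpleGraph W₀) (a b : ℕ) : Prop :=
  ∃ M B : ℕ, ∀ L : ℕ, 1 ≤ L → ∃ (W : Type) (_ : Fintype W) (F : SimpleGraph (W ⊕ Fin 2)),
    Fintype.card W ≤ M * L ∧ ¬ F.Adj (Sum.inr 0) (Sum.inr 1) ∧
    (∀ U : Finset W, b * eR F U ≤ a * U.card ∨
      (b * eR F U ≤ a * U.card + B ∧ L ≤ eR F U + B)) ∧
    ∀ (V : Type) [Fintype V] (G : SimpleGraph V) (u v : V), u ≠ v → RootedIn F G u v →
      InClosure H G s(u, v)

/-- The hull property: every pair `uv` of the final graph is created inside a vertex set `S` with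
`a |S| - b e(S) ≤ D`, provided that `G` has no nonempty `S` with `a |S| - b e(S) ≤ 0`. -/
def HullProp {W₀ : Type} (H : SimpleGraph W₀) (a b D : ℕ) : Prop :=
  ∀ (V : Type) [Fintype V] (G : SimpleGraph V),
    (∀ S : Finset V, S.Nonempty → b * eIn G S < a * S.card) →
    ∀ u v : V, u ≠ v → InClosure H G s(u, v) →
      ∃ S : Finset V, u ∈ S ∧ v ∈ S ∧ InClosure H (restr G S) s(u, v) ∧
        a * S.card ≤ b * eIn G S + D

end MP30c94c
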