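import Mathlib
import Pool.Agent.Lib.MP30c94c.KDefs

/-!
# `K_{s,t}` and `K_{t,s}`
-/

open SimpleGraph Finset

namespace MP30c94c

private lemma map_trans_equiv {W W' V : Type*} (H : SimpleGraph W) (H' : SimpleGraph W')
    (φ : H ≃g H') (f : W' ↪ V) : H.map (φ.toEquiv.toEmbedding.trans f) = H'.map f := by
  ext u v
  simp only [SimpleGraph.map_adj]
  constructor
  · rintro ⟨a, b, hab, rfl, rfl⟩
    exact ⟨φ a, φ b, φ.map_adj_iff.2 hab, rfl, rfl⟩
  · rintro ⟨a, b, hab, rfl, rfl⟩
    refine ⟨φ.symm a, φ.symm b, φ.symm.map_adj_iff.2 hab, ?_, ?_⟩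
    · change f (φ (φ.symm a)) = f a
      rw [φ.apply_symm_apply]
    · change f (φ (φ.symm b)) = f b
      rw [φ.apply_symm_apply]

private lemma inClosure_iso {W W' V : Type*} (H : SimpleGraph W) (H' : SimpleGraph W')
    (φ : H ≃g H') (G : SimpleGraph V) (e : Sym2 V) (h : InClosure H' G e) : InClosure H G e := by
  induction h with
  | base he => exact InClosure.base he
  | step f he _ ih =>
    refine InClosure.step (φ.toEquiv.toEmbedding.trans f) ?_ ?_
    · rw [map_trans_equiv]
      exact he
    · intro e' he' hne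
      rw [map_trans_equiv] at he'
      exact ih e' he' hne

private lemma pc_iso {W W' : Type*} (H : SimpleGraph W) (H' : SimpleGraph W') (φ : H ≃g H')
    (n : ℕ) : pc n H = pc n H' := by
  have h1 : ∀ G : SimpleGraph (Fin n), closure H G = closure H' G := by
    intro G
    ext u v
    constructor
    · rintro ⟨h, h'⟩
      exact ⟨h, inClosure_iso H' H φ.symm G _ h'⟩
    · rintro ⟨h, h'⟩
      exact ⟨h, inClosure_iso H H' φ G _ h'⟩
  have h2 : ∀ G : SimpleGraph (Fin n), Percolates H G ↔ Percolates H' G := by
    intro G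
    unfold Percolates
    rw [h1]
  unfold pc
  simp only [h2]

/-- the critical probability does not depend on the order of the two parts -/
theorem pc_comm (s t n : ℕ) : pc n (Kst s t) = pc n (Kst t s) := by
  refine pc_iso _ _ ⟨Equiv.sumComm _ _, ?_⟩ n
  intro a b
  rcases a with a | a <;> rcases b with b | b <;> simp [completeBipartiteGraph]

end MP30c94c
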