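import Mathlib
import Pool.Agent.Lib.MP30c94c.KDefs

/-!
# Lower bounds for the critical probability: general facts
-/

open SimpleGraph Finset Filter

namespace MP30c94c

attribute [local instance] Classical.propDecidable

/-- `1` belongs to the set defining `pc` -/
theorem ka_one_mem (n : ℕ) {W₀ : Type} (H : SimpleGraph W₀) :
    (1 : ℝ) ∈ {p : ℝ | 0 < p ∧ ∃ hp : p ∈ Set.Icc (0 : ℝ) 1,
      1 / 2 ≤ (binomialRandom (Fin n) ⟨p, hp⟩).real {G | Percolates H G}} := by
  refine ⟨one_pos, ⟨zero_le_one, le_rfl⟩, ?_⟩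
  rw [real_binomialRandom]
  have h1 := Pr_subset (V := Fin n) 1 (allE (Fin n)) subset_rfl
  rw [one_pow] at h1
  have h2 : Pr (V := Fin n) 1 (fun G => allE (Fin n) ⊆ G.edgeFinset) ≤
      Pr (V := Fin n) 1 (fun G => Percolates H G) := by
    refine Pr_mono zero_le_one le_rfl fun G hG => ?_
    unfold Percolates
    rw [eq_top_iff]
    intro u v huv
    have huv' : u ≠ v := huv
    refine ⟨huv', .base ?_⟩
    have h3 : s(u, v) ∈ allE (Fin n) := by
      simp only [allE, mem_filter, mem_univ, true_and, Sym2.mk_isDiag_iff]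
      exact huv'
    have h4 := hG h3
    rwa [mem_edgeFinset] at h4
  rw [h1] at h2
  exact le_trans (by norm_num) h2

/-- lower bound for `pc` -/
theorem ka_lower (n : ℕ) {W₀ : Type} (H : SimpleGraph W₀) (q : ℝ)
    (h : ∀ p : ℝ, 0 < p → p < q → p ≤ 1 → Pr (V := Fin n) p (fun G => Percolates H G) < 1 / 2) :
    q ≤ pc n H := by
  refine le_csInf ⟨_, ka_one_mem n H⟩ ?_
  rintro p ⟨hp0, hp, hprob⟩
  by_contra hcon
  rw [not_le] at hcon
  rw [real_binomialRandom] at hprob
  have := h p hp0 hcon hp.2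
  change 1 / 2 ≤ Pr (V := Fin n) p (fun G => Percolates H G) at hprob
  linarith

end MP30c94c
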