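import Mathlib
import Pool.Agent.Lib.MP30c94c.KAPre

/-!
# `K_{2,t}`: isolated vertices
-/

open SimpleGraph Finset Filter

namespace MP30c94c

attribute [local instance] Classical.propDecidable

/-- isolated vertices stay isolated -/
private theorem isolated_stays {W₀ V : Type} (H : SimpleGraph W₀)
    (hH : ∀ x y, H.Adj x y → ∃ y', y' ≠ y ∧ H.Adj x y') (G : SimpleGraph V) (v : V)
    (hv : ∀ w, ¬ G.Adj v w) {e : Sym2 V} (h : InClosure H G e) : v ∉ e := by
  induction h with
  | @base e he =>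
    intro hve
    induction e using Sym2.ind with
    | _ a b =>
      rw [mem_edgeSet] at he
      rcases Sym2.mem_iff.1 hve with rfl | rfl
      · exact hv _ he
      · exact hv _ he.symm
  | @step e f he h ih =>
    intro hve
    obtain ⟨x, y, hxy, hx, rfl⟩ : ∃ x y, H.Adj x y ∧ v = f x ∧ e = s(f x, f y) := by
      induction e using Sym2.ind with
      | _ a b =>
        rw [mem_edgeSet, map_adj] at he
        obtain ⟨x, y, hxy, rfl, rfl⟩ := he
        rcases Sym2.mem_iff.1 hve with h1 | h1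
        · exact ⟨x, y, hxy, h1, rfl⟩
        · exact ⟨y, x, hxy.symm, h1, Sym2.eq_swap⟩
    obtain ⟨y', hne, hadj⟩ := hH x y hxy
    refine ih s(f x, f y') ?_ ?_ ?_
    · rw [mem_edgeSet, map_adj]
      exact ⟨x, y', hadj, rfl, rfl⟩
    · intro heq
      rw [Sym2.eq_iff] at heq
      rcases heq with ⟨-, h2⟩ | ⟨h1, h2⟩
      · exact hne (f.injective h2)
      · have := f.injective h1
        exact hxy.ne this
    · rw [hx]
      exact Sym2.mem_mk_left _ _

private theorem kst_deg (t : ℕ) (ht : 2 ≤ t) (x y : Fin 2 ⊕ Fin t) (h : (Kst 2 t).Adj x y) :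
    ∃ y', y' ≠ y ∧ (Kst 2 t).Adj x y' := by
  have h2 : Nontrivial (Fin t) := Fin.nontrivial_iff_two_le.2 ht
  rcases x with i | j <;> rcases y with i' | j'
  · simp [Kst] at h
  · obtain ⟨j'', hj⟩ := exists_ne j'
    exact ⟨Sum.inr j'', by simpa using hj, by simp [Kst]⟩
  · obtain ⟨i'', hi⟩ := exists_ne i'
    exact ⟨Sum.inl i'', by simpa using hi, by simp [Kst]⟩
  · simp [Kst] at h

theorem isolated_lower (t : ℕ) (ht : 2 ≤ t) :
    ∃ C : ℝ, 0 < C ∧ ∀ᶠ n : ℕ in atTop,
      (n : ℝ) ^ (-(1 : ℝ)) * (Real.log n) ^ (-C) ≤ pc n (Kst 2 t) := by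
  refine ⟨1, one_pos, ?_⟩
  have hlog : ∀ᶠ n : ℕ in atTop, 2 < Real.log n :=
    (Real.tendsto_log_atTop.comp tendsto_natCast_atTop_atTop).eventually_gt_atTop 2
  filter_upwards [hlog, eventually_ge_atTop 2] with n hl hn
  have hn0 : (0 : ℝ) < n := by exact_mod_cast (by omega : 0 < n)
  refine ka_lower n _ _ fun p hp0 hpq hp1 => ?_
  set v0 : Fin n := ⟨0, by omega⟩ with hv0
  set v1 : Fin n := ⟨1, by omega⟩ with hv1
  have h01 : v0 ≠ v1 := by
    intro h
    have := congrArg Fin.val h
    simp [hv0, hv1] at this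
  have h1 : Pr (V := Fin n) p (fun G => Percolates (Kst 2 t) G) ≤
      Pr (V := Fin n) p (fun G => ∃ w ∈ (univ : Finset (Fin n)).erase v0,
        ({s(v0, w)} : Finset (Sym2 (Fin n))) ⊆ G.edgeFinset) := by
    refine Pr_mono hp0.le hp1 fun G hG => ?_
    by_contra hcon
    push Not at hcon
    have hiso : ∀ w, ¬ G.Adj v0 w := by
      intro w hw
      refine hcon w (mem_erase.2 ⟨hw.ne', mem_univ _⟩) ?_
      intro e he
      rw [mem_singleton] at he
      rw [he, mem_edgeFinset, mem_edgeSet]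
      exact hw
    have h2 : (closure (Kst 2 t) G).Adj v0 v1 := by
      unfold Percolates at hG
      rw [hG]
      exact h01
    exact isolated_stays _ (kst_deg t ht) G v0 hiso h2.2 (Sym2.mem_mk_left _ _)
  have h2 : ∑ w ∈ (univ : Finset (Fin n)).erase v0,
      Pr (V := Fin n) p (fun G => ({s(v0, w)} : Finset (Sym2 (Fin n))) ⊆ G.edgeFinset) ≤ n * p := by
    have h3 : ∀ w ∈ (univ : Finset (Fin n)).erase v0,
        Pr (V := Fin n) p (fun G => ({s(v0, w)} : Finset (Sym2 (Fin n))) ⊆ G.edgeFinset) = p := by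
      intro w hw
      rw [Pr_subset, card_singleton, pow_one]
      intro e he
      rw [mem_singleton] at he
      rw [he]
      simp only [allE, mem_filter, mem_univ, true_and, Sym2.mk_isDiag_iff]
      exact (mem_erase.1 hw).1.symm
    rw [Finset.sum_congr rfl h3, sum_const, nsmul_eq_mul, card_erase_of_mem (mem_univ _), card_univ,
      Fintype.card_fin]
    refine mul_le_mul_of_nonneg_right ?_ hp0.le
    exact_mod_cast Nat.sub_le n 1
  have h3 := Pr_exists_le hp0.le hp1 ((univ : Finset (Fin n)).erase v0)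
    (fun w G => ({s(v0, w)} : Finset (Sym2 (Fin n))) ⊆ G.edgeFinset)
  have h4 : n * p < 1 / 2 := by
    rw [Real.rpow_neg hn0.le, Real.rpow_one, Real.rpow_neg (by linarith), Real.rpow_one] at hpq
    have hl0 : 0 < Real.log n := by linarith
    calc n * p < n * ((n : ℝ)⁻¹ * (Real.log n)⁻¹) := mul_lt_mul_of_pos_left hpq hn0
      _ = (Real.log n)⁻¹ := by field_simp
      _ < 2⁻¹ := inv_strictAnti₀ (by norm_num) hl
      _ = 1 / 2 := by norm_num
  linarith

end MP30c94c
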