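import Mathlib
import Pool.Agent.Lib.MP30c94c.KDefs

/-!
# The process as a sequence of single edge additions
-/

open SimpleGraph Finset

namespace MP30c94c

attribute [local instance] Classical.propDecidable

/-- monotonicity of the closure -/
theorem InClosure.mono {W V : Type*} {H : SimpleGraph W} {G G' : SimpleGraph V} (h : G ≤ G')
    {e : Sym2 V} (he : InClosure H G e) : InClosure H G' e := by
  induction he with
  | base he => exact .base (edgeSet_mono h he)
  | step f he _ ih => exact .step f he ih

/-- the closure is closed -/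
theorem InClosure.trans {W V : Type*} {H : SimpleGraph W} {G G' : SimpleGraph V}
    (h : ∀ e ∈ G'.edgeSet, InClosure H G e) {e : Sym2 V} (he : InClosure H G' e) :
    InClosure H G e := by
  induction he with
  | base he => exact h _ he
  | step f he _ ih => exact .step f he ih

/-- edges of the final graph -/
lemma mem_edgeSet_closure {W V : Type*} {H : SimpleGraph W} {G : SimpleGraph V} {e : Sym2 V} :
    e ∈ (closure H G).edgeSet ↔ ¬ e.IsDiag ∧ InClosure H G e := by
  induction e using Sym2.ind with
  | _ u v =>
    rw [mem_edgeSet, Sym2.mk_isDiag_iff]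
    rfl

/-- Induction along the process: if `P` holds for `G` and is preserved when a single missing edge
which completes a copy of `H` is added, then `P` holds for the final graph. -/
theorem closure_induction {W V : Type} [Fintype V] (H : SimpleGraph W) (G : SimpleGraph V)
    (P : SimpleGraph V → Prop) (h0 : P G)
    (hstep : ∀ G' : SimpleGraph V, G ≤ G' → G' ≤ closure H G → P G' → ∀ (f : W ↪ V) (e : Sym2 V),
      e ∈ (H.map f).edgeSet → (∀ e' ∈ (H.map f).edgeSet, e' ≠ e → e' ∈ G'.edgeSet) →
      e ∉ G'.edgeSet → P (G' ⊔ fromEdgeSet {e})) :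
    P (closure H G) := by
  have hGc : G ≤ closure H G := by
    intro u v huv
    exact ⟨huv.ne, .base huv⟩
  obtain ⟨M, hM⟩ := (Set.toFinite {G' : SimpleGraph V | G ≤ G' ∧ G' ≤ closure H G ∧ P G'}).exists_maximal
    ⟨G, le_rfl, hGc, h0⟩
  obtain ⟨hGM, hMc, hPM⟩ := hM.prop
  have key : ∀ e, InClosure H G e → ¬ e.IsDiag → e ∈ M.edgeSet := by
    intro e he
    induction he with
    | base he => exact fun _ => edgeSet_mono hGM he
    | @step e f he h ih =>
      intro hd
      by_contra hcon
      have h1 : ∀ e' ∈ (H.map f).edgeSet, e' ≠ e → e' ∈ M.edgeSet := fun e' he' hne =>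
        ih e' he' hne (not_isDiag_of_mem_edgeSet _ he')
      have h2 := hstep M hGM hMc hPM f e he h1 hcon
      have h3 : M ⊔ fromEdgeSet {e} ≤ closure H G := by
        refine sup_le hMc ?_
        rw [← edgeSet_subset_edgeSet, edgeSet_fromEdgeSet]
        rintro e' ⟨he', _⟩
        rw [Set.mem_singleton_iff] at he'
        subst he'
        exact mem_edgeSet_closure.2 ⟨hd, .step f he h⟩
      have h4 := hM.le_of_ge ⟨hGM.trans le_sup_left, h3, h2⟩ le_sup_left
      apply hcon
      refine edgeSet_mono h4 ?_
      rw [edgeSet_sup, edgeSet_fromEdgeSet]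
      exact Or.inr ⟨rfl, hd⟩
  have h5 : closure H G = M := by
    refine le_antisymm ?_ hMc
    rw [← edgeSet_subset_edgeSet]
    intro e he
    rw [mem_edgeSet_closure] at he
    exact key e he.2 he.1
  rw [h5]
  exact hPM

end MP30c94c
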