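import Mathlib
import Pool.Agent.Lib.MP30c94c.KProc

/-!
# Tools for gadgets: the closure rule and counting edges by an orientation
-/

open SimpleGraph Finset

namespace MP30c94c

attribute [local instance] Classical.propDecidable

/-- one step of the `K_{s,t}` process, in terms of vertex sets -/
theorem closure_step {s t : ℕ} {V : Type*} {G : SimpleGraph V} {X Y : Finset V}
    (hX : X.card = s) (hY : Y.card = t) (hXY : Disjoint X Y) {x₀ y₀ : V} (hx₀ : x₀ ∈ X)
    (hy₀ : y₀ ∈ Y)
    (h : ∀ x ∈ X, ∀ y ∈ Y, (x ≠ x₀ ∨ y ≠ y₀) → InClosure (Kst s t) G s(x, y)) :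
    InClosure (Kst s t) G s(x₀, y₀) := by
  let eX := X.equivFinOfCardEq hX
  let eY := Y.equivFinOfCardEq hY
  let f : (Fin s ⊕ Fin t) ↪ V := ⟨Sum.elim (fun i => (eX.symm i : V)) (fun j => (eY.symm j : V)), by
    rw [Sum.elim_injective]
    refine ⟨fun i j hij => eX.symm.injective (Subtype.ext hij),
      fun i j hij => eY.symm.injective (Subtype.ext hij), ?_⟩
    intro i j hij
    exact Finset.disjoint_left.1 hXY (eX.symm i).2 (hij ▸ (eY.symm j).2)⟩
  have hf1 : ∀ i, f (Sum.inl i) = eX.symm i := fun i => rfl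
  have hf2 : ∀ j, f (Sum.inr j) = eY.symm j := fun i => rfl
  refine InClosure.step f ?_ ?_
  · rw [mem_edgeSet, map_adj]
    refine ⟨Sum.inl (eX ⟨x₀, hx₀⟩), Sum.inr (eY ⟨y₀, hy₀⟩), ?_, ?_, ?_⟩
    · simp [Kst]
    · rw [hf1, Equiv.symm_apply_apply]
    · rw [hf2, Equiv.symm_apply_apply]
  · intro e' he' hne
    induction e' using Sym2.ind with
    | _ u v =>
    rw [mem_edgeSet, map_adj] at he'
    obtain ⟨a, b, hab, rfl, rfl⟩ := he'
    rcases a with i | j <;> rcases b with i' | j'
    · simp [Kst] at hab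
    · rw [hf1, hf2] at hne ⊢
      refine h _ (eX.symm i).2 _ (eY.symm j').2 ?_
      by_contra hcon
      push Not at hcon
      exact hne (by rw [hcon.1, hcon.2])
    · rw [hf1, hf2] at hne ⊢
      rw [Sym2.eq_swap]
      refine h _ (eX.symm i').2 _ (eY.symm j).2 ?_
      by_contra hcon
      push Not at hcon
      exact hne (by rw [hcon.1, hcon.2, Sym2.eq_swap])
    · simp [Kst] at hab

/-- counting the edges by an acyclic orientation -/
theorem eIn_eq_sum_out {X : Type*} [Fintype X] [DecidableEq X] (F : SimpleGraph X) (out : X → Finset X)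
    (rank : X → ℕ) (hadj : ∀ x y, F.Adj x y ↔ (y ∈ out x ∨ x ∈ out y))
    (hrank : ∀ x, ∀ y ∈ out x, rank y < rank x) (S : Finset X) :
    eIn F S = ∑ x ∈ S, (out x ∩ S).card := by
  have key : ∀ T : Finset (Sym2 X), (∀ e, e ∈ T ↔ (e ∈ F.edgeSet ∧ ∀ v ∈ e, v ∈ S)) →
      T.card = ∑ x ∈ S, (out x ∩ S).card := by
    intro T hT
    have h1 : T = (S.sigma (fun x => out x ∩ S)).image (fun z => s(z.1, z.2)) := by
      ext e
      induction e using Sym2.ind with
      | _ u v =>
      rw [hT, mem_edgeSet, mem_image, hadj]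
      constructor
      · rintro ⟨h | h, h2⟩
        · have hu := h2 u (Sym2.mem_mk_left u v)
          have hv := h2 v (Sym2.mem_mk_right u v)
          exact ⟨⟨u, v⟩, by simp [h, hu, hv], rfl⟩
        · have hu := h2 u (Sym2.mem_mk_left u v)
          have hv := h2 v (Sym2.mem_mk_right u v)
          exact ⟨⟨v, u⟩, by simp [h, hu, hv], Sym2.eq_swap⟩
      · rintro ⟨⟨x, y⟩, hz, hxy⟩
        rw [mem_sigma, mem_inter] at hz
        simp only at hz hxy
        rw [Sym2.eq_iff] at hxy
        rcases hxy with ⟨rfl, rfl⟩ | ⟨rfl, rfl⟩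
        · refine ⟨Or.inl hz.2.1, fun w hw => ?_⟩
          rcases Sym2.mem_iff.1 hw with rfl | rfl
          · exact hz.1
          · exact hz.2.2
        · refine ⟨Or.inr hz.2.1, fun w hw => ?_⟩
          rcases Sym2.mem_iff.1 hw with rfl | rfl
          · exact hz.2.2
          · exact hz.1
    rw [h1, card_image_of_injOn, card_sigma]
    rintro ⟨x, y⟩ hz ⟨x', y'⟩ hz' heq
    simp only [coe_sigma, Set.mem_sigma_iff, mem_coe, mem_inter] at hz hz'
    simp only [Sym2.eq_iff] at heq
    rcases heq with ⟨rfl, rfl⟩ | ⟨rfl, rfl⟩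
    · rfl
    · exact absurd (hrank _ _ hz.2.1) (not_lt.2 (hrank _ _ hz'.2.1).le)
  unfold eIn
  refine key _ fun e => ?_
  rw [@mem_filter _ _ (_) _ _, @mem_edgeFinset _ _ _ (_)]

/-- the graph of an acyclic orientation -/
def orientGraph {X : Type*} (out : X → Finset X) (rank : X → ℕ)
    (hrank : ∀ x, ∀ y ∈ out x, rank y < rank x) : SimpleGraph X where
  Adj x y := y ∈ out x ∨ x ∈ out y
  symm := ⟨fun _ _ h => h.symm⟩
  loopless := ⟨fun x h => by
    rcases h with h | h <;> exact absurd (hrank x x h) (lt_irrefl _)⟩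

theorem eIn_orientGraph {X : Type*} [Fintype X] [DecidableEq X] (out : X → Finset X) (rank : X → ℕ)
    (hrank : ∀ x, ∀ y ∈ out x, rank y < rank x) (S : Finset X) :
    eIn (orientGraph out rank hrank) S = ∑ x ∈ S, (out x ∩ S).card :=
  eIn_eq_sum_out _ out rank (fun _ _ => Iff.rfl) hrank S

/-- membership in `U ∪ {roots}` -/
def InS {W : Type} (U : Finset W) : W ⊕ Fin 2 → Prop
  | Sum.inl w => w ∈ U
  | Sum.inr _ => True

private lemma eR_aux {W : Type} [Fintype W] (out : W ⊕ Fin 2 → Finset (W ⊕ Fin 2))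
    (rank : W ⊕ Fin 2 → ℕ) (hrank : ∀ x, ∀ y ∈ out x, rank y < rank x)
    (h0 : ∀ r : Fin 2, out (Sum.inr r) = ∅) (U : Finset W) (S0 : Finset (W ⊕ Fin 2))
    (hmem : ∀ x : W ⊕ Fin 2, x ∈ S0 ↔ InS U x) :
    eIn (orientGraph out rank hrank) S0 =
      ∑ w ∈ U, ((out (Sum.inl w)).filter (InS U)).card := by
  have h1 : ∑ w ∈ U, ((out (Sum.inl w)).filter (InS U)).card =
      ∑ x ∈ U.map ⟨Sum.inl, Sum.inl_injective⟩, ((out x).filter (InS U)).card := by
    rw [sum_map]
    rfl
  rw [h1, eIn_orientGraph]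
  have h2 : ∀ x, (out x ∩ S0).card = ((out x).filter (InS U)).card := by
    intro x
    congr 1
    ext y
    rw [mem_filter, mem_inter, hmem]
  simp only [h2]
  symm
  apply sum_subset
  · intro x hx
    rw [hmem]
    rw [mem_map] at hx
    obtain ⟨w, hw, rfl⟩ := hx
    exact hw
  · intro x hx hx'
    rw [hmem] at hx
    rcases x with w | r
    · exfalso
      apply hx'
      rw [mem_map]
      exact ⟨w, hx, rfl⟩
    · rw [h0]
      simp

/-- counting the edges of a rooted graph given by an orientation with no edges leaving the roots -/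
theorem eR_orientGraph {W : Type} [Fintype W] (out : W ⊕ Fin 2 → Finset (W ⊕ Fin 2))
    (rank : W ⊕ Fin 2 → ℕ) (hrank : ∀ x, ∀ y ∈ out x, rank y < rank x)
    (h0 : ∀ r : Fin 2, out (Sum.inr r) = ∅) (U : Finset W) :
    eR (orientGraph out rank hrank) U = ∑ w ∈ U, ((out (Sum.inl w)).filter (InS U)).card := by
  unfold eR
  refine eR_aux out rank hrank h0 U _ ?_
  intro x
  rw [@Finset.mem_union _ (_) _ _ x, mem_map, @Finset.mem_insert _ (_) _ _ _, mem_singleton]
  rcases x with w | r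
  · simp [InS]
  · fin_cases r <;> simp [InS]

end MP30c94c
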