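import Mathlib
import Pool.Agent.Lib.MP30c94c.KDefs
import Pool.Agent.Lib.MP30c94c.KUBX
import Pool.Agent.Lib.MP30c94c.SM

/-!
# Stars: `K_{1,t}`, upper bound
-/

open SimpleGraph Finset Filter

namespace MP30c94c

attribute [local instance] Classical.propDecidable

theorem pc_K11 (n : ℕ) : pc n (Kst 1 1) = 0 := by
  have hperc : ∀ G : SimpleGraph (Fin n), Percolates (Kst 1 1) G := by
    intro G
    unfold Percolates
    rw [eq_top_iff]
    intro u v huv
    have huv' : u ≠ v := huv
    refine ⟨huv', ?_⟩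
    refine closure_step (s := 1) (t := 1) (X := {u}) (Y := {v}) (card_singleton _)
      (card_singleton _) (by simpa using huv') (mem_singleton_self _) (mem_singleton_self _) ?_
    intro x hx y hy hne
    rw [mem_singleton] at hx hy
    rcases hne with h | h
    · exact absurd hx h
    · exact absurd hy h
  have hset : {p : ℝ | 0 < p ∧ ∃ hp : p ∈ Set.Icc (0 : ℝ) 1,
      1 / 2 ≤ (binomialRandom (Fin n) ⟨p, hp⟩).real {G | Percolates (Kst 1 1) G}} =
      Set.Ioc 0 1 := by
    ext p
    constructor
    · rintro ⟨h0, h1, -⟩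
      exact ⟨h0, h1.2⟩
    · rintro ⟨h0, h1⟩
      refine ⟨h0, ⟨h0.le, h1⟩, ?_⟩
      rw [real_binomialRandom]
      have h2 : Pr (V := Fin n) p (fun G => Percolates (Kst 1 1) G) = 1 := by
        have h3 := Ex_const (V := Fin n) p 1
        unfold Pr
        rw [← h3]
        congr 1
        ext G
        rw [if_pos (hperc G), h3]
      change 1 / 2 ≤ Pr (V := Fin n) p (fun G => Percolates (Kst 1 1) G)
      rw [h2]
      norm_num
  unfold pc
  rw [hset, csInf_Ioc one_pos]

/-- a vertex with `t - 1` neighbours becomes adjacent to everything -/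
private theorem star_univ {V : Type} {t : ℕ} {G : SimpleGraph V} (c : V) (N : Finset V)
    (hc : c ∉ N) (hN : t ≤ N.card) (h : ∀ w ∈ N, InClosure (Kst 1 (t + 1)) G s(c, w)) (v : V)
    (hv : v ≠ c) : InClosure (Kst 1 (t + 1)) G s(c, v) := by
  by_cases hvN : v ∈ N
  · exact h v hvN
  obtain ⟨N', hN', hcard⟩ := Finset.exists_subset_card_eq hN
  have hvN' : v ∉ N' := fun h => hvN (hN' h)
  refine closure_step (s := 1) (t := t + 1) (X := {c}) (Y := insert v N') (card_singleton _)
    (by rw [card_insert_of_notMem hvN', hcard]) ?_ (mem_singleton_self _) (mem_insert_self _ _) ?_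
  · rw [disjoint_singleton_left, mem_insert]
    rintro (h1 | h1)
    · exact hv h1.symm
    · exact hc (hN' h1)
  · intro x hx y hy hne
    rw [mem_singleton] at hx
    subst hx
    rcases hne with h1 | h1
    · exact absurd rfl h1
    · rcases mem_insert.1 hy with h2 | h2
      · exact absurd h2 h1
      · exact h y (hN' h2)

/-- `m` disjoint stars with `m` leaves -/
private def starF (m : ℕ) : SimpleGraph (Fin m × Fin (m + 1)) where
  Adj x y := x.1 = y.1 ∧ x.2 ≠ y.2 ∧ (x.2 = 0 ∨ y.2 = 0)
  symm := ⟨fun _ _ h => ⟨h.1.symm, h.2.1.symm, h.2.2.symm⟩⟩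
  loopless := ⟨fun _ h => h.2.1 rfl⟩

private theorem star_perc {V : Type} (m : ℕ) (G : SimpleGraph V)
    (h : Contains (starF m) G) (u v : V) (huv : u ≠ v) : InClosure (Kst 1 (m + 1)) G s(u, v) := by
  obtain ⟨f, hf⟩ := h
  have hcen : ∀ (i : Fin m) (w : V), w ≠ f (i, 0) → InClosure (Kst 1 (m + 1)) G s(f (i, 0), w) := by
    intro i w hw
    refine star_univ (f (i, 0)) ((univ : Finset (Fin m)).image fun j => f (i, j.succ)) ?_ ?_ ?_ w hw
    · rw [mem_image]
      rintro ⟨j, -, hj⟩
      have := f.injective hj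
      simp only [Prod.mk.injEq, true_and] at this
      exact Fin.succ_ne_zero j this
    · rw [card_image_of_injective, card_univ, Fintype.card_fin]
      intro j j' hjj
      have := f.injective hjj
      simp only [Prod.mk.injEq, true_and] at this
      exact Fin.succ_injective _ this
    · intro w hw
      rw [mem_image] at hw
      obtain ⟨j, -, rfl⟩ := hw
      refine .base ?_
      rw [mem_edgeSet]
      exact hf _ _ ⟨rfl, (Fin.succ_ne_zero j).symm, Or.inl rfl⟩
  by_cases hu : ∃ i, u = f (i, 0)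
  · obtain ⟨i, rfl⟩ := hu
    exact hcen i v huv.symm
  · push Not at hu
    refine star_univ u ((univ : Finset (Fin m)).image fun i => f (i, 0)) ?_ ?_ ?_ v huv.symm
    · rw [mem_image]
      rintro ⟨i, -, hi⟩
      exact hu i hi.symm
    · rw [card_image_of_injective, card_univ, Fintype.card_fin]
      intro i i' hii
      have := f.injective hii
      simp only [Prod.mk.injEq, and_true] at this
      exact this
    · intro w hw
      rw [mem_image] at hw
      obtain ⟨i, -, rfl⟩ := hw
      rw [Sym2.eq_swap]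
      exact hcen i u (hu i)

/-- edge count -/
private theorem star_eIn (m : ℕ) (hm : 1 ≤ m) (U : Finset (Fin m × Fin (m + 1))) :
    (((m + 1 : ℕ) : ℝ) / (((m + 1 : ℕ) : ℝ) - 1)) * eIn (starF m) U ≤ U.card := by
  have hm0 : (0 : ℝ) < m := by exact_mod_cast (by omega : 0 < m)
  have h1 : eIn (starF m) U = ∑ x ∈ U,
      ((if x.2 = 0 then (∅ : Finset (Fin m × Fin (m + 1))) else {(x.1, 0)}) ∩ U).card := by
    refine eIn_eq_sum_out (starF m) (fun x => if x.2 = 0 then ∅ else {(x.1, 0)})
      (fun x => if x.2 = 0 then 0 else 1) ?_ ?_ U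
    · rintro ⟨i, j⟩ ⟨i', j'⟩
      simp only [starF]
      by_cases hj : j = 0 <;> by_cases hj' : j' = 0
      · subst hj; subst hj'; simp
      · subst hj
        simp only [ne_eq, true_or, and_true, if_true, notMem_empty, if_neg hj', mem_singleton,
          Prod.mk.injEq, false_or]
        constructor
        · exact fun h => h.1
        · exact fun h => ⟨h, fun h' => hj' h'.symm⟩
      · subst hj'
        simp only [ne_eq, or_true, and_true, if_true, notMem_empty, if_neg hj, mem_singleton,
          Prod.mk.injEq, or_false]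
        constructor
        · exact fun h => h.1.symm
        · exact fun h => ⟨h.symm, hj⟩
      · simp [hj, hj']
    · rintro ⟨i, j⟩ y hy
      by_cases hj : j = 0
      · simp [hj] at hy
      · simp only [if_neg hj, mem_singleton] at hy
        subst hy
        simp [hj]
  have h2 : (m + 1) * eIn (starF m) U ≤ m * U.card := by
    have hU : U.card = ∑ i : Fin m, (U.filter fun x => x.1 = i).card :=
      card_eq_sum_card_fiberwise (fun x _ => mem_univ _)
    rw [h1, hU, ← sum_fiberwise (s := U) (g := fun x : Fin m × Fin (m + 1) => x.1), mul_sum, mul_sum]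
    refine sum_le_sum fun i _ => ?_
    set Ui := U.filter fun x => x.1 = i with hUi
    by_cases hi : ((i, 0) : Fin m × Fin (m + 1)) ∈ U
    · have hmem : ((i, 0) : Fin m × Fin (m + 1)) ∈ Ui := by
        rw [hUi, mem_filter]
        exact ⟨hi, rfl⟩
      have hc : Ui.card ≤ m + 1 := by
        calc Ui.card ≤ (univ : Finset (Fin (m + 1))).card := by
              refine card_le_card_of_injOn (fun x => x.2) (fun _ _ => mem_coe.2 (mem_univ _)) ?_
              intro x hx y hy hxy
              rw [hUi, coe_filter] at hx hy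
              exact Prod.ext (hx.2.trans hy.2.symm) hxy
          _ = m + 1 := by rw [card_univ, Fintype.card_fin]
      have hs : ∑ x ∈ Ui, ((if x.2 = 0 then (∅ : Finset (Fin m × Fin (m + 1)))
          else {(x.1, 0)}) ∩ U).card ≤ Ui.card - 1 := by
        rw [← sum_erase_add _ _ hmem, if_pos rfl, empty_inter, card_empty, add_zero,
          ← card_erase_of_mem hmem]
        refine (sum_le_card_nsmul _ _ 1 ?_).trans (by simp)
        intro x _
        refine (card_le_card inter_subset_left).trans ?_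
        split_ifs <;> simp
      have hpos : 1 ≤ Ui.card := card_pos.2 ⟨_, hmem⟩
      obtain ⟨q, hq⟩ : ∃ q, Ui.card = q + 1 := ⟨Ui.card - 1, by omega⟩
      rw [hq] at hs hc ⊢
      rw [Nat.add_sub_cancel] at hs
      calc (m + 1) * _ ≤ (m + 1) * q := Nat.mul_le_mul_left _ hs
        _ = m * q + q := by ring
        _ ≤ m * q + m := by omega
        _ = m * (q + 1) := by ring
    · have hs : ∑ x ∈ Ui, ((if x.2 = 0 then (∅ : Finset (Fin m × Fin (m + 1)))
          else {(x.1, 0)}) ∩ U).card = 0 := by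
        refine sum_eq_zero fun x hx => ?_
        rw [hUi, mem_filter] at hx
        rw [card_eq_zero]
        split_ifs
        · exact empty_inter _
        · rw [hx.2]
          exact singleton_inter_of_notMem hi
      rw [hs]
      simp
  have h3 : ((m : ℝ) + 1) * eIn (starF m) U ≤ m * U.card := by exact_mod_cast h2
  push_cast
  rw [add_sub_cancel_right, div_mul_eq_mul_div, div_le_iff₀ hm0]
  linarith

theorem star_upper (t : ℕ) (ht : 2 ≤ t) :
    ∃ C : ℝ, 0 < C ∧ ∀ᶠ n : ℕ in atTop,
      pc n (Kst 1 t) ≤ (n : ℝ) ^ (-((t : ℝ) / (t - 1))) * (Real.log n) ^ C := by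
  obtain ⟨m, rfl⟩ : ∃ m, t = m + 1 := ⟨t - 1, by omega⟩
  have hm : 1 ≤ m := by omega
  have hm0 : (0 : ℝ) < m := by exact_mod_cast (by omega : 0 < m)
  set x : ℝ := ((m + 1 : ℕ) : ℝ) / (((m + 1 : ℕ) : ℝ) - 1) with hx
  have hx0 : 0 < x := by
    rw [hx]
    push_cast
    rw [add_sub_cancel_right]
    positivity
  obtain ⟨C, hC1, hsm⟩ := second_moment (starF m) x hx0 (star_eIn m hm) (1 / 2) (by norm_num)
  have hC : 0 < C := lt_of_lt_of_le one_pos hC1
  have hsm' := hsm C le_rfl
  have htend : Tendsto (fun n : ℕ => C * (n : ℝ) ^ (-x)) atTop (nhds 0) := by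
    have h1 : Tendsto (fun n : ℕ => (n : ℝ) ^ (-x)) atTop (nhds 0) :=
      (tendsto_rpow_neg_atTop hx0).comp tendsto_natCast_atTop_atTop
    simpa using h1.const_mul C
  have hle1 : ∀ᶠ n : ℕ in atTop, C * (n : ℝ) ^ (-x) ≤ 1 :=
    (htend.eventually (gt_mem_nhds one_pos)).mono fun n hn => hn.le
  have hlog : ∀ᶠ n : ℕ in atTop, C ≤ Real.log n :=
    (Real.tendsto_log_atTop.comp tendsto_natCast_atTop_atTop).eventually_ge_atTop C
  refine ⟨1, one_pos, ?_⟩
  filter_upwards [hsm', hle1, hlog, eventually_ge_atTop 1] with n h1 h3 h4 h5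
  have hn0 : (0:ℝ) < n := by exact_mod_cast h5
  have hppos : 0 < C * (n : ℝ) ^ (-x) := by positivity
  have hmem : C * (n : ℝ) ^ (-x) ∈ {p : ℝ | 0 < p ∧ ∃ hp : p ∈ Set.Icc (0 : ℝ) 1,
      1 / 2 ≤ (binomialRandom (Fin n) ⟨p, hp⟩).real {G | Percolates (Kst 1 (m + 1)) G}} := by
    refine ⟨hppos, ⟨hppos.le, h3⟩, ?_⟩
    rw [real_binomialRandom]
    have e1 := h1 _ rfl h3
    have e3 : Pr (V := Fin n) (C * (n : ℝ) ^ (-x)) (fun G => ¬ Percolates (Kst 1 (m + 1)) G) ≤
        1 / 2 := by
      refine le_trans (Pr_mono hppos.le h3 ?_) e1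
      intro G hG hcon
      refine hG ?_
      unfold Percolates
      rw [eq_top_iff]
      intro u v huv
      have huv' : u ≠ v := huv
      exact ⟨huv', star_perc m G hcon u v huv'⟩
    rw [Pr_not] at e3
    change 1 / 2 ≤ Pr (V := Fin n) (C * (n : ℝ) ^ (-x)) (fun G => Percolates (Kst 1 (m + 1)) G)
    linarith
  refine (csInf_le ⟨0, fun p hp => hp.1.le⟩ hmem).trans ?_
  rw [mul_comm, Real.rpow_one]
  exact mul_le_mul_of_nonneg_left h4 (by positivity)

end MP30c94c
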