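import Mathlib
import Pool.Agent.Lib.MP30c94c.KAPre

/-!
# Stars: `K_{1,t}`, lower bound
-/

open SimpleGraph Finset Filter

namespace MP30c94c

attribute [local instance] Classical.propDecidable

/-- if all degrees are less than `t - 1` then the process does not add any edge -/
private theorem star_stable {n : ℕ} (t : ℕ) (G : SimpleGraph (Fin n))
    (hG : ∀ (c : Fin n) (T : Finset (Fin n)), T.card = t - 1 → ¬ ∀ w ∈ T, G.Adj c w)
    {e : Sym2 (Fin n)} (h : InClosure (Kst 1 t) G e) : e ∈ G.edgeSet := by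
  induction h with
  | base he => exact he
  | @step e f he h ih =>
    exfalso
    obtain ⟨j, rfl⟩ : ∃ j, e = s(f (Sum.inl 0), f (Sum.inr j)) := by
      induction e using Sym2.ind with
      | _ u v =>
      rw [mem_edgeSet, map_adj] at he
      obtain ⟨a, b, hab, rfl, rfl⟩ := he
      rcases a with i | j <;> rcases b with i' | j'
      · simp [Kst] at hab
      · exact ⟨j', by rw [Subsingleton.elim i 0]⟩
      · exact ⟨j, by rw [Subsingleton.elim i' 0]; exact Sym2.eq_swap⟩
      · simp [Kst] at hab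
    let fr : Fin t ↪ Fin n := ⟨fun i => f (Sum.inr i), fun a b hab => by
      simpa using f.injective hab⟩
    refine hG (f (Sum.inl 0)) (((univ : Finset (Fin t)).erase j).map fr) ?_ ?_
    · rw [card_map, card_erase_of_mem (mem_univ _), card_univ, Fintype.card_fin]
    · intro w hw
      rw [Finset.mem_map] at hw
      obtain ⟨j', hj', rfl⟩ := hw
      have h1 := ih s(f (Sum.inl 0), f (Sum.inr j')) (by
        rw [mem_edgeSet, map_adj]
        exact ⟨Sum.inl 0, Sum.inr j', by simp [Kst], rfl, rfl⟩) (by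
        intro heq
        rw [Sym2.eq_iff] at heq
        rcases heq with ⟨-, h2⟩ | ⟨h1, -⟩
        · have := f.injective h2
          exact (mem_erase.1 hj').1 (by simpa using this)
        · have := f.injective h1
          simp at this)
      rw [mem_edgeSet] at h1
      exact h1

theorem star_lower (t : ℕ) (ht : 2 ≤ t) :
    ∃ C : ℝ, 0 < C ∧ ∀ᶠ n : ℕ in atTop,
      (n : ℝ) ^ (-((t : ℝ) / (t - 1))) * (Real.log n) ^ (-C) ≤ pc n (Kst 1 t) := by
  refine ⟨1, one_pos, ?_⟩
  have hlog : ∀ᶠ n : ℕ in atTop, 2 < Real.log n :=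
    (Real.tendsto_log_atTop.comp tendsto_natCast_atTop_atTop).eventually_gt_atTop 2
  filter_upwards [hlog, eventually_ge_atTop (t + 2)] with n hl hn
  have hn0 : (0 : ℝ) < n := by exact_mod_cast (by omega : 0 < n)
  have hl0 : 0 < Real.log n := by linarith
  obtain ⟨m, rfl⟩ : ∃ m, t = m + 1 := ⟨t - 1, by omega⟩
  have hm : 1 ≤ m := by omega
  have hm0 : (0 : ℝ) < m := by exact_mod_cast (by omega : 0 < m)
  refine ka_lower n _ _ fun p hp0 hpq hp1 => ?_
  -- index set of the union bound
  set I : Finset (Fin n × Finset (Fin n)) :=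
    ((univ : Finset (Fin n)) ×ˢ (univ : Finset (Fin n)).powersetCard m).filter
      (fun z => z.1 ∉ z.2) with hI
  have h1 : Pr (V := Fin n) p (fun G => Percolates (Kst 1 (m + 1)) G) ≤
      Pr (V := Fin n) p (fun G => ∃ z ∈ I, z.2.image (fun w => s(z.1, w)) ⊆ G.edgeFinset) := by
    refine Pr_mono hp0.le hp1 fun G hG => ?_
    by_contra hcon
    push Not at hcon
    have hst : ∀ (c : Fin n) (T : Finset (Fin n)), T.card = m + 1 - 1 → ¬ ∀ w ∈ T, G.Adj c w := by
      intro c T hT hadj
      rw [Nat.add_sub_cancel] at hT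
      refine hcon (c, T) ?_ ?_
      · rw [hI, mem_filter, mem_product, mem_powersetCard]
        exact ⟨⟨mem_univ _, subset_univ _, hT⟩, fun h => (hadj c h).ne rfl⟩
      · intro e he
        rw [mem_image] at he
        obtain ⟨w, hw, rfl⟩ := he
        rw [mem_edgeFinset, mem_edgeSet]
        exact hadj w hw
    have hv : ∀ u v : Fin n, u ≠ v → G.Adj u v := by
      intro u v huv
      have h2 : (closure (Kst 1 (m + 1)) G).Adj u v := by
        unfold Percolates at hG
        rw [hG]
        exact huv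
      have := star_stable (m + 1) G hst h2.2
      rwa [mem_edgeSet] at this
    set v0 : Fin n := ⟨0, by omega⟩ with hv0
    obtain ⟨T, hT1, hT2⟩ := Finset.exists_subset_card_eq (s := (univ : Finset (Fin n)).erase v0)
      (n := m) (by
        rw [card_erase_of_mem (mem_univ _), card_univ, Fintype.card_fin]
        omega)
    refine hst v0 T (by rw [hT2, Nat.add_sub_cancel]) fun w hw => hv _ _ ?_
    exact (mem_erase.1 (hT1 hw)).1.symm
  have h3 : ∀ z ∈ I, Pr (V := Fin n) p (fun G => z.2.image (fun w => s(z.1, w)) ⊆ G.edgeFinset) =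
      p ^ m := by
    rintro ⟨c, T⟩ hz
    rw [hI, mem_filter, mem_product, mem_powersetCard] at hz
    obtain ⟨⟨-, -, hT⟩, hc⟩ := hz
    simp only at hT hc ⊢
    rw [Pr_subset, card_image_of_injOn, hT]
    · intro w _ w' _ heq
      simp only at heq
      exact (Sym2.congr_right.1 heq)
    · intro e he
      rw [mem_image] at he
      obtain ⟨w, hw, rfl⟩ := he
      simp only [allE, mem_filter, mem_univ, true_and, Sym2.mk_isDiag_iff]
      intro h
      exact hc (h ▸ hw)
  have h4 := Pr_exists_le hp0.le hp1 I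
    (fun z G => z.2.image (fun w => s(z.1, w)) ⊆ G.edgeFinset)
  rw [Finset.sum_congr rfl h3, sum_const, nsmul_eq_mul] at h4
  have h5 : (I.card : ℝ) ≤ (n : ℝ) ^ (m + 1) := by
    have : I.card ≤ n ^ (m + 1) := by
      refine (card_filter_le _ _).trans ?_
      rw [card_product, card_powersetCard, card_univ, Fintype.card_fin, pow_succ, mul_comm]
      exact Nat.mul_le_mul_right _ (Nat.choose_le_pow n m)
    exact_mod_cast this
  have h6 : (n : ℝ) ^ (m + 1) * p ^ m < 1 / 2 := by
    have hq : ((n : ℝ) ^ (-(((m + 1 : ℕ) : ℝ) / (((m + 1 : ℕ) : ℝ) - 1))) *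
        (Real.log n) ^ (-(1 : ℝ))) ^ m = ((n : ℝ) ^ (m + 1))⁻¹ * ((Real.log n) ^ m)⁻¹ := by
      rw [mul_pow]
      congr 1
      · rw [← Real.rpow_natCast, ← Real.rpow_mul hn0.le]
        have : -(((m + 1 : ℕ) : ℝ) / (((m + 1 : ℕ) : ℝ) - 1)) * (m : ℝ) = -((m + 1 : ℕ) : ℝ) := by
          push_cast
          rw [add_sub_cancel_right]
          field_simp
        rw [this, Real.rpow_neg hn0.le, Real.rpow_natCast]
      · rw [Real.rpow_neg hl0.le, Real.rpow_one, inv_pow]
    have h7 : p ^ m < ((n : ℝ) ^ (-(((m + 1 : ℕ) : ℝ) / (((m + 1 : ℕ) : ℝ) - 1))) *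
        (Real.log n) ^ (-(1 : ℝ))) ^ m := pow_lt_pow_left₀ hpq hp0.le (by omega)
    rw [hq] at h7
    have hnp : (0 : ℝ) < (n : ℝ) ^ (m + 1) := by positivity
    have h8 : 2 < (Real.log n) ^ m := by
      calc (2 : ℝ) < Real.log n := hl
        _ = (Real.log n) ^ 1 := (pow_one _).symm
        _ ≤ (Real.log n) ^ m := pow_le_pow_right₀ (by linarith) hm
    calc (n : ℝ) ^ (m + 1) * p ^ m < (n : ℝ) ^ (m + 1) * (((n : ℝ) ^ (m + 1))⁻¹ *
        ((Real.log n) ^ m)⁻¹) := mul_lt_mul_of_pos_left h7 hnp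
      _ = ((Real.log n) ^ m)⁻¹ := by field_simp
      _ < 2⁻¹ := inv_strictAnti₀ (by norm_num) h8
      _ = 1 / 2 := by norm_num
  have h7 : (I.card : ℝ) * p ^ m ≤ (n : ℝ) ^ (m + 1) * p ^ m :=
    mul_le_mul_of_nonneg_right h5 (by positivity)
  linarith

end MP30c94c
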