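import Mathlib
import Pool.Agent.Lib.MP30c94c.KUBX

/-!
# `K_{2,2}` and `K_{2,3}`: path gadgets
-/

open SimpleGraph Finset Filter

namespace MP30c94c

attribute [local instance] Classical.propDecidable

section two

variable (L : ℕ)

/-- the non-root vertices: two arms of length `2 L` and the two far vertices of the 4-cycle -/
private abbrev TW := Fin 2 × (Fin (2 * L) ⊕ Unit)

/-- the arms -/
private def TA (r : Fin 2) : ℕ → TW L ⊕ Fin 2
  | 0 => Sum.inr r
  | (i + 1) => if h : i < 2 * L then Sum.inl (r, Sum.inl ⟨i, h⟩) else Sum.inr r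

/-- the far vertices of the 4-cycle -/
private def TC (r : Fin 2) : TW L ⊕ Fin 2 := Sum.inl (r, Sum.inr ())

/-- the orientation -/
private noncomputable def Tout : TW L ⊕ Fin 2 → Finset (TW L ⊕ Fin 2)
  | Sum.inl (r, Sum.inl i) => if r = 0 ∧ i.1 + 1 = 2 * L then
      insert (TA L r i.1) (insert (TA L 1 (2 * L)) {TC L 1}) else {TA L r i.1}
  | Sum.inl (r, Sum.inr _) => if r = 0 then insert (TA L 1 (2 * L)) {TC L 1} else ∅
  | Sum.inr _ => ∅

private def Trank : TW L ⊕ Fin 2 → ℕ
  | Sum.inl (r, Sum.inl i) => if r = 0 then 2 * L + 1 + (i.1 + 1) else i.1 + 1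
  | Sum.inl (r, Sum.inr _) => if r = 0 then 2 * L + 1 else 0
  | Sum.inr _ => 0

private lemma TA_succ {L : ℕ} (r : Fin 2) {m : ℕ} (h : m < 2 * L) :
    TA L r (m + 1) = Sum.inl (r, Sum.inl ⟨m, h⟩) := by
  simp [TA, h]

private lemma Trank_TA1 {m : ℕ} (hm : m ≤ 2 * L) : Trank L (TA L 1 m) ≤ 2 * L := by
  rcases m with _ | m
  · simp [TA, Trank]
  · rw [TA_succ 1 (by omega : m < 2 * L)]
    simp [Trank]
    omega

private lemma Trank_step (r : Fin 2) (i : Fin (2 * L)) :
    Trank L (TA L r i.1) < Trank L (Sum.inl (r, Sum.inl i)) := by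
  obtain ⟨m, hm⟩ := i
  rcases m with _ | m
  · simp only [TA, Trank]
    split_ifs <;> omega
  · simp only
    rw [TA_succ r (by omega : m < 2 * L)]
    simp only [Trank]
    split_ifs <;> omega

private lemma Trank_lt : ∀ x, ∀ y ∈ Tout L x, Trank L y < Trank L x := by
  rintro (⟨r, (i | l)⟩ | x) y hy
  · simp only [Tout] at hy
    split_ifs at hy with h
    · rw [mem_insert, mem_insert, mem_singleton] at hy
      rcases hy with rfl | rfl | rfl
      · exact Trank_step L r i
      · refine lt_of_le_of_lt (Trank_TA1 L le_rfl) ?_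
        simp only [Trank, if_pos h.1]
        omega
      · simp [Trank, TC, h.1]
    · rw [mem_singleton] at hy
      subst hy
      exact Trank_step L r i
  · simp only [Tout] at hy
    split_ifs at hy with h
    · rw [mem_insert, mem_singleton] at hy
      rcases hy with rfl | rfl
      · refine lt_of_le_of_lt (Trank_TA1 L le_rfl) ?_
        simp only [Trank, if_pos h]
        omega
      · simp [Trank, TC, h]
    · exact absurd hy (notMem_empty _)
  · simp [Tout] at hy

/-- the gadget -/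
private noncomputable def TF : SimpleGraph (TW L ⊕ Fin 2) :=
  orientGraph (Tout L) (Trank L) (Trank_lt L)

end two

section count

variable {L : ℕ}

private noncomputable def Tal (U : Finset (TW L)) (r : Fin 2) (n : ℕ) : ℤ :=
  if InS U (TA L r n) then 1 else 0

private noncomputable def Tin (U : Finset (TW L)) (w : TW L) : ℤ := if w ∈ U then 1 else 0

private lemma Tin_a (U : Finset (TW L)) (r : Fin 2) (i : Fin (2 * L)) :
    Tin U (r, Sum.inl i) = Tal U r (i.1 + 1) := by
  unfold Tin Tal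
  rw [TA_succ r i.2]
  have h1 : InS U (Sum.inl (r, Sum.inl ⟨i.1, i.2⟩)) ↔ (r, Sum.inl i) ∈ U := Iff.rfl
  simp only [h1]

private lemma Tsum_U (U : Finset (TW L)) (c : TW L → ℤ) :
    ∑ w ∈ U, c w = ∑ r : Fin 2, (∑ i : Fin (2 * L), Tin U (r, Sum.inl i) * c (r, Sum.inl i) +
      Tin U (r, Sum.inr ()) * c (r, Sum.inr ())) := by
  have h1 : ∑ w ∈ U, c w = ∑ w : TW L, Tin U w * c w := by
    unfold Tin
    simp only [ite_mul, one_mul, zero_mul]
    rw [← sum_filter]
    refine sum_congr ?_ fun _ _ => rfl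
    ext w
    simp
  rw [h1, Fintype.sum_prod_type]
  refine sum_congr rfl fun i _ => ?_
  rw [Fintype.sum_sum_type]
  simp

private lemma TA_ne_C (r r' : Fin 2) (m : ℕ) : TA L r m ≠ TC L r' := by
  rcases m with _ | m
  · simp [TA, TC]
  · simp only [TA, TC]
    split_ifs <;> simp

private lemma TA_ne_TA (r r' : Fin 2) (h : r ≠ r') (m m' : ℕ) : TA L r m ≠ TA L r' m' := by
  rcases m with _ | m <;> rcases m' with _ | m'
  · simpa [TA] using h
  · simp only [TA]
    split_ifs <;> simp [h]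
  · simp only [TA]
    split_ifs <;> simp [h]
  · simp only [TA]
    split_ifs <;> simp [h]

private lemma TA_inj (r : Fin 2) {m m' : ℕ} (hm : m ≤ 2 * L) (hm' : m' ≤ 2 * L)
    (h : TA L r m = TA L r m') : m = m' := by
  rcases m with _ | m <;> rcases m' with _ | m'
  · rfl
  · rw [TA_succ r (by omega : m' < 2 * L)] at h
    simp [TA] at h
  · rw [TA_succ r (by omega : m < 2 * L)] at h
    simp [TA] at h
  · rw [TA_succ r (by omega : m < 2 * L), TA_succ r (by omega : m' < 2 * L)] at h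
    simpa using h

private lemma Tcard_pair (U : Finset (TW L)) (x y : TW L ⊕ Fin 2) (h : x ≠ y) :
    ((({x, y} : Finset (TW L ⊕ Fin 2)).filter (InS U)).card : ℤ) =
      (if InS U x then 1 else 0) + (if InS U y then 1 else 0) := by
  rw [card_filter, sum_insert (by simpa using h), sum_singleton]
  push_cast
  rfl

private lemma Tcard_a (U : Finset (TW L)) (r : Fin 2) (i : Fin (2 * L)) :
    (((Tout L (Sum.inl (r, Sum.inl i))).filter (InS U)).card : ℤ) =
      Tal U r i.1 + (if r = 0 ∧ i.1 + 1 = 2 * L then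
        Tal U 1 (2 * L) + Tin U (1, Sum.inr ()) else 0) := by
  simp only [Tout]
  split_ifs with h
  · rw [card_filter, sum_insert, sum_insert (by simpa using TA_ne_C 1 1 (2 * L)), sum_singleton]
    · push_cast
      unfold Tal Tin TC
      have h1 : InS U (Sum.inl ((1 : Fin 2), Sum.inr ())) ↔ (1, Sum.inr ()) ∈ U := Iff.rfl
      simp only [h1]
    · rw [mem_insert, mem_singleton]
      rintro (h' | h')
      · exact TA_ne_TA r 1 (by rw [h.1]; decide) _ _ h'
      · exact TA_ne_C _ _ _ h'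
  · rw [card_filter, sum_singleton]
    push_cast
    unfold Tal
    rw [add_zero]

private lemma Tcard_c (U : Finset (TW L)) (r : Fin 2) :
    (((Tout L (Sum.inl (r, Sum.inr ()))).filter (InS U)).card : ℤ) =
      if r = 0 then Tal U 1 (2 * L) + Tin U (1, Sum.inr ()) else 0 := by
  simp only [Tout]
  split_ifs with h
  · rw [card_filter, sum_insert (by simpa using TA_ne_C 1 1 (2 * L)), sum_singleton]
    push_cast
    unfold Tal Tin TC
    have h1 : InS U (Sum.inl ((1 : Fin 2), Sum.inr ())) ↔ (1, Sum.inr ()) ∈ U := Iff.rfl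
    simp only [h1]
  · simp

private lemma Tcount_e (hL : 1 ≤ L) (U : Finset (TW L)) :
    (eR (TF L) U : ℤ) = ∑ i : Fin (2 * L), Tal U 0 (i.1 + 1) * Tal U 0 i.1 +
      ∑ i : Fin (2 * L), Tal U 1 (i.1 + 1) * Tal U 1 i.1 +
      (Tal U 0 (2 * L) + Tin U (0, Sum.inr ())) * (Tal U 1 (2 * L) + Tin U (1, Sum.inr ())) := by
  unfold TF
  rw [eR_orientGraph _ _ _ (fun r => rfl)]
  push_cast
  rw [Tsum_U, Fin.sum_univ_two]
  simp only [Tcard_a, Tcard_c, Tin_a, true_and, if_true]
  have h0 : ∑ i : Fin (2 * L), Tal U 0 (i.1 + 1) * (Tal U 0 i.1 +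
      if i.1 + 1 = 2 * L then
        Tal U 1 (2 * L) + Tin U (1, Sum.inr ()) else 0) =
      ∑ i : Fin (2 * L), Tal U 0 (i.1 + 1) * Tal U 0 i.1 +
        Tal U 0 (2 * L) * (Tal U 1 (2 * L) + Tin U (1, Sum.inr ())) := by
    simp only [mul_add, sum_add_distrib]
    congr 1
    have h1 : 2 * L - 1 < 2 * L := by omega
    rw [sum_eq_single (⟨2 * L - 1, h1⟩ : Fin (2 * L))]
    · have h2 : 2 * L - 1 + 1 = 2 * L := by omega
      simp only [h2, if_true]
      ring
    · intro i _ hi
      rw [if_neg, mul_zero]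
      intro h
      apply hi
      apply Fin.ext
      simp only
      omega
    · intro h
      exact absurd (mem_univ _) h
  rw [h0]
  simp
  ring

private lemma Tcount_c (U : Finset (TW L)) :
    (U.card : ℤ) = ∑ i : Fin (2 * L), Tal U 0 (i.1 + 1) + ∑ i : Fin (2 * L), Tal U 1 (i.1 + 1) +
      Tin U (0, Sum.inr ()) + Tin U (1, Sum.inr ()) := by
  rw [card_eq_sum_ones]
  push_cast
  rw [Tsum_U, Fin.sum_univ_two]
  simp only [mul_one, Tin_a]
  ring

/-- up-steps -/
private lemma Tup (a : ℕ → ℤ) (ha : ∀ n, a n = 0 ∨ a n = 1) (i j : ℕ) (hij : i ≤ j) :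
    a j - a i ≤ ∑ k ∈ Ico i j, a (k + 1) * (1 - a k) := by
  induction j, hij using Nat.le_induction with
  | base => simp
  | succ j hij ih =>
    rw [sum_Ico_succ_top hij]
    rcases ha j with h | h <;> rcases ha (j + 1) with h' | h' <;> rw [h, h'] <;> rw [h] at ih <;>
      linarith

private lemma Tarm (a : ℕ → ℤ) (ha : ∀ n, a n = 0 ∨ a n = 1) (n : ℕ) (hn : a n = 1)
    (hs : ∑ k ∈ range n, a (k + 1) * (1 - a k) ≤ 0) : (n : ℤ) ≤ ∑ k ∈ range n, a (k + 1) * a k := by
  have hnn : ∀ k, 0 ≤ a (k + 1) * (1 - a k) := by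
    intro k
    rcases ha k with h | h <;> rcases ha (k + 1) with h' | h' <;> rw [h, h'] <;> norm_num
  have h1 : ∀ i ≤ n, a i = 1 := by
    intro i hi
    by_contra hcon
    have h0 : a i = 0 := (ha i).resolve_right hcon
    have h2 := Tup a ha i n hi
    have h3 : ∑ k ∈ Ico i n, a (k + 1) * (1 - a k) ≤ ∑ k ∈ range n, a (k + 1) * (1 - a k) := by
      apply sum_le_sum_of_subset_of_nonneg
      · intro k hk
        rw [mem_Ico] at hk
        rw [mem_range]
        exact hk.2
      · intro k _ _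
        exact hnn k
    rw [hn, h0] at h2
    linarith
  have h2 : ∑ k ∈ range n, a (k + 1) * a k = ∑ _k ∈ range n, (1 : ℤ) := by
    apply sum_congr rfl
    intro k hk
    rw [mem_range] at hk
    rw [h1 k (by omega), h1 (k + 1) (by omega)]
    norm_num
  rw [h2]
  simp

private lemma Tarith (L : ℕ) (a b : ℕ → ℤ) (ha : ∀ n, a n = 0 ∨ a n = 1)
    (hb : ∀ n, b n = 0 ∨ b n = 1) (x y : ℤ) (hx : x = 0 ∨ x = 1) (hy : y = 0 ∨ y = 1) (c e : ℤ)
    (he : e = ∑ i ∈ range (2 * L), a (i + 1) * a i + ∑ i ∈ range (2 * L), b (i + 1) * b i +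
      (a (2 * L) + x) * (b (2 * L) + y))
    (hc : c = ∑ i ∈ range (2 * L), a (i + 1) + ∑ i ∈ range (2 * L), b (i + 1) + x + y) :
    e ≤ c ∨ (e ≤ c + 2 ∧ (L : ℤ) ≤ e + 2) := by
  have key : ∀ (a : ℕ → ℤ), ∑ i ∈ range (2 * L), a (i + 1) * (1 - a i) =
      ∑ i ∈ range (2 * L), a (i + 1) - ∑ i ∈ range (2 * L), a (i + 1) * a i := by
    intro a
    rw [← sum_sub_distrib]
    exact sum_congr rfl fun i _ => by ring
  have hnn : ∀ (a : ℕ → ℤ), (∀ n, a n = 0 ∨ a n = 1) →
      0 ≤ ∑ i ∈ range (2 * L), a (i + 1) * (1 - a i) := by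
    intro a ha
    refine sum_nonneg fun k _ => ?_
    rcases ha k with h | h <;> rcases ha (k + 1) with h' | h' <;> rw [h, h'] <;> norm_num
  have hnp : ∀ (a : ℕ → ℤ), (∀ n, a n = 0 ∨ a n = 1) →
      0 ≤ ∑ i ∈ range (2 * L), a (i + 1) * a i := by
    intro a ha
    refine sum_nonneg fun k _ => ?_
    rcases ha k with h | h <;> rcases ha (k + 1) with h' | h' <;> rw [h, h'] <;> norm_num
  have ka := key a
  have kb := key b
  have na := hnn a ha
  have nb := hnn b hb
  have pa := hnp a ha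
  have pb := hnp b hb
  have ta := Tarm a ha (2 * L)
  have tb := Tarm b hb (2 * L)
  rcases ha (2 * L) with h1 | h1 <;> rcases hb (2 * L) with h2 | h2 <;>
    rcases hx with h3 | h3 <;> rcases hy with h4 | h4 <;> rw [h1, h2, h3, h4] at he <;>
    rw [h3, h4] at hc
  all_goals first
    | (left; linarith)
    | skip
  all_goals
    by_cases hh : ∑ i ∈ range (2 * L), a (i + 1) * (1 - a i) ≤ 0
    · right
      have := ta h1 hh
      push_cast at this
      constructor <;> linarith
    · by_cases hh' : ∑ i ∈ range (2 * L), b (i + 1) * (1 - b i) ≤ 0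
      · right
        have := tb h2 hh'
        push_cast at this
        constructor <;> linarith
      · left
        push Not at hh hh'
        linarith [Int.add_one_le_iff.2 hh, Int.add_one_le_iff.2 hh']

private lemma Tdich (hL : 1 ≤ L) (U : Finset (TW L)) :
    1 * eR (TF L) U ≤ 1 * U.card ∨ (1 * eR (TF L) U ≤ 1 * U.card + 2 ∧ L ≤ eR (TF L) U + 2) := by
  have hal : ∀ r n, Tal U r n = 0 ∨ Tal U r n = 1 := fun r n => by
    unfold Tal; split_ifs <;> simp
  have hin : ∀ w, Tin U w = 0 ∨ Tin U w = 1 := fun w => by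
    unfold Tin; split_ifs <;> simp
  have he := Tcount_e hL U
  have hc := Tcount_c U
  simp only [Fin.sum_univ_eq_sum_range (fun i => Tal U 0 (i + 1) * Tal U 0 i),
    Fin.sum_univ_eq_sum_range (fun i => Tal U 1 (i + 1) * Tal U 1 i)] at he
  simp only [Fin.sum_univ_eq_sum_range (fun i => Tal U 0 (i + 1)),
    Fin.sum_univ_eq_sum_range (fun i => Tal U 1 (i + 1))] at hc
  have h := Tarith L (Tal U 0) (Tal U 1) (hal 0) (hal 1) _ _ (hin _) (hin _) _ _ he hc
  omega

end count

section process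

variable {L : ℕ} {V : Type}

private lemma TF_adj_arm (r : Fin 2) {m : ℕ} (hm : m < 2 * L) :
    (TF L).Adj (TA L r m) (TA L r (m + 1)) := by
  right
  rw [TA_succ r hm]
  simp only [Tout]
  split_ifs
  · exact mem_insert_self _ _
  · exact mem_singleton_self _

private lemma TA_last (hL : 1 ≤ L) (r : Fin 2) : TA L r (2 * L) =
    Sum.inl (r, Sum.inl ⟨2 * L - 1, by omega⟩) := by
  have h := TA_succ (L := L) r (m := 2 * L - 1) (by omega)
  rw [← h]
  congr 1
  omega

private lemma Tout_last (hL : 1 ≤ L) : Tout L (TA L 0 (2 * L)) =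
    insert (TA L 0 (2 * L - 1)) (insert (TA L 1 (2 * L)) {TC L 1}) := by
  rw [TA_last hL 0]
  have h : (0 : Fin 2) = 0 ∧ 2 * L - 1 + 1 = 2 * L := ⟨rfl, by omega⟩
  show (if (0 : Fin 2) = 0 ∧ 2 * L - 1 + 1 = 2 * L then
      insert (TA L 0 (2 * L - 1)) (insert (TA L 1 (2 * L)) {TC L 1}) else
      {TA L 0 (2 * L - 1)}) = _
  rw [if_pos h]

private lemma Tout_C : Tout L (TC L 0) = insert (TA L 1 (2 * L)) {TC L 1} := by
  show (if (0 : Fin 2) = 0 then insert (TA L 1 (2 * L)) {TC L 1} else ∅) = _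
  rw [if_pos rfl]

private lemma TF_adj_AA (hL : 1 ≤ L) : (TF L).Adj (TA L 0 (2 * L)) (TA L 1 (2 * L)) := by
  left
  rw [Tout_last hL, mem_insert, mem_insert]
  right; left; rfl

private lemma TF_adj_AC (hL : 1 ≤ L) : (TF L).Adj (TA L 0 (2 * L)) (TC L 1) := by
  left
  rw [Tout_last hL, mem_insert, mem_insert, mem_singleton]
  right; right; rfl

private lemma TF_adj_CA : (TF L).Adj (TC L 0) (TA L 1 (2 * L)) := by
  left
  rw [Tout_C, mem_insert]
  left; rfl

private lemma TF_adj_CC : (TF L).Adj (TC L 0) (TC L 1) := by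
  left
  rw [Tout_C, mem_insert, mem_singleton]
  right; rfl

private lemma step22 {G : SimpleGraph V} {a b c d : V} (hac : a ≠ c) (hbd : b ≠ d) (had : a ≠ d)
    (hab : a ≠ b) (hcb : c ≠ b) (hcd : c ≠ d) (h1 : InClosure (Kst 2 2) G s(a, b))
    (h2 : InClosure (Kst 2 2) G s(b, c)) (h3 : InClosure (Kst 2 2) G s(c, d)) :
    InClosure (Kst 2 2) G s(a, d) := by
  refine closure_step (X := {a, c}) (Y := {b, d}) (card_pair hac) (card_pair hbd) ?_
    (mem_insert_self _ _) (mem_insert_of_mem (mem_singleton_self _)) ?_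
  · rw [Finset.disjoint_left]
    intro x hx hy
    rw [mem_insert, mem_singleton] at hx hy
    rcases hx with rfl | rfl <;> rcases hy with hy | hy
    · exact hab hy
    · exact had hy
    · exact hcb hy
    · exact hcd hy
  · intro x hx y hy hne
    rw [mem_insert, mem_singleton] at hx hy
    rcases hx with rfl | rfl <;> rcases hy with rfl | rfl
    · exact h1
    · rcases hne with h | h <;> exact absurd rfl h
    · rw [Sym2.eq_swap]; exact h2
    · exact h3

private lemma step23 {G : SimpleGraph V} {p q y1 y2 z : V} (hy : y1 ≠ y2) (hp1 : p ≠ y1)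
    (hp2 : p ≠ y2) (hq1 : q ≠ y1) (hq2 : q ≠ y2) (hzp : z ≠ p) (hzq : z ≠ q) (hz1 : z ≠ y1)
    (hz2 : z ≠ y2) (h1 : InClosure (Kst 2 3) G s(p, y1)) (h2 : InClosure (Kst 2 3) G s(p, y2))
    (h3 : InClosure (Kst 2 3) G s(q, y1)) (h4 : InClosure (Kst 2 3) G s(q, y2))
    (h5 : InClosure (Kst 2 3) G s(z, q)) : InClosure (Kst 2 3) G s(z, p) := by
  by_cases hpq : p = q
  · rw [hpq]; exact h5
  rw [Sym2.eq_swap]
  have hY : ({z, y1, y2} : Finset V).card = 3 := by
    rw [card_insert_of_notMem, card_pair hy]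
    rw [mem_insert, mem_singleton]
    push Not
    exact ⟨hz1, hz2⟩
  refine closure_step (X := {p, q}) (Y := {z, y1, y2}) (card_pair hpq) hY ?_
    (mem_insert_self _ _) (mem_insert_self _ _) ?_
  · rw [Finset.disjoint_left]
    intro x hx hy'
    rw [mem_insert, mem_singleton] at hx
    rw [mem_insert, mem_insert, mem_singleton] at hy'
    rcases hx with rfl | rfl <;> rcases hy' with hy' | hy' | hy'
    · exact hzp hy'.symm
    · exact hp1 hy'
    · exact hp2 hy'
    · exact hzq hy'.symm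
    · exact hq1 hy'
    · exact hq2 hy'
  · intro x hx y hy' hne
    rw [mem_insert, mem_singleton] at hx
    rw [mem_insert, mem_insert, mem_singleton] at hy'
    rcases hx with rfl | rfl <;> rcases hy' with rfl | rfl | rfl
    · rcases hne with h | h <;> exact absurd rfl h
    · exact h1
    · exact h2
    · rw [Sym2.eq_swap]; exact h5
    · exact h3
    · exact h4

/-- moving along an arm, `K_{2,2}` -/
private lemma arm22 {G : SimpleGraph V} (f : (TW L ⊕ Fin 2) ↪ V)
    (hadj : ∀ x y, (TF L).Adj x y → G.Adj (f x) (f y)) (r : Fin 2) (x : V)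
    (hx : ∀ m, x ≠ f (TA L r m)) (h : InClosure (Kst 2 2) G s(f (TA L r (2 * L)), x)) :
    InClosure (Kst 2 2) G s(f (TA L r 0), x) := by
  have key : ∀ d m : ℕ, m + d = L → InClosure (Kst 2 2) G s(f (TA L r (2 * m)), x) := by
    intro d
    induction d with
    | zero =>
      intro m hm
      rw [add_zero] at hm
      rw [hm]
      exact h
    | succ d ih =>
      intro m hm
      have ih' := ih (m + 1) (by omega)
      have hne : ∀ i j : ℕ, i ≤ 2 * L → j ≤ 2 * L → i ≠ j → f (TA L r i) ≠ f (TA L r j) :=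
        fun i j hi hj hij he => hij (TA_inj r hi hj (f.injective he))
      refine step22 (b := f (TA L r (2 * m + 1))) (c := f (TA L r (2 * m + 2)))
        (hne _ _ (by omega) (by omega) (by omega)) (hx _).symm (hx _).symm
        (hne _ _ (by omega) (by omega) (by omega)) (hne _ _ (by omega) (by omega) (by omega))
        (hx _).symm ?_ ?_ ih'
      · exact InClosure.base (hadj _ _ (TF_adj_arm r (by omega)))
      · exact InClosure.base (hadj _ _ (TF_adj_arm r (by omega)))
  exact key L 0 (by omega)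

/-- moving along an arm, `K_{2,3}` -/
private lemma arm23 {G : SimpleGraph V} (f : (TW L ⊕ Fin 2) ↪ V)
    (hadj : ∀ x y, (TF L).Adj x y → G.Adj (f x) (f y)) (r : Fin 2) (q p1 p2 : V)
    (hqm : ∀ m, q ≠ f (TA L r m)) (hp1m : ∀ m, p1 ≠ f (TA L r m))
    (hp2m : ∀ m, p2 ≠ f (TA L r m)) (hqp1 : q ≠ p1) (hqp2 : q ≠ p2) (hp : p1 ≠ p2)
    (h1 : InClosure (Kst 2 3) G s(f (TA L r (2 * L)), p1))
    (h2 : InClosure (Kst 2 3) G s(f (TA L r (2 * L)), p2))
    (h3 : InClosure (Kst 2 3) G s(q, p1)) (h4 : InClosure (Kst 2 3) G s(q, p2)) :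
    InClosure (Kst 2 3) G s(f (TA L r 0), p1) ∧ InClosure (Kst 2 3) G s(f (TA L r 0), p2) := by
  have key : ∀ d m : ℕ, m + d = L → InClosure (Kst 2 3) G s(f (TA L r (2 * m)), p1) ∧
      InClosure (Kst 2 3) G s(f (TA L r (2 * m)), p2) := by
    intro d
    induction d with
    | zero =>
      intro m hm
      rw [add_zero] at hm
      rw [hm]
      exact ⟨h1, h2⟩
    | succ d ih =>
      intro m hm
      obtain ⟨i1, i2⟩ := ih (m + 1) (by omega)
      have hne : ∀ i j : ℕ, i ≤ 2 * L → j ≤ 2 * L → i ≠ j → f (TA L r i) ≠ f (TA L r j) :=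
        fun i j hi hj hij he => hij (TA_inj r hi hj (f.injective he))
      have e1 : InClosure (Kst 2 3) G s(f (TA L r (2 * m + 1)), f (TA L r (2 * (m + 1)))) :=
        InClosure.base (hadj _ _ (TF_adj_arm r (by omega)))
      have e0 : InClosure (Kst 2 3) G s(f (TA L r (2 * m)), f (TA L r (2 * m + 1))) :=
        InClosure.base (hadj _ _ (TF_adj_arm r (by omega)))
      -- the odd vertex is adjacent to both vertices of the near class
      have o1 : InClosure (Kst 2 3) G s(f (TA L r (2 * m + 1)), f (TA L r (2 * L))) :=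
        step23 (y1 := p1) (y2 := p2) hp (hp1m _).symm (hp2m _).symm (hp1m _).symm (hp2m _).symm
          (hne _ _ (by omega) (by omega) (by omega)) (hne _ _ (by omega) (by omega) (by omega))
          (hp1m _).symm (hp2m _).symm h1 h2 i1 i2 e1
      have o2 : InClosure (Kst 2 3) G s(f (TA L r (2 * m + 1)), q) :=
        step23 (y1 := p1) (y2 := p2) hp hqp1 hqp2 (hp1m _).symm (hp2m _).symm (hqm _).symm
          (hne _ _ (by omega) (by omega) (by omega)) (hp1m _).symm (hp2m _).symm h3 h4 i1 i2 e1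
      have hsw : ∀ {a b : V}, InClosure (Kst 2 3) G s(a, b) → InClosure (Kst 2 3) G s(b, a) :=
        fun h => by rw [Sym2.eq_swap]; exact h
      constructor
      · exact step23 (y1 := f (TA L r (2 * L))) (y2 := q) (hqm _).symm (hp1m _) hqp1.symm
          (hne _ _ (by omega) (by omega) (by omega)) (hqm _).symm (hp1m _).symm
          (hne _ _ (by omega) (by omega) (by omega)) (hne _ _ (by omega) (by omega) (by omega))
          (hqm _).symm (hsw h1) (hsw h3) o1 o2 e0
      · exact step23 (y1 := f (TA L r (2 * L))) (y2 := q) (hqm _).symm (hp2m _) hqp2.symm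
          (hne _ _ (by omega) (by omega) (by omega)) (hqm _).symm (hp2m _).symm
          (hne _ _ (by omega) (by omega) (by omega)) (hne _ _ (by omega) (by omega) (by omega))
          (hqm _).symm (hsw h2) (hsw h4) o1 o2 e0
  exact key L 0 (by omega)

end process

private lemma TW_card (L : ℕ) : Fintype.card (TW L) ≤ 6 * L + 2 := by
  rw [Fintype.card_prod, Fintype.card_fin, Fintype.card_sum, Fintype.card_fin, Fintype.card_unit]
  omega

theorem hasGadgets_22 : HasGadgets (Kst 2 2) 1 1 := by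
  refine ⟨8, 2, fun L hL => ⟨TW L, inferInstance, TF L, ?_, ?_, fun U => Tdich hL U, ?_⟩⟩
  · exact (TW_card L).trans (by omega)
  · rintro (h | h) <;> exact absurd h (notMem_empty _)
  · intro V _ G u v huv ⟨f, hf0, hf1, hadj⟩
    have h0 : InClosure (Kst 2 2) G s(f (TA L 0 (2 * L)), f (TA L 1 (2 * L))) :=
      InClosure.base (hadj _ _ (TF_adj_AA hL))
    have h1 := arm22 f hadj 0 (f (TA L 1 (2 * L)))
      (fun m he => TA_ne_TA 1 0 (by decide) _ _ (f.injective he)) h0
    rw [Sym2.eq_swap] at h1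
    have h2 := arm22 f hadj 1 (f (TA L 0 0))
      (fun m he => TA_ne_TA 0 1 (by decide) _ _ (f.injective he)) h1
    have e0 : f (TA L 0 0) = u := hf0
    have e1 : f (TA L 1 0) = v := hf1
    rw [e0, e1, Sym2.eq_swap] at h2
    exact h2

theorem hasGadgets_23 : HasGadgets (Kst 2 3) 1 1 := by
  refine ⟨8, 2, fun L hL => ⟨TW L, inferInstance, TF L, ?_, ?_, fun U => Tdich hL U, ?_⟩⟩
  · exact (TW_card L).trans (by omega)
  · rintro (h | h) <;> exact absurd h (notMem_empty _)
  · intro V _ G u v huv ⟨f, hf0, hf1, hadj⟩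
    have hsw : ∀ {a b : V}, InClosure (Kst 2 3) G s(a, b) → InClosure (Kst 2 3) G s(b, a) :=
      fun h => by rw [Sym2.eq_swap]; exact h
    have hAA : InClosure (Kst 2 3) G s(f (TA L 0 (2 * L)), f (TA L 1 (2 * L))) :=
      InClosure.base (hadj _ _ (TF_adj_AA hL))
    have hAC : InClosure (Kst 2 3) G s(f (TA L 0 (2 * L)), f (TC L 1)) :=
      InClosure.base (hadj _ _ (TF_adj_AC hL))
    have hCA : InClosure (Kst 2 3) G s(f (TC L 0), f (TA L 1 (2 * L))) :=
      InClosure.base (hadj _ _ TF_adj_CA)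
    have hCC : InClosure (Kst 2 3) G s(f (TC L 0), f (TC L 1)) :=
      InClosure.base (hadj _ _ TF_adj_CC)
    have nC : ∀ r r' m, f (TC L r) ≠ f (TA L r' m) := fun r r' m he =>
      TA_ne_C r' r m (f.injective he).symm
    have nA : ∀ r r', r ≠ r' → ∀ m m', f (TA L r m) ≠ f (TA L r' m') := fun r r' h m m' he =>
      TA_ne_TA r r' h m m' (f.injective he)
    have nCC : f (TC L 0) ≠ f (TC L 1) := fun he => by
      have := f.injective he
      simp [TC] at this
    obtain ⟨a1, a2⟩ := arm23 f hadj 0 (f (TC L 0)) (f (TA L 1 (2 * L))) (f (TC L 1))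
      (nC 0 0) (nA 1 0 (by decide) _) (nC 1 0) (nC 0 1 _) nCC (nC 1 1 _).symm hAA hAC hCA hCC
    obtain ⟨b1, b2⟩ := arm23 f hadj 1 (f (TC L 1)) (f (TA L 0 (2 * L))) (f (TC L 0))
      (nC 1 1) (nA 0 1 (by decide) _) (nC 0 1) (nC 1 0 _) nCC.symm (nC 0 0 _).symm
      (hsw hAA) (hsw hCA) (hsw hAC) (hsw hCC)
    have h01 : TA L 0 0 ≠ TA L 0 (2 * L) := fun he => by
      have := TA_inj 0 (Nat.zero_le _) le_rfl he
      omega
    have h11 : TA L 1 0 ≠ TA L 1 (2 * L) := fun he => by
      have := TA_inj 1 (Nat.zero_le _) le_rfl he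
      omega
    have hfin : InClosure (Kst 2 3) G s(f (TA L 1 0), f (TA L 0 0)) :=
      step23 (q := f (TA L 0 (2 * L))) (y1 := f (TA L 1 (2 * L))) (y2 := f (TC L 1))
        (nC 1 1 _).symm (nA 0 1 (by decide) _ _) (nC 1 0 _).symm (nA 0 1 (by decide) _ _)
        (nC 1 0 _).symm (nA 1 0 (by decide) _ _) (nA 1 0 (by decide) _ _)
        (fun he => h11 (f.injective he)) (nC 1 1 _).symm a1 a2 hAA hAC b1
    have e0 : f (TA L 0 0) = u := hf0
    have e1 : f (TA L 1 0) = v := hf1
    rw [e0, e1, Sym2.eq_swap] at hfin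
    exact hfin

end MP30c94c
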