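import Mathlib
import Pool.Agent.Lib.MP30c94c.KProc

/-!
# Vectors attached to the vertices: definitions
-/

open SimpleGraph Finset

namespace MP30c94c

attribute [local instance] Classical.propDecidable

variable {V : Type} [Fintype V]

/-- the span of the vectors of `Y` -/
noncomputable def sp (p : V → V → ℚ) (Y : Finset V) : Submodule ℚ (V → ℚ) :=
  Submodule.span ℚ (p '' (Y : Set V))

/-- the rank of `Y` -/
noncomputable def rk (p : V → V → ℚ) (Y : Finset V) : ℕ := Module.finrank ℚ (sp p Y)

/-- the flat spanned by `Y` -/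
noncomputable def flt (p : V → V → ℚ) (Y : Finset V) : Finset V := univ.filter fun v => p v ∈ sp p Y

/-- `X` is a flat -/
def IsFlat (p : V → V → ℚ) (X : Finset V) : Prop := ∀ v, p v ∈ sp p X → v ∈ X

/-- the symmetric tensor `u v` -/
def symm2 (u v : V → ℚ) : Matrix V V ℚ := Matrix.vecMulVec u v + Matrix.vecMulVec v u

/-- the span of the edges inside `X` -/
noncomputable def EL (G : SimpleGraph V) (p : V → V → ℚ) (X : Finset V) :
    Submodule ℚ (Matrix V V ℚ) :=
  Submodule.span ℚ {M | ∃ u ∈ X, ∃ v ∈ X, G.Adj u v ∧ M = symm2 (p u) (p v)}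

/-- the dimension of the span of the edges inside `X` -/
noncomputable def ell (G : SimpleGraph V) (p : V → V → ℚ) (X : Finset V) : ℕ :=
  Module.finrank ℚ (EL G p X)

/-- the starting vectors: the standard basis -/
def basisVec (V : Type) [DecidableEq V] : V → V → ℚ := fun v => Pi.single v 1

end MP30c94c
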