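import Mathlib
import Pool.Agent.Lib.MP30c94c.KVecDefs

/-!
# Vectors attached to the vertices: basic lemmas on ranks and flats
-/

open SimpleGraph Finset

namespace MP30c94c

attribute [local instance] Classical.propDecidable

variable {V : Type} [Fintype V]

set_option linter.unusedSectionVars false

/-! ### ranks and flats -/

lemma sp_mono (p : V → V → ℚ) {X Y : Finset V} (h : X ⊆ Y) : sp p X ≤ sp p Y :=
  Submodule.span_mono (Set.image_mono (by exact_mod_cast h))

lemma sp_union (p : V → V → ℚ) (X Y : Finset V) : sp p (X ∪ Y) = sp p X ⊔ sp p Y := by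
  unfold sp
  rw [Finset.coe_union, Set.image_union, Submodule.span_union]

lemma mem_sp_self (p : V → V → ℚ) {X : Finset V} {v : V} (h : v ∈ X) : p v ∈ sp p X :=
  Submodule.subset_span ⟨v, by exact_mod_cast h, rfl⟩

lemma rk_mono (p : V → V → ℚ) {X Y : Finset V} (h : X ⊆ Y) : rk p X ≤ rk p Y :=
  Submodule.finrank_mono (sp_mono p h)

lemma rk_le_card (p : V → V → ℚ) (X : Finset V) : rk p X ≤ X.card := by
  unfold rk sp
  have h1 : (p '' (X : Set V)) = ((X.image p : Finset (V → ℚ)) : Set (V → ℚ)) := by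
    rw [Finset.coe_image]
  rw [h1]
  exact (finrank_span_finset_le_card _).trans Finset.card_image_le

private lemma sp_insert (p : V → V → ℚ) (X : Finset V) (v : V) :
    sp p (insert v X) = Submodule.span ℚ {p v} ⊔ sp p X := by
  unfold sp
  rw [Finset.coe_insert, Set.image_insert_eq, Submodule.span_insert]

private lemma sp_insert_of_mem {p : V → V → ℚ} {X : Finset V} {v : V} (h : p v ∈ sp p X) :
    sp p (insert v X) = sp p X := by
  rw [sp_insert]
  refine sup_eq_right.2 ?_
  rw [Submodule.span_singleton_le_iff_mem]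
  exact h

private lemma rk_eq_iff_sp_eq (p : V → V → ℚ) {X Y : Finset V} (h : X ⊆ Y) (hr : rk p Y ≤ rk p X) :
    sp p X = sp p Y :=
  Submodule.eq_of_le_of_finrank_le (sp_mono p h) hr

lemma rk_insert_le (p : V → V → ℚ) (X : Finset V) (v : V) :
    rk p (insert v X) ≤ rk p X + 1 := by
  unfold rk
  rw [sp_insert]
  have h1 := Submodule.finrank_add_le_finrank_add_finrank (Submodule.span ℚ {p v}) (sp p X)
  have h2 : Module.finrank ℚ (Submodule.span ℚ ({p v} : Set (V → ℚ))) ≤ 1 := by
    have := finrank_span_finset_le_card (R := ℚ) ({p v} : Finset (V → ℚ))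
    rw [Finset.coe_singleton, Finset.card_singleton] at this
    exact this
  omega

lemma rk_submod (p : V → V → ℚ) (X Y : Finset V) :
    rk p (X ∪ Y) + rk p (X ∩ Y) ≤ rk p X + rk p Y := by
  have h1 := Submodule.finrank_sup_add_finrank_inf_eq (sp p X) (sp p Y)
  have h2 : Module.finrank ℚ (sp p (X ∩ Y)) ≤
      Module.finrank ℚ ((sp p X ⊓ sp p Y : Submodule ℚ (V → ℚ))) :=
    Submodule.finrank_mono (le_inf (sp_mono p Finset.inter_subset_left)
      (sp_mono p Finset.inter_subset_right))
  unfold rk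
  rw [sp_union]
  omega

/-- relative ranks decrease when the base grows -/
lemma rk_rel (p : V → V → ℚ) {B A X : Finset V} (hBA : B ⊆ A) (hBX : B ⊆ X) :
    rk p (X ∪ A) + rk p B ≤ rk p X + rk p A := by
  have h1 := rk_submod p X A
  have h2 := rk_mono p (Finset.subset_inter hBX hBA)
  omega

lemma mem_flt {p : V → V → ℚ} {Y : Finset V} {v : V} : v ∈ flt p Y ↔ p v ∈ sp p Y := by
  unfold flt
  rw [Finset.mem_filter]
  exact ⟨fun h => h.2, fun h => ⟨Finset.mem_univ _, h⟩⟩

lemma mem_flt_iff_rk (p : V → V → ℚ) (Y : Finset V) (v : V) :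
    v ∈ flt p Y ↔ rk p (insert v Y) = rk p Y := by
  rw [mem_flt]
  constructor
  · intro h
    unfold rk
    rw [sp_insert_of_mem h]
  · intro h
    rw [rk_eq_iff_sp_eq p (Finset.subset_insert v Y) h.le]
    exact mem_sp_self p (Finset.mem_insert_self v Y)

lemma subset_flt (p : V → V → ℚ) (Y : Finset V) : Y ⊆ flt p Y := fun _ hv =>
  mem_flt.2 (mem_sp_self p hv)

lemma sp_flt (p : V → V → ℚ) (Y : Finset V) : sp p (flt p Y) = sp p Y := by
  refine le_antisymm ?_ (sp_mono p (subset_flt p Y))
  refine Submodule.span_le.2 ?_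
  rintro _ ⟨v, hv, rfl⟩
  exact mem_flt.1 (by exact_mod_cast hv)

lemma rk_flt (p : V → V → ℚ) (Y : Finset V) : rk p (flt p Y) = rk p Y := by
  unfold rk
  rw [sp_flt]

lemma flt_isFlat (p : V → V → ℚ) (Y : Finset V) : IsFlat p (flt p Y) := by
  intro v hv
  rw [sp_flt] at hv
  exact mem_flt.2 hv

lemma flt_mono (p : V → V → ℚ) {X Y : Finset V} (h : X ⊆ Y) : flt p X ⊆ flt p Y := by
  intro v hv
  exact mem_flt.2 (sp_mono p h (mem_flt.1 hv))

lemma IsFlat.flt_eq {p : V → V → ℚ} {X : Finset V} (h : IsFlat p X) : flt p X = X :=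
  Finset.Subset.antisymm (fun v hv => h v (mem_flt.1 hv)) (subset_flt p X)

lemma IsFlat.flt_subset {p : V → V → ℚ} {X Y : Finset V} (h : IsFlat p X) (hY : Y ⊆ X) :
    flt p Y ⊆ X := by
  have h1 := flt_mono p hY
  rwa [h.flt_eq] at h1

/-- a set of maximal rank in `X` spans `X` -/
lemma flt_eq_of_rk (p : V → V → ℚ) {X Y : Finset V} (hX : IsFlat p X) (hY : Y ⊆ X)
    (h : rk p X ≤ rk p Y) : flt p Y = X := by
  refine Finset.Subset.antisymm (hX.flt_subset hY) ?_
  intro v hv
  rw [mem_flt, rk_eq_iff_sp_eq p hY h]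
  exact mem_sp_self p hv

private lemma exists_ext_aux (p : V → V → ℚ) (X A : Finset V) :
    ∃ R ⊆ A, sp p (X ∪ R) = sp p (X ∪ A) ∧ rk p X + R.card = rk p (X ∪ A) ∧ Disjoint R X := by
  induction A using Finset.induction_on with
  | empty =>
    refine ⟨∅, Finset.Subset.refl _, rfl, ?_, Finset.disjoint_empty_left _⟩
    rw [Finset.card_empty, Finset.union_empty, add_zero]
  | insert a A ha ih =>
    obtain ⟨R, hRA, h1, h2, h3⟩ := ih
    have e1 : X ∪ insert a A = insert a (X ∪ A) := Finset.union_insert a X A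
    by_cases hp : p a ∈ sp p (X ∪ A)
    · refine ⟨R, hRA.trans (Finset.subset_insert a A), ?_, ?_, h3⟩
      · rw [e1, sp_insert_of_mem hp]
        exact h1
      · rw [h2, e1]
        unfold rk
        rw [sp_insert_of_mem hp]
    · have e2 : X ∪ insert a R = insert a (X ∪ R) := Finset.union_insert a X R
      have haR : a ∉ R := fun h => ha (hRA h)
      have haX : a ∉ X := fun h => hp (mem_sp_self p (Finset.mem_union_left A h))
      refine ⟨insert a R, Finset.insert_subset_insert a hRA, ?_, ?_, ?_⟩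
      · rw [e1, e2, sp_insert, sp_insert, h1]
      · rw [Finset.card_insert_of_notMem haR, e1]
        have h4 := rk_insert_le p (X ∪ A) a
        have h5 := rk_mono p (Finset.subset_insert a (X ∪ A))
        have h6 : rk p (insert a (X ∪ A)) ≠ rk p (X ∪ A) := by
          intro h
          exact hp (mem_flt.1 ((mem_flt_iff_rk p (X ∪ A) a).2 h))
        omega
      · rw [Finset.disjoint_insert_left]
        exact ⟨haX, h3⟩

/-- every set contains a basis -/
lemma exists_basis (p : V → V → ℚ) (X : Finset V) :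
    ∃ Y ⊆ X, Y.card = rk p X ∧ rk p Y = rk p X := by
  obtain ⟨R, hR, h1, h2, -⟩ := exists_ext_aux p ∅ X
  rw [Finset.empty_union, Finset.empty_union] at h1
  rw [Finset.empty_union] at h2
  have h3 : rk p ∅ = 0 := by
    have := rk_le_card p (∅ : Finset V)
    rw [Finset.card_empty] at this
    omega
  refine ⟨R, hR, by omega, ?_⟩
  unfold rk
  rw [h1]

/-- extension of a set to a spanning set by the minimal number of elements -/
lemma exists_extension (p : V → V → ℚ) (X A : Finset V) :
    ∃ R ⊆ A, rk p (X ∪ R) = rk p (X ∪ A) ∧ rk p X + R.card = rk p (X ∪ A) ∧ Disjoint R X := by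
  obtain ⟨R, hR, h1, h2, h3⟩ := exists_ext_aux p X A
  refine ⟨R, hR, ?_, h2, h3⟩
  unfold rk
  rw [h1]

lemma rk_basisVec (X : Finset V) : rk (basisVec V) X = X.card := by
  have hli : LinearIndependent ℚ (basisVec V) := by
    have h := (Pi.basisFun ℚ V).linearIndependent
    have h2 : (Pi.basisFun ℚ V : V → V → ℚ) = basisVec V := by
      funext v
      rw [Pi.basisFun_apply]
      rfl
    rw [← h2]
    exact h
  unfold rk sp
  have h1 : (basisVec V '' (X : Set V)) = ((X.image (basisVec V) : Finset (V → ℚ)) : Set (V → ℚ)) := by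
    rw [Finset.coe_image]
  rw [h1, finrank_span_finset_eq_card]
  · exact Finset.card_image_of_injective X hli.injective
  · rw [← h1]
    exact (hli.linearIndepOn (s := (X : Set V))).id_image

lemma isFlat_basisVec (X : Finset V) : IsFlat (basisVec V) X := by
  intro v hv
  by_contra hn
  have h1 := (mem_flt_iff_rk (basisVec V) X v).1 (mem_flt.2 hv)
  rw [rk_basisVec, rk_basisVec, Finset.card_insert_of_notMem hn] at h1
  omega

end MP30c94c
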