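import Mathlib
import Pool.Agent.Lib.MP30c94c.KVecA

/-!
# Vectors attached to the vertices: edge spans
-/

open SimpleGraph Finset

namespace MP30c94c

attribute [local instance] Classical.propDecidable

variable {V : Type} [Fintype V]

/-! ### edge spans -/

set_option linter.unusedSectionVars false

lemma symm2_comm (u v : V → ℚ) : symm2 u v = symm2 v u := by
  unfold symm2
  rw [add_comm]

lemma symm2_add (u v w : V → ℚ) : symm2 u (v + w) = symm2 u v + symm2 u w := by
  ext i j
  simp only [symm2, Matrix.add_apply, Matrix.vecMulVec_apply, Pi.add_apply]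
  ring

lemma symm2_smul (u v : V → ℚ) (c : ℚ) : symm2 u (c • v) = c • symm2 u v := by
  ext i j
  simp only [symm2, Matrix.add_apply, Matrix.vecMulVec_apply, Pi.smul_apply, Matrix.smul_apply,
    smul_eq_mul]
  ring

lemma symm2_zero (u : V → ℚ) : symm2 u 0 = 0 := by
  ext i j
  simp [symm2]

lemma symm2_mem_EL {G : SimpleGraph V} {p : V → V → ℚ} {X : Finset V} {u v : V} (hu : u ∈ X)
    (hv : v ∈ X) (h : G.Adj u v) : symm2 (p u) (p v) ∈ EL G p X :=
  Submodule.subset_span ⟨u, hu, v, hv, h, rfl⟩

lemma EL_mono (G : SimpleGraph V) (p : V → V → ℚ) {X Z : Finset V} (h : X ⊆ Z) :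
    EL G p X ≤ EL G p Z := by
  refine Submodule.span_mono ?_
  rintro M ⟨u, hu, v, hv, huv, rfl⟩
  exact ⟨u, h hu, v, h hv, huv, rfl⟩

lemma ell_mono (G : SimpleGraph V) (p : V → V → ℚ) {X Z : Finset V} (h : X ⊆ Z) :
    ell G p X ≤ ell G p Z :=
  Submodule.finrank_mono (EL_mono G p h)

lemma EL_mono_graph {G G' : SimpleGraph V} (h : G ≤ G') (p : V → V → ℚ) (X : Finset V) :
    EL G p X ≤ EL G' p X := by
  refine Submodule.span_mono ?_
  rintro M ⟨u, hu, v, hv, huv, rfl⟩
  exact ⟨u, hu, v, hv, h huv, rfl⟩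

lemma ell_mono_graph {G G' : SimpleGraph V} (h : G ≤ G') (p : V → V → ℚ) (X : Finset V) :
    ell G p X ≤ ell G' p X :=
  Submodule.finrank_mono (EL_mono_graph h p X)

lemma ell_le_eIn (G : SimpleGraph V) (p : V → V → ℚ) (X : Finset V) :
    ell G p X ≤ eIn G X := by
  let f : Sym2 V → Matrix V V ℚ :=
    Sym2.lift ⟨fun u v => symm2 (p u) (p v), fun u v => symm2_comm (p u) (p v)⟩
  let T : Finset (Matrix V V ℚ) := (G.edgeFinset.filter fun e => ∀ v ∈ e, v ∈ X).image f
  have h1 : EL G p X ≤ Submodule.span ℚ (T : Set (Matrix V V ℚ)) := by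
    refine Submodule.span_mono ?_
    rintro M ⟨u, hu, v, hv, huv, rfl⟩
    refine Finset.mem_coe.2 (Finset.mem_image.2 ⟨s(u, v), ?_, rfl⟩)
    rw [Finset.mem_filter, SimpleGraph.mem_edgeFinset, SimpleGraph.mem_edgeSet]
    refine ⟨huv, ?_⟩
    intro x hx
    rcases Sym2.mem_iff.1 hx with rfl | rfl
    · exact hu
    · exact hv
  calc ell G p X ≤ Module.finrank ℚ (Submodule.span ℚ (T : Set (Matrix V V ℚ))) :=
        Submodule.finrank_mono h1
    _ ≤ T.card := finrank_span_finset_le_card T
    _ ≤ eIn G X := Finset.card_image_le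

lemma symm2_ne_zero {a b : V → ℚ} (ha : a ≠ 0) (hb : b ≠ 0) : symm2 a b ≠ 0 := by
  intro h
  obtain ⟨i, hi⟩ := Function.ne_iff.1 ha
  obtain ⟨j, hj⟩ := Function.ne_iff.1 hb
  rw [Pi.zero_apply] at hi hj
  have h1 : ∀ k l, a k * b l + b k * a l = 0 := fun k l => congrFun (congrFun h k) l
  have h2 : b i = 0 := by
    have := h1 i i
    have h3 : a i * b i = 0 := by linarith
    rcases mul_eq_zero.1 h3 with h | h
    · exact absurd h hi
    · exact h
  have h4 := h1 i j
  rw [h2, zero_mul, add_zero] at h4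
  rcases mul_eq_zero.1 h4 with h | h
  · exact hi h
  · exact hj h

/-- an edge between independent vertices counts -/
lemma one_le_ell (G : SimpleGraph V) (p : V → V → ℚ) {X : Finset V} {u v : V} (hu : u ∈ X)
    (hv : v ∈ X) (h : G.Adj u v) (h0 : p u ≠ 0) (h0' : p v ≠ 0) : 1 ≤ ell G p X := by
  unfold ell
  rw [Submodule.one_le_finrank_iff]
  intro hbot
  have h1 := symm2_mem_EL (p := p) hu hv h
  rw [hbot, Submodule.mem_bot] at h1
  exact symm2_ne_zero h0 h0' h1

/-- rank-nullity for a submodule -/
lemma finrank_map_add_inf_ker {U W : Type} [AddCommGroup U] [Module ℚ U] [FiniteDimensional ℚ U]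
    [AddCommGroup W] [Module ℚ W] (f : U →ₗ[ℚ] W) (S : Submodule ℚ U) :
    Module.finrank ℚ (S.map f) + Module.finrank ℚ (S ⊓ LinearMap.ker f : Submodule ℚ U) =
      Module.finrank ℚ S := by
  have h := LinearMap.finrank_range_add_finrank_ker (f.domRestrict S)
  rw [LinearMap.range_domRestrict, LinearMap.ker_domRestrict] at h
  rw [← h, ← Submodule.map_comap_subtype, Submodule.finrank_map_subtype_eq]

/-- the tensor product bound -/
lemma finrank_mul_le {W : Type} [AddCommGroup W] [Module ℚ W] [FiniteDimensional ℚ W]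
    (B : Submodule ℚ (V → ℚ)) (Y : Submodule ℚ W) (E : Submodule ℚ (V → W))
    (h : ∀ b ∈ B, ∀ y ∈ Y, (fun j => b j • y) ∈ E) :
    Module.finrank ℚ B * Module.finrank ℚ Y ≤ Module.finrank ℚ E := by
  let β := Module.finBasis ℚ B
  let γ := Module.finBasis ℚ Y
  let f : Fin (Module.finrank ℚ B) × Fin (Module.finrank ℚ Y) → E := fun x =>
    ⟨fun j => (β x.1 : V → ℚ) j • (γ x.2 : W), h _ (β x.1).2 _ (γ x.2).2⟩
  have hf : LinearIndependent ℚ f := by
    rw [Fintype.linearIndependent_iff]
    intro g hg
    have h1 : ∀ j, ∀ k, ∑ i, g (i, k) * (β i : V → ℚ) j = 0 := by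
      intro j
      have h2 : ∑ x : Fin (Module.finrank ℚ B) × Fin (Module.finrank ℚ Y),
          g x • ((β x.1 : V → ℚ) j • (γ x.2 : W)) = 0 := by
        have h3 := congrArg (fun e : E => (e : V → W) j) hg
        simp only [Submodule.coe_sum, Finset.sum_apply, ZeroMemClass.coe_zero, Pi.zero_apply,
          Submodule.coe_smul, Pi.smul_apply] at h3
        exact h3
      have h4 : ∑ k, (∑ i, g (i, k) * (β i : V → ℚ) j) • γ k = 0 := by
        apply Subtype.ext
        rw [Submodule.coe_sum, ZeroMemClass.coe_zero, ← h2, Fintype.sum_prod_type_right]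
        refine Finset.sum_congr rfl fun k _ => ?_
        rw [Submodule.coe_smul, Finset.sum_smul]
        refine Finset.sum_congr rfl fun i _ => ?_
        rw [mul_smul]
      exact fun k => (Fintype.linearIndependent_iff.1 γ.linearIndependent) _ h4 k
    rintro ⟨i, k⟩
    have h5 : ∑ i, g (i, k) • β i = 0 := by
      apply Subtype.ext
      funext j
      rw [Submodule.coe_sum, Finset.sum_apply]
      exact h1 j k
    exact (Fintype.linearIndependent_iff.1 β.linearIndependent) _ h5 i
  have h6 := hf.fintype_card_le_finrank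
  rw [Fintype.card_prod, Fintype.card_fin, Fintype.card_fin] at h6
  exact h6

/-- EXTENSION: if every `v ∈ B` is adjacent to a subset of `Z` which together with `X` spans `D`,
then `ell` grows at least by `rk B * rk (D / X)`. -/
theorem ell_ext (G : SimpleGraph V) (p : V → V → ℚ) {X Z B D : Finset V} (hXZ : X ⊆ Z)
    (hB : B ⊆ X) (hD : ∀ v ∈ B, ∀ d ∈ D, d ∈ flt p (X ∪ Z.filter fun c => G.Adj v c)) :
    ell G p X + rk p B * (rk p (X ∪ D) - rk p X) ≤ ell G p Z := by
  let W := (V → ℚ) ⧸ sp p X
  let Q : (V → ℚ) →ₗ[ℚ] W := (sp p X).mkQ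
  let Θ : Matrix V V ℚ →ₗ[ℚ] (V → W) :=
    { toFun := fun M j => Q (fun i => M i j)
      map_add' := fun M N => by
        funext j
        exact map_add Q (fun i => M i j) (fun i => N i j)
      map_smul' := fun c M => by
        funext j
        exact map_smul Q c (fun i => M i j) }
  have hQX : ∀ x ∈ X, Q (p x) = 0 := by
    intro x hx
    exact (Submodule.Quotient.mk_eq_zero _).2 (mem_sp_self p hx)
  have hΘ : ∀ a b : V → ℚ, Θ (symm2 a b) = fun j => b j • Q a + a j • Q b := by
    intro a b
    funext j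
    change Q (fun i => a i * b j + b i * a j) = _
    rw [← map_smul, ← map_smul, ← map_add]
    congr 1
    funext i
    simp only [Pi.add_apply, Pi.smul_apply, smul_eq_mul]
    ring
  have hker : EL G p X ≤ EL G p Z ⊓ LinearMap.ker Θ := by
    refine le_inf (EL_mono G p hXZ) (Submodule.span_le.2 ?_)
    rintro M ⟨u, hu, v, hv, huv, rfl⟩
    change symm2 (p u) (p v) ∈ LinearMap.ker Θ
    rw [LinearMap.mem_ker, hΘ]
    funext j
    rw [hQX u hu, hQX v hv, smul_zero, smul_zero, add_zero]
    rfl
  let Y : Submodule ℚ W := (sp p D).map Q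
  have hY : rk p (X ∪ D) - rk p X ≤ Module.finrank ℚ Y := by
    have h1 := finrank_map_add_inf_ker Q (sp p (X ∪ D))
    have h2 : (sp p (X ∪ D)).map Q = Y := by
      rw [sp_union, Submodule.map_sup]
      have : (sp p X).map Q = ⊥ := Submodule.mkQ_map_self _
      rw [this, bot_sup_eq]
    have h3 : (sp p (X ∪ D)) ⊓ LinearMap.ker Q ≤ sp p X := by
      have : LinearMap.ker Q = sp p X := Submodule.ker_mkQ _
      rw [this]
      exact inf_le_right
    have h4 := Submodule.finrank_mono h3
    rw [h2] at h1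
    unfold rk
    omega
  have hE : ∀ b ∈ sp p B, ∀ y ∈ Y, (fun j => b j • y) ∈ (EL G p Z).map Θ := by
    intro b hb y hy
    induction hb using Submodule.span_induction with
    | mem b hb =>
      obtain ⟨v, hv, rfl⟩ := hb
      have hv' : v ∈ B := hv
      let lam : W →ₗ[ℚ] (V → W) :=
        { toFun := fun y j => p v j • y
          map_add' := fun y z => by
            funext j
            exact smul_add _ _ _
          map_smul' := fun c y => by
            funext j
            exact smul_comm _ _ _ }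
      have h1 : Y ≤ ((EL G p Z).map Θ).comap lam := by
        have h2 : (sp p (X ∪ Z.filter fun c => G.Adj v c)).map Q ≤
            ((EL G p Z).map Θ).comap lam := by
          refine Submodule.map_le_iff_le_comap.2 (Submodule.span_le.2 ?_)
          rintro _ ⟨c, hc, rfl⟩
          rw [Finset.mem_coe, Finset.mem_union, Finset.mem_filter] at hc
          change lam (Q (p c)) ∈ (EL G p Z).map Θ
          rcases hc with hc | ⟨hcZ, hvc⟩
          · rw [hQX c hc, map_zero]
            exact Submodule.zero_mem _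
          · refine ⟨symm2 (p v) (p c), symm2_mem_EL (hXZ (hB hv')) hcZ hvc, ?_⟩
            rw [hΘ, hQX v (hB hv')]
            funext j
            rw [smul_zero, zero_add]
            rfl
        refine le_trans ?_ h2
        refine Submodule.map_mono (Submodule.span_le.2 ?_)
        rintro _ ⟨d, hd, rfl⟩
        exact mem_flt.1 (hD v hv' d hd)
      exact h1 hy
    | zero =>
      have : (fun j => (0 : V → ℚ) j • y) = 0 := by
        funext j
        rw [Pi.zero_apply, zero_smul]
        rfl
      rw [this]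
      exact Submodule.zero_mem _
    | add b b' _ _ h1 h2 =>
      have : (fun j => (b + b') j • y) = (fun j => b j • y) + (fun j => b' j • y) := by
        funext j
        exact add_smul _ _ _
      rw [this]
      exact Submodule.add_mem _ h1 h2
    | smul c b _ h1 =>
      have : (fun j => (c • b) j • y) = c • (fun j => b j • y) := by
        funext j
        exact mul_smul _ _ _
      rw [this]
      exact Submodule.smul_mem _ _ h1
  have h5 := finrank_mul_le (sp p B) Y ((EL G p Z).map Θ) hE
  have h6 := finrank_map_add_inf_ker Θ (EL G p Z)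
  have h7 := Submodule.finrank_mono hker
  have h8 : rk p B * (rk p (X ∪ D) - rk p X) ≤ Module.finrank ℚ (sp p B) * Module.finrank ℚ Y :=
    Nat.mul_le_mul_left _ hY
  unfold ell
  omega

/-- the edge `wz` is redundant inside `Z` if `w` is adjacent to a set which spans `z` -/
theorem ell_add_edge (G : SimpleGraph V) (p : V → V → ℚ) {Z C : Finset V} {w z : V}
    (hC : C ⊆ Z) (hw : w ∈ Z) (hwC : ∀ c ∈ C, G.Adj w c) (hz : z ∈ flt p C) :
    ell (G ⊔ fromEdgeSet {s(w, z)}) p Z = ell G p Z := by
  have key : ∀ y ∈ sp p C, symm2 (p w) y ∈ EL G p Z := by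
    intro y hy
    induction hy using Submodule.span_induction with
    | mem y hy =>
      obtain ⟨c, hc, rfl⟩ := hy
      exact symm2_mem_EL hw (hC hc) (hwC c hc)
    | zero =>
      rw [symm2_zero]
      exact Submodule.zero_mem _
    | add y y' _ _ h1 h2 =>
      rw [symm2_add]
      exact Submodule.add_mem _ h1 h2
    | smul c y _ h1 =>
      rw [symm2_smul]
      exact Submodule.smul_mem _ _ h1
  have hwz := key _ (mem_flt.1 hz)
  have : EL (G ⊔ fromEdgeSet {s(w, z)}) p Z = EL G p Z := by
    refine le_antisymm (Submodule.span_le.2 ?_) (EL_mono_graph le_sup_left p Z)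
    rintro M ⟨u, hu, v, hv, huv, rfl⟩
    rw [SimpleGraph.sup_adj, fromEdgeSet_adj, Set.mem_singleton_iff] at huv
    rcases huv with h | ⟨h, -⟩
    · exact symm2_mem_EL hu hv h
    · rcases Sym2.eq_iff.1 h with ⟨rfl, rfl⟩ | ⟨rfl, rfl⟩
      · exact hwz
      · rw [symm2_comm]
        exact hwz
  unfold ell
  rw [this]

end MP30c94c
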