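import Mathlib
import Pool.Agent.Lib.MP30c94c.KVecE

/-!
# Activation: passing to the quotient by a generic vector of the span of `U`
-/

open SimpleGraph Finset

namespace MP30c94c

attribute [local instance] Classical.propDecidable

variable {V : Type} [Fintype V]

/-- projection along `q` onto the hyperplane `x i = 0` -/
private noncomputable def psi (q : V → ℚ) (i : V) : (V → ℚ) →ₗ[ℚ] (V → ℚ) where
  toFun x := fun j => x j - (x i / q i) * q j
  map_add' x y := by
    ext j
    simp only [Pi.add_apply]
    ring
  map_smul' c x := by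
    ext j
    simp only [Pi.smul_apply, smul_eq_mul, RingHom.id_apply]
    ring

private lemma psi_apply (q : V → ℚ) (i : V) (x : V → ℚ) (j : V) :
    psi q i x j = x j - (x i / q i) * q j := rfl

private lemma psi_eq_zero {q : V → ℚ} {i : V} {x : V → ℚ} (h : psi q i x = 0) :
    x = (x i / q i) • q := by
  ext j
  have := congrFun h j
  rw [psi_apply, Pi.zero_apply] at this
  rw [Pi.smul_apply, smul_eq_mul]
  linarith

private lemma psi_self {q : V → ℚ} {i : V} (hi : q i ≠ 0) : psi q i q = 0 := by
  ext j
  rw [psi_apply, div_self hi, one_mul, sub_self, Pi.zero_apply]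

/-- the action on symmetric tensors -/
private noncomputable def Tht (q : V → ℚ) (i : V) : Matrix V V ℚ →ₗ[ℚ] Matrix V V ℚ where
  toFun M := Matrix.of fun a b => (M a b - (M a i / q i) * q b) -
    ((M i b - (M i i / q i) * q b) / q i) * q a
  map_add' M N := by
    ext a b
    simp only [Matrix.add_apply, Matrix.of_apply]
    ring
  map_smul' c M := by
    ext a b
    simp only [Matrix.smul_apply, Matrix.of_apply, smul_eq_mul, RingHom.id_apply]
    ring

private lemma Tht_symm2 (q : V → ℚ) (i : V) (u v : V → ℚ) :
    Tht q i (symm2 u v) = symm2 (psi q i u) (psi q i v) := by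
  ext a b
  simp only [Tht, symm2, LinearMap.coe_mk, AddHom.coe_mk, Matrix.of_apply, Matrix.add_apply,
    Matrix.vecMulVec_apply, psi_apply]
  ring

private lemma sp_psi (p : V → V → ℚ) (q : V → ℚ) (i : V) (Y : Finset V) :
    sp (fun v => psi q i (p v)) Y = (sp p Y).map (psi q i) := by
  unfold sp
  rw [Submodule.map_span, Set.image_image]

private lemma EL_psi (G : SimpleGraph V) (p : V → V → ℚ) (q : V → ℚ) (i : V) (Y : Finset V) :
    EL G (fun v => psi q i (p v)) Y = (EL G p Y).map (Tht q i) := by
  unfold EL
  rw [Submodule.map_span]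
  congr 1
  ext M
  constructor
  · rintro ⟨u, hu, v, hv, huv, rfl⟩
    exact ⟨symm2 (p u) (p v), ⟨u, hu, v, hv, huv, rfl⟩, Tht_symm2 q i _ _⟩
  · rintro ⟨_, ⟨u, hu, v, hv, huv, rfl⟩, rfl⟩
    exact ⟨u, hu, v, hv, huv, Tht_symm2 q i _ _⟩

private lemma rows_mem (G : SimpleGraph V) (p : V → V → ℚ) (Y : Finset V) {M : Matrix V V ℚ}
    (hM : M ∈ EL G p Y) : (∀ a, (fun b => M a b) ∈ sp p Y) ∧ (∀ b, (fun a => M a b) ∈ sp p Y) := by
  unfold EL at hM
  induction hM using Submodule.span_induction with
  | mem M h =>
    obtain ⟨u, hu, v, hv, -, rfl⟩ := h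
    have hu' : p u ∈ sp p Y := Submodule.subset_span ⟨u, by exact_mod_cast hu, rfl⟩
    have hv' : p v ∈ sp p Y := Submodule.subset_span ⟨v, by exact_mod_cast hv, rfl⟩
    constructor
    · intro a
      have h1 : (fun b => symm2 (p u) (p v) a b) = p u a • p v + p v a • p u := by
        ext b
        simp only [symm2, Matrix.add_apply, Matrix.vecMulVec_apply, Pi.add_apply, Pi.smul_apply,
          smul_eq_mul]
      rw [h1]
      exact add_mem (Submodule.smul_mem _ _ hv') (Submodule.smul_mem _ _ hu')
    · intro b
      have h1 : (fun a => symm2 (p u) (p v) a b) = p v b • p u + p u b • p v := by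
        ext a
        simp only [symm2, Matrix.add_apply, Matrix.vecMulVec_apply, Pi.add_apply, Pi.smul_apply,
          smul_eq_mul]
        ring
      rw [h1]
      exact add_mem (Submodule.smul_mem _ _ hu') (Submodule.smul_mem _ _ hv')
  | zero =>
    exact ⟨fun a => Submodule.zero_mem _, fun b => Submodule.zero_mem _⟩
  | add M N _ _ h1 h2 =>
    exact ⟨fun a => add_mem (h1.1 a) (h2.1 a), fun b => add_mem (h1.2 b) (h2.2 b)⟩
  | smul c M _ h1 =>
    exact ⟨fun a => Submodule.smul_mem _ c (h1.1 a), fun b => Submodule.smul_mem _ c (h1.2 b)⟩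

/-- Quotient by a generic vector `q` of `⟨U⟩`: `p' v = p v - φ(p v) q`, `φ q = 1`. -/
theorem exists_quotient (p : V → V → ℚ) (U : Finset V) (hU : U.Nonempty)
    (hU' : rk p U = U.card) :
    ∃ p' : V → V → ℚ,
      (∀ Y : Finset V, U ⊆ flt p Y → rk p' Y + 1 = rk p Y) ∧
      (∀ Y : Finset V, ¬ U ⊆ flt p Y → rk p' Y = rk p Y) ∧
      (∀ (Y : Finset V) (v : V), v ∈ flt p Y → v ∈ flt p' Y) ∧
      (∀ (G : SimpleGraph V) (Y : Finset V), ¬ U ⊆ flt p Y → ell G p' Y = ell G p Y) ∧
      (∀ (G : SimpleGraph V) (Z T : Finset V), U ⊆ Z → T ⊆ Z → (∀ u ∈ U, ∀ t ∈ T, G.Adj u t) →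
        ell G p' Z + rk p T ≤ ell G p Z) := by
  -- the generic vector
  obtain ⟨q, hqU, hqY⟩ : ∃ q ∈ sp p U, ∀ Y : Finset V, ¬ U ⊆ flt p Y → q ∉ sp p Y := by
    by_contra hcon
    push Not at hcon
    have hcov : (⋃ Y : {Y : Finset V // ¬ U ⊆ flt p Y},
        (((sp p Y.1).comap (sp p U).subtype : Submodule ℚ (sp p U)) : Set (sp p U))) = Set.univ := by
      rw [Set.eq_univ_iff_forall]
      rintro ⟨x, hx⟩
      obtain ⟨Y, hY, hxY⟩ := hcon x hx
      exact Set.mem_iUnion.2 ⟨⟨Y, hY⟩, hxY⟩
    obtain ⟨⟨Y, hY⟩, htop⟩ := Subspace.exists_eq_top_of_iUnion_eq_univ hcov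
    apply hY
    intro u hu
    have h1 : p u ∈ sp p U := Submodule.subset_span ⟨u, by exact_mod_cast hu, rfl⟩
    have h2 : (⟨p u, h1⟩ : sp p U) ∈ (sp p Y).comap (sp p U).subtype := by
      rw [htop]
      exact Submodule.mem_top
    simpa [flt] using h2
  have hq0 : q ≠ 0 := by
    have hE : ¬ U ⊆ flt p ∅ := by
      intro h
      have h1 : sp p U ≤ ⊥ := by
        unfold sp
        rw [Submodule.span_le]
        rintro _ ⟨u, hu, rfl⟩
        have h2 := h (show u ∈ U by exact_mod_cast hu)
        simpa [flt, sp] using h2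
      have h2 : rk p U = 0 := by
        unfold rk
        rw [le_bot_iff.1 h1, finrank_bot]
      have h3 := hU.card_pos
      omega
    intro h0
    exact hqY ∅ hE (h0 ▸ Submodule.zero_mem _)
  obtain ⟨i, hi⟩ := Function.ne_iff.1 hq0
  rw [Pi.zero_apply] at hi
  have hsub : ∀ Y : Finset V, U ⊆ flt p Y → q ∈ sp p Y := by
    intro Y hY
    have h1 : sp p U ≤ sp p Y := by
      have : Submodule.span ℚ (p '' (U : Set V)) ≤ sp p Y := by
        rw [Submodule.span_le]
        rintro _ ⟨u, hu, rfl⟩
        have h2 := hY (show u ∈ U by exact_mod_cast hu)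
        simpa [flt] using h2
      exact this
    exact h1 hqU
  have hinj : ∀ Y : Finset V, ¬ U ⊆ flt p Y → ∀ x ∈ sp p Y, psi q i x = 0 → x = 0 := by
    intro Y hY x hx h0
    have h1 := psi_eq_zero h0
    by_contra hne
    have hc : x i / q i ≠ 0 := by
      intro hc
      rw [hc, zero_smul] at h1
      exact hne h1
    apply hqY Y hY
    have h2 : q = (x i / q i)⁻¹ • x := by
      conv_rhs => rw [h1]
      rw [smul_smul]
      have h3 : (x i / q i)⁻¹ * (x i / q i) = 1 := inv_mul_cancel₀ hc
      have h4 : ((x i / q i) • q) i = x i := by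
        rw [← h1]
      rw [h4, h3, one_smul]
    rw [h2]
    exact Submodule.smul_mem _ _ hx
  refine ⟨fun v => psi q i (p v), ?_, ?_, ?_, ?_, ?_⟩
  · intro Y hY
    have h := finrank_map_add_inf_ker (psi q i) (sp p Y)
    have hk : sp p Y ⊓ LinearMap.ker (psi q i) = Submodule.span ℚ {q} := by
      apply le_antisymm
      · rintro x ⟨-, hx⟩
        rw [psi_eq_zero (LinearMap.mem_ker.1 hx)]
        exact Submodule.smul_mem _ _ (Submodule.mem_span_singleton_self q)
      · rw [Submodule.span_singleton_le_iff_mem]
        exact ⟨hsub Y hY, LinearMap.mem_ker.2 (psi_self hi)⟩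
    rw [hk, finrank_span_singleton hq0, ← sp_psi] at h
    exact h
  · intro Y hY
    have h := finrank_map_add_inf_ker (psi q i) (sp p Y)
    have hk : sp p Y ⊓ LinearMap.ker (psi q i) = ⊥ := by
      rw [eq_bot_iff]
      rintro x ⟨hx1, hx2⟩
      exact (Submodule.mem_bot ℚ).2 (hinj Y hY x hx1 (LinearMap.mem_ker.1 hx2))
    rw [hk, finrank_bot, add_zero, ← sp_psi] at h
    exact h
  · intro Y v hv
    have hv' : p v ∈ sp p Y := by simpa [flt] using hv
    have h1 : psi q i (p v) ∈ sp (fun v => psi q i (p v)) Y := by
      rw [sp_psi]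
      exact ⟨p v, hv', rfl⟩
    simpa [flt] using h1
  · intro G Y hY
    have h := finrank_map_add_inf_ker (Tht q i) (EL G p Y)
    have hk : EL G p Y ⊓ LinearMap.ker (Tht q i) = ⊥ := by
      rw [eq_bot_iff]
      rintro M ⟨hM, hM0⟩
      obtain ⟨hrow, hcol⟩ := rows_mem G p Y hM
      have hM0' : Tht q i M = 0 := LinearMap.mem_ker.1 hM0
      -- the columns after the row operation
      have h1 : ∀ b, (fun a => M a b - (M a i / q i) * q b) = 0 := by
        intro b
        refine hinj Y hY _ ?_ ?_
        · have h2 : (fun a => M a b - (M a i / q i) * q b) =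
              (fun a => M a b) - (q b / q i) • (fun a => M a i) := by
            ext a
            simp only [Pi.sub_apply, Pi.smul_apply, smul_eq_mul]
            ring
          rw [h2]
          exact sub_mem (hcol b) (Submodule.smul_mem _ _ (hcol i))
        · ext a
          have h3 := congrFun (congrFun hM0' a) b
          simp only [Tht, LinearMap.coe_mk, AddHom.coe_mk, Matrix.of_apply, Matrix.zero_apply] at h3
          rw [psi_apply, Pi.zero_apply]
          exact h3
      have h2 : ∀ a, (fun b => M a b) = 0 := by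
        intro a
        refine hinj Y hY _ (hrow a) ?_
        ext b
        rw [psi_apply, Pi.zero_apply]
        exact congrFun (h1 b) a
      rw [Submodule.mem_bot]
      ext a b
      exact congrFun (h2 a) b
    rw [hk, finrank_bot, add_zero, ← EL_psi] at h
    exact h
  · intro G Z T hUZ hTZ hUT
    have h := finrank_map_add_inf_ker (Tht q i) (EL G p Z)
    let f : (V → ℚ) →ₗ[ℚ] Matrix V V ℚ :=
      { toFun := fun x => symm2 q x
        map_add' := symm2_add q
        map_smul' := fun c x => symm2_smul q x c }
    have hf : Function.Injective f := by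
      rw [injective_iff_map_eq_zero]
      intro x hx
      have hx' : symm2 q x = 0 := hx
      have h1 : x i = 0 := by
        have h2 := congrFun (congrFun hx' i) i
        simp only [symm2, Matrix.add_apply, Matrix.vecMulVec_apply, Matrix.zero_apply] at h2
        have h3 : q i * x i = 0 := by linarith
        exact (mul_eq_zero.1 h3).resolve_left hi
      ext j
      have h2 := congrFun (congrFun hx' i) j
      simp only [symm2, Matrix.add_apply, Matrix.vecMulVec_apply, Matrix.zero_apply, h1,
        zero_mul, add_zero] at h2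
      exact (mul_eq_zero.1 h2).resolve_left hi
    have hle : (sp p T).map f ≤ EL G p Z ⊓ LinearMap.ker (Tht q i) := by
      rintro _ ⟨x, hx, rfl⟩
      constructor
      · have h1 : ∀ t ∈ T, symm2 q (p t) ∈ EL G p Z := by
          intro t ht
          rw [symm2_comm]
          have hspan : ∀ y ∈ sp p U, symm2 (p t) y ∈ EL G p Z := by
            intro y hy
            unfold sp at hy
            induction hy using Submodule.span_induction with
            | mem y hy =>
              obtain ⟨u, hu, rfl⟩ := hy
              have hu' : u ∈ U := by exact_mod_cast hu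
              exact symm2_mem_EL (hTZ ht) (hUZ hu') (hUT u hu' t ht).symm
            | zero =>
              rw [symm2_zero]
              exact Submodule.zero_mem _
            | add y z _ _ hy hz =>
              rw [symm2_add]
              exact add_mem hy hz
            | smul c y _ hy =>
              rw [symm2_smul]
              exact Submodule.smul_mem _ _ hy
          exact hspan q hqU
        have h2 : (sp p T).map f ≤ EL G p Z := by
          unfold sp
          rw [Submodule.map_span, Submodule.span_le]
          rintro _ ⟨_, ⟨t, ht, rfl⟩, rfl⟩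
          exact h1 t (by exact_mod_cast ht)
        exact h2 ⟨x, hx, rfl⟩
      · apply LinearMap.mem_ker.2
        change Tht q i (symm2 q x) = 0
        rw [Tht_symm2, psi_self hi, symm2_comm, symm2_zero]
    have h1 : Module.finrank ℚ ((sp p T).map f) = rk p T :=
      (LinearEquiv.finrank_eq (Submodule.equivMapOfInjective f hf (sp p T))).symm
    have h2 := Submodule.finrank_mono hle
    rw [h1] at h2
    rw [← EL_psi] at h
    unfold ell
    omega

end MP30c94c
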