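import Mathlib
import Pool.Agent.Lib.MP30c94c.KVecQ

/-!
# States of the process: graph, vectors, activated classes
-/

open SimpleGraph Finset

namespace MP30c94c

attribute [local instance] Classical.propDecidable

/-- an activated class: the active `s`-set `U`, its helper set `A`, its price and its time -/
structure Cls (V : Type) where
  U : Finset V
  A : Finset V
  th : ℤ
  t : ℕ

/-- a state of the process -/
structure St (V : Type) where
  G : SimpleGraph V
  p : V → V → ℚ
  cls : Finset (Cls V)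

variable {V : Type} [Fintype V]

/-- the classes contained in `X` -/
noncomputable def St.cin (st : St V) (X : Finset V) : Finset (Cls V) :=
  st.cls.filter fun c => c.U ⊆ X

/-- the state after the addition of the edge `wz` -/
def St.addEdge (st : St V) (w z : V) : St V := ⟨st.G ⊔ fromEdgeSet {s(w, z)}, st.p, st.cls⟩

/-- the state after an activation -/
noncomputable def St.act (st : St V) (p' : V → V → ℚ) (c : Cls V) : St V :=
  ⟨st.G, p', insert c st.cls⟩

/-- the starting state -/
noncomputable def St.init (G : SimpleGraph V) : St V := ⟨G, basisVec V, ∅⟩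

/-- basic structural invariants -/
structure Bas (s : ℕ) (st : St V) : Prop where
  indep : ∀ Y : Finset V, Y.card ≤ s - 1 → rk st.p Y = Y.card
  count : ∀ X : Finset V, IsFlat st.p X → X.card = rk st.p X + (st.cin X).card
  csize : ∀ c ∈ st.cls, c.U.card = s ∧ rk st.p c.U = s - 1
  inj : ∀ c ∈ st.cls, ∀ c' ∈ st.cls, c.U = c'.U → c = c'

/-- closed sets: flats containing the helpers of all their classes -/
def Clo (st : St V) (X : Finset V) : Prop := IsFlat st.p X ∧ ∀ c ∈ st.cls, c.U ⊆ X → c.A ⊆ X

/-- the potential -/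
noncomputable def PhiS (a b : ℤ) (st : St V) (X : Finset V) : ℤ :=
  a * X.card - ∑ c ∈ st.cin X, c.th - b * ell st.G st.p X

/-- positivity of the potential -/
def Pos (a b : ℤ) (st : St V) : Prop := ∀ X : Finset V, X.Nonempty → Clo st X → 1 ≤ PhiS a b st X

/-- `p'` arises from `p` by the activation of `U` -/
structure QuotRel (p p' : V → V → ℚ) (U : Finset V) : Prop where
  rk1 : ∀ Y : Finset V, U ⊆ flt p Y → rk p' Y + 1 = rk p Y
  rk2 : ∀ Y : Finset V, ¬ U ⊆ flt p Y → rk p' Y = rk p Y
  flt_sub : ∀ (Y : Finset V) (v : V), v ∈ flt p Y → v ∈ flt p' Y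
  ell2 : ∀ (G : SimpleGraph V) (Y : Finset V), ¬ U ⊆ flt p Y → ell G p' Y = ell G p Y
  ell1 : ∀ (G : SimpleGraph V) (Z T : Finset V), U ⊆ Z → T ⊆ Z →
    (∀ u ∈ U, ∀ t ∈ T, G.Adj u t) → ell G p' Z + rk p T ≤ ell G p Z

lemma exists_quotRel (p : V → V → ℚ) (U : Finset V) (hU : U.Nonempty) (hU' : rk p U = U.card) :
    ∃ p' : V → V → ℚ, QuotRel p p' U := by
  obtain ⟨p', h1, h2, h3, h4, h5⟩ := exists_quotient p U hU hU'
  exact ⟨p', h1, h2, h3, h4, h5⟩

lemma Bas.init (s : ℕ) (G : SimpleGraph V) : Bas s (St.init G) := by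
  refine ⟨fun Y _ => rk_basisVec Y, fun X _ => ?_, ?_, ?_⟩
  · have h0 : (St.init G).cin X = ∅ := by simp [St.cin, St.init]
    rw [h0]
    simp [St.init, rk_basisVec]
  · intro c hc
    simp [St.init] at hc
  · intro c hc
    simp [St.init] at hc

lemma Bas.addEdge {s : ℕ} {st : St V} (h : Bas s st) (w z : V) : Bas s (st.addEdge w z) :=
  ⟨h.indep, h.count, h.csize, h.inj⟩

/-- a flat after an activation was a flat before -/
lemma QuotRel.isFlat {p p' : V → V → ℚ} {U X : Finset V} (h : QuotRel p p' U)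
    (hX : IsFlat p' X) : IsFlat p X := by
  intro v hv
  exact hX v (mem_flt.mp (h.flt_sub X v (mem_flt.mpr hv)))

/-- relative ranks do not increase in an activation -/
lemma QuotRel.rk_rel {p p' : V → V → ℚ} {U B A : Finset V} (h : QuotRel p p' U) (hBA : B ⊆ A) :
    rk p' A + rk p B ≤ rk p A + rk p' B := by
  by_cases hB : U ⊆ flt p B
  · have h1 := h.rk1 B hB
    have h2 := h.rk1 A (hB.trans (flt_mono p hBA))
    omega
  · have h1 := h.rk2 B hB
    by_cases hA : U ⊆ flt p A
    · have h2 := h.rk1 A hA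
      omega
    · have h2 := h.rk2 A hA
      omega

lemma Bas.act {s : ℕ} (hs : 1 ≤ s) {st : St V} (h : Bas s st) {p' : V → V → ℚ} {c : Cls V}
    (hU : c.U.card = s) (hr : rk st.p c.U = s) (hq : QuotRel st.p p' c.U) :
    Bas s (st.act p' c) := by
  have hnot : ∀ Y : Finset V, rk st.p Y ≤ s - 1 → ¬ c.U ⊆ flt st.p Y := by
    intro Y hY hsub
    have h1 := rk_mono st.p hsub
    rw [rk_flt, hr] at h1
    omega
  have hcls : c ∉ st.cls := by
    intro hc
    have h1 := (h.csize c hc).2
    omega
  refine ⟨?_, ?_, ?_, ?_⟩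
  · intro Y hY
    have h1 := h.indep Y hY
    have h2 := hq.rk2 Y (hnot Y (by omega))
    show rk p' Y = Y.card
    omega
  · intro X hX
    have hXp : IsFlat st.p X := hq.isFlat hX
    have hc0 := h.count X hXp
    show X.card = rk p' X + ((insert c st.cls).filter fun c' => c'.U ⊆ X).card
    have hc0' : X.card = rk st.p X + (st.cls.filter fun c' => c'.U ⊆ X).card := hc0
    by_cases hUX : c.U ⊆ X
    · have h1 := hq.rk1 X (by rw [hXp.flt_eq]; exact hUX)
      rw [Finset.filter_insert, if_pos hUX, Finset.card_insert_of_notMem (by simp [hcls])]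
      omega
    · have h1 := hq.rk2 X (by rw [hXp.flt_eq]; exact hUX)
      rw [Finset.filter_insert, if_neg hUX]
      omega
  · intro c' hc'
    have hc'2 : c' = c ∨ c' ∈ st.cls := Finset.mem_insert.mp hc'
    rcases hc'2 with rfl | hc'2
    · refine ⟨hU, ?_⟩
      have h1 := hq.rk1 c'.U (subset_flt _ _)
      show rk p' c'.U = s - 1
      omega
    · obtain ⟨h1, h2⟩ := h.csize c' hc'2
      refine ⟨h1, ?_⟩
      have h3 := hq.rk2 c'.U (hnot _ (by omega))
      show rk p' c'.U = s - 1
      omega
  · intro c₁ hc₁ c₂ hc₂ he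
    have h1 : c₁ = c ∨ c₁ ∈ st.cls := Finset.mem_insert.mp hc₁
    have h2 : c₂ = c ∨ c₂ ∈ st.cls := Finset.mem_insert.mp hc₂
    rcases h1 with rfl | h1
    · rcases h2 with rfl | h2
      · rfl
      · have h3 := (h.csize c₂ h2).2
        rw [← he, hr] at h3
        omega
    · rcases h2 with rfl | h2
      · have h3 := (h.csize c₁ h1).2
        rw [he, hr] at h3
        omega
      · exact h.inj c₁ h1 c₂ h2 he

end MP30c94c
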