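import Mathlib
import Pool.Agent.Lib.MP30c94c.KSt
import Pool.Agent.Lib.MP30c94c.KUBX

/-!
# The hull property from a scheme
-/

open SimpleGraph Finset

namespace MP30c94c

attribute [local instance] Classical.propDecidable

/-- all edges forced by the dependent `s`-sets are present -/
def Sat (s : ℕ) {V : Type} [Fintype V] (st : St V) : Prop :=
  ∀ (U : Finset V) (w z : V), U.card = s → rk st.p U = s - 1 → z ∈ U → w ∉ U →
    (∀ u ∈ U, u ≠ z → st.G.Adj w u) → st.G.Adj w z

/-- A scheme: an invariant `Q` of the process together with the potential inequalities. -/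
structure Scheme (s k : ℕ) (a b D : ℤ) (Q : ∀ (V : Type) [Fintype V], St V → Prop) : Prop where
  bas : ∀ (V : Type) [Fintype V] (st : St V), Q V st → Bas s st
  init : ∀ (V : Type) [Fintype V] (G : SimpleGraph V), Q V (St.init G)
  edge : ∀ (V : Type) [Fintype V] (st : St V), Q V st → Pos a b st →
    ∀ (U : Finset V) (w z : V), U.card = s → rk st.p U = s - 1 → z ∈ U → w ∉ U →
      (∀ u ∈ U, u ≠ z → st.G.Adj w u) → ¬ st.G.Adj w z →
      Q V (st.addEdge w z) ∧
      ∀ X, Clo st X → ∃ X', X ⊆ X' ∧ Clo st X' ∧ PhiS a b st X' ≤ PhiS a b (st.addEdge w z) X ∧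
        (w ∈ X → z ∈ X → U ⊆ X')
  act : ∀ (V : Type) [Fintype V] (st : St V), Q V st → Pos a b st → Sat s st →
    ∀ (U T : Finset V), U.card = s → rk st.p U = s → T.card = k →
      (∀ u ∈ U, ∀ t ∈ T, st.G.Adj u t) →
      ((flt st.p U).card ≤ s + 1 ∨ (s = 3 ∧ (flt st.p U).card ≤ 5)) ∧
      (∀ t₀ ∈ T, t₀ ∈ flt st.p U → (flt st.p U).card ≤ s + 1 ∧
        ∀ y ∈ U, ∃ u ∈ U, u ≠ y ∧ ¬ st.G.Adj y u) ∧
      ∃ (p' : V → V → ℚ) (c : Cls V), c.U = U ∧ QuotRel st.p p' U ∧ Q V (st.act p' c) ∧
        ∀ X, Clo (st.act p' c) X → ∃ X', X ⊆ X' ∧ Clo st X' ∧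
          PhiS a b st X' ≤ PhiS a b (st.act p' c) X ∧
          (U ⊆ X → k ≤ (X'.filter fun t => ∀ u ∈ U, st.G.Adj u t).card)
  fin : ∀ (V : Type) [Fintype V] (st : St V), Q V st → Pos a b st → ∀ u v : V, st.G.Adj u v →
    ∃ X, u ∈ X ∧ v ∈ X ∧ Clo st X ∧ PhiS a b st X ≤ D

/-- the copy rule in a closure -/
lemma closure_copy {V : Type} {s k : ℕ} {G : SimpleGraph V} {U : Finset V}
    (hU : U.card = s) {w z : V} (hz : z ∈ U) (hw : w ∉ U)
    (hwz : ∀ u ∈ U, u ≠ z → (closure (Kst s (k + 1)) G).Adj w u)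
    {T : Finset V} (hT : k ≤ T.card)
    (hUT : ∀ u ∈ U, ∀ t ∈ T, (closure (Kst s (k + 1)) G).Adj u t) :
    (closure (Kst s (k + 1)) G).Adj w z := by
  by_cases hwT : w ∈ T
  · exact (hUT z hz w hwT).symm
  obtain ⟨T', hT'T, hT'⟩ := Finset.exists_subset_card_eq hT
  have hwT' : w ∉ T' := fun h => hwT (hT'T h)
  have hne : w ≠ z := fun h => hw (h ▸ hz)
  refine ⟨hne, ?_⟩
  rw [Sym2.eq_swap]
  refine closure_step (X := U) (Y := insert w T') hU ?_ ?_ hz (Finset.mem_insert_self _ _) ?_
  · rw [Finset.card_insert_of_notMem hwT', hT']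
  · rw [Finset.disjoint_left]
    intro x hx hx'
    rcases Finset.mem_insert.1 hx' with rfl | h
    · exact hw hx
    · exact (hUT x hx x (hT'T h)).ne rfl
  · intro x hx y hy hxy
    rcases Finset.mem_insert.1 hy with rfl | h
    · have hxz : x ≠ z := by
        rcases hxy with h | h
        · exact h
        · exact absurd rfl h
      have h1 := (hwz x hx hxz).2
      rwa [Sym2.eq_swap] at h1
    · exact (hUT x hx y (hT'T h)).2

/-- a class inside a flat spanned by an independent set is not contained in that set -/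
lemma class_not_subset {s : ℕ} (hs : 3 ≤ s) {V : Type} [Fintype V] {st : St V} (hb : Bas s st)
    {U : Finset V} (hU : U.card = s) (hr : rk st.p U = s) {c : Cls V} (hc : c ∈ st.cls) :
    ¬ c.U ⊆ U := by
  intro h
  have h1 := hb.csize c hc
  have h2 : c.U = U := Finset.eq_of_subset_of_card_le h (by omega)
  rw [h2] at h1
  omega

/-- two different classes with a common pair (`s = 3`) span a set of rank two -/
lemma rk_union_two {V : Type} [Fintype V] {st : St V} (hb : Bas 3 st) {A B : Finset V}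
    (hA : A.card = 3) (hB : B.card = 3) (hrA : rk st.p A = 2) (hrB : rk st.p B = 2)
    (hAB : A ≠ B) (hint : 2 ≤ (A ∩ B).card) :
    rk st.p (A ∪ B) ≤ 2 ∧ (A ∪ B).card = 4 := by
  have h1 := Finset.card_union_add_card_inter A B
  have h2 : (A ∩ B).card = 2 := by
    by_contra hcon
    have h3 : 3 ≤ (A ∩ B).card := by omega
    have h4 : A ∩ B = A := Finset.eq_of_subset_of_card_le Finset.inter_subset_left (by omega)
    have h5 : A ∩ B = B := Finset.eq_of_subset_of_card_le Finset.inter_subset_right (by omega)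
    exact hAB (h4.symm.trans h5)
  have h3 := rk_submod st.p A B
  have h4 := hb.indep (A ∩ B) (by omega)
  omega

/-- the flat of an independent `s`-set is generated by the set and the dependent sets inside -/
lemma gen_flat {s : ℕ} (hs : 3 ≤ s) {V : Type} [Fintype V] {st : St V} (hb : Bas s st)
    {U : Finset V} (hU : U.card = s) (hr : rk st.p U = s)
    (hF : (flt st.p U).card ≤ s + 1 ∨ (s = 3 ∧ (flt st.p U).card ≤ 5))
    {R : Finset V} (hUR : U ⊆ R)
    (hR : ∀ Y ⊆ flt st.p U, Y.card = s → rk st.p Y = s - 1 → ∀ z ∈ Y, Y.erase z ⊆ R → z ∈ R) :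
    flt st.p U ⊆ R := by
  intro x hx
  by_contra hxR
  have hxU : x ∉ U := fun h => hxR (hUR h)
  have hUF : U ⊆ flt st.p U := subset_flt _ _
  have hcount := hb.count (flt st.p U) (flt_isFlat _ _)
  rw [rk_flt, hr] at hcount
  have hins : insert x U ⊆ flt st.p U := Finset.insert_subset hx hUF
  have hcins : (insert x U).card = s + 1 := by rw [Finset.card_insert_of_notMem hxU, hU]
  have hge : s + 1 ≤ (flt st.p U).card := by
    rw [← hcins]
    exact Finset.card_le_card hins
  rcases Nat.lt_or_ge (s + 1) (flt st.p U).card with hbig | hsmall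
  · -- `s = 3`, `5` points
    obtain ⟨h3, h5⟩ : s = 3 ∧ (flt st.p U).card ≤ 5 := by
      rcases hF with h | h
      · omega
      · exact h
    subst h3
    have hF5 : (flt st.p U).card = 5 := by omega
    have hc2 : (st.cin (flt st.p U)).card = 2 := by omega
    obtain ⟨c1, c2, hc12, hcin⟩ := Finset.card_eq_two.1 hc2
    have hc1 : c1 ∈ st.cls ∧ c1.U ⊆ flt st.p U := by
      have : c1 ∈ st.cin (flt st.p U) := by rw [hcin]; simp
      exact Finset.mem_filter.1 this
    have hc2' : c2 ∈ st.cls ∧ c2.U ⊆ flt st.p U := by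
      have : c2 ∈ st.cin (flt st.p U) := by rw [hcin]; simp
      exact Finset.mem_filter.1 this
    have hne : c1.U ≠ c2.U := fun h => hc12 (hb.inj c1 hc1.1 c2 hc2'.1 h)
    have hs1 := hb.csize c1 hc1.1
    have hs2 := hb.csize c2 hc2'.1
    have hn1 := class_not_subset le_rfl hb hU hr hc1.1
    have hn2 := class_not_subset le_rfl hb hU hr hc2'.1
    -- the second point outside `U`
    obtain ⟨y, hyF, hyxU⟩ : ∃ y ∈ flt st.p U, y ∉ insert x U := by
      by_contra hcon
      push Not at hcon
      have h1 := Finset.card_le_card (show flt st.p U ⊆ insert x U from hcon)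
      omega
    have hxy : y ≠ x := fun h => hyxU (h ▸ Finset.mem_insert_self _ _)
    have hyU : y ∉ U := fun h => hyxU (Finset.mem_insert_of_mem h)
    have hFeq : flt st.p U = insert y (insert x U) := by
      symm
      apply Finset.eq_of_subset_of_card_le (Finset.insert_subset hyF hins)
      rw [Finset.card_insert_of_notMem hyxU]
      omega
    -- a class which contains exactly one point outside `R` is impossible
    have key : ∀ c : Cls V, c ∈ st.cls → c.U ⊆ flt st.p U → ∀ z ∈ c.U, z ∉ R →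
        ∃ z' ∈ c.U, z' ≠ z ∧ z' ∉ R := by
      intro c hc hcF z hz hzR
      by_contra hcon
      push Not at hcon
      have h1 := hb.csize c hc
      refine hzR (hR c.U hcF h1.1 h1.2 z hz ?_)
      intro v hv
      rw [Finset.mem_erase] at hv
      exact hcon v hv.2 hv.1
    by_cases hyR : y ∈ R
    · -- `x` is the only point outside `R`
      have hxc : ∀ c : Cls V, c ∈ st.cls → c.U ⊆ flt st.p U → x ∉ c.U := by
        intro c hc hcF hxc
        obtain ⟨z', hz', hz'x, hz'R⟩ := key c hc hcF x hxc hxR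
        have h1 := hcF hz'
        rw [hFeq, Finset.mem_insert, Finset.mem_insert] at h1
        rcases h1 with rfl | rfl | h1
        · exact hz'R hyR
        · exact hz'x rfl
        · exact hz'R (hUR h1)
      have hsub : ∀ c : Cls V, c ∈ st.cls → c.U ⊆ flt st.p U → c.U ⊆ insert y U := by
        intro c hc hcF v hv
        have h1 := hcF hv
        rw [hFeq, Finset.mem_insert, Finset.mem_insert] at h1
        rcases h1 with rfl | rfl | h1
        · exact Finset.mem_insert_self _ _
        · exact absurd hv (hxc c hc hcF)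
        · exact Finset.mem_insert_of_mem h1
      have hsub1 := hsub c1 hc1.1 hc1.2
      have hsub2 := hsub c2 hc2'.1 hc2'.2
      have hcard : (insert y U).card = 4 := by rw [Finset.card_insert_of_notMem hyU, hU]
      have hint : 2 ≤ (c1.U ∩ c2.U).card := by
        have h1 := Finset.card_union_add_card_inter c1.U c2.U
        have h2 := Finset.card_le_card (Finset.union_subset hsub1 hsub2)
        omega
      obtain ⟨h1, h2⟩ := rk_union_two hb hs1.1 hs2.1 hs1.2 hs2.2 hne hint
      have h3 : c1.U ∪ c2.U = insert y U :=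
        Finset.eq_of_subset_of_card_le (Finset.union_subset hsub1 hsub2) (by omega)
      have h4 := rk_mono st.p (Finset.subset_insert y U)
      rw [← h3] at h4
      omega
    · -- both outside
      have hboth : ∀ c : Cls V, c ∈ st.cls → c.U ⊆ flt st.p U → x ∈ c.U ∧ y ∈ c.U := by
        intro c hc hcF
        have hnot := class_not_subset le_rfl hb hU hr hc
        obtain ⟨v, hv, hvU⟩ := Finset.not_subset.1 hnot
        have hvR : v ∉ R ∧ (v = x ∨ v = y) := by
          have h1 := hcF hv
          rw [hFeq, Finset.mem_insert, Finset.mem_insert] at h1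
          rcases h1 with rfl | rfl | h1
          · exact ⟨hyR, Or.inr rfl⟩
          · exact ⟨hxR, Or.inl rfl⟩
          · exact absurd h1 hvU
        obtain ⟨z', hz', hz'v, hz'R⟩ := key c hc hcF v hv hvR.1
        have h2 : z' = x ∨ z' = y := by
          have h1 := hcF hz'
          rw [hFeq, Finset.mem_insert, Finset.mem_insert] at h1
          rcases h1 with rfl | rfl | h1
          · exact Or.inr rfl
          · exact Or.inl rfl
          · exact absurd (hUR h1) hz'R
        rcases hvR.2 with rfl | rfl <;> rcases h2 with rfl | rfl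
        · exact absurd rfl hz'v
        · exact ⟨hv, hz'⟩
        · exact ⟨hz', hv⟩
        · exact absurd rfl hz'v
      have hb1 := hboth c1 hc1.1 hc1.2
      have hb2 := hboth c2 hc2'.1 hc2'.2
      have hpair : ({x, y} : Finset V).card = 2 := Finset.card_pair hxy.symm
      have hint : 2 ≤ (c1.U ∩ c2.U).card := by
        rw [← hpair]
        apply Finset.card_le_card
        intro v hv
        rw [Finset.mem_insert, Finset.mem_singleton] at hv
        rcases hv with rfl | rfl
        · exact Finset.mem_inter.2 ⟨hb1.1, hb2.1⟩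
        · exact Finset.mem_inter.2 ⟨hb1.2, hb2.2⟩
      obtain ⟨h1, h2⟩ := rk_union_two hb hs1.1 hs2.1 hs1.2 hs2.2 hne hint
      -- the two remaining points
      have hpt : ∀ c : Cls V, c ∈ st.cls → c.U ⊆ flt st.p U → c.U.card = 3 → x ∈ c.U → y ∈ c.U →
          ∃ r ∈ U, c.U = {x, y, r} := by
        intro c hc hcF hcc hxc hyc
        obtain ⟨r, hr1, hr2⟩ : ∃ r ∈ c.U, r ∉ ({x, y} : Finset V) := by
          by_contra hcon
          push Not at hcon
          have h3 := Finset.card_le_card (show c.U ⊆ {x, y} from hcon)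
          omega
        rw [Finset.mem_insert, Finset.mem_singleton, not_or] at hr2
        refine ⟨r, ?_, ?_⟩
        · have h3 := hcF hr1
          rw [hFeq, Finset.mem_insert, Finset.mem_insert] at h3
          rcases h3 with h3 | h3 | h3
          · exact absurd h3 hr2.2
          · exact absurd h3 hr2.1
          · exact h3
        · symm
          apply Finset.eq_of_subset_of_card_le
          · intro v hv
            simp only [Finset.mem_insert, Finset.mem_singleton] at hv
            rcases hv with rfl | rfl | rfl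
            · exact hxc
            · exact hyc
            · exact hr1
          · rw [Finset.card_eq_three.2 ⟨x, y, r, hxy.symm, fun h => hr2.1 h.symm,
              fun h => hr2.2 h.symm, rfl⟩]
            omega
      obtain ⟨r1, hr1U, hr1⟩ := hpt c1 hc1.1 hc1.2 hs1.1 hb1.1 hb1.2
      obtain ⟨r2, hr2U, hr2⟩ := hpt c2 hc2'.1 hc2'.2 hs2.1 hb2.1 hb2.2
      have hr12 : r1 ≠ r2 := by
        rintro rfl
        exact hne (hr1.trans hr2.symm)
      have hxr1 : x ≠ r1 := fun h => hxU (h ▸ hr1U)
      have hxr2 : x ≠ r2 := fun h => hxU (h ▸ hr2U)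
      have hYc : ({x, r1, r2} : Finset V).card = 3 :=
        Finset.card_eq_three.2 ⟨x, r1, r2, hxr1, hxr2, hr12, rfl⟩
      have hYsub : ({x, r1, r2} : Finset V) ⊆ c1.U ∪ c2.U := by
        intro v hv
        simp only [Finset.mem_insert, Finset.mem_singleton] at hv
        rw [Finset.mem_union, hr1, hr2]
        rcases hv with rfl | rfl | rfl
        · left; simp
        · left; simp
        · right; simp
      have hYr : rk st.p ({x, r1, r2} : Finset V) = 2 := by
        apply le_antisymm
        · exact (rk_mono st.p hYsub).trans h1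
        · have h3 := rk_mono st.p (show ({x, r1} : Finset V) ⊆ {x, r1, r2} by
            intro v hv
            simp only [Finset.mem_insert, Finset.mem_singleton] at hv ⊢
            tauto)
          rw [hb.indep {x, r1} (by rw [Finset.card_pair hxr1]), Finset.card_pair hxr1] at h3
          exact h3
      refine hxR (hR {x, r1, r2} ?_ hYc hYr x (by simp) ?_)
      · exact hYsub.trans (Finset.union_subset hc1.2 hc2'.2)
      · intro v hv
        simp only [Finset.mem_erase, Finset.mem_insert, Finset.mem_singleton] at hv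
        rcases hv with ⟨h3, rfl | rfl | rfl⟩
        · exact absurd rfl h3
        · exact hUR hr1U
        · exact hUR hr2U
  · -- `s + 1` points
    have hFc : (flt st.p U).card = s + 1 := le_antisymm hsmall hge
    have hFeq : flt st.p U = insert x U := by
      symm
      exact Finset.eq_of_subset_of_card_le hins (by omega)
    have hcpos : 0 < (st.cin (flt st.p U)).card := by omega
    obtain ⟨c, hc⟩ := Finset.card_pos.1 hcpos
    obtain ⟨hc1, hc2⟩ := Finset.mem_filter.1 hc
    have hcs := hb.csize c hc1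
    refine hxR (hR c.U hc2 hcs.1 hcs.2 x ?_ ?_)
    · by_contra hxc
      apply class_not_subset hs hb hU hr hc1
      intro v hv
      have h1 := hc2 hv
      rw [hFeq, Finset.mem_insert] at h1
      rcases h1 with rfl | h1
      · exact absurd hv hxc
      · exact h1
    · intro v hv
      rw [Finset.mem_erase] at hv
      have h1 := hc2 hv.2
      rw [hFeq, Finset.mem_insert] at h1
      rcases h1 with h1 | h1
      · exact absurd h1 hv.1
      · exact hUR h1

/-! ### The certificates -/

/-- `t` is adjacent to `y` in every saturated graph containing the present one -/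
def Forced (s : ℕ) {V : Type} [Fintype V] (st : St V) (t y : V) : Prop :=
  ∀ G' : SimpleGraph V, st.G ≤ G' → Sat s ⟨G', st.p, st.cls⟩ → G'.Adj y t

/-- every closed set is contained in a vertex set of the starting graph with at most the same
potential, whose closure contains the present edges and certifies the dependent sets -/
def Star (s k : ℕ) (a b : ℤ) {V : Type} [Fintype V] (G0 : SimpleGraph V) (st : St V) : Prop :=
  ∀ X, Clo st X → ∃ S : Finset V, X ⊆ S ∧ a * S.card - b * eIn G0 S ≤ PhiS a b st X ∧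
    (∀ u ∈ X, ∀ v ∈ X, st.G.Adj u v → (closure (Kst s (k + 1)) (restr G0 S)).Adj u v) ∧
    ∀ Y ⊆ X, Y.card = s → rk st.p Y = s - 1 → ∃ T : Finset V, k ≤ T.card ∧
      ∀ y ∈ Y, ∀ t ∈ T, (closure (Kst s (k + 1)) (restr G0 S)).Adj y t ∧ Forced s st t y

lemma Star.pos {s k : ℕ} {a b : ℤ} {V : Type} [Fintype V] {G0 : SimpleGraph V} {st : St V}
    (h : Star s k a b G0 st)
    (h0 : ∀ S : Finset V, S.Nonempty → b * eIn G0 S < a * S.card) : Pos a b st := by
  intro X hne hX
  obtain ⟨S, hXS, hS, -, -⟩ := h X hX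
  have h1 := h0 S (hne.mono hXS)
  linarith

lemma Star.init {s k : ℕ} (hs : 3 ≤ s) {a b : ℤ} (hb : 0 ≤ b) {V : Type} [Fintype V]
    (G0 : SimpleGraph V) : Star s k a b G0 (St.init G0) := by
  intro X _
  refine ⟨X, subset_rfl, ?_, ?_, ?_⟩
  · have h0 : (St.init G0).cin X = ∅ := by simp [St.cin, St.init]
    unfold PhiS
    rw [h0, Finset.sum_empty]
    have h1 : (ell (St.init G0).G (St.init G0).p X : ℤ) ≤ eIn G0 X := by
      exact_mod_cast ell_le_eIn G0 _ X
    have h2 := mul_le_mul_of_nonneg_left h1 hb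
    linarith
  · intro u hu v hv huv
    exact ⟨huv.ne, .base ⟨huv, hu, hv⟩⟩
  · intro Y _ hY hrY
    exfalso
    have h1 : rk (St.init G0).p Y = Y.card := rk_basisVec Y
    omega

lemma Star.addEdge {s k : ℕ} {a b : ℤ} {V : Type} [Fintype V] {G0 : SimpleGraph V} {st : St V}
    (h : Star s k a b G0 st) {U : Finset V} {w z : V} (hU : U.card = s)
    (hrU : rk st.p U = s - 1) (hz : z ∈ U) (hw : w ∉ U)
    (hadj : ∀ u ∈ U, u ≠ z → st.G.Adj w u)
    (hX' : ∀ X, Clo st X → ∃ X', X ⊆ X' ∧ Clo st X' ∧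
      PhiS a b st X' ≤ PhiS a b (st.addEdge w z) X ∧ (w ∈ X → z ∈ X → U ⊆ X')) :
    Star s k a b G0 (st.addEdge w z) := by
  intro X hX
  have hXst : Clo st X := hX
  obtain ⟨X', hXX', hClo, hPhi, hUX'⟩ := hX' X hXst
  obtain ⟨S, hX'S, hS, hedge, hcert⟩ := h X' hClo
  refine ⟨S, hXX'.trans hX'S, hS.trans hPhi, ?_, ?_⟩
  · have hnew : w ∈ X → z ∈ X → (closure (Kst s (k + 1)) (restr G0 S)).Adj w z := by
      intro hwX hzX
      have hUX := hUX' hwX hzX
      obtain ⟨T, hT, hUT⟩ := hcert U hUX hU hrU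
      refine closure_copy hU hz hw ?_ hT (fun u hu t ht => (hUT u hu t ht).1)
      intro u hu huz
      exact hedge w (hXX' hwX) u (hUX hu) (hadj u hu huz)
    intro u hu v hv huv
    rcases huv with huv | huv
    · exact hedge u (hXX' hu) v (hXX' hv) huv
    · rw [fromEdgeSet_adj, Set.mem_singleton_iff, Sym2.eq_iff] at huv
      rcases huv.1 with ⟨rfl, rfl⟩ | ⟨rfl, rfl⟩
      · exact hnew hu hv
      · exact (hnew hv hu).symm
  · intro Y hY hYs hYr
    obtain ⟨T, hT, hYT⟩ := hcert Y (hY.trans hXX') hYs hYr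
    refine ⟨T, hT, fun y hy t ht => ⟨(hYT y hy t ht).1, ?_⟩⟩
    intro G' hG' hsat
    exact (hYT y hy t ht).2 G' (le_trans le_sup_left hG') hsat

/-- saturation passes to the vectors before an activation -/
lemma sat_of_quot {s : ℕ} (hs : 3 ≤ s) {V : Type} [Fintype V] {p p' : V → V → ℚ} {U : Finset V}
    (hr : rk p U = s) (hq : QuotRel p p' U) {G' : SimpleGraph V}
    {cl cl' : Finset (Cls V)} (h : Sat s ⟨G', p', cl'⟩) : Sat s ⟨G', p, cl⟩ := by
  intro Y w z hY hrY hz hw hadj
  refine h Y w z hY ?_ hz hw hadj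
  have hrY' : rk p Y = s - 1 := hrY
  show rk p' Y = s - 1
  rw [← hrY']
  refine hq.rk2 Y ?_
  intro hsub
  have h1 := rk_mono p hsub
  rw [rk_flt, hr] at h1
  omega

lemma Star.act {s k : ℕ} (hs : 3 ≤ s) {a b : ℤ} {V : Type} [Fintype V] {G0 : SimpleGraph V}
    {st : St V} (hb : Bas s st) (hsat : Sat s st) (h : Star s k a b G0 st) {U : Finset V}
    (hU : U.card = s) (hr : rk st.p U = s)
    (hF : (flt st.p U).card ≤ s + 1 ∨ (s = 3 ∧ (flt st.p U).card ≤ 5))
    (hex : ∀ t₀, (∀ u ∈ U, st.G.Adj u t₀) → t₀ ∈ flt st.p U → (flt st.p U).card ≤ s + 1 ∧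
        ∀ y ∈ U, ∃ u ∈ U, u ≠ y ∧ ¬ st.G.Adj y u)
    {p' : V → V → ℚ} {c : Cls V} (hq : QuotRel st.p p' U)
    (hX' : ∀ X, Clo (st.act p' c) X → ∃ X', X ⊆ X' ∧ Clo st X' ∧
          PhiS a b st X' ≤ PhiS a b (st.act p' c) X ∧
          (U ⊆ X → k ≤ (X'.filter fun t => ∀ u ∈ U, st.G.Adj u t).card)) :
    Star s k a b G0 (st.act p' c) := by
  intro X hX
  obtain ⟨X', hXX', hClo, hPhi, hk⟩ := hX' X hX
  obtain ⟨S, hX'S, hS, hedge, hcert⟩ := h X' hClo
  refine ⟨S, hXX'.trans hX'S, hS.trans hPhi, ?_, ?_⟩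
  · intro u hu v hv huv
    exact hedge u (hXX' hu) v (hXX' hv) huv
  intro Y hY hYs hYr
  have hYr' : rk p' Y = s - 1 := hYr
  have hsatp : ∀ G' : SimpleGraph V, Sat s (⟨G', p', (st.act p' c).cls⟩ : St V) →
      Sat s (⟨G', st.p, st.cls⟩ : St V) := fun G' hG' => sat_of_quot hs hr hq hG'
  by_cases hold : rk st.p Y = s - 1
  · obtain ⟨T, hT, hYT⟩ := hcert Y (hY.trans hXX') hYs hold
    refine ⟨T, hT, fun y hy t ht => ⟨(hYT y hy t ht).1, ?_⟩⟩
    intro G' hG' hsat'
    exact (hYT y hy t ht).2 G' hG' (hsatp G' hsat')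
  -- the new dependent sets
  have hUY : U ⊆ flt st.p Y := by
    by_contra hcon
    exact hold ((hq.rk2 Y hcon).symm.trans hYr')
  have hrY : rk st.p Y = s := by
    have h1 := hq.rk1 Y hUY
    omega
  have hFY : flt st.p U = flt st.p Y := by
    refine flt_eq_of_rk st.p (flt_isFlat st.p Y) hUY ?_
    rw [rk_flt, hrY, hr]
  have hYF : Y ⊆ flt st.p U := by
    rw [hFY]
    exact subset_flt _ _
  have hFX : flt st.p U ⊆ X := by
    rw [hFY]
    exact (hq.isFlat hX.1).flt_subset hY
  have hUX : U ⊆ X := (subset_flt _ _).trans hFX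
  have hkN := hk hUX
  obtain ⟨N, hN⟩ : ∃ N, N = X'.filter fun t => ∀ u ∈ U, st.G.Adj u t := ⟨_, rfl⟩
  rw [← hN] at hkN
  have hNX : ∀ t ∈ N, t ∈ X' ∧ ∀ u ∈ U, st.G.Adj u t := by
    intro t ht
    rw [hN] at ht
    exact Finset.mem_filter.1 ht
  have hUN : ∀ u ∈ U, ∀ t ∈ N, (closure (Kst s (k + 1)) (restr G0 S)).Adj u t := by
    intro u hu t ht
    exact hedge u (hXX' (hUX hu)) t (hNX t ht).1 ((hNX t ht).2 u hu)
  -- vertices outside the flat
  have hout : ∀ t, t ∉ flt st.p U →
      (∀ u ∈ U, (closure (Kst s (k + 1)) (restr G0 S)).Adj u t) →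
      ∀ y ∈ flt st.p U, (closure (Kst s (k + 1)) (restr G0 S)).Adj y t := by
    intro t ht hut y hy
    have h1 := gen_flat hs hb hU hr hF
      (R := univ.filter fun v => (closure (Kst s (k + 1)) (restr G0 S)).Adj v t) ?_ ?_ hy
    · exact (Finset.mem_filter.1 h1).2
    · intro u hu
      exact Finset.mem_filter.2 ⟨Finset.mem_univ _, hut u hu⟩
    · intro Y0 hY0 hY0s hY0r z hz hsub
      rw [Finset.mem_filter]
      refine ⟨Finset.mem_univ _, ?_⟩
      obtain ⟨T, hT, hYT⟩ := hcert Y0 ((hY0.trans hFX).trans hXX') hY0s hY0r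
      refine (closure_copy hY0s hz (fun h => ht (hY0 h)) ?_ hT
        (fun u hu t ht => (hYT u hu t ht).1)).symm
      intro u hu huz
      exact (Finset.mem_filter.1 (hsub (Finset.mem_erase.2 ⟨huz, hu⟩))).2.symm
  have hout' : ∀ G' : SimpleGraph V, Sat s (⟨G', st.p, st.cls⟩ : St V) →
      ∀ t, t ∉ flt st.p U → (∀ u ∈ U, G'.Adj u t) → ∀ y ∈ flt st.p U, G'.Adj y t := by
    intro G' hG' t ht hut y hy
    have h1 := gen_flat hs hb hU hr hF (R := univ.filter fun v => G'.Adj v t) ?_ ?_ hy
    · exact (Finset.mem_filter.1 h1).2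
    · intro u hu
      exact Finset.mem_filter.2 ⟨Finset.mem_univ _, hut u hu⟩
    · intro Y0 hY0 hY0s hY0r z hz hsub
      rw [Finset.mem_filter]
      refine ⟨Finset.mem_univ _, ?_⟩
      refine (hG' Y0 t z hY0s hY0r hz (fun h => ht (hY0 h)) ?_).symm
      intro u hu huz
      exact (Finset.mem_filter.1 (hsub (Finset.mem_erase.2 ⟨huz, hu⟩))).2.symm
  by_cases hNF : ∀ t ∈ N, t ∉ flt st.p U
  · refine ⟨N, hkN, fun y hy t ht => ⟨hout t (hNF t ht) (fun u hu => hUN u hu t ht) y (hYF hy), ?_⟩⟩
    intro G' hG' hsat'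
    exact hout' G' (hsatp G' hsat') t (hNF t ht) (fun u hu => hG' ((hNX t ht).2 u hu)) y (hYF hy)
  -- a common neighbour inside the flat
  push Not at hNF
  obtain ⟨t₀, ht₀N, ht₀F⟩ := hNF
  obtain ⟨hFs, hy0⟩ := hex t₀ (hNX t₀ ht₀N).2 ht₀F
  have ht₀U : t₀ ∉ U := fun h => ((hNX t₀ ht₀N).2 t₀ h).ne rfl
  have hins : insert t₀ U ⊆ flt st.p U := Finset.insert_subset ht₀F (subset_flt _ _)
  have hcins : (insert t₀ U).card = s + 1 := by rw [Finset.card_insert_of_notMem ht₀U, hU]
  have hFeq : flt st.p U = insert t₀ U := by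
    symm
    exact Finset.eq_of_subset_of_card_le hins (by omega)
  have hcount := hb.count (flt st.p U) (flt_isFlat _ _)
  rw [rk_flt, hr, hFeq, hcins, ← hFeq] at hcount
  obtain ⟨c0, hc0⟩ := Finset.card_pos.1 (show 0 < (st.cin (flt st.p U)).card by omega)
  obtain ⟨hc01, hc02⟩ := Finset.mem_filter.1 hc0
  have hcs := hb.csize c0 hc01
  have hsubc : ∀ v ∈ c0.U, v = t₀ ∨ v ∈ U := by
    intro v hv
    have h1 := hc02 hv
    rwa [hFeq, Finset.mem_insert] at h1
  have ht₀c : t₀ ∈ c0.U := by
    by_contra hcon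
    apply class_not_subset hs hb hU hr hc01
    intro v hv
    rcases hsubc v hv with rfl | h1
    · exact absurd hv hcon
    · exact h1
  obtain ⟨y₀, hy₀U, hy₀c⟩ : ∃ y₀ ∈ U, y₀ ∉ c0.U := by
    by_contra hcon
    push Not at hcon
    have h1 := Finset.card_le_card (Finset.insert_subset ht₀c (show U ⊆ c0.U from hcon))
    omega
  have hUc : ∀ u ∈ U, u ≠ y₀ → u ∈ c0.U := by
    intro u hu huy
    by_contra hcon
    have h1 : c0.U ⊆ insert t₀ ((U.erase y₀).erase u) := by
      intro v hv
      rcases hsubc v hv with rfl | h2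
      · exact Finset.mem_insert_self _ _
      · refine Finset.mem_insert_of_mem (Finset.mem_erase.2 ⟨?_, Finset.mem_erase.2 ⟨?_, h2⟩⟩)
        · rintro rfl
          exact hcon hv
        · rintro rfl
          exact hy₀c hv
    have h2 := Finset.card_le_card h1
    have h3 := Finset.card_insert_le t₀ ((U.erase y₀).erase u)
    have h4 : u ∈ U.erase y₀ := Finset.mem_erase.2 ⟨huy, hu⟩
    rw [Finset.card_erase_of_mem h4, Finset.card_erase_of_mem hy₀U] at h3
    omega
  obtain ⟨T, hT, hcT⟩ := hcert c0.U ((hc02.trans hFX).trans hXX') hcs.1 hcs.2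
  have hTst : ∀ y ∈ c0.U, ∀ t ∈ T, st.G.Adj y t := by
    intro y hy t ht
    exact (hcT y hy t ht).2 st.G le_rfl hsat
  have hTF : ∀ t ∈ T, t ∉ flt st.p U := by
    intro t ht htF
    rw [hFeq, Finset.mem_insert] at htF
    rcases htF with rfl | htU
    · exact (hTst t ht₀c t ht).ne rfl
    · by_cases hty : t = y₀
      · subst hty
        obtain ⟨u, hu, huy, hnot⟩ := hy0 t hy₀U
        exact hnot (hTst u (hUc u hu huy) t ht).symm
      · exact (hTst t (hUc t htU hty) t ht).ne rfl
  refine ⟨T, hT, fun y hy t ht => ⟨?_, ?_⟩⟩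
  · refine hout t (hTF t ht) ?_ y (hYF hy)
    have htU : t ∉ U := fun h => hTF t ht (subset_flt _ _ h)
    have h1 : ∀ u ∈ U, u ≠ y₀ → (closure (Kst s (k + 1)) (restr G0 S)).Adj t u := fun u hu huy =>
      (hcT u (hUc u hu huy) t ht).1.symm
    intro u hu
    by_cases huy : u = y₀
    · subst huy
      exact (closure_copy hU hu htU h1 hkN hUN).symm
    · exact (h1 u hu huy).symm
  · intro G' hG' hsat'
    have htU : t ∉ U := fun h => hTF t ht (subset_flt _ _ h)
    refine hout' G' (hsatp G' hsat') t (hTF t ht) ?_ y (hYF hy)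
    have h1 : ∀ u ∈ U, u ≠ y₀ → G'.Adj t u := fun u hu huy =>
      (hG' (hTst u (hUc u hu huy) t ht)).symm
    have hrU' : rk p' U = s - 1 := by
      have h2 := hq.rk1 U (subset_flt _ _)
      omega
    intro u hu
    by_cases huy : u = y₀
    · subst huy
      exact (hsat' U t u hU hrU' hu htU h1).symm
    · exact (h1 u hu huy).symm

/-! ### The run of the process -/

/-- the number of missing edges plus the total rank -/
noncomputable def meas {V : Type} [Fintype V] (st : St V) : ℕ :=
  ((univ : Finset (V × V)).filter fun e => ¬ st.G.Adj e.1 e.2).card + rk st.p univ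

lemma meas_addEdge {V : Type} [Fintype V] {st : St V} {w z : V} (hwz : w ≠ z)
    (h : ¬ st.G.Adj w z) : meas (st.addEdge w z) < meas st := by
  unfold meas
  have h1 : rk (st.addEdge w z).p univ = rk st.p univ := rfl
  rw [h1]
  refine Nat.add_lt_add_right (Finset.card_lt_card ?_) _
  refine ⟨?_, ?_⟩
  · intro e he
    rw [Finset.mem_filter] at he ⊢
    exact ⟨he.1, fun h2 => he.2 (Or.inl h2)⟩
  · intro hcon
    have h2 : (w, z) ∈ (univ : Finset (V × V)).filter fun e => ¬ st.G.Adj e.1 e.2 :=
      Finset.mem_filter.2 ⟨Finset.mem_univ _, h⟩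
    have h3 := (Finset.mem_filter.1 (hcon h2)).2
    apply h3
    right
    rw [fromEdgeSet_adj]
    exact ⟨rfl, hwz⟩

lemma meas_act {V : Type} [Fintype V] {st : St V} {p' : V → V → ℚ} {c : Cls V} {U : Finset V}
    (hq : QuotRel st.p p' U) : meas (st.act p' c) < meas st := by
  unfold meas
  have h1 : rk p' univ + 1 = rk st.p univ :=
    hq.rk1 univ fun v _ => subset_flt _ _ (Finset.mem_univ v)
  have h2 : rk (st.act p' c).p univ = rk p' univ := rfl
  have h3 : (st.act p' c).G = st.G := rfl
  rw [h2, h3]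
  omega

lemma run {s k : ℕ} {a b D : ℤ} (hs : 3 ≤ s) (hk : 1 ≤ k)
    {Q : ∀ (V : Type) [Fintype V], St V → Prop} (hQ : Scheme s k a b D Q) {V : Type} [Fintype V]
    (G0 : SimpleGraph V) (h0 : ∀ S : Finset V, S.Nonempty → b * eIn G0 S < a * S.card) :
    ∀ (n : ℕ) (st : St V), meas st = n → Q V st → Star s k a b G0 st → G0 ≤ st.G →
      ∃ st' : St V, Q V st' ∧ Star s k a b G0 st' ∧ G0 ≤ st'.G ∧ Sat s st' ∧
        ∀ U T : Finset V, U.card = s → T.card = k → (∀ u ∈ U, ∀ t ∈ T, st'.G.Adj u t) →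
          rk st'.p U = s - 1 := by
  intro n
  induction n using Nat.strong_induction_on with
  | _ n ih =>
    intro st hn hQst hstar hG0
    have hb := hQ.bas V st hQst
    have hpos : Pos a b st := hstar.pos h0
    by_cases hsat : Sat s st
    · by_cases hfin : ∀ U T : Finset V, U.card = s → T.card = k →
          (∀ u ∈ U, ∀ t ∈ T, st.G.Adj u t) → rk st.p U = s - 1
      · exact ⟨st, hQst, hstar, hG0, hsat, hfin⟩
      · push Not at hfin
        obtain ⟨U, T, hU, hT, hUT, hr⟩ := hfin
        have hrU : rk st.p U = s := by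
          have h1 := rk_le_card st.p U
          obtain ⟨Y, hYU, hY⟩ := Finset.exists_subset_card_eq (show s - 1 ≤ U.card by omega)
          have h2 := hb.indep Y (by omega)
          have h3 := rk_mono st.p hYU
          omega
        obtain ⟨hF, -, p', c, -, hq, hQ', hX'⟩ := hQ.act V st hQst hpos hsat U T hU hrU hT hUT
        have hex : ∀ t₀, (∀ u ∈ U, st.G.Adj u t₀) → t₀ ∈ flt st.p U →
            (flt st.p U).card ≤ s + 1 ∧ ∀ y ∈ U, ∃ u ∈ U, u ≠ y ∧ ¬ st.G.Adj y u := by
          intro t₀ ht₀ ht₀F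
          by_cases ht₀T : t₀ ∈ T
          · exact (hQ.act V st hQst hpos hsat U T hU hrU hT hUT).2.1 t₀ ht₀T ht₀F
          · obtain ⟨T', hT'T, hT'⟩ := Finset.exists_subset_card_eq (show k - 1 ≤ T.card by omega)
            have ht₀T' : t₀ ∉ T' := fun h => ht₀T (hT'T h)
            refine (hQ.act V st hQst hpos hsat U (insert t₀ T') hU hrU ?_ ?_).2.1 t₀
              (Finset.mem_insert_self _ _) ht₀F
            · rw [Finset.card_insert_of_notMem ht₀T', hT']
              omega
            · intro u hu t ht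
              rcases Finset.mem_insert.1 ht with rfl | ht
              · exact ht₀ u hu
              · exact hUT u hu t (hT'T ht)
        exact ih (meas (st.act p' c)) (hn ▸ meas_act hq) (st.act p' c) rfl hQ'
          (Star.act hs hb hsat hstar hU hrU hF hex hq hX') hG0
    · unfold Sat at hsat
      push Not at hsat
      obtain ⟨U, w, z, hU, hrU, hz, hw, hadj, hnot⟩ := hsat
      obtain ⟨hQ', hX'⟩ := hQ.edge V st hQst hpos U w z hU hrU hz hw hadj hnot
      have hwz : w ≠ z := fun h => hw (h ▸ hz)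
      exact ih (meas (st.addEdge w z)) (hn ▸ meas_addEdge hwz hnot) (st.addEdge w z) rfl hQ'
        (hstar.addEdge hU hrU hz hw hadj hX') (hG0.trans le_sup_left)

/-- the final graph contains the closure -/
lemma closure_le_of_sat {s k : ℕ} {V : Type} [Fintype V] {G0 : SimpleGraph V} {st : St V}
    (hG0 : G0 ≤ st.G) (hsat : Sat s st)
    (hfin : ∀ U T : Finset V, U.card = s → T.card = k →
      (∀ u ∈ U, ∀ t ∈ T, st.G.Adj u t) → rk st.p U = s - 1) {e : Sym2 V}
    (he : InClosure (Kst s (k + 1)) G0 e) : e ∈ st.G.edgeSet := by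
  induction he with
  | base he => exact edgeSet_mono hG0 he
  | @step e f he h ih =>
    obtain ⟨i, j, rfl⟩ : ∃ i j, e = s(f (Sum.inl i), f (Sum.inr j)) := by
      induction e using Sym2.ind with
      | _ u v =>
      rw [mem_edgeSet, map_adj] at he
      obtain ⟨a, b, hab, rfl, rfl⟩ := he
      rcases a with i | j <;> rcases b with i' | j'
      · simp [Kst] at hab
      · exact ⟨i, j', rfl⟩
      · exact ⟨i', j, Sym2.eq_swap⟩
      · simp [Kst] at hab
    let fl : Fin s ↪ V := ⟨fun i => f (Sum.inl i), fun a b hab => by simpa using f.injective hab⟩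
    let fr : Fin (k + 1) ↪ V := ⟨fun i => f (Sum.inr i), fun a b hab => by
      simpa using f.injective hab⟩
    have hadj : ∀ i' j', (i' ≠ i ∨ j' ≠ j) → st.G.Adj (fl i') (fr j') := by
      intro i' j' hij
      have h1 := ih s(f (Sum.inl i'), f (Sum.inr j')) ?_ ?_
      · exact h1
      · rw [mem_edgeSet, map_adj]
        exact ⟨Sum.inl i', Sum.inr j', by simp [Kst], rfl, rfl⟩
      · intro heq
        rw [Sym2.eq_iff] at heq
        rcases heq with ⟨h1, h2⟩ | ⟨h1, h2⟩
        · have h3 := f.injective h1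
          have h4 := f.injective h2
          rw [Sum.inl.injEq] at h3
          rw [Sum.inr.injEq] at h4
          rcases hij with h | h
          · exact h h3
          · exact h h4
        · have := f.injective h1
          simp at this
    have hU : ((univ : Finset (Fin s)).map fl).card = s := by
      rw [card_map, card_univ, Fintype.card_fin]
    have hT : (((univ : Finset (Fin (k + 1))).erase j).map fr).card = k := by
      rw [card_map, card_erase_of_mem (mem_univ _), card_univ, Fintype.card_fin]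
      rfl
    have hr := hfin _ _ hU hT (by
      intro u hu t ht
      rw [mem_map] at hu ht
      obtain ⟨i', -, rfl⟩ := hu
      obtain ⟨j', hj', rfl⟩ := ht
      exact hadj i' j' (Or.inr (Finset.ne_of_mem_erase hj')))
    have h1 := hsat _ (fr j) (fl i) hU hr (mem_map_of_mem _ (mem_univ _)) (by
      intro hcon
      rw [mem_map] at hcon
      obtain ⟨i', -, hi'⟩ := hcon
      have := f.injective hi'
      simp at this) (by
      intro u hu hne
      rw [mem_map] at hu
      obtain ⟨i', -, rfl⟩ := hu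
      refine (hadj i' j (Or.inl ?_)).symm
      rintro rfl
      exact hne rfl)
    exact h1.symm

/-- MAIN THEOREM of the module. -/
theorem hullProp_of_scheme (s k a b D : ℕ) (hs : 3 ≤ s) (hk : 1 ≤ k)
    (Q : ∀ (V : Type) [Fintype V], St V → Prop) (hQ : Scheme s k (a : ℤ) (b : ℤ) (D : ℤ) Q) :
    HullProp (Kst s (k + 1)) a b D := by
  intro V _ G h0 u v huv hcl
  have h0' : ∀ S : Finset V, S.Nonempty → (b : ℤ) * eIn G S < a * S.card := by
    intro S hS
    exact_mod_cast h0 S hS
  obtain ⟨st, hQst, hstar, hG0, hsat, hfin⟩ := run hs hk hQ G h0' _ (St.init G) rfl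
    (hQ.init V G) (Star.init hs (by positivity) G) le_rfl
  have hadj : st.G.Adj u v := closure_le_of_sat hG0 hsat hfin hcl
  obtain ⟨X, huX, hvX, hClo, hPhi⟩ := hQ.fin V st hQst (hstar.pos h0') u v hadj
  obtain ⟨S, hXS, hS, hedge, -⟩ := hstar X hClo
  refine ⟨S, hXS huX, hXS hvX, (hedge u huX v hvX hadj).2, ?_⟩
  have h1 := hS.trans hPhi
  have h2 : (a : ℤ) * S.card ≤ b * eIn G S + D := by linarith
  exact_mod_cast h2

end MP30c94c
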