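import Mathlib
import Pool.Agent.Lib.MP30c94c.KSch

/-!
# The scheme with discounts at most `W`, `W ≤ kη - s b`
-/

open SimpleGraph Finset

namespace MP30c94c

attribute [local instance] Classical.propDecidable

/-- numerical data -/
structure ParW where
  s : ℕ
  k : ℕ
  L : ℕ
  a : ℤ
  b : ℤ
  W : ℤ
  hs : 3 ≤ s
  hk : 1 ≤ k
  hb : 0 < b
  hab : b < a
  heta0 : 0 < s * b - a
  heta : s * b - a ≤ b
  hW0 : 0 ≤ W
  hWb : W ≤ b
  hWmu : W + s * b ≤ k * (s * b - a)
  hE : (s - 1) * a ≤ k * (s * b - a) + (s - 2) * b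
  hL : L ≤ s + 1 ∨ (s = 3 ∧ L ≤ 5)

/-- `η = s b - a` -/
def ParW.eta (P : ParW) : ℤ := P.s * P.b - P.a

/-- the class invariants: `ρ` is the rank of the helper set at the time of the activation -/
def ClsOK (P : ParW) {V : Type} [Fintype V] (st : St V) (c : Cls V) : Prop :=
  ∃ ρ : ℕ, c.th = P.k * P.eta - (P.eta * c.A.card - P.b * ρ) ∧ rk st.p c.A ≤ ρ ∧
    0 ≤ P.eta * c.A.card - P.b * ρ ∧ P.eta * c.A.card - P.b * ρ ≤ P.W ∧ c.A.card ≤ P.k ∧
    (∀ B, B ⊆ c.A → B ≠ c.A →
      P.b * (rk st.p c.A - rk st.p B) + 1 ≤ P.eta * ((c.A \ B).card : ℤ)) ∧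
    (∀ x ∈ c.A, ∀ u ∈ c.U, st.G.Adj u x) ∧
    (c.A.card : ℤ) - ρ ≤ ((st.cin (flt st.p c.A)).filter fun c' => c'.t < c.t).card

/-- the invariant -/
def QW (P : ParW) (V : Type) [Fintype V] (st : St V) : Prop :=
  Bas P.s st ∧ ∀ c ∈ st.cls, ClsOK P st c ∧ c.t < st.cls.card

/-- the bounds which have to be derived from positivity -/
def BoundsW (P : ParW) : Prop :=
  ∀ (V : Type) [Fintype V] (st : St V), QW P V st → Pos P.a P.b st →
    (∀ F : Finset V, IsFlat st.p F → rk st.p F ≤ P.s - 1 → F.card ≤ P.L) ∧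
    (Sat P.s st → ∀ U T : Finset V, U.card = P.s → rk st.p U = P.s → T.card = P.k →
      (∀ u ∈ U, ∀ t ∈ T, st.G.Adj u t) →
      ∀ B ⊆ T, P.eta * B.card - P.b * rk st.p B ≤ P.W)

/-- the price of a class is at least `s b` -/
lemma ClsOK.th_ge {P : ParW} {V : Type} [Fintype V] {st : St V} {c : Cls V} (h : ClsOK P st c) :
    P.s * P.b ≤ c.th ∧ P.k * P.eta - P.W ≤ c.th := by
  obtain ⟨ρ, h1, _, h3, h4, _⟩ := h
  have h5 := P.hWmu
  have he : P.eta = P.s * P.b - P.a := rfl
  rw [← he] at h5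
  constructor
  · rw [h1]; linarith
  · rw [h1]; linarith

lemma ParW.eta_pos (P : ParW) : 0 < P.eta := P.heta0

lemma ParW.eta_le (P : ParW) : P.eta ≤ P.b := P.heta

lemma cin_mono {V : Type} [Fintype V] (st : St V) {X Z : Finset V} (h : X ⊆ Z) :
    st.cin X ⊆ st.cin Z := by
  intro c hc
  simp only [St.cin, Finset.mem_filter] at hc ⊢
  exact ⟨hc.1, hc.2.trans h⟩

lemma cin_subset {V : Type} [Fintype V] (st : St V) (X : Finset V) : st.cin X ⊆ st.cls :=
  Finset.filter_subset _ _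

/-- the potential of a flat -/
lemma PhiS_flat (P : ParW) {V : Type} [Fintype V] {st : St V} (hB : Bas P.s st)
    {X : Finset V} (hX : IsFlat st.p X) :
    PhiS P.a P.b st X = P.a * (rk st.p X : ℤ) - (∑ c ∈ st.cin X, (c.th - P.a))
      - P.b * (ell st.G st.p X : ℤ) := by
  have h1 := hB.count X hX
  unfold PhiS
  rw [Finset.sum_sub_distrib, Finset.sum_const, nsmul_eq_mul]
  have h2 : (X.card : ℤ) = rk st.p X + ((st.cin X).card : ℤ) := by exact_mod_cast h1
  rw [h2]
  ring

lemma new_card {s : ℕ} {V : Type} [Fintype V] {st : St V} (hB : Bas s st)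
    {X Z : Finset V} (hX : IsFlat st.p X) (hZ : IsFlat st.p Z) (hXZ : X ⊆ Z) :
    ((st.cin Z \ st.cin X).card : ℤ) = ((Z \ X).card : ℤ) - ((rk st.p Z : ℤ) - rk st.p X) := by
  have h1 := hB.count X hX
  have h2 := hB.count Z hZ
  have h3 := Finset.card_sdiff_add_card_eq_card hXZ
  have h4 := Finset.card_sdiff_add_card_eq_card (cin_mono st hXZ)
  have h1' : (X.card : ℤ) = rk st.p X + ((st.cin X).card : ℤ) := by exact_mod_cast h1
  have h2' : (Z.card : ℤ) = rk st.p Z + ((st.cin Z).card : ℤ) := by exact_mod_cast h2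
  have h3' : ((Z \ X).card : ℤ) + X.card = Z.card := by exact_mod_cast h3
  have h4' : ((st.cin Z \ st.cin X).card : ℤ) + (st.cin X).card = (st.cin Z).card := by
    exact_mod_cast h4
  linarith

lemma new_sum (P : ParW) {V : Type} [Fintype V] {st : St V} (hQ : QW P V st)
    (N : Finset (Cls V)) (hN : N ⊆ st.cls) :
    P.eta * (N.card : ℤ) ≤ ∑ c ∈ N, (c.th - P.a) := by
  have h1 : ∀ c ∈ N, P.eta ≤ c.th - P.a := by
    intro c hc
    have h2 := ((hQ.2 c (hN hc)).1.th_ge).1
    have he : P.eta = P.s * P.b - P.a := rfl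
    rw [he]
    linarith
  have h2 := Finset.card_nsmul_le_sum N _ _ h1
  rw [nsmul_eq_mul] at h2
  linarith

lemma cls_drop (P : ParW) {V : Type} [Fintype V] {st : St V} (hQ : QW P V st)
    {c : Cls V} (hc : c ∈ st.cls) {B : Finset V} (hB : B ⊆ c.A) :
    P.b * ((rk st.p c.A : ℤ) - rk st.p B) ≤ P.eta * ((c.A \ B).card : ℤ) := by
  obtain ⟨ρ, _, _, _, _, _, h6, _⟩ := (hQ.2 c hc).1
  by_cases h : B = c.A
  · rw [h]
    simp
  · have := h6 B hB h
    linarith

/-- adding points to a flat: the change of the potential -/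
lemma PhiS_flat_ext (P : ParW) {V : Type} [Fintype V] {st : St V} (hQ : QW P V st)
    {X Z : Finset V} (hX : IsFlat st.p X) (hZ : IsFlat st.p Z) (hXZ : X ⊆ Z) :
    PhiS P.a P.b st Z = PhiS P.a P.b st X + P.a * ((rk st.p Z : ℤ) - rk st.p X)
      - (∑ c ∈ st.cin Z \ st.cin X, (c.th - P.a)) - P.b * ((ell st.G st.p Z : ℤ) - ell st.G st.p X) := by
  rw [PhiS_flat P hQ.1 hX, PhiS_flat P hQ.1 hZ]
  have h3 : ∑ c ∈ st.cin Z \ st.cin X, (c.th - P.a) + ∑ c ∈ st.cin X, (c.th - P.a)
      = ∑ c ∈ st.cin Z, (c.th - P.a) := Finset.sum_sdiff (cin_mono st hXZ)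
  rw [← h3]
  ring

/-- one helper step, quantitative version for later use -/
lemma helper_step (P : ParW) {V : Type} [Fintype V] {st : St V} (hQ : QW P V st)
    {X : Finset V} (hX : IsFlat st.p X) {c : Cls V} (hc : c ∈ st.cls) (hU : c.U ⊆ X) :
    PhiS P.a P.b st (flt st.p (X ∪ c.A)) ≤ PhiS P.a P.b st X
      + (P.b - P.eta) * ((rk st.p (X ∪ c.A) : ℤ) - rk st.p X)
      - ∑ c' ∈ st.cin (flt st.p (X ∪ c.A)) \ st.cin X, (c'.th - P.a) := by
  have hXZ : X ⊆ flt st.p (X ∪ c.A) := subset_union_left.trans (subset_flt _ _)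
  rw [PhiS_flat_ext P hQ hX (flt_isFlat _ _) hXZ]
  obtain ⟨ρ, _, _, _, _, _, _, h7, _⟩ := (hQ.2 c hc).1
  have hell := ell_ext st.G st.p (X := X) (Z := flt st.p (X ∪ c.A)) (B := c.U) (D := c.A) hXZ hU
    (by
      intro v hv d hd
      apply subset_flt
      rw [Finset.mem_union, Finset.mem_filter]
      exact Or.inr ⟨subset_flt _ _ (Finset.mem_union_right _ hd), h7 d hd v hv⟩)
  have hrk := (hQ.1.csize c hc).2
  have hs := P.hs
  rw [hrk] at hell
  have hm := rk_mono st.p (subset_union_left : X ⊆ X ∪ c.A)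
  have hell' : (ell st.G st.p X : ℤ) + ((P.s : ℤ) - 1) * ((rk st.p (X ∪ c.A) : ℤ) - rk st.p X)
      ≤ ell st.G st.p (flt st.p (X ∪ c.A)) := by
    have h1 : ((P.s - 1 : ℕ) : ℤ) = (P.s : ℤ) - 1 := by omega
    have h2 : ((rk st.p (X ∪ c.A) - rk st.p X : ℕ) : ℤ)
      = (rk st.p (X ∪ c.A) : ℤ) - rk st.p X := by omega
    rw [← h1, ← h2]
    exact_mod_cast hell
  rw [rk_flt]
  have he : P.eta = P.s * P.b - P.a := rfl
  have hb := P.hb
  have h3 := mul_le_mul_of_nonneg_left hell' hb.le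
  rw [he]
  nlinarith [h3]

/-- the change of the potential in one helper step -/
lemma helper_change (P : ParW) {V : Type} [Fintype V] {st : St V} (hQ : QW P V st)
    {X : Finset V} (hX : IsFlat st.p X) {c : Cls V} (hc : c ∈ st.cls) (hU : c.U ⊆ X) :
    PhiS P.a P.b st (flt st.p (X ∪ c.A)) ≤ PhiS P.a P.b st X
      + P.b * ((rk st.p (X ∪ c.A) : ℤ) - rk st.p X) - P.eta * ((c.A \ X).card : ℤ) := by
  have h1 := helper_step P hQ hX hc hU
  have hXZ : X ⊆ flt st.p (X ∪ c.A) := subset_union_left.trans (subset_flt _ _)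
  have h2 := new_card hQ.1 hX (flt_isFlat st.p (X ∪ c.A)) hXZ
  have h3 := new_sum P hQ (st.cin (flt st.p (X ∪ c.A)) \ st.cin X)
    (Finset.sdiff_subset.trans (cin_subset _ _))
  rw [rk_flt] at h2
  rw [h2] at h3
  have h4 : (c.A \ X).card ≤ (flt st.p (X ∪ c.A) \ X).card :=
    Finset.card_le_card (Finset.sdiff_subset_sdiff
      (subset_union_right.trans (subset_flt _ _)) subset_rfl)
  have h4' : ((c.A \ X).card : ℤ) ≤ ((flt st.p (X ∪ c.A) \ X).card : ℤ) := by exact_mod_cast h4
  have h5 := mul_le_mul_of_nonneg_left h4' P.eta_pos.le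
  nlinarith [h1, h3, h5]

/-- HULL lemma -/
lemma exists_hull (P : ParW) {V : Type} [Fintype V] {st : St V} (hQ : QW P V st)
    {X : Finset V} (hX : IsFlat st.p X) :
    ∃ X', X ⊆ X' ∧ Clo st X' ∧ PhiS P.a P.b st X' ≤ PhiS P.a P.b st X := by
  obtain ⟨n, hn⟩ : ∃ n, n = (univ \ X).card := ⟨_, rfl⟩
  induction n using Nat.strong_induction_on generalizing X with
  | _ n ih =>
    by_cases hcl : Clo st X
    · exact ⟨X, subset_rfl, hcl, le_rfl⟩
    · have hex : ∃ c ∈ st.cls, c.U ⊆ X ∧ ¬ c.A ⊆ X := by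
        by_contra hcon
        apply hcl
        refine ⟨hX, fun c hc hU => ?_⟩
        by_contra hA
        exact hcon ⟨c, hc, hU, hA⟩
      obtain ⟨c, hc, hU, hA⟩ := hex
      have hXZ : X ⊆ flt st.p (X ∪ c.A) := subset_union_left.trans (subset_flt _ _)
      have hAZ : c.A ⊆ flt st.p (X ∪ c.A) := subset_union_right.trans (subset_flt _ _)
      obtain ⟨x, hxA, hxX⟩ := Finset.not_subset.mp hA
      have hcard : (univ \ flt st.p (X ∪ c.A)).card < (univ \ X).card := by
        apply Finset.card_lt_card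
        refine ⟨Finset.sdiff_subset_sdiff subset_rfl hXZ, fun hcon => ?_⟩
        have h1 := hcon (Finset.mem_sdiff.mpr ⟨Finset.mem_univ x, hxX⟩)
        exact (Finset.mem_sdiff.mp h1).2 (hAZ hxA)
      obtain ⟨X', h1, h2, h3⟩ := ih _ (hn ▸ hcard) (flt_isFlat st.p (X ∪ c.A)) rfl
      refine ⟨X', hXZ.trans h1, h2, h3.trans ?_⟩
      have h4 := helper_change P hQ hX hc hU
      have h5 := rk_rel st.p (B := c.A ∩ X) (A := c.A) (X := X) Finset.inter_subset_left
        Finset.inter_subset_right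
      have h5' : (rk st.p (X ∪ c.A) : ℤ) + rk st.p (c.A ∩ X) ≤ rk st.p X + rk st.p c.A := by
        exact_mod_cast h5
      have h6 := cls_drop P hQ hc (B := c.A ∩ X) Finset.inter_subset_left
      have h7 : c.A \ (c.A ∩ X) = c.A \ X := Finset.sdiff_inter_self_left c.A X
      rw [h7] at h6
      have h8 := mul_le_mul_of_nonneg_left h5' P.hb.le
      nlinarith [h4, h6, h8]

/-! ### The edge step -/

lemma QW.addEdge {P : ParW} {V : Type} [Fintype V] {st : St V} (hQ : QW P V st) (w z : V) :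
    QW P V (st.addEdge w z) := by
  refine ⟨hQ.1.addEdge w z, fun c hc => ?_⟩
  obtain ⟨⟨ρ, h1, h2, h3, h4, h5, h6, h7, h8⟩, h9⟩ := hQ.2 c hc
  refine ⟨⟨ρ, h1, h2, h3, h4, h5, h6, ?_, h8⟩, h9⟩
  intro x hx u hu
  exact Or.inl (h7 x hx u hu)

lemma PhiS_addEdge (a b : ℤ) {V : Type} [Fintype V] (st : St V) (w z : V) (X : Finset V) :
    PhiS a b (st.addEdge w z) X = PhiS a b st X
      - b * ((ell (st.addEdge w z).G st.p X : ℤ) - ell st.G st.p X) := by
  have h1 : (st.addEdge w z).cin X = st.cin X := rfl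
  have h2 : (st.addEdge w z).p = st.p := rfl
  unfold PhiS
  rw [h1, h2]
  ring

lemma ell_addEdge_of_notMem {V : Type} [Fintype V] (G : SimpleGraph V) (p : V → V → ℚ) {w z : V}
    {X : Finset V} (h : ¬ (w ∈ X ∧ z ∈ X)) :
    ell (G ⊔ fromEdgeSet {s(w, z)}) p X = ell G p X := by
  have h1 : EL (G ⊔ fromEdgeSet {s(w, z)}) p X = EL G p X := by
    unfold EL
    congr 1
    ext M
    constructor
    · rintro ⟨u, hu, v, hv, hadj, rfl⟩
      refine ⟨u, hu, v, hv, ?_, rfl⟩
      rcases hadj with hadj | hadj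
      · exact hadj
      · exfalso
        rw [fromEdgeSet_adj, Set.mem_singleton_iff, Sym2.eq_iff] at hadj
        rcases hadj.1 with ⟨rfl, rfl⟩ | ⟨rfl, rfl⟩
        · exact h ⟨hu, hv⟩
        · exact h ⟨hv, hu⟩
    · rintro ⟨u, hu, v, hv, hadj, rfl⟩
      exact ⟨u, hu, v, hv, Or.inl hadj, rfl⟩
  unfold ell
  rw [h1]

/-- the final inequality of the edge step -/
lemma edge_num (P : ParW) {r1 R r2 y0 y1 y2 ρ q kA : ℤ} (h1 : 1 ≤ r1) (h1' : r1 ≤ P.s - 2)
    (hT1 : P.b * r2 ≤ P.b * (ρ - q)) (hT2 : P.b * r2 ≤ P.eta * y2)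
    (hkA : kA = y0 + y1 + y2) (hy1 : 0 ≤ y1) (hwW : P.eta * kA - P.b * ρ ≤ P.W)
    (hR : 1 ≤ R) (hq : (q = y0 ∧ 0 ≤ y0) ∨ 2 ≤ R) :
    P.a * r1 + P.a - (P.k * P.eta - (P.eta * kA - P.b * ρ)) - P.eta * y1 - P.b * (R * r1)
      + P.b * r2 - P.eta * y2 ≤ 0 := by
  have hb := P.hb
  have hab := P.hab
  have he0 := P.eta_pos
  have heb := P.eta_le
  have hE := P.hE
  have hWb := P.hWb
  have hE' : ((P.s : ℤ) - 1) * P.a ≤ P.k * P.eta + (P.s - 2) * P.b := hE
  have hmain : P.a * r1 + P.a - P.k * P.eta - P.b * r1 ≤ 0 := by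
    have h2 : (P.a - P.b) * r1 ≤ (P.a - P.b) * (P.s - 2) :=
      mul_le_mul_of_nonneg_left h1' (by linarith)
    nlinarith [h2, hE']
  rcases hq with ⟨hq, hy0⟩ | hq
  · have h3 : P.b * r1 ≤ P.b * (R * r1) := by
      apply mul_le_mul_of_nonneg_left _ hb.le
      nlinarith
    have h4 : P.eta * y0 ≤ P.b * y0 := mul_le_mul_of_nonneg_right heb hy0
    rw [hq] at hT1
    rw [hkA]
    linarith [h3, h4, hT1, hmain]
  · have h3 : P.b * (2 * r1) ≤ P.b * (R * r1) := by
      apply mul_le_mul_of_nonneg_left _ hb.le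
      nlinarith
    have h4 : P.b * 1 ≤ P.b * r1 := mul_le_mul_of_nonneg_left h1 hb.le
    have h5 : 0 ≤ P.eta * y1 := mul_nonneg he0.le hy1
    linarith [h3, h4, h5, hT2, hmain]

lemma edge_phi (P : ParW) {V : Type} [Fintype V] {st : St V} (hQ : QW P V st)
    {U : Finset V} {w z : V} (hU : U.card = P.s) (hrU : rk st.p U = P.s - 1) (hz : z ∈ U)
    (hw : w ∉ U) (hadj : ∀ u ∈ U, u ≠ z → st.G.Adj w u) {X : Finset V} (hX : Clo st X) :
    ∃ X', X ⊆ X' ∧ Clo st X' ∧ PhiS P.a P.b st X' ≤ PhiS P.a P.b (st.addEdge w z) X ∧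
        (w ∈ X → z ∈ X → U ⊆ X') := by
  have hs := P.hs
  obtain ⟨F, hF⟩ : ∃ F, F = flt st.p U := ⟨_, rfl⟩
  have hFflat : IsFlat st.p F := by rw [hF]; exact flt_isFlat _ _
  have hUF : U ⊆ F := by rw [hF]; exact subset_flt _ _
  have hrF : rk st.p F = P.s - 1 := by rw [hF, rk_flt, hrU]
  have hwz : w ≠ z := fun h => hw (h ▸ hz)
  have hcer : (U.erase z).card = P.s - 1 := by rw [Finset.card_erase_of_mem hz, hU]
  have hzC : z ∈ flt st.p (U.erase z) := by
    rw [mem_flt_iff_rk, Finset.insert_erase hz, hrU, hQ.1.indep (U.erase z) (by omega), hcer]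
  by_cases hwX : w ∈ X ∧ z ∈ X
  swap
  · refine ⟨X, subset_rfl, hX, ?_, fun h1 h2 => absurd ⟨h1, h2⟩ hwX⟩
    have h1 : ell (st.addEdge w z).G st.p X = ell st.G st.p X := ell_addEdge_of_notMem _ _ hwX
    rw [PhiS_addEdge, h1]
    simp
  obtain ⟨hwX, hzX⟩ := hwX
  have hell0 : ∀ Z : Finset V, w ∈ Z → F ⊆ Z →
      ell (st.addEdge w z).G st.p Z = ell st.G st.p Z := by
    intro Z hwZ hFZ
    exact ell_add_edge st.G st.p (C := U.erase z)
      ((Finset.erase_subset _ _).trans (hUF.trans hFZ)) hwZ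
      (fun c hc => hadj c (Finset.mem_of_mem_erase hc) (Finset.ne_of_mem_erase hc)) hzC
  by_cases hFX : F ⊆ X
  · refine ⟨X, subset_rfl, hX, ?_, fun _ _ => hUF.trans hFX⟩
    rw [PhiS_addEdge, hell0 X hwX hFX]
    simp
  -- the main case
  have hi : (F ∩ X).card ≤ P.s - 2 := by
    by_contra hcon
    obtain ⟨Y, hYsub, hYc⟩ := Finset.exists_subset_card_eq
      (show P.s - 1 ≤ (F ∩ X).card by omega)
    have h1 := hQ.1.indep Y (by omega)
    have h2 : flt st.p Y = F :=
      flt_eq_of_rk st.p hFflat (hYsub.trans Finset.inter_subset_left) (by omega)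
    exact hFX (h2 ▸ hX.1.flt_subset (hYsub.trans Finset.inter_subset_right))
  have hi1 : 1 ≤ (F ∩ X).card :=
    Finset.card_pos.mpr ⟨z, Finset.mem_inter.mpr ⟨hUF hz, hzX⟩⟩
  obtain ⟨c, hcF⟩ : (st.cin F).Nonempty := by
    rw [← Finset.card_pos]
    have h1 := hQ.1.count F hFflat
    have h2 := Finset.card_le_card hUF
    omega
  have hc : c ∈ st.cls := cin_subset _ _ hcF
  have hcUF : c.U ⊆ F := (Finset.mem_filter.mp hcF).2
  have hcs := hQ.1.csize c hc
  have hcflt : flt st.p c.U = F := flt_eq_of_rk st.p hFflat hcUF (by omega)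
  obtain ⟨X1, hX1⟩ : ∃ X1, X1 = flt st.p (X ∪ F) := ⟨_, rfl⟩
  have hX1flat : IsFlat st.p X1 := by rw [hX1]; exact flt_isFlat _ _
  have hXX1 : X ⊆ X1 := by rw [hX1]; exact subset_union_left.trans (subset_flt _ _)
  have hFX1 : F ⊆ X1 := by rw [hX1]; exact subset_union_right.trans (subset_flt _ _)
  have hrX1 : rk st.p X1 = rk st.p (X ∪ F) := by rw [hX1, rk_flt]
  have hX1X2 : X1 ⊆ flt st.p (X1 ∪ c.A) := subset_union_left.trans (subset_flt _ _)
  obtain ⟨X', hX2X', hClo', hPhi'⟩ := exists_hull P hQ (flt_isFlat st.p (X1 ∪ c.A))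
  refine ⟨X', (hXX1.trans hX1X2).trans hX2X', hClo', hPhi'.trans ?_,
    fun _ _ => ((hUF.trans hFX1).trans hX1X2).trans hX2X'⟩
  have hcc := (hQ.2 c hc).1
  obtain ⟨ρ, hth, hrkA, hw0, hwW, hcardA, hdrop, hadjA, hcnt⟩ := hcc
  -- ranks
  have h5 := rk_rel st.p (B := F ∩ X) (A := F) (X := X) Finset.inter_subset_left
    Finset.inter_subset_right
  have h6 : rk st.p (F ∩ X) = (F ∩ X).card := hQ.1.indep _ (by omega)
  have h7 : rk st.p X < rk st.p (X ∪ F) := by
    by_contra hcon
    have h8 : flt st.p X = X1 := flt_eq_of_rk st.p hX1flat hXX1 (by omega)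
    rw [hX.1.flt_eq] at h8
    exact hFX (h8 ▸ hFX1)
  -- the new classes of `X1`
  have hcU_X : ¬ c.U ⊆ X := by
    intro h
    have h1 := Finset.card_le_card (Finset.subset_inter hcUF h)
    omega
  obtain ⟨N1, hN1⟩ : ∃ N1, N1 = st.cin X1 \ st.cin X := ⟨_, rfl⟩
  have hcN1 : c ∈ N1 := by
    rw [hN1, Finset.mem_sdiff]
    exact ⟨Finset.mem_filter.mpr ⟨hc, hcUF.trans hFX1⟩, fun h => hcU_X (Finset.mem_filter.mp h).2⟩
  have hN1sub : N1 ⊆ st.cls := by
    rw [hN1]
    exact Finset.sdiff_subset.trans (cin_subset _ _)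
  have hnc1 : (N1.card : ℤ) = ((X1 \ X).card : ℤ) - ((rk st.p X1 : ℤ) - rk st.p X) := by
    rw [hN1]
    exact new_card hQ.1 hX.1 hX1flat hXX1
  have hdisj : Disjoint (c.U \ X) ((c.A ∩ X1) \ X) := by
    rw [Finset.disjoint_left]
    intro v hv1 hv2
    have h1 := (Finset.mem_sdiff.mp hv1).1
    have h2 := (Finset.mem_inter.mp (Finset.mem_sdiff.mp hv2).1).1
    exact (hadjA v h2 v h1).ne rfl
  have hpts : (c.U \ X).card + ((c.A ∩ X1) \ X).card ≤ (X1 \ X).card := by
    rw [← Finset.card_union_of_disjoint hdisj]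
    apply Finset.card_le_card
    intro v hv
    rcases Finset.mem_union.mp hv with hv | hv
    · have h1 := Finset.mem_sdiff.mp hv
      exact Finset.mem_sdiff.mpr ⟨hFX1 (hcUF h1.1), h1.2⟩
    · have h1 := Finset.mem_sdiff.mp hv
      exact Finset.mem_sdiff.mpr ⟨(Finset.mem_inter.mp h1.1).2, h1.2⟩
  have hcUX : P.s ≤ (c.U \ X).card + (F ∩ X).card := by
    have h1 := Finset.card_sdiff_add_card_inter c.U X
    have h2 : (c.U ∩ X).card ≤ (F ∩ X).card :=
      Finset.card_le_card (Finset.inter_subset_inter_right hcUF)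
    omega
  have hsumN1 : c.th - P.a + P.eta * (((c.A ∩ X1) \ X).card : ℤ) ≤ ∑ c' ∈ N1, (c'.th - P.a) := by
    rw [← Finset.add_sum_erase N1 _ hcN1]
    have h1 := new_sum P hQ (N1.erase c) ((Finset.erase_subset _ _).trans hN1sub)
    have h2 : (((c.A ∩ X1) \ X).card : ℤ) ≤ ((N1.erase c).card : ℤ) := by
      have h3 := Finset.card_erase_of_mem hcN1
      have h4 := Finset.card_pos.mpr ⟨c, hcN1⟩
      omega
    have h3 := mul_le_mul_of_nonneg_left h2 P.eta_pos.le
    linarith
  -- the edges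
  have hell := ell_ext (st.addEdge w z).G st.p (X := X) (Z := X1) (B := insert w (c.A ∩ X))
    (D := F) hXX1 (Finset.insert_subset hwX Finset.inter_subset_right) (by
      intro v hv d hd
      rcases Finset.mem_insert.mp hv with rfl | hv
      · have h1 : flt st.p U ⊆ flt st.p (X ∪ X1.filter fun c => (st.addEdge v z).G.Adj v c) := by
          apply flt_mono
          intro u hu
          rw [Finset.mem_union, Finset.mem_filter]
          refine Or.inr ⟨hFX1 (hUF hu), ?_⟩
          by_cases huz : u = z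
          · right
            rw [fromEdgeSet_adj, huz]
            exact ⟨rfl, hwz⟩
          · exact Or.inl (hadj u hu huz)
        exact h1 (hF ▸ hd)
      · have h1 : flt st.p c.U ⊆ flt st.p (X ∪ X1.filter fun c => (st.addEdge w z).G.Adj v c) := by
          apply flt_mono
          intro u hu
          rw [Finset.mem_union, Finset.mem_filter]
          exact Or.inr ⟨hFX1 (hcUF hu),
            Or.inl (hadjA v (Finset.mem_inter.mp hv).1 u hu).symm⟩
        exact h1 (hcflt.symm ▸ hd))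
  rw [hell0 X1 (hXX1 hwX) hFX1] at hell
  have hell' : (ell (st.addEdge w z).G st.p X : ℤ)
      + (rk st.p (insert w (c.A ∩ X)) : ℤ) * ((rk st.p (X ∪ F) : ℤ) - rk st.p X)
      ≤ ell st.G st.p X1 := by
    have h1 : ((rk st.p (X ∪ F) - rk st.p X : ℕ) : ℤ)
      = (rk st.p (X ∪ F) : ℤ) - rk st.p X := by omega
    rw [← h1]
    exact_mod_cast hell
  -- helper step
  have hhelp := helper_change P hQ hX1flat hc (hcUF.trans hFX1)
  have hext := PhiS_flat_ext P hQ hX.1 hX1flat hXX1
  rw [← hN1, hrX1] at hext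
  have hrel2 := rk_rel st.p (B := c.A ∩ X1) (A := c.A) (X := X1) Finset.inter_subset_left
    Finset.inter_subset_right
  have hrel2' : (rk st.p (X1 ∪ c.A) : ℤ) - rk st.p X1
      ≤ (rk st.p c.A : ℤ) - rk st.p (c.A ∩ X1) := by omega
  have hmono3 := rk_mono st.p (Finset.inter_subset_inter_left (s := c.A) hXX1)
  have hdrop2 := cls_drop P hQ hc (B := c.A ∩ X1) Finset.inter_subset_left
  rw [Finset.sdiff_inter_self_left] at hdrop2
  -- cardinalities
  have hA1 := Finset.card_sdiff_add_card_inter c.A X1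
  have hA2 := Finset.card_sdiff_add_card_inter (c.A ∩ X1) X
  have hA3 : (c.A ∩ X1) ∩ X = c.A ∩ X := by
    rw [Finset.inter_assoc, Finset.inter_eq_right.mpr hXX1]
  rw [hA3] at hA2
  -- the rank of `A ∩ X`
  have hRge : rk st.p (c.A ∩ X) ≤ rk st.p (insert w (c.A ∩ X)) :=
    rk_mono st.p (Finset.subset_insert _ _)
  have hR1 : 1 ≤ rk st.p (insert w (c.A ∩ X)) := by
    have h1 := hQ.1.indep {w} (by rw [Finset.card_singleton]; omega)
    rw [Finset.card_singleton] at h1
    rw [← h1]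
    exact rk_mono st.p (Finset.singleton_subset_iff.mpr (Finset.mem_insert_self _ _))
  have hcase : rk st.p (c.A ∩ X) = (c.A ∩ X).card ∨ 2 ≤ rk st.p (c.A ∩ X) := by
    by_cases h1 : (c.A ∩ X).card ≤ 1
    · exact Or.inl (hQ.1.indep _ (by omega))
    · right
      obtain ⟨Y, hYsub, hYc⟩ := Finset.exists_subset_card_eq
        (show 2 ≤ (c.A ∩ X).card by omega)
      have h2 := hQ.1.indep Y (by omega)
      rw [← hYc, ← h2]
      exact rk_mono st.p hYsub
  have hb := P.hb
  have hnum := edge_num P (r1 := (rk st.p (X ∪ F) : ℤ) - rk st.p X)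
    (R := rk st.p (insert w (c.A ∩ X))) (r2 := (rk st.p (X1 ∪ c.A) : ℤ) - rk st.p X1)
    (y0 := (c.A ∩ X).card) (y1 := ((c.A ∩ X1) \ X).card) (y2 := (c.A \ X1).card)
    (ρ := ρ) (q := rk st.p (c.A ∩ X)) (kA := c.A.card) (by omega) (by omega)
    (mul_le_mul_of_nonneg_left (by omega) hb.le)
    ((mul_le_mul_of_nonneg_left hrel2' hb.le).trans hdrop2) (by omega) (by omega) hwW
    (by exact_mod_cast hR1)
    (by
      rcases hcase with h | h
      · exact Or.inl ⟨by exact_mod_cast h, by positivity⟩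
      · exact Or.inr (by exact_mod_cast h.trans hRge))
  rw [PhiS_addEdge]
  have hell'' := mul_le_mul_of_nonneg_left hell' hb.le
  rw [← hth] at hnum
  linarith [hnum, hell'', hhelp, hext, hsumN1]

/-! ### The activation step -/

/-- choice of the helper set -/
lemma exists_helper (P : ParW) {V : Type} [Fintype V] (p : V → V → ℚ) (T : Finset V) :
    ∃ A ⊆ T, (∀ B ⊆ T, P.eta * (B.card : ℤ) - P.b * (rk p B : ℤ)
        ≤ P.eta * (A.card : ℤ) - P.b * (rk p A : ℤ)) ∧
      (∀ B, B ⊆ A → B ≠ A → P.eta * (B.card : ℤ) - P.b * (rk p B : ℤ) + 1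
        ≤ P.eta * (A.card : ℤ) - P.b * (rk p A : ℤ)) := by
  obtain ⟨M, hM, hMmax⟩ := Finset.exists_max_image T.powerset
    (fun B => P.eta * (B.card : ℤ) - P.b * (rk p B : ℤ)) ⟨∅, Finset.empty_mem_powerset T⟩
  obtain ⟨A, hA, hAmin⟩ := Finset.exists_min_image
    (T.powerset.filter fun B => P.eta * (M.card : ℤ) - P.b * (rk p M : ℤ)
      ≤ P.eta * (B.card : ℤ) - P.b * (rk p B : ℤ)) (fun B => B.card)
    ⟨M, Finset.mem_filter.mpr ⟨hM, le_rfl⟩⟩
  obtain ⟨hA1, hA2⟩ := Finset.mem_filter.mp hA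
  refine ⟨A, Finset.mem_powerset.mp hA1, fun B hB => ?_, fun B hB hne => ?_⟩
  · exact (hMmax B (Finset.mem_powerset.mpr hB)).trans hA2
  · by_contra hcon
    have h1 : P.eta * (A.card : ℤ) - P.b * (rk p A : ℤ)
        ≤ P.eta * (B.card : ℤ) - P.b * (rk p B : ℤ) := by
      by_contra h2
      exact hcon (by linarith [Int.add_one_le_iff.mpr (not_le.mp h2)])
    have h3 := hAmin B (Finset.mem_filter.mpr
      ⟨Finset.mem_powerset.mpr (hB.trans (Finset.mem_powerset.mp hA1)), hA2.trans h1⟩)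
    have h4 := Finset.card_lt_card (Finset.ssubset_iff_subset_ne.mpr ⟨hB, hne⟩)
    omega

lemma QuotRel.rk_le {V : Type} [Fintype V] {p p' : V → V → ℚ} {U : Finset V}
    (h : QuotRel p p' U) (Y : Finset V) : rk p' Y ≤ rk p Y := by
  have h1 := h.rk_rel (B := ∅) (A := Y) (Finset.empty_subset _)
  have h2 : rk p' (∅ : Finset V) = 0 := by
    have h3 := rk_le_card p' (∅ : Finset V)
    simpa using h3
  omega

lemma QuotRel.flt_le {V : Type} [Fintype V] {p p' : V → V → ℚ} {U : Finset V}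
    (h : QuotRel p p' U) (Y : Finset V) : flt p Y ⊆ flt p' Y :=
  fun v hv => h.flt_sub Y v hv

lemma cin_act {V : Type} [Fintype V] {st : St V} {p' : V → V → ℚ} {U : Finset V}
    (h : QuotRel st.p p' U) (c : Cls V) (Y : Finset V) :
    st.cin (flt st.p Y) ⊆ (st.act p' c).cin (flt p' Y) := by
  intro c' hc'
  obtain ⟨h1, h2⟩ := Finset.mem_filter.mp hc'
  exact Finset.mem_filter.mpr ⟨Finset.mem_insert_of_mem h1, h2.trans (h.flt_le Y)⟩

lemma QW.act {P : ParW} {V : Type} [Fintype V] {st : St V} (hQ : QW P V st)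
    {U A T : Finset V} (hU : U.card = P.s) (hrU : rk st.p U = P.s) (hT : T.card = P.k)
    (hadj : ∀ u ∈ U, ∀ t ∈ T, st.G.Adj u t) (hAT : A ⊆ T)
    (hA0 : 0 ≤ P.eta * (A.card : ℤ) - P.b * (rk st.p A : ℤ))
    (hAW : P.eta * (A.card : ℤ) - P.b * (rk st.p A : ℤ) ≤ P.W)
    (hAmin : ∀ B, B ⊆ A → B ≠ A → P.eta * (B.card : ℤ) - P.b * (rk st.p B : ℤ) + 1
      ≤ P.eta * (A.card : ℤ) - P.b * (rk st.p A : ℤ))
    {p' : V → V → ℚ} (hq : QuotRel st.p p' U) {c : Cls V} (hcU : c.U = U) (hcA : c.A = A)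
    (hcth : c.th = P.k * P.eta - (P.eta * (A.card : ℤ) - P.b * (rk st.p A : ℤ)))
    (hct : c.t = st.cls.card) :
    QW P V (st.act p' c) := by
  have hs := P.hs
  have hBas : Bas P.s (st.act p' c) := hQ.1.act (by omega) (by rw [hcU]; exact hU)
    (by rw [hcU]; exact hrU) (by rw [hcU]; exact hq)
  have hnot : c ∉ st.cls := by
    intro h
    have h1 := (hQ.1.csize c h).2
    rw [hcU] at h1
    omega
  have hcard : (st.act p' c).cls.card = st.cls.card + 1 := Finset.card_insert_of_notMem hnot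
  refine ⟨hBas, fun c' hc' => ?_⟩
  have hc'2 : c' = c ∨ c' ∈ st.cls := Finset.mem_insert.mp hc'
  rcases hc'2 with hc'2 | hc'2
  · rw [hc'2]
    refine ⟨⟨rk st.p A, ?_, ?_, ?_, ?_, ?_, ?_, ?_, ?_⟩, by rw [hcard, hct]; omega⟩
    · rw [hcth, hcA]
    · rw [hcA]; exact hq.rk_le A
    · rw [hcA]; exact hA0
    · rw [hcA]; exact hAW
    · rw [hcA, ← hT]; exact Finset.card_le_card hAT
    · intro B hB hne
      rw [hcA] at hB hne ⊢
      have h1 := hAmin B hB hne
      have h2 := hq.rk_rel hB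
      have h2' : (rk p' A : ℤ) - rk p' B ≤ (rk st.p A : ℤ) - rk st.p B := by omega
      have h3 := mul_le_mul_of_nonneg_left h2' P.hb.le
      have h4 := Finset.card_sdiff_add_card_eq_card hB
      have h4' : ((A \ B).card : ℤ) + B.card = A.card := by exact_mod_cast h4
      show P.b * ((rk p' A : ℤ) - rk p' B) + 1 ≤ P.eta * ((A \ B).card : ℤ)
      have h5 : ((A \ B).card : ℤ) = A.card - B.card := by linarith
      rw [h5]
      linarith
    · intro x hx u hu
      rw [hcA] at hx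
      rw [hcU] at hu
      exact hadj u hu x (hAT hx)
    · have h1 := hQ.1.count (flt st.p A) (flt_isFlat _ _)
      rw [rk_flt] at h1
      have h2 := Finset.card_le_card (subset_flt st.p A)
      have h3 : (st.cin (flt st.p A)).card
          ≤ (((st.act p' c).cin (flt (st.act p' c).p c.A)).filter fun c' => c'.t < c.t).card := by
        apply Finset.card_le_card
        intro c'' hc''
        refine Finset.mem_filter.mpr ⟨?_, ?_⟩
        · rw [hcA]
          exact cin_act hq c A hc''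
        · rw [hct]
          exact (hQ.2 c'' (cin_subset _ _ hc'')).2
      rw [hcA] at h3 ⊢
      omega
  · obtain ⟨⟨ρ, h1, h2, h3, h4, h5, h6, h7, h8⟩, h9⟩ := hQ.2 c' hc'2
    refine ⟨⟨ρ, h1, (hq.rk_le _).trans h2, h3, h4, h5, ?_, h7, ?_⟩, by rw [hcard]; omega⟩
    · intro B hB hne
      have h10 := h6 B hB hne
      have h11 := hq.rk_rel hB
      have h11' : (rk p' c'.A : ℤ) - rk p' B ≤ (rk st.p c'.A : ℤ) - rk st.p B := by omega
      have h12 := mul_le_mul_of_nonneg_left h11' P.hb.le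
      show P.b * ((rk p' c'.A : ℤ) - rk p' B) + 1 ≤ P.eta * ((c'.A \ B).card : ℤ)
      linarith
    · have h10 : ((st.cin (flt st.p c'.A)).filter fun c'' => c''.t < c'.t).card
          ≤ (((st.act p' c).cin (flt (st.act p' c).p c'.A)).filter
            fun c'' => c''.t < c'.t).card := by
        apply Finset.card_le_card
        exact Finset.filter_subset_filter _ (cin_act hq c c'.A)
      omega

lemma act_phi (P : ParW) {V : Type} [Fintype V] {st : St V} (hQ : QW P V st)
    {U A T : Finset V} (hrU : rk st.p U = P.s) (hT : T.card = P.k)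
    (hadj : ∀ u ∈ U, ∀ t ∈ T, st.G.Adj u t)
    (hAmax : ∀ B ⊆ T, P.eta * (B.card : ℤ) - P.b * (rk st.p B : ℤ)
        ≤ P.eta * (A.card : ℤ) - P.b * (rk st.p A : ℤ))
    {p' : V → V → ℚ} (hq : QuotRel st.p p' U) {c : Cls V} (hcU : c.U = U)
    (hcth : c.th = P.k * P.eta - (P.eta * (A.card : ℤ) - P.b * (rk st.p A : ℤ)))
    {X : Finset V} (hX : Clo (st.act p' c) X) :
    ∃ X', X ⊆ X' ∧ Clo st X' ∧ PhiS P.a P.b st X' ≤ PhiS P.a P.b (st.act p' c) X ∧
      (U ⊆ X → P.k ≤ (X'.filter fun t => ∀ u ∈ U, st.G.Adj u t).card) := by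
  have hs := P.hs
  have hXp : IsFlat st.p X := hq.isFlat hX.1
  have hnot : c ∉ st.cls := by
    intro h
    have h1 := (hQ.1.csize c h).2
    rw [hcU] at h1
    omega
  by_cases hUX : U ⊆ X
  swap
  · refine ⟨X, subset_rfl, ⟨hXp, fun c' hc' hU' => hX.2 c' (Finset.mem_insert_of_mem hc') hU'⟩,
      ?_, fun h => absurd h hUX⟩
    have h1 : (st.act p' c).cin X = st.cin X := by
      show (insert c st.cls).filter (fun c' => c'.U ⊆ X) = st.cls.filter fun c' => c'.U ⊆ X
      rw [Finset.filter_insert, if_neg (by rw [hcU]; exact hUX)]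
    have h2 : ell (st.act p' c).G (st.act p' c).p X = ell st.G st.p X :=
      hq.ell2 st.G X (by rw [hXp.flt_eq]; exact hUX)
    unfold PhiS
    rw [h1, h2]
  · obtain ⟨Z, hZ⟩ : ∃ Z, Z = flt st.p (X ∪ T) := ⟨_, rfl⟩
    have hZflat : IsFlat st.p Z := by rw [hZ]; exact flt_isFlat _ _
    have hXZ : X ⊆ Z := by rw [hZ]; exact subset_union_left.trans (subset_flt _ _)
    have hTZ : T ⊆ Z := by rw [hZ]; exact subset_union_right.trans (subset_flt _ _)
    have hrZ : rk st.p Z = rk st.p (X ∪ T) := by rw [hZ, rk_flt]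
    obtain ⟨X', h1, h2, h3⟩ := exists_hull P hQ hZflat
    refine ⟨X', hXZ.trans h1, h2, h3.trans ?_, fun _ => ?_⟩
    swap
    · rw [← hT]
      apply Finset.card_le_card
      intro t ht
      exact Finset.mem_filter.mpr ⟨h1 (hTZ ht), fun u hu => hadj u hu t ht⟩
    have hcin : (st.act p' c).cin X = insert c (st.cin X) := by
      show (insert c st.cls).filter (fun c' => c'.U ⊆ X)
        = insert c (st.cls.filter fun c' => c'.U ⊆ X)
      rw [Finset.filter_insert, if_pos (by rw [hcU]; exact hUX)]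
    have hPhi : PhiS P.a P.b (st.act p' c) X = PhiS P.a P.b st X - c.th
        + P.b * ((ell st.G st.p X : ℤ) - ell st.G p' X) := by
      have h4 : ell (st.act p' c).G (st.act p' c).p X = ell st.G p' X := rfl
      unfold PhiS
      rw [hcin, h4, Finset.sum_insert (fun h => hnot (cin_subset _ _ h))]
      ring
    have hext := PhiS_flat_ext P hQ hXp hZflat hXZ
    -- edges
    have he1 := hq.ell1 st.G Z T (hUX.trans hXZ) hTZ hadj
    have he2 := ell_ext st.G p' (X := X) (Z := Z) (B := U) (D := T) hXZ hUX (by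
      intro v hv d hd
      apply subset_flt
      rw [Finset.mem_union, Finset.mem_filter]
      exact Or.inr ⟨hTZ hd, hadj v hv d hd⟩)
    have hr1 := hq.rk1 U (subset_flt _ _)
    have hr2 := hq.rk1 X (hUX.trans (subset_flt _ _))
    have hr3 := hq.rk1 (X ∪ T) ((hUX.trans subset_union_left).trans (subset_flt _ _))
    have hm := rk_mono st.p (subset_union_left : X ⊆ X ∪ T)
    have he2' : (ell st.G p' X : ℤ)
        + ((P.s : ℤ) - 1) * ((rk st.p (X ∪ T) : ℤ) - rk st.p X) ≤ ell st.G p' Z := by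
      have h4 : ((rk p' U : ℕ) : ℤ) = (P.s : ℤ) - 1 := by omega
      have h5 : ((rk p' (X ∪ T) - rk p' X : ℕ) : ℤ)
        = (rk st.p (X ∪ T) : ℤ) - rk st.p X := by omega
      rw [← h4, ← h5]
      exact_mod_cast he2
    have he1' : (ell st.G p' Z : ℤ) + rk st.p T ≤ ell st.G st.p Z := by exact_mod_cast he1
    -- new classes
    have hnc := new_card hQ.1 hXp hZflat hXZ
    have hns := new_sum P hQ (st.cin Z \ st.cin X)
      (Finset.sdiff_subset.trans (cin_subset _ _))
    rw [hnc, hrZ] at hns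
    rw [hrZ] at hext
    have h6 : ((T \ X).card : ℤ) ≤ ((Z \ X).card : ℤ) := by
      exact_mod_cast Finset.card_le_card (Finset.sdiff_subset_sdiff hTZ subset_rfl)
    have h7 := mul_le_mul_of_nonneg_left h6 P.eta_pos.le
    -- ranks
    have h8 := rk_rel st.p (B := T ∩ X) (A := T) (X := X) Finset.inter_subset_left
      Finset.inter_subset_right
    have h8' : ((rk st.p (X ∪ T) : ℤ) - rk st.p X) + rk st.p (T ∩ X) ≤ rk st.p T := by omega
    have h9 := mul_le_mul_of_nonneg_left h8' P.hb.le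
    have h10 := hAmax (T ∩ X) Finset.inter_subset_left
    have h11 := Finset.card_sdiff_add_card_inter T X
    have h11' : ((T \ X).card : ℤ) = P.k - ((T ∩ X).card : ℤ) := by
      rw [hT] at h11
      omega
    rw [h11'] at h7
    have h12 := mul_le_mul_of_nonneg_left (add_le_add he1' he2') P.hb.le
    rw [hPhi, hcth]
    have he : P.eta = P.s * P.b - P.a := rfl
    have hae : P.a = P.s * P.b - P.eta := by rw [he]; ring
    have hexp : P.a * ((rk st.p (X ∪ T) : ℤ) - rk st.p X)
        = P.s * P.b * ((rk st.p (X ∪ T) : ℤ) - rk st.p X)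
          - P.eta * ((rk st.p (X ∪ T) : ℤ) - rk st.p X) := by
      rw [hae]
      ring
    rw [hexp] at hext
    linarith [hext, hns, h7, h9, h10, h12]

/-- EXTENSION, with a space `E'` of tensors over `sp p X` -/
theorem ell_ext_gen {V : Type} [Fintype V] (G : SimpleGraph V) (p : V → V → ℚ)
    {X Z B D : Finset V} (hXZ : X ⊆ Z)
    (hB : B ⊆ X) (hD : ∀ v ∈ B, ∀ d ∈ D, d ∈ flt p (X ∪ Z.filter fun c => G.Adj v c))
    (E' : Submodule ℚ (Matrix V V ℚ)) (hE'1 : E' ≤ EL G p Z)
    (hE'2 : ∀ M ∈ E', ∀ j, (fun i => M i j) ∈ sp p X) :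
    Module.finrank ℚ E' + rk p B * (rk p (X ∪ D) - rk p X) ≤ ell G p Z := by
  let W := (V → ℚ) ⧸ sp p X
  let Q : (V → ℚ) →ₗ[ℚ] W := (sp p X).mkQ
  let Θ : Matrix V V ℚ →ₗ[ℚ] (V → W) :=
    { toFun := fun M j => Q (fun i => M i j)
      map_add' := fun M N => by
        funext j
        exact map_add Q (fun i => M i j) (fun i => N i j)
      map_smul' := fun c M => by
        funext j
        exact map_smul Q c (fun i => M i j) }
  have hQX : ∀ x ∈ X, Q (p x) = 0 := by
    intro x hx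
    exact (Submodule.Quotient.mk_eq_zero _).2 (mem_sp_self p hx)
  have hΘ : ∀ a b : V → ℚ, Θ (symm2 a b) = fun j => b j • Q a + a j • Q b := by
    intro a b
    funext j
    change Q (fun i => a i * b j + b i * a j) = _
    rw [← map_smul, ← map_smul, ← map_add]
    congr 1
    funext i
    simp only [Pi.add_apply, Pi.smul_apply, smul_eq_mul]
    ring
  have hker : E' ≤ EL G p Z ⊓ LinearMap.ker Θ := by
    refine le_inf hE'1 ?_
    intro M hM
    rw [LinearMap.mem_ker]
    funext j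
    exact (Submodule.Quotient.mk_eq_zero _).2 (hE'2 M hM j)
  let Y : Submodule ℚ W := (sp p D).map Q
  have hY : rk p (X ∪ D) - rk p X ≤ Module.finrank ℚ Y := by
    have h1 := finrank_map_add_inf_ker Q (sp p (X ∪ D))
    have h2 : (sp p (X ∪ D)).map Q = Y := by
      rw [sp_union, Submodule.map_sup]
      have : (sp p X).map Q = ⊥ := Submodule.mkQ_map_self _
      rw [this, bot_sup_eq]
    have h3 : (sp p (X ∪ D)) ⊓ LinearMap.ker Q ≤ sp p X := by
      have : LinearMap.ker Q = sp p X := Submodule.ker_mkQ _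
      rw [this]
      exact inf_le_right
    have h4 := Submodule.finrank_mono h3
    rw [h2] at h1
    unfold rk
    omega
  have hE : ∀ b ∈ sp p B, ∀ y ∈ Y, (fun j => b j • y) ∈ (EL G p Z).map Θ := by
    intro b hb y hy
    induction hb using Submodule.span_induction with
    | mem b hb =>
      obtain ⟨v, hv, rfl⟩ := hb
      have hv' : v ∈ B := hv
      let lam : W →ₗ[ℚ] (V → W) :=
        { toFun := fun y j => p v j • y
          map_add' := fun y z => by
            funext j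
            exact smul_add _ _ _
          map_smul' := fun c y => by
            funext j
            exact smul_comm _ _ _ }
      have h1 : Y ≤ ((EL G p Z).map Θ).comap lam := by
        have h2 : (sp p (X ∪ Z.filter fun c => G.Adj v c)).map Q ≤
            ((EL G p Z).map Θ).comap lam := by
          refine Submodule.map_le_iff_le_comap.2 (Submodule.span_le.2 ?_)
          rintro _ ⟨c, hc, rfl⟩
          rw [Finset.mem_coe, Finset.mem_union, Finset.mem_filter] at hc
          change lam (Q (p c)) ∈ (EL G p Z).map Θ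
          rcases hc with hc | ⟨hcZ, hvc⟩
          · rw [hQX c hc, map_zero]
            exact Submodule.zero_mem _
          · refine ⟨symm2 (p v) (p c), symm2_mem_EL (hXZ (hB hv')) hcZ hvc, ?_⟩
            rw [hΘ, hQX v (hB hv')]
            funext j
            rw [smul_zero, zero_add]
            rfl
        refine le_trans ?_ h2
        refine Submodule.map_mono (Submodule.span_le.2 ?_)
        rintro _ ⟨d, hd, rfl⟩
        exact mem_flt.1 (hD v hv' d hd)
      exact h1 hy
    | zero =>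
      have : (fun j => (0 : V → ℚ) j • y) = 0 := by
        funext j
        rw [Pi.zero_apply, zero_smul]
        rfl
      rw [this]
      exact Submodule.zero_mem _
    | add b b' _ _ h1 h2 =>
      have : (fun j => (b + b') j • y) = (fun j => b j • y) + (fun j => b' j • y) := by
        funext j
        exact add_smul _ _ _
      rw [this]
      exact Submodule.add_mem _ h1 h2
    | smul c b _ h1 =>
      have : (fun j => (c • b) j • y) = c • (fun j => b j • y) := by
        funext j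
        exact mul_smul _ _ _
      rw [this]
      exact Submodule.smul_mem _ _ h1
  have h5 := finrank_mul_le (sp p B) Y ((EL G p Z).map Θ) hE
  have h6 := finrank_map_add_inf_ker Θ (EL G p Z)
  have h7 := Submodule.finrank_mono hker
  have h8 : rk p B * (rk p (X ∪ D) - rk p X) ≤ Module.finrank ℚ (sp p B) * Module.finrank ℚ Y :=
    Nat.mul_le_mul_left _ hY
  unfold ell
  omega

/-- the span of a vertex `t` which is adjacent to all of `U` and lies in the flat of `U`,
together with the other vertices of `X` -/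
theorem ell_star {V : Type} [Fintype V] (G : SimpleGraph V) (p : V → V → ℚ)
    {X Z U : Finset V} {t : V} (hXZ : X ⊆ Z) (hUZ : U ⊆ Z) (ht : t ∈ X) (h0 : p t ≠ 0)
    (htU : ∀ u ∈ U, G.Adj t u) (hXU : X ⊆ flt p U)
    (hD : ∀ v ∈ X, ∀ d ∈ U, d ∈ flt p (X ∪ Z.filter fun c => G.Adj v c)) :
    rk p X + rk p X * (rk p (X ∪ U) - rk p X) ≤ ell G p Z := by
  let f : (V → ℚ) →ₗ[ℚ] Matrix V V ℚ :=
    { toFun := fun x => symm2 (p t) x
      map_add' := fun x y => symm2_add _ _ _
      map_smul' := fun c x => symm2_smul _ _ _ }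
  have hinj : Function.Injective f := by
    rw [← LinearMap.ker_eq_bot, LinearMap.ker_eq_bot']
    intro x hx
    by_contra hne
    exact symm2_ne_zero h0 hne hx
  have h1 : (sp p X).map f ≤ EL G p Z := by
    rintro _ ⟨x, hx, rfl⟩
    have hx2 : x ∈ sp p U := by
      rw [← sp_flt]
      exact sp_mono p hXU hx
    clear hx
    change symm2 (p t) x ∈ EL G p Z
    induction hx2 using Submodule.span_induction with
    | mem y hy =>
      obtain ⟨c, hc, rfl⟩ := hy
      exact symm2_mem_EL (hXZ ht) (hUZ hc) (htU c hc)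
    | zero =>
      rw [symm2_zero]
      exact Submodule.zero_mem _
    | add y y' _ _ h1 h2 =>
      rw [symm2_add]
      exact Submodule.add_mem _ h1 h2
    | smul c y _ h1 =>
      rw [symm2_smul]
      exact Submodule.smul_mem _ _ h1
  have h2 : ∀ M ∈ (sp p X).map f, ∀ j, (fun i => M i j) ∈ sp p X := by
    rintro _ ⟨x, hx, rfl⟩ j
    have h3 : (fun i => f x i j) = x j • p t + p t j • x := by
      funext i
      change p t i * x j + x i * p t j = _
      simp only [Pi.add_apply, Pi.smul_apply, smul_eq_mul]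
      ring
    rw [h3]
    exact Submodule.add_mem _ (Submodule.smul_mem _ _ (mem_sp_self p ht))
      (Submodule.smul_mem _ _ hx)
  have h3 := ell_ext_gen G p (B := X) (D := U) hXZ subset_rfl hD _ h1 h2
  have h4 : Module.finrank ℚ ((sp p X).map f) = rk p X :=
    (LinearEquiv.finrank_eq (Submodule.equivMapOfInjective f hinj (sp p X))).symm
  omega

lemma act_ex (P : ParW) {V : Type} [Fintype V] {st : St V} (hQ : QW P V st)
    (hPos : Pos P.a P.b st) {U T : Finset V} (hU : U.card = P.s) (hrU : rk st.p U = P.s)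
    (hT : T.card = P.k) (hadj : ∀ u ∈ U, ∀ t ∈ T, st.G.Adj u t)
    (hcard : (flt st.p U).card ≤ P.s + 1 ∨ (P.s = 3 ∧ (flt st.p U).card ≤ 5)) :
    ∀ t ∈ T, t ∈ flt st.p U → (flt st.p U).card ≤ P.s + 1 ∧
      ∀ y ∈ U, ∃ u ∈ U, u ≠ y ∧ ¬ st.G.Adj y u := by
  intro t0 ht0 ht0F
  have hs := P.hs
  obtain ⟨F, hF⟩ : ∃ F, F = flt st.p U := ⟨_, rfl⟩
  rw [← hF] at hcard ht0F ⊢
  have hFflat : IsFlat st.p F := by rw [hF]; exact flt_isFlat _ _
  have hUF : U ⊆ F := by rw [hF]; exact subset_flt _ _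
  have hrF : rk st.p F = P.s := by rw [hF, rk_flt, hrU]
  have hne0 : ∀ x : V, st.p x ≠ 0 := by
    intro x hx
    have h7 : x ∈ flt st.p (∅ : Finset V) := by
      rw [mem_flt, hx]
      exact Submodule.zero_mem _
    rw [mem_flt_iff_rk, hQ.1.indep ∅ (by simp), hQ.1.indep _ (by simp; omega)] at h7
    simp at h7
  -- the flat of `U ∪ T`
  obtain ⟨Z, hZ⟩ : ∃ Z, Z = flt st.p (F ∪ T) := ⟨_, rfl⟩
  have hZflat : IsFlat st.p Z := by rw [hZ]; exact flt_isFlat _ _
  have hFZ : F ⊆ Z := by rw [hZ]; exact subset_union_left.trans (subset_flt _ _)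
  have hTZ : T ⊆ Z := by rw [hZ]; exact subset_union_right.trans (subset_flt _ _)
  have hrZ : rk st.p Z = rk st.p (F ∪ T) := by rw [hZ, rk_flt]
  obtain ⟨X', h1, h2, h3⟩ := exists_hull P hQ hZflat
  have hPosZ : 1 ≤ PhiS P.a P.b st Z := (hPos X' ⟨t0, h1 (hTZ ht0)⟩ h2).trans h3
  have hext := PhiS_flat_ext P hQ hFflat hZflat hFZ
  have hell := ell_ext st.G st.p (X := F) (Z := Z) (B := U) (D := T) hFZ hUF (by
    intro v hv d hd
    apply subset_flt
    rw [Finset.mem_union, Finset.mem_filter]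
    exact Or.inr ⟨hTZ hd, hadj v hv d hd⟩)
  have hm := rk_mono st.p (subset_union_left : F ⊆ F ∪ T)
  have hell' : (ell st.G st.p F : ℤ) + (P.s : ℤ) * ((rk st.p (F ∪ T) : ℤ) - rk st.p F)
      ≤ ell st.G st.p Z := by
    have h4 : ((rk st.p (F ∪ T) - rk st.p F : ℕ) : ℤ)
      = (rk st.p (F ∪ T) : ℤ) - rk st.p F := by omega
    rw [← h4]
    rw [hrU] at hell
    exact_mod_cast hell
  have hnc := new_card hQ.1 hFflat hZflat hFZ
  have hns := new_sum P hQ (st.cin Z \ st.cin F) (Finset.sdiff_subset.trans (cin_subset _ _))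
  rw [hnc, hrZ] at hns
  rw [hrZ] at hext
  have h6 : ((T \ F).card : ℤ) ≤ ((Z \ F).card : ℤ) := by
    exact_mod_cast Finset.card_le_card (Finset.sdiff_subset_sdiff hTZ subset_rfl)
  have h7 := mul_le_mul_of_nonneg_left h6 P.eta_pos.le
  have h11 := Finset.card_sdiff_add_card_inter T F
  have h11' : ((T \ F).card : ℤ) = P.k - ((T ∩ F).card : ℤ) := by
    rw [hT] at h11
    omega
  rw [h11'] at h7
  have h12 := mul_le_mul_of_nonneg_left hell' P.hb.le
  have he : P.eta = P.s * P.b - P.a := rfl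
  have hae : P.a = P.s * P.b - P.eta := by rw [he]; ring
  have hexp : P.a * ((rk st.p (F ∪ T) : ℤ) - rk st.p F)
      = P.s * P.b * ((rk st.p (F ∪ T) : ℤ) - rk st.p F)
        - P.eta * ((rk st.p (F ∪ T) : ℤ) - rk st.p F) := by
    rw [hae]
    ring
  rw [hexp] at hext
  -- the bound in terms of `F`
  have hkey : 1 ≤ PhiS P.a P.b st F - P.eta * (P.k - ((T ∩ F).card : ℤ)) := by
    linarith [hext, hns, h7, h12, hPosZ]
  -- the classes of `F`
  have hcl : ((st.cin F).card : ℤ) * (P.k * P.eta - P.W - P.a)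
      ≤ ∑ c ∈ st.cin F, (c.th - P.a) := by
    have h4 : ∀ c ∈ st.cin F, P.k * P.eta - P.W - P.a ≤ c.th - P.a := by
      intro c hc
      have h5 := ((hQ.2 c (cin_subset _ _ hc)).1.th_ge).2
      linarith
    have h5 := Finset.card_nsmul_le_sum (st.cin F) _ _ h4
    rw [nsmul_eq_mul] at h5
    exact h5
  rw [PhiS_flat P hQ.1 hFflat, hrF] at hkey
  have hcount := hQ.1.count F hFflat
  rw [hrF] at hcount
  -- `T ∩ F` lies in `F \ U`
  have htF : T ∩ F ⊆ F \ U := by
    intro t ht
    obtain ⟨h4, h5⟩ := Finset.mem_inter.mp ht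
    refine Finset.mem_sdiff.mpr ⟨h5, fun h => ?_⟩
    exact (hadj t h t h4).ne rfl
  have htF' : (T ∩ F).card + P.s ≤ F.card := by
    have h4 := Finset.card_le_card htF
    have h5 := Finset.card_sdiff_add_card_eq_card hUF
    omega
  have hτ1 : 1 ≤ (T ∩ F).card := Finset.card_pos.mpr ⟨t0, Finset.mem_inter.mpr ⟨ht0, ht0F⟩⟩
  have ht0U : ∀ u ∈ U, st.G.Adj t0 u := fun u hu => (hadj u hu t0 ht0).symm
  have hE := P.hE
  have hWmu := P.hWmu
  have hWb := P.hWb
  have hb := P.hb
  have heb := P.eta_le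
  have hep := P.eta_pos
  rw [← he] at hE hWmu
  by_cases hF1 : F.card ≤ P.s + 1
  · refine ⟨hF1, fun y hy => ?_⟩
    by_contra hcon
    have hy' : ∀ u ∈ U, u ≠ y → st.G.Adj y u := by
      intro u hu hne
      by_contra h
      exact hcon ⟨u, hu, hne, h⟩
    have hyt : t0 ≠ y := by
      rintro rfl
      exact (ht0U _ hy).ne rfl
    have hX2 : rk st.p ({t0, y} : Finset V) = 2 := by
      rw [hQ.1.indep _ (by rw [Finset.card_pair hyt]; omega), Finset.card_pair hyt]
    have hXF : ({t0, y} : Finset V) ⊆ F := by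
      intro x hx
      rcases Finset.mem_insert.mp hx with rfl | hx
      · exact ht0F
      · rw [Finset.mem_singleton] at hx
        rw [hx]
        exact hUF hy
    have h4 := ell_star st.G st.p (X := {t0, y}) (Z := F) (U := U) (t := t0) hXF hUF
      (Finset.mem_insert_self _ _) (hne0 t0) ht0U (by rw [← hF]; exact hXF) (by
        intro v hv d hd
        apply subset_flt
        rw [Finset.mem_union, Finset.mem_filter]
        rcases Finset.mem_insert.mp hv with rfl | hv
        · exact Or.inr ⟨hUF hd, ht0U d hd⟩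
        · rw [Finset.mem_singleton] at hv
          rw [hv]
          by_cases hdy : d = y
          · left
            rw [hdy]
            exact Finset.mem_insert_of_mem (Finset.mem_singleton_self _)
          · exact Or.inr ⟨hUF hd, hy' d hd hdy⟩)
    have h5 : rk st.p ({t0, y} ∪ U) = P.s := by
      have h8 := rk_mono st.p (Finset.union_subset hXF hUF)
      have h9 := rk_mono st.p (subset_union_right : U ⊆ {t0, y} ∪ U)
      omega
    rw [h5, hX2] at h4
    have h8 : (st.cin F).card = 1 := by omega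
    have h9 : (T ∩ F).card = 1 := by omega
    have h10 : (2 : ℤ) * P.s - 2 ≤ ell st.G st.p F := by omega
    have h13 := mul_le_mul_of_nonneg_left h10 hb.le
    rw [h8] at hcl
    rw [h9] at hkey
    push_cast at hcl hkey
    linarith [hkey, hcl, h13, hE, hWmu, hWb]
  · exfalso
    have hs3 : P.s = 3 := by omega
    have hF5 : F.card = 5 := by omega
    have h8 : (st.cin F).card = 2 := by omega
    have hs3' : (P.s : ℤ) = 3 := by exact_mod_cast hs3
    rw [h8] at hcl
    rw [hs3'] at hkey hE hWmu he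
    push_cast at hcl
    have h9 : (T ∩ F).card = 1 ∨ (T ∩ F).card = 2 := by omega
    rcases h9 with h9 | h9
    · have h4 := ell_star st.G st.p (X := {t0}) (Z := F) (U := U) (t := t0)
        (Finset.singleton_subset_iff.mpr ht0F) hUF (Finset.mem_singleton_self _) (hne0 t0) ht0U
        (by rw [← hF]; exact Finset.singleton_subset_iff.mpr ht0F) (by
        intro v hv d hd
        apply subset_flt
        rw [Finset.mem_union, Finset.mem_filter]
        rw [Finset.mem_singleton] at hv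
        rw [hv]
        exact Or.inr ⟨hUF hd, ht0U d hd⟩)
      have h5 : rk st.p ({t0} ∪ U) = P.s := by
        have h8 := rk_mono st.p (Finset.union_subset (Finset.singleton_subset_iff.mpr ht0F) hUF)
        have h9 := rk_mono st.p (subset_union_right : U ⊆ {t0} ∪ U)
        omega
      have hX1 : rk st.p ({t0} : Finset V) = 1 := by
        rw [hQ.1.indep _ (by rw [Finset.card_singleton]; omega), Finset.card_singleton]
      rw [h5, hX1, hs3] at h4
      have h10 : (3 : ℤ) ≤ ell st.G st.p F := by omega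
      have h13 := mul_le_mul_of_nonneg_left h10 hb.le
      rw [h9] at hkey
      push_cast at hkey
      linarith [hkey, hcl, h13, hE, hWmu, hWb]
    · obtain ⟨t1, ht1, hne⟩ : ∃ t1 ∈ T ∩ F, t1 ≠ t0 := by
        by_contra hcon
        have h10 : T ∩ F ⊆ {t0} := by
          intro x hx
          rw [Finset.mem_singleton]
          by_contra h
          exact hcon ⟨x, hx, h⟩
        have h11 := Finset.card_le_card h10
        rw [Finset.card_singleton] at h11
        omega
      obtain ⟨ht1T, ht1F⟩ := Finset.mem_inter.mp ht1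
      have ht1U : ∀ u ∈ U, st.G.Adj t1 u := fun u hu => (hadj u hu t1 ht1T).symm
      have hX2 : rk st.p ({t0, t1} : Finset V) = 2 := by
        rw [hQ.1.indep _ (by rw [Finset.card_pair hne.symm]; omega), Finset.card_pair hne.symm]
      have hXF : ({t0, t1} : Finset V) ⊆ F := by
        intro x hx
        rcases Finset.mem_insert.mp hx with rfl | hx
        · exact ht0F
        · rw [Finset.mem_singleton] at hx
          rw [hx]
          exact ht1F
      have h4 := ell_star st.G st.p (X := {t0, t1}) (Z := F) (U := U) (t := t0) hXF hUF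
        (Finset.mem_insert_self _ _) (hne0 t0) ht0U (by rw [← hF]; exact hXF) (by
          intro v hv d hd
          apply subset_flt
          rw [Finset.mem_union, Finset.mem_filter]
          rcases Finset.mem_insert.mp hv with rfl | hv
          · exact Or.inr ⟨hUF hd, ht0U d hd⟩
          · rw [Finset.mem_singleton] at hv
            rw [hv]
            exact Or.inr ⟨hUF hd, ht1U d hd⟩)
      have h5 : rk st.p ({t0, t1} ∪ U) = P.s := by
        have h8 := rk_mono st.p (Finset.union_subset hXF hUF)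
        have h9 := rk_mono st.p (subset_union_right : U ⊆ {t0, t1} ∪ U)
        omega
      rw [h5, hX2, hs3] at h4
      have h10 : (4 : ℤ) ≤ ell st.G st.p F := by omega
      have h13 := mul_le_mul_of_nonneg_left h10 hb.le
      rw [h9] at hkey
      push_cast at hkey
      linarith [hkey, hcl, h13, hE, hWmu, hWb]

theorem scheme_W (P : ParW) (hB : BoundsW P) :
    Scheme P.s P.k P.a P.b (2 * P.a - P.b) (QW P) := by
  have hs := P.hs
  refine ⟨fun V _ st h => h.1, ?_, ?_, ?_, ?_⟩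
  · intro V _ G
    refine ⟨Bas.init _ _, fun c hc => ?_⟩
    simp [St.init] at hc
  · intro V _ st hQ _ U w z hU hrU hz hw hadj _
    exact ⟨hQ.addEdge w z, fun X hX => edge_phi P hQ hU hrU hz hw hadj hX⟩
  · intro V _ st hQ hPos hSat U T hU hrU hT hadj
    obtain ⟨A, hAT, hAmax, hAmin⟩ := exists_helper P st.p T
    obtain ⟨p', hq⟩ := exists_quotRel st.p U (Finset.card_pos.mp (by omega)) (by rw [hrU, hU])
    have hA0 : 0 ≤ P.eta * (A.card : ℤ) - P.b * (rk st.p A : ℤ) := by
      have h1 := hAmax ∅ (Finset.empty_subset _)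
      have h2 : rk st.p (∅ : Finset V) = 0 := by
        have h3 := rk_le_card st.p (∅ : Finset V)
        simpa using h3
      rw [h2] at h1
      simpa using h1
    have hAW := (hB V st hQ hPos).2 hSat U T hU hrU hT hadj A hAT
    obtain ⟨c, hcU, hcA, hcth, hct⟩ : ∃ c : Cls V, c.U = U ∧ c.A = A ∧
        c.th = P.k * P.eta - (P.eta * (A.card : ℤ) - P.b * (rk st.p A : ℤ)) ∧
        c.t = st.cls.card := ⟨⟨U, A, _, _⟩, rfl, rfl, rfl, rfl⟩
    have hQ' : QW P V (st.act p' c) :=
      hQ.act hU hrU hT hadj hAT hA0 hAW hAmin hq hcU hcA hcth hct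
    have hphi : ∀ X, Clo (st.act p' c) X → ∃ X', X ⊆ X' ∧ Clo st X' ∧
        PhiS P.a P.b st X' ≤ PhiS P.a P.b (st.act p' c) X ∧
        (U ⊆ X → P.k ≤ (X'.filter fun t => ∀ u ∈ U, st.G.Adj u t).card) :=
      fun X hX => act_phi P hQ hrU hT hadj hAmax hq hcU hcth hX
    suffices hcd : (flt st.p U).card ≤ P.s + 1 ∨ (P.s = 3 ∧ (flt st.p U).card ≤ 5) from
      ⟨hcd, act_ex P hQ hPos hU hrU hT hadj hcd, p', c, hcU, hq, hQ', hphi⟩
    have hPos' : Pos P.a P.b (st.act p' c) := by
      intro X hXne hX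
      obtain ⟨X', h1, h2, h3, _⟩ := hphi X hX
      exact (hPos X' (hXne.mono h1) h2).trans h3
    have hr1 := hq.rk1 U (subset_flt _ _)
    have h1 : (flt p' U).card ≤ P.L := by
      refine (hB V (st.act p' c) hQ' hPos').1 (flt p' U) (flt_isFlat _ _) ?_
      show rk p' (flt p' U) ≤ P.s - 1
      rw [rk_flt]
      omega
    have h2 := Finset.card_le_card (hq.flt_le U)
    have h3 := P.hL
    omega
  · intro V _ st hQ hPos u v huv
    have hne : u ≠ v := huv.ne
    have hflat := flt_isFlat st.p ({u, v} : Finset V)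
    obtain ⟨X', h1, h2, h3⟩ := exists_hull P hQ hflat
    have hu : u ∈ flt st.p ({u, v} : Finset V) :=
      subset_flt _ _ (Finset.mem_insert_self _ _)
    have hv : v ∈ flt st.p ({u, v} : Finset V) :=
      subset_flt _ _ (Finset.mem_insert_of_mem (Finset.mem_singleton_self _))
    refine ⟨X', h1 hu, h1 hv, h2, h3.trans ?_⟩
    rw [PhiS_flat P hQ.1 hflat, rk_flt]
    have h4 : rk st.p ({u, v} : Finset V) = 2 := by
      rw [hQ.1.indep _ (by rw [Finset.card_pair hne]; omega), Finset.card_pair hne]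
    have h5 := new_sum P hQ (st.cin (flt st.p ({u, v} : Finset V))) (cin_subset _ _)
    have h6 : 0 ≤ P.eta * ((st.cin (flt st.p ({u, v} : Finset V))).card : ℤ) :=
      mul_nonneg P.eta_pos.le (by positivity)
    have hne0 : ∀ x : V, st.p x ≠ 0 := by
      intro x hx
      have h7 : x ∈ flt st.p (∅ : Finset V) := by
        rw [mem_flt, hx]
        exact Submodule.zero_mem _
      rw [mem_flt_iff_rk, hQ.1.indep ∅ (by simp), hQ.1.indep _ (by simp; omega)] at h7
      simp at h7
    have h8 := one_le_ell st.G st.p hu hv huv (hne0 u) (hne0 v)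
    have h8' : (1 : ℤ) ≤ ell st.G st.p (flt st.p ({u, v} : Finset V)) := by exact_mod_cast h8
    have h9 := mul_le_mul_of_nonneg_left h8' P.hb.le
    rw [h4]
    push_cast
    linarith

end MP30c94c
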