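import Mathlib
import Pool.Agent.Lib.MP30c94c.KStepW

/-!
# The bounds (lines and discounts) from numerical conditions, and the unbalanced families
-/

open SimpleGraph Finset

namespace MP30c94c

attribute [local instance] Classical.propDecidable

/-- estimate of the potential by the number of classes -/
lemma PhiS_le (P : ParW) {V : Type} [Fintype V] {st : St V} (hQ : QW P V st) (X : Finset V) :
    PhiS P.a P.b st X ≤ P.a * X.card - (st.cin X).card * (P.k * P.eta - P.W)
      - P.b * ell st.G st.p X := by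
  have h1 : (st.cin X).card • ((P.k : ℤ) * P.eta - P.W) ≤ ∑ c ∈ st.cin X, c.th := by
    refine Finset.card_nsmul_le_sum _ _ _ fun c hc => ?_
    unfold St.cin at hc
    exact ((hQ.2 c (Finset.mem_filter.1 hc).1).1.th_ge).2
  rw [nsmul_eq_mul] at h1
  unfold PhiS
  linarith

/-- flats are nonpositive only if empty -/
lemma PhiS_flat_pos (P : ParW) {V : Type} [Fintype V] {st : St V} (hQ : QW P V st)
    (hP : Pos P.a P.b st) {X : Finset V} (hX : IsFlat st.p X) (hne : X.Nonempty) :
    1 ≤ PhiS P.a P.b st X := by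
  obtain ⟨X', h1, h2, h3⟩ := exists_hull P hQ hX
  exact (hP X' (hne.mono h1) h2).trans h3

lemma le_rk_of_card {s : ℕ} {V : Type} [Fintype V] {st : St V} (hb : Bas s st) {X : Finset V}
    (hX : s - 1 ≤ X.card) : s - 1 ≤ rk st.p X := by
  obtain ⟨Y, hYX, hY⟩ := Finset.exists_subset_card_eq hX
  rw [← hY, ← hb.indep Y hY.le]
  exact rk_mono _ hYX

theorem boundsW_of_num (P : ParW) (M : ℕ)
    (n2 : P.a * (P.L + 1) ≤ (P.L + 2 - P.s) * (P.k * P.eta - P.W))
    (n2' : P.s ≤ P.L + 1)
    (nM : P.s * P.a - P.k * P.eta ≤ (M + 1) * (P.k * P.eta - P.s * P.b - P.W))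
    (n3a : P.eta * min (P.L : ℤ) (P.s - 1 + M) ≤ P.W + P.b * (P.s - 1))
    (n3b : P.eta * M ≤ P.W + (P.b - P.eta) * P.s) :
    BoundsW P := by
  intro V _ st hQ hP
  have hs := P.hs
  have hb := P.hb
  have heta0 : 0 < P.eta := P.heta0
  have heta : P.eta ≤ P.b := P.heta
  have hmu : P.W + P.s * P.b ≤ P.k * P.eta := P.hWmu
  have hsb : (P.s : ℤ) * P.b = P.a + P.eta := by
    unfold ParW.eta
    ring
  have hB1 : ∀ F : Finset V, IsFlat st.p F → rk st.p F ≤ P.s - 1 → F.card ≤ P.L := by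
    intro F hF hr
    by_contra hcon
    push Not at hcon
    have hne : F.Nonempty := by
      rw [← Finset.card_pos]
      omega
    have h1 := PhiS_flat_pos P hQ hP hF hne
    have h2 := PhiS_le P hQ F
    have h3 := hQ.1.count F hF
    have h4 : P.s - 1 ≤ rk st.p F := le_rk_of_card hQ.1 (by omega)
    have h5 : rk st.p F = P.s - 1 := le_antisymm hr h4
    have h6 : ((st.cin F).card : ℤ) = F.card - P.s + 1 := by
      rw [h5] at h3
      omega
    have h7 : (0 : ℤ) ≤ P.b * ell st.G st.p F := by positivity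
    have h8 : (P.L : ℤ) + 1 ≤ F.card := by exact_mod_cast hcon
    rw [h6] at h2
    have h9 : 0 ≤ ((F.card : ℤ) - (P.L + 1)) * (P.k * P.eta - P.W - P.a) :=
      mul_nonneg (by linarith) (by linarith)
    linarith
  refine ⟨hB1, ?_⟩
  intro _ U T hU hrU hT hUT B hBT
  have hdisj : Disjoint U T := by
    rw [Finset.disjoint_left]
    intro x hxU hxT
    exact (hUT x hxU x hxT).ne rfl
  set Z := flt st.p (U ∪ T) with hZ
  have hUTZ : U ∪ T ⊆ Z := subset_flt _ _
  have hZflat : IsFlat st.p Z := flt_isFlat _ _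
  have hrZ : rk st.p Z = rk st.p (U ∪ T) := rk_flt _ _
  have hcard : P.s + P.k ≤ Z.card := by
    rw [← hU, ← hT, ← Finset.card_union_of_disjoint hdisj]
    exact Finset.card_le_card hUTZ
  have hell : P.s * (rk st.p Z - P.s) ≤ ell st.G st.p Z := by
    have h1 := ell_ext st.G st.p (X := U) (Z := Z) (B := U) (D := T)
      (Finset.subset_union_left.trans hUTZ) (Finset.Subset.refl _) (by
        intro v hv d hd
        refine subset_flt _ _ (Finset.mem_union_right _ (Finset.mem_filter.2 ⟨?_, hUT v hv d hd⟩))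
        exact hUTZ (Finset.mem_union_right _ hd))
    rw [hrU, ← hrZ] at h1
    omega
  have hrs : P.s ≤ rk st.p Z := by
    rw [← hrU]
    exact rk_mono _ (Finset.subset_union_left.trans hUTZ)
  have hne : Z.Nonempty := by
    rw [← Finset.card_pos]
    omega
  have h1 := PhiS_flat_pos P hQ hP hZflat hne
  have h2 := PhiS_le P hQ Z
  have h3 := hQ.1.count Z hZflat
  have hell' : (P.s : ℤ) * (rk st.p Z - P.s) ≤ ell st.G st.p Z := by
    have : ((P.s * (rk st.p Z - P.s) : ℕ) : ℤ) ≤ ell st.G st.p Z := by exact_mod_cast hell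
    rw [Nat.cast_mul, Nat.cast_sub hrs] at this
    exact this
  set r : ℤ := ((rk st.p Z : ℕ) : ℤ) with hr
  set n : ℤ := ((st.cin Z).card : ℤ) with hn
  have h3' : (Z.card : ℤ) = r + n := by
    rw [h3]
    push_cast
    rfl
  have hcard' : (P.s : ℤ) + P.k ≤ r + n := by
    rw [← h3']
    exact_mod_cast hcard
  -- `m ≤ M`
  have hm : (P.k : ℤ) - (r - P.s) ≤ M := by
    by_contra hcon
    push Not at hcon
    have h4 : (M : ℤ) + 1 ≤ P.k - (r - P.s) := by omega
    rw [h3'] at h2
    have h5 : 0 ≤ P.b * ((ell st.G st.p Z : ℤ) - P.s * (r - P.s)) :=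
      mul_nonneg hb.le (by linarith)
    have h6 : 0 ≤ (n - (P.k - (r - P.s))) * (P.k * P.eta - P.W - P.a) :=
      mul_nonneg (by linarith) (by linarith)
    have h7 : 0 ≤ (P.k - (r - P.s) - (M + 1)) * (P.k * P.eta - P.s * P.b - P.W) :=
      mul_nonneg (by linarith) (by linarith)
    have h8 : P.b * (P.s * (r - P.s)) = (P.a + P.eta) * (r - P.s) := by
      rw [← hsb]
      ring
    have h10 : (P.k - (r - P.s)) * (P.s * P.b) = (P.k - (r - P.s)) * (P.a + P.eta) := by
      rw [hsb]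
    clear_value r n
    linarith
  -- ranks
  have hrT : r ≤ P.s + rk st.p T := by
    have h4 := rk_submod st.p U T
    have h5 : rk st.p Z ≤ P.s + rk st.p T := by
      rw [hrZ]
      omega
    rw [hr]
    exact_mod_cast h5
  have hBM : (B.card : ℤ) - rk st.p B ≤ M := by
    have h4 := rk_submod st.p B (T \ B)
    have h5 : B ∪ (T \ B) = T := Finset.union_sdiff_of_subset hBT
    rw [h5] at h4
    have h6 := rk_le_card st.p (T \ B)
    have h7 : (T \ B).card + B.card = T.card := Finset.card_sdiff_add_card_eq_card hBT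
    have h8 : (rk st.p T : ℤ) ≤ rk st.p B + (T.card - B.card) := by omega
    rw [hT] at h8
    linarith
  by_cases hB : B.card ≤ P.s - 1
  · rw [hQ.1.indep B hB]
    have h4 : 0 ≤ (P.b - P.eta) * (B.card : ℤ) := mul_nonneg (by linarith) (by positivity)
    have h5 := P.hW0
    linarith
  · have h4 : P.s - 1 ≤ rk st.p B := le_rk_of_card hQ.1 (by omega)
    rcases Nat.eq_or_lt_of_le h4 with h5 | h5
    · have h6 : B.card ≤ P.L :=
        (Finset.card_le_card (subset_flt st.p B)).trans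
          (hB1 _ (flt_isFlat _ _) (by rw [rk_flt]; omega))
      have h7 : (rk st.p B : ℤ) = P.s - 1 := by omega
      rw [h7] at hBM ⊢
      have h8 : (B.card : ℤ) ≤ min (P.L : ℤ) (P.s - 1 + M) :=
        le_min (by exact_mod_cast h6) (by linarith)
      have h9 := mul_le_mul_of_nonneg_left h8 heta0.le
      linarith
    · have h6 : (P.s : ℤ) ≤ rk st.p B := by omega
      have h7 : 0 ≤ (P.b - P.eta) * ((rk st.p B : ℤ) - P.s) :=
        mul_nonneg (by linarith) (by linarith)
      have h8 : 0 ≤ P.eta * (M - ((B.card : ℤ) - rk st.p B)) :=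
        mul_nonneg heta0.le (by linarith)
      linarith

/-- the numerical part: a family of parameters gives the hull property -/
theorem hull_of_params (s k : ℕ) (W : ℤ) (L M : ℕ) (hs : 3 ≤ s) (hk : 1 ≤ k)
    (hk2 : s ^ 2 + 3 ≤ k + 3 * s)
    (hW0 : 0 ≤ W) (hWb : W ≤ s + k - 1)
    (hWmu : W + s * (s + k - 1) ≤ k * (s ^ 2 - 2 * s + 2))
    (hL : L ≤ s + 1 ∨ (s = 3 ∧ L ≤ 5))
    (n2 : ((s : ℤ) * k + s - 2) * (L + 1) ≤ (L + 2 - s) * (k * (s ^ 2 - 2 * s + 2) - W))
    (n2' : s ≤ L + 1)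
    (nM : (s : ℤ) * (s * k + s - 2) - k * (s ^ 2 - 2 * s + 2) ≤
      (M + 1) * (k * (s ^ 2 - 2 * s + 2) - s * (s + k - 1) - W))
    (n3a : ((s : ℤ) ^ 2 - 2 * s + 2) * min (L : ℤ) (s - 1 + M) ≤ W + (s + k - 1) * (s - 1))
    (n3b : ((s : ℤ) ^ 2 - 2 * s + 2) * M ≤ W + (s + k - 1 - (s ^ 2 - 2 * s + 2)) * s) :
    HullProp (Kst s (k + 1)) (s * (k + 1) - 2) (s + (k + 1) - 2)
      (2 * (s * (k + 1) - 2) - (s + (k + 1) - 2)) := by
  have hs' : (3 : ℤ) ≤ s := by exact_mod_cast hs
  have hk' : (1 : ℤ) ≤ k := by exact_mod_cast hk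
  have hk2' : (s : ℤ) ^ 2 + 3 ≤ k + 3 * s := by exact_mod_cast hk2
  have hsk : 3 * 2 ≤ s * (k + 1) := Nat.mul_le_mul hs (by omega)
  have ha : ((s * (k + 1) - 2 : ℕ) : ℤ) = (s : ℤ) * k + s - 2 := by
    rw [Nat.cast_sub (by omega)]
    push_cast
    ring
  have hb : ((s + (k + 1) - 2 : ℕ) : ℤ) = (s : ℤ) + k - 1 := by
    rw [Nat.cast_sub (by omega)]
    push_cast
    ring
  have h3k : 3 * (k : ℤ) ≤ s * k := mul_le_mul_of_nonneg_right hs' (by linarith)
  have hba : (s : ℤ) + k - 1 < (s : ℤ) * k + s - 2 := by linarith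
  have hD : ((2 * (s * (k + 1) - 2) - (s + (k + 1) - 2) : ℕ) : ℤ) =
      2 * ((s : ℤ) * k + s - 2) - ((s : ℤ) + k - 1) := by
    have : s + (k + 1) - 2 ≤ 2 * (s * (k + 1) - 2) := by
      have h1 : ((s + (k + 1) - 2 : ℕ) : ℤ) ≤ ((2 * (s * (k + 1) - 2) : ℕ) : ℤ) := by
        rw [Nat.cast_mul, ha, hb]
        push_cast
        linarith
      exact_mod_cast h1
    rw [Nat.cast_sub this, Nat.cast_mul, ha, hb]
    push_cast
    ring
  have heta : (s : ℤ) * (s + k - 1) - (s * k + s - 2) = s ^ 2 - 2 * s + 2 := by ring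
  have hsq : (0 : ℤ) < s ^ 2 - 2 * s + 2 := by nlinarith [sq_nonneg ((s : ℤ) - 1)]
  have hEq : ((s : ℤ) - 1) * (s * k + s - 2) = k * (s ^ 2 - 2 * s + 2) + (s - 2) * (s + k - 1) := by
    ring
  let P : ParW :=
    { s := s
      k := k
      L := L
      a := (s : ℤ) * k + s - 2
      b := (s : ℤ) + k - 1
      W := W
      hs := hs
      hk := hk
      hb := by linarith
      hab := hba
      heta0 := by rw [heta]; exact hsq
      heta := by rw [heta]; linarith
      hW0 := hW0
      hWb := hWb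
      hWmu := by rw [heta]; exact hWmu
      hE := by
        rw [heta]
        exact hEq.le
      hL := hL }
  have hPeta : P.eta = (s : ℤ) ^ 2 - 2 * s + 2 := heta
  have hB : BoundsW P := by
    apply boundsW_of_num P M
    · rw [hPeta]; exact n2
    · exact n2'
    · rw [hPeta]; exact nM
    · rw [hPeta]; exact n3a
    · rw [hPeta]; exact n3b
  have hS := scheme_W P hB
  refine hullProp_of_scheme s k _ _ _ hs hk (QW P) ?_
  rw [ha, hb, hD]
  exact hS

/-- Unbalanced case: `t > s² - 3 s + 4`, except `(3,5), …, (3,9)`. -/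
theorem hull_unbalanced (s t : ℕ) (hs : 3 ≤ s) (hst : s ≤ t) (hunb : s ^ 2 + 4 < t + 3 * s)
    (hexc : s = 3 → 10 ≤ t) :
    HullProp (Kst s t) (s * t - 2) (s + t - 2) (2 * (s * t - 2) - (s + t - 2)) := by
  obtain ⟨k, rfl⟩ : ∃ k, t = k + 1 := ⟨t - 1, by omega⟩
  rcases Nat.lt_or_ge s 5 with h5 | h5
  · interval_cases s
    · -- s = 3
      have hk9 : 9 ≤ k := by
        have := hexc rfl
        omega
      rcases Nat.lt_or_ge k 11 with h11 | h11
      · interval_cases k
        · exact hull_of_params 3 9 3 5 4 (by norm_num) (by norm_num) (by norm_num) (by norm_num)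
            (by norm_num) (by norm_num) (by norm_num) (by norm_num) (by norm_num) (by norm_num)
            (by norm_num) (by norm_num)
        · exact hull_of_params 3 10 1 5 3 (by norm_num) (by norm_num) (by norm_num) (by norm_num)
            (by norm_num) (by norm_num) (by norm_num) (by norm_num) (by norm_num) (by norm_num)
            (by norm_num) (by norm_num)
      · have hk' : (11 : ℤ) ≤ k := by exact_mod_cast h11
        refine hull_of_params 3 k 0 5 2 (by norm_num) (by omega) (by omega) (by norm_num)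
          ?_ ?_ (by norm_num) ?_ (by norm_num) ?_ ?_ ?_
        · push_cast; linarith
        · push_cast; linarith
        · push_cast; linarith
        · push_cast; linarith
        · push_cast
          norm_num
          linarith
        · push_cast; linarith
    · -- s = 4
      have hk8 : 8 ≤ k := by omega
      have hk' : (8 : ℤ) ≤ k := by exact_mod_cast hk8
      have hm : max 0 (31 - 3 * (k : ℤ)) = 0 ∧ 11 ≤ k ∨
          max 0 (31 - 3 * (k : ℤ)) = 31 - 3 * k ∧ k ≤ 10 := by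
        rcases Nat.lt_or_ge k 11 with h | h
        · right
          refine ⟨max_eq_right (by omega), by omega⟩
        · left
          refine ⟨max_eq_left (by omega), h⟩
      refine hull_of_params 4 k (max 0 (31 - 3 * (k : ℤ))) 5 1 (by norm_num) (by omega) (by omega)
        (le_max_left _ _) ?_ ?_ (by norm_num) ?_ (by norm_num) ?_ ?_ ?_
      · rcases hm with ⟨h, h'⟩ | ⟨h, h'⟩ <;> rw [h] <;> push_cast <;> omega
      · rcases hm with ⟨h, h'⟩ | ⟨h, h'⟩ <;> rw [h] <;> push_cast <;> omega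
      · rcases hm with ⟨h, h'⟩ | ⟨h, h'⟩ <;> rw [h] <;> push_cast <;> omega
      · rcases hm with ⟨h, h'⟩ | ⟨h, h'⟩ <;> rw [h] <;> push_cast <;> omega
      · rcases hm with ⟨h, h'⟩ | ⟨h, h'⟩ <;> rw [h] <;> push_cast <;> norm_num <;> omega
      · rcases hm with ⟨h, h'⟩ | ⟨h, h'⟩ <;> rw [h] <;> push_cast <;> omega
  · -- s ≥ 5
    have hs' : (5 : ℤ) ≤ s := by exact_mod_cast h5
    have hk2 : (s : ℤ) ^ 2 + 4 ≤ k + 3 * s := by
      have : s ^ 2 + 4 ≤ k + 3 * s := by omega
      exact_mod_cast this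
    have hk3 : (s : ℤ) ^ 2 - 3 * s + 4 ≤ k := by linarith
    have hk14 : (14 : ℤ) ≤ k := by nlinarith
    have hkey : ((s : ℤ) ^ 2 - 3 * s + 4) * ((s - 1) * (s - 4)) ≤ k * ((s - 1) * (s - 4)) :=
      mul_le_mul_of_nonneg_right hk3 (mul_nonneg (by linarith) (by linarith))
    have hkey2 : 2 * (s : ℤ) ^ 2 - 3 * s ≤ ((s : ℤ) ^ 2 - 3 * s + 4) * ((s - 1) * (s - 4)) := by
      obtain ⟨x, hx, hx0⟩ : ∃ x : ℤ, (s : ℤ) = x + 5 ∧ 0 ≤ x := ⟨s - 5, by ring, by linarith⟩
      rw [hx]
      have : 0 ≤ x ^ 4 + 12 * x ^ 3 + 51 * x ^ 2 + 80 * x + 21 := by positivity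
      nlinarith [this, mul_nonneg hx0 hx0, mul_nonneg (mul_nonneg hx0 hx0) hx0,
        mul_nonneg (mul_nonneg (mul_nonneg hx0 hx0) hx0) hx0]
    have hkey3 : 2 * (s : ℤ) ^ 2 - 3 * s ≤ k * ((s - 1) * (s - 4)) := hkey2.trans hkey
    refine hull_of_params s k 0 s 0 hs (by omega) (by omega) le_rfl (by linarith) ?_
      (Or.inl (by omega)) ?_ (by omega) ?_ ?_ ?_
    · nlinarith
    · nlinarith
    · push_cast
      nlinarith
    · push_cast
      rw [add_zero, min_eq_right (by linarith)]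
      have : (s : ℤ) ^ 2 - 2 * s + 2 ≤ s + k - 1 := by linarith
      have := mul_le_mul_of_nonneg_right this (show (0 : ℤ) ≤ s - 1 by linarith)
      linarith
    · push_cast
      have : 0 ≤ ((s : ℤ) + k - 1 - (s ^ 2 - 2 * s + 2)) * s :=
        mul_nonneg (by linarith) (by linarith)
      linarith

end MP30c94c
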