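import Mathlib
import Pool.Agent.Lib.MP30c94c.KStepW

/-!
# The bounds for `K_{3,8}` and `K_{3,9}` by the time order of the classes
-/

open SimpleGraph Finset

namespace MP30c94c

attribute [local instance] Classical.propDecidable

/-- a sum over the classes ordered by time -/
lemma sum_time {V : Type} (C : Finset (Cls V)) (f : ℕ → ℤ) (hf : Antitone f) :
    ∑ i ∈ Finset.range C.card, f i ≤ ∑ c ∈ C, f ((C.filter fun c' => c'.t < c.t).card) := by
  induction C using Finset.strongInduction with
  | H C ih =>
    rcases C.eq_empty_or_nonempty with rfl | hne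
    · simp
    · obtain ⟨c0, hc0, hmax⟩ := Finset.exists_max_image C (fun c => c.t) hne
      have h1 := ih (C.erase c0) (Finset.erase_ssubset hc0)
      have hcard : (C.erase c0).card + 1 = C.card := Finset.card_erase_add_one hc0
      rw [← hcard, Finset.sum_range_succ, ← Finset.add_sum_erase C _ hc0, add_comm]
      refine add_le_add ?_ ?_
      · apply hf
        have h2 : (C.filter fun c' => c'.t < c0.t) ⊆ C.erase c0 := by
          intro c hc
          rw [Finset.mem_filter] at hc
          rw [Finset.mem_erase]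
          exact ⟨fun h => absurd hc.2 (by rw [h]; exact lt_irrefl _), hc.1⟩
        exact Finset.card_le_card h2
      · refine h1.trans (le_of_eq (Finset.sum_congr rfl fun c hc => ?_))
        have h3 : ((C.erase c0).filter fun c' => c'.t < c.t) = C.filter fun c' => c'.t < c.t := by
          ext c'
          rw [Finset.mem_filter, Finset.mem_filter, Finset.mem_erase]
          constructor
          · rintro ⟨⟨_, h4⟩, h5⟩
            exact ⟨h4, h5⟩
          · rintro ⟨h4, h5⟩
            refine ⟨⟨?_, h4⟩, h5⟩
            rintro rfl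
            exact absurd (hmax c (Finset.mem_of_mem_erase hc)) (not_le.2 h5)
        rw [h3]

/-- HULL lemma with counting -/
lemma exists_hull_count (P : ParW) {V : Type} [Fintype V] {st : St V} (hQ : QW P V st)
    {X : Finset V} (hX : IsFlat st.p X) :
    ∃ H, X ⊆ H ∧ Clo st H ∧
      PhiS P.a P.b st H ≤ PhiS P.a P.b st X
        + (P.b - P.eta) * ((rk st.p H : ℤ) - rk st.p X)
        - ∑ c ∈ st.cin H \ st.cin X, (c.th - P.a) ∧
      (H = X ∨ (P.b - P.eta) * ((rk st.p H : ℤ) - rk st.p X) + 1 ≤
        P.eta * ((st.cin H \ st.cin X).card : ℤ)) := by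
  have heta0 : 0 < P.eta := P.heta0
  have hb := P.hb
  induction hn : Fintype.card V - X.card using Nat.strong_induction_on generalizing X with
  | _ n ih =>
    by_cases hclo : Clo st X
    · exact ⟨X, Finset.Subset.refl _, hclo, by simp, Or.inl rfl⟩
    · obtain ⟨c, hc, hU, hA⟩ : ∃ c ∈ st.cls, c.U ⊆ X ∧ ¬ c.A ⊆ X := by
        by_contra hcon
        push Not at hcon
        exact hclo ⟨hX, hcon⟩
      set Z := flt st.p (X ∪ c.A) with hZ
      have hXA : X ∪ c.A ⊆ Z := subset_flt _ _
      have hXZ : X ⊆ Z := Finset.subset_union_left.trans hXA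
      have hAZ : c.A ⊆ Z := Finset.subset_union_right.trans hXA
      have hZflat : IsFlat st.p Z := flt_isFlat _ _
      have hrZ : rk st.p Z = rk st.p (X ∪ c.A) := rk_flt _ _
      have hlt : X.card < Z.card := by
        apply Finset.card_lt_card
        refine Finset.ssubset_iff_subset_ne.2 ⟨hXZ, ?_⟩
        intro h
        apply hA
        rw [h]
        exact hAZ
      have hZV : Z.card ≤ Fintype.card V := Finset.card_le_univ Z
      obtain ⟨H, hZH, hHclo, hH1, hH2⟩ := ih (Fintype.card V - Z.card) (by omega) hZflat rfl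
      have hstep := helper_step P hQ hX hc hU
      rw [← hZ, ← hrZ] at hstep
      -- splitting of the new classes
      have hsub1 := cin_mono st hXZ
      have hsub2 := cin_mono st hZH
      have hdisj : Disjoint (st.cin H \ st.cin Z) (st.cin Z \ st.cin X) := by
        rw [Finset.disjoint_left]
        intro x hx hx'
        exact (Finset.mem_sdiff.1 hx).2 (Finset.mem_sdiff.1 hx').1
      have hunion : st.cin H \ st.cin X = (st.cin H \ st.cin Z) ∪ (st.cin Z \ st.cin X) := by
        ext x
        rw [Finset.mem_union, Finset.mem_sdiff, Finset.mem_sdiff, Finset.mem_sdiff]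
        constructor
        · rintro ⟨h1, h2⟩
          by_cases h3 : x ∈ st.cin Z
          · exact Or.inr ⟨h3, h2⟩
          · exact Or.inl ⟨h1, h3⟩
        · rintro (⟨h1, h2⟩ | ⟨h1, h2⟩)
          · exact ⟨h1, fun h3 => h2 (hsub1 h3)⟩
          · exact ⟨hsub2 h1, h2⟩
      have hsum : ∑ c ∈ st.cin H \ st.cin X, (c.th - P.a) =
          ∑ c ∈ st.cin H \ st.cin Z, (c.th - P.a) + ∑ c ∈ st.cin Z \ st.cin X, (c.th - P.a) := by
        rw [hunion, Finset.sum_union hdisj]
      have hcard : ((st.cin H \ st.cin X).card : ℤ) =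
          (st.cin H \ st.cin Z).card + (st.cin Z \ st.cin X).card := by
        rw [hunion, Finset.card_union_of_disjoint hdisj]
        push_cast
        rfl
      -- counting the new classes
      have hc1 := hQ.1.count X hX
      have hc2 := hQ.1.count Z hZflat
      have hc3 : (st.cin Z \ st.cin X).card + (st.cin X).card = (st.cin Z).card :=
        Finset.card_sdiff_add_card_eq_card hsub1
      have hc4 : (c.A \ X).card + X.card ≤ Z.card := by
        have h1 : (X ∪ (c.A \ X)).card = X.card + (c.A \ X).card :=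
          Finset.card_union_of_disjoint Finset.disjoint_sdiff
        have h2 : X ∪ (c.A \ X) ⊆ Z :=
          Finset.union_subset hXZ (Finset.sdiff_subset.trans hAZ)
        have h3 := Finset.card_le_card h2
        omega
      obtain ⟨ρ, -, -, -, -, -, hstrict, -, -⟩ := (hQ.2 c hc).1
      have h5 := hstrict (c.A ∩ X) Finset.inter_subset_left (by
        intro h
        apply hA
        rw [← h]
        exact Finset.inter_subset_right)
      have h6 : c.A \ (c.A ∩ X) = c.A \ X := by
        ext x
        simp only [Finset.mem_sdiff, Finset.mem_inter]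
        tauto
      rw [h6] at h5
      have h7 := rk_submod st.p X c.A
      have h8 : X ∩ c.A = c.A ∩ X := Finset.inter_comm _ _
      rw [h8, ← hrZ] at h7
      have h9 : ((rk st.p Z : ℤ) - rk st.p X) ≤ (rk st.p c.A : ℤ) - rk st.p (c.A ∩ X) := by
        have : (rk st.p Z : ℤ) + rk st.p (c.A ∩ X) ≤ rk st.p X + rk st.p c.A := by
          exact_mod_cast h7
        linarith
      have h10 : P.b * ((rk st.p Z : ℤ) - rk st.p X) ≤
          P.b * ((rk st.p c.A : ℤ) - rk st.p (c.A ∩ X)) := mul_le_mul_of_nonneg_left h9 hb.le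
      have h11 : (((c.A \ X).card : ℤ)) - ((rk st.p Z : ℤ) - rk st.p X) ≤
          ((st.cin Z \ st.cin X).card : ℤ) := by
        omega
      have h12 := mul_le_mul_of_nonneg_left h11 heta0.le
      have hnew : (P.b - P.eta) * ((rk st.p Z : ℤ) - rk st.p X) + 1 ≤
          P.eta * ((st.cin Z \ st.cin X).card : ℤ) := by
        linarith
      refine ⟨H, hXZ.trans hZH, hHclo, ?_, Or.inr ?_⟩
      · rw [hsum]
        linarith
      · rw [hcard]
        rcases hH2 with h | h
        · rw [h, Finset.sdiff_self, Finset.card_empty]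
          push_cast
          linarith
        · linarith

/-- the discount of a class inside a closed set, `s = 3` -/
lemma disc_le (P : ParW) (hs : P.s = 3) {V : Type} [Fintype V] {st : St V} (hQ : QW P V st)
    {H : Finset V} (hH : Clo st H) {c : Cls V} (hc : c ∈ st.cin H) :
    ∃ w : ℤ, c.th = P.k * P.eta - w ∧ w ≤ P.W ∧ c.A ⊆ H ∧
      (w ≤ 0 ∨ w ≤ P.eta * (((st.cin H).filter fun c' => c'.t < c.t).card : ℤ)
        - 2 * (P.b - P.eta)) ∧ (c.A = ∅ → w ≤ 0) := by
  have heta0 : 0 < P.eta := P.heta0
  have heta : P.eta ≤ P.b := P.heta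
  have hb := P.hb
  unfold St.cin at hc
  rw [Finset.mem_filter] at hc
  obtain ⟨ρ, hth, hrho, hw0, hwW, -, -, -, hold⟩ := (hQ.2 c hc.1).1
  have hAH : c.A ⊆ H := hH.2 c hc.1 hc.2
  have hb2 : ∀ Y : Finset V, Y.card ≤ 2 → rk st.p Y = Y.card := by
    intro Y hY
    apply hQ.1.indep Y
    rw [hs]
    exact hY
  refine ⟨P.eta * c.A.card - P.b * ρ, hth, hwW, hAH, ?_, ?_⟩
  · have hold2 : ((st.cin (flt st.p c.A)).filter fun c' => c'.t < c.t).card ≤
        ((st.cin H).filter fun c' => c'.t < c.t).card := by
      refine Finset.card_le_card (Finset.filter_subset_filter _ (cin_mono st ?_))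
      exact hH.1.flt_subset hAH
    have hold3 : (c.A.card : ℤ) - ρ ≤ ((st.cin H).filter fun c' => c'.t < c.t).card := by
      refine hold.trans ?_
      exact_mod_cast hold2
    rcases Nat.lt_or_ge ρ 2 with h2 | h2
    · left
      have h3 : c.A.card ≤ 1 := by
        by_contra hcon
        push Not at hcon
        obtain ⟨Y, hYA, hY⟩ := Finset.exists_subset_card_eq (s := c.A) (n := 2) (by omega)
        have h4 := rk_mono st.p hYA
        rw [hb2 Y hY.le, hY] at h4
        omega
      have h4 : rk st.p c.A = c.A.card := hb2 _ (by omega)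
      rw [h4] at hrho
      have h5 : (c.A.card : ℤ) ≤ ρ := by exact_mod_cast hrho
      have h6 : P.eta * (c.A.card : ℤ) ≤ P.b * ρ :=
        mul_le_mul heta h5 (by positivity) hb.le
      linarith
    · right
      have h5 : (2 : ℤ) ≤ ρ := by exact_mod_cast h2
      have h6 := mul_le_mul_of_nonneg_left hold3 heta0.le
      have h7 := mul_le_mul_of_nonneg_left h5 (show (0 : ℤ) ≤ P.b - P.eta by linarith)
      linarith
  · intro h
    rw [h, Finset.card_empty]
    push_cast
    have : 0 ≤ P.b * (ρ : ℤ) := by positivity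
    linarith

theorem boundsW_time (P : ParW) (hs : P.s = 3) (hL : P.L = 5)
    (htau : P.k * P.eta - P.a - P.W = P.eta)
    (hW1 : P.eta ≤ 2 * (P.b - P.eta))
    (hS4 : 2 * P.a ≤ 4 * (P.k * P.eta - P.a)
      - max 0 (2 * P.eta - 2 * (P.b - P.eta)) - max 0 (3 * P.eta - 2 * (P.b - P.eta)) + 1)
    (h4 : 2 * P.a ≤ 4 * (P.k * P.eta - P.a))
    (h2 : P.eta * 5 - P.b * 2 ≤ P.W) (h3 : P.eta * P.k - P.b * 3 ≤ P.W) :
    BoundsW P := by
  intro V _ st hQ hP
  have heta0 : 0 < P.eta := P.heta0
  have heta : P.eta ≤ P.b := P.heta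
  have hb := P.hb
  have hb2 : ∀ Y : Finset V, Y.card ≤ 2 → rk st.p Y = Y.card := by
    intro Y hY
    apply hQ.1.indep Y
    rw [hs]
    exact hY
  have hrk2 : ∀ Y : Finset V, 2 ≤ Y.card → 2 ≤ rk st.p Y := by
    intro Y hY
    obtain ⟨Y', hY'Y, hY'⟩ := Finset.exists_subset_card_eq hY
    rw [← hY', ← hb2 Y' hY'.le]
    exact rk_mono _ hY'Y
  have hB1 : ∀ F : Finset V, IsFlat st.p F → rk st.p F ≤ P.s - 1 → F.card ≤ P.L := by
    intro F hF hr
    rw [hL]
    rw [hs] at hr
    by_contra hcon
    push Not at hcon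
    have hrF : rk st.p F = 2 := le_antisymm hr (hrk2 F (by omega))
    have hcF := hQ.1.count F hF
    have hne : F.Nonempty := by
      rw [← Finset.card_pos]
      omega
    obtain ⟨H, hFH, hHclo, hH1, hH2⟩ := exists_hull_count P hQ hF
    have hpos := hP H (hne.mono hFH) hHclo
    have hsub := cin_mono st hFH
    -- the potential of `F`
    have hPhiF : PhiS P.a P.b st F = 2 * P.a - ∑ c ∈ st.cin F, (c.th - P.a)
        - P.b * ell st.G st.p F := by
      unfold PhiS
      rw [Finset.sum_sub_distrib, Finset.sum_const, nsmul_eq_mul, hcF, hrF]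
      push_cast
      ring
    have hsum : ∑ c ∈ st.cin H, (c.th - P.a) =
        ∑ c ∈ st.cin H \ st.cin F, (c.th - P.a) + ∑ c ∈ st.cin F, (c.th - P.a) := by
      rw [← Finset.sum_union Finset.sdiff_disjoint, Finset.sdiff_union_of_subset hsub]
    have hcard : (st.cin H \ st.cin F).card + (st.cin F).card = (st.cin H).card :=
      Finset.card_sdiff_add_card_eq_card hsub
    set N := (st.cin H).card with hN
    have hN4 : 4 ≤ (st.cin F).card := by omega
    -- the sum of the prices
    let f : ℕ → ℤ := fun n => (P.k * P.eta - P.a) - min P.W (max 0 (P.eta * n - 2 * (P.b - P.eta)))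
    have hfanti : Antitone f := by
      intro m n hmn
      have h5 : P.eta * (m : ℤ) ≤ P.eta * n :=
        mul_le_mul_of_nonneg_left (by exact_mod_cast hmn) heta0.le
      have h6 : min P.W (max 0 (P.eta * (m : ℤ) - 2 * (P.b - P.eta))) ≤
          min P.W (max 0 (P.eta * (n : ℤ) - 2 * (P.b - P.eta))) :=
        min_le_min le_rfl (max_le_max le_rfl (by linarith))
      change (P.k * P.eta - P.a) - _ ≤ (P.k * P.eta - P.a) - _
      linarith
    have hprice : ∑ i ∈ Finset.range N, f i ≤ ∑ c ∈ st.cin H, (c.th - P.a) := by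
      refine (sum_time (st.cin H) f hfanti).trans (Finset.sum_le_sum fun c hc => ?_)
      obtain ⟨w, hw1, hw2, -, hw3, -⟩ := disc_le P hs hQ hHclo hc
      have h5 : w ≤ min P.W (max 0
          (P.eta * (((st.cin H).filter fun c' => c'.t < c.t).card : ℤ) - 2 * (P.b - P.eta))) := by
        refine le_min hw2 ?_
        rcases hw3 with h | h
        · exact h.trans (le_max_left _ _)
        · exact h.trans (le_max_right _ _)
      change (P.k * P.eta - P.a) - _ ≤ _
      rw [hw1]
      linarith
    have hf : ∀ n, P.eta ≤ f n := by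
      intro n
      have h5 : min P.W (max 0 (P.eta * (n : ℤ) - 2 * (P.b - P.eta))) ≤ P.W := min_le_left _ _
      change P.eta ≤ (P.k * P.eta - P.a) - _
      linarith
    have hf0 : P.k * P.eta - P.a ≤ f 0 := by
      have h5 : min P.W (max 0 (P.eta * ((0 : ℕ) : ℤ) - 2 * (P.b - P.eta))) ≤ 0 := by
        refine (min_le_right _ _).trans (max_le le_rfl ?_)
        push_cast
        linarith
      change _ ≤ (P.k * P.eta - P.a) - _
      linarith
    have hf1 : P.k * P.eta - P.a ≤ f 1 := by
      have h5 : min P.W (max 0 (P.eta * ((1 : ℕ) : ℤ) - 2 * (P.b - P.eta))) ≤ 0 := by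
        refine (min_le_right _ _).trans (max_le le_rfl ?_)
        push_cast
        linarith
      change _ ≤ (P.k * P.eta - P.a) - _
      linarith
    have hf2 : P.k * P.eta - P.a - max 0 (2 * P.eta - 2 * (P.b - P.eta)) ≤ f 2 := by
      have h5 : min P.W (max 0 (P.eta * ((2 : ℕ) : ℤ) - 2 * (P.b - P.eta))) ≤
          max 0 (2 * P.eta - 2 * (P.b - P.eta)) := by
        refine (min_le_right _ _).trans (le_of_eq ?_)
        push_cast
        rw [mul_comm P.eta 2]
      change _ ≤ (P.k * P.eta - P.a) - _
      linarith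
    have hf3 : P.k * P.eta - P.a - max 0 (3 * P.eta - 2 * (P.b - P.eta)) ≤ f 3 := by
      have h5 : min P.W (max 0 (P.eta * ((3 : ℕ) : ℤ) - 2 * (P.b - P.eta))) ≤
          max 0 (3 * P.eta - 2 * (P.b - P.eta)) := by
        refine (min_le_right _ _).trans (le_of_eq ?_)
        push_cast
        rw [mul_comm P.eta 3]
      change _ ≤ (P.k * P.eta - P.a) - _
      linarith
    have htail : ∀ n, 2 * P.a - 1 + P.eta * n ≤ ∑ i ∈ Finset.range (n + 4), f i := by
      intro n
      induction n with
      | zero =>
        simp only [Finset.sum_range_succ, Finset.sum_range_zero, zero_add]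
        push_cast
        linarith
      | succ n ih =>
        have h5 : n + 1 + 4 = (n + 4) + 1 := by ring
        rw [h5, Finset.sum_range_succ]
        have h6 := hf (n + 4)
        push_cast
        linarith
    have hprice2 : 2 * P.a - 1 + P.eta * ((N : ℤ) - 4) ≤ ∑ c ∈ st.cin H, (c.th - P.a) := by
      obtain ⟨n, hn⟩ : ∃ n, N = n + 4 := ⟨N - 4, by omega⟩
      have h5 := htail n
      rw [← hn] at h5
      have h6 : (n : ℤ) = (N : ℤ) - 4 := by rw [hn]; push_cast; ring
      rw [h6] at h5
      exact h5.trans hprice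
    have hell : 0 ≤ P.b * (ell st.G st.p F : ℤ) := by positivity
    rw [hrF] at hH1 hH2
    rcases hH2 with h | h
    · -- `H = F`
      subst h
      rw [Finset.sdiff_self, Finset.sum_empty, hrF] at hH1
      rw [hPhiF] at hH1 hpos
      have hNe : (4 : ℤ) ≤ N := by exact_mod_cast hN4
      have hNeta : 0 ≤ P.eta * ((N : ℤ) - 4) := mul_nonneg heta0.le (by linarith)
      by_cases hl : ell st.G st.p H = 0
      · -- all helper sets are empty
        have hall : ∀ c ∈ st.cin H, P.k * P.eta - P.a ≤ c.th - P.a := by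
          intro c hc
          obtain ⟨w, hw1, -, hw2, -, hw3⟩ := disc_le P hs hQ hHclo hc
          have hA : c.A = ∅ := by
            by_contra hA
            obtain ⟨x, hx⟩ := Finset.nonempty_iff_ne_empty.2 hA
            have hc' : c ∈ st.cls ∧ c.U ⊆ H := by
              unfold St.cin at hc
              exact Finset.mem_filter.1 hc
            obtain ⟨ρ, -, -, -, -, -, -, hadj, -⟩ := (hQ.2 c hc'.1).1
            have hUc := (hQ.1.csize c hc'.1).1
            obtain ⟨u, hu⟩ : c.U.Nonempty := by
              rw [← Finset.card_pos, hUc, hs]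
              norm_num
            have hp0 : ∀ v, st.p v ≠ 0 := by
              intro v hv
              have h5 := hb2 {v} (by simp)
              have h6 : sp st.p {v} = ⊥ := by
                unfold sp
                rw [Finset.coe_singleton, Set.image_singleton, hv, Submodule.span_zero_singleton]
              unfold rk at h5
              rw [h6, finrank_bot, Finset.card_singleton] at h5
              exact absurd h5 (by norm_num)
            have h5 := one_le_ell st.G st.p (hc'.2 hu) (hw2 hx) (hadj x hx u hu) (hp0 u) (hp0 x)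
            omega
          have h5 := hw3 hA
          rw [hw1]
          linarith
        have h5 := Finset.card_nsmul_le_sum _ _ _ hall
        rw [nsmul_eq_mul, ← hN] at h5
        have h6 : 4 * (P.k * P.eta - P.a) ≤ (N : ℤ) * (P.k * P.eta - P.a) := by
          refine mul_le_mul_of_nonneg_right hNe ?_
          have := P.hW0
          linarith
        linarith
      · have h5 : (1 : ℤ) ≤ ell st.G st.p H := by
          have : 1 ≤ ell st.G st.p H := Nat.one_le_iff_ne_zero.2 hl
          exact_mod_cast this
        have h6 := mul_le_mul_of_nonneg_left h5 hb.le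
        linarith
    · -- `H ≠ F`
      have h5 : ((st.cin H \ st.cin F).card : ℤ) = (N : ℤ) - (st.cin F).card := by
        rw [← hcard]
        push_cast
        ring
      have h6 : (4 : ℤ) ≤ (st.cin F).card := by exact_mod_cast hN4
      have h7 := mul_le_mul_of_nonneg_left h6 heta0.le
      rw [h5] at h
      rw [hPhiF] at hH1
      push_cast at hH1 h
      linarith
  refine ⟨hB1, ?_⟩
  intro _ U T _ _ hT _ B hBT
  have hBk : B.card ≤ P.k := by
    rw [← hT]
    exact Finset.card_le_card hBT
  have hBk' : (B.card : ℤ) ≤ P.k := by exact_mod_cast hBk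
  rcases Nat.lt_or_ge B.card 2 with h5 | h5
  · rw [hb2 B (by omega)]
    have h6 : 0 ≤ (P.b - P.eta) * (B.card : ℤ) := mul_nonneg (by linarith) (by positivity)
    have h7 := P.hW0
    linarith
  · have h6 := hrk2 B h5
    rcases Nat.eq_or_lt_of_le h6 with h7 | h7
    · have h8 : B.card ≤ 5 := by
        rw [← hL]
        exact (Finset.card_le_card (subset_flt st.p B)).trans
          (hB1 _ (flt_isFlat _ _) (by rw [rk_flt, hs]; omega))
      have h9 : (B.card : ℤ) ≤ 5 := by exact_mod_cast h8
      have h10 := mul_le_mul_of_nonneg_left h9 heta0.le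
      rw [← h7]
      push_cast
      linarith
    · have h8 : (3 : ℤ) ≤ rk st.p B := by exact_mod_cast h7
      have h9 := mul_le_mul_of_nonneg_left h8 hb.le
      have h10 := mul_le_mul_of_nonneg_left hBk' heta0.le
      linarith

theorem hull_38 : HullProp (Kst 3 8) 22 9 35 := by
  let P : ParW :=
    { s := 3
      k := 7
      L := 5
      a := 22
      b := 9
      W := 8
      hs := by norm_num
      hk := by norm_num
      hb := by norm_num
      hab := by norm_num
      heta0 := by norm_num
      heta := by norm_num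
      hW0 := by norm_num
      hWb := by norm_num
      hWmu := by norm_num
      hE := by norm_num
      hL := Or.inr ⟨rfl, le_rfl⟩ }
  have heta : P.eta = 5 := rfl
  have hB : BoundsW P := by
    apply boundsW_time P rfl rfl
    · rw [heta]; rfl
    · rw [heta]; change (5 : ℤ) ≤ 2 * (9 - 5); norm_num
    · rw [heta]
      change 2 * (22 : ℤ) ≤ 4 * (((7 : ℕ) : ℤ) * 5 - 22) - max 0 (2 * 5 - 2 * (9 - 5))
        - max 0 (3 * 5 - 2 * (9 - 5)) + 1
      norm_num
    · rw [heta]; change 2 * (22 : ℤ) ≤ 4 * (((7 : ℕ) : ℤ) * 5 - 22); norm_num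
    · rw [heta]; change (5 : ℤ) * 5 - 9 * 2 ≤ 8; norm_num
    · rw [heta]; change (5 : ℤ) * ((7 : ℕ) : ℤ) - 9 * 3 ≤ 8; norm_num
  exact hullProp_of_scheme 3 7 22 9 35 le_rfl (by norm_num) (QW P) (scheme_W P hB)

theorem hull_39 : HullProp (Kst 3 9) 25 10 40 := by
  let P : ParW :=
    { s := 3
      k := 8
      L := 5
      a := 25
      b := 10
      W := 10
      hs := by norm_num
      hk := by norm_num
      hb := by norm_num
      hab := by norm_num
      heta0 := by norm_num
      heta := by norm_num
      hW0 := by norm_num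
      hWb := by norm_num
      hWmu := by norm_num
      hE := by norm_num
      hL := Or.inr ⟨rfl, le_rfl⟩ }
  have heta : P.eta = 5 := rfl
  have hB : BoundsW P := by
    apply boundsW_time P rfl rfl
    · rw [heta]; rfl
    · rw [heta]; change (5 : ℤ) ≤ 2 * (10 - 5); norm_num
    · rw [heta]
      change 2 * (25 : ℤ) ≤ 4 * (((8 : ℕ) : ℤ) * 5 - 25) - max 0 (2 * 5 - 2 * (10 - 5))
        - max 0 (3 * 5 - 2 * (10 - 5)) + 1
      norm_num
    · rw [heta]; change 2 * (25 : ℤ) ≤ 4 * (((8 : ℕ) : ℤ) * 5 - 25); norm_num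
    · rw [heta]; change (5 : ℤ) * 5 - 10 * 2 ≤ 10; norm_num
    · rw [heta]; change (5 : ℤ) * ((8 : ℕ) : ℤ) - 10 * 3 ≤ 10; norm_num
  exact hullProp_of_scheme 3 8 25 10 40 le_rfl (by norm_num) (QW P) (scheme_W P hB)

end MP30c94c
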