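import Mathlib
import Pool.Agent.Lib.MP30c94c.KProc

/-!
# Hull property in the balanced case

(helper57)
-/

open SimpleGraph Finset

namespace MP30c94c

attribute [local instance] Classical.propDecidable

namespace KLBB

/-- the numerical inequality behind the cluster argument -/
theorem num {s t i j : ℤ} (hs : 3 ≤ s) (hst : s ≤ t) (hbal : t + 3 * s ≤ s ^ 2 + 4)
    (hi0 : 0 ≤ i) (hj0 : 0 ≤ j) (hi : i ≤ s) (hj : j ≤ t) (hij : 2 ≤ i + j)
    (hne : ¬ (i = s ∧ j = t)) :
    (s + t - 2) * (i * j) ≤ (s * t - 2) * (i + j - 2) + (s + t - 2) := by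
  have hab : 0 ≤ (s * t - 2) - (s + t - 2) := by nlinarith
  have ha : 0 ≤ s * t - 2 := by nlinarith
  rcases hi0.eq_or_lt with h0 | hi1
  · subst h0
    have : 0 ≤ (s * t - 2) * (0 + j - 2) := mul_nonneg ha (by linarith)
    nlinarith
  rcases hj0.eq_or_lt with h0 | hj1
  · subst h0
    have : 0 ≤ (s * t - 2) * (i + 0 - 2) := mul_nonneg ha (by linarith)
    nlinarith
  have hi1' : 1 ≤ i := hi1
  have hj1' : 1 ≤ j := hj1
  rcases hi.eq_or_lt with h0 | his
  · subst h0
    have hjt : j < t := lt_of_le_of_ne hj fun h => hne ⟨rfl, h⟩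
    have hjt' : j ≤ t - 1 := by linarith
    have key : (i * t - 2) * (i + j - 2) + (i + t - 2) - (i + t - 2) * (i * j) =
        (i ^ 2 - 3 * i - t + 4) + (t - 1 - j) * (i ^ 2 - 2 * i + 2) := by ring
    have h1 : 0 ≤ (t - 1 - j) * (i ^ 2 - 2 * i + 2) :=
      mul_nonneg (by linarith) (by nlinarith)
    nlinarith
  · have his' : i ≤ s - 1 := by linarith
    have k1 : (s * t - 2) * (i + 1 - 2) + (s + t - 2) - (s + t - 2) * (i * 1) =
        ((s * t - 2) - (s + t - 2)) * (i - 1) := by ring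
    have k2 : (s * t - 2) * (i + t - 2) + (s + t - 2) - (s + t - 2) * (i * t) =
        (t ^ 2 - 3 * t - s + 4) + (s - 1 - i) * (t ^ 2 - 2 * t + 2) := by ring
    have e1 : 0 ≤ (s * t - 2) * (i + 1 - 2) + (s + t - 2) - (s + t - 2) * (i * 1) := by
      rw [k1]; exact mul_nonneg hab (by linarith)
    have e2 : 0 ≤ (s * t - 2) * (i + t - 2) + (s + t - 2) - (s + t - 2) * (i * t) := by
      rw [k2]
      have h1 : 0 ≤ (s - 1 - i) * (t ^ 2 - 2 * t + 2) := mul_nonneg (by linarith) (by nlinarith)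
      nlinarith
    have k3 : (t - 1) * ((s * t - 2) * (i + j - 2) + (s + t - 2) - (s + t - 2) * (i * j)) =
        (t - j) * ((s * t - 2) * (i + 1 - 2) + (s + t - 2) - (s + t - 2) * (i * 1)) +
        (j - 1) * ((s * t - 2) * (i + t - 2) + (s + t - 2) - (s + t - 2) * (i * t)) := by ring
    have e3 : 0 ≤ (t - 1) * ((s * t - 2) * (i + j - 2) + (s + t - 2) - (s + t - 2) * (i * j)) := by
      rw [k3]
      exact add_nonneg (mul_nonneg (by linarith) e1) (mul_nonneg (by linarith) e2)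
    have e4 := nonneg_of_mul_nonneg_right e3 (by linarith)
    linarith

set_option linter.unusedSectionVars false

variable {V : Type} [Fintype V]

theorem card_sup_le (𝒟 : Multiset (Finset V)) (Y : Finset V) :
    (Y ∪ 𝒟.sup).card ≤ Y.card + (𝒟.map fun C => (C \ Y).card).sum := by
  induction 𝒟 using Multiset.induction_on with
  | empty => simp
  | cons C 𝒟 ih =>
    rw [Multiset.sup_cons, Multiset.map_cons, Multiset.sum_cons]
    have h1 : Y ∪ (C ⊔ 𝒟.sup) ⊆ (Y ∪ 𝒟.sup) ∪ (C \ Y) := by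
      intro x hx
      simp only [Finset.sup_eq_union, mem_union, mem_sdiff] at hx ⊢
      tauto
    have h2 := (card_le_card h1).trans (card_union_le _ _)
    omega

/-- number of vertices of the first side in `C` -/
noncomputable def iC {s t : ℕ} (f : Fin s ⊕ Fin t ↪ V) (C : Finset V) : ℕ :=
  (univ.filter fun x : Fin s => f (Sum.inl x) ∈ C).card

/-- number of vertices of the second side in `C` -/
noncomputable def jC {s t : ℕ} (f : Fin s ⊕ Fin t ↪ V) (C : Finset V) : ℕ :=
  (univ.filter fun x : Fin t => f (Sum.inr x) ∈ C).card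

theorem card_inter {s t : ℕ} (f : Fin s ⊕ Fin t ↪ V) (C : Finset V) :
    (C ∩ univ.map f).card = iC f C + jC f C := by
  have h1 : C ∩ univ.map f = (univ.filter fun w => f w ∈ C).map f := by
    ext x
    simp only [mem_inter, Finset.mem_map, mem_univ, true_and, mem_filter]
    constructor
    · rintro ⟨h1, w, rfl⟩
      exact ⟨w, h1, rfl⟩
    · rintro ⟨w, h1, rfl⟩
      exact ⟨h1, w, rfl⟩
  rw [h1, card_map, card_filter, Fintype.sum_sum_type, iC, jC, card_filter, card_filter]

theorem iC_le {s t : ℕ} (f : Fin s ⊕ Fin t ↪ V) (C : Finset V) : iC f C ≤ s := by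
  unfold iC
  exact (card_filter_le _ _).trans (by simp)

theorem jC_le {s t : ℕ} (f : Fin s ⊕ Fin t ↪ V) (C : Finset V) : jC f C ≤ t := by
  unfold jC
  exact (card_filter_le _ _).trans (by simp)

theorem sub_of_eq {s t : ℕ} (f : Fin s ⊕ Fin t ↪ V) (C : Finset V) (h1 : iC f C = s)
    (h2 : jC f C = t) : univ.map f ⊆ C := by
  intro x hx
  rw [Finset.mem_map] at hx
  obtain ⟨w, -, rfl⟩ := hx
  rcases w with w | w
  · have h3 : (univ.filter fun x : Fin s => f (Sum.inl x) ∈ C) = univ :=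
      eq_univ_of_card _ (by rw [Fintype.card_fin]; exact h1)
    have h4 : w ∈ univ.filter fun x : Fin s => f (Sum.inl x) ∈ C := by rw [h3]; exact mem_univ _
    exact (mem_filter.1 h4).2
  · have h3 : (univ.filter fun x : Fin t => f (Sum.inr x) ∈ C) = univ :=
      eq_univ_of_card _ (by rw [Fintype.card_fin]; exact h2)
    have h4 : w ∈ univ.filter fun x : Fin t => f (Sum.inr x) ∈ C := by rw [h3]; exact mem_univ _
    exact (mem_filter.1 h4).2

theorem cover_card {s t : ℕ} (f : Fin s ⊕ Fin t ↪ V) (𝒟 : Multiset (Finset V)) :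
    ∀ P : Finset (Fin s × Fin t),
      (∀ p ∈ P, ∃ C ∈ 𝒟, f (Sum.inl p.1) ∈ C ∧ f (Sum.inr p.2) ∈ C) →
      P.card ≤ (𝒟.map fun C => iC f C * jC f C).sum := by
  induction 𝒟 using Multiset.induction_on with
  | empty =>
    intro P hP
    have : P = ∅ := by
      rw [Finset.eq_empty_iff_forall_notMem]
      intro p hp
      obtain ⟨C, hC, _⟩ := hP p hp
      exact absurd hC (Multiset.notMem_zero _)
    rw [this]; simp
  | cons C 𝒟 ih =>
    intro P hP
    rw [Multiset.map_cons, Multiset.sum_cons]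
    have h1 := ih (P.filter fun p => ¬ (f (Sum.inl p.1) ∈ C ∧ f (Sum.inr p.2) ∈ C)) (by
      intro p hp
      rw [mem_filter] at hp
      obtain ⟨C', hC', h'⟩ := hP p hp.1
      rcases Multiset.mem_cons.1 hC' with rfl | hC''
      · exact absurd h' hp.2
      · exact ⟨C', hC'', h'⟩)
    have h2 : (P.filter fun p => f (Sum.inl p.1) ∈ C ∧ f (Sum.inr p.2) ∈ C).card ≤
        iC f C * jC f C := by
      unfold iC jC
      rw [← card_product]
      apply card_le_card
      intro p hp
      rw [mem_filter] at hp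
      rw [mem_product, mem_filter, mem_filter]
      exact ⟨⟨mem_univ _, hp.2.1⟩, ⟨mem_univ _, hp.2.2⟩⟩
    have h3 := card_filter_add_card_filter_not (s := P)
      (fun p => f (Sum.inl p.1) ∈ C ∧ f (Sum.inr p.2) ∈ C)
    omega

/-- the weight of a cluster -/
noncomputable def w (a b : ℕ) (C : Finset V) : ℕ := a * (C.card - 2) + b

theorem w_mono (a b : ℕ) {C D : Finset V} (h : C ⊆ D) : w a b C ≤ w a b D := by
  unfold w
  have := card_le_card h
  gcongr

/-- merging lemma -/
theorem merge {s t : ℕ} (hs : 3 ≤ s) (hst : s ≤ t) (hbal : t + 3 * s ≤ s ^ 2 + 4)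
    (f : Fin s ⊕ Fin t ↪ V) (𝒟 : Multiset (Finset V))
    (h𝒟 : ∀ C ∈ 𝒟, 2 ≤ (C ∩ univ.map f).card) (p0 : Fin s × Fin t)
    (hcov : ∀ p, p ≠ p0 → ∃ C ∈ 𝒟, f (Sum.inl p.1) ∈ C ∧ f (Sum.inr p.2) ∈ C) :
    w (s * t - 2) (s + t - 2) (univ.map f ∪ 𝒟.sup) ≤
      (𝒟.map (w (s * t - 2) (s + t - 2))).sum := by
  have h9 : 9 ≤ s * t := by nlinarith
  obtain ⟨a, ha⟩ : ∃ a, a + 2 = s * t := ⟨s * t - 2, by omega⟩
  obtain ⟨b, hb⟩ : ∃ b, b + 2 = s + t := ⟨s + t - 2, by omega⟩
  have ea : s * t - 2 = a := by omega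
  have eb : s + t - 2 = b := by omega
  rw [ea, eb]
  have hY : (univ.map f : Finset V).card = s + t := by simp
  by_cases hC0 : ∃ C0 ∈ 𝒟, univ.map f ⊆ C0
  · obtain ⟨C0, hC0, hsub⟩ := hC0
    obtain ⟨𝒟', rfl⟩ := Multiset.exists_cons_of_mem hC0
    rw [Multiset.map_cons, Multiset.sum_cons, Multiset.sup_cons]
    have hZ : (univ.map f : Finset V) ∪ (C0 ⊔ 𝒟'.sup) = C0 ∪ 𝒟'.sup := by
      rw [Finset.sup_eq_union, ← union_assoc, union_eq_right.2 hsub]
    rw [hZ]
    have h1 := card_sup_le 𝒟' C0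
    have h2 : (𝒟'.map fun C => a * (C \ C0).card).sum ≤ (𝒟'.map (w a b)).sum := by
      refine Multiset.sum_map_le_sum_map _ _ fun C hC => ?_
      unfold w
      have h3 := h𝒟 C (Multiset.mem_cons_of_mem hC)
      have h4 : (C \ C0).card ≤ C.card - 2 := by
        have h5 : C \ C0 ⊆ C \ (univ.map f) := sdiff_subset_sdiff le_rfl hsub
        have h6 := card_le_card h5
        have h7 := card_sdiff_add_card_inter C (univ.map f : Finset V)
        omega
      calc a * (C \ C0).card ≤ a * (C.card - 2) := Nat.mul_le_mul_left _ h4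
        _ ≤ _ := Nat.le_add_right _ _
    rw [Multiset.sum_map_mul_left] at h2
    have h8 : 2 ≤ C0.card := by
      have := card_le_card hsub
      rw [hY] at this
      omega
    have h10 : (C0 ∪ 𝒟'.sup).card - 2 ≤ (C0.card - 2) + (𝒟'.map fun C => (C \ C0).card).sum := by
      omega
    calc w a b (C0 ∪ 𝒟'.sup) = a * ((C0 ∪ 𝒟'.sup).card - 2) + b := rfl
      _ ≤ a * ((C0.card - 2) + (𝒟'.map fun C => (C \ C0).card).sum) + b := by gcongr
      _ = w a b C0 + a * (𝒟'.map fun C => (C \ C0).card).sum := by unfold w; ring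
      _ ≤ _ := by gcongr
  · push Not at hC0
    have h1 := card_sup_le 𝒟 (univ.map f)
    have h2 : (𝒟.map fun C => (a * (C \ univ.map f).card + b * (iC f C * jC f C))).sum ≤
        (𝒟.map (w a b)).sum := by
      refine Multiset.sum_map_le_sum_map _ _ fun C hC => ?_
      have h3 := h𝒟 C hC
      rw [card_inter] at h3
      have h4 := card_sdiff_add_card_inter C (univ.map f : Finset V)
      rw [card_inter] at h4
      have h5 : ¬ (iC f C = s ∧ jC f C = t) := fun h => hC0 C hC (sub_of_eq f C h.1 h.2)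
      have h6 := num (s := (s : ℤ)) (t := (t : ℤ)) (i := (iC f C : ℤ)) (j := (jC f C : ℤ))
        (by exact_mod_cast hs) (by exact_mod_cast hst) (by exact_mod_cast hbal) (by positivity)
        (by positivity) (by exact_mod_cast iC_le f C) (by exact_mod_cast jC_le f C)
        (by exact_mod_cast h3) (by exact_mod_cast h5)
      unfold w
      have ha' : (s : ℤ) * t - 2 = a := by
        have : (a : ℤ) + 2 = s * t := by exact_mod_cast ha
        linarith
      have hb' : (s : ℤ) + t - 2 = b := by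
        have : (b : ℤ) + 2 = s + t := by exact_mod_cast hb
        linarith
      rw [ha', hb'] at h6
      have h7 : C.card - 2 = (C \ univ.map f).card + (iC f C + jC f C - 2) := by omega
      rw [h7]
      have h8 : b * (iC f C * jC f C) ≤ a * (iC f C + jC f C - 2) + b := by
        zify [h3]
        exact h6
      calc _ ≤ a * (C \ univ.map f).card + (a * (iC f C + jC f C - 2) + b) := by gcongr
        _ = _ := by ring
    rw [Multiset.sum_map_add, Multiset.sum_map_mul_left, Multiset.sum_map_mul_left] at h2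
    have h3 := cover_card f 𝒟 (univ.erase p0) fun p hp => hcov p (ne_of_mem_erase hp)
    rw [card_erase_of_mem (mem_univ _), card_univ, Fintype.card_prod, Fintype.card_fin,
      Fintype.card_fin, ← ha] at h3
    rw [hY, ← hb] at h1
    have h4 : (univ.map f ∪ 𝒟.sup).card - 2 ≤
        b + (𝒟.map fun C => (C \ univ.map f).card).sum := by omega
    have h5 : a + 1 ≤ (𝒟.map fun C => iC f C * jC f C).sum := by omega
    calc w a b (univ.map f ∪ 𝒟.sup) = a * ((univ.map f ∪ 𝒟.sup).card - 2) + b := rfl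
      _ ≤ a * (b + (𝒟.map fun C => (C \ univ.map f).card).sum) + b := by gcongr
      _ = a * (𝒟.map fun C => (C \ univ.map f).card).sum + b * (a + 1) := by ring
      _ ≤ a * (𝒟.map fun C => (C \ univ.map f).card).sum +
          b * (𝒟.map fun C => iC f C * jC f C).sum := by gcongr
      _ ≤ _ := h2

/-- the statement of the induction -/
def Good (s t a b : ℕ) (G G' : SimpleGraph V) : Prop :=
  ∀ (X : Finset V) (F : Finset (Sym2 V)), (∀ e ∈ F, e ∈ G'.edgeSet) →
    (∀ e ∈ F, ∀ x ∈ e, x ∈ X) →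
    ∃ S : Finset V, X ⊆ S ∧ (∀ e ∈ F, InClosure (Kst s t) (restr G S) e) ∧
      ∃ 𝒞 : Multiset (Finset V), (∀ C ∈ 𝒞, 2 ≤ C.card ∧ C ⊆ X) ∧
        (∀ e ∈ F, ∃ C ∈ 𝒞, ∀ x ∈ e, x ∈ C) ∧
        a * S.card + (𝒞.map (w a b)).sum ≤ a * X.card + b * eIn G S

theorem good_base (s t a b : ℕ) (G : SimpleGraph V) : Good s t a b G G := by
  intro X F hF hX
  refine ⟨X, Subset.rfl, fun e he => ?_, F.val.map fun e => e.toFinset, ?_, ?_, ?_⟩
  · refine .base ?_
    have h1 := hF e he
    have h2 := hX e he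
    induction e using Sym2.ind with
    | _ u v =>
      rw [mem_edgeSet] at h1 ⊢
      exact ⟨h1, h2 u (Sym2.mem_mk_left _ _), h2 v (Sym2.mem_mk_right _ _)⟩
  · intro C hC
    rw [Multiset.mem_map] at hC
    obtain ⟨e, he, rfl⟩ := hC
    refine ⟨?_, fun x hx => hX e he x (Sym2.mem_toFinset.1 hx)⟩
    rw [Sym2.card_toFinset_of_not_isDiag _ (not_isDiag_of_mem_edgeSet _ (hF e he))]
  · intro e he
    exact ⟨e.toFinset, Multiset.mem_map.2 ⟨e, he, rfl⟩, fun x hx => Sym2.mem_toFinset.2 hx⟩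
  · rw [Multiset.map_map]
    have h1 : (F.val.map (w a b ∘ fun e => e.toFinset)).sum = F.card * b := by
      have h2 : (F.val.map (w a b ∘ fun e => e.toFinset)) = F.val.map (fun _ => b) := by
        refine Multiset.map_congr rfl fun e he => ?_
        simp only [Function.comp_apply, w]
        rw [Sym2.card_toFinset_of_not_isDiag _ (not_isDiag_of_mem_edgeSet _ (hF e he))]
        simp
      rw [h2]
      simp
    rw [h1, mul_comm F.card b]
    have h2 : F.card ≤ eIn G X := by
      unfold eIn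
      apply card_le_card
      intro e he
      rw [mem_filter, mem_edgeFinset]
      exact ⟨hF e he, hX e he⟩
    gcongr

theorem two_le {e : Sym2 V} (he : ¬ e.IsDiag) {C : Finset V} (h : ∀ x ∈ e, x ∈ C) :
    2 ≤ C.card := by
  rw [← Sym2.card_toFinset_of_not_isDiag _ he]
  exact card_le_card fun x hx => h x (Sym2.mem_toFinset.1 hx)

/-- edges of a copy of `K_{s,t}` -/
theorem mem_copy {s t : ℕ} (f : Fin s ⊕ Fin t ↪ V) {e : Sym2 V} :
    e ∈ ((Kst s t).map f).edgeSet ↔
      ∃ p : Fin s × Fin t, s(f (Sum.inl p.1), f (Sum.inr p.2)) = e := by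
  induction e using Sym2.ind with
  | _ u v =>
    rw [mem_edgeSet, map_adj]
    constructor
    · rintro ⟨x, y, hxy, rfl, rfl⟩
      rcases x with x | x <;> rcases y with y | y
      · simp at hxy
      · exact ⟨(x, y), rfl⟩
      · exact ⟨(y, x), Sym2.eq_swap⟩
      · simp at hxy
    · rintro ⟨p, hp⟩
      rw [Sym2.eq_iff] at hp
      rcases hp with ⟨h1, h2⟩ | ⟨h1, h2⟩
      · exact ⟨Sum.inl p.1, Sum.inr p.2, by simp, h1, h2⟩
      · exact ⟨Sum.inr p.2, Sum.inl p.1, by simp, h2, h1⟩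

theorem copy_inj {s t : ℕ} (f : Fin s ⊕ Fin t ↪ V) {p q : Fin s × Fin t}
    (h : s(f (Sum.inl p.1), f (Sum.inr p.2)) = s(f (Sum.inl q.1), f (Sum.inr q.2))) : p = q := by
  rw [Sym2.eq_iff] at h
  rcases h with ⟨h1, h2⟩ | ⟨h1, h2⟩
  · have h3 := Sum.inl_injective (f.injective h1)
    have h4 := Sum.inr_injective (f.injective h2)
    exact Prod.ext h3 h4
  · have := f.injective h1
    simp at this

theorem good_step {s t : ℕ} (hs : 3 ≤ s) (hst : s ≤ t) (hbal : t + 3 * s ≤ s ^ 2 + 4)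
    (G G' : SimpleGraph V) (ih : Good s t (s * t - 2) (s + t - 2) G G')
    (f : Fin s ⊕ Fin t ↪ V) (e : Sym2 V) (he : e ∈ ((Kst s t).map f).edgeSet)
    (h : ∀ e' ∈ ((Kst s t).map f).edgeSet, e' ≠ e → e' ∈ G'.edgeSet) :
    Good s t (s * t - 2) (s + t - 2) G (G' ⊔ fromEdgeSet {e}) := by
  intro X F hF hX
  have hF' : ∀ e' ∈ F, e' ≠ e → e' ∈ G'.edgeSet := by
    intro e' he' hne
    have h1 := hF e' he'
    rw [edgeSet_sup, edgeSet_fromEdgeSet] at h1
    rcases h1 with h1 | h1
    · exact h1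
    · exact absurd h1.1 hne
  by_cases heF : e ∈ F
  swap
  · exact ih X F (fun e' he' => hF' e' he' fun h => heF (h ▸ he')) hX
  set a := s * t - 2 with ha
  set b := s + t - 2 with hb
  obtain ⟨p0, hp0⟩ := (mem_copy f).1 he
  set Y : Finset V := univ.map f with hY
  have hfY : ∀ x, f x ∈ Y := fun x => mem_map_of_mem f (mem_univ x)
  set E0 : Finset (Sym2 V) := (univ : Finset (Fin s × Fin t)).image
    (fun p => s(f (Sum.inl p.1), f (Sum.inr p.2))) with hE0
  have hmE0 : ∀ e', e' ∈ E0 ↔ e' ∈ ((Kst s t).map f).edgeSet := by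
    intro e'
    rw [mem_copy, hE0, mem_image]
    simp
  obtain ⟨S, hXS, hcl, 𝒞, h1, h2, h3⟩ := ih (X ∪ Y) (F.erase e ∪ E0.erase e)
    (by
      intro e' he'
      rw [mem_union, mem_erase, mem_erase] at he'
      rcases he' with he' | he'
      · exact hF' e' he'.2 he'.1
      · exact h e' ((hmE0 e').1 he'.2) he'.1)
    (by
      intro e' he' x hx
      rw [mem_union, mem_erase, mem_erase] at he'
      rcases he' with he' | he'
      · exact mem_union_left _ (hX e' he'.2 x hx)
      · apply mem_union_right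
        obtain ⟨p, rfl⟩ := (mem_copy f).1 ((hmE0 e').1 he'.2)
        rcases Sym2.mem_iff.1 hx with rfl | rfl
        · exact hfY _
        · exact hfY _)
  have hcle : InClosure (Kst s t) (restr G S) e := by
    refine .step f he fun e' he' hne => hcl e' ?_
    rw [mem_union, mem_erase, mem_erase]
    exact Or.inr ⟨hne, (hmE0 e').2 he'⟩
  set 𝒞1 := 𝒞.filter (fun C => 2 ≤ (C ∩ Y).card) with h𝒞1
  set 𝒞2 := 𝒞.filter (fun C => ¬ 2 ≤ (C ∩ Y).card) with h𝒞2
  set Z := Y ∪ 𝒞1.sup with hZ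
  have hYZ : Y ⊆ Z := subset_union_left
  have hCZ : ∀ C ∈ 𝒞1, C ⊆ Z := fun C hC => (Multiset.le_sup hC).trans subset_union_right
  have hnd : ∀ e' ∈ F, ¬ e'.IsDiag := fun e' he' => not_isDiag_of_mem_edgeSet _ (hF e' he')
  refine ⟨S, subset_union_left.trans hXS, ?_,
    ((Z ::ₘ 𝒞2).map (fun C => C ∩ X)).filter (fun C => 2 ≤ C.card), ?_, ?_, ?_⟩
  · intro e' he'
    by_cases hee : e' = e
    · rw [hee]; exact hcle
    · refine hcl e' ?_
      rw [mem_union, mem_erase, mem_erase]
      exact Or.inl ⟨hee, he'⟩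
  · intro C hC
    rw [Multiset.mem_filter, Multiset.mem_map] at hC
    obtain ⟨⟨C', -, rfl⟩, hC2⟩ := hC
    exact ⟨hC2, inter_subset_right⟩
  · intro e' he'
    have hsuff : ∀ C ∈ Z ::ₘ 𝒞2, (∀ x ∈ e', x ∈ C) → ∃ C ∈ ((Z ::ₘ 𝒞2).map
        (fun C => C ∩ X)).filter (fun C => 2 ≤ C.card), ∀ x ∈ e', x ∈ C := by
      intro C hC hC'
      have h5 : ∀ x ∈ e', x ∈ C ∩ X := fun x hx => mem_inter.2 ⟨hC' x hx, hX e' he' x hx⟩
      exact ⟨C ∩ X, Multiset.mem_filter.2 ⟨Multiset.mem_map.2 ⟨C, hC, rfl⟩,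
        two_le (hnd e' he') h5⟩, h5⟩
    by_cases hee : e' = e
    · refine hsuff Z (Multiset.mem_cons_self _ _) fun x hx => hYZ ?_
      rw [hee, ← hp0] at hx
      rcases Sym2.mem_iff.1 hx with rfl | rfl
      · exact hfY _
      · exact hfY _
    · obtain ⟨C, hC, hC'⟩ := h2 e' (by
        rw [mem_union, mem_erase, mem_erase]
        exact Or.inl ⟨hee, he'⟩)
      by_cases hCY : 2 ≤ (C ∩ Y).card
      · exact hsuff Z (Multiset.mem_cons_self _ _) fun x hx =>
          hCZ C (Multiset.mem_filter.2 ⟨hC, hCY⟩) (hC' x hx)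
      · exact hsuff C (Multiset.mem_cons_of_mem (Multiset.mem_filter.2 ⟨hC, hCY⟩)) hC'
  · -- the accounting
    have hmerge := merge hs hst hbal f 𝒞1 (fun C hC => (Multiset.mem_filter.1 hC).2) p0 (by
      intro p hp
      have h5 : s(f (Sum.inl p.1), f (Sum.inr p.2)) ≠ e := by
        rw [← hp0]
        exact fun h => hp (copy_inj f h)
      obtain ⟨C, hC, hC'⟩ := h2 s(f (Sum.inl p.1), f (Sum.inr p.2)) (by
        rw [mem_union, mem_erase, mem_erase]
        exact Or.inr ⟨h5, (hmE0 _).2 ((mem_copy f).2 ⟨p, rfl⟩)⟩)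
      have h6 := hC' _ (Sym2.mem_mk_left _ _)
      have h7 := hC' _ (Sym2.mem_mk_right _ _)
      refine ⟨C, Multiset.mem_filter.2 ⟨hC, ?_⟩, h6, h7⟩
      refine two_le (e := s(f (Sum.inl p.1), f (Sum.inr p.2))) ?_ ?_
      · rw [Sym2.mk_isDiag_iff]
        intro h8
        have := f.injective h8
        simp at this
      · intro x hx
        rcases Sym2.mem_iff.1 hx with rfl | rfl
        · exact mem_inter.2 ⟨h6, hfY _⟩
        · exact mem_inter.2 ⟨h7, hfY _⟩)
    rw [← ha, ← hb, ← hY, ← hZ] at hmerge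
    have hsplit : (𝒞.map (w a b)).sum = (𝒞1.map (w a b)).sum + (𝒞2.map (w a b)).sum := by
      rw [← Multiset.sum_add, ← Multiset.map_add, h𝒞1, h𝒞2, Multiset.filter_add_not]
    have hZX : 2 ≤ (Z ∩ X).card := by
      refine two_le (hnd e heF) fun x hx => mem_inter.2 ⟨hYZ ?_, hX e heF x hx⟩
      rw [← hp0] at hx
      rcases Sym2.mem_iff.1 hx with rfl | rfl
      · exact hfY _
      · exact hfY _
    have hwZ : w a b (Z ∩ X) + a * (Y \ X).card ≤ w a b Z := by
      unfold w
      have h5 := card_sdiff_add_card_inter Z X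
      have h6 : (Y \ X).card ≤ (Z \ X).card := card_le_card (sdiff_subset_sdiff hYZ le_rfl)
      have h7 : Z.card - 2 = (Z ∩ X).card - 2 + (Z \ X).card := by omega
      rw [h7]
      have h8 : a * (Y \ X).card ≤ a * (Z \ X).card := Nat.mul_le_mul_left _ h6
      linarith [mul_add a ((Z ∩ X).card - 2) (Z \ X).card]
    have hnew : ((((Z ::ₘ 𝒞2).map (fun C => C ∩ X)).filter (fun C => 2 ≤ C.card)).map
        (w a b)).sum ≤ w a b (Z ∩ X) + (𝒞2.map (w a b)).sum := by
      have h5 : ∀ m : Multiset (Finset V),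
          ((m.filter (fun C => 2 ≤ C.card)).map (w a b)).sum ≤ (m.map (w a b)).sum := by
        intro m
        conv_rhs => rw [← Multiset.filter_add_not (fun C : Finset V => 2 ≤ C.card) m]
        rw [Multiset.map_add, Multiset.sum_add]
        exact Nat.le_add_right _ _
      refine (h5 _).trans ?_
      rw [Multiset.map_map, Multiset.map_cons, Multiset.sum_cons]
      refine Nat.add_le_add le_rfl (Multiset.sum_map_le_sum_map _ _ fun C _ => ?_)
      exact w_mono a b inter_subset_left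
    have hXY : (X ∪ Y).card = X.card + (Y \ X).card := by
      rw [← union_sdiff_self_eq_union, card_union_of_disjoint disjoint_sdiff]
    rw [hXY, mul_add, hsplit] at h3
    linarith

end KLBB

open KLBB in
/-- Balanced case: `t ≤ s² - 3 s + 4`. -/
theorem hull_balanced (s t : ℕ) (hs : 3 ≤ s) (hst : s ≤ t) (hbal : t + 3 * s ≤ s ^ 2 + 4) :
    HullProp (Kst s t) (s * t - 2) (s + t - 2) (2 * (s * t - 2) - (s + t - 2)) := by
  intro V _ G _ u v huv hcl
  have hgood : Good s t (s * t - 2) (s + t - 2) G (closure (Kst s t) G) :=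
    closure_induction (Kst s t) G (Good s t (s * t - 2) (s + t - 2) G) (good_base s t _ _ G)
      fun G' _ _ ih f e he h _ => good_step hs hst hbal G G' ih f e he h
  have huv' : s(u, v) ∈ (closure (Kst s t) G).edgeSet := ⟨huv, hcl⟩
  obtain ⟨S, hXS, hS, 𝒞, h1, h2, h3⟩ := hgood {u, v} {s(u, v)}
    (by intro e he; rw [mem_singleton] at he; rw [he]; exact huv')
    (by
      intro e he x hx
      rw [mem_singleton] at he
      rw [he, Sym2.mem_iff] at hx
      rw [mem_insert, mem_singleton]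
      exact hx)
  refine ⟨S, hXS (by simp), hXS (by simp), hS _ (mem_singleton_self _), ?_⟩
  obtain ⟨C, hC, -⟩ := h2 _ (mem_singleton_self _)
  have h4 : s + t - 2 ≤ (𝒞.map (w (s * t - 2) (s + t - 2))).sum := by
    obtain ⟨𝒟, rfl⟩ := Multiset.exists_cons_of_mem hC
    rw [Multiset.map_cons, Multiset.sum_cons]
    have : s + t - 2 ≤ w (s * t - 2) (s + t - 2) C := Nat.le_add_left _ _
    omega
  have h5 : ({u, v} : Finset V).card = 2 := card_pair huv
  rw [h5] at h3
  omega

end MP30c94c
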