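import Mathlib
import Pool.Agent.Lib.MP30c94c.KDefs
import Pool.Agent.Lib.MP30c94c.FM

/-!
# First moment at the scale `log n`
-/

open SimpleGraph Finset Filter

namespace MP30c94c

attribute [local instance] Classical.propDecidable

set_option linter.unusedVariables false

lemma Pr_edges_ge_pow {V : Type*} [Fintype V] {p : ℝ} (h0 : 0 ≤ p) (h1 : p ≤ 1) (S : Finset V)
    (m : ℕ) : Pr p (fun G => m ≤ eIn G S) ≤ (((S.card : ℝ) + 1) ^ 2 * p) ^ m := by
  have h2 : Pr p (fun G => m ≤ eIn G S) ≤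
      Pr p (fun G => ∃ T ∈ (pairsIn S).powersetCard m, T ⊆ G.edgeFinset) := by
    refine Pr_mono h0 h1 fun G hG => ?_
    obtain ⟨T, hT, hTc⟩ := Finset.exists_subset_card_eq hG
    refine ⟨T, ?_, hT.trans (Finset.filter_subset _ _)⟩
    rw [mem_powersetCard]
    refine ⟨hT.trans ?_, hTc⟩
    intro e he
    rw [mem_filter] at he
    exact mem_filter.2 ⟨edgeFinset_subset_allE G he.1, he.2⟩
  refine h2.trans ((Pr_exists_le h0 h1 _ _).trans ?_)
  have h3 : ∀ T ∈ (pairsIn S).powersetCard m, Pr p (fun G => T ⊆ G.edgeFinset) = p ^ m := by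
    intro T hT
    rw [mem_powersetCard] at hT
    rw [Pr_subset p T (hT.1.trans (Finset.filter_subset _ _)), hT.2]
  rw [Finset.sum_congr rfl h3, Finset.sum_const, nsmul_eq_mul, mul_pow]
  refine mul_le_mul_of_nonneg_right ?_ (pow_nonneg h0 m)
  have h4 : ((pairsIn S).powersetCard m).card ≤ ((S.card + 1) ^ 2) ^ m := by
    rw [Finset.card_powersetCard]
    exact (Nat.choose_le_pow _ _).trans (Nat.pow_le_pow_left (card_pairsIn_le S) m)
  exact_mod_cast h4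

lemma log_core {n K a b D v : ℕ} {p q : ℝ} (ha : 0 < a) (hb : 0 < b) (hn : 1 ≤ n) (h0 : 0 ≤ p)
    (h1 : p ≤ 1) (hq0 : 0 ≤ q)
    (hy : ((K : ℝ) + 1) ^ 2 * p ≤ q * (n : ℝ) ^ (-((b : ℝ) / a)))
    (F : Finset (Finset (Fin n))) (hF : ∀ S ∈ F, S.card = v) (hvK : v ≤ K) :
    Pr (V := Fin n) p (fun G => ∃ S ∈ F, a * S.card ≤ b * eIn G S + D) ≤
      F.card * (q ^ ⌈((a : ℝ) * v - D) / b⌉₊ * (n : ℝ) ^ (-((v : ℝ) - D / a))) := by
  have har : (0 : ℝ) < a := by exact_mod_cast ha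
  have hbr : (0 : ℝ) < b := by exact_mod_cast hb
  have hnr : (1 : ℝ) ≤ n := by exact_mod_cast hn
  set m : ℕ := ⌈((a : ℝ) * v - D) / b⌉₊ with hm
  refine (Pr_exists_le h0 h1 _ _).trans ?_
  rw [← nsmul_eq_mul]
  refine Finset.sum_le_card_nsmul _ _ _ fun S hS => ?_
  have h2 : Pr (V := Fin n) p (fun G => a * S.card ≤ b * eIn G S + D) ≤
      Pr (V := Fin n) p (fun G => m ≤ eIn G S) := by
    refine Pr_mono h0 h1 fun G hG => ?_
    rw [hm, Nat.ceil_le, div_le_iff₀ hbr]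
    have h3 : ((a * S.card : ℕ) : ℝ) ≤ ((b * eIn G S + D : ℕ) : ℝ) := by exact_mod_cast hG
    rw [hF S hS] at h3
    push_cast at h3
    linarith
  refine h2.trans ((Pr_edges_ge_pow h0 h1 S m).trans ?_)
  have h4 : ((S.card : ℝ) + 1) ^ 2 * p ≤ q * (n : ℝ) ^ (-((b : ℝ) / a)) := by
    refine le_trans (mul_le_mul_of_nonneg_right ?_ h0) hy
    have h5 : (S.card : ℝ) ≤ K := by rw [hF S hS]; exact_mod_cast hvK
    have h6 : (0 : ℝ) ≤ S.card := by positivity
    exact pow_le_pow_left₀ (by positivity) (by linarith) 2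
  refine (pow_le_pow_left₀ (by positivity) h4 m).trans ?_
  rw [mul_pow]
  refine mul_le_mul_of_nonneg_left ?_ (pow_nonneg hq0 m)
  rw [← Real.rpow_natCast, ← Real.rpow_mul (by positivity)]
  refine Real.rpow_le_rpow_of_exponent_le hnr ?_
  have h7 : ((a : ℝ) * v - D) / b ≤ m := Nat.le_ceil _
  rw [div_le_iff₀ hbr] at h7
  have h8 : (v : ℝ) - D / a ≤ (b : ℝ) / a * m := by
    have h9 : (v : ℝ) - D / a = ((a : ℝ) * v - D) / a := by field_simp
    have h10 : (b : ℝ) / a * m = (m * b) / a := by ring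
    rw [h9, h10]
    exact div_le_div_of_nonneg_right h7 har.le
  linarith

lemma log_sum {n K c : ℕ} {p q : ℝ} (h0 : 0 ≤ p) (h1 : p ≤ 1) (hq0 : 0 ≤ q)
    (F : ℕ → Finset (Finset (Fin n))) (A : Finset (Fin n) → SimpleGraph (Fin n) → Prop)
    (h : ∀ v, c ≤ v → v ≤ K → Pr (V := Fin n) p (fun G => ∃ S ∈ F v, A S G) ≤ q)
    (B : SimpleGraph (Fin n) → Prop)
    (hB : ∀ G, B G → ∃ v, c ≤ v ∧ v ≤ K ∧ ∃ S ∈ F v, A S G) :
    Pr (V := Fin n) p B ≤ ((K : ℝ) + 1) * q := by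
  have h2 : Pr (V := Fin n) p B ≤
      Pr (V := Fin n) p (fun G => ∃ v ∈ Finset.Icc c K, ∃ S ∈ F v, A S G) := by
    refine Pr_mono h0 h1 fun G hG => ?_
    obtain ⟨v, hv1, hv2, hv3⟩ := hB G hG
    exact ⟨v, Finset.mem_Icc.2 ⟨hv1, hv2⟩, hv3⟩
  refine h2.trans ((Pr_exists_le h0 h1 _ _).trans ?_)
  have h3 : ∑ v ∈ Finset.Icc c K, Pr (V := Fin n) p (fun G => ∃ S ∈ F v, A S G) ≤
      (Finset.Icc c K).card • q := by
    refine Finset.sum_le_card_nsmul _ _ _ fun v hv => ?_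
    rw [Finset.mem_Icc] at hv
    exact h v hv.1 hv.2
  refine h3.trans ?_
  rw [nsmul_eq_mul, Nat.card_Icc]
  refine mul_le_mul_of_nonneg_right ?_ hq0
  have h4 : K + 1 - c ≤ K + 1 := Nat.sub_le _ _
  exact_mod_cast h4

lemma card_two_le {n v : ℕ} (v0 v1 : Fin n) (h : v0 ≠ v1) (hv : 2 ≤ v) :
    (((univ : Finset (Fin n)).powersetCard v).filter (fun S => v0 ∈ S ∧ v1 ∈ S)).card ≤
      n ^ (v - 2) := by
  have h1 : (((univ : Finset (Fin n)).powersetCard v).filter (fun S => v0 ∈ S ∧ v1 ∈ S)).card ≤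
      ((univ : Finset (Fin n)).powersetCard (v - 2)).card := by
    refine Finset.card_le_card_of_injOn (fun S => S \ {v0, v1}) ?_ ?_
    · intro S hS
      rw [mem_coe, mem_filter, mem_powersetCard] at hS
      rw [mem_coe, mem_powersetCard]
      refine ⟨subset_univ _, ?_⟩
      have h2 : ({v0, v1} : Finset (Fin n)) ⊆ S := by
        intro x hx
        rw [mem_insert, mem_singleton] at hx
        rcases hx with rfl | rfl
        · exact hS.2.1
        · exact hS.2.2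
      rw [Finset.card_sdiff_of_subset h2, Finset.card_pair h, hS.1.2]
    · intro S hS T hT hST
      rw [mem_coe, mem_filter, mem_powersetCard] at hS hT
      have h2 : ∀ U : Finset (Fin n), v0 ∈ U ∧ v1 ∈ U → (U \ {v0, v1}) ∪ {v0, v1} = U := by
        intro U hU
        apply Finset.sdiff_union_of_subset
        intro x hx
        rw [mem_insert, mem_singleton] at hx
        rcases hx with rfl | rfl
        · exact hU.1
        · exact hU.2
      have h3 : S \ {v0, v1} = T \ {v0, v1} := hST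
      rw [← h2 S hS.2, ← h2 T hT.2, h3]
  refine h1.trans ?_
  rw [Finset.card_powersetCard, Finset.card_univ, Fintype.card_fin]
  exact Nat.choose_le_pow _ _

/-- the numerical estimates -/
lemma log_num (M : ℕ) {l : ℝ} (hl : 96 * ((M : ℝ) + 1) ^ 3 ≤ l) {K : ℝ} (hK0 : 0 ≤ K)
    (hK : K + 1 ≤ 2 * ((M : ℝ) + 1) * l) :
    (K + 1) * ((K + 1) ^ 2 * (l ^ 4)⁻¹) ≤ 1 / 12 ∧ (K + 1) ^ 2 * (l ^ 4)⁻¹ ≤ Real.exp (-4) := by
  have hM : (1 : ℝ) ≤ (M : ℝ) + 1 := by
    have : (0 : ℝ) ≤ M := by positivity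
    linarith
  have hM3 : (1 : ℝ) ≤ ((M : ℝ) + 1) ^ 3 := one_le_pow₀ hM
  have hl0 : 0 < l := by linarith
  have hl4 : 0 < l ^ 4 := by positivity
  have h1 : (K + 1) ^ 3 ≤ (2 * ((M : ℝ) + 1) * l) ^ 3 := pow_le_pow_left₀ (by linarith) hK 3
  have h2 : (K + 1) * ((K + 1) ^ 2 * (l ^ 4)⁻¹) ≤ 1 / 12 := by
    have h3 : (K + 1) * ((K + 1) ^ 2 * (l ^ 4)⁻¹) = (K + 1) ^ 3 / l ^ 4 := by
      rw [div_eq_mul_inv]; ring
    rw [h3, div_le_iff₀ hl4]
    refine h1.trans ?_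
    have h4 : (2 * ((M : ℝ) + 1) * l) ^ 3 = 8 * ((M : ℝ) + 1) ^ 3 * l ^ 3 := by ring
    have h5 : 1 / 12 * l ^ 4 = (1 / 12 * l) * l ^ 3 := by ring
    rw [h4, h5]
    refine mul_le_mul_of_nonneg_right ?_ (by positivity)
    linarith
  refine ⟨h2, ?_⟩
  have h6 : (K + 1) ^ 2 * (l ^ 4)⁻¹ ≤ 1 / 100 := by
    rw [← div_eq_mul_inv, div_le_iff₀ hl4]
    have h7 : (K + 1) ^ 2 ≤ (2 * ((M : ℝ) + 1) * l) ^ 2 := pow_le_pow_left₀ (by linarith) hK 2
    have h8 : 96 * ((M : ℝ) + 1) ≤ l := by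
      refine le_trans ?_ hl
      have h9 : ((M : ℝ) + 1) ^ 1 ≤ ((M : ℝ) + 1) ^ 3 := pow_le_pow_right₀ hM (by norm_num)
      rw [pow_one] at h9
      linarith
    have h10 : 2 * ((M : ℝ) + 1) * l ≤ 1 / 10 * l ^ 2 := by
      have : 1 / 10 * l ^ 2 = (1 / 10 * l) * l := by ring
      rw [this]
      refine mul_le_mul_of_nonneg_right ?_ hl0.le
      linarith
    have h11 : (2 * ((M : ℝ) + 1) * l) ^ 2 ≤ (1 / 10 * l ^ 2) ^ 2 :=
      pow_le_pow_left₀ (by positivity) h10 2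
    have h12 : (1 / 10 * l ^ 2) ^ 2 = 1 / 100 * l ^ 4 := by ring
    linarith
  refine h6.trans ?_
  rw [Real.exp_neg]
  rw [one_div]
  refine inv_anti₀ (Real.exp_pos _) ?_
  have h13 : Real.exp 4 = Real.exp 1 ^ 4 := by
    rw [← Real.exp_nat_mul]; norm_num
  rw [h13]
  have h14 : Real.exp 1 ≤ 3 := by
    have := Real.exp_one_lt_d9
    linarith
  calc Real.exp 1 ^ 4 ≤ 3 ^ 4 := pow_le_pow_left₀ (Real.exp_pos _).le h14 4
    _ ≤ 100 := by norm_num

theorem first_moment_log (a b D M : ℕ) (hb : 0 < b) (hab : b < a) (hD : D < 2 * a) :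
    ∃ C : ℝ, 0 < C ∧ ∀ᶠ n : ℕ in atTop, ∀ p : ℝ, 0 ≤ p →
      p ≤ (n : ℝ) ^ (-((b : ℝ) / a)) * (Real.log n) ^ (-C) → ∀ v0 v1 : Fin n, v0 ≠ v1 →
      Pr (V := Fin n) p (fun G =>
        (∃ S : Finset (Fin n), S.Nonempty ∧ S.card ≤ M * ⌈Real.log n⌉₊ ∧
          a * S.card ≤ b * eIn G S) ∨
        (∃ S : Finset (Fin n), ⌈Real.log n⌉₊ < S.card ∧ S.card ≤ M * ⌈Real.log n⌉₊ ∧
          a * S.card ≤ b * eIn G S + D) ∨
        (∃ S : Finset (Fin n), v0 ∈ S ∧ v1 ∈ S ∧ S.card ≤ M * ⌈Real.log n⌉₊ ∧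
          a * S.card ≤ b * eIn G S + D)) ≤ 1 / 4 := by
  refine ⟨4, by norm_num, ?_⟩
  have ha : 0 < a := by omega
  have har : (0 : ℝ) < a := by exact_mod_cast ha
  have hbr : (0 : ℝ) < b := by exact_mod_cast hb
  have habr : (b : ℝ) < a := by exact_mod_cast hab
  have hDr : (D : ℝ) < 2 * a := by exact_mod_cast hD
  have hlog : Tendsto (fun n : ℕ => Real.log n) atTop atTop :=
    Real.tendsto_log_atTop.comp tendsto_natCast_atTop_atTop
  filter_upwards [hlog.eventually_ge_atTop (96 * ((M : ℝ) + 1) ^ 3), eventually_ge_atTop 1]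
    with n hn hn1 p hp0 hp v0 v1 hv
  set l : ℝ := Real.log n with hl
  set L : ℕ := ⌈l⌉₊ with hL
  set K : ℕ := M * L with hK
  have hM0 : (0 : ℝ) ≤ M := by positivity
  have hM3 : (1 : ℝ) ≤ ((M : ℝ) + 1) ^ 3 := one_le_pow₀ (by linarith)
  have hl96 : 96 ≤ l := by linarith
  have hl0 : 0 < l := by linarith
  have hL1 : l ≤ L := Nat.le_ceil _
  have hL2 : (L : ℝ) < l + 1 := Nat.ceil_lt_add_one hl0.le
  have hn1r : (1 : ℝ) ≤ n := by exact_mod_cast hn1
  have hn0r : (0 : ℝ) < n := by linarith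
  have hKr : (K : ℝ) + 1 ≤ 2 * ((M : ℝ) + 1) * l := by
    rw [hK]
    push_cast
    nlinarith
  obtain ⟨hq12, hqe⟩ := log_num M hn (K := (K : ℝ)) (by positivity) hKr
  set q : ℝ := ((K : ℝ) + 1) ^ 2 * (l ^ 4)⁻¹ with hq
  have hq0 : 0 ≤ q := by positivity
  have hq1 : q ≤ 1 := hqe.trans (by
    rw [Real.exp_le_one_iff]
    norm_num)
  have hl4 : l ^ (-(4 : ℝ)) = (l ^ 4)⁻¹ := by
    rw [Real.rpow_neg hl0.le]
    norm_num
  rw [hl4] at hp
  have hy : ((K : ℝ) + 1) ^ 2 * p ≤ q * (n : ℝ) ^ (-((b : ℝ) / a)) := by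
    calc ((K : ℝ) + 1) ^ 2 * p ≤ ((K : ℝ) + 1) ^ 2 * ((n : ℝ) ^ (-((b : ℝ) / a)) * (l ^ 4)⁻¹) :=
          mul_le_mul_of_nonneg_left hp (by positivity)
      _ = q * (n : ℝ) ^ (-((b : ℝ) / a)) := by rw [hq]; ring
  have hp1 : p ≤ 1 := by
    refine hp.trans ?_
    have h2 : (n : ℝ) ^ (-((b : ℝ) / a)) ≤ 1 :=
      Real.rpow_le_one_of_one_le_of_nonpos hn1r (by
        have := div_pos hbr har
        linarith)
    have h3 : (l ^ 4)⁻¹ ≤ 1 := inv_le_one_of_one_le₀ (one_le_pow₀ (by linarith))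
    have h4 : 0 ≤ (l ^ 4)⁻¹ := by positivity
    have h5 : 0 ≤ (n : ℝ) ^ (-((b : ℝ) / a)) := by positivity
    nlinarith
  -- the three events
  have hE1 : Pr (V := Fin n) p (fun G => ∃ S : Finset (Fin n), S.Nonempty ∧ S.card ≤ K ∧
      a * S.card ≤ b * eIn G S) ≤ 1 / 12 := by
    refine le_trans (log_sum (c := 1) (K := K) hp0 hp1 hq0
      (fun v => (univ : Finset (Fin n)).powersetCard v)
      (fun S G => a * S.card ≤ b * eIn G S + 0) ?_ _ ?_) hq12
    · intro v hv1 hv2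
      refine (log_core ha hb hn1 hp0 hp1 hq0 hy _ (fun S hS => (mem_powersetCard.1 hS).2)
        hv2).trans ?_
      rw [Finset.card_powersetCard, Finset.card_univ, Fintype.card_fin]
      have h1 : ((n.choose v : ℕ) : ℝ) ≤ (n : ℝ) ^ v := by exact_mod_cast Nat.choose_le_pow n v
      have h2 : (n : ℝ) ^ v * (n : ℝ) ^ (-((v : ℝ) - (0 : ℕ) / a)) = 1 := by
        rw [← Real.rpow_natCast, ← Real.rpow_add hn0r]
        simp
      have h3 : q ^ ⌈((a : ℝ) * v - (0 : ℕ)) / b⌉₊ ≤ q := by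
        refine (pow_le_pow_of_le_one hq0 hq1 ?_).trans (pow_one q).le
        rw [Nat.one_le_ceil_iff]
        have : (1 : ℝ) ≤ v := by exact_mod_cast hv1
        simp only [Nat.cast_zero, sub_zero]
        positivity
      calc ((n.choose v : ℕ) : ℝ) * (q ^ ⌈((a : ℝ) * v - (0 : ℕ)) / b⌉₊ *
            (n : ℝ) ^ (-((v : ℝ) - (0 : ℕ) / a)))
          ≤ (n : ℝ) ^ v * (q ^ ⌈((a : ℝ) * v - (0 : ℕ)) / b⌉₊ *
            (n : ℝ) ^ (-((v : ℝ) - (0 : ℕ) / a))) :=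
            mul_le_mul_of_nonneg_right h1 (by positivity)
        _ = q ^ ⌈((a : ℝ) * v - (0 : ℕ)) / b⌉₊ *
            ((n : ℝ) ^ v * (n : ℝ) ^ (-((v : ℝ) - (0 : ℕ) / a))) := by ring
        _ ≤ q := by rw [h2, mul_one]; exact h3
    · rintro G ⟨S, hS, hSK, hS2⟩
      exact ⟨S.card, Finset.card_pos.2 hS, hSK, S,
        mem_powersetCard.2 ⟨subset_univ _, rfl⟩, by simpa using hS2⟩
  have hDa : (D : ℝ) / a ≤ 2 := by
    rw [div_le_iff₀ har]; exact hDr.le
  have hE2 : Pr (V := Fin n) p (fun G => ∃ S : Finset (Fin n), L < S.card ∧ S.card ≤ K ∧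
      a * S.card ≤ b * eIn G S + D) ≤ 1 / 12 := by
    refine le_trans (log_sum (c := L + 1) (K := K) hp0 hp1 hq0
      (fun v => (univ : Finset (Fin n)).powersetCard v)
      (fun S G => a * S.card ≤ b * eIn G S + D) ?_ _ ?_) hq12
    · intro v hv1 hv2
      refine (log_core ha hb hn1 hp0 hp1 hq0 hy _ (fun S hS => (mem_powersetCard.1 hS).2)
        hv2).trans ?_
      rw [Finset.card_powersetCard, Finset.card_univ, Fintype.card_fin]
      have h1 : ((n.choose v : ℕ) : ℝ) ≤ (n : ℝ) ^ v := by exact_mod_cast Nat.choose_le_pow n v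
      have h2 : (n : ℝ) ^ v * (n : ℝ) ^ (-((v : ℝ) - D / a)) ≤ (n : ℝ) ^ 2 := by
        rw [← Real.rpow_natCast, ← Real.rpow_add hn0r, ← Real.rpow_natCast]
        refine Real.rpow_le_rpow_of_exponent_le hn1r ?_
        push_cast
        linarith
      have h3 : q ^ ⌈((a : ℝ) * v - D) / b⌉₊ ≤ q * ((n : ℝ) ^ 2)⁻¹ := by
        have hv1r : (L : ℝ) + 1 ≤ v := by exact_mod_cast hv1
        have h4 : L - 1 ≤ ⌈((a : ℝ) * v - D) / b⌉₊ := by
          have h5 : ((L - 1 : ℕ) : ℝ) ≤ ((a : ℝ) * v - D) / b := by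
            rw [le_div_iff₀ hbr]
            have hL1' : 1 ≤ L := by
              have : (1 : ℝ) ≤ L := by linarith
              exact_mod_cast this
            rw [Nat.cast_sub hL1']
            push_cast
            have h6 : (0 : ℝ) ≤ (L : ℝ) - 1 := by linarith
            nlinarith
          exact_mod_cast h5.trans (Nat.le_ceil _)
        obtain ⟨k, hk⟩ : ∃ k, L = k + 2 := ⟨L - 2, by
          have : (2 : ℝ) ≤ L := by linarith
          have : 2 ≤ L := by exact_mod_cast this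
          omega⟩
        have h7 : q ^ (k + 1) ≤ q * ((n : ℝ) ^ 2)⁻¹ := by
          rw [pow_succ, mul_comm]
          refine mul_le_mul_of_nonneg_left ?_ hq0
          calc q ^ k ≤ Real.exp (-4) ^ k := pow_le_pow_left₀ hq0 hqe k
            _ = Real.exp (k * (-4)) := (Real.exp_nat_mul _ _).symm
            _ ≤ Real.exp (-(2 * l)) := by
              rw [Real.exp_le_exp]
              have : (L : ℝ) = k + 2 := by exact_mod_cast hk
              linarith
            _ = ((n : ℝ) ^ 2)⁻¹ := by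
              rw [Real.exp_neg]
              congr 1
              rw [two_mul, Real.exp_add, hl, Real.exp_log hn0r]
              ring
        refine le_trans (pow_le_pow_of_le_one hq0 hq1 ?_) h7
        omega
      calc ((n.choose v : ℕ) : ℝ) * (q ^ ⌈((a : ℝ) * v - D) / b⌉₊ *
            (n : ℝ) ^ (-((v : ℝ) - D / a)))
          ≤ (n : ℝ) ^ v * (q ^ ⌈((a : ℝ) * v - D) / b⌉₊ *
            (n : ℝ) ^ (-((v : ℝ) - D / a))) :=
            mul_le_mul_of_nonneg_right h1 (by positivity)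
        _ = q ^ ⌈((a : ℝ) * v - D) / b⌉₊ *
            ((n : ℝ) ^ v * (n : ℝ) ^ (-((v : ℝ) - D / a))) := by ring
        _ ≤ (q * ((n : ℝ) ^ 2)⁻¹) * (n : ℝ) ^ 2 :=
            mul_le_mul h3 h2 (by positivity) (by positivity)
        _ = q := by field_simp
    · rintro G ⟨S, hS, hSK, hS2⟩
      exact ⟨S.card, hS, hSK, S, mem_powersetCard.2 ⟨subset_univ _, rfl⟩, hS2⟩
  have hE3 : Pr (V := Fin n) p (fun G => ∃ S : Finset (Fin n), v0 ∈ S ∧ v1 ∈ S ∧ S.card ≤ K ∧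
      a * S.card ≤ b * eIn G S + D) ≤ 1 / 12 := by
    refine le_trans (log_sum (c := 2) (K := K) hp0 hp1 hq0
      (fun v => ((univ : Finset (Fin n)).powersetCard v).filter (fun S => v0 ∈ S ∧ v1 ∈ S))
      (fun S G => a * S.card ≤ b * eIn G S + D) ?_ _ ?_) hq12
    · intro v hv1 hv2
      refine (log_core ha hb hn1 hp0 hp1 hq0 hy _
        (fun S hS => (mem_powersetCard.1 (mem_filter.1 hS).1).2) hv2).trans ?_
      have hv1r : (2 : ℝ) ≤ v := by exact_mod_cast hv1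
      have h1 : (((((univ : Finset (Fin n)).powersetCard v).filter
          (fun S => v0 ∈ S ∧ v1 ∈ S)).card : ℕ) : ℝ) ≤ (n : ℝ) ^ (v - 2) := by
        exact_mod_cast card_two_le v0 v1 hv hv1
      have h2 : (n : ℝ) ^ (v - 2) * (n : ℝ) ^ (-((v : ℝ) - D / a)) ≤ 1 := by
        rw [← Real.rpow_natCast, ← Real.rpow_add hn0r]
        refine Real.rpow_le_one_of_one_le_of_nonpos hn1r ?_
        rw [Nat.cast_sub hv1]
        push_cast
        linarith
      have h3 : q ^ ⌈((a : ℝ) * v - D) / b⌉₊ ≤ q := by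
        refine (pow_le_pow_of_le_one hq0 hq1 ?_).trans (pow_one q).le
        rw [Nat.one_le_ceil_iff]
        refine div_pos ?_ hbr
        nlinarith
      calc (((((univ : Finset (Fin n)).powersetCard v).filter
            (fun S => v0 ∈ S ∧ v1 ∈ S)).card : ℕ) : ℝ) * (q ^ ⌈((a : ℝ) * v - D) / b⌉₊ *
            (n : ℝ) ^ (-((v : ℝ) - D / a)))
          ≤ (n : ℝ) ^ (v - 2) * (q ^ ⌈((a : ℝ) * v - D) / b⌉₊ *
            (n : ℝ) ^ (-((v : ℝ) - D / a))) :=
            mul_le_mul_of_nonneg_right h1 (by positivity)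
        _ = q ^ ⌈((a : ℝ) * v - D) / b⌉₊ *
            ((n : ℝ) ^ (v - 2) * (n : ℝ) ^ (-((v : ℝ) - D / a))) := by ring
        _ ≤ q * 1 := mul_le_mul h3 h2 (by positivity) hq0
        _ = q := mul_one q
    · rintro G ⟨S, hS0, hS1, hSK, hS2⟩
      refine ⟨S.card, ?_, hSK, S, mem_filter.2 ⟨mem_powersetCard.2 ⟨subset_univ _, rfl⟩, hS0,
        hS1⟩, hS2⟩
      have h1 : ({v0, v1} : Finset (Fin n)) ⊆ S := by
        intro x hx
        rw [mem_insert, mem_singleton] at hx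
        rcases hx with rfl | rfl
        · exact hS0
        · exact hS1
      have h2 := Finset.card_le_card h1
      rwa [Finset.card_pair hv] at h2
  have h1 := Pr_or_le (V := Fin n) hp0 hp1
    (fun G => ∃ S : Finset (Fin n), S.Nonempty ∧ S.card ≤ K ∧ a * S.card ≤ b * eIn G S)
    (fun G => (∃ S : Finset (Fin n), L < S.card ∧ S.card ≤ K ∧ a * S.card ≤ b * eIn G S + D) ∨
      (∃ S : Finset (Fin n), v0 ∈ S ∧ v1 ∈ S ∧ S.card ≤ K ∧ a * S.card ≤ b * eIn G S + D))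
  have h2 := Pr_or_le (V := Fin n) hp0 hp1
    (fun G => ∃ S : Finset (Fin n), L < S.card ∧ S.card ≤ K ∧ a * S.card ≤ b * eIn G S + D)
    (fun G => ∃ S : Finset (Fin n), v0 ∈ S ∧ v1 ∈ S ∧ S.card ≤ K ∧ a * S.card ≤ b * eIn G S + D)
  linarith

end MP30c94c
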