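import Mathlib
import Pool.Agent.Lib.MP30c94c.KProc
import Pool.Agent.Lib.MP30c94c.KFLog
import Pool.Agent.Lib.MP30c94c.LBFinal

/-!
# Lower bound from the hull property
-/

open SimpleGraph Finset Filter MeasureTheory

namespace MP30c94c

attribute [local instance] Classical.propDecidable

/-- a small witness for a pair of the final graph -/
private def KWit {W₀ : Type} (H : SimpleGraph W₀) (a b D m : ℕ) {V : Type} [Fintype V]
    (G : SimpleGraph V) (e : Sym2 V) (S : Finset V) : Prop :=
  (∀ x ∈ e, x ∈ S) ∧ S.card ≤ m ∧ InClosure H (restr G S) e ∧ a * S.card ≤ b * eIn G S + D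

private lemma eIn_empty {V : Type} [Fintype V] (G : SimpleGraph V) : eIn G (∅ : Finset V) = 0 := by
  unfold eIn
  rw [Finset.card_eq_zero, Finset.eq_empty_iff_forall_notMem]
  intro e he
  rw [mem_filter] at he
  induction e using Sym2.ind with
  | _ u v => exact absurd (he.2 u (by simp)) (Finset.notMem_empty u)

private lemma restr_mono_set {V : Type} [Fintype V] (G : SimpleGraph V) {S T : Finset V}
    (h : S ⊆ T) : restr G S ≤ restr G T := by
  intro u v huv
  exact ⟨huv.1, h huv.2.1, h huv.2.2⟩

private lemma restr_restr {V : Type} [Fintype V] (G : SimpleGraph V) (W S : Finset V) :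
    restr (restr G W) S = restr G (S ∩ W) := by
  ext u v
  simp only [restr_adj, mem_inter]
  tauto

private theorem not_perc_gen {W₀ : Type} [Fintype W₀] (H : SimpleGraph W₀) (a b D : ℕ)
    (ha : 0 < a) (hD : 2 * a ≤ b + D) (hdeg : ∀ w w', H.Adj w w' → ∃ w'', w'' ≠ w' ∧ H.Adj w w'')
    (hull : HullProp H a b D) {V : Type} [Fintype V] (G : SimpleGraph V) (v0 v1 : V)
    (h01 : v0 ≠ v1)
    (m M : ℕ) (hm : 2 ≤ m) (hM1 : 1 ≤ M) (hM : H.edgeFinset.card ≤ M)
    (P1 : ∀ S : Finset V, S.Nonempty → S.card ≤ M * m → b * eIn G S < a * S.card)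
    (P2 : ∀ S : Finset V, m < S.card → S.card ≤ M * m → b * eIn G S + D < a * S.card)
    (P3 : ∀ S : Finset V, v0 ∈ S → v1 ∈ S → S.card ≤ M * m →
      b * eIn G S + D < a * S.card) :
    ¬ Percolates H G := by
  have main : ∀ e : Sym2 V, InClosure H G e → ∃ S, KWit H a b D m G e S := by
    intro e he
    induction he with
    | @base e he =>
      induction e using Sym2.ind with
      | _ u v =>
        have huv : G.Adj u v := he
        have hc : ({u, v} : Finset V).card = 2 := Finset.card_pair huv.ne
        refine ⟨{u, v}, ?_, ?_, ?_, ?_⟩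
        · intro x hx
          simpa using hx
        · rw [hc]; exact hm
        · apply InClosure.base
          rw [mem_edgeSet, restr_adj]
          exact ⟨huv, by simp, by simp⟩
        · rw [hc]
          have h1 : 1 ≤ eIn G {u, v} := by
            unfold eIn
            rw [Nat.one_le_iff_ne_zero, ← Nat.pos_iff_ne_zero, Finset.card_pos]
            refine ⟨s(u, v), ?_⟩
            rw [mem_filter, mem_edgeFinset]
            refine ⟨he, ?_⟩
            intro x hx
            simpa using hx
          have h2 : b ≤ b * eIn G {u, v} := Nat.le_mul_of_pos_right b h1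
          omega
    | @step e f he h ih =>
      -- the union of the witnesses of the other edges
      choose! S hS using ih
      let W : Finset V := (H.edgeFinset.image (fun d => d.map f)).biUnion
        (fun e' => if e' ≠ e then S e' else ∅)
      have hmap : ∀ e', e' ∈ (H.map f).edgeSet → e' ∈ H.edgeFinset.image (fun d => d.map f) := by
        intro e' he'
        induction e' using Sym2.ind with
        | _ x y =>
          rw [mem_edgeSet, SimpleGraph.map_adj] at he'
          obtain ⟨w, w', hw, rfl, rfl⟩ := he'
          rw [mem_image]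
          exact ⟨s(w, w'), by rw [mem_edgeFinset]; exact hw, rfl⟩
      have hmap' : ∀ e', e' ∈ H.edgeFinset.image (fun d => d.map f) → e' ∈ (H.map f).edgeSet := by
        intro e' he'
        rw [mem_image] at he'
        obtain ⟨d, hd, rfl⟩ := he'
        induction d using Sym2.ind with
        | _ w w' =>
          rw [mem_edgeFinset] at hd
          have hd' : H.Adj w w' := hd
          show s(f w, f w') ∈ (H.map f).edgeSet
          rw [mem_edgeSet, SimpleGraph.map_adj]
          exact ⟨w, w', hd', rfl, rfl⟩
      have hsub : ∀ e', e' ∈ (H.map f).edgeSet → e' ≠ e → S e' ⊆ W := by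
        intro e' he' hne x hx
        rw [Finset.mem_biUnion]
        exact ⟨e', hmap e' he', by rw [if_pos hne]; exact hx⟩
      have hWcard : W.card ≤ M * m := by
        calc W.card ≤ (H.edgeFinset.image (fun d => d.map f)).card * m := by
              apply Finset.card_biUnion_le_card_mul
              intro e' he'
              by_cases hne : e' ≠ e
              · rw [if_pos hne]
                exact (hS e' (hmap' e' he') hne).2.1
              · rw [if_neg hne]
                simp
          _ ≤ M * m := Nat.mul_le_mul_right m (Finset.card_image_le.trans hM)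
      have hin : InClosure H (restr G W) e := by
        apply InClosure.step f he
        intro e' he' hne
        exact InClosure.mono (restr_mono_set G (hsub e' he' hne)) (hS e' he' hne).2.2.1
      -- the end points of `e` lie in `W`
      have hends : ∀ x ∈ e, x ∈ W := by
        have key : ∀ w w', H.Adj w w' → e = s(f w, f w') → f w ∈ W := by
          intro w w' hw hew
          obtain ⟨w'', hne, hadj⟩ := hdeg w w' hw
          have h1 : s(f w, f w'') ∈ (H.map f).edgeSet := by
            rw [mem_edgeSet, SimpleGraph.map_adj]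
            exact ⟨w, w'', hadj, rfl, rfl⟩
          have h2 : s(f w, f w'') ≠ e := by
            rw [hew]
            intro h3
            rw [Sym2.eq_iff] at h3
            rcases h3 with ⟨-, h4⟩ | ⟨h4, -⟩
            · exact hne (f.injective h4)
            · exact hw.ne (f.injective h4)
          exact hsub _ h1 h2 ((hS _ h1 h2).1 (f w) (by simp))
        have he2 := he
        induction e using Sym2.ind with
        | _ x y =>
          rw [mem_edgeSet, SimpleGraph.map_adj] at he2
          obtain ⟨w, w', hw, rfl, rfl⟩ := he2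
          intro z hz
          rw [Sym2.mem_iff] at hz
          rcases hz with rfl | rfl
          · exact key w w' hw rfl
          · exact key w' w hw.symm Sym2.eq_swap
      have hull1 : ∀ T : Finset V, T.Nonempty → b * eIn (restr G W) T < a * T.card := by
        intro T hT
        rw [eIn_restr]
        rcases (T ∩ W).eq_empty_or_nonempty with h0 | h0
        · rw [h0, eIn_empty, mul_zero]
          exact Nat.mul_pos ha (Finset.card_pos.2 hT)
        · have h1 := P1 (T ∩ W) h0 ((Finset.card_le_card Finset.inter_subset_right).trans hWcard)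
          have h2 : a * (T ∩ W).card ≤ a * T.card :=
            Nat.mul_le_mul_left a (Finset.card_le_card Finset.inter_subset_left)
          omega
      have fin : ∀ u v, e = s(u, v) → ∃ S, KWit H a b D m G e S := by
        intro u v huv
        have hne : u ≠ v := by
          rintro rfl
          have h1 := (H.map f).not_isDiag_of_mem_edgeSet he
          rw [huv] at h1
          exact h1 rfl
        obtain ⟨T, hu, hv, hT1, hT2⟩ := hull V (restr G W) hull1 u v hne (by
          rw [← huv]; exact hin)
        rw [restr_restr] at hT1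
        rw [eIn_restr] at hT2
        have huW : u ∈ W := hends u (by rw [huv]; simp)
        have hvW : v ∈ W := hends v (by rw [huv]; simp)
        have h3 : a * (T ∩ W).card ≤ b * eIn G (T ∩ W) + D :=
          le_trans (Nat.mul_le_mul_left a (Finset.card_le_card Finset.inter_subset_left)) hT2
        refine ⟨T ∩ W, ?_, ?_, ?_, h3⟩
        · intro x hx
          rw [huv, Sym2.mem_iff] at hx
          rcases hx with rfl | rfl
          · exact mem_inter.2 ⟨hu, huW⟩
          · exact mem_inter.2 ⟨hv, hvW⟩
        · by_contra hcon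
          rw [not_le] at hcon
          have h4 := P2 (T ∩ W) hcon
            ((Finset.card_le_card Finset.inter_subset_right).trans hWcard)
          omega
        · rw [huv]; exact hT1
      induction e using Sym2.ind with
      | _ u v => exact fin u v rfl
  intro hperc
  have h1 : (closure H G).Adj v0 v1 := by
    unfold Percolates at hperc
    rw [hperc]
    exact h01
  obtain ⟨S, hS1, hS2, -, hS4⟩ := main _ h1.2
  have h2 := P3 S (hS1 v0 (by simp)) (hS1 v1 (by simp))
    (hS2.trans (Nat.le_mul_of_pos_left m (by omega)))
  omega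

/-- Aizenman-Lebowitz argument, deterministic part. -/
theorem not_percolates_of_hull {W₀ : Type} [Fintype W₀] (H : SimpleGraph W₀) (a b D : ℕ)
    (ha : 0 < a) (hD : 2 * a ≤ b + D) (hdeg : ∀ w w', H.Adj w w' → ∃ w'', w'' ≠ w' ∧ H.Adj w w'')
    (hull : HullProp H a b D) {n : ℕ} (G : SimpleGraph (Fin n)) (v0 v1 : Fin n) (h01 : v0 ≠ v1)
    (m M : ℕ) (hm : 2 ≤ m) (hM1 : 1 ≤ M) (hM : H.edgeFinset.card ≤ M)
    (P1 : ∀ S : Finset (Fin n), S.Nonempty → S.card ≤ M * m → b * eIn G S < a * S.card)
    (P2 : ∀ S : Finset (Fin n), m < S.card → S.card ≤ M * m → b * eIn G S + D < a * S.card)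
    (P3 : ∀ S : Finset (Fin n), v0 ∈ S → v1 ∈ S → S.card ≤ M * m →
      b * eIn G S + D < a * S.card) :
    ¬ Percolates H G := by
  exact not_perc_gen H a b D ha hD hdeg hull G v0 v1 h01 m M hm hM1 hM P1 P2 P3

private lemma percolates_top {W₀ V : Type} (H : SimpleGraph W₀) :
    Percolates H (⊤ : SimpleGraph V) := by
  unfold Percolates
  ext u v
  constructor
  · intro h; exact h.1
  · intro h; exact ⟨h, InClosure.base h⟩

private lemma Pr_one_percolates {W₀ V : Type} [Fintype V] (H : SimpleGraph W₀) :
    Pr (V := V) 1 (fun G => Percolates H G) = 1 := by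
  have h1 : Pr (V := V) 1 (fun G => ¬ Percolates H G) = 0 := by
    unfold Pr Ex
    apply Finset.sum_eq_zero
    intro G _
    by_cases hG : Percolates H G
    · simp [hG]
    · have hlt : G.edgeFinset.card < (allE V).card := by
        apply Finset.card_lt_card
        refine ⟨edgeFinset_subset_allE G, ?_⟩
        intro hsub
        apply hG
        have : G = ⊤ := by
          ext u v
          constructor
          · intro h; exact h.ne
          · intro h
            have h2 : s(u, v) ∈ allE V := by
              unfold allE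
              rw [mem_filter]
              exact ⟨mem_univ _, fun h3 => h h3⟩
            have h3 := hsub h2
            rw [mem_edgeFinset] at h3
            exact h3
        rw [this]
        exact percolates_top H
      have h2 : wt (1 : ℝ) G = 0 := by
        unfold wt
        rw [sub_self, zero_pow (by omega), mul_zero]
      rw [h2, zero_mul]
  rw [Pr_not] at h1
  linarith

/-- The lower bound. -/
theorem lower_of_hull {W₀ : Type} [Fintype W₀] (H : SimpleGraph W₀) (a b D : ℕ)
    (hb : 0 < b) (hab : b < a) (hD : D < 2 * a) (hD' : 2 * a ≤ b + D)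
    (hdeg : ∀ w w', H.Adj w w' → ∃ w'', w'' ≠ w' ∧ H.Adj w w'')
    (hull : HullProp H a b D) :
    ∃ C : ℝ, 0 < C ∧ ∀ᶠ n : ℕ in atTop,
      (n : ℝ) ^ (-((b : ℝ) / a)) * (Real.log n) ^ (-C) ≤ pc n H := by
  set M : ℕ := max 1 H.edgeFinset.card with hMdef
  obtain ⟨C, hC, hfm⟩ := first_moment_log a b D M hb hab hD
  refine ⟨C, hC, ?_⟩
  have hlog : ∀ᶠ n : ℕ in atTop, 2 ≤ Real.log n :=
    (Real.tendsto_log_atTop.comp tendsto_natCast_atTop_atTop).eventually_ge_atTop 2
  filter_upwards [hfm, hlog, eventually_ge_atTop 2] with n h1 h2 h3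
  have hmem : (1 : ℝ) ∈ {p : ℝ | 0 < p ∧ ∃ hp : p ∈ Set.Icc (0 : ℝ) 1,
      1 / 2 ≤ (binomialRandom (Fin n) ⟨p, hp⟩).real {G | Percolates H G}} := by
    refine ⟨one_pos, ⟨zero_le_one, le_rfl⟩, ?_⟩
    rw [real_binomialRandom]
    have := Pr_one_percolates (V := Fin n) H
    change 1 / 2 ≤ Pr (V := Fin n) 1 (fun G => Percolates H G)
    rw [this]
    norm_num
  refine le_csInf ⟨_, hmem⟩ ?_
  rintro p ⟨hp0, hp, hprob⟩
  by_contra hcon
  rw [not_le] at hcon
  rw [real_binomialRandom] at hprob
  change 1 / 2 ≤ Pr (V := Fin n) p (fun G => Percolates H G) at hprob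
  set v0 : Fin n := ⟨0, by omega⟩ with hv0
  set v1 : Fin n := ⟨1, by omega⟩ with hv1
  have h01 : v0 ≠ v1 := by
    intro h
    have := congrArg Fin.val h
    simp [hv0, hv1] at this
  have e1 := h1 p hp0.le hcon.le v0 v1 h01
  have hm2 : 2 ≤ ⌈Real.log n⌉₊ := by
    have h4 : (2 : ℝ) ≤ (⌈Real.log n⌉₊ : ℝ) := h2.trans (Nat.le_ceil _)
    exact_mod_cast h4
  have e2 : Pr (V := Fin n) p (fun G => Percolates H G) ≤ 1 / 4 := by
    refine le_trans (Pr_mono hp0.le hp.2 ?_) e1
    intro G hG
    by_contra hno
    rw [not_or, not_or] at hno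
    obtain ⟨n1, n2, n3⟩ := hno
    push Not at n1 n2 n3
    exact not_percolates_of_hull H a b D (by omega) hD' hdeg hull G v0 v1 h01 ⌈Real.log n⌉₊ M
      hm2 (le_max_left _ _) (le_max_right _ _) n1 n2 n3 hG
  linarith

end MP30c94c
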