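import Mathlib
import Pool.Agent.Lib.MP30c94c.KUBX

/-!
# Monotonicity in `t`
-/

open SimpleGraph Finset

namespace MP30c94c

attribute [local instance] Classical.propDecidable

/-- a `K_{s,t+1}`-infection is a `K_{s,t}`-infection -/
theorem InClosure.of_succ {V : Type} {s t : ℕ} (ht : 1 ≤ t) {G : SimpleGraph V} {e : Sym2 V}
    (h : InClosure (Kst s (t + 1)) G e) : InClosure (Kst s t) G e := by
  induction h with
  | base he => exact .base he
  | @step e f he h ih =>
    -- the edge in the form `s(f (inl i), f (inr j))`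
    obtain ⟨i, j, rfl⟩ : ∃ i j, e = s(f (Sum.inl i), f (Sum.inr j)) := by
      induction e using Sym2.ind with
      | _ u v =>
      rw [mem_edgeSet, map_adj] at he
      obtain ⟨a, b, hab, rfl, rfl⟩ := he
      rcases a with i | j <;> rcases b with i' | j'
      · simp [Kst] at hab
      · exact ⟨i, j', rfl⟩
      · exact ⟨i', j, Sym2.eq_swap⟩
      · simp [Kst] at hab
    have hnt : Nontrivial (Fin (t + 1)) := Fin.nontrivial_iff_two_le.2 (by omega)
    obtain ⟨j', hj'⟩ := exists_ne j
    let fl : Fin s ↪ V := ⟨fun i => f (Sum.inl i), fun a b hab => by simpa using f.injective hab⟩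
    let fr : Fin (t + 1) ↪ V := ⟨fun i => f (Sum.inr i), fun a b hab => by
      simpa using f.injective hab⟩
    have hX : ((univ : Finset (Fin s)).map fl).card = s := by
      rw [card_map, card_univ, Fintype.card_fin]
    have hY : (((univ : Finset (Fin (t + 1))).erase j').map fr).card = t := by
      rw [card_map, card_erase_of_mem (mem_univ _), card_univ, Fintype.card_fin]
      rfl
    refine closure_step (x₀ := fl i) (y₀ := fr j) hX hY ?_ (mem_map_of_mem _ (mem_univ _))
      (mem_map_of_mem _ (mem_erase.2 ⟨hj'.symm, mem_univ _⟩)) ?_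
    · rw [Finset.disjoint_left]
      intro x hx hx'
      rw [mem_map] at hx hx'
      obtain ⟨a, -, rfl⟩ := hx
      obtain ⟨b, -, hb⟩ := hx'
      have := f.injective hb
      simp at this
    · intro x hx y hy hne
      rw [mem_map] at hx hy
      obtain ⟨a, -, rfl⟩ := hx
      obtain ⟨b, -, rfl⟩ := hy
      refine ih _ ?_ ?_
      · rw [mem_edgeSet, map_adj]
        exact ⟨Sum.inl a, Sum.inr b, by simp [Kst], rfl, rfl⟩
      · intro heq
        rw [Sym2.eq_iff] at heq
        rcases heq with ⟨h1, h2⟩ | ⟨h1, h2⟩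
        · rcases hne with h | h
          · exact h h1
          · exact h h2
        · have := f.injective h1
          simp at this

theorem pc_mono (s t n : ℕ) (ht : 1 ≤ t) : pc n (Kst s t) ≤ pc n (Kst s (t + 1)) := by
  unfold pc
  refine csInf_le_csInf ⟨0, fun x hx => hx.1.le⟩ ?_ ?_
  · refine ⟨1, one_pos, ⟨zero_le_one, le_rfl⟩, ?_⟩
    rw [real_binomialRandom]
    have h1 := Pr_subset (V := Fin n) 1 (allE (Fin n)) subset_rfl
    rw [one_pow] at h1
    have h2 : Pr (V := Fin n) 1 (fun G => allE (Fin n) ⊆ G.edgeFinset) ≤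
        Pr (V := Fin n) 1 (fun G => Percolates (Kst s (t + 1)) G) := by
      refine Pr_mono zero_le_one le_rfl fun G hG => ?_
      unfold Percolates
      rw [eq_top_iff]
      intro u v huv
      have huv' : u ≠ v := huv
      refine ⟨huv', .base ?_⟩
      have h3 : s(u, v) ∈ allE (Fin n) := by
        simp only [allE, mem_filter, mem_univ, true_and, Sym2.mk_isDiag_iff]
        exact huv'
      have h4 := hG h3
      rwa [mem_edgeFinset] at h4
    rw [h1] at h2
    exact le_trans (by norm_num) h2
  · rintro p ⟨hp0, hp, hpr⟩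
    refine ⟨hp0, hp, ?_⟩
    rw [real_binomialRandom] at hpr ⊢
    refine hpr.trans (Pr_mono hp.1 hp.2 fun G hG => ?_)
    unfold Percolates at hG ⊢
    rw [eq_top_iff] at hG ⊢
    intro u v huv
    exact ⟨(hG huv).1, InClosure.of_succ ht (hG huv).2⟩

end MP30c94c
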