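import Mathlib
import Pool.Agent.Lib.MP30c94c.KDefs
import Pool.Agent.Lib.MP30c94c.SM

/-!
# Rooted second moment for rooted graphs of logarithmic size
-/

open SimpleGraph Finset Filter

namespace MP30c94c

attribute [local instance] Classical.propDecidable

section
variable {T : Type*} [Fintype T] {V : Type*} [Fintype V]

/-- number of edges -/
noncomputable def kN (F : SimpleGraph T) : ℕ := F.edgeFinset.card

/-- edges of the copy `f` of `F` -/
noncomputable def kE (F : SimpleGraph T) (f : T ↪ V) : Finset (Sym2 V) :=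
  F.edgeFinset.image (Sym2.map f)

lemma kE_card (F : SimpleGraph T) (f : T ↪ V) : (kE F f).card = kN F :=
  card_image_of_injective _ (Sym2.map.injective f.injective)

lemma kE_sub (F : SimpleGraph T) (f : T ↪ V) : kE F f ⊆ allE V := by
  intro e he
  simp only [kE, mem_image] at he
  obtain ⟨e0, h0, rfl⟩ := he
  simp only [allE, mem_filter, mem_univ, true_and]
  rw [mem_edgeFinset] at h0
  induction e0 with
  | _ a b =>
    rw [mem_edgeSet] at h0
    rw [Sym2.map_mk]
    simp only [Sym2.mk_isDiag_iff]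
    intro h
    exact h0.ne (f.injective h)

lemma kE_adj (F : SimpleGraph T) (G : SimpleGraph V) (f : T ↪ V)
    (hf : kE F f ⊆ G.edgeFinset) : ∀ x y, F.Adj x y → G.Adj (f x) (f y) := by
  intro a b hab
  have : s(f a, f b) ∈ kE F f := by
    simp only [kE, mem_image]
    exact ⟨s(a, b), by simpa using hab, rfl⟩
  simpa using hf this

/-- vertices of the copy `f` lying in the copy `g` -/
noncomputable def kU (f g : T ↪ V) : Finset T := univ.filter fun w => ∃ v, g v = f w

lemma kE_inter (F : SimpleGraph T) (f g : T ↪ V) :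
    (kE F f ∩ kE F g).card ≤ eIn F (kU f g) := by
  have h : kE F f ∩ kE F g ⊆
      (F.edgeFinset.filter fun e => ∀ v ∈ e, v ∈ kU f g).image (Sym2.map f) := by
    intro e he
    rw [mem_inter] at he
    obtain ⟨h1, h2⟩ := he
    simp only [kE, mem_image] at h1 h2
    obtain ⟨e1, h11, rfl⟩ := h1
    obtain ⟨e2, h21, h22⟩ := h2
    rw [mem_image]
    refine ⟨e1, ?_, rfl⟩
    rw [mem_filter]
    refine ⟨h11, fun v hv => ?_⟩
    simp only [kU, mem_filter, mem_univ, true_and]
    have : f v ∈ Sym2.map f e1 := Sym2.mem_map.2 ⟨v, hv, rfl⟩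
    rw [← h22, Sym2.mem_map] at this
    obtain ⟨w, _, hw⟩ := this
    exact ⟨w, hw⟩
  exact (card_le_card h).trans card_image_le

lemma kE_union (F : SimpleGraph T) (f g : T ↪ V) :
    2 * kN F ≤ (kE F f ∪ kE F g).card + eIn F (kU f g) := by
  have h1 := card_union_add_card_inter (kE F f) (kE F g)
  have h2 := kE_inter F f g
  rw [kE_card, kE_card] at h1
  omega

lemma kE_union_le (F : SimpleGraph T) (f g : T ↪ V) :
    (kE F f ∪ kE F g).card ≤ 2 * kN F := by
  have h1 := card_union_le (kE F f) (kE F g)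
  rw [kE_card, kE_card] at h1
  omega

lemma eIn_eq_zero (G : SimpleGraph V) (U : Finset V) (h : ∀ a ∈ U, ∀ b ∈ U, ¬ G.Adj a b) :
    eIn G U = 0 := by
  unfold eIn
  rw [card_eq_zero, filter_eq_empty_iff]
  intro z hz hz2
  induction z with
  | _ a b =>
    rw [mem_edgeFinset, mem_edgeSet] at hz
    exact h a (hz2 a (by simp)) b (hz2 b (by simp)) hz

/-- indicator -/
noncomputable def kI (A : Prop) : ℝ := if A then 1 else 0

lemma Pr_eq_kI (p : ℝ) (A : SimpleGraph V → Prop) : Ex p (fun G => kI (A G)) = Pr p A := rfl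

lemma kI_mul (A B : Prop) : kI A * kI B = kI (A ∧ B) := by
  by_cases hA : A <;> by_cases hB : B <;> simp [kI, hA, hB]

/-- number of copies from the set `R` present in `G` -/
noncomputable def kX (F : SimpleGraph T) (R : Finset (T ↪ V)) (G : SimpleGraph V) : ℝ :=
  ∑ f ∈ R, kI (kE F f ⊆ G.edgeFinset)

lemma kX_Ex (p : ℝ) (F : SimpleGraph T) (R : Finset (T ↪ V)) :
    Ex p (kX F R) = R.card * p ^ kN F := by
  have h0 : Ex p (kX F R) = ∑ f ∈ R, Pr p (fun G => kE F f ⊆ G.edgeFinset) := by
    unfold kX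
    rw [Ex_sum p R (fun f G => kI (kE F f ⊆ G.edgeFinset))]
    rfl
  rw [h0, sum_congr rfl (fun f _ => Pr_subset p (kE F f) (kE_sub F f)),
    sum_congr rfl (fun f _ => by rw [kE_card])]
  simp

lemma kX_Ex2 (p : ℝ) (F : SimpleGraph T) (R : Finset (T ↪ V)) :
    Ex p (fun G => kX F R G ^ 2) = ∑ f ∈ R, ∑ g ∈ R, p ^ (kE F f ∪ kE F g).card := by
  have : (fun G : SimpleGraph V => kX F R G ^ 2) =
      fun G => ∑ f ∈ R, ∑ g ∈ R, kI (kE F f ∪ kE F g ⊆ G.edgeFinset) := by
    ext G
    rw [kX, sq, Finset.sum_mul_sum]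
    refine sum_congr rfl fun f _ => sum_congr rfl fun g _ => ?_
    rw [kI_mul]
    congr 1
    exact propext union_subset_iff.symm
  rw [this, Ex_sum p R (fun f G => ∑ g ∈ R, kI (kE F f ∪ kE F g ⊆ G.edgeFinset))]
  refine sum_congr rfl fun f _ => ?_
  rw [Ex_sum p R (fun g G => kI (kE F f ∪ kE F g ⊆ G.edgeFinset))]
  refine sum_congr rfl fun g _ => ?_
  exact Pr_subset p _ (union_subset (kE_sub F f) (kE_sub F g))

end

section
variable {W : Type} [Fintype W] {V : Type} [Fintype V]

/-- rooted embeddings -/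
noncomputable def rs (W : Type) [Fintype W] {V : Type} [Fintype V] (u v : V) :
    Finset ((W ⊕ Fin 2) ↪ V) :=
  univ.filter fun f => f (Sum.inr 0) = u ∧ f (Sum.inr 1) = v

lemma mem_rs {u v : V} {f : (W ⊕ Fin 2) ↪ V} :
    f ∈ rs W u v ↔ f (Sum.inr 0) = u ∧ f (Sum.inr 1) = v := by
  simp [rs]

lemma rs_card_ge {u v : V} (huv : u ≠ v) :
    (Fintype.card V - 2).descFactorial (Fintype.card W) ≤ (rs W u v).card := by
  have h1 : Fintype.card {x : V // x ≠ u ∧ x ≠ v} = Fintype.card V - 2 := by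
    rw [Fintype.card_subtype]
    have : (univ.filter fun x : V => x ≠ u ∧ x ≠ v) = univ \ {u, v} := by
      ext x; simp
    rw [this, card_sdiff_of_subset (subset_univ _), card_univ, card_pair huv]
  have h2 : (Fintype.card V - 2).descFactorial (Fintype.card W) =
      (univ : Finset (W ↪ {x : V // x ≠ u ∧ x ≠ v})).card := by
    rw [card_univ, Fintype.card_embedding_eq, h1]
  rw [h2]
  have hinj : ∀ h : W ↪ {x : V // x ≠ u ∧ x ≠ v}, Function.Injective
      (Sum.elim (fun w => (h w).1) (fun i : Fin 2 => if i = 0 then u else v)) := by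
    intro h
    rintro (a | a) (b | b) hab
    · simp only [Sum.elim_inl] at hab
      rw [h.injective (Subtype.ext hab)]
    · simp only [Sum.elim_inl, Sum.elim_inr] at hab
      exfalso
      have := (h a).2
      split_ifs at hab
      · exact this.1 hab
      · exact this.2 hab
    · simp only [Sum.elim_inl, Sum.elim_inr] at hab
      exfalso
      have := (h b).2
      split_ifs at hab
      · exact this.1 hab.symm
      · exact this.2 hab.symm
    · simp only [Sum.elim_inr] at hab
      by_cases ha : a = 0 <;> by_cases hb : b = 0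
      · rw [ha, hb]
      · rw [if_pos ha, if_neg hb] at hab; exact absurd hab huv
      · rw [if_neg ha, if_pos hb] at hab; exact absurd hab.symm huv
      · congr 1
        omega
  refine card_le_card_of_injOn (fun h => ⟨_, hinj h⟩) ?_ ?_
  · intro h _
    rw [mem_coe, mem_rs]
    exact ⟨by simp, by simp⟩
  · intro h _ h' _ heq
    ext w
    have := DFunLike.congr_fun heq (Sum.inl w)
    simp only [Function.Embedding.coeFn_mk, Sum.elim_inl] at this
    rw [this]

/-- non-root vertices of the copy `f` lying in the copy `g` -/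
noncomputable def rsU (f g : (W ⊕ Fin 2) ↪ V) : Finset W :=
  univ.filter fun w => ∃ y : W, g (Sum.inl y) = f (Sum.inl w)

lemma kU_eq {u v : V} {f g : (W ⊕ Fin 2) ↪ V}
    (hf : f ∈ rs W u v) (hg : g ∈ rs W u v) (F : SimpleGraph (W ⊕ Fin 2)) :
    eIn F (kU f g) = eR F (rsU f g) := by
  unfold eR
  have : kU f g = (rsU f g).map ⟨Sum.inl, Sum.inl_injective⟩ ∪ {Sum.inr 0, Sum.inr 1} := by
    rw [mem_rs] at hf hg
    ext x
    rw [mem_union, Finset.mem_map, mem_insert, mem_singleton, kU, mem_filter]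
    simp only [mem_univ, true_and, rsU, mem_filter, Function.Embedding.coeFn_mk]
    rcases x with w | i
    · constructor
      · rintro ⟨y, hy⟩
        rcases y with y | j
        · exact Or.inl ⟨w, ⟨y, hy⟩, rfl⟩
        · exfalso
          have h3 : g (Sum.inr j) = f (Sum.inr j) := by
            by_cases hj : j = 0
            · rw [hj]; exact hg.1.trans hf.1.symm
            · have : j = 1 := by omega
              rw [this]; exact hg.2.trans hf.2.symm
          rw [h3] at hy
          have := f.injective hy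
          exact absurd this (by simp)
      · rintro (⟨w', ⟨y, hy⟩, hw⟩ | h | h)
        · rw [Sum.inl.injEq] at hw
          subst hw
          exact ⟨Sum.inl y, hy⟩
        · exact absurd h (by simp)
        · exact absurd h (by simp)
    · constructor
      · intro _
        right
        by_cases hj : i = 0
        · left; rw [hj]
        · right
          have : i = 1 := by omega
          rw [this]
      · intro _
        by_cases hj : i = 0
        · exact ⟨Sum.inr 0, by rw [hj]; exact hg.1.trans hf.1.symm⟩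
        · have : i = 1 := by omega
          exact ⟨Sum.inr 1, by rw [this]; exact hg.2.trans hf.2.symm⟩
  rw [this]

lemma rs_count {u v : V} (U : Finset W) (g : (W ⊕ Fin 2) ↪ V) :
    ((rs W u v).filter fun f => U ⊆ rsU f g).card ≤
      (Fintype.card W) ^ U.card * (Fintype.card V) ^ (Fintype.card W - U.card) := by
  have h1 : ((rs W u v).filter fun f => U ⊆ rsU f g).card ≤
      (Fintype.piFinset (fun w : W => if w ∈ U then univ.image (fun y : W => g (Sum.inl y)) else
        (univ : Finset V))).card := by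
    refine card_le_card_of_injOn (fun f w => f (Sum.inl w)) ?_ ?_
    · intro f hf
      rw [mem_coe, mem_filter] at hf
      rw [mem_coe, Fintype.mem_piFinset]
      intro w
      by_cases hw : w ∈ U
      · rw [if_pos hw]
        have := hf.2 hw
        simp only [rsU, mem_filter, mem_univ, true_and] at this
        obtain ⟨y, hy⟩ := this
        exact mem_image.2 ⟨y, mem_univ _, hy⟩
      · rw [if_neg hw]
        exact mem_univ _
    · intro f hf f' hf' h
      rw [mem_coe, mem_filter] at hf hf'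
      have h1 := mem_rs.1 hf.1
      have h2 := mem_rs.1 hf'.1
      ext x
      rcases x with w | i
      · exact congrFun h w
      · by_cases hj : i = 0
        · rw [hj]; exact h1.1.trans h2.1.symm
        · have : i = 1 := by omega
          rw [this]; exact h1.2.trans h2.2.symm
  refine h1.trans ?_
  rw [Fintype.card_piFinset]
  have h2 : ∀ w : W, (if w ∈ U then univ.image (fun y : W => g (Sum.inl y)) else
      (univ : Finset V)).card = if w ∈ U then Fintype.card W else Fintype.card V := by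
    intro w
    by_cases hw : w ∈ U
    · rw [if_pos hw, if_pos hw, card_image_of_injective _ (fun a b h => by
        simpa using g.injective h), card_univ]
    · rw [if_neg hw, if_neg hw, card_univ]
  rw [prod_congr rfl (fun w _ => h2 w), prod_ite, prod_const, prod_const]
  refine le_of_eq ?_
  congr 2
  · rw [Finset.filter_mem_eq_inter, univ_inter]
  · rw [Finset.filter_not, Finset.filter_mem_eq_inter, univ_inter, ← Finset.compl_eq_univ_sdiff,
      card_compl]

lemma rs_var {p : ℝ} (h0 : 0 < p) (h1 : p ≤ 1) (F : SimpleGraph (W ⊕ Fin 2))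
    (hF : ¬ F.Adj (Sum.inr 0) (Sum.inr 1)) (u v : V) :
    (∑ f ∈ rs W u v, ∑ g ∈ rs W u v, p ^ (kE F f ∪ kE F g).card) ≤
      ((rs W u v).card * p ^ kN F) ^ 2 +
      ∑ U ∈ (univ : Finset (Finset W)).filter (fun U => U.Nonempty),
        (rs W u v).card * ((Fintype.card W : ℝ) ^ U.card *
          (Fintype.card V : ℝ) ^ (Fintype.card W - U.card)) *
        (p ^ (2 * kN F) * (p ^ eR F U)⁻¹) := by
  set e := kN F with he
  have hempty : eR F ∅ = 0 := by
    unfold eR
    apply eIn_eq_zero
    intro a ha b hb hab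
    rw [Finset.map_empty, empty_union, mem_insert, mem_singleton] at ha hb
    rcases ha with rfl | rfl <;> rcases hb with rfl | rfl
    · exact hab.ne rfl
    · exact hF hab
    · exact hF hab.symm
    · exact hab.ne rfl
  have hpair : ∀ f ∈ rs W u v, ∀ g ∈ rs W u v, p ^ (kE F f ∪ kE F g).card ≤
      p ^ (2 * e) + ∑ U ∈ (univ : Finset (Finset W)).filter (fun U => U.Nonempty),
        (if U ⊆ rsU f g then p ^ (2 * e) * (p ^ eR F U)⁻¹ else 0) := by
    intro f hf g hg
    have hc := kE_union F f g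
    have hc2 := kE_union_le F f g
    rw [kU_eq hf hg] at hc
    have hnn : ∀ U ∈ (univ : Finset (Finset W)).filter (fun U => U.Nonempty),
        0 ≤ (if U ⊆ rsU f g then p ^ (2 * e) * (p ^ eR F U)⁻¹ else 0) := by
      intro U _
      split_ifs <;> positivity
    rcases (rsU f g).eq_empty_or_nonempty with hU | hU
    · rw [hU, hempty] at hc
      have : (kE F f ∪ kE F g).card = 2 * e := by omega
      rw [this]
      have := Finset.sum_nonneg hnn
      linarith
    · have hs := Finset.single_le_sum hnn (a := rsU f g) (by simp [hU])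
      rw [if_pos (Subset.refl _)] at hs
      have h4 : p ^ (kE F f ∪ kE F g).card ≤ p ^ (2 * e) * (p ^ eR F (rsU f g))⁻¹ := by
        rw [← div_eq_mul_inv, le_div_iff₀ (by positivity), ← pow_add]
        exact pow_le_pow_of_le_one h0.le h1 hc
      have h2 : (0:ℝ) ≤ p ^ (2 * e) := by positivity
      linarith
  calc (∑ f ∈ rs W u v, ∑ g ∈ rs W u v, p ^ (kE F f ∪ kE F g).card)
      ≤ ∑ f ∈ rs W u v, ∑ g ∈ rs W u v, (p ^ (2 * e) +
        ∑ U ∈ (univ : Finset (Finset W)).filter (fun U => U.Nonempty),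
        (if U ⊆ rsU f g then p ^ (2 * e) * (p ^ eR F U)⁻¹ else 0)) :=
        sum_le_sum fun f hf => sum_le_sum fun g hg => hpair f hf g hg
    _ = ((rs W u v).card * p ^ e) ^ 2 +
        ∑ U ∈ (univ : Finset (Finset W)).filter (fun U => U.Nonempty),
        (∑ g ∈ rs W u v, (((rs W u v).filter fun f => U ⊆ rsU f g).card : ℝ)) *
          (p ^ (2 * e) * (p ^ eR F U)⁻¹) := by
        simp_rw [Finset.sum_add_distrib]
        congr 1
        · simp only [sum_const, nsmul_eq_mul]
          ring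
        · rw [Finset.sum_congr rfl (fun f _ => Finset.sum_comm), Finset.sum_comm]
          refine sum_congr rfl fun U _ => ?_
          rw [Finset.sum_comm, Finset.sum_mul]
          refine sum_congr rfl fun g _ => ?_
          rw [← Finset.sum_filter, sum_const, nsmul_eq_mul]
    _ ≤ _ := by
        refine add_le_add le_rfl (sum_le_sum fun U _ => ?_)
        refine mul_le_mul_of_nonneg_right ?_ (by positivity)
        calc ∑ g ∈ rs W u v, (((rs W u v).filter fun f => U ⊆ rsU f g).card : ℝ)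
            ≤ ∑ g ∈ rs W u v, ((Fintype.card W : ℝ) ^ U.card *
                (Fintype.card V : ℝ) ^ (Fintype.card W - U.card)) :=
              sum_le_sum fun g _ => by exact_mod_cast rs_count U g
          _ = _ := by rw [sum_const, nsmul_eq_mul]

lemma rs_prob {p : ℝ} (h0 : 0 < p) (h1 : p ≤ 1) (F : SimpleGraph (W ⊕ Fin 2))
    (hF : ¬ F.Adj (Sum.inr 0) (Sum.inr 1)) (u v : V) (δ : ℝ) (hδ : 0 ≤ δ)
    (hV : 0 < Fintype.card V)
    (hbig : (Fintype.card V : ℝ) ^ Fintype.card W ≤ 2 * (rs W u v).card)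
    (hU : ∀ U : Finset W, U.Nonempty → 1 ≤ δ ^ U.card * (Fintype.card V : ℝ) ^ U.card * p ^ eR F U) :
    Pr p (fun G : SimpleGraph V => ¬ RootedIn F G u v) ≤
      2 * ((1 + Fintype.card W * δ) ^ Fintype.card W - 1) := by
  set m := Fintype.card W with hm
  set n := Fintype.card V with hn
  set R := rs W u v with hR
  have hn0 : (0:ℝ) < n := by exact_mod_cast hV
  have hR0 : (0:ℝ) < R.card := by
    have : (0:ℝ) < (n : ℝ) ^ m := by positivity
    linarith
  have hμ0 : 0 < (R.card : ℝ) * p ^ kN F := by positivity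
  have hch := sm_cheb h0.le h1 (kX F R) (fun G : SimpleGraph V => ¬ RootedIn F G u v)
    (R.card * p ^ kN F) hμ0 (kX_Ex p F R) (by
      intro G hG
      unfold kX
      refine Finset.sum_eq_zero fun f hf => ?_
      unfold kI
      rw [if_neg]
      intro h
      rw [hR, mem_rs] at hf
      exact hG ⟨f, hf.1, hf.2, kE_adj F G f h⟩)
  rw [kX_Ex2] at hch
  have hv := rs_var h0 h1 F hF u v
  rw [← hm, ← hn, ← hR] at hv
  refine hch.trans ?_
  rw [div_le_iff₀ (by positivity)]
  have hsum : ∑ U ∈ (univ : Finset (Finset W)).filter (fun U => U.Nonempty),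
      (m * δ) ^ U.card = (1 + m * δ) ^ m - 1 := by
    have h2 := Fintype.sum_pow_mul_eq_add_pow W (m * δ) 1
    simp only [one_pow, mul_one] at h2
    rw [← hm, add_comm] at h2
    rw [← h2, ← Finset.sum_filter_add_sum_filter_not univ (fun U : Finset W => U.Nonempty)]
    have h3 : (univ : Finset (Finset W)).filter (fun U => ¬ U.Nonempty) = {∅} := by
      ext U
      simp [Finset.not_nonempty_iff_eq_empty]
    rw [h3]
    simp
  have hterm : ∀ U ∈ (univ : Finset (Finset W)).filter (fun U => U.Nonempty),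
      (R.card : ℝ) * ((m : ℝ) ^ U.card * (n : ℝ) ^ (m - U.card)) *
        (p ^ (2 * kN F) * (p ^ eR F U)⁻¹) ≤
      2 * (m * δ) ^ U.card * ((R.card : ℝ) * p ^ kN F) ^ 2 := by
    intro U hU'
    rw [mem_filter] at hU'
    have hUc : U.card ≤ m := Finset.card_le_univ U
    have h4 := hU U hU'.2
    have e1 : (n : ℝ) ^ m = (n : ℝ) ^ (m - U.card) * (n : ℝ) ^ U.card := by
      rw [← pow_add]
      congr 1
      omega
    have hp : 0 < p ^ eR F U := by positivity
    have h5 : (n : ℝ) ^ (m - U.card) * (p ^ eR F U)⁻¹ ≤ δ ^ U.card * (2 * R.card) := by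
      rw [← div_eq_mul_inv, div_le_iff₀ hp]
      calc (n : ℝ) ^ (m - U.card) = (n : ℝ) ^ (m - U.card) * 1 := (mul_one _).symm
        _ ≤ (n : ℝ) ^ (m - U.card) * (δ ^ U.card * (n : ℝ) ^ U.card * p ^ eR F U) :=
          mul_le_mul_of_nonneg_left h4 (by positivity)
        _ = δ ^ U.card * (n : ℝ) ^ m * p ^ eR F U := by rw [e1]; ring
        _ ≤ δ ^ U.card * (2 * R.card) * p ^ eR F U := by
          refine mul_le_mul_of_nonneg_right ?_ hp.le
          exact mul_le_mul_of_nonneg_left hbig (by positivity)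
    calc (R.card : ℝ) * ((m : ℝ) ^ U.card * (n : ℝ) ^ (m - U.card)) *
        (p ^ (2 * kN F) * (p ^ eR F U)⁻¹)
        = ((R.card : ℝ) * (m : ℝ) ^ U.card * p ^ (2 * kN F)) *
          ((n : ℝ) ^ (m - U.card) * (p ^ eR F U)⁻¹) := by ring
      _ ≤ ((R.card : ℝ) * (m : ℝ) ^ U.card * p ^ (2 * kN F)) * (δ ^ U.card * (2 * R.card)) :=
        mul_le_mul_of_nonneg_left h5 (by positivity)
      _ = 2 * (m * δ) ^ U.card * ((R.card : ℝ) * p ^ kN F) ^ 2 := by
        rw [mul_pow, mul_pow, ← pow_mul, mul_comm (kN F) 2]; ring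
  have h6 := Finset.sum_le_sum hterm
  rw [← Finset.sum_mul, ← Finset.mul_sum, hsum] at h6
  linarith

end

lemma kubs_num (a b B : ℕ) (hb : 0 < b) (hab : b ≤ a) (k e L : ℕ) (hk : 1 ≤ k) (l lam : ℝ)
    (hl : 0 < l) (hlam : 0 < lam) (h6 : 6 * lam ≤ l) (h2B : 2 * (B : ℝ) ≤ l)
    (h3B : (B : ℝ) ≤ 3 * lam) (hL : l ≤ L)
    (h : b * e ≤ a * k ∨ (b * e ≤ a * k + B ∧ L ≤ e + B)) :
    3 * k * lam ≤ (k - (b : ℝ) / a * e) * l + 12 * e * lam := by
  set x : ℝ := (b : ℝ) / a with hx
  have ha0 : (0:ℝ) < a := by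
    have : 0 < a := by omega
    exact_mod_cast this
  have hb0 : (0:ℝ) < b := by exact_mod_cast hb
  have hx0 : 0 < x := by positivity
  have hx1 : x ≤ 1 := by
    rw [hx, div_le_one ha0]
    exact_mod_cast hab
  have hk1 : (1:ℝ) ≤ k := by exact_mod_cast hk
  have he0 : (0:ℝ) ≤ e := by positivity
  by_cases hc : x * e ≤ k / 2
  · have : (k : ℝ) / 2 * l ≤ (k - x * e) * l := mul_le_mul_of_nonneg_right (by linarith) hl.le
    have h7 : 3 * (k : ℝ) * lam ≤ k / 2 * l := by nlinarith
    have h8 : 0 ≤ 12 * (e : ℝ) * lam := by positivity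
    linarith
  · push Not at hc
    have hek : (k : ℝ) / 2 ≤ e := by
      have : x * (e : ℝ) ≤ 1 * e := mul_le_mul_of_nonneg_right hx1 he0
      linarith
    have h9 : 3 * (k : ℝ) * lam ≤ 6 * e * lam := by
      refine mul_le_mul_of_nonneg_right ?_ hlam.le
      linarith
    rcases h with h | ⟨h, h'⟩
    · have h10 : x * e ≤ k := by
        have : (b : ℝ) * e ≤ a * k := by exact_mod_cast h
        rw [hx, div_mul_eq_mul_div, div_le_iff₀ ha0]
        linarith
      have h11 : 0 ≤ ((k : ℝ) - x * e) * l := mul_nonneg (by linarith) hl.le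
      have h12 : 0 ≤ 6 * (e : ℝ) * lam := by positivity
      linarith
    · have h10 : x * e ≤ k + B := by
        have h13 : (b : ℝ) * e ≤ a * k + B := by exact_mod_cast h
        have h14 : (1:ℝ) ≤ a := by
          have : 1 ≤ a := by omega
          exact_mod_cast this
        have h15 : (B : ℝ) ≤ a * B := by
          have : (0:ℝ) ≤ B := by positivity
          nlinarith
        rw [hx, div_mul_eq_mul_div, div_le_iff₀ ha0]
        linarith
      have h11 : -(B : ℝ) * l ≤ ((k : ℝ) - x * e) * l :=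
        mul_le_mul_of_nonneg_right (by linarith) hl.le
      have h16 : l ≤ e + B := by
        have : (L : ℝ) ≤ e + B := by exact_mod_cast h'
        linarith
      have h17 : l / 2 ≤ e := by linarith
      have h18 : (B : ℝ) * l ≤ 6 * e * lam := by
        calc (B : ℝ) * l ≤ (3 * lam) * l := mul_le_mul_of_nonneg_right h3B hl.le
          _ = 6 * lam * (l / 2) := by ring
          _ ≤ 6 * lam * e := mul_le_mul_of_nonneg_left h17 (by positivity)
          _ = _ := by ring
      linarith

theorem rooted_second_moment (a b M B : ℕ) (hb : 0 < b) (hab : b ≤ a) :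
    ∃ C : ℝ, 0 < C ∧ ∀ᶠ n : ℕ in atTop, ∀ (W : Type) [Fintype W] (F : SimpleGraph (W ⊕ Fin 2)),
      Fintype.card W ≤ M * ⌈Real.log n⌉₊ → ¬ F.Adj (Sum.inr 0) (Sum.inr 1) →
      (∀ U : Finset W, b * eR F U ≤ a * U.card ∨
        (b * eR F U ≤ a * U.card + B ∧ ⌈Real.log n⌉₊ ≤ eR F U + B)) →
      ∀ p : ℝ, p = (n : ℝ) ^ (-((b : ℝ) / a)) * (Real.log n) ^ C → p ≤ 1 →
      ∀ u v : Fin n, u ≠ v →
        Pr (V := Fin n) p (fun G => ¬ RootedIn F G u v) ≤ 1 / 2 := by
  refine ⟨12, by norm_num, ?_⟩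
  have hlog : Tendsto (fun n : ℕ => Real.log (n : ℝ)) atTop atTop :=
    Real.tendsto_log_atTop.comp tendsto_natCast_atTop_atTop
  have hloglog : Tendsto (fun n : ℕ => Real.log (Real.log (n : ℝ))) atTop atTop :=
    Real.tendsto_log_atTop.comp hlog
  have hA1 : ∀ᶠ n : ℕ in atTop, 6 * Real.log (Real.log (n : ℝ)) ≤ Real.log n := by
    have h := (Real.isLittleO_log_id_atTop.def (c := 1 / 6) (by norm_num))
    have h2 := hlog.eventually h
    filter_upwards [h2, hlog.eventually_ge_atTop 1, hloglog.eventually_ge_atTop 0] with n hn h1 h0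
    simp only [id, Real.norm_eq_abs] at hn
    rw [abs_of_nonneg h0, abs_of_nonneg (by linarith)] at hn
    linarith
  have hA2 : ∀ᶠ n : ℕ in atTop, (2 * (M : ℝ) + 1) ^ 2 * Real.log n ^ 2 ≤ n / 2 := by
    have h := ((Real.isLittleO_pow_log_id_atTop (n := 2)).def
      (c := 1 / (2 * (2 * (M : ℝ) + 1) ^ 2)) (by positivity))
    have h2 := tendsto_natCast_atTop_atTop.eventually h
    filter_upwards [h2] with n hn
    simp only [id, Real.norm_eq_abs, abs_pow, sq_abs, Nat.abs_cast] at hn
    have h3 : (0:ℝ) < (2 * (M : ℝ) + 1) ^ 2 := by positivity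
    calc (2 * (M : ℝ) + 1) ^ 2 * Real.log n ^ 2
        ≤ (2 * (M : ℝ) + 1) ^ 2 * (1 / (2 * (2 * (M : ℝ) + 1) ^ 2) * n) :=
          mul_le_mul_of_nonneg_left hn h3.le
      _ = n / 2 := by field_simp
  filter_upwards [hA1, hA2, hlog.eventually_ge_atTop 1, hlog.eventually_ge_atTop (2 * (B : ℝ)),
    hlog.eventually_ge_atTop (20 * (M : ℝ) ^ 2), hloglog.eventually_ge_atTop (max 1 ((B : ℝ) / 3)),
    eventually_ge_atTop 3] with n h1 h2 h3 h4 h5 h6 h7
  intro W _ F hW hF hU p hp hp1 u v huv
  set l := Real.log (n : ℝ) with hl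
  set lam := Real.log l with hlam
  have hl0 : 0 < l := by linarith
  have hlam1 : 1 ≤ lam := (le_max_left _ _).trans h6
  have hlamB : (B : ℝ) ≤ 3 * lam := by
    have := (le_max_right _ _).trans h6
    linarith
  have hn0 : (0:ℝ) < n := by
    have : 0 < n := by omega
    exact_mod_cast this
  have hp0 : 0 < p := by
    rw [hp]
    have h8 := Real.rpow_pos_of_pos hn0 (-((b : ℝ) / a))
    have h9 := Real.rpow_pos_of_pos hl0 12
    positivity
  have hlogp : Real.log p = -((b : ℝ) / a) * l + 12 * lam := by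
    rw [hp, Real.log_mul (Real.rpow_pos_of_pos hn0 _).ne' (Real.rpow_pos_of_pos hl0 _).ne',
      Real.log_rpow hn0, Real.log_rpow hl0]
  set m := Fintype.card W with hm
  have hm1 : (m : ℝ) ≤ 2 * M * l := by
    have h8 : (⌈l⌉₊ : ℝ) ≤ l + 1 := (Nat.ceil_lt_add_one hl0.le).le
    calc (m : ℝ) ≤ ((M * ⌈l⌉₊ : ℕ) : ℝ) := by exact_mod_cast hW
      _ = M * (⌈l⌉₊ : ℝ) := by push_cast; rfl
      _ ≤ M * (2 * l) := mul_le_mul_of_nonneg_left (by linarith) (by positivity)
      _ = _ := by ring
  have hmn : ((m : ℝ) + 1) ^ 2 ≤ n / 2 := by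
    refine le_trans ?_ h2
    rw [← mul_pow]
    refine pow_le_pow_left₀ (by positivity) ?_ 2
    linarith
  have hbig : ((Fintype.card (Fin n) : ℕ) : ℝ) ^ Fintype.card W ≤ 2 * (rs W u v).card := by
    have h8 := rs_card_ge (W := W) huv
    rw [Fintype.card_fin, ← hm] at h8
    rw [Fintype.card_fin, ← hm]
    have h9 : (n - 2 + 1 - m) ^ m ≤ (n - 2).descFactorial m := Nat.pow_sub_le_descFactorial _ m
    have hmn2 : (m : ℝ) + 1 ≤ n / 2 := by nlinarith [hmn, (by positivity : (0:ℝ) ≤ m)]
    have hmn3 : m + 1 ≤ n := by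
      have : ((m + 1 : ℕ) : ℝ) ≤ n := by push_cast; linarith
      exact_mod_cast this
    have h10 : ((n - 2 + 1 - m : ℕ) : ℝ) = n * (1 + -((m + 1) / n)) := by
      have : n - 2 + 1 - m = n - (m + 1) := by omega
      rw [this, Nat.cast_sub hmn3]
      push_cast
      field_simp
      ring
    have h11 : (1:ℝ) / 2 ≤ (1 + -(((m : ℝ) + 1) / n)) ^ m := by
      have h12 : (-2:ℝ) ≤ -(((m : ℝ) + 1) / n) := by
        have : ((m : ℝ) + 1) / n ≤ 1 := by rw [div_le_one hn0]; linarith
        linarith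
      have h13 := one_add_mul_le_pow h12 m
      refine le_trans ?_ h13
      have h14 : (m : ℝ) * (((m : ℝ) + 1) / n) ≤ 1 / 2 := by
        rw [← mul_div_assoc, div_le_iff₀ hn0]
        nlinarith [hmn, (by positivity : (0:ℝ) ≤ m)]
      linarith
    have h15 : (n : ℝ) ^ m * (1 / 2) ≤ (rs W u v).card := by
      calc (n : ℝ) ^ m * (1 / 2) ≤ (n : ℝ) ^ m * (1 + -(((m : ℝ) + 1) / n)) ^ m :=
            mul_le_mul_of_nonneg_left h11 (by positivity)
        _ = (((n - 2 + 1 - m : ℕ) : ℝ)) ^ m := by rw [h10, mul_pow]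
        _ ≤ (((n - 2).descFactorial m : ℕ) : ℝ) := by exact_mod_cast h9
        _ ≤ _ := by exact_mod_cast h8
    linarith
  have hδ : (0:ℝ) ≤ (l ^ 3)⁻¹ := by positivity
  have key := rs_prob hp0 hp1 F hF u v (l ^ 3)⁻¹ hδ (by rw [Fintype.card_fin]; omega) hbig (by
    intro U hUne
    have hk : 1 ≤ U.card := hUne.card_pos
    have hnum := kubs_num a b B hb hab U.card (eR F U) ⌈l⌉₊ hk l lam hl0 (by linarith) h1 h4
      hlamB (Nat.le_ceil l) (hU U)
    rw [Fintype.card_fin]
    have e1 : ((l ^ 3)⁻¹) ^ U.card * (n : ℝ) ^ U.card * p ^ eR F U =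
        Real.exp (-(3 * U.card * lam) + ((U.card - (b : ℝ) / a * eR F U) * l +
          12 * eR F U * lam)) := by
      have hpos : 0 < ((l ^ 3)⁻¹) ^ U.card * (n : ℝ) ^ U.card * p ^ eR F U := by positivity
      rw [← Real.exp_log hpos]
      congr 1
      rw [Real.log_mul (by positivity) (by positivity), Real.log_mul (by positivity) (by positivity),
        Real.log_pow, Real.log_pow, Real.log_pow, Real.log_inv, Real.log_pow, hlogp]
      push_cast
      ring
    rw [e1]
    rw [Real.one_le_exp_iff]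
    linarith)
  refine key.trans ?_
  rw [← hm]
  have hx : (m : ℝ) * ((m : ℝ) * (l ^ 3)⁻¹) ≤ 1 / 5 := by
    have h8 : (m : ℝ) * m ≤ (2 * M * l) * (2 * M * l) :=
      mul_le_mul hm1 hm1 (by positivity) (by positivity)
    have h9 : (m : ℝ) * ((m : ℝ) * (l ^ 3)⁻¹) = (m * m) / l ^ 3 := by ring
    rw [h9, div_le_iff₀ (by positivity)]
    calc (m : ℝ) * m ≤ (2 * M * l) * (2 * M * l) := h8
      _ = (20 * (M : ℝ) ^ 2) * (l ^ 2 / 5) := by ring
      _ ≤ l * (l ^ 2 / 5) := mul_le_mul_of_nonneg_right h5 (by positivity)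
      _ = 1 / 5 * l ^ 3 := by ring
  have hy : (1 + (m : ℝ) * (l ^ 3)⁻¹) ^ m ≤ 5 / 4 := by
    have h8 : 1 + (m : ℝ) * (l ^ 3)⁻¹ ≤ Real.exp ((m : ℝ) * (l ^ 3)⁻¹) := by
      have := Real.add_one_le_exp ((m : ℝ) * (l ^ 3)⁻¹)
      linarith
    have h9 : (1 + (m : ℝ) * (l ^ 3)⁻¹) ^ m ≤ Real.exp ((m : ℝ) * ((m : ℝ) * (l ^ 3)⁻¹)) := by
      rw [Real.exp_nat_mul]
      exact pow_le_pow_left₀ (by positivity) h8 m
    have h10 : Real.exp ((m : ℝ) * ((m : ℝ) * (l ^ 3)⁻¹)) ≤ 5 / 4 := by
      have h11 := Real.add_one_le_exp (-((m : ℝ) * ((m : ℝ) * (l ^ 3)⁻¹)))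
      rw [Real.exp_neg] at h11
      have h12 : (4:ℝ) / 5 ≤ (Real.exp ((m : ℝ) * ((m : ℝ) * (l ^ 3)⁻¹)))⁻¹ := by linarith
      have h13 := Real.exp_pos ((m : ℝ) * ((m : ℝ) * (l ^ 3)⁻¹))
      rw [le_inv_comm₀ (by norm_num) h13] at h12
      linarith
    exact h9.trans h10
  linarith

end MP30c94c
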