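import Mathlib
import Pool.Agent.Lib.MP30c94c.KUBS

/-!
# Upper bound from gadgets: sprinkling
-/

open SimpleGraph Finset Filter

namespace MP30c94c

attribute [local instance] Classical.propDecidable

/-- an increasing property -/
def Incr {V : Type} (A : SimpleGraph V → Prop) : Prop := ∀ G G', G ≤ G' → A G → A G'

/-- weighted sum over subsets of `E` -/
private noncomputable def SP {α : Type} (p : ℝ) (E : Finset α) (f : Finset α → ℝ) : ℝ :=
  ∑ ω ∈ E.powerset, p ^ ω.card * (1 - p) ^ (E.card - ω.card) * f ω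

private lemma SP_insert {α : Type} (p : ℝ) (E : Finset α) (e : α) (he : e ∉ E)
    (f : Finset α → ℝ) :
    SP p (insert e E) f = p * SP p E (fun ω => f (insert e ω)) + (1 - p) * SP p E f := by
  unfold SP
  rw [Finset.sum_powerset_insert he, Finset.mul_sum, Finset.mul_sum, add_comm]
  congr 1
  · refine Finset.sum_congr rfl fun ω hω => ?_
    have h1 : e ∉ ω := fun h => he (mem_powerset.1 hω h)
    rw [card_insert_of_notMem h1, card_insert_of_notMem he,
      show E.card + 1 - (ω.card + 1) = E.card - ω.card by omega, pow_succ]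
    ring
  · refine Finset.sum_congr rfl fun ω hω => ?_
    have h1 : ω.card ≤ E.card := card_le_card (mem_powerset.1 hω)
    rw [card_insert_of_notMem he, show E.card + 1 - ω.card = E.card - ω.card + 1 by omega,
      pow_succ]
    ring

private lemma SP_add {α : Type} (p : ℝ) (E : Finset α) (a b : ℝ) (f g : Finset α → ℝ) :
    SP p E (fun ω => a * f ω + b * g ω) = a * SP p E f + b * SP p E g := by
  unfold SP
  rw [Finset.mul_sum, Finset.mul_sum, ← Finset.sum_add_distrib]
  exact Finset.sum_congr rfl fun ω _ => by ring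

private lemma SP_union {α : Type} (p q : ℝ) (E : Finset α) : ∀ f : Finset α → ℝ,
    SP (1 - (1 - p) * (1 - q)) E f = SP p E (fun ω₁ => SP q E (fun ω₂ => f (ω₁ ∪ ω₂))) := by
  induction E using Finset.induction_on with
  | empty =>
    intro f
    simp [SP]
  | insert e E he ih =>
    intro f
    have h1 : ∀ ω₁ : Finset α, SP q (insert e E) (fun ω₂ => f (ω₁ ∪ ω₂)) =
        q * SP q E (fun ω₂ => f (insert e (ω₁ ∪ ω₂))) + (1 - q) * SP q E (fun ω₂ => f (ω₁ ∪ ω₂)) := by
      intro ω₁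
      rw [SP_insert q E e he]
      simp only [union_insert]
    have h2 : ∀ ω₁ : Finset α, SP q (insert e E) (fun ω₂ => f (insert e ω₁ ∪ ω₂)) =
        1 * SP q E (fun ω₂ => f (insert e (ω₁ ∪ ω₂))) + 0 * SP q E (fun ω₂ => f (ω₁ ∪ ω₂)) := by
      intro ω₁
      rw [SP_insert q E e he]
      simp only [union_insert, insert_union, insert_idem]
      ring
    rw [SP_insert _ E e he, SP_insert p E e he]
    simp only [h2]
    simp only [h1]
    rw [SP_add, SP_add, ih, ih]
    ring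

private lemma Pr_eq_SP {V : Type} [Fintype V] (p : ℝ) (A : SimpleGraph V → Prop) :
    Pr p A = SP p (allE V) (fun ω => if A (fromEdgeSet (ω : Set (Sym2 V))) then 1 else 0) := by
  unfold SP
  rw [← sum_graph_eq (V := V)]
  unfold Pr Ex wt
  refine Finset.sum_congr rfl fun G _ => ?_
  simp only [coe_edgeFinset, fromEdgeSet_edgeSet]

private lemma SP_mono {α : Type} {p : ℝ} (h0 : 0 ≤ p) (h1 : p ≤ 1) (E : Finset α)
    {f g : Finset α → ℝ} (h : ∀ ω, f ω ≤ g ω) : SP p E f ≤ SP p E g := by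
  unfold SP
  refine Finset.sum_le_sum fun ω _ => ?_
  have := sub_nonneg.2 h1
  exact mul_le_mul_of_nonneg_left (h ω) (by positivity)

private lemma SP_smul {α : Type} (p : ℝ) (E : Finset α) (a : ℝ) (f : Finset α → ℝ) :
    SP p E (fun ω => a * f ω) = a * SP p E f := by
  unfold SP
  rw [Finset.mul_sum]
  exact Finset.sum_congr rfl fun ω _ => by ring

/-- the union of two independent random graphs -/
theorem Pr_not_union_le {V : Type} [Fintype V] {p q : ℝ} (hp0 : 0 ≤ p) (hp1 : p ≤ 1)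
    (hq0 : 0 ≤ q) (hq1 : q ≤ 1) {A : SimpleGraph V → Prop} (hA : Incr A) :
    Pr (1 - (1 - p) * (1 - q)) (fun G => ¬ A G) ≤
      Pr p (fun G => ¬ A G) * Pr q (fun G => ¬ A G) := by
  rw [Pr_eq_SP, Pr_eq_SP, Pr_eq_SP, SP_union, mul_comm, ← SP_smul]
  refine SP_mono hp0 hp1 _ fun ω₁ => ?_
  rw [mul_comm, ← SP_smul]
  refine SP_mono hq0 hq1 _ fun ω₂ => ?_
  have key : ∀ (G1 G2 G : SimpleGraph V) (i0 : Decidable (¬ A G)) (i1 : Decidable (¬ A G1))
      (i2 : Decidable (¬ A G2)), G1 ≤ G → G2 ≤ G →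
      @ite ℝ (¬ A G) i0 1 0 ≤ @ite ℝ (¬ A G1) i1 1 0 * @ite ℝ (¬ A G2) i2 1 0 := by
    intro G1 G2 G i0 i1 i2 hle1 hle2
    by_cases h : A G
    · simp only [h, not_true_eq_false, if_false]
      split_ifs <;> norm_num
    · have h1 : ¬ A G1 := fun h' => h (hA _ _ hle1 h')
      have h2 : ¬ A G2 := fun h' => h (hA _ _ hle2 h')
      simp only [h, h1, h2, not_false_eq_true, if_true, mul_one, le_refl]
  refine key _ _ _ _ _ _ ?_ ?_
  · apply fromEdgeSet_mono
    intro x hx
    exact (@Finset.mem_union _ (_) _ _ _).2 (Or.inl hx)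
  · apply fromEdgeSet_mono
    intro x hx
    exact (@Finset.mem_union _ (_) _ _ _).2 (Or.inr hx)

/-- `r` rounds of exposure -/
theorem Pr_not_pow_le {V : Type} [Fintype V] {p : ℝ} (hp0 : 0 ≤ p) (hp1 : p ≤ 1)
    {A : SimpleGraph V → Prop} (hA : Incr A) (r : ℕ) :
    Pr (1 - (1 - p) ^ r) (fun G => ¬ A G) ≤ Pr p (fun G => ¬ A G) ^ r := by
  have h1p : 0 ≤ 1 - p := by linarith
  have h1p' : 1 - p ≤ 1 := by linarith
  induction r with
  | zero =>
    rw [pow_zero, pow_zero]
    exact Pr_le_one (by norm_num) (by norm_num) _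
  | succ r ih =>
    have hr0 : 0 ≤ 1 - (1 - p) ^ r := by
      have := pow_le_one₀ (n := r) h1p h1p'
      linarith
    have hr1 : 1 - (1 - p) ^ r ≤ 1 := by
      have : 0 ≤ (1 - p) ^ r := by positivity
      linarith
    have h := Pr_not_union_le hr0 hr1 hp0 hp1 hA
    rw [show 1 - (1 - (1 - (1 - p) ^ r)) * (1 - p) = 1 - (1 - p) ^ (r + 1) by ring] at h
    refine h.trans ?_
    rw [pow_succ]
    exact mul_le_mul_of_nonneg_right ih (Pr_nonneg hp0 hp1 _)

private lemma incr_rootedIn {W V : Type} (F : SimpleGraph (W ⊕ Fin 2)) (u v : V) :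
    Incr (fun G : SimpleGraph V => RootedIn F G u v) := by
  intro G G' hle h
  obtain ⟨f, h1, h2, h3⟩ := h
  exact ⟨f, h1, h2, fun x y hxy => hle (h3 x y hxy)⟩

/-- The upper bound. -/
theorem upper_of_gadgets {W₀ : Type} (H : SimpleGraph W₀) (a b : ℕ) (hb : 0 < b) (hab : b ≤ a)
    (h : HasGadgets H a b) :
    ∃ C : ℝ, 0 < C ∧ ∀ᶠ n : ℕ in atTop,
      pc n H ≤ (n : ℝ) ^ (-((b : ℝ) / a)) * (Real.log n) ^ C := by
  obtain ⟨M, B, hMB⟩ := h
  obtain ⟨C, hC, hev⟩ := rooted_second_moment a b M B hb hab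
  refine ⟨C + 2, by linarith, ?_⟩
  have haR : (0 : ℝ) < a := by exact_mod_cast (hb.trans_le hab)
  have hbR : (0 : ℝ) < b := by exact_mod_cast hb
  have hba : 0 < (b : ℝ) / a := by positivity
  -- logarithms tend to infinity
  have hlog : Tendsto (fun n : ℕ => Real.log (n : ℝ)) atTop atTop :=
    Real.tendsto_log_atTop.comp tendsto_natCast_atTop_atTop
  have hp1ev : ∀ᶠ n : ℕ in atTop, (n : ℝ) ^ (-((b : ℝ) / a)) * (Real.log n) ^ C ≤ 1 := by
    have h1 : (fun x : ℝ => (Real.log x) ^ C) =o[atTop] fun x : ℝ => x ^ ((b : ℝ) / a) :=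
      isLittleO_log_rpow_rpow_atTop C hba
    have h2 : ∀ᶠ x : ℝ in atTop, ‖(Real.log x) ^ C‖ ≤ 1 * ‖x ^ ((b : ℝ) / a)‖ :=
      h1.bound one_pos
    have h3 := tendsto_natCast_atTop_atTop (R := ℝ) |>.eventually h2
    filter_upwards [h3, eventually_gt_atTop 1] with n hn hn1
    have hn0 : (0 : ℝ) < n := by exact_mod_cast (by omega : 0 < n)
    have hpos : 0 < (n : ℝ) ^ ((b : ℝ) / a) := Real.rpow_pos_of_pos hn0 _
    rw [one_mul, Real.norm_of_nonneg hpos.le] at hn
    have h4 := (le_abs_self _).trans hn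
    rw [Real.rpow_neg hn0.le]
    calc ((n : ℝ) ^ ((b : ℝ) / a))⁻¹ * (Real.log n) ^ C
        ≤ ((n : ℝ) ^ ((b : ℝ) / a))⁻¹ * (n : ℝ) ^ ((b : ℝ) / a) :=
          mul_le_mul_of_nonneg_left h4 (by positivity)
      _ = 1 := inv_mul_cancel₀ hpos.ne'
  filter_upwards [hev, hp1ev, hlog.eventually_ge_atTop 6, eventually_ge_atTop 3]
    with n hn hp1 hl6 hn3
  have hn0 : (0 : ℝ) < n := by exact_mod_cast (by omega : 0 < n)
  have hl0 : 0 < Real.log n := by linarith
  set p : ℝ := (n : ℝ) ^ (-((b : ℝ) / a)) * (Real.log n) ^ C with hp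
  have hp0 : 0 < p := mul_pos (Real.rpow_pos_of_pos hn0 _) (Real.rpow_pos_of_pos hl0 _)
  have hL1 : 1 ≤ ⌈Real.log n⌉₊ := Nat.one_le_iff_ne_zero.2 (Nat.ceil_pos.2 hl0).ne'
  obtain ⟨W, hW, F, hcard, hadj, hbal, hmake⟩ := hMB _ hL1
  have hhalf : ∀ u v : Fin n, u ≠ v → Pr (V := Fin n) p (fun G => ¬ RootedIn F G u v) ≤ 1 / 2 :=
    fun u v huv => hn W F hcard hadj hbal p hp hp1 u v huv
  set r : ℕ := ⌈3 * Real.log n / Real.log 2⌉₊ with hr
  have hlog2 : (0 : ℝ) < Real.log 2 := Real.log_pos (by norm_num)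
  have hrge : 3 * Real.log n / Real.log 2 ≤ r := Nat.le_ceil _
  have hrpos : 0 < r := Nat.ceil_pos.2 (by positivity)
  have hrle : (r : ℝ) < 3 * Real.log n / Real.log 2 + 1 := Nat.ceil_lt_add_one (by positivity)
  have h1p : 0 ≤ 1 - p := by linarith
  have h1p' : 1 - p < 1 := by linarith
  set p' : ℝ := 1 - (1 - p) ^ r with hp'
  have hp'0 : 0 < p' := by
    have : (1 - p) ^ r < 1 := pow_lt_one₀ h1p h1p' hrpos.ne'
    linarith
  have hp'1 : p' ≤ 1 := by
    have : 0 ≤ (1 - p) ^ r := by positivity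
    linarith
  -- the union bound
  have hfail : ∀ u v : Fin n, u ≠ v →
      Pr (V := Fin n) p' (fun G => ¬ RootedIn F G u v) ≤ (1 / 2) ^ r := by
    intro u v huv
    refine (Pr_not_pow_le hp0.le hp1 (incr_rootedIn F u v) r).trans ?_
    exact pow_le_pow_left₀ (Pr_nonneg hp0.le hp1 _) (hhalf u v huv) r
  have hpow : (n : ℝ) ^ 3 ≤ 2 ^ r := by
    have h1 : Real.log ((n : ℝ) ^ 3) ≤ Real.log (2 ^ r) := by
      rw [Real.log_pow, Real.log_pow]
      rw [div_le_iff₀ hlog2] at hrge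
      push_cast
      exact hrge
    exact (Real.log_le_log_iff (by positivity) (by positivity)).1 h1
  set s : Finset (Fin n × Fin n) := univ.filter (fun z => z.1 ≠ z.2) with hs
  have hscard : (s.card : ℝ) ≤ (n : ℝ) ^ 2 := by
    have h1 : s.card ≤ Fintype.card (Fin n × Fin n) := card_le_univ _
    rw [Fintype.card_prod, Fintype.card_fin] at h1
    have : (s.card : ℝ) ≤ (n * n : ℕ) := by exact_mod_cast h1
    rw [pow_two]
    push_cast at this
    exact this
  have hunion : Pr (V := Fin n) p' (fun G => ∃ z ∈ s, ¬ RootedIn F G z.1 z.2) ≤ 1 / 2 := by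
    refine (Pr_exists_le hp'0.le hp'1 s (fun z G => ¬ RootedIn F G z.1 z.2)).trans ?_
    calc ∑ z ∈ s, Pr (V := Fin n) p' (fun G => ¬ RootedIn F G z.1 z.2)
        ≤ ∑ _z ∈ s, (1 / 2 : ℝ) ^ r := by
          refine Finset.sum_le_sum fun z hz => hfail z.1 z.2 ?_
          exact (mem_filter.1 hz).2
      _ = s.card * (1 / 2 : ℝ) ^ r := by rw [sum_const, nsmul_eq_mul]
      _ ≤ (n : ℝ) ^ 2 * (1 / (n : ℝ) ^ 3) := by
          refine mul_le_mul hscard ?_ (by positivity) (by positivity)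
          rw [one_div_pow]
          exact one_div_le_one_div_of_le (by positivity) hpow
      _ = 1 / n := by field_simp
      _ ≤ 1 / 2 := one_div_le_one_div_of_le (by norm_num) (by exact_mod_cast (by omega : 2 ≤ n))
  have hperc : 1 / 2 ≤ Pr (V := Fin n) p' (fun G => Percolates H G) := by
    have h1 : Pr (V := Fin n) p' (fun G => ¬ ∃ z ∈ s, ¬ RootedIn F G z.1 z.2) ≤
        Pr (V := Fin n) p' (fun G => Percolates H G) := by
      refine Pr_mono hp'0.le hp'1 fun G hG => ?_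
      push Not at hG
      unfold Percolates
      rw [eq_top_iff]
      intro u v huv
      have huv' : u ≠ v := huv
      refine ⟨huv', hmake (Fin n) G u v huv' (hG (u, v) ?_)⟩
      simp [hs, huv']
    rw [Pr_not] at h1
    linarith
  -- conclusion
  have hpc : pc n H ≤ p' := by
    unfold pc
    refine csInf_le ⟨0, fun x hx => hx.1.le⟩ ⟨hp'0, ⟨hp'0.le, hp'1⟩, ?_⟩
    rw [real_binomialRandom]
    exact hperc
  refine hpc.trans ?_
  have hbern : p' ≤ r * p := by
    have h1 := one_add_mul_le_pow (a := -p) (by linarith) r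
    rw [show (1 : ℝ) + -p = 1 - p by ring] at h1
    linarith
  refine hbern.trans ?_
  have hr2 : (r : ℝ) ≤ (Real.log n) ^ (2 : ℝ) := by
    have h2 : (0.69 : ℝ) < Real.log 2 := by
      have := Real.log_two_gt_d9
      linarith
    have h3 : 3 * Real.log n / Real.log 2 ≤ 3 * Real.log n / 0.69 := by
      apply div_le_div_of_nonneg_left (by positivity) (by norm_num) h2.le
    rw [Real.rpow_two]
    have h4 : 3 * Real.log n / 0.69 + 1 ≤ Real.log n ^ 2 := by
      rw [div_add_one (by norm_num), div_le_iff₀ (by norm_num)]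
      nlinarith
    linarith
  calc (r : ℝ) * p ≤ (Real.log n) ^ (2 : ℝ) * p := mul_le_mul_of_nonneg_right hr2 hp0.le
    _ = (n : ℝ) ^ (-((b : ℝ) / a)) * (Real.log n) ^ (C + 2) := by
      rw [hp, Real.rpow_add hl0]
      ring

end MP30c94c
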