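import Mathlib
import Pool.Agent.Lib.MP30c94c.KUBX

/-!
# The ladders
-/

open SimpleGraph Finset

namespace MP30c94c

attribute [local instance] Classical.propDecidable

section ladder

variable (L r k : ℕ)

/-- the non-root vertices of the ladder -/
private abbrev LW := Fin L × (Unit ⊕ (Fin r ⊕ Fin k))

/-- the rails -/
private def LA : ℕ → LW L r k ⊕ Fin 2
  | 0 => Sum.inr 0
  | (i + 1) => if h : i < L then Sum.inl (⟨i, h⟩, Sum.inl ()) else Sum.inr 0

/-- the orientation -/
private noncomputable def Lout : LW L r k ⊕ Fin 2 → Finset (LW L r k ⊕ Fin 2)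
  | Sum.inl (i, Sum.inl _) => if i.1 + 1 = L then {Sum.inr 1} else ∅
  | Sum.inl (_, Sum.inr (Sum.inl _)) => {Sum.inr 1}
  | Sum.inl (i, Sum.inr (Sum.inr _)) => insert (LA L r k i.1) (insert (LA L r k (i.1 + 1))
      (univ.image fun j : Fin r => Sum.inl (i, Sum.inr (Sum.inl j))))
  | Sum.inr _ => ∅

private def Lrank : LW L r k ⊕ Fin 2 → ℕ
  | Sum.inl (_, Sum.inl _) => 1
  | Sum.inl (_, Sum.inr (Sum.inl _)) => 1
  | Sum.inl (_, Sum.inr (Sum.inr _)) => 2
  | Sum.inr _ => 0

private lemma Lrank_LA (n : ℕ) : Lrank L r k (LA L r k n) ≤ 1 := by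
  rcases n with _ | n
  · simp [LA, Lrank]
  · simp only [LA]
    split_ifs <;> simp [Lrank]

private lemma Lrank_lt : ∀ x, ∀ y ∈ Lout L r k x, Lrank L r k y < Lrank L r k x := by
  rintro (⟨i, (_ | (j | l))⟩ | x) y hy
  · simp only [Lout] at hy
    split_ifs at hy
    · rw [mem_singleton] at hy
      subst hy
      simp [Lrank]
    · exact absurd hy (notMem_empty _)
  · simp only [Lout, mem_singleton] at hy
    subst hy
    simp [Lrank]
  · simp only [Lout, mem_insert, mem_image, mem_univ, true_and] at hy
    rcases hy with rfl | rfl | ⟨j, rfl⟩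
    · exact lt_of_le_of_lt (Lrank_LA L r k _) (by simp [Lrank])
    · exact lt_of_le_of_lt (Lrank_LA L r k _) (by simp [Lrank])
    · simp [Lrank]
  · simp [Lout] at hy

/-- the ladder -/
private noncomputable def LF : SimpleGraph (LW L r k ⊕ Fin 2) :=
  orientGraph (Lout L r k) (Lrank L r k) (Lrank_lt L r k)

end ladder

/-- the gain of one rung -/
private lemma rung_gain (s t A B a a' y τ : ℤ) (hs : 3 ≤ s) (hst : s ≤ t) (hA : A = s * t - 2)
    (hB : B = s + t - 2) (ha : a = 0 ∨ a = 1) (ha' : a' = 0 ∨ a' = 1) (hy0 : 0 ≤ y)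
    (hy : y ≤ s - 2) (hτ0 : 0 ≤ τ) (hτ : τ ≤ t - 1) :
    0 ≤ A * a' + (A - B) * y + τ * (A - B * (a + y + a')) ∧
    (a = 0 → a' = 1 → B ≤ A * a' + (A - B) * y + τ * (A - B * (a + y + a'))) ∧
    (a = 1 → a' = 1 → (y = s - 2 ∧ τ = t - 1) ∨
      1 ≤ A * a' + (A - B) * y + τ * (A - B * (a + y + a'))) := by
  have hB4 : 4 ≤ B := by rw [hB]; linarith
  have hAB : 1 ≤ A - B := by
    rw [hA, hB]
    nlinarith
  have hBt : 1 ≤ B * t - A := by
    rw [hA, hB]
    nlinarith
  have hkB : 1 ≤ (t - 1) * B - A := by
    rw [hA, hB]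
    nlinarith [mul_self_nonneg (t - 2)]
  have hk : 0 < t - 1 := by linarith
  have hm : 0 ≤ t - 1 - τ := by linarith
  have hr : 0 ≤ s - 2 - y := by linarith
  have e1 : (t - 1) * (A * a' + (A - B) * y + τ * (A - B * (a + y + a'))) =
      (t - 1 - τ) * (A * a' + (A - B) * y) +
      τ * (2 * ((t - 1) * B) - A + A * a' - (t - 1) * B * (a + a') + (s - 2 - y) * (B * t - A)) := by
    rw [hA, hB]
    ring
  set g := A * a' + (A - B) * y + τ * (A - B * (a + y + a')) with hg
  have h1 : 0 ≤ (A - B) * y := mul_nonneg (by linarith) hy0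
  have h2 : 0 ≤ (s - 2 - y) * (B * t - A) := mul_nonneg hr (by linarith)
  have hcase : ∀ c : ℤ, (t - 1) * c ≤ (t - 1) * g → c ≤ g := fun c hc => le_of_mul_le_mul_left hc hk
  have hpos : 0 < (t - 1) * g → 1 ≤ g := fun hc => by
    have h0 : 0 < g := (mul_pos_iff_of_pos_left hk).1 hc
    omega
  rcases ha with rfl | rfl <;> rcases ha' with rfl | rfl
  · refine ⟨hcase 0 ?_, fun _ h => by norm_num at h, fun h => by norm_num at h⟩
    rw [e1, mul_zero]
    have h3 : 0 ≤ (t - 1 - τ) * (A * 0 + (A - B) * y) := mul_nonneg hm (by linarith)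
    have h4 : 0 ≤ τ * (2 * ((t - 1) * B) - A + A * 0 - (t - 1) * B * (0 + 0) +
        (s - 2 - y) * (B * t - A)) := mul_nonneg hτ0 (by nlinarith)
    linarith
  · have h5 : B ≤ g := by
      refine hcase B ?_
      rw [e1]
      have h3 : (t - 1 - τ) * B ≤ (t - 1 - τ) * (A * 1 + (A - B) * y) :=
        mul_le_mul_of_nonneg_left (by linarith) hm
      have h4 : τ * B ≤ τ * (2 * ((t - 1) * B) - A + A * 1 - (t - 1) * B * (0 + 1) +
          (s - 2 - y) * (B * t - A)) := mul_le_mul_of_nonneg_left (by nlinarith) hτ0
      linarith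
    exact ⟨by linarith, fun _ _ => h5, fun h => by norm_num at h⟩
  · refine ⟨hcase 0 ?_, fun h => by norm_num at h, fun _ h => by norm_num at h⟩
    rw [e1, mul_zero]
    have h3 : 0 ≤ (t - 1 - τ) * (A * 0 + (A - B) * y) := mul_nonneg hm (by linarith)
    have h4 : 0 ≤ τ * (2 * ((t - 1) * B) - A + A * 0 - (t - 1) * B * (1 + 0) +
        (s - 2 - y) * (B * t - A)) := mul_nonneg hτ0 (by nlinarith)
    linarith
  · have e2 : (t - 1) * g = (t - 1 - τ) * (A + (A - B) * y) + τ * ((s - 2 - y) * (B * t - A)) := by
      rw [e1]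
      ring
    have h3 : 0 ≤ (t - 1 - τ) * (A + (A - B) * y) := mul_nonneg hm (by linarith)
    have h4 : 0 ≤ τ * ((s - 2 - y) * (B * t - A)) := mul_nonneg hτ0 h2
    refine ⟨hcase 0 (by rw [e2, mul_zero]; linarith), fun h => by norm_num at h, fun _ _ => ?_⟩
    by_cases hm0 : τ = t - 1
    · by_cases hr0 : y = s - 2
      · exact Or.inl ⟨hr0, hm0⟩
      · right
        apply hpos
        rw [e2]
        have h5 : 0 < s - 2 - y := lt_of_le_of_ne hr (fun h => hr0 (by linarith))
        have h6 : 0 < τ * ((s - 2 - y) * (B * t - A)) := by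
          rw [hm0]
          exact mul_pos hk (mul_pos h5 (by linarith))
        linarith
    · right
      apply hpos
      rw [e2]
      have h5 : 0 < t - 1 - τ := lt_of_le_of_ne hm (fun h => hm0 (by linarith))
      have h6 : 0 < (t - 1 - τ) * (A + (A - B) * y) := mul_pos h5 (by linarith)
      linarith

/-- the arithmetic of the whole ladder -/
private lemma ladder_arith (s t A B : ℤ) (L : ℕ) (hs : 3 ≤ s) (hst : s ≤ t)
    (hA : A = s * t - 2) (hB : B = s + t - 2) (al : ℕ → ℤ) (y τ : Fin L → ℤ)
    (h0 : al 0 = 1) (hal : ∀ n, al n = 0 ∨ al n = 1) (hy0 : ∀ i, 0 ≤ y i)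
    (hy : ∀ i, y i ≤ s - 2) (hτ0 : ∀ i, 0 ≤ τ i) (hτ : ∀ i, τ i ≤ t - 1) (c e : ℤ)
    (hc : c = ∑ i : Fin L, (al (i.1 + 1) + (y i + τ i)))
    (he : e = ∑ i : Fin L, (y i + τ i * (al i.1 + y i + al (i.1 + 1))) + al L) :
    B * e ≤ A * c ∨ (B * e ≤ A * c + B ∧ (L : ℤ) ≤ e + B) := by
  classical
  set g : Fin L → ℤ := fun i => A * al (i.1 + 1) + (A - B) * y i +
    τ i * (A - B * (al i.1 + y i + al (i.1 + 1))) with hg
  have hgain := fun i : Fin L => rung_gain s t A B (al i.1) (al (i.1 + 1)) (y i) (τ i) hs hst hA hB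
    (hal _) (hal _) (hy0 i) (hy i) (hτ0 i) (hτ i)
  have hg0 : ∀ i, 0 ≤ g i := fun i => (hgain i).1
  have hsum : A * c - B * e = ∑ i, g i - B * al L := by
    rw [hc, he, mul_add, mul_sum, mul_sum, ← sub_sub, ← sum_sub_distrib]
    congr 1
    refine sum_congr rfl fun i _ => ?_
    simp only [hg]
    ring
  have hgs : 0 ≤ ∑ i, g i := sum_nonneg fun i _ => hg0 i
  have hB4 : 4 ≤ B := by rw [hB]; linarith
  rcases hal L with hL | hL
  · left
    rw [hL, mul_zero] at hsum
    linarith
  · rw [hL, mul_one] at hsum
    by_cases hall : ∀ n, n ≤ L → al n = 1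
    · set N := univ.filter (fun i : Fin L => ¬ (y i = s - 2 ∧ τ i = t - 1)) with hN
      have hNg : (N.card : ℤ) ≤ ∑ i, g i := by
        calc (N.card : ℤ) = ∑ _i ∈ N, (1 : ℤ) := by simp
          _ ≤ ∑ i ∈ N, g i := by
            refine sum_le_sum fun i hi => ?_
            rcases (hgain i).2.2 (hall _ i.2.le) (hall _ i.2) with h | h
            · exact absurd h (mem_filter.1 hi).2
            · exact h
          _ ≤ ∑ i, g i := sum_le_sum_of_subset_of_nonneg (filter_subset _ _) fun i _ _ => hg0 i
      by_cases hNB : B ≤ N.card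
      · left
        linarith
      · right
        refine ⟨by linarith, ?_⟩
        have h1 : (L : ℤ) - N.card ≤ e := by
          have hcard : N.card + (univ.filter (fun i : Fin L => (y i = s - 2 ∧ τ i = t - 1))).card = L := by
            have h2 := card_filter_add_card_filter_not (s := (univ : Finset (Fin L)))
              (fun i : Fin L => (y i = s - 2 ∧ τ i = t - 1))
            rw [card_univ, Fintype.card_fin] at h2
            rw [hN, add_comm]
            exact h2
          have h3 : ((univ.filter (fun i : Fin L => (y i = s - 2 ∧ τ i = t - 1))).card : ℤ) ≤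
              ∑ i : Fin L, (y i + τ i * (al i.1 + y i + al (i.1 + 1))) := by
            calc ((univ.filter (fun i : Fin L => (y i = s - 2 ∧ τ i = t - 1))).card : ℤ)
                = ∑ _i ∈ univ.filter (fun i : Fin L => (y i = s - 2 ∧ τ i = t - 1)), (1 : ℤ) := by
                  simp
              _ ≤ ∑ i ∈ univ.filter (fun i : Fin L => (y i = s - 2 ∧ τ i = t - 1)),
                    (y i + τ i * (al i.1 + y i + al (i.1 + 1))) := by
                  refine sum_le_sum fun i hi => ?_
                  have h4 := (mem_filter.1 hi).2.1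
                  have h5 : 0 ≤ al i.1 + y i + al (i.1 + 1) := by
                    rw [hall _ i.2.le, hall _ i.2]
                    have := hy0 i
                    linarith
                  have h6 := mul_nonneg (hτ0 i) h5
                  linarith
              _ ≤ ∑ i : Fin L, (y i + τ i * (al i.1 + y i + al (i.1 + 1))) := by
                  refine sum_le_sum_of_subset_of_nonneg (filter_subset _ _) fun i _ _ => ?_
                  have h5 : 0 ≤ al i.1 + y i + al (i.1 + 1) := by
                    rw [hall _ i.2.le, hall _ i.2]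
                    have := hy0 i
                    linarith
                  have h6 := mul_nonneg (hτ0 i) h5
                  have := hy0 i
                  linarith
          have h7 : (N.card : ℤ) + ((univ.filter (fun i : Fin L => (y i = s - 2 ∧ τ i = t - 1))).card : ℤ) = L := by
            exact_mod_cast hcard
          rw [he, hL]
          linarith
        linarith
    · left
      push Not at hall
      obtain ⟨n0, hn0, hn0'⟩ := hall
      have hn00 : al n0 = 0 := (hal n0).resolve_right hn0'
      obtain ⟨j, hjL, hj0, hj1⟩ : ∃ j, j < L ∧ al j = 0 ∧ al (j + 1) = 1 := by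
        by_contra hcon
        push Not at hcon
        have : ∀ n, n0 ≤ n → n ≤ L → al n = 0 := by
          intro n hn
          induction n, hn using Nat.le_induction with
          | base => exact fun _ => hn00
          | succ n hn ih =>
            intro hnL
            have h1 := ih (by omega)
            exact (hal (n + 1)).resolve_right (hcon n (by omega) h1)
        have h2 := this L hn0 le_rfl
        rw [hL] at h2
        norm_num at h2
      have h1 : B ≤ g ⟨j, hjL⟩ := (hgain ⟨j, hjL⟩).2.1 hj0 hj1
      have h2 : g ⟨j, hjL⟩ ≤ ∑ i, g i := single_le_sum (fun i _ => hg0 i) (mem_univ _)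
      linarith

section count

variable {L r k : ℕ}

private lemma LA_succ {m : ℕ} (h : m < L) :
    LA L r k (m + 1) = Sum.inl (⟨m, h⟩, Sum.inl ()) := by
  simp [LA, h]

private lemma LA_ne_succ {m : ℕ} (h : m < L) : LA L r k m ≠ LA L r k (m + 1) := by
  rw [LA_succ h]
  rcases m with _ | m
  · simp [LA]
  · rw [LA_succ (by omega : m < L)]
    simp

private lemma LA_ne_c (m : ℕ) (i : Fin L) (j : Fin r) :
    LA L r k m ≠ Sum.inl (i, Sum.inr (Sum.inl j)) := by
  rcases m with _ | m
  · simp [LA]
  · simp only [LA]
    split_ifs <;> simp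

private lemma LA_ne_T (m : ℕ) (i : Fin L) (l : Fin k) :
    LA L r k m ≠ Sum.inl (i, Sum.inr (Sum.inr l)) := by
  rcases m with _ | m
  · simp [LA]
  · simp only [LA]
    split_ifs <;> simp

private lemma LA_ne_root (m : ℕ) : LA L r k m ≠ Sum.inr 1 := by
  rcases m with _ | m
  · simp [LA]
  · simp only [LA]
    split_ifs <;> simp

private noncomputable def al (U : Finset (LW L r k)) (n : ℕ) : ℤ :=
  if InS U (LA L r k n) then 1 else 0

private noncomputable def ind (U : Finset (LW L r k)) (w : LW L r k) : ℤ := if w ∈ U then 1 else 0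

private noncomputable def yy (U : Finset (LW L r k)) (i : Fin L) : ℤ :=
  ∑ j : Fin r, ind U (i, Sum.inr (Sum.inl j))

private noncomputable def tt (U : Finset (LW L r k)) (i : Fin L) : ℤ :=
  ∑ l : Fin k, ind U (i, Sum.inr (Sum.inr l))

private lemma ind_a (U : Finset (LW L r k)) (i : Fin L) : ind U (i, Sum.inl ()) = al U (i.1 + 1) := by
  unfold ind al
  rw [LA_succ i.2]
  have h1 : InS U (Sum.inl (⟨i.1, i.2⟩, Sum.inl ())) ↔ (i, Sum.inl ()) ∈ U := Iff.rfl
  simp only [h1]

private lemma sum_U (U : Finset (LW L r k)) (c : LW L r k → ℤ) :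
    ∑ w ∈ U, c w = ∑ i : Fin L, (ind U (i, Sum.inl ()) * c (i, Sum.inl ()) +
      (∑ j : Fin r, ind U (i, Sum.inr (Sum.inl j)) * c (i, Sum.inr (Sum.inl j)) +
       ∑ l : Fin k, ind U (i, Sum.inr (Sum.inr l)) * c (i, Sum.inr (Sum.inr l)))) := by
  have h1 : ∑ w ∈ U, c w = ∑ w : LW L r k, ind U w * c w := by
    unfold ind
    simp only [ite_mul, one_mul, zero_mul]
    rw [← sum_filter]
    refine sum_congr ?_ fun _ _ => rfl
    ext w
    simp
  rw [h1, Fintype.sum_prod_type]
  refine sum_congr rfl fun i _ => ?_
  rw [Fintype.sum_sum_type, Fintype.sum_sum_type]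
  simp

private lemma card_T (U : Finset (LW L r k)) (i : Fin L) (l : Fin k) :
    (((Lout L r k (Sum.inl (i, Sum.inr (Sum.inr l)))).filter (InS U)).card : ℤ) =
      al U i.1 + yy U i + al U (i.1 + 1) := by
  rw [card_filter]
  simp only [Lout]
  rw [sum_insert, sum_insert, sum_image]
  · push_cast
    unfold al yy ind
    have h1 : ∀ j : Fin r, InS U (Sum.inl (i, Sum.inr (Sum.inl j))) ↔
        (i, Sum.inr (Sum.inl j)) ∈ U := fun j => Iff.rfl
    simp only [h1]
    ring
  · intro j _ j' _ h
    simpa using h
  · rw [mem_image]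
    rintro ⟨j, -, hj⟩
    exact LA_ne_c _ _ _ hj.symm
  · rw [mem_insert, mem_image]
    rintro (h | ⟨j, -, hj⟩)
    · exact LA_ne_succ i.2 h
    · exact LA_ne_c _ _ _ hj.symm

private lemma card_c (U : Finset (LW L r k)) (i : Fin L) (j : Fin r) :
    (((Lout L r k (Sum.inl (i, Sum.inr (Sum.inl j)))).filter (InS U)).card : ℤ) = 1 := by
  rw [card_filter]
  simp only [Lout]
  rw [sum_singleton]
  simp [InS]

private lemma card_a (U : Finset (LW L r k)) (i : Fin L) :
    (((Lout L r k (Sum.inl (i, Sum.inl ()))).filter (InS U)).card : ℤ) =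
      if i.1 + 1 = L then 1 else 0 := by
  simp only [Lout]
  split_ifs
  · rw [card_filter, sum_singleton]
    simp [InS]
  · simp

private lemma count_e (hL : 1 ≤ L) (U : Finset (LW L r k)) :
    (eR (LF L r k) U : ℤ) = ∑ i : Fin L, (yy U i + tt U i * (al U i.1 + yy U i + al U (i.1 + 1))) +
      al U L := by
  unfold LF
  rw [eR_orientGraph _ _ _ (fun r => rfl)]
  push_cast
  rw [sum_U]
  simp only [card_T, card_c, card_a, mul_one, ind_a]
  rw [sum_add_distrib, add_comm]
  congr 1
  · refine sum_congr rfl fun i _ => ?_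
    unfold yy tt
    rw [sum_mul]
  · have h1 : L - 1 < L := by omega
    rw [sum_eq_single (⟨L - 1, h1⟩ : Fin L)]
    · have h2 : L - 1 + 1 = L := by omega
      simp only [h2, if_true, mul_one]
    · intro i _ hi
      rw [if_neg, mul_zero]
      intro h
      apply hi
      apply Fin.ext
      simp only
      omega
    · intro h
      exact absurd (mem_univ _) h

private lemma count_c (U : Finset (LW L r k)) :
    (U.card : ℤ) = ∑ i : Fin L, (al U (i.1 + 1) + (yy U i + tt U i)) := by
  rw [card_eq_sum_ones]
  push_cast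
  rw [sum_U]
  simp only [mul_one, ind_a]
  rfl

end count

theorem hasGadgets_ladder (s t : ℕ) (hs : 3 ≤ s) (hst : s ≤ t) :
    HasGadgets (Kst s t) (s * t - 2) (s + t - 2) := by
  refine ⟨s + t, s + t - 2, fun L hL => ⟨LW L (s - 2) (t - 1), inferInstance,
    LF L (s - 2) (t - 1), ?_, ?_, ?_, ?_⟩⟩
  · rw [Fintype.card_prod, Fintype.card_fin, Fintype.card_sum, Fintype.card_sum, Fintype.card_fin,
      Fintype.card_fin, Fintype.card_unit, mul_comm]
    exact Nat.mul_le_mul_right L (by omega)
  · rintro (h | h) <;> exact absurd h (notMem_empty _)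
  · intro U
    have hst4 : 2 ≤ s * t := by nlinarith
    have hind : ∀ w, 0 ≤ ind U w ∧ ind U w ≤ 1 := by
      intro w
      unfold ind
      split_ifs <;> norm_num
    have h := ladder_arith (s : ℤ) (t : ℤ) (s * t - 2) (s + t - 2) L (by exact_mod_cast hs)
      (by exact_mod_cast hst) rfl rfl (al U) (yy U) (tt U)
      (by simp [al, LA, InS])
      (fun n => by unfold al; split_ifs <;> simp)
      (fun i => sum_nonneg fun j _ => (hind _).1)
      (fun i => by
        have h1 : yy U i ≤ ∑ _j : Fin (s - 2), (1 : ℤ) := sum_le_sum fun j _ => (hind _).2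
        rw [sum_const, card_univ, Fintype.card_fin, nsmul_eq_mul, mul_one] at h1
        omega)
      (fun i => sum_nonneg fun j _ => (hind _).1)
      (fun i => by
        have h1 : tt U i ≤ ∑ _j : Fin (t - 1), (1 : ℤ) := sum_le_sum fun j _ => (hind _).2
        rw [sum_const, card_univ, Fintype.card_fin, nsmul_eq_mul, mul_one] at h1
        omega)
      U.card (eR (LF L (s - 2) (t - 1)) U) (count_c U) (count_e hL U)
    have e1 : ((s * t - 2 : ℕ) : ℤ) = s * t - 2 := by
      push_cast [Nat.cast_sub hst4]
      ring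
    have e2 : ((s + t - 2 : ℕ) : ℤ) = s + t - 2 := by
      rw [Nat.cast_sub (by omega)]
      push_cast
      ring
    rw [← e1, ← e2] at h
    rcases h with h | ⟨h, h'⟩
    · left
      exact_mod_cast h
    · right
      exact ⟨by exact_mod_cast h, by exact_mod_cast h'⟩
  · intro V _ G u v huv ⟨f, hf0, hf1, hadj⟩
    have hk : t - 1 + 1 = t := by omega
    have key : ∀ d m : ℕ, m + d = L → InClosure (Kst s t) G s(f (LA L (s - 2) (t - 1) m), v) := by
      intro d
      induction d with
      | zero =>
        intro m hm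
        obtain ⟨m', rfl⟩ : ∃ m', m = m' + 1 := ⟨m - 1, by omega⟩
        rw [← hf1]
        refine InClosure.base ?_
        rw [mem_edgeSet]
        apply hadj
        left
        rw [LA_succ (by omega : m' < L)]
        simp only [Lout]
        rw [if_pos (by omega)]
        exact mem_singleton_self _
      | succ d ih =>
        intro m hm
        have hmL : m < L := by omega
        have ih' := ih (m + 1) (by omega)
        set i : Fin L := ⟨m, hmL⟩ with hi
        set X0 : Finset (LW L (s - 2) (t - 1) ⊕ Fin 2) := insert (LA L (s - 2) (t - 1) m)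
          (insert (LA L (s - 2) (t - 1) (m + 1))
            (univ.image fun j : Fin (s - 2) => Sum.inl (i, Sum.inr (Sum.inl j)))) with hX0
        set Y0 : Finset (LW L (s - 2) (t - 1) ⊕ Fin 2) := insert (Sum.inr 1)
            (univ.image fun l : Fin (t - 1) => Sum.inl (i, Sum.inr (Sum.inr l))) with hY0
        have hX : (X0.map f).card = s := by
          rw [card_map, hX0, card_insert_of_notMem, card_insert_of_notMem, card_image_of_injective,
            card_univ, Fintype.card_fin]
          · omega
          · intro j j' h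
            simpa using h
          · rw [mem_image]
            rintro ⟨j, -, hj⟩
            exact LA_ne_c _ _ _ hj.symm
          · rw [mem_insert, mem_image]
            rintro (h | ⟨j, -, hj⟩)
            · exact LA_ne_succ hmL h
            · exact LA_ne_c _ _ _ hj.symm
        have hY : (Y0.map f).card = t := by
          rw [card_map, hY0, card_insert_of_notMem, card_image_of_injective, card_univ,
            Fintype.card_fin]
          · omega
          · intro j j' h
            simpa using h
          · rw [mem_image]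
            rintro ⟨j, -, hj⟩
            simp at hj
        have hdisj : Disjoint (X0.map f) (Y0.map f) := by
          rw [disjoint_map, Finset.disjoint_left]
          intro x hx hy
          rw [hX0, mem_insert, mem_insert, mem_image] at hx
          rw [hY0, mem_insert, mem_image] at hy
          rcases hx with rfl | rfl | ⟨j, -, rfl⟩ <;> rcases hy with hy | ⟨l, -, hl⟩
          · exact LA_ne_root _ hy
          · exact LA_ne_T _ _ _ hl.symm
          · exact LA_ne_root _ hy
          · exact LA_ne_T _ _ _ hl.symm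
          · simp at hy
          · simp at hl
        refine closure_step hX hY hdisj (mem_map_of_mem _ (mem_insert_self _ _))
          (by rw [← hf1]; exact mem_map_of_mem _ (mem_insert_self _ _)) ?_
        intro x hx y hy hne
        rw [mem_map] at hx hy
        obtain ⟨x', hx', rfl⟩ := hx
        obtain ⟨y', hy', rfl⟩ := hy
        rw [hY0, mem_insert, mem_image] at hy'
        rcases hy' with rfl | ⟨l, -, rfl⟩
        · rw [hX0, mem_insert, mem_insert, mem_image] at hx'
          rcases hx' with rfl | rfl | ⟨j, -, rfl⟩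
          · rcases hne with h | h
            · exact absurd rfl h
            · exact absurd hf1 h
          · rw [hf1]
            exact ih'
          · refine InClosure.base ?_
            rw [mem_edgeSet]
            apply hadj
            left
            simp only [Lout]
            exact mem_singleton_self _
        · refine InClosure.base ?_
          rw [mem_edgeSet]
          apply hadj
          right
          exact hx'
    have h0 := key L 0 (by omega)
    have h1 : LA L (s - 2) (t - 1) 0 = Sum.inr 0 := rfl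
    rw [h1, hf0] at h0
    exact h0

end MP30c94c
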