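import Mathlib
import Pool.Agent.Lib.MP30c94c.KUBX

/-!
# Gadgets from a seed: a chain of attachments (`s = 3`)
-/

open SimpleGraph Finset

namespace MP30c94c

attribute [local instance] Classical.propDecidable

/-! ### the potential of the chain -/

private def gtab : List ℕ := [0, 0, 0, 0, 0, 0, 0, 0, 0, 0, 0, 0, 0, 0, 0, 0,
  0, 2, 0, 2, 0, 2, 0, 2, 0, 1, 0, 1, 0, 1, 0, 2,
  0, 2, 1, 2, 0, 3, 1, 3, 0, 1, 1, 2, 0, 2, 2, 3,
  0, 2, 1, 3, 1, 3, 2, 4, 0, 2, 2, 3, 1, 3, 3, 4,
  0, 2, 2, 3, 1, 4, 3, 4, 1, 2, 3, 4, 2, 4, 4, 4]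

private def gpot (b0 b1 b2 b3 : Bool) (c : ℕ) : ℕ :=
  gtab.getD (16 * c + 8 * b0.toNat + 4 * b1.toNat + 2 * b2.toNat + b3.toNat) 0

private lemma gpot_step : ∀ b0 b1 b2 b3 x : Bool, ∀ c : Fin 5,
    gpot b1 b2 b3 x (min 4 (c.1 + (!x).toNat)) ≤
      gpot b0 b1 b2 b3 c.1 + x.toNat * (2 - b3.toNat - b1.toNat) := by
  decide

private lemma gpot_zero : ∀ b0 b1 b2 b3 : Bool, gpot b0 b1 b2 b3 0 = 0 := by
  decide

private lemma gpot_four : ∀ b0 b1 b2 b3 : Bool,
    b0.toNat + b1.toNat + b2.toNat + b3.toNat ≤ gpot b0 b1 b2 b3 4 := by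
  decide

private def Dn (y : ℕ → Bool) (n : ℕ) : ℕ :=
  ∑ i ∈ range n, (y (i + 4)).toNat * (2 - (y (i + 3)).toNat - (y (i + 1)).toNat)

private def miss (y : ℕ → Bool) (n : ℕ) : ℕ := ∑ i ∈ range n, (!(y (i + 4))).toNat

private lemma chain_pot (y : ℕ → Bool) (n : ℕ) :
    gpot (y n) (y (n + 1)) (y (n + 2)) (y (n + 3)) (min 4 (miss y n)) ≤ Dn y n := by
  induction n with
  | zero => simp [miss, Dn, gpot_zero]
  | succ n ih =>
    have h1 : Dn y (n + 1) = Dn y n + (y (n + 4)).toNat * (2 - (y (n + 3)).toNat - (y (n + 1)).toNat) := by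
      unfold Dn
      rw [sum_range_succ]
    have h2 : miss y (n + 1) = miss y n + (!(y (n + 4))).toNat := by
      unfold miss
      rw [sum_range_succ]
    have h3 := gpot_step (y n) (y (n + 1)) (y (n + 2)) (y (n + 3)) (y (n + 4))
      ⟨min 4 (miss y n), by omega⟩
    simp only at h3
    have h4 : min 4 (min 4 (miss y n) + (!(y (n + 4))).toNat) = min 4 (miss y (n + 1)) := by
      rw [h2]
      omega
    rw [h4] at h3
    rw [h1]
    exact h3.trans (Nat.add_le_add_right ih _)

private lemma chain_fact (y : ℕ → Bool) (n : ℕ) (h : 4 ≤ miss y n) :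
    (y n).toNat + (y (n + 1)).toNat + (y (n + 2)).toNat + (y (n + 3)).toNat ≤ Dn y n := by
  have h1 := chain_pot y n
  rw [min_eq_left h] at h1
  exact (gpot_four _ _ _ _).trans h1

/-! ### the closure rule -/

/-- `x` is joined to all of `K` in the final graph -/
private def NK {V : Type} (t : ℕ) (G : SimpleGraph V) (K : Finset V) (x : V) : Prop :=
  x ∉ K ∧ ∀ p ∈ K, InClosure (Kst 3 t) G s(x, p)

private lemma join {V : Type} {t : ℕ} (ht : 4 ≤ t) {G : SimpleGraph V} {K : Finset V}
    (hK : t - 1 ≤ K.card) {x y z w : V} (hx : NK t G K x) (hy : NK t G K y) (hz : NK t G K z)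
    (hxy : x ≠ y) (hw : w ∉ K) (hzw : z ≠ w) (hxw : x ≠ w) (hyw : y ≠ w)
    (h1 : InClosure (Kst 3 t) G s(x, w)) (h2 : InClosure (Kst 3 t) G s(y, w)) :
    InClosure (Kst 3 t) G s(z, w) := by
  by_cases hzx : z = x
  · rw [hzx]; exact h1
  by_cases hzy : z = y
  · rw [hzy]; exact h2
  obtain ⟨K', hK', hcard⟩ := exists_subset_card_eq hK
  have hX : ({z, x, y} : Finset V).card = 3 := by
    rw [card_insert_of_notMem, card_insert_of_notMem, card_singleton]
    · rwa [mem_singleton]
    · rw [mem_insert, mem_singleton]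
      push Not
      exact ⟨hzx, hzy⟩
  have hY : (insert w K').card = t := by
    rw [card_insert_of_notMem (fun h => hw (hK' h)), hcard]
    omega
  have hmem : ∀ v ∈ ({z, x, y} : Finset V), v ≠ w ∧ NK t G K v := by
    intro v hv
    rw [mem_insert, mem_insert, mem_singleton] at hv
    rcases hv with rfl | rfl | rfl
    · exact ⟨hzw, hz⟩
    · exact ⟨hxw, hx⟩
    · exact ⟨hyw, hy⟩
  refine closure_step hX hY ?_ (mem_insert_self _ _) (mem_insert_self _ _) ?_
  · rw [Finset.disjoint_left]
    intro v hv hv'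
    rw [mem_insert] at hv'
    rcases hv' with h | h
    · exact (hmem v hv).1 h
    · exact (hmem v hv).2.1 (hK' h)
  · intro v hv v' hv' hne
    rw [mem_insert] at hv'
    rcases hv' with rfl | h
    · rw [mem_insert, mem_insert, mem_singleton] at hv
      rcases hv with rfl | rfl | rfl
      · rcases hne with h | h <;> exact absurd rfl h
      · exact h1
      · exact h2
    · exact (hmem v hv).2.2 v' (hK' h)

/-- transport of the closure -/
private lemma closure_map {W V V' : Type} {H : SimpleGraph W} {F : SimpleGraph V}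
    {G : SimpleGraph V'} (g : V ↪ V') (hg : ∀ x y, F.Adj x y → G.Adj (g x) (g y)) {e : Sym2 V}
    (he : InClosure H F e) : InClosure H G (e.map g) := by
  induction he with
  | @base e he =>
    refine .base ?_
    induction e using Sym2.ind with
    | _ u v =>
    rw [Sym2.map_mk, mem_edgeSet]
    exact hg u v he
  | @step e f he h ih =>
    have hmap : ∀ e' : Sym2 V', e' ∈ (H.map (f.trans g)).edgeSet ↔
        ∃ e ∈ (H.map f).edgeSet, e' = e.map g := by
      intro e'
      induction e' using Sym2.ind with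
      | _ u v =>
      rw [mem_edgeSet, map_adj]
      constructor
      · rintro ⟨a, b, hab, rfl, rfl⟩
        refine ⟨s(f a, f b), ?_, rfl⟩
        rw [mem_edgeSet, map_adj]
        exact ⟨a, b, hab, rfl, rfl⟩
      · rintro ⟨e, he, heq⟩
        induction e using Sym2.ind with
        | _ u' v' =>
        rw [mem_edgeSet, map_adj] at he
        obtain ⟨a, b, hab, rfl, rfl⟩ := he
        rw [Sym2.map_mk, Sym2.eq_iff] at heq
        rcases heq with ⟨rfl, rfl⟩ | ⟨rfl, rfl⟩
        · exact ⟨a, b, hab, rfl, rfl⟩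
        · exact ⟨b, a, hab.symm, rfl, rfl⟩
    refine .step (f.trans g) ((hmap _).2 ⟨e, he, rfl⟩) ?_
    intro e' he' hne
    obtain ⟨e0, he0, rfl⟩ := (hmap _).1 he'
    refine ih e0 he0 ?_
    rintro rfl
    exact hne rfl

/-- the closure process along the chain -/
private lemma chain_closure {V : Type} {t : ℕ} (ht : 4 ≤ t) {G : SimpleGraph V} (S : ℕ → Finset V)
    (hS2 : ∀ n, S (n + 2) = S n) (hcard : ∀ n, t - 1 ≤ (S n).card)
    (hSS : ∀ n, ∀ q ∈ S n, NK t G (S (n + 1)) q) (N : ℕ) (z : ℕ → V)
    (hinj : ∀ i j, i < N + 3 → j < N + 3 → z i = z j → i = j)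
    (h0 : z 0 ∈ S 1) (h1 : z 1 ∈ S 0) (h2 : z 2 ∈ S 1) (hout : ∀ n, 3 ≤ n → n < N + 3 → ∀ i, z n ∉ S i)
    (hadj : ∀ n, n < N → InClosure (Kst 3 t) G s(z (n + 2), z (n + 3)) ∧
      InClosure (Kst 3 t) G s(z n, z (n + 3))) :
    ∀ n, n < N + 3 → NK t G (S n) (z n) := by
  intro n
  induction n using Nat.strong_induction_on with
  | _ n ih =>
  intro hn
  rcases Nat.lt_or_ge n 3 with h3 | h3
  · interval_cases n
    · have h := hSS 1 _ h0
      rwa [show 1 + 1 = 0 + 2 by rfl, hS2] at h
    · exact hSS 0 _ h1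
    · have h := hSS 1 _ h2
      exact h
  · obtain ⟨m, rfl⟩ : ∃ m, n = m + 3 := ⟨n - 3, by omega⟩
    refine ⟨hout _ h3 hn _, fun q hq => ?_⟩
    rw [Sym2.eq_swap]
    have ha := ih (m + 2) (by omega) (by omega)
    have hb := ih m (by omega) (by omega)
    have hc := hSS (m + 3) q hq
    rw [hS2] at ha
    rw [show m + 3 + 1 = (m + 2) + 2 by rfl, hS2, hS2] at hc
    refine join ht (hcard m) ha hb hc ?_ (hout _ h3 hn _) ?_ ?_ ?_ (hadj m (by omega)).1
      (hadj m (by omega)).2
    · intro h
      have := hinj _ _ (by omega) (by omega) h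
      omega
    · intro h
      exact hout _ h3 hn _ (h ▸ hq)
    · intro h
      have := hinj _ _ (by omega) (by omega) h
      omega
    · intro h
      have := hinj _ _ (by omega) (by omega) h
      omega

/-! ### the gadget -/

section gadget

variable {m : ℕ} (N L : ℕ) (F : SimpleGraph (Fin m)) (p0 p2 q1 : Fin m)

/-- the positions -/
private def cpos : ℕ → (Fin m ⊕ Fin N) ⊕ Fin 2
  | 0 => Sum.inl (Sum.inl p2)
  | 1 => Sum.inl (Sum.inl q1)
  | 2 => Sum.inl (Sum.inl p0)
  | (n + 3) => if h : n < N then Sum.inl (Sum.inr ⟨n, h⟩) else Sum.inr 0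

private noncomputable def cout : (Fin m ⊕ Fin N) ⊕ Fin 2 → Finset ((Fin m ⊕ Fin N) ⊕ Fin 2)
  | Sum.inl (Sum.inl x) => (univ.filter fun y => F.Adj x y ∧ y < x).image fun y => Sum.inl (Sum.inl y)
  | Sum.inl (Sum.inr n) => insert (cpos N p0 p2 q1 (n.1 + 2)) (insert (cpos N p0 p2 q1 n.1)
      (if L ≤ n.1 then {Sum.inr (if (n.1 - L) % 2 = 1 then 0 else 1)} else ∅))
  | Sum.inr _ => ∅

private def crank : (Fin m ⊕ Fin N) ⊕ Fin 2 → ℕ
  | Sum.inl (Sum.inl x) => x.1 + 1
  | Sum.inl (Sum.inr n) => m + 1 + n.1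
  | Sum.inr _ => 0

private lemma crank_cpos (n : ℕ) : crank N (cpos N p0 p2 q1 n) ≤ m + (n - 2) := by
  rcases n with _ | _ | _ | n
  · simp only [cpos, crank]
    have := p2.2
    omega
  · simp only [cpos, crank]
    have := q1.2
    omega
  · simp only [cpos, crank]
    have := p0.2
    omega
  · simp only [cpos]
    split_ifs
    · simp only [crank]
      omega
    · simp only [crank]
      omega

private lemma crank_lt : ∀ x, ∀ y ∈ cout N L F p0 p2 q1 x, crank (m := m) N y < crank N x := by
  rintro ((x | n) | r) y hy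
  · simp only [cout, mem_image, mem_filter, mem_univ, true_and] at hy
    obtain ⟨y', ⟨-, hlt⟩, rfl⟩ := hy
    simp only [crank]
    have : y'.1 < x.1 := hlt
    omega
  · simp only [cout, mem_insert] at hy
    rcases hy with rfl | rfl | hy
    · have := crank_cpos N p0 p2 q1 (n.1 + 2)
      simp only [crank] at this ⊢
      omega
    · have := crank_cpos N p0 p2 q1 n.1
      simp only [crank] at this ⊢
      omega
    · split_ifs at hy
      · rw [mem_singleton] at hy
        subst hy
        simp only [crank]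
        omega
      · rw [mem_singleton] at hy
        subst hy
        simp only [crank]
        omega
      · exact absurd hy (notMem_empty _)
  · simp [cout] at hy

private noncomputable def CF : SimpleGraph ((Fin m ⊕ Fin N) ⊕ Fin 2) :=
  orientGraph (cout N L F p0 p2 q1) (crank N) (crank_lt N L F p0 p2 q1)

variable {N L F p0 p2 q1}

private lemma cpos_chain {n : ℕ} (h : n < N) :
    cpos N p0 p2 q1 (n + 3) = Sum.inl (Sum.inr ⟨n, h⟩) := by
  simp [cpos, h]

private lemma cpos_inj (h02 : p0 ≠ p2) (h01 : p0 ≠ q1) (h12 : p2 ≠ q1) {i j : ℕ}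
    (hi : i < N + 3) (hj : j < N + 3) (h : cpos N p0 p2 q1 i = cpos N p0 p2 q1 j) : i = j := by
  rcases i with _ | _ | _ | i <;> rcases j with _ | _ | _ | j
  all_goals try rfl
  · simp [cpos] at h; exact absurd h h12
  · simp [cpos] at h; exact absurd h.symm h02
  · rw [cpos_chain (by omega)] at h; simp [cpos] at h
  · simp [cpos] at h; exact absurd h.symm h12
  · simp [cpos] at h; exact absurd h.symm h01
  · rw [cpos_chain (by omega)] at h; simp [cpos] at h
  · simp [cpos] at h; exact absurd h h02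
  · simp [cpos] at h; exact absurd h h01
  · rw [cpos_chain (by omega)] at h; simp [cpos] at h
  · rw [cpos_chain (by omega)] at h; simp [cpos] at h
  · rw [cpos_chain (by omega)] at h; simp [cpos] at h
  · rw [cpos_chain (by omega)] at h; simp [cpos] at h
  · rw [cpos_chain (by omega), cpos_chain (by omega)] at h
    simp at h
    omega

private lemma cpos_ne_root {i : ℕ} (hi : i < N + 3) (r : Fin 2) :
    cpos N p0 p2 q1 i ≠ Sum.inr r := by
  rcases i with _ | _ | _ | i
  · simp [cpos]
  · simp [cpos]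
  · simp [cpos]
  · rw [cpos_chain (by omega)]
    simp

/-- membership indicator of a position -/
private noncomputable def cx (p0 p2 q1 : Fin m) (U : Finset (Fin m ⊕ Fin N)) : ℕ → Bool
  | 0 => false
  | (n + 1) => decide (InS U (cpos N p0 p2 q1 n))

private lemma toNat_decide (P : Prop) [Decidable P] : (decide P).toNat = if P then 1 else 0 := by
  by_cases h : P <;> simp [h]

private lemma cx_chain (U : Finset (Fin m ⊕ Fin N)) (n : Fin N) :
    (cx p0 p2 q1 U (n.1 + 4)).toNat = if Sum.inr n ∈ U then 1 else 0 := by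
  show (decide (InS U (cpos N p0 p2 q1 (n.1 + 3)))).toNat = _
  rw [cpos_chain n.2, toNat_decide]
  have h : InS U (Sum.inl (Sum.inr ⟨n.1, n.2⟩)) ↔ Sum.inr n ∈ U := Iff.rfl
  simp only [h]

private lemma csum_U (U : Finset (Fin m ⊕ Fin N)) (c : Fin m ⊕ Fin N → ℕ) :
    ∑ w ∈ U, c w = ∑ x ∈ univ.filter (fun x : Fin m => Sum.inl x ∈ U), c (Sum.inl x) +
      ∑ n : Fin N, (cx p0 p2 q1 U (n.1 + 4)).toNat * c (Sum.inr n) := by
  have h1 : ∑ w ∈ U, c w = ∑ w : Fin m ⊕ Fin N, if w ∈ U then c w else 0 := by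
    rw [← sum_filter]
    refine sum_congr ?_ fun _ _ => rfl
    ext w
    simp
  rw [h1, Fintype.sum_sum_type, sum_filter]
  congr 1
  refine sum_congr rfl fun n _ => ?_
  rw [cx_chain]
  split_ifs <;> simp

private lemma card_chain (h02 : p0 ≠ p2) (h01 : p0 ≠ q1) (h12 : p2 ≠ q1)
    (U : Finset (Fin m ⊕ Fin N)) (n : Fin N) :
    ((cout N L F p0 p2 q1 (Sum.inl (Sum.inr n))).filter (InS U)).card =
      (cx p0 p2 q1 U (n.1 + 3)).toNat + ((cx p0 p2 q1 U (n.1 + 1)).toNat +
        if L ≤ n.1 then 1 else 0) := by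
  have hn := n.2
  rw [card_filter]
  simp only [cout]
  rw [sum_insert, sum_insert]
  · have e1 : (cx p0 p2 q1 U (n.1 + 3)).toNat = if InS U (cpos N p0 p2 q1 (n.1 + 2)) then 1 else 0 := by
      show (decide (InS U (cpos N p0 p2 q1 (n.1 + 2)))).toNat = _
      rw [toNat_decide]
    have e2 : (cx p0 p2 q1 U (n.1 + 1)).toNat = if InS U (cpos N p0 p2 q1 n.1) then 1 else 0 := by
      show (decide (InS U (cpos N p0 p2 q1 n.1))).toNat = _
      rw [toNat_decide]
    rw [e1, e2]
    congr 2
    split_ifs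
    · rw [sum_singleton]
      simp [InS]
    · rw [sum_singleton]
      simp [InS]
    · simp
  · split_ifs
    · rw [mem_singleton]
      exact cpos_ne_root (by omega) _
    · rw [mem_singleton]
      exact cpos_ne_root (by omega) _
    · exact notMem_empty _
  · rw [mem_insert]
    rintro (h | h)
    · have := cpos_inj h02 h01 h12 (by omega) (by omega) h
      omega
    · split_ifs at h
      · rw [mem_singleton] at h
        exact cpos_ne_root (by omega) _ h
      · rw [mem_singleton] at h
        exact cpos_ne_root (by omega) _ h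
      · exact absurd h (notMem_empty _)

private lemma card_seed (U : Finset (Fin m ⊕ Fin N)) (x : Fin m) :
    ((cout N L F p0 p2 q1 (Sum.inl (Sum.inl x))).filter (InS U)).card =
      ((univ.filter fun y => F.Adj x y ∧ y < x) ∩
        univ.filter (fun x : Fin m => Sum.inl x ∈ U)).card := by
  simp only [cout]
  rw [filter_image, card_image_of_injective]
  · congr 1
    ext y
    simp only [mem_filter, mem_inter, mem_univ, true_and]
    rfl
  · intro y y' h
    simpa using h

private lemma eIn_seed (U : Finset (Fin m ⊕ Fin N)) :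
    eIn F (univ.filter (fun x : Fin m => Sum.inl x ∈ U)) =
      ∑ x ∈ univ.filter (fun x : Fin m => Sum.inl x ∈ U),
        ((univ.filter fun y => F.Adj x y ∧ y < x) ∩
          univ.filter (fun x : Fin m => Sum.inl x ∈ U)).card := by
  refine eIn_eq_sum_out F (fun x => univ.filter fun y => F.Adj x y ∧ y < x) (fun x => x.1) ?_ ?_ _
  · intro x y
    simp only [mem_filter, mem_univ, true_and]
    constructor
    · intro h
      rcases lt_trichotomy x y with h1 | h1 | h1
      · exact Or.inr ⟨h.symm, h1⟩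
      · exact absurd h1 h.ne
      · exact Or.inl ⟨h, h1⟩
    · rintro (h | h)
      · exact h.1
      · exact h.1.symm
  · intro x y hy
    exact (mem_filter.1 hy).2.2

private lemma ceR (h02 : p0 ≠ p2) (h01 : p0 ≠ q1) (h12 : p2 ≠ q1) (U : Finset (Fin m ⊕ Fin N)) :
    eR (CF N L F p0 p2 q1) U = eIn F (univ.filter (fun x : Fin m => Sum.inl x ∈ U)) +
      ∑ n ∈ range N, (cx p0 p2 q1 U (n + 4)).toNat * ((cx p0 p2 q1 U (n + 3)).toNat +
        ((cx p0 p2 q1 U (n + 1)).toNat + if L ≤ n then 1 else 0)) := by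
  unfold CF
  rw [eR_orientGraph _ _ _ (fun r => rfl), csum_U (p0 := p0) (p2 := p2) (q1 := q1), eIn_seed,
    ← Fin.sum_univ_eq_sum_range (fun n => (cx p0 p2 q1 U (n + 4)).toNat *
      ((cx p0 p2 q1 U (n + 3)).toNat + ((cx p0 p2 q1 U (n + 1)).toNat + if L ≤ n then 1 else 0))) N]
  simp only [card_seed, card_chain h02 h01 h12]

private lemma ccard (U : Finset (Fin m ⊕ Fin N)) :
    U.card = (univ.filter (fun x : Fin m => Sum.inl x ∈ U)).card +
      ∑ n ∈ range N, (cx p0 p2 q1 U (n + 4)).toNat := by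
  rw [card_eq_sum_ones, csum_U (p0 := p0) (p2 := p2) (q1 := q1), card_eq_sum_ones,
    ← Fin.sum_univ_eq_sum_range (fun n => (cx p0 p2 q1 U (n + 4)).toNat) N]
  simp only [mul_one]

end gadget

/-- the arithmetic of the chain -/
private lemma chain_arith (a b L eS cS : ℕ) (hab : 2 * b ≤ a) (hS : b * eS ≤ a * cS) (y : ℕ → Bool) :
    let e := eS + ∑ n ∈ range (L + 4), (y (n + 4)).toNat * ((y (n + 3)).toNat +
        ((y (n + 1)).toNat + if L ≤ n then 1 else 0))
    let c := cS + ∑ n ∈ range (L + 4), (y (n + 4)).toNat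
    b * e ≤ a * c ∨ (b * e ≤ a * c + (4 * b + 10) ∧ L ≤ e + (4 * b + 10)) := by
  intro e c
  have hb1 : ∀ n, (y n).toNat ≤ 1 := fun n => by cases y n <;> simp
  set Y := ∑ n ∈ range (L + 4), (y (n + 4)).toNat with hY
  set R := (y (L + 4)).toNat + (y (L + 5)).toNat + (y (L + 6)).toNat + (y (L + 7)).toNat with hR
  set Z := ∑ n ∈ range (L + 4), (y (n + 4)).toNat * ((y (n + 3)).toNat + (y (n + 1)).toNat) with hZ
  have he : e = eS + Z + R := by
    have h1 : ∑ n ∈ range (L + 4), (y (n + 4)).toNat * (if L ≤ n then 1 else 0) = R := by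
      rw [sum_range_succ, sum_range_succ, sum_range_succ, sum_range_succ]
      have h2 : ∑ n ∈ range L, (y (n + 4)).toNat * (if L ≤ n then 1 else 0) = 0 := by
        refine sum_eq_zero fun n hn => ?_
        rw [if_neg (not_le.2 (mem_range.1 hn)), mul_zero]
      rw [h2]
      simp [hR]
    show eS + _ = _
    rw [add_assoc, ← h1, hZ, ← sum_add_distrib]
    congr 1
    refine sum_congr rfl fun n _ => ?_
    ring
  have hD : Z + Dn y (L + 4) = 2 * Y := by
    rw [hZ, hY, mul_sum]
    unfold Dn
    rw [← sum_add_distrib]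
    refine sum_congr rfl fun n _ => ?_
    cases y (n + 4) <;> cases y (n + 3) <;> cases y (n + 1) <;> simp
  have hM : Y + miss y (L + 4) = L + 4 := by
    rw [hY]
    unfold miss
    rw [← sum_add_distrib]
    have h1 : ∀ n, (y (n + 4)).toNat + (!(y (n + 4))).toNat = 1 := fun n => by
      cases y (n + 4) <;> simp
    simp only [h1]
    simp
  have hc : c = cS + Y := rfl
  by_cases hmiss : 4 ≤ miss y (L + 4)
  · left
    have h1 := chain_fact y (L + 4) hmiss
    have h2 : R ≤ Dn y (L + 4) := by
      rw [hR]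
      exact h1
    have h3 : e ≤ eS + 2 * Y := by omega
    calc b * e ≤ b * (eS + 2 * Y) := Nat.mul_le_mul_left b h3
      _ = b * eS + (2 * b) * Y := by ring
      _ ≤ a * cS + a * Y := Nat.add_le_add hS (Nat.mul_le_mul_right Y hab)
      _ = a * c := by rw [hc]; ring
  · right
    have hR4 : R ≤ 4 := by
      have := hb1 (L + 4); have := hb1 (L + 5); have := hb1 (L + 6); have := hb1 (L + 7)
      omega
    constructor
    · have h3 : e ≤ eS + 2 * Y + 4 := by omega
      calc b * e ≤ b * (eS + 2 * Y + 4) := Nat.mul_le_mul_left b h3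
        _ = b * eS + (2 * b) * Y + 4 * b := by ring
        _ ≤ a * cS + a * Y + 4 * b :=
          Nat.add_le_add_right (Nat.add_le_add hS (Nat.mul_le_mul_right Y hab)) _
        _ = a * c + 4 * b := by rw [hc]; ring
        _ ≤ a * c + (4 * b + 10) := by omega
    · -- consecutive pairs
      have h5 : L + 4 ≤ Z + miss y (L + 4) + (miss y (L + 4) + 1) := by
        have h6 : ∀ n, (∑ i ∈ range n, (y (i + 4)).toNat * ((y (i + 3)).toNat + (y (i + 1)).toNat)) +
            miss y n + (miss y n + 1) ≥ n + (!(y (n + 3))).toNat := by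
          intro n
          induction n with
          | zero => cases y 3 <;> simp [miss]
          | succ n ih =>
            have h7 : miss y (n + 1) = miss y n + (!(y (n + 4))).toNat := by
              unfold miss
              rw [sum_range_succ]
            rw [sum_range_succ, h7]
            have h8 : 1 + (!(y (n + 4))).toNat ≤
                (y (n + 4)).toNat * ((y (n + 3)).toNat + (y (n + 1)).toNat) +
                  2 * (!(y (n + 4))).toNat + (!(y (n + 3))).toNat := by
              cases y (n + 4) <;> cases y (n + 3) <;> cases y (n + 1) <;> simp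
            have h9 : n + 1 + 3 = n + 4 := rfl
            rw [h9]
            omega
        have h10 := h6 (L + 4)
        omega
      omega

theorem hasGadgets_of_seed (t a b m : ℕ) (ht : 4 ≤ t) (hab : 2 * b ≤ a) (F : SimpleGraph (Fin m))
    (hF : ∀ U : Finset (Fin m), b * eIn F U ≤ a * U.card) (P Q : Finset (Fin m))
    (hP : t - 1 ≤ P.card) (hQ : t - 1 ≤ Q.card) (hdisj : Disjoint P Q)
    (hPQ : ∀ p ∈ P, ∀ q ∈ Q, InClosure (Kst 3 t) F s(p, q)) :
    HasGadgets (Kst 3 t) a b := by
  obtain ⟨p0, hp0, p2, hp2, h02⟩ := one_lt_card.1 (show 1 < P.card by omega)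
  obtain ⟨q1, hq1⟩ := card_pos.1 (show 0 < Q.card by omega)
  have h01 : p0 ≠ q1 := fun h => Finset.disjoint_left.1 hdisj hp0 (h ▸ hq1)
  have h12 : p2 ≠ q1 := fun h => Finset.disjoint_left.1 hdisj hp2 (h ▸ hq1)
  refine ⟨m + 5, 4 * b + 10, fun L hL => ⟨Fin m ⊕ Fin (L + 4), inferInstance,
    CF (L + 4) L F p0 p2 q1, ?_, ?_, ?_, ?_⟩⟩
  · rw [Fintype.card_sum, Fintype.card_fin, Fintype.card_fin]
    nlinarith
  · rintro (h | h) <;> exact absurd h (notMem_empty _)
  · intro U
    rw [ceR h02 h01 h12, ccard (p0 := p0) (p2 := p2) (q1 := q1) U]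
    exact chain_arith a b L _ _ hab (hF _) _
  · intro V _ G u v huv ⟨f, hf0, hf1, hadj⟩
    -- the seed inside `G`
    let g : Fin m ↪ V := ⟨fun x => f (Sum.inl (Sum.inl x)), fun x x' h => by
      simpa using f.injective h⟩
    have hg : ∀ x y, F.Adj x y → G.Adj (g x) (g y) := by
      intro x y hxy
      apply hadj
      rcases lt_trichotomy x y with h | h | h
      · right
        simp only [cout, mem_image, mem_filter, mem_univ, true_and]
        exact ⟨x, ⟨hxy.symm, h⟩, rfl⟩
      · exact absurd h hxy.ne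
      · left
        simp only [cout, mem_image, mem_filter, mem_univ, true_and]
        exact ⟨y, ⟨hxy, h⟩, rfl⟩
    have hPQ' : ∀ p ∈ P, ∀ q ∈ Q, InClosure (Kst 3 t) G s(g p, g q) := fun p hp q hq =>
      closure_map g hg (hPQ p hp q hq)
    have hdisj' : Disjoint (P.map g) (Q.map g) := by rwa [disjoint_map]
    let S : ℕ → Finset V := fun n => if n % 2 = 0 then Q.map g else P.map g
    have hSS : ∀ n, ∀ q ∈ S n, NK t G (S (n + 1)) q := by
      intro n q hq
      rcases Nat.mod_two_eq_zero_or_one n with h | h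
      · have e1 : S n = Q.map g := if_pos h
        have e2 : S (n + 1) = P.map g := if_neg (by omega)
        rw [e1] at hq
        rw [e2]
        refine ⟨fun h' => Finset.disjoint_left.1 hdisj' h' hq, fun p hp => ?_⟩
        rw [mem_map] at hq hp
        obtain ⟨q', hq', rfl⟩ := hq
        obtain ⟨p', hp', rfl⟩ := hp
        rw [Sym2.eq_swap]
        exact hPQ' p' hp' q' hq'
      · have e1 : S n = P.map g := if_neg (by omega)
        have e2 : S (n + 1) = Q.map g := if_pos (by omega)
        rw [e1] at hq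
        rw [e2]
        refine ⟨fun h' => Finset.disjoint_left.1 hdisj' hq h', fun p hp => ?_⟩
        rw [mem_map] at hq hp
        obtain ⟨q', hq', rfl⟩ := hq
        obtain ⟨p', hp', rfl⟩ := hp
        exact hPQ' q' hq' p' hp'
    have hS2 : ∀ n, S (n + 2) = S n := by
      intro n
      show (if (n + 2) % 2 = 0 then Q.map g else P.map g) = if n % 2 = 0 then Q.map g else P.map g
      rw [Nat.add_mod_right]
    have hScard : ∀ n, t - 1 ≤ (S n).card := by
      intro n
      show t - 1 ≤ (if n % 2 = 0 then Q.map g else P.map g).card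
      split_ifs
      · rwa [card_map]
      · rwa [card_map]
    have hSout : ∀ w : (Fin m ⊕ Fin (L + 4)) ⊕ Fin 2, (∀ x : Fin m, w ≠ Sum.inl (Sum.inl x)) →
        ∀ i, f w ∉ S i := by
      intro w hw i hmem
      have h1 : ∀ K : Finset (Fin m), f w ∉ K.map g := by
        intro K hK
        rw [mem_map] at hK
        obtain ⟨x, -, hx⟩ := hK
        exact hw x (f.injective hx.symm)
      change f w ∈ (if i % 2 = 0 then Q.map g else P.map g) at hmem
      split_ifs at hmem
      · exact h1 _ hmem
      · exact h1 _ hmem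
    have hadj2 : ∀ n, n < L + 4 →
        InClosure (Kst 3 t) G s(f (cpos (L + 4) p0 p2 q1 (n + 2)), f (cpos (L + 4) p0 p2 q1 (n + 3))) ∧
        InClosure (Kst 3 t) G s(f (cpos (L + 4) p0 p2 q1 n), f (cpos (L + 4) p0 p2 q1 (n + 3))) := by
      intro n hn
      rw [cpos_chain hn]
      constructor
      · refine InClosure.base ?_
        rw [mem_edgeSet]
        apply hadj
        right
        exact mem_insert_self _ _
      · refine InClosure.base ?_
        rw [mem_edgeSet]
        apply hadj
        right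
        exact mem_insert_of_mem (mem_insert_self _ _)
    have hall := chain_closure ht S hS2 hScard hSS (L + 4) (fun n => f (cpos (L + 4) p0 p2 q1 n))
      (fun i j hi hj h => cpos_inj h02 h01 h12 hi hj (f.injective h))
      (by
        show g p2 ∈ P.map g
        exact mem_map_of_mem _ hp2)
      (by
        show g q1 ∈ Q.map g
        exact mem_map_of_mem _ hq1)
      (by
        show g p0 ∈ P.map g
        exact mem_map_of_mem _ hp0)
      (by
        intro n hn3 hn i
        obtain ⟨n', rfl⟩ : ∃ n', n = n' + 3 := ⟨n - 3, by omega⟩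
        refine hSout _ (fun x => ?_) i
        rw [cpos_chain (by omega)]
        simp)
      hadj2
    -- the roots
    have hroot : ∀ j, j < 4 → InClosure (Kst 3 t) G s(f (cpos (L + 4) p0 p2 q1 (L + j + 3)),
        f (Sum.inr (if j % 2 = 1 then 0 else 1))) := by
      intro j hj
      rw [cpos_chain (by omega : L + j < L + 4)]
      refine InClosure.base ?_
      rw [mem_edgeSet]
      apply hadj
      left
      simp only [cout]
      refine mem_insert_of_mem (mem_insert_of_mem ?_)
      rw [if_pos (by omega), Nat.add_sub_cancel_left]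
      exact mem_singleton_self _
    have hu1 : InClosure (Kst 3 t) G s(f (cpos (L + 4) p0 p2 q1 (L + 6)), u) := by
      have := hroot 3 (by norm_num)
      rw [← hf0]
      exact this
    have hu2 : InClosure (Kst 3 t) G s(f (cpos (L + 4) p0 p2 q1 (L + 4)), u) := by
      have := hroot 1 (by norm_num)
      rw [← hf0]
      exact this
    have hv1 : InClosure (Kst 3 t) G s(f (cpos (L + 4) p0 p2 q1 (L + 5)), v) := by
      have := hroot 2 (by norm_num)
      rw [← hf1]
      exact this
    have hv2 : InClosure (Kst 3 t) G s(f (cpos (L + 4) p0 p2 q1 (L + 3)), v) := by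
      have := hroot 0 (by norm_num)
      rw [← hf1]
      exact this
    have hN6 := hall (L + 6) (by omega)
    have hN5 := hall (L + 5) (by omega)
    have hN4 := hall (L + 4) (by omega)
    have hN3 := hall (L + 3) (by omega)
    rw [show L + 6 = (L + 4) + 2 by rfl, hS2] at hN6
    rw [show L + 5 = (L + 3) + 2 by rfl, hS2] at hN5
    have hne : ∀ i j, i < L + 7 → j < L + 7 → i ≠ j →
        f (cpos (L + 4) p0 p2 q1 i) ≠ f (cpos (L + 4) p0 p2 q1 j) := by
      intro i j hi hj hij h
      exact hij (cpos_inj h02 h01 h12 hi hj (f.injective h))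
    have huS : ∀ i, u ∉ S i := by
      intro i
      rw [← hf0]
      exact hSout _ (fun x => by simp) i
    have hvS : ∀ i, v ∉ S i := by
      intro i
      rw [← hf1]
      exact hSout _ (fun x => by simp) i
    have hne0 : ∀ i, i < L + 7 → f (cpos (L + 4) p0 p2 q1 i) ≠ u := by
      intro i hi h
      rw [← hf0] at h
      exact cpos_ne_root (by omega) _ (f.injective h)
    have hne1 : ∀ i, i < L + 7 → f (cpos (L + 4) p0 p2 q1 i) ≠ v := by
      intro i hi h
      rw [← hf1] at h
      exact cpos_ne_root (by omega) _ (f.injective h)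
    have huN : NK t G (S (L + 3)) u := by
      refine ⟨huS _, fun q hq => ?_⟩
      rw [Sym2.eq_swap]
      have hq' : NK t G (S (L + 4)) q := hSS (L + 3) q hq
      exact join ht (hScard (L + 4)) hN6 hN4 hq' (hne _ _ (by omega) (by omega) (by omega)) (huS _)
        (fun h => huS _ (h ▸ hq)) (hne0 _ (by omega)) (hne0 _ (by omega)) hu1 hu2
    exact join ht (hScard (L + 3)) hN5 hN3 huN (hne _ _ (by omega) (by omega) (by omega)) (hvS _)
      huv (hne1 _ (by omega)) (hne1 _ (by omega)) hv1 hv2

end MP30c94c
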