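import Mathlib
import Pool.Agent.Lib.MP30c94c.KUBC
import Pool.Agent.Lib.MP30c94c.KLBB

/-!
# Seeds for `K_{3,5}`, `K_{3,6}`, `K_{3,7}`

(helper57)
-/

open SimpleGraph Finset

namespace MP30c94c

attribute [local instance] Classical.propDecidable

namespace KUBSeeds

/-- adjacency given by bit masks -/
def adjB (L : List ℕ) (n : ℕ) (u v : Fin n) : Bool := (L.getD u.val 0).testBit v.val

/-- the part of the weight of the edge `uv` which is given to `u` -/
def gB (L : List ℕ) (n : ℕ) (u v : Fin n) : ℕ := (L.getD u.val 0) / 64 ^ v.val % 64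

/-- sparsity from a distribution of the weights of the edges to their end points -/
theorem cert {n : ℕ} (F : SimpleGraph (Fin n)) (adj : Fin n → Fin n → Bool)
    (hadj : ∀ u v, F.Adj u v ↔ adj u v = true) (g : Fin n → Fin n → ℕ) (a b : ℕ)
    (hg : ∀ u v, adj u v = true → g u v + g v u = b)
    (ha : ∀ u, ∑ v, (if adj u v = true then g u v else 0) ≤ a) (U : Finset (Fin n)) :
    b * eIn F U ≤ a * U.card := by
  have h1 := sum_adj_eq F U
  have hsymm : ∀ u v, adj u v = true ↔ adj v u = true := fun u v => by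
    rw [← hadj, ← hadj]; exact F.adj_comm u v
  have h2 : ∑ i ∈ U, ∑ j ∈ U, (if adj i j = true then b else 0) = 2 * (b * eIn F U) := by
    have h3 : ∑ i ∈ U, ∑ j ∈ U, (if adj i j = true then b else 0) =
        b * ∑ i ∈ U, ∑ j ∈ U, (if adj i j = true then 1 else 0) := by
      rw [Finset.mul_sum]
      refine Finset.sum_congr rfl fun i _ => ?_
      rw [Finset.mul_sum]
      refine Finset.sum_congr rfl fun j _ => ?_
      split_ifs <;> simp
    have h4 : ∑ i ∈ U, ∑ j ∈ U, (if adj i j = true then 1 else 0) = 2 * eIn F U := by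
      have h5 : ((∑ i ∈ U, ∑ j ∈ U, (if adj i j = true then 1 else 0) : ℕ) : ℤ) =
          ((2 * eIn F U : ℕ) : ℤ) := by
        push_cast
        rw [← h1]
        refine Finset.sum_congr rfl fun i _ => Finset.sum_congr rfl fun j _ => ?_
        by_cases h : adj i j = true
        · rw [if_pos h, if_pos ((hadj i j).2 h)]
        · rw [if_neg h, if_neg fun h' => h ((hadj i j).1 h')]
      exact_mod_cast h5
    rw [h3, h4]
    ring
  have h3 : ∑ i ∈ U, ∑ j ∈ U, (if adj i j = true then b else 0) =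
      ∑ i ∈ U, ∑ j ∈ U, (if adj i j = true then g i j else 0) +
      ∑ i ∈ U, ∑ j ∈ U, (if adj i j = true then g j i else 0) := by
    rw [← Finset.sum_add_distrib]
    refine Finset.sum_congr rfl fun i _ => ?_
    rw [← Finset.sum_add_distrib]
    refine Finset.sum_congr rfl fun j _ => ?_
    by_cases h : adj i j = true
    · rw [if_pos h, if_pos h, if_pos h, hg i j h]
    · rw [if_neg h, if_neg h, if_neg h]
  have h4 : ∑ i ∈ U, ∑ j ∈ U, (if adj i j = true then g j i else 0) =
      ∑ i ∈ U, ∑ j ∈ U, (if adj i j = true then g i j else 0) := by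
    rw [Finset.sum_comm]
    refine Finset.sum_congr rfl fun i _ => Finset.sum_congr rfl fun j _ => ?_
    by_cases h : adj i j = true
    · rw [if_pos h, if_pos ((hsymm i j).1 h)]
    · rw [if_neg h, if_neg fun h' => h ((hsymm i j).2 h')]
  have h5 : ∑ i ∈ U, ∑ j ∈ U, (if adj i j = true then g i j else 0) ≤ U.card * a := by
    rw [← smul_eq_mul, ← Finset.sum_const]
    refine Finset.sum_le_sum fun i _ => ?_
    refine le_trans ?_ (ha i)
    exact Finset.sum_le_sum_of_subset (Finset.subset_univ U)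
  rw [h2, h4] at h3
  nlinarith

/-- the closure rule of `K_{3,t}` -/
theorem rule {V : Type} [Fintype V] {G : SimpleGraph V} {t : ℕ} (ht : 1 ≤ t) {x y z w : V} (N : Finset V)
    (hN : t - 1 ≤ N.card) (hxy : x ≠ y) (hxz : x ≠ z) (hyz : y ≠ z)
    (hNx : ∀ n ∈ N, n ≠ x ∧ n ≠ y ∧ n ≠ z)
    (h : ∀ n ∈ N, InClosure (Kst 3 t) G s(x, n) ∧ InClosure (Kst 3 t) G s(y, n) ∧
      InClosure (Kst 3 t) G s(z, n))
    (hw : w ≠ x ∧ w ≠ y ∧ w ≠ z) (hx : InClosure (Kst 3 t) G s(x, w))
    (hy : InClosure (Kst 3 t) G s(y, w)) : InClosure (Kst 3 t) G s(z, w) := by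
  by_cases hwN : w ∈ N
  · exact (h w hwN).2.2
  obtain ⟨N', hN', hcard⟩ := Finset.exists_subset_card_eq hN
  have hwN' : w ∉ N' := fun h => hwN (hN' h)
  set T := insert w N' with hT
  have hTc : T.card = t := by
    rw [hT, card_insert_of_notMem hwN', hcard]; omega
  let e := T.equivFinOfCardEq hTc
  have hTx : ∀ n ∈ T, n ≠ x ∧ n ≠ y ∧ n ≠ z := by
    intro n hn
    rw [hT, mem_insert] at hn
    rcases hn with rfl | hn
    · exact hw
    · exact hNx n (hN' hn)
  let f : Fin 3 ⊕ Fin t ↪ V := ⟨Sum.elim ![x, y, z] (fun j => ((e.symm j : T) : V)), by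
    rintro (i | i) (j | j) hij
    · congr 1
      simp only [Sum.elim_inl] at hij
      fin_cases i <;> fin_cases j <;> simp_all
    · exfalso
      simp only [Sum.elim_inl, Sum.elim_inr] at hij
      have h1 := hTx _ (e.symm j).2
      fin_cases i
      · exact h1.1 hij.symm
      · exact h1.2.1 hij.symm
      · exact h1.2.2 hij.symm
    · exfalso
      simp only [Sum.elim_inl, Sum.elim_inr] at hij
      have h1 := hTx _ (e.symm i).2
      fin_cases j
      · exact h1.1 hij
      · exact h1.2.1 hij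
      · exact h1.2.2 hij
    · congr 1
      simp only [Sum.elim_inr] at hij
      exact e.symm.injective (Subtype.ext hij)⟩
  have hf0 : f (Sum.inl 0) = x := rfl
  have hf1 : f (Sum.inl 1) = y := rfl
  have hf2 : f (Sum.inl 2) = z := rfl
  have hfr : ∀ j, f (Sum.inr j) ∈ T := fun j => (e.symm j).2
  refine .step f ((mem_edgeSet _).2 ?_) ?_
  · rw [map_adj]
    refine ⟨Sum.inl 2, Sum.inr (e ⟨w, mem_insert_self _ _⟩), by simp, hf2, ?_⟩
    show ((e.symm (e ⟨w, mem_insert_self _ _⟩) : T) : V) = w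
    rw [Equiv.symm_apply_apply]
  · intro e' he' hne
    obtain ⟨⟨i, j⟩, rfl⟩ := (KLBB.mem_copy f).1 he'
    have h1 := hfr j
    simp only at hne ⊢
    rw [hT, mem_insert] at h1
    fin_cases i
    · show InClosure (Kst 3 t) G s(x, f (Sum.inr j))
      rcases h1 with h1 | h1
      · rw [h1]; exact hx
      · exact (h _ (hN' h1)).1
    · show InClosure (Kst 3 t) G s(y, f (Sum.inr j))
      rcases h1 with h1 | h1
      · rw [h1]; exact hy
      · exact (h _ (hN' h1)).2.1
    · show InClosure (Kst 3 t) G s(z, f (Sum.inr j))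
      rcases h1 with h1 | h1
      · exfalso
        apply hne
        show s(z, f (Sum.inr j)) = s(z, w)
        rw [h1]
      · exact (h _ (hN' h1)).2.2

/-! ### `K_{3,5}` -/

def A5 : List ℕ :=
  [4080, 4080, 240, 3840, 7, 7, 7, 7, 11, 11, 11, 11]

def G5 : List ℕ :=
  [74939897799445053440, 1090519040, 4466765987840, 18295873486192640, 4097, 4097, 65, 65, 65, 65,
  262208, 262208]

def F5 : SimpleGraph (Fin 12) where
  Adj u v := adjB A5 12 u v = true
  symm := ⟨by decide +kernel⟩
  loopless := ⟨by decide +kernel⟩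

/-! ### `K_{3,6}` -/

def A6 : List ℕ :=
  [2359280, 2359280, 496, 15872, 7, 7, 7, 7, 7, 11, 11, 11, 11, 11, 1835011, 1835011, 262147,
  524291, 114688, 180224, 2146304, 1048579]

def G6 : List ℕ :=
  [30582075948868571834999199760384, 1020847131186429795867629458569727836160, 4860331021041664,
  1126710554775550689280, 90454, 58198, 62545, 21910, 21910, 1312150, 1312150, 1836436, 5768581,
  5768581, 1622592768292133633915780102882710, 1622592768292133633915780102882710,
  2271629875608987087482092144035220, 353076186380368278740073750386967568,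
  1209796246204751707711964446720, 25380672227317370745451341414400,
  425352958678833302082000974806987571200, 22596875928343569839364720024765858454]

def F6 : SimpleGraph (Fin 22) where
  Adj u v := adjB A6 22 u v = true
  symm := ⟨by decide +kernel⟩
  loopless := ⟨by decide +kernel⟩

/-! ### `K_{3,7}` -/

def A7 : List ℕ :=
  [4563402720, 4563402720, 2016, 129024, 8257536, 7, 7, 7, 7, 7, 7, 11, 11, 11, 11, 11, 11, 19, 19,
  19, 19, 19, 19, 4026531843, 4026531843, 268435459, 536870915, 1073741827, 58720256, 92274688,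
  159383552, 4320133120, 2147483651]

def G7 : List ℕ :=
  [6042670469401528961721782589247138562048, 6120038138990263194388022729483397471872938409984,
  8198539307556798464, 98863258827710086416171008, 6793831415055969915628613198453669888, 45323,
  41291, 29195, 17099, 17099, 17099, 1049291, 1049291, 1049291, 1573577, 2884292, 2884292,
  67109579, 67109579, 67109579, 100664009, 184550084, 184549706,
  199224420312565551586585113529540193870436085883868283595,
  98080837048674357068375390167571313856958399575943545547,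
  1496577676626844588240573268701473812127674924008139,
  167616699782206593882944206094565066958299591488832011,
  7662477704329444291791735135751545918093695610918011531,
  10172972751110961603392738983905764283860910080,
  365624550470490563856330552531647998327682760704,
  35076287740181147417111872156552173694894783594496,
  43939712147706991490344804812053959548359596686039138172928,
  392318858461667547739736838950479151006397215279002157771]

def F7 : SimpleGraph (Fin 33) where
  Adj u v := adjB A7 33 u v = true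
  symm := ⟨by decide +kernel⟩
  loopless := ⟨by decide +kernel⟩

theorem sparse5 (U : Finset (Fin 12)) : 1 * eIn F5 U ≤ 2 * U.card :=
  cert F5 (adjB A5 12) (fun _ _ => Iff.rfl) (gB G5 12) 2 1 (by decide +kernel)
    (by decide +kernel) U

theorem sparse6 (U : Finset (Fin 22)) : 22 * eIn F6 U ≤ 49 * U.card :=
  cert F6 (adjB A6 22) (fun _ _ => Iff.rfl) (gB G6 22) 49 22 (by decide +kernel)
    (by decide +kernel) U

theorem sparse7 (U : Finset (Fin 33)) : 11 * eIn F7 U ≤ 26 * U.card :=
  cert F7 (adjB A7 33) (fun _ _ => Iff.rfl) (gB G7 33) 26 11 (by decide +kernel)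
    (by decide +kernel) U

theorem bs {n t : ℕ} {F : SimpleGraph (Fin n)} {u v : Fin n} (h : F.Adj u v) :
    InClosure (Kst 3 t) F s(u, v) := .base ((mem_edgeSet _).2 h)

theorem sw {n t : ℕ} {F : SimpleGraph (Fin n)} {u v : Fin n}
    (h : InClosure (Kst 3 t) F s(u, v)) : InClosure (Kst 3 t) F s(v, u) := by
  rw [Sym2.eq_swap]; exact h

theorem close5 : ∀ p ∈ (Finset.Icc 0 3 : Finset (Fin 12)), ∀ q ∈ (Finset.Icc 4 11 : Finset (Fin 12)),
    InClosure (Kst 3 5) F5 s(p, q) := by
  have b0 : ∀ n : Fin 12, 4 ≤ n → F5.Adj 0 n := by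
    show ∀ n : Fin 12, 4 ≤ n → adjB A5 12 0 n = true
    decide +kernel
  have b1 : ∀ n : Fin 12, 4 ≤ n → F5.Adj 1 n := by
    show ∀ n : Fin 12, 4 ≤ n → adjB A5 12 1 n = true
    decide +kernel
  have b2 : ∀ n ∈ (Finset.Icc 4 7 : Finset (Fin 12)), F5.Adj 2 n := by
    show ∀ n ∈ (Finset.Icc 4 7 : Finset (Fin 12)), adjB A5 12 2 n = true
    decide +kernel
  have b3 : ∀ n ∈ (Finset.Icc 8 11 : Finset (Fin 12)), F5.Adj 3 n := by
    show ∀ n ∈ (Finset.Icc 8 11 : Finset (Fin 12)), adjB A5 12 3 n = true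
    decide +kernel
  have c2 : ∀ n : Fin 12, 4 ≤ n → InClosure (Kst 3 5) F5 s(2, n) := fun n hn =>
    rule (by norm_num) (x := 0) (y := 1) (Finset.Icc 4 7) (by decide +kernel) (by decide)
      (by decide) (by decide) (by decide +kernel)
      (fun m hm => ⟨bs (b0 m (Finset.mem_Icc.1 hm).1), bs (b1 m (Finset.mem_Icc.1 hm).1),
        bs (b2 m hm)⟩)
      ⟨by rintro rfl; revert hn; decide, by rintro rfl; revert hn; decide,
        by rintro rfl; revert hn; decide⟩ (bs (b0 n hn)) (bs (b1 n hn))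
  have c3 : ∀ n : Fin 12, 4 ≤ n → InClosure (Kst 3 5) F5 s(3, n) := fun n hn =>
    rule (by norm_num) (x := 0) (y := 1) (Finset.Icc 8 11) (by decide +kernel) (by decide)
      (by decide) (by decide) (by decide +kernel)
      (fun m hm => ⟨bs (b0 m (le_trans (by decide) (Finset.mem_Icc.1 hm).1)),
        bs (b1 m (le_trans (by decide) (Finset.mem_Icc.1 hm).1)), bs (b3 m hm)⟩)
      ⟨by rintro rfl; revert hn; decide, by rintro rfl; revert hn; decide,
        by rintro rfl; revert hn; decide⟩ (bs (b0 n hn)) (bs (b1 n hn))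
  intro p hp q hq
  have hq' := (Finset.mem_Icc.1 hq).1
  have hp' : p = 0 ∨ p = 1 ∨ p = 2 ∨ p = 3 := by
    revert hp; revert p; decide +kernel
  rcases hp' with rfl | rfl | rfl | rfl
  · exact bs (b0 q hq')
  · exact bs (b1 q hq')
  · exact c2 q hq'
  · exact c3 q hq'

def P6 : Finset (Fin 22) := insert 20 (Finset.Icc 0 3)

def Q6 : Finset (Fin 22) := insert 21 (Finset.Icc 4 17)

theorem close6 : ∀ p ∈ P6, ∀ q ∈ Q6, InClosure (Kst 3 6) F6 s(p, q) := by
  have b0 : ∀ n ∈ Q6, F6.Adj 0 n := by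
    show ∀ n ∈ Q6, adjB A6 22 0 n = true
    decide +kernel
  have b1 : ∀ n ∈ Q6, F6.Adj 1 n := by
    show ∀ n ∈ Q6, adjB A6 22 1 n = true
    decide +kernel
  have b2 : ∀ n ∈ (Finset.Icc 4 8 : Finset (Fin 22)), F6.Adj 2 n := by
    show ∀ n ∈ (Finset.Icc 4 8 : Finset (Fin 22)), adjB A6 22 2 n = true
    decide +kernel
  have s2 : ∀ n ∈ (Finset.Icc 4 8 : Finset (Fin 22)), n ∈ Q6 := by decide +kernel
  have b3 : ∀ n ∈ (Finset.Icc 9 13 : Finset (Fin 22)), F6.Adj 3 n := by
    show ∀ n ∈ (Finset.Icc 9 13 : Finset (Fin 22)), adjB A6 22 3 n = true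
    decide +kernel
  have s3 : ∀ n ∈ (Finset.Icc 9 13 : Finset (Fin 22)), n ∈ Q6 := by decide +kernel
  have hne : ∀ n ∈ Q6, n ≠ 0 ∧ n ≠ 1 ∧ n ≠ 2 ∧ n ≠ 3 ∧ n ≠ 20 := by decide +kernel
  have c0 : ∀ n ∈ Q6, InClosure (Kst 3 6) F6 s(0, n) := fun n hn => bs (b0 n hn)
  have c1 : ∀ n ∈ Q6, InClosure (Kst 3 6) F6 s(1, n) := fun n hn => bs (b1 n hn)
  have c2 : ∀ n ∈ Q6, InClosure (Kst 3 6) F6 s(2, n) := fun n hn =>
    rule (by norm_num) (x := 0) (y := 1) (Finset.Icc 4 8) (by decide +kernel) (by decide)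
      (by decide) (by decide) (by decide +kernel)
      (fun m hm => ⟨c0 m (s2 m hm), c1 m (s2 m hm), bs (b2 m hm)⟩)
      ⟨(hne n hn).1, (hne n hn).2.1, (hne n hn).2.2.1⟩ (c0 n hn) (c1 n hn)
  have c3 : ∀ n ∈ Q6, InClosure (Kst 3 6) F6 s(3, n) := fun n hn =>
    rule (by norm_num) (x := 0) (y := 1) (Finset.Icc 9 13) (by decide +kernel) (by decide)
      (by decide) (by decide) (by decide +kernel)
      (fun m hm => ⟨c0 m (s3 m hm), c1 m (s3 m hm), bs (b3 m hm)⟩)
      ⟨(hne n hn).1, (hne n hn).2.1, (hne n hn).2.2.2.1⟩ (c0 n hn) (c1 n hn)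
  have q14 : (14 : Fin 22) ∈ Q6 := by decide +kernel
  have q15 : (15 : Fin 22) ∈ Q6 := by decide +kernel
  have q16 : (16 : Fin 22) ∈ Q6 := by decide +kernel
  have q17 : (17 : Fin 22) ∈ Q6 := by decide +kernel
  have q21 : (21 : Fin 22) ∈ Q6 := by decide +kernel
  have d16 : InClosure (Kst 3 6) F6 s(16, 20) := by
    refine rule (by norm_num) (x := 14) (y := 15) {0, 1, 2, 3, 18} (by decide +kernel)
      (by decide) (by decide) (by decide) (by decide +kernel) ?_ (by decide) ?_ ?_
    · intro m hm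
      simp only [Finset.mem_insert, Finset.mem_singleton] at hm
      rcases hm with rfl | rfl | rfl | rfl | rfl
      · exact ⟨sw (c0 _ q14), sw (c0 _ q15), sw (c0 _ q16)⟩
      · exact ⟨sw (c1 _ q14), sw (c1 _ q15), sw (c1 _ q16)⟩
      · exact ⟨sw (c2 _ q14), sw (c2 _ q15), sw (c2 _ q16)⟩
      · exact ⟨sw (c3 _ q14), sw (c3 _ q15), sw (c3 _ q16)⟩
      · exact ⟨bs (show adjB A6 22 14 18 = true by decide +kernel),
          bs (show adjB A6 22 15 18 = true by decide +kernel),
          bs (show adjB A6 22 16 18 = true by decide +kernel)⟩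
    · exact bs (show adjB A6 22 14 20 = true by decide +kernel)
    · exact bs (show adjB A6 22 15 20 = true by decide +kernel)
  have d17 : InClosure (Kst 3 6) F6 s(17, 20) := by
    refine rule (by norm_num) (x := 14) (y := 15) {0, 1, 2, 3, 19} (by decide +kernel)
      (by decide) (by decide) (by decide) (by decide +kernel) ?_ (by decide) ?_ ?_
    · intro m hm
      simp only [Finset.mem_insert, Finset.mem_singleton] at hm
      rcases hm with rfl | rfl | rfl | rfl | rfl
      · exact ⟨sw (c0 _ q14), sw (c0 _ q15), sw (c0 _ q17)⟩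
      · exact ⟨sw (c1 _ q14), sw (c1 _ q15), sw (c1 _ q17)⟩
      · exact ⟨sw (c2 _ q14), sw (c2 _ q15), sw (c2 _ q17)⟩
      · exact ⟨sw (c3 _ q14), sw (c3 _ q15), sw (c3 _ q17)⟩
      · exact ⟨bs (show adjB A6 22 14 19 = true by decide +kernel),
          bs (show adjB A6 22 15 19 = true by decide +kernel),
          bs (show adjB A6 22 17 19 = true by decide +kernel)⟩
    · exact bs (show adjB A6 22 14 20 = true by decide +kernel)
    · exact bs (show adjB A6 22 15 20 = true by decide +kernel)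
  have c20 : ∀ n ∈ Q6, InClosure (Kst 3 6) F6 s(20, n) := by
    intro n hn
    refine rule (by norm_num) (x := 0) (y := 1) {14, 15, 16, 17, 21} (by decide +kernel) (by decide)
      (by decide) (by decide) (by decide +kernel) ?_
      ⟨(hne n hn).1, (hne n hn).2.1, (hne n hn).2.2.2.2⟩ (c0 n hn) (c1 n hn)
    intro m hm
    simp only [Finset.mem_insert, Finset.mem_singleton] at hm
    rcases hm with rfl | rfl | rfl | rfl | rfl
    · exact ⟨c0 _ q14, c1 _ q14, bs (show adjB A6 22 20 14 = true by decide +kernel)⟩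
    · exact ⟨c0 _ q15, c1 _ q15, bs (show adjB A6 22 20 15 = true by decide +kernel)⟩
    · exact ⟨c0 _ q16, c1 _ q16, sw d16⟩
    · exact ⟨c0 _ q17, c1 _ q17, sw d17⟩
    · exact ⟨c0 _ q21, c1 _ q21, bs (show adjB A6 22 20 21 = true by decide +kernel)⟩
  intro p hp q hq
  have hp' : p = 0 ∨ p = 1 ∨ p = 2 ∨ p = 3 ∨ p = 20 := by
    revert hp; revert p; decide +kernel
  rcases hp' with rfl | rfl | rfl | rfl | rfl
  · exact c0 q hq
  · exact c1 q hq
  · exact c2 q hq
  · exact c3 q hq
  · exact c20 q hq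

def P7 : Finset (Fin 33) := insert 31 (Finset.Icc 0 4)

def Q7 : Finset (Fin 33) := insert 32 (Finset.Icc 5 27)

theorem close7 : ∀ p ∈ P7, ∀ q ∈ Q7, InClosure (Kst 3 7) F7 s(p, q) := by
  have b0 : ∀ n ∈ Q7, F7.Adj 0 n := by
    show ∀ n ∈ Q7, adjB A7 33 0 n = true
    decide +kernel
  have b1 : ∀ n ∈ Q7, F7.Adj 1 n := by
    show ∀ n ∈ Q7, adjB A7 33 1 n = true
    decide +kernel
  have b2 : ∀ n ∈ (Finset.Icc 5 10 : Finset (Fin 33)), F7.Adj 2 n := by
    show ∀ n ∈ (Finset.Icc 5 10 : Finset (Fin 33)), adjB A7 33 2 n = true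
    decide +kernel
  have s2 : ∀ n ∈ (Finset.Icc 5 10 : Finset (Fin 33)), n ∈ Q7 := by decide +kernel
  have b3 : ∀ n ∈ (Finset.Icc 11 16 : Finset (Fin 33)), F7.Adj 3 n := by
    show ∀ n ∈ (Finset.Icc 11 16 : Finset (Fin 33)), adjB A7 33 3 n = true
    decide +kernel
  have s3 : ∀ n ∈ (Finset.Icc 11 16 : Finset (Fin 33)), n ∈ Q7 := by decide +kernel
  have b4 : ∀ n ∈ (Finset.Icc 17 22 : Finset (Fin 33)), F7.Adj 4 n := by
    show ∀ n ∈ (Finset.Icc 17 22 : Finset (Fin 33)), adjB A7 33 4 n = true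
    decide +kernel
  have s4 : ∀ n ∈ (Finset.Icc 17 22 : Finset (Fin 33)), n ∈ Q7 := by decide +kernel
  have hne : ∀ n ∈ Q7, n ≠ 0 ∧ n ≠ 1 ∧ n ≠ 2 ∧ n ≠ 3 ∧ n ≠ 4 ∧ n ≠ 31 := by decide +kernel
  have c0 : ∀ n ∈ Q7, InClosure (Kst 3 7) F7 s(0, n) := fun n hn => bs (b0 n hn)
  have c1 : ∀ n ∈ Q7, InClosure (Kst 3 7) F7 s(1, n) := fun n hn => bs (b1 n hn)
  have c2 : ∀ n ∈ Q7, InClosure (Kst 3 7) F7 s(2, n) := fun n hn =>
    rule (by norm_num) (x := 0) (y := 1) (Finset.Icc 5 10) (by decide +kernel) (by decide)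
      (by decide) (by decide) (by decide +kernel)
      (fun m hm => ⟨c0 m (s2 m hm), c1 m (s2 m hm), bs (b2 m hm)⟩)
      ⟨(hne n hn).1, (hne n hn).2.1, (hne n hn).2.2.1⟩ (c0 n hn) (c1 n hn)
  have c3 : ∀ n ∈ Q7, InClosure (Kst 3 7) F7 s(3, n) := fun n hn =>
    rule (by norm_num) (x := 0) (y := 1) (Finset.Icc 11 16) (by decide +kernel) (by decide)
      (by decide) (by decide) (by decide +kernel)
      (fun m hm => ⟨c0 m (s3 m hm), c1 m (s3 m hm), bs (b3 m hm)⟩)
      ⟨(hne n hn).1, (hne n hn).2.1, (hne n hn).2.2.2.1⟩ (c0 n hn) (c1 n hn)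
  have c4 : ∀ n ∈ Q7, InClosure (Kst 3 7) F7 s(4, n) := fun n hn =>
    rule (by norm_num) (x := 0) (y := 1) (Finset.Icc 17 22) (by decide +kernel) (by decide)
      (by decide) (by decide) (by decide +kernel)
      (fun m hm => ⟨c0 m (s4 m hm), c1 m (s4 m hm), bs (b4 m hm)⟩)
      ⟨(hne n hn).1, (hne n hn).2.1, (hne n hn).2.2.2.2.1⟩ (c0 n hn) (c1 n hn)
  have q23 : (23 : Fin 33) ∈ Q7 := by decide +kernel
  have q24 : (24 : Fin 33) ∈ Q7 := by decide +kernel
  have q25 : (25 : Fin 33) ∈ Q7 := by decide +kernel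
  have q26 : (26 : Fin 33) ∈ Q7 := by decide +kernel
  have q27 : (27 : Fin 33) ∈ Q7 := by decide +kernel
  have q32 : (32 : Fin 33) ∈ Q7 := by decide +kernel
  have d25 : InClosure (Kst 3 7) F7 s(25, 31) := by
    refine rule (by norm_num) (x := 23) (y := 24) {0, 1, 2, 3, 4, 28} (by decide +kernel)
      (by decide) (by decide) (by decide) (by decide +kernel) ?_ (by decide) ?_ ?_
    · intro m hm
      simp only [Finset.mem_insert, Finset.mem_singleton] at hm
      rcases hm with rfl | rfl | rfl | rfl | rfl | rfl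
      · exact ⟨sw (c0 _ q23), sw (c0 _ q24), sw (c0 _ q25)⟩
      · exact ⟨sw (c1 _ q23), sw (c1 _ q24), sw (c1 _ q25)⟩
      · exact ⟨sw (c2 _ q23), sw (c2 _ q24), sw (c2 _ q25)⟩
      · exact ⟨sw (c3 _ q23), sw (c3 _ q24), sw (c3 _ q25)⟩
      · exact ⟨sw (c4 _ q23), sw (c4 _ q24), sw (c4 _ q25)⟩
      · exact ⟨bs (show adjB A7 33 23 28 = true by decide +kernel),
          bs (show adjB A7 33 24 28 = true by decide +kernel),
          bs (show adjB A7 33 25 28 = true by decide +kernel)⟩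
    · exact bs (show adjB A7 33 23 31 = true by decide +kernel)
    · exact bs (show adjB A7 33 24 31 = true by decide +kernel)
  have d26 : InClosure (Kst 3 7) F7 s(26, 31) := by
    refine rule (by norm_num) (x := 23) (y := 24) {0, 1, 2, 3, 4, 29} (by decide +kernel)
      (by decide) (by decide) (by decide) (by decide +kernel) ?_ (by decide) ?_ ?_
    · intro m hm
      simp only [Finset.mem_insert, Finset.mem_singleton] at hm
      rcases hm with rfl | rfl | rfl | rfl | rfl | rfl
      · exact ⟨sw (c0 _ q23), sw (c0 _ q24), sw (c0 _ q26)⟩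
      · exact ⟨sw (c1 _ q23), sw (c1 _ q24), sw (c1 _ q26)⟩
      · exact ⟨sw (c2 _ q23), sw (c2 _ q24), sw (c2 _ q26)⟩
      · exact ⟨sw (c3 _ q23), sw (c3 _ q24), sw (c3 _ q26)⟩
      · exact ⟨sw (c4 _ q23), sw (c4 _ q24), sw (c4 _ q26)⟩
      · exact ⟨bs (show adjB A7 33 23 29 = true by decide +kernel),
          bs (show adjB A7 33 24 29 = true by decide +kernel),
          bs (show adjB A7 33 26 29 = true by decide +kernel)⟩
    · exact bs (show adjB A7 33 23 31 = true by decide +kernel)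
    · exact bs (show adjB A7 33 24 31 = true by decide +kernel)
  have d27 : InClosure (Kst 3 7) F7 s(27, 31) := by
    refine rule (by norm_num) (x := 23) (y := 24) {0, 1, 2, 3, 4, 30} (by decide +kernel)
      (by decide) (by decide) (by decide) (by decide +kernel) ?_ (by decide) ?_ ?_
    · intro m hm
      simp only [Finset.mem_insert, Finset.mem_singleton] at hm
      rcases hm with rfl | rfl | rfl | rfl | rfl | rfl
      · exact ⟨sw (c0 _ q23), sw (c0 _ q24), sw (c0 _ q27)⟩
      · exact ⟨sw (c1 _ q23), sw (c1 _ q24), sw (c1 _ q27)⟩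
      · exact ⟨sw (c2 _ q23), sw (c2 _ q24), sw (c2 _ q27)⟩
      · exact ⟨sw (c3 _ q23), sw (c3 _ q24), sw (c3 _ q27)⟩
      · exact ⟨sw (c4 _ q23), sw (c4 _ q24), sw (c4 _ q27)⟩
      · exact ⟨bs (show adjB A7 33 23 30 = true by decide +kernel),
          bs (show adjB A7 33 24 30 = true by decide +kernel),
          bs (show adjB A7 33 27 30 = true by decide +kernel)⟩
    · exact bs (show adjB A7 33 23 31 = true by decide +kernel)
    · exact bs (show adjB A7 33 24 31 = true by decide +kernel)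
  have c31 : ∀ n ∈ Q7, InClosure (Kst 3 7) F7 s(31, n) := by
    intro n hn
    refine rule (by norm_num) (x := 0) (y := 1) {23, 24, 25, 26, 27, 32} (by decide +kernel) (by decide)
      (by decide) (by decide) (by decide +kernel) ?_
      ⟨(hne n hn).1, (hne n hn).2.1, (hne n hn).2.2.2.2.2⟩ (c0 n hn) (c1 n hn)
    intro m hm
    simp only [Finset.mem_insert, Finset.mem_singleton] at hm
    rcases hm with rfl | rfl | rfl | rfl | rfl | rfl
    · exact ⟨c0 _ q23, c1 _ q23, bs (show adjB A7 33 31 23 = true by decide +kernel)⟩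
    · exact ⟨c0 _ q24, c1 _ q24, bs (show adjB A7 33 31 24 = true by decide +kernel)⟩
    · exact ⟨c0 _ q25, c1 _ q25, sw d25⟩
    · exact ⟨c0 _ q26, c1 _ q26, sw d26⟩
    · exact ⟨c0 _ q27, c1 _ q27, sw d27⟩
    · exact ⟨c0 _ q32, c1 _ q32, bs (show adjB A7 33 31 32 = true by decide +kernel)⟩
  intro p hp q hq
  have hp' : p = 0 ∨ p = 1 ∨ p = 2 ∨ p = 3 ∨ p = 4 ∨ p = 31 := by
    revert hp; revert p; decide +kernel
  rcases hp' with rfl | rfl | rfl | rfl | rfl | rfl
  · exact c0 q hq
  · exact c1 q hq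
  · exact c2 q hq
  · exact c3 q hq
  · exact c4 q hq
  · exact c31 q hq

end KUBSeeds

open KUBSeeds

theorem hasGadgets_35 : HasGadgets (Kst 3 5) 2 1 :=
  hasGadgets_of_seed 5 2 1 12 (by norm_num) (by norm_num) F5 sparse5 (Finset.Icc 0 3)
    (Finset.Icc 4 11) (by decide +kernel) (by decide +kernel) (by decide +kernel) close5

theorem hasGadgets_36 : HasGadgets (Kst 3 6) 49 22 :=
  hasGadgets_of_seed 6 49 22 22 (by norm_num) (by norm_num) F6 sparse6 P6 Q6
    (by decide +kernel) (by decide +kernel) (by decide +kernel) close6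

theorem hasGadgets_37 : HasGadgets (Kst 3 7) 26 11 :=
  hasGadgets_of_seed 7 26 11 33 (by norm_num) (by norm_num) F7 sparse7 P7 Q7
    (by decide +kernel) (by decide +kernel) (by decide +kernel) close7

end MP30c94c
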