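import Mathlib
import Pool.Agent.Lib.MP30c94c.KUBL
import Pool.Agent.Lib.MP30c94c.KUBF
import Pool.Agent.Lib.MP30c94c.KUBSeeds
import Pool.Agent.Lib.MP30c94c.KHB
import Pool.Agent.Lib.MP30c94c.KHB78
import Pool.Agent.Lib.MP30c94c.KLBB
import Pool.Agent.Lib.MP30c94c.KLow
import Pool.Agent.Lib.MP30c94c.KMono

/-!
# Assembly for `K_{s,t}`, `s ≥ 3`
-/

open SimpleGraph Finset Filter

namespace MP30c94c

theorem Kst_deg {s t : ℕ} (hs : 2 ≤ s) (ht : 2 ≤ t) (w w' : Fin s ⊕ Fin t)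
    (h : (Kst s t).Adj w w') : ∃ w'', w'' ≠ w' ∧ (Kst s t).Adj w w'' := by
  have hns : Nontrivial (Fin s) := Fin.nontrivial_iff_two_le.2 hs
  have hnt : Nontrivial (Fin t) := Fin.nontrivial_iff_two_le.2 ht
  rcases w with i | j <;> rcases w' with i' | j'
  · simp [Kst] at h
  · obtain ⟨j'', hj⟩ := exists_ne j'
    exact ⟨Sum.inr j'', fun h => hj (Sum.inr_injective h), by simp [Kst]⟩
  · obtain ⟨i'', hi⟩ := exists_ne i'
    exact ⟨Sum.inl i'', fun h => hi (Sum.inl_injective h), by simp [Kst]⟩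
  · simp [Kst] at h

/-- combining a hull property with gadgets of the same density -/
theorem two_sided {W₀ : Type} [Fintype W₀] (H : SimpleGraph W₀) (a b D : ℕ)
    (hb : 0 < b) (hab : b < a) (hD : D < 2 * a) (hD' : 2 * a ≤ b + D)
    (hdeg : ∀ w w', H.Adj w w' → ∃ w'', w'' ≠ w' ∧ H.Adj w w'')
    (hull : HullProp H a b D) (hg : HasGadgets H a b) :
    ∃ C : ℝ, 0 < C ∧ ∀ᶠ n : ℕ in atTop,
      (n : ℝ) ^ (-((b : ℝ) / a)) * (Real.log n) ^ (-C) ≤ pc n H ∧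
      pc n H ≤ (n : ℝ) ^ (-((b : ℝ) / a)) * (Real.log n) ^ C := by
  obtain ⟨C1, hC1, h1⟩ := lower_of_hull H a b D hb hab hD hD' hdeg hull
  obtain ⟨C2, hC2, h2⟩ := upper_of_gadgets H a b hb hab.le hg
  refine ⟨max C1 C2, lt_max_of_lt_left hC1, ?_⟩
  have hlog : ∀ᶠ n : ℕ in atTop, 1 ≤ Real.log n :=
    (Real.tendsto_log_atTop.comp tendsto_natCast_atTop_atTop).eventually_ge_atTop 1
  filter_upwards [h1, h2, hlog] with n h1 h2 hl
  have hn : 0 ≤ (n : ℝ) ^ (-((b : ℝ) / a)) := Real.rpow_nonneg (Nat.cast_nonneg n) _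
  refine ⟨le_trans (mul_le_mul_of_nonneg_left ?_ hn) h1, h2.trans (mul_le_mul_of_nonneg_left ?_ hn)⟩
  · exact Real.rpow_le_rpow_of_exponent_le hl (neg_le_neg (le_max_left _ _))
  · exact Real.rpow_le_rpow_of_exponent_le hl (le_max_right _ _)

/-- all pairs `3 ≤ s ≤ t` except `(3,5)`, `(3,6)`, `(3,7)` -/
theorem hull_generic (s t : ℕ) (hs : 3 ≤ s) (hst : s ≤ t) (h5 : ¬ (s = 3 ∧ t = 5))
    (h6 : ¬ (s = 3 ∧ t = 6)) (h7 : ¬ (s = 3 ∧ t = 7)) :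
    HullProp (Kst s t) (s * t - 2) (s + t - 2) (2 * (s * t - 2) - (s + t - 2)) := by
  rcases Nat.lt_or_ge (s ^ 2 + 4) (t + 3 * s) with h | h
  · by_cases hexc : s = 3 → 10 ≤ t
    · exact hull_unbalanced s t hs hst h hexc
    · push Not at hexc
      obtain ⟨rfl, ht⟩ := hexc
      have ht' : t = 8 ∨ t = 9 := by omega
      rcases ht' with rfl | rfl
      · exact hull_38
      · exact hull_39
  · exact hull_balanced s t hs hst h

theorem two_sided_generic (s t : ℕ) (hs : 3 ≤ s) (hst : s ≤ t) (h5 : ¬ (s = 3 ∧ t = 5))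
    (h6 : ¬ (s = 3 ∧ t = 6)) (h7 : ¬ (s = 3 ∧ t = 7)) :
    ∃ C : ℝ, 0 < C ∧ ∀ᶠ n : ℕ in atTop,
      (n : ℝ) ^ (-(((s : ℝ) + t - 2) / (s * t - 2))) * (Real.log n) ^ (-C) ≤ pc n (Kst s t) ∧
      pc n (Kst s t) ≤ (n : ℝ) ^ (-(((s : ℝ) + t - 2) / (s * t - 2))) * (Real.log n) ^ C := by
  have h1 : 3 * t ≤ s * t := Nat.mul_le_mul_right t hs
  have hlt : s + t - 2 < s * t - 2 := by omega
  have key := two_sided (Kst s t) (s * t - 2) (s + t - 2) (2 * (s * t - 2) - (s + t - 2))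
    (by omega) hlt (by omega) (by omega) (Kst_deg (by omega) (by omega))
    (hull_generic s t hs hst h5 h6 h7) (hasGadgets_ladder s t hs hst)
  have e1 : (((s + t - 2 : ℕ) : ℝ)) = (s : ℝ) + t - 2 := by
    rw [Nat.cast_sub (by omega)]; push_cast; ring
  have e2 : (((s * t - 2 : ℕ) : ℝ)) = (s : ℝ) * t - 2 := by
    rw [Nat.cast_sub (by omega)]; push_cast; ring
  rw [e1, e2] at key
  exact key

theorem two_sided_35 :
    ∃ C : ℝ, 0 < C ∧ ∀ᶠ n : ℕ in atTop,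
      (n : ℝ) ^ (-(1 / 2 : ℝ)) * (Real.log n) ^ (-C) ≤ pc n (Kst 3 5) ∧
      pc n (Kst 3 5) ≤ (n : ℝ) ^ (-(1 / 2 : ℝ)) * (Real.log n) ^ C := by
  obtain ⟨C1, hC1, h1⟩ := two_sided_generic 3 4 le_rfl (by norm_num) (by norm_num) (by norm_num)
    (by norm_num)
  obtain ⟨C2, hC2, h2⟩ := upper_of_gadgets (Kst 3 5) 2 1 (by norm_num) (by norm_num) hasGadgets_35
  refine ⟨max C1 C2, lt_max_of_lt_left hC1, ?_⟩
  have hlog : ∀ᶠ n : ℕ in atTop, 1 ≤ Real.log n :=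
    (Real.tendsto_log_atTop.comp tendsto_natCast_atTop_atTop).eventually_ge_atTop 1
  filter_upwards [h1, h2, hlog] with n h1 h2 hl
  have hn : 0 ≤ (n : ℝ) ^ (-(1 / 2 : ℝ)) := Real.rpow_nonneg (Nat.cast_nonneg n) _
  have e1 : (-(((3 : ℕ) : ℝ) + ((4 : ℕ) : ℝ) - 2) / (((3 : ℕ) : ℝ) * ((4 : ℕ) : ℝ) - 2)) =
      (-(1 / 2 : ℝ)) := by norm_num
  have h1' := h1.1
  rw [← neg_div, e1] at h1'
  have h2' : pc n (Kst 3 5) ≤ (n : ℝ) ^ (-(1 / 2 : ℝ)) * (Real.log n) ^ C2 := by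
    have : (((1 : ℕ) : ℝ) / ((2 : ℕ) : ℝ)) = 1 / 2 := by norm_num
    rw [this] at h2
    exact h2
  refine ⟨?_, h2'.trans (mul_le_mul_of_nonneg_left
    (Real.rpow_le_rpow_of_exponent_le hl (le_max_right _ _)) hn)⟩
  refine le_trans (mul_le_mul_of_nonneg_left
    (Real.rpow_le_rpow_of_exponent_le hl (neg_le_neg (le_max_left _ _))) hn) ?_
  exact h1'.trans (pc_mono n (s := 3) (t := 4) (by norm_num))

end MP30c94c
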