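import Mathlib
import Pool.Agent.Lib.MP30c94c.LBPot

/-!
# Lower bound, part 4: the numerical data
-/

open Finset

namespace MP30c94c

attribute [local instance] Classical.propDecidable

/-- benefit of a big neighbour -/
noncomputable def ben (M : ℕ) (β : ℤ) (a b : ℕ) : ℤ :=
  if a = M ∨ b = M then β * ((min a b : ℕ) - 1 : ℤ) else 0

lemma ben_symm (M : ℕ) (β : ℤ) (a b : ℕ) : ben M β a b = ben M β b a := by
  unfold ben
  rw [min_comm]
  by_cases h : a = M ∨ b = M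
  · rw [if_pos h, if_pos (Or.symm h)]
  · rw [if_neg h, if_neg (fun h' => h (Or.symm h'))]

lemma ben_nonneg {M : ℕ} {β : ℤ} (hβ : 0 ≤ β) {a b : ℕ} (ha : 1 ≤ a) (hb : 1 ≤ b) :
    0 ≤ ben M β a b := by
  unfold ben
  split_ifs
  · have : 1 ≤ min a b := le_min ha hb
    have : (1:ℤ) ≤ (min a b : ℕ) := by exact_mod_cast this
    exact mul_nonneg hβ (by linarith)
  · exact le_rfl

lemma ben_le_right {M : ℕ} {β : ℤ} (hβ : 0 ≤ β) {a b : ℕ} (_ha : 1 ≤ a) (hb : 1 ≤ b) :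
    ben M β a b ≤ β * ((b : ℤ) - 1) := by
  unfold ben
  have h1 : ((min a b : ℕ) : ℤ) ≤ b := by exact_mod_cast min_le_right a b
  have h2 : (1:ℤ) ≤ b := by exact_mod_cast hb
  split_ifs
  · exact mul_le_mul_of_nonneg_left (by linarith) hβ
  · exact mul_nonneg hβ (by linarith)

lemma ben_lt {M : ℕ} {β : ℤ} {a b : ℕ} (ha : a < M) (hb : b < M) : ben M β a b = 0 := by
  unfold ben
  rw [if_neg]
  rintro (h | h) <;> omega

lemma ben_M_left {M : ℕ} {β : ℤ} {b : ℕ} (hb : b ≤ M) : ben M β M b = β * ((b : ℤ) - 1) := by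
  unfold ben
  rw [if_pos (Or.inl rfl), min_eq_right hb]

lemma ben_M_right {M : ℕ} {β : ℤ} {a : ℕ} (ha : a ≤ M) : ben M β a M = β * ((a : ℤ) - 1) := by
  rw [ben_symm, ben_M_left ha]

lemma ben_mono {M : ℕ} {β : ℤ} (hβ : 0 ≤ β) {a c s : ℕ} (ha : 1 ≤ a) (hac : a ≤ c)
    (hc : c ≤ M) (hs : 1 ≤ s) : ben M β a s ≤ ben M β c s := by
  unfold ben
  by_cases hs' : s = M
  · rw [if_pos (Or.inr hs'), if_pos (Or.inr hs')]
    have : ((min a s : ℕ) : ℤ) ≤ ((min c s : ℕ) : ℤ) := by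
      exact_mod_cast min_le_min_right s hac
    exact mul_le_mul_of_nonneg_left (by linarith) hβ
  · by_cases ha' : a = M
    · have : c = M := le_antisymm hc (ha' ▸ hac)
      rw [if_pos (Or.inl ha'), if_pos (Or.inl this), ha', this]
    · rw [if_neg (by tauto)]
      have := ben_nonneg (M := M) hβ (ha.trans hac) hs
      unfold ben at this
      exact this

/-- `I2`-type inequality for the benefit -/
lemma ben_add {M : ℕ} {β : ℤ} (hβ : 0 ≤ β) {a b s : ℕ} (ha : 1 ≤ a) (hb : 1 ≤ b)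
    (hab : a + b ≤ M) (hs : 1 ≤ s) (hsM : s ≤ M) :
    ben M β a s + ben M β b s - ben M β (a + b) s ≤ if s = M then -β else 0 := by
  split_ifs with h
  · subst h
    rw [ben_M_right (by omega), ben_M_right (by omega), ben_M_right hab]
    push_cast
    nlinarith
  · rw [ben_lt (by omega) (by omega), ben_lt (by omega) (by omega)]
    have := ben_nonneg (M := M) hβ (show 1 ≤ a + b by omega) hs
    linarith

/-- The data for `k = 2M`. -/
noncomputable def potEven (M : ℕ) (hM : 2 ≤ M) : Pot where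
  k := 2 * M
  M := M
  N := 4 * M ^ 2
  X := 2 * M ^ 2 + M + 1
  eta := 2 * M + 2
  g a := 4 * M ^ 2 - ((a : ℤ) - 1) * (4 * M)
  w a b := 2 * M ^ 2 + M + 1 - ben M (M - 1) a b
  M2 := hM
  kpos := by omega
  Npos := by positivity
  X0 := by positivity
  eta0 := by positivity
  g1 := by simp
  gle a ha _ := by
    have : (1:ℤ) ≤ a := by exact_mod_cast ha
    have h2 : 0 ≤ ((a:ℤ) - 1) * (4 * M) := mul_nonneg (by linarith) (by positivity)
    linarith
  w11 := by rw [ben_lt (by omega) (by omega)]; ring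
  wsymm a b := by rw [ben_symm]
  w0 a b ha haM hb hbM := by
    have hM' : (2:ℤ) ≤ M := by exact_mod_cast hM
    have h1 := ben_le_right (M := M) (β := (M:ℤ) - 1) (by linarith) ha hb
    have h2 : (b:ℤ) ≤ M := by exact_mod_cast hbM
    have h3 : ((M:ℤ) - 1) * ((b:ℤ) - 1) ≤ (M - 1) * (M - 1) :=
      mul_le_mul_of_nonneg_left (by linarith) (by linarith)
    nlinarith
  gadd a b _ _ _ := by push_cast; ring
  I1 a c s ha hac hc hs hsM := by
    have hM' : (2:ℤ) ≤ M := by exact_mod_cast hM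
    have := ben_mono (M := M) (β := (M:ℤ) - 1) (by linarith) ha hac hc hs
    linarith
  I2 a b s ha hb hab hs hsM := by
    have hM' : (2:ℤ) ≤ M := by exact_mod_cast hM
    have h1 := ben_add (M := M) (β := (M:ℤ) - 1) (by linarith) ha hb hab hs hsM
    split_ifs at h1 with h
    · rw [h] at h1 ⊢
      nlinarith
    · have h2 : (s:ℤ) ≤ M - 1 := by
        have : s < M := lt_of_le_of_ne hsM h
        have : (s:ℤ) + 1 ≤ M := by exact_mod_cast this
        linarith
      nlinarith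
  I3 a b s ha hb hab hs hsM := by
    have hM' : (2:ℤ) ≤ M := by exact_mod_cast hM
    have hs' : (1:ℤ) ≤ s := by exact_mod_cast hs
    by_cases h : s = M
    · subst h
      rw [ben_M_right (by omega), ben_M_right (by omega)]
      have hab' : (a:ℤ) + b ≤ s := by exact_mod_cast hab
      have ha' : (1:ℤ) ≤ a := by exact_mod_cast ha
      have hb' : (1:ℤ) ≤ b := by exact_mod_cast hb
      nlinarith
    · have hsM' : s < M := lt_of_le_of_ne hsM h
      rw [ben_lt (by omega) hsM', ben_lt (by omega) hsM']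
      nlinarith
  I4 a b ha hb hab := by rw [ben_lt (by omega) (by omega)]; ring
  I4' a ha haM := by
    have hM' : (2:ℤ) ≤ M := by exact_mod_cast hM
    have h2 : (a:ℤ) ≤ M - 1 := by
      have : (a:ℤ) + 1 ≤ M := by exact_mod_cast haM
      linarith
    nlinarith
  psi0 a b s ha haM hb hbM hs hsM := by
    have hM' : (2:ℤ) ≤ M := by exact_mod_cast hM
    have hs' : (1:ℤ) ≤ s := by exact_mod_cast hs
    have h1 := ben_le_right (M := M) (β := (M:ℤ) - 1) (by linarith) ha hs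
    have h2 := ben_le_right (M := M) (β := (M:ℤ) - 1) (by linarith) hb hs
    nlinarith
  fin {ι} s f a b p q r ha haM hb hbM hab hf hk := by
    have hM' : (2:ℤ) ≤ M := by exact_mod_cast hM
    have hab' : (M:ℤ) + 1 ≤ a + b := by exact_mod_cast hab
    have haM' : (a:ℤ) ≤ M := by exact_mod_cast haM
    have hbM' : (b:ℤ) ≤ M := by exact_mod_cast hbM
    have ha' : (1:ℤ) ≤ a := by exact_mod_cast ha
    have hb' : (1:ℤ) ≤ b := by exact_mod_cast hb
    have hpsi : ∑ i ∈ s, (2 * (M:ℤ) + 2) * (f i : ℤ) ≤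
        ∑ i ∈ s, ((2 * (M:ℤ) ^ 2 + M + 1 - ben M (M - 1) a (f i)) +
          (2 * (M:ℤ) ^ 2 + M + 1 - ben M (M - 1) b (f i)) -
          (4 * M ^ 2 - ((f i : ℤ) - 1) * (4 * M))) := by
      refine Finset.sum_le_sum fun i hi => ?_
      have h1 := ben_le_right (M := M) (β := (M:ℤ) - 1) (by linarith) ha (hf i hi).1
      have h2 := ben_le_right (M := M) (β := (M:ℤ) - 1) (by linarith) hb (hf i hi).1
      have hs' : (1:ℤ) ≤ f i := by exact_mod_cast (hf i hi).1
      nlinarith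
    rw [← Finset.mul_sum] at hpsi
    have hw : ben M ((M:ℤ) - 1) a b ≤ (M - 1) * (M - 1) :=
      (ben_le_right (M := M) (β := (M:ℤ) - 1) (by linarith) ha hb).trans
        (mul_le_mul_of_nonneg_left (by linarith) (by linarith))
    have hloop : (2 * (M:ℤ) + 2) * ((if p ∧ r then (a : ℤ) else 0) + (if q ∧ r then (b : ℤ) else 0))
        ≤ (if p then 2 * (M:ℤ) ^ 2 + M + 1 else 0) + (if q then 2 * (M:ℤ) ^ 2 + M + 1 else 0) +
        (if r then 2 * (M:ℤ) ^ 2 + M + 1 - ben M (M - 1) a b else 0) := by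
      by_cases hp : p <;> by_cases hq : q <;> by_cases hr : r <;>
        simp only [hp, hq, hr, and_self, and_true, and_false, if_true, if_false] <;> nlinarith
    have hk' : (2 * (M:ℤ) + 2) * ((2 * M : ℕ) : ℤ) ≤ (2 * M + 2) *
        (∑ i ∈ s, (f i : ℤ) + (if p ∧ r then (a : ℤ) else 0) + (if q ∧ r then (b : ℤ) else 0)) :=
      mul_le_mul_of_nonneg_left hk (by positivity)
    push_cast at hk'
    nlinarith

/-- the quantity `ψ` for the odd data -/
noncomputable def psiO (M : ℕ) (a b f : ℕ) : ℤ :=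
  4 * M - 1 + ((f : ℤ) - 1) * (8 * M - 8) - ben M (4 * M - 4) a f - ben M (4 * M - 4) b f

lemma psiO_nonneg {M : ℕ} (hM : 2 ≤ M) {a b f : ℕ} (ha : 1 ≤ a) (hb : 1 ≤ b) (hf : 1 ≤ f) :
    0 ≤ psiO M a b f := by
  have hM' : (2:ℤ) ≤ M := by exact_mod_cast hM
  have h1 := ben_le_right (M := M) (β := 4 * (M:ℤ) - 4) (by linarith) ha hf
  have h2 := ben_le_right (M := M) (β := 4 * (M:ℤ) - 4) (by linarith) hb hf
  unfold psiO
  nlinarith

lemma sum_psi_ge_pair {ι : Type} {M : ℕ} (hM : 2 ≤ M) {s : Finset ι} {f : ι → ℕ} {a b : ℕ}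
    (ha : 1 ≤ a) (hb : 1 ≤ b) (hf : ∀ i ∈ s, 1 ≤ f i ∧ f i ≤ M) (t : Finset ι) (ht : t ⊆ s) :
    ∑ i ∈ t, psiO M a b (f i) ≤ ∑ i ∈ s, psiO M a b (f i) :=
  Finset.sum_le_sum_of_subset_of_nonneg ht fun i hi _ => psiO_nonneg hM ha hb (hf i hi).1

/-- no loops, `a, b < M` -/
lemma fin_odd_small {ι : Type} {M : ℕ} (hM : 2 ≤ M) (s : Finset ι) (f : ι → ℕ) (a b : ℕ)
    (ha : 1 ≤ a) (haM : a < M) (hb : 1 ≤ b) (hbM : b < M) (hab : M + 1 ≤ a + b)
    (hf : ∀ i ∈ s, 1 ≤ f i ∧ f i ≤ M) (hk : 2 * (M : ℤ) - 1 ≤ ∑ i ∈ s, (f i : ℤ)) :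
    2 * (8 * (M:ℤ) ^ 2 - 14 * M + 9) - ((a:ℤ) + b - 2) * (8 * M - 8) ≤
      ∑ i ∈ s, psiO M a b (f i) := by
  have hM' : (2:ℤ) ≤ M := by exact_mod_cast hM
  have hab' : (M:ℤ) + 1 ≤ a + b := by exact_mod_cast hab
  have ha' : (a:ℤ) ≤ M - 1 := by
    have : (a:ℤ) + 1 ≤ M := by exact_mod_cast haM
    linarith
  have hb' : (b:ℤ) ≤ M - 1 := by
    have : (b:ℤ) + 1 ≤ M := by exact_mod_cast hbM
    linarith
  have hsmall : ∀ i ∈ s, f i ≠ M → (4 * (M:ℤ) - 1) * (f i : ℤ) ≤ psiO M a b (f i) := by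
    intro i hi hne
    have h1 := (hf i hi).1
    have h2 : f i < M := lt_of_le_of_ne (hf i hi).2 hne
    have h1' : (1:ℤ) ≤ f i := by exact_mod_cast h1
    unfold psiO
    rw [ben_lt haM h2, ben_lt hbM h2]
    nlinarith
  have hbig : ∀ i ∈ s, f i = M → psiO M a b (f i) =
      4 * M - 1 + ((M : ℤ) - 1) * (8 * M - 8) - (4 * M - 4) * ((a:ℤ) + b - 2) := by
    intro i hi he
    unfold psiO
    rw [he, ben_M_right haM.le, ben_M_right hbM.le]
    ring
  by_cases h2 : 1 < (s.filter fun i => f i = M).card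
  · obtain ⟨i, hi, j, hj, hij⟩ := Finset.one_lt_card.1 h2
    rw [mem_filter] at hi hj
    have h3 := sum_psi_ge_pair hM ha hb hf {i, j} (by
      intro l hl
      rw [mem_insert, mem_singleton] at hl
      rcases hl with rfl | rfl
      · exact hi.1
      · exact hj.1)
    rw [Finset.sum_pair hij, hbig i hi.1 hi.2, hbig j hj.1 hj.2] at h3
    nlinarith
  · by_cases h1 : (s.filter fun i => f i = M).card = 0
    · rw [Finset.card_eq_zero, Finset.filter_eq_empty_iff] at h1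
      have h3 : ∑ i ∈ s, (4 * (M:ℤ) - 1) * (f i : ℤ) ≤ ∑ i ∈ s, psiO M a b (f i) :=
        Finset.sum_le_sum fun i hi => hsmall i hi (h1 hi)
      rw [← Finset.mul_sum] at h3
      have h4 := mul_le_mul_of_nonneg_left hk (show (0:ℤ) ≤ 4 * M - 1 by linarith)
      nlinarith
    · have h1' : (s.filter fun i => f i = M).card = 1 := by omega
      obtain ⟨i0, hi0⟩ := Finset.card_eq_one.1 h1'
      have hi0' : i0 ∈ s.filter fun i => f i = M := by rw [hi0]; simp
      rw [mem_filter] at hi0'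
      have hsplit : ∀ F : ι → ℤ, ∑ i ∈ s, F i = F i0 + ∑ i ∈ s.erase i0, F i := by
        intro F
        rw [Finset.add_sum_erase s F hi0'.1]
      rw [hsplit] at hk ⊢
      have h3 : ∑ i ∈ s.erase i0, (4 * (M:ℤ) - 1) * (f i : ℤ) ≤
          ∑ i ∈ s.erase i0, psiO M a b (f i) := by
        refine Finset.sum_le_sum fun i hi => hsmall i (Finset.mem_of_mem_erase hi) ?_
        intro he
        have : i ∈ s.filter fun i => f i = M := mem_filter.2 ⟨Finset.mem_of_mem_erase hi, he⟩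
        rw [hi0, mem_singleton] at this
        exact (Finset.mem_erase.1 hi).1 this
      rw [← Finset.mul_sum] at h3
      rw [hbig i0 hi0'.1 hi0'.2]
      rw [hi0'.2] at hk
      have h4 := mul_le_mul_of_nonneg_left (show (M:ℤ) - 1 ≤ ∑ i ∈ s.erase i0, (f i : ℤ) by
        linarith) (show (0:ℤ) ≤ 4 * M - 1 by linarith)
      have hM3 : (3:ℤ) ≤ M := by linarith
      nlinarith

/-- no loops, `a = M`, `b < M` -/
lemma fin_odd_mid {ι : Type} {M : ℕ} (hM : 2 ≤ M) (s : Finset ι) (f : ι → ℕ) (b : ℕ)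
    (hb : 1 ≤ b) (hbM : b < M)
    (hf : ∀ i ∈ s, 1 ≤ f i ∧ f i ≤ M) (hk : 2 * (M : ℤ) - 1 ≤ ∑ i ∈ s, (f i : ℤ)) :
    2 * (8 * (M:ℤ) ^ 2 - 14 * M + 9) - ((M:ℤ) + b - 2) * (8 * M - 8) ≤
      ∑ i ∈ s, psiO M M b (f i) := by
  have hM' : (2:ℤ) ≤ M := by exact_mod_cast hM
  have hb1 : (1:ℤ) ≤ b := by exact_mod_cast hb
  have hb' : (b:ℤ) ≤ M - 1 := by
    have : (b:ℤ) + 1 ≤ M := by exact_mod_cast hbM
    linarith
  have hval : ∀ i ∈ s, psiO M M b (f i) = 4 * M - 1 + ((f i : ℤ) - 1) * (4 * M - 4) -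
      (if f i = M then (4 * (M:ℤ) - 4) * (b - 1) else 0) := by
    intro i hi
    unfold psiO
    rw [ben_M_left (hf i hi).2]
    split_ifs with h
    · rw [h, ben_M_right hbM.le]; ring
    · rw [ben_lt hbM (lt_of_le_of_ne (hf i hi).2 h)]; ring
  have hcard2 : 2 ≤ s.card := by
    by_contra hcon
    have h1 : ∑ i ∈ s, (f i : ℤ) ≤ s.card • (M:ℤ) :=
      Finset.sum_le_card_nsmul _ _ _ fun i hi => by exact_mod_cast (hf i hi).2
    have h2 : (s.card : ℤ) ≤ 1 := by exact_mod_cast (by omega : s.card ≤ 1)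
    rw [nsmul_eq_mul] at h1
    nlinarith
  by_cases h3 : 2 < (s.filter fun i => f i = M).card
  · obtain ⟨i, hi, j, hj, l, hl, hij, hil, hjl⟩ := Finset.two_lt_card.1 h3
    rw [mem_filter] at hi hj hl
    have h4 := sum_psi_ge_pair hM (show 1 ≤ M by omega) hb hf {i, j, l} (by
      intro l' hl'
      rw [mem_insert, mem_insert, mem_singleton] at hl'
      rcases hl' with rfl | rfl | rfl
      · exact hi.1
      · exact hj.1
      · exact hl.1)
    rw [Finset.sum_insert (by simp [hij, hil]), Finset.sum_pair hjl, hval i hi.1, hval j hj.1,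
      hval l hl.1, if_pos hi.2, if_pos hj.2, if_pos hl.2, hi.2, hj.2, hl.2] at h4
    nlinarith
  · rw [Finset.sum_congr rfl hval, Finset.sum_sub_distrib, ← Finset.sum_filter,
      Finset.sum_const, nsmul_eq_mul, Finset.sum_add_distrib, ← Finset.sum_mul]
    have e1 : ∑ i ∈ s, ((f i : ℤ) - 1) = ∑ i ∈ s, (f i : ℤ) - (s.card : ℤ) := by
      rw [Finset.sum_sub_distrib]; simp
    have e2 : ∑ _i ∈ s, (4 * (M:ℤ) - 1) = (s.card : ℤ) * (4 * M - 1) := by
      rw [Finset.sum_const, nsmul_eq_mul]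
    rw [e1, e2]
    have hq : ((s.filter fun i => f i = M).card : ℤ) ≤ 2 := by exact_mod_cast (by omega)
    have hq' : ((s.filter fun i => f i = M).card : ℤ) * ((4 * (M:ℤ) - 4) * (b - 1)) ≤
        2 * ((4 * (M:ℤ) - 4) * (b - 1)) :=
      mul_le_mul_of_nonneg_right hq (mul_nonneg (by linarith) (by linarith))
    have hc : (2:ℤ) ≤ (s.card : ℤ) := by exact_mod_cast hcard2
    have h5 := mul_le_mul_of_nonneg_right hk (show (0:ℤ) ≤ 4 * M - 4 by linarith)
    nlinarith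

/-- no loops, `a = b = M` -/
lemma fin_odd_big {ι : Type} {M : ℕ} (hM : 2 ≤ M) (s : Finset ι) (f : ι → ℕ)
    (hf : ∀ i ∈ s, 1 ≤ f i ∧ f i ≤ M) (hk : 2 * (M : ℤ) - 1 ≤ ∑ i ∈ s, (f i : ℤ)) :
    2 * (8 * (M:ℤ) ^ 2 - 14 * M + 9) - ((M:ℤ) + M - 2) * (8 * M - 8) ≤
      ∑ i ∈ s, psiO M M M (f i) := by
  have hM' : (2:ℤ) ≤ M := by exact_mod_cast hM
  have hval : ∀ i ∈ s, psiO M M M (f i) = 4 * M - 1 := by
    intro i hi
    unfold psiO
    rw [ben_M_left (hf i hi).2]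
    ring
  have hcard2 : 2 ≤ s.card := by
    by_contra hcon
    have h1 : ∑ i ∈ s, (f i : ℤ) ≤ s.card • (M:ℤ) :=
      Finset.sum_le_card_nsmul _ _ _ fun i hi => by exact_mod_cast (hf i hi).2
    have h2 : (s.card : ℤ) ≤ 1 := by exact_mod_cast (by omega : s.card ≤ 1)
    rw [nsmul_eq_mul] at h1
    nlinarith
  rw [Finset.sum_congr rfl hval, Finset.sum_const, nsmul_eq_mul]
  have hc : (2:ℤ) ≤ (s.card : ℤ) := by exact_mod_cast hcard2
  nlinarith

lemma psiO_symm (M a b f : ℕ) : psiO M a b f = psiO M b a f := by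
  unfold psiO; ring

/-- no loops, all cases -/
lemma fin_odd_noloop {ι : Type} {M : ℕ} (hM : 2 ≤ M) (s : Finset ι) (f : ι → ℕ) (a b : ℕ)
    (ha : 1 ≤ a) (haM : a ≤ M) (hb : 1 ≤ b) (hbM : b ≤ M) (hab : M + 1 ≤ a + b)
    (hf : ∀ i ∈ s, 1 ≤ f i ∧ f i ≤ M) (hk : 2 * (M : ℤ) - 1 ≤ ∑ i ∈ s, (f i : ℤ)) :
    2 * (8 * (M:ℤ) ^ 2 - 14 * M + 9) - ((a:ℤ) + b - 2) * (8 * M - 8) ≤
      ∑ i ∈ s, psiO M a b (f i) := by
  rcases haM.lt_or_eq with h1 | h1 <;> rcases hbM.lt_or_eq with h2 | h2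
  · exact fin_odd_small hM s f a b ha h1 hb h2 hab hf hk
  · subst h2
    have := fin_odd_mid hM s f a ha h1 hf hk
    simp only [psiO_symm b a]
    linarith
  · subst h1
    exact fin_odd_mid hM s f b hb h2 hf hk
  · subst h1
    subst h2
    exact fin_odd_big hM s f hf hk

/-- The data for `k = 2M-1`. -/
noncomputable def potOdd (M : ℕ) (hM : 2 ≤ M) : Pot where
  k := 2 * M - 1
  M := M
  N := 8 * M ^ 2 - 14 * M + 9
  X := 4 * M ^ 2 - 5 * M + 4
  eta := 4 * M - 1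
  g a := 8 * M ^ 2 - 14 * M + 9 - ((a : ℤ) - 1) * (8 * M - 8)
  w a b := 4 * M ^ 2 - 5 * M + 4 - ben M (4 * M - 4) a b
  M2 := hM
  kpos := by omega
  Npos := by
    have hM' : (2:ℤ) ≤ M := by exact_mod_cast hM
    nlinarith
  X0 := by
    have hM' : (2:ℤ) ≤ M := by exact_mod_cast hM
    nlinarith
  eta0 := by
    have hM' : (2:ℤ) ≤ M := by exact_mod_cast hM
    linarith
  g1 := by simp
  gle a ha _ := by
    have hM' : (2:ℤ) ≤ M := by exact_mod_cast hM
    have : (1:ℤ) ≤ a := by exact_mod_cast ha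
    have h2 : 0 ≤ ((a:ℤ) - 1) * (8 * M - 8) := mul_nonneg (by linarith) (by linarith)
    linarith
  w11 := by rw [ben_lt (by omega) (by omega)]; ring
  wsymm a b := by rw [ben_symm]
  w0 a b ha haM hb hbM := by
    have hM' : (2:ℤ) ≤ M := by exact_mod_cast hM
    have h1 := ben_le_right (M := M) (β := 4 * (M:ℤ) - 4) (by linarith) ha hb
    have h2 : (b:ℤ) ≤ M := by exact_mod_cast hbM
    have h3 : (4 * (M:ℤ) - 4) * ((b:ℤ) - 1) ≤ (4 * M - 4) * (M - 1) :=
      mul_le_mul_of_nonneg_left (by linarith) (by linarith)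
    nlinarith
  gadd a b _ _ _ := by
    have : ((2 * M - 1 : ℕ) : ℤ) = 2 * M - 1 := by
      rw [Nat.cast_sub (by omega)]; push_cast; ring
    rw [this]; push_cast; ring
  I1 a c s ha hac hc hs hsM := by
    have hM' : (2:ℤ) ≤ M := by exact_mod_cast hM
    have := ben_mono (M := M) (β := 4 * (M:ℤ) - 4) (by linarith) ha hac hc hs
    linarith
  I2 a b s ha hb hab hs hsM := by
    have hM' : (2:ℤ) ≤ M := by exact_mod_cast hM
    have h1 := ben_add (M := M) (β := 4 * (M:ℤ) - 4) (by linarith) ha hb hab hs hsM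
    split_ifs at h1 with h
    · rw [h] at h1 ⊢
      nlinarith
    · have h2 : (s:ℤ) ≤ M - 1 := by
        have : s < M := lt_of_le_of_ne hsM h
        have : (s:ℤ) + 1 ≤ M := by exact_mod_cast this
        linarith
      nlinarith
  I3 a b s ha hb hab hs hsM := by
    have hM' : (2:ℤ) ≤ M := by exact_mod_cast hM
    have hs' : (1:ℤ) ≤ s := by exact_mod_cast hs
    by_cases h : s = M
    · subst h
      rw [ben_M_right (by omega), ben_M_right (by omega)]
      have hab' : (a:ℤ) + b ≤ s := by exact_mod_cast hab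
      have ha' : (1:ℤ) ≤ a := by exact_mod_cast ha
      have hb' : (1:ℤ) ≤ b := by exact_mod_cast hb
      nlinarith
    · have hsM' : s < M := lt_of_le_of_ne hsM h
      rw [ben_lt (by omega) hsM', ben_lt (by omega) hsM']
      nlinarith
  I4 a b ha hb hab := by rw [ben_lt (by omega) (by omega)]; ring
  I4' a ha haM := by
    have hM' : (2:ℤ) ≤ M := by exact_mod_cast hM
    have h2 : (a:ℤ) ≤ M - 1 := by
      have : (a:ℤ) + 1 ≤ M := by exact_mod_cast haM
      linarith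
    nlinarith
  psi0 a b s ha haM hb hbM hs hsM := by
    have hM' : (2:ℤ) ≤ M := by exact_mod_cast hM
    have hs' : (1:ℤ) ≤ s := by exact_mod_cast hs
    have h1 := ben_le_right (M := M) (β := 4 * (M:ℤ) - 4) (by linarith) ha hs
    have h2 := ben_le_right (M := M) (β := 4 * (M:ℤ) - 4) (by linarith) hb hs
    nlinarith
  fin {ι} s f a b p q r ha haM hb hbM hab hf hk := by
    have hM' : (2:ℤ) ≤ M := by exact_mod_cast hM
    have hab' : (M:ℤ) + 1 ≤ a + b := by exact_mod_cast hab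
    have haM' : (a:ℤ) ≤ M := by exact_mod_cast haM
    have hbM' : (b:ℤ) ≤ M := by exact_mod_cast hbM
    have ha' : (1:ℤ) ≤ a := by exact_mod_cast ha
    have hb' : (1:ℤ) ≤ b := by exact_mod_cast hb
    have hkk : ((2 * M - 1 : ℕ) : ℤ) = 2 * M - 1 := by
      rw [Nat.cast_sub (by omega)]; push_cast; ring
    rw [hkk] at hk
    have hsum : ∑ i ∈ s, ((4 * (M:ℤ) ^ 2 - 5 * M + 4 - ben M (4 * M - 4) a (f i)) +
          (4 * (M:ℤ) ^ 2 - 5 * M + 4 - ben M (4 * M - 4) b (f i)) -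
          (8 * M ^ 2 - 14 * M + 9 - ((f i : ℤ) - 1) * (8 * M - 8))) =
        ∑ i ∈ s, psiO M a b (f i) := by
      refine Finset.sum_congr rfl fun i _ => ?_
      unfold psiO; ring
    rw [hsum]
    have hs0 : 0 ≤ ∑ i ∈ s, psiO M a b (f i) :=
      Finset.sum_nonneg fun i hi => psiO_nonneg hM ha hb (hf i hi).1
    have hX : (0:ℤ) ≤ 4 * (M:ℤ) ^ 2 - 5 * M + 4 := by nlinarith
    have hw0 : 0 ≤ 4 * (M:ℤ) ^ 2 - 5 * M + 4 - ben M (4 * M - 4) a b := by
      have h1 := ben_le_right (M := M) (β := 4 * (M:ℤ) - 4) (by linarith) ha hb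
      have h3 : (4 * (M:ℤ) - 4) * ((b:ℤ) - 1) ≤ (4 * M - 4) * (M - 1) :=
        mul_le_mul_of_nonneg_left (by linarith) (by linarith)
      nlinarith
    by_cases hl : (p ∧ r) ∨ (q ∧ r)
    · -- a loop is used
      have hr : r := by tauto
      have hQ : 4 * (M:ℤ) ^ 2 - 5 * M + 4 + (4 * (M:ℤ) ^ 2 - 5 * M + 4 - ben M (4 * M - 4) a b) ≤
          (if p then 4 * (M:ℤ) ^ 2 - 5 * M + 4 else 0) +
          (if q then 4 * (M:ℤ) ^ 2 - 5 * M + 4 else 0) +
          (if r then 4 * (M:ℤ) ^ 2 - 5 * M + 4 - ben M (4 * M - 4) a b else 0) := by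
        by_cases hp : p <;> by_cases hq : q <;>
          simp only [hp, hq, hr, if_true, if_false] at hl ⊢ <;>
          first
          | linarith
          | (exfalso; tauto)
      have hfin : 2 * (8 * (M:ℤ) ^ 2 - 14 * M + 9) - ((a:ℤ) + b - 2) * (8 * M - 8) ≤
          4 * (M:ℤ) ^ 2 - 5 * M + 4 +
            (4 * (M:ℤ) ^ 2 - 5 * M + 4 - ben M (4 * M - 4) a b) := by
        rcases haM.lt_or_eq with h1 | h1
        · rcases hbM.lt_or_eq with h2 | h2
          · rw [ben_lt h1 h2]; nlinarith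
          · subst h2; rw [ben_M_right haM]; nlinarith
        · subst h1; rw [ben_M_left hbM]; nlinarith
      linarith
    · -- no loop is used
      have hpr : ¬ (p ∧ r) := fun h => hl (Or.inl h)
      have hqr : ¬ (q ∧ r) := fun h => hl (Or.inr h)
      rw [if_neg hpr, if_neg hqr, add_zero, add_zero] at hk
      have h1 := fin_odd_noloop hM s f a b ha haM hb hbM hab hf hk
      have h2 : (0:ℤ) ≤ (if p then 4 * (M:ℤ) ^ 2 - 5 * M + 4 else 0) := by
        split_ifs; exact hX; exact le_rfl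
      have h3 : (0:ℤ) ≤ (if q then 4 * (M:ℤ) ^ 2 - 5 * M + 4 else 0) := by
        split_ifs; exact hX; exact le_rfl
      have h4 : (0:ℤ) ≤ (if r then 4 * (M:ℤ) ^ 2 - 5 * M + 4 - ben M (4 * M - 4) a b else 0) := by
        split_ifs; exact hw0; exact le_rfl
      linarith

end MP30c94c
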