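import Mathlib
import Pool.Agent.Lib.MP30c94c.Basic

/-! # Module SG, part 1: the basic rule and twins (own copy of the closure rule) -/

open SimpleGraph Finset

namespace MP30c94c

attribute [local instance] Classical.propDecidable

namespace SG

/-- own copy of the closure rule (module SD has the public one) -/
theorem rule {V : Type*} [Fintype V] (k : ℕ) (G : SimpleGraph V) {u w v : V}
    (huw : u ≠ w) (huv : v ≠ u) (hvw : (closure (K2 (k + 1)) G).Adj v w)
    (hk : k ≤ (univ.filter fun z => (closure (K2 (k + 1)) G).Adj u z ∧
      (closure (K2 (k + 1)) G).Adj w z).card) :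
    (closure (K2 (k + 1)) G).Adj v u := by
  by_cases hv : (closure (K2 (k + 1)) G).Adj u v
  · exact hv.symm
  obtain ⟨S, hS, hSk⟩ := Finset.exists_subset_card_eq hk
  set z : Fin k → V := fun i => ((S.equivFinOfCardEq hSk).symm i : V) with hz
  have hzinj : Function.Injective z := fun i j h => by
    have := Subtype.ext h
    exact (S.equivFinOfCardEq hSk).symm.injective this
  have hzS : ∀ i, (closure (K2 (k + 1)) G).Adj u (z i) ∧ (closure (K2 (k + 1)) G).Adj w (z i) :=
    fun i => by
      have := hS ((S.equivFinOfCardEq hSk).symm i).2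
      simpa using this
  set f : Fin 2 ⊕ Fin (k + 1) → V :=
    Sum.elim ![u, w] (Fin.snoc (α := fun _ => V) z v) with hf
  have hfl : f (Sum.inr (Fin.last k)) = v := by simp [hf]
  have hfz : ∀ i : Fin k, f (Sum.inr i.castSucc) = z i := by
    intro i
    simp [hf, Fin.snoc_castSucc]
  have hf0 : f (Sum.inl 0) = u := by simp [hf]
  have hf1 : f (Sum.inl 1) = w := by simp [hf]
  have hvz : ∀ i, z i ≠ v := by
    intro i h
    exact hv (h ▸ (hzS i).1)
  have hinj : Function.Injective f := by
    have hr : ∀ b : Fin (k + 1), f (Sum.inr b) ≠ u ∧ f (Sum.inr b) ≠ w := by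
      intro b
      induction b using Fin.lastCases with
      | last => rw [hfl]; exact ⟨huv, hvw.ne⟩
      | cast i => rw [hfz]; exact ⟨(hzS i).1.ne', (hzS i).2.ne'⟩
    have hl : ∀ a : Fin 2, f (Sum.inl a) = u ∨ f (Sum.inl a) = w := by
      intro a
      fin_cases a
      · left; exact hf0
      · right; exact hf1
    rintro (a | a) (b | b) hab
    · fin_cases a <;> fin_cases b
      · rfl
      · exact absurd (hf0.symm.trans (hab.trans hf1)) huw
      · exact absurd (hf0.symm.trans (hab.symm.trans hf1)) huw
      · rfl
    · rcases hl a with h | h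
      · exact absurd (hab.symm.trans h) (hr b).1
      · exact absurd (hab.symm.trans h) (hr b).2
    · rcases hl b with h | h
      · exact absurd (hab.trans h) (hr a).1
      · exact absurd (hab.trans h) (hr a).2
    · congr 1
      induction a using Fin.lastCases with
      | last =>
        induction b using Fin.lastCases with
        | last => rfl
        | cast j =>
          rw [hfl, hfz] at hab
          exact absurd hab.symm (hvz j)
      | cast i =>
        induction b using Fin.lastCases with
        | last =>
          rw [hfl, hfz] at hab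
          exact absurd hab (hvz i)
        | cast j =>
          rw [hfz, hfz] at hab
          rw [hzinj hab]
  refine ⟨huv, InClosure.step ⟨f, hinj⟩ ?_ ?_⟩
  · rw [SimpleGraph.mem_edgeSet, SimpleGraph.map_adj]
    exact ⟨Sum.inr (Fin.last k), Sum.inl 0, by simp, hfl, hf0⟩
  · intro e' he' hne
    induction e' with
    | h x y =>
      rw [SimpleGraph.mem_edgeSet, SimpleGraph.map_adj] at he'
      have key : ∀ (a : Fin 2) (b : Fin (k + 1)), s(f (Sum.inl a), f (Sum.inr b)) ≠ s(v, u) →
          InClosure (K2 (k + 1)) G s(f (Sum.inl a), f (Sum.inr b)) := by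
        intro a b hab
        fin_cases a
        · change s(f (Sum.inl 0), _) ≠ _ at hab
          change InClosure _ _ s(f (Sum.inl 0), _)
          rw [hf0] at hab ⊢
          induction b using Fin.lastCases with
          | last =>
            rw [hfl] at hab
            exact absurd Sym2.eq_swap hab
          | cast i =>
            rw [hfz]
            exact (hzS i).1.2
        · change InClosure _ _ s(f (Sum.inl 1), _)
          rw [hf1]
          induction b using Fin.lastCases with
          | last =>
            rw [hfl, Sym2.eq_swap]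
            exact hvw.2
          | cast i =>
            rw [hfz]
            exact (hzS i).2.2
      obtain ⟨a, b, hab, rfl, rfl⟩ := he'
      rcases a with a | a <;> rcases b with b | b
      · simp at hab
      · exact key a b hne
      · have := key b a (by rw [Sym2.eq_swap]; exact hne)
        rw [Sym2.eq_swap]
        exact this
      · simp at hab

variable {V : Type*} [Fintype V]

/-- `u`, `w` are equal or have at least `k` common neighbours -/
def Twin (H : SimpleGraph V) (k : ℕ) (u w : V) : Prop :=
  u = w ∨ k ≤ (univ.filter fun z => H.Adj u z ∧ H.Adj w z).card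

lemma Twin.symm {H : SimpleGraph V} {k : ℕ} {u w : V} (h : Twin H k u w) : Twin H k w u := by
  rcases h with h | h
  · exact Or.inl h.symm
  · right
    simpa [and_comm] using h

lemma Twin.adj {k : ℕ} {G : SimpleGraph V} {u w v : V}
    (h : Twin (closure (K2 (k + 1)) G) k u w) (huv : v ≠ u)
    (hvw : (closure (K2 (k + 1)) G).Adj v w) : (closure (K2 (k + 1)) G).Adj v u := by
  rcases h with rfl | h
  · exact hvw
  · by_cases huw : u = w
    · subst huw; exact hvw
    · exact rule k G huw huv hvw h

omit [Fintype V] in
lemma adj_of_adj {W : Type*} {K : SimpleGraph W} {G : SimpleGraph V} {u v : V} (h : G.Adj u v) :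
    (closure K G).Adj u v := ⟨h.ne, InClosure.base h⟩

lemma Twin.trans {k : ℕ} {G : SimpleGraph V}
    (hdeg : ∀ v, k + 2 ≤ (univ.filter fun w => G.Adj v w).card) {u w v : V}
    (h1 : Twin (closure (K2 (k + 1)) G) k u w) (h2 : Twin (closure (K2 (k + 1)) G) k w v) :
    Twin (closure (K2 (k + 1)) G) k u v := by
  by_cases huv : u = v
  · exact Or.inl huv
  right
  have hsub : ((univ.filter fun z => G.Adj w z) \ {u, v}) ⊆
      univ.filter fun z => (closure (K2 (k + 1)) G).Adj u z ∧
        (closure (K2 (k + 1)) G).Adj v z := by
    intro z hz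
    simp only [mem_sdiff, mem_filter, mem_univ, true_and, mem_insert, mem_singleton,
      not_or] at hz ⊢
    obtain ⟨hwz, hzu, hzv⟩ := hz
    have hzw : (closure (K2 (k + 1)) G).Adj z w := (adj_of_adj hwz).symm
    exact ⟨(h1.adj hzu hzw).symm, (h2.symm.adj hzv hzw).symm⟩
  have h3 := card_le_card hsub
  have h4 : (univ.filter fun z => G.Adj w z).card ≤
      ((univ.filter fun z => G.Adj w z) \ {u, v}).card + ({u, v} : Finset V).card :=
    card_le_card_sdiff_add_card
  have h5 : ({u, v} : Finset V).card ≤ 2 := card_le_two
  have h6 := hdeg w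
  omega

lemma twin_of_image {H : SimpleGraph V} {k : ℕ} {u w : V} {K : Type*} [Fintype K] (φ : K → V)
    (hφ : Function.Injective φ) (hk : k ≤ Fintype.card K) (hu : ∀ x, H.Adj u (φ x))
    (hw : ∀ x, H.Adj w (φ x)) : Twin H k u w := by
  right
  have : (univ.image φ).card = Fintype.card K := by
    rw [card_image_of_injective _ hφ, card_univ]
  refine hk.trans (this ▸ card_le_card ?_)
  intro z hz
  obtain ⟨x, -, rfl⟩ := mem_image.1 hz
  simp [hu x, hw x]

lemma chain_twin {k : ℕ} {G : SimpleGraph V}
    (hdeg : ∀ v, k + 2 ≤ (univ.filter fun w => G.Adj v w).card) {g : ℕ} (c : Fin (g + 1) → V)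
    (h : ∀ i : Fin g, Twin (closure (K2 (k + 1)) G) k (c i.castSucc) (c i.succ)) (i j : Fin (g + 1)) :
    Twin (closure (K2 (k + 1)) G) k (c i) (c j) := by
  have h0 : ∀ i : Fin (g + 1), Twin (closure (K2 (k + 1)) G) k (c 0) (c i) := by
    intro i
    induction i using Fin.induction with
    | zero => exact Or.inl rfl
    | succ i ih => exact ih.trans hdeg (h i)
  exact (h0 i).symm.trans hdeg (h0 j)

end SG

end MP30c94c
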