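import Mathlib
import Pool.Agent.Lib.MP30c94c.SGTwin

/-! # Module SG, part 2: chain systems and their sparsity (payment certificates) -/

open SimpleGraph Finset

namespace MP30c94c

attribute [local instance] Classical.propDecidable

namespace SG

variable {J : Type} (g q : J → ℕ) (j0 : J) (Jr Jv : Finset J)

/-- vertices of a system of chains: chain vertices, middle vertices, one extra vertex -/
abbrev SV := (Σ j : J, Fin (g j + 1)) ⊕ (Σ j : J, Fin (g j) × Fin (q j)) ⊕ Unit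

/-- chain vertex -/
abbrev cv (j : J) (i : Fin (g j + 1)) : SV g q := Sum.inl ⟨j, i⟩
/-- middle vertex -/
abbrev zv (j : J) (i : Fin (g j)) (l : Fin (q j)) : SV g q := Sum.inr (Sum.inl ⟨j, (i, l)⟩)
/-- extra vertex -/
abbrev vv : SV g q := Sum.inr (Sum.inr ())

/-- edge indices -/
abbrev SI := ((Σ j : J, Fin (g j) × Fin (q j)) ⊕ (Σ j : J, Fin (g j) × Fin (q j))) ⊕
  (Σ j : Jr, Fin (g j.1 + 1)) ⊕ Jv

/-- source -/
def src : SI g q Jr Jv → SV g q
  | Sum.inl (Sum.inl p) => zv g q p.1 p.2.1 p.2.2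
  | Sum.inl (Sum.inr p) => zv g q p.1 p.2.1 p.2.2
  | Sum.inr (Sum.inl _) => cv g q j0 0
  | Sum.inr (Sum.inr _) => vv g q

/-- target -/
def tgt : SI g q Jr Jv → SV g q
  | Sum.inl (Sum.inl p) => cv g q p.1 p.2.1.castSucc
  | Sum.inl (Sum.inr p) => cv g q p.1 p.2.1.succ
  | Sum.inr (Sum.inl p) => cv g q p.1.1 p.2
  | Sum.inr (Sum.inr p) => cv g q p.1 0

/-- the seed graph on a vertex set `T` identified with the abstract vertices -/
def seed {T : Type*} (e : SV g q ≃ T) : SimpleGraph T :=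
  SimpleGraph.fromEdgeSet (Set.range fun i : SI g q Jr Jv =>
    s(e (src g q j0 Jr Jv i), e (tgt g q Jr Jv i)))

variable [Fintype J]

lemma eIn_le {T : Type*} [Fintype T] (e : SV g q ≃ T) (U : Finset T) :
    eIn (seed g q j0 Jr Jv e) U ≤
      ((univ : Finset (SI g q Jr Jv)).filter fun i =>
        e (src g q j0 Jr Jv i) ∈ U ∧ e (tgt g q Jr Jv i) ∈ U).card := by
  unfold eIn
  refine le_trans (card_le_card ?_) (card_image_le (s := (univ : Finset (SI g q Jr Jv)).filter
    fun i => e (src g q j0 Jr Jv i) ∈ U ∧ e (tgt g q Jr Jv i) ∈ U)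
    (f := fun i => s(e (src g q j0 Jr Jv i), e (tgt g q Jr Jv i))))
  intro x hx
  rw [mem_filter, SimpleGraph.mem_edgeFinset] at hx
  obtain ⟨h1, h2⟩ := hx
  rw [seed, SimpleGraph.edgeSet_fromEdgeSet] at h1
  obtain ⟨⟨i, hi⟩, -⟩ := h1
  simp only at hi
  rw [mem_image]
  refine ⟨i, ?_, hi⟩
  rw [mem_filter]
  subst hi
  exact ⟨mem_univ _, h2 _ (by simp), h2 _ (by simp)⟩

theorem sparse (X N η : ℝ) (α υ β : J → ℕ → ℝ) (γ : J → ℝ)
    (hα : ∀ j i, i ≤ g j → 0 ≤ α j i ∧ α j i ≤ X)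
    (hυ : ∀ j i, i ≤ g j → 0 ≤ υ j i ∧ υ j i ≤ X)
    (hβ : ∀ j i, 0 ≤ β j i ∧ β j i ≤ X) (hγ : ∀ j, 0 ≤ γ j ∧ γ j ≤ X)
    (hαg : ∀ j, α j (g j) = 0) (hυz : ∀ j, υ j 0 = 0)
    (hsum : ∀ j i, i < g j → α j i + υ j (i + 1) = η) (hη : 2 * X - η = N)
    (hc : ∀ j i, i ≤ g j → q j * (α j i + υ j i) + (if j ∈ Jr then X - β j i else 0) +
      (if j = j0 ∧ i = 0 then ∑ j' ∈ Jr, ∑ i' ∈ range (g j' + 1), β j' i' else 0) +
      (if j ∈ Jv ∧ i = 0 then γ j else 0) ≤ N)
    (hv : ∑ j ∈ Jv, (X - γ j) ≤ N)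
    {T : Type*} [Fintype T] (e : SV g q ≃ T) (U : Finset T) :
    X * eIn (seed g q j0 Jr Jv e) U ≤ N * U.card := by
  set u : SV g q → ℝ := fun w => if e w ∈ U then 1 else 0 with hu
  have hu0 : ∀ w, 0 ≤ u w := fun w => by simp only [hu]; split_ifs <;> norm_num
  have hu1 : ∀ w, u w ≤ 1 := fun w => by simp only [hu]; split_ifs <;> norm_num
  have hX : 0 ≤ X := (hα j0 0 (Nat.zero_le _)).1.trans (hα j0 0 (Nat.zero_le _)).2
  have h1 : (eIn (seed g q j0 Jr Jv e) U : ℝ) ≤
      ∑ i : SI g q Jr Jv, u (src g q j0 Jr Jv i) * u (tgt g q Jr Jv i) := by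
    refine (Nat.cast_le.2 (eIn_le g q j0 Jr Jv e U)).trans (le_of_eq ?_)
    rw [card_filter, Nat.cast_sum]
    refine sum_congr rfl fun i _ => ?_
    simp only [hu]
    by_cases h1 : e (src g q j0 Jr Jv i) ∈ U <;> by_cases h2 : e (tgt g q Jr Jv i) ∈ U <;>
      simp [h1, h2]
  have key : ∀ (a b x : ℝ), 0 ≤ a → a ≤ 1 → 0 ≤ b → b ≤ 1 → 0 ≤ x → x ≤ X →
      X * (a * b) ≤ (X - x) * a + x * b := by
    intro a b x ha0 ha1 hb0 hb1 hx0 hx1
    have e1 : (X - x) * (a * b) ≤ (X - x) * a :=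
      mul_le_mul_of_nonneg_left (mul_le_of_le_one_right ha0 hb1) (by linarith)
    have e2 : x * (a * b) ≤ x * b :=
      mul_le_mul_of_nonneg_left (mul_le_of_le_one_left hb0 ha1) hx0
    nlinarith
  -- total number of elements
  have hU : (U.card : ℝ) = ∑ j, ∑ i : Fin (g j + 1), u (cv g q j i) +
      (∑ j, ∑ i : Fin (g j), ∑ l : Fin (q j), u (zv g q j i l) + u (vv g q)) := by
    have h2 : (U.card : ℝ) = ∑ t : T, if t ∈ U then (1:ℝ) else 0 := by
      rw [sum_ite_mem, univ_inter, sum_const, nsmul_eq_mul, mul_one]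
    rw [h2, ← Equiv.sum_comp e]
    change ∑ w : SV g q, u w = _
    rw [Fintype.sum_sum_type, Fintype.sum_sigma, Fintype.sum_sum_type, Fintype.sum_sigma]
    congr 1
    congr 1
    · refine sum_congr rfl fun j _ => ?_
      rw [Fintype.sum_prod_type]
    · simp
  -- the edge sum
  have hE : X * ∑ i : SI g q Jr Jv, u (src g q j0 Jr Jv i) * u (tgt g q Jr Jv i) ≤
      (∑ j, ∑ i : Fin (g j), ∑ l : Fin (q j),
        ((X - α j i) * u (zv g q j i l) + α j i * u (cv g q j i.castSucc)) +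
      ∑ j, ∑ i : Fin (g j), ∑ l : Fin (q j),
        ((X - υ j (i + 1)) * u (zv g q j i l) + υ j (i + 1) * u (cv g q j i.succ))) +
      (∑ j ∈ Jr, ∑ i : Fin (g j + 1),
        (β j i * u (cv g q j0 0) + (X - β j i) * u (cv g q j i)) +
      ∑ j ∈ Jv, ((X - γ j) * u (vv g q) + γ j * u (cv g q j 0))) := by
    rw [mul_sum, Fintype.sum_sum_type, Fintype.sum_sum_type, Fintype.sum_sum_type,
      Fintype.sum_sigma, Fintype.sum_sigma, Fintype.sum_sigma]
    refine add_le_add (add_le_add ?_ ?_) (add_le_add ?_ ?_)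
    · refine sum_le_sum fun j _ => ?_
      rw [Fintype.sum_prod_type]
      refine sum_le_sum fun i _ => sum_le_sum fun l _ => ?_
      exact key _ _ _ (hu0 _) (hu1 _) (hu0 _) (hu1 _) (hα _ _ (by have := i.2; omega)).1
        (hα _ _ (by have := i.2; omega)).2
    · refine sum_le_sum fun j _ => ?_
      rw [Fintype.sum_prod_type]
      refine sum_le_sum fun i _ => sum_le_sum fun l _ => ?_
      exact key _ _ _ (hu0 _) (hu1 _) (hu0 _) (hu1 _) (hυ _ _ (by have := i.2; omega)).1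
        (hυ _ _ (by have := i.2; omega)).2
    · rw [← Finset.sum_coe_sort Jr]
      refine sum_le_sum fun j _ => sum_le_sum fun i _ => ?_
      have := key (u (cv g q j0 0)) (u (cv g q j i)) (X - β j i) (hu0 _) (hu1 _) (hu0 _) (hu1 _)
        (by linarith [(hβ j i).2]) (by linarith [(hβ j i).1])
      rw [sub_sub_cancel] at this
      exact this
    · rw [← Finset.sum_coe_sort Jv]
      refine sum_le_sum fun j _ => ?_
      exact key _ _ _ (hu0 _) (hu1 _) (hu0 _) (hu1 _) (hγ _).1 (hγ _).2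
  -- chain part
  have hA : ∀ j, (∑ i : Fin (g j), ∑ l : Fin (q j),
        ((X - α j i) * u (zv g q j i l) + α j i * u (cv g q j i.castSucc)) +
      ∑ i : Fin (g j), ∑ l : Fin (q j),
        ((X - υ j (i + 1)) * u (zv g q j i l) + υ j (i + 1) * u (cv g q j i.succ))) =
      N * ∑ i : Fin (g j), ∑ l : Fin (q j), u (zv g q j i l) +
        ∑ i : Fin (g j + 1), q j * (α j i + υ j i) * u (cv g q j i) := by
    intro j
    have e1 : ∑ i : Fin (g j + 1), (q j : ℝ) * (α j i + υ j i) * u (cv g q j i) =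
        ∑ i : Fin (g j), (q j : ℝ) * α j i * u (cv g q j i.castSucc) +
        ∑ i : Fin (g j), (q j : ℝ) * υ j (i + 1) * u (cv g q j i.succ) := by
      have e2 : ∑ i : Fin (g j + 1), (q j : ℝ) * (α j i + υ j i) * u (cv g q j i) =
          ∑ i : Fin (g j + 1), (q j : ℝ) * α j i * u (cv g q j i) +
          ∑ i : Fin (g j + 1), (q j : ℝ) * υ j i * u (cv g q j i) := by
        rw [← sum_add_distrib]
        exact sum_congr rfl fun i _ => by ring
      rw [e2]
      congr 1
      · rw [Fin.sum_univ_castSucc]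
        simp only [Fin.val_castSucc, Fin.val_last, hαg, mul_zero, zero_mul, add_zero]
      · rw [Fin.sum_univ_succ]
        simp only [Fin.val_zero, hυz, mul_zero, zero_mul, zero_add, Fin.val_succ]
    rw [e1, mul_sum, ← sum_add_distrib, ← sum_add_distrib, ← sum_add_distrib]
    refine sum_congr rfl fun i _ => ?_
    rw [mul_sum]
    have e3 : ∀ l : Fin (q j), ((X - α j i) * u (zv g q j i l) + α j i * u (cv g q j i.castSucc)) +
        ((X - υ j (i + 1)) * u (zv g q j i l) + υ j (i + 1) * u (cv g q j i.succ)) =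
        N * u (zv g q j i l) + (α j i * u (cv g q j i.castSucc) +
          υ j (i + 1) * u (cv g q j i.succ)) := by
      intro l
      have := hsum j i i.2
      rw [← hη, ← this]
      ring
    rw [← sum_add_distrib, sum_congr rfl fun l _ => e3 l, sum_add_distrib, sum_const, card_univ,
      Fintype.card_fin, nsmul_eq_mul]
    ring
  -- assemble
  have hR : ∑ j ∈ Jr, ∑ i : Fin (g j + 1),
      (β j i * u (cv g q j0 0) + (X - β j i) * u (cv g q j i)) =
      ∑ j, ∑ i : Fin (g j + 1), ((if j ∈ Jr then X - β j i else 0) +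
        (if j = j0 ∧ (i : ℕ) = 0 then ∑ j' ∈ Jr, ∑ i' ∈ range (g j' + 1), β j' i' else 0)) *
        u (cv g q j i) := by
    set B := ∑ j' ∈ Jr, ∑ i' ∈ range (g j' + 1), β j' i' with hB
    have e1 : ∑ j ∈ Jr, ∑ i : Fin (g j + 1),
        (β j i * u (cv g q j0 0) + (X - β j i) * u (cv g q j i)) =
        B * u (cv g q j0 0) + ∑ j ∈ Jr, ∑ i : Fin (g j + 1), (X - β j i) * u (cv g q j i) := by
      rw [hB, sum_mul, ← sum_add_distrib]
      refine sum_congr rfl fun j _ => ?_
      rw [sum_add_distrib, ← sum_mul, Finset.sum_range]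
    have e2 : ∑ j, ∑ i : Fin (g j + 1), ((if j ∈ Jr then X - β j i else 0) +
        (if j = j0 ∧ (i : ℕ) = 0 then B else 0)) * u (cv g q j i) =
        ∑ j, ∑ i : Fin (g j + 1), (if j ∈ Jr then X - β j i else 0) * u (cv g q j i) +
        ∑ j, ∑ i : Fin (g j + 1), (if j = j0 ∧ (i : ℕ) = 0 then B else 0) * u (cv g q j i) := by
      rw [← sum_add_distrib]
      refine sum_congr rfl fun j _ => ?_
      rw [← sum_add_distrib]
      exact sum_congr rfl fun i _ => by ring
    have e3 : ∑ j, ∑ i : Fin (g j + 1), (if j ∈ Jr then X - β j i else 0) * u (cv g q j i) =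
        ∑ j ∈ Jr, ∑ i : Fin (g j + 1), (X - β j i) * u (cv g q j i) := by
      rw [← Finset.sum_filter_add_sum_filter_not univ (fun j => j ∈ Jr)]
      have : ∑ j ∈ univ.filter (fun j => ¬ j ∈ Jr), ∑ i : Fin (g j + 1),
          (if j ∈ Jr then X - β j i else 0) * u (cv g q j i) = 0 := by
        refine sum_eq_zero fun j hj => sum_eq_zero fun i _ => ?_
        rw [if_neg (by simpa using hj), zero_mul]
      rw [this, add_zero]
      have h3 : univ.filter (fun j => j ∈ Jr) = Jr := by ext; simp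
      rw [h3]
      refine sum_congr rfl fun j hj => sum_congr rfl fun i _ => ?_
      rw [if_pos hj]
    have e4 : ∑ j, ∑ i : Fin (g j + 1), (if j = j0 ∧ (i : ℕ) = 0 then B else 0) *
        u (cv g q j i) = B * u (cv g q j0 0) := by
      rw [Finset.sum_eq_single j0, Finset.sum_eq_single 0]
      · simp
      · intro i _ hi
        rw [if_neg, zero_mul]
        rintro ⟨-, h⟩
        exact hi (Fin.ext h)
      · intro h; exact absurd (mem_univ _) h
      · intro j _ hj
        refine sum_eq_zero fun i _ => ?_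
        rw [if_neg, zero_mul]
        rintro ⟨h, -⟩
        exact hj h
      · intro h; exact absurd (mem_univ _) h
    rw [e1, e2, e3, e4]
    ring
  have hV : ∑ j ∈ Jv, ((X - γ j) * u (vv g q) + γ j * u (cv g q j 0)) =
      (∑ j ∈ Jv, (X - γ j)) * u (vv g q) +
      ∑ j, ∑ i : Fin (g j + 1), (if j ∈ Jv ∧ (i : ℕ) = 0 then γ j else 0) * u (cv g q j i) := by
    rw [sum_add_distrib, sum_mul]
    congr 1
    rw [← Finset.sum_filter_add_sum_filter_not univ (fun j => j ∈ Jv)]
    have : ∑ j ∈ univ.filter (fun j => ¬ j ∈ Jv), ∑ i : Fin (g j + 1),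
        (if j ∈ Jv ∧ (i : ℕ) = 0 then γ j else 0) * u (cv g q j i) = 0 := by
      refine sum_eq_zero fun j hj => sum_eq_zero fun i _ => ?_
      rw [if_neg, zero_mul]
      rintro ⟨h, -⟩
      exact absurd h (by simpa using hj)
    rw [this, add_zero]
    have h3 : univ.filter (fun j => j ∈ Jv) = Jv := by ext; simp
    rw [h3]
    refine sum_congr rfl fun j hj => ?_
    rw [Finset.sum_eq_single 0]
    · simp [hj]
    · intro i _ hi
      rw [if_neg, zero_mul]
      rintro ⟨-, h⟩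
      exact hi (Fin.ext h)
    · intro h; exact absurd (mem_univ _) h
  have hfin : ∑ j, ∑ i : Fin (g j + 1), (q j * (α j i + υ j i) * u (cv g q j i) +
      ((if j ∈ Jr then X - β j i else 0) +
        (if j = j0 ∧ (i : ℕ) = 0 then ∑ j' ∈ Jr, ∑ i' ∈ range (g j' + 1), β j' i' else 0)) *
        u (cv g q j i) + (if j ∈ Jv ∧ (i : ℕ) = 0 then γ j else 0) * u (cv g q j i)) ≤
      N * ∑ j, ∑ i : Fin (g j + 1), u (cv g q j i) := by
    rw [mul_sum]
    refine sum_le_sum fun j _ => ?_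
    rw [mul_sum]
    refine sum_le_sum fun i _ => ?_
    have := mul_le_mul_of_nonneg_right (hc j i (by have := i.2; omega)) (hu0 (cv g q j i))
    linarith
  have hfin' : ∑ j, ∑ i : Fin (g j + 1), (q j * (α j i + υ j i) * u (cv g q j i)) +
      ∑ j, ∑ i : Fin (g j + 1), ((if j ∈ Jr then X - β j i else 0) +
        (if j = j0 ∧ (i : ℕ) = 0 then ∑ j' ∈ Jr, ∑ i' ∈ range (g j' + 1), β j' i' else 0)) *
        u (cv g q j i) +
      ∑ j, ∑ i : Fin (g j + 1), (if j ∈ Jv ∧ (i : ℕ) = 0 then γ j else 0) * u (cv g q j i) ≤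
      N * ∑ j, ∑ i : Fin (g j + 1), u (cv g q j i) := by
    refine le_trans (le_of_eq ?_) hfin
    rw [← sum_add_distrib, ← sum_add_distrib]
    refine sum_congr rfl fun j _ => ?_
    rw [← sum_add_distrib, ← sum_add_distrib]
  have hchain : ∑ j, ∑ i : Fin (g j), ∑ l : Fin (q j),
        ((X - α j i) * u (zv g q j i l) + α j i * u (cv g q j i.castSucc)) +
      ∑ j, ∑ i : Fin (g j), ∑ l : Fin (q j),
        ((X - υ j (i + 1)) * u (zv g q j i l) + υ j (i + 1) * u (cv g q j i.succ)) =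
      N * ∑ j, ∑ i : Fin (g j), ∑ l : Fin (q j), u (zv g q j i l) +
      ∑ j, ∑ i : Fin (g j + 1), q j * (α j i + υ j i) * u (cv g q j i) := by
    rw [← sum_add_distrib, sum_congr rfl fun j _ => hA j, sum_add_distrib, mul_sum]
  have hv' := mul_le_mul_of_nonneg_right hv (hu0 (vv g q))
  calc X * (eIn (seed g q j0 Jr Jv e) U : ℝ)
      ≤ X * ∑ i : SI g q Jr Jv, u (src g q j0 Jr Jv i) * u (tgt g q Jr Jv i) :=
        mul_le_mul_of_nonneg_left h1 hX
    _ ≤ _ := hE
    _ ≤ N * U.card := by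
        rw [hchain, hR, hV, hU]
        linarith

omit [Fintype J] in
/-- consequences of containing the seed: an injective map of the abstract vertices -/
theorem exists_map (h0 : j0 ∉ Jr) {T V : Type*} (e : SV g q ≃ T) {G : SimpleGraph V}
    (h : Contains (seed g q j0 Jr Jv e) G) :
    ∃ φ : SV g q → V, Function.Injective φ ∧
      (∀ j i l, G.Adj (φ (cv g q j (Fin.castSucc i))) (φ (zv g q j i l))) ∧
      (∀ j i l, G.Adj (φ (cv g q j (Fin.succ i))) (φ (zv g q j i l))) ∧
      (∀ j ∈ Jr, ∀ i, G.Adj (φ (cv g q j0 0)) (φ (cv g q j i))) ∧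
      ∀ j ∈ Jv, G.Adj (φ (vv g q)) (φ (cv g q j 0)) := by
  obtain ⟨f, hf⟩ := h
  have key : ∀ i : SI g q Jr Jv, src g q j0 Jr Jv i ≠ tgt g q Jr Jv i →
      G.Adj (f (e (src g q j0 Jr Jv i))) (f (e (tgt g q Jr Jv i))) := by
    intro i hi
    apply hf
    rw [seed, SimpleGraph.fromEdgeSet_adj]
    exact ⟨⟨i, rfl⟩, fun h => hi (e.injective h)⟩
  refine ⟨fun w => f (e w), fun a b hab => e.injective (f.injective hab), ?_, ?_, ?_, ?_⟩
  · intro j i l
    exact (key (Sum.inl (Sum.inl ⟨j, (i, l)⟩)) (by simp [src, tgt])).symm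
  · intro j i l
    exact (key (Sum.inl (Sum.inr ⟨j, (i, l)⟩)) (by simp [src, tgt])).symm
  · intro j hj i
    refine key (Sum.inr (Sum.inl ⟨⟨j, hj⟩, i⟩)) ?_
    intro h
    simp only [src, tgt] at h
    have := congrArg (fun w : SV g q => match w with
      | Sum.inl p => some p.1
      | Sum.inr _ => none) h
    simp only [Option.some.injEq] at this
    exact h0 (this ▸ hj)
  · intro j hj
    exact key (Sum.inr (Sum.inr ⟨j, hj⟩)) (by simp [src, tgt])

end SG

end MP30c94c
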