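import Mathlib
import Pool.Agent.Lib.MP30c94c.SGSparse

/-! # Module SG1: the even seed -/

open SimpleGraph Finset Filter

namespace MP30c94c

attribute [local instance] Classical.propDecidable

namespace SG

/-- number of gaps of the two chains (`false` is `A`, `true` is `B`) -/
def gE (M : ℕ) : Bool → ℕ := fun b => bif b then 2 * M + 1 else M
/-- number of middle vertices per gap -/
def qE (M : ℕ) : Bool → ℕ := fun b => bif b then M - 1 else 2 * M

/-- payment of the lower end of a gap -/
noncomputable def αE (M : ℕ) : Bool → ℕ → ℝ := fun b i =>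
  bif b then 2 * M + 1 - i else 2 * M - 2 * i
/-- payment of the upper end of a gap -/
noncomputable def υE : Bool → ℕ → ℝ := fun b i => bif b then i else 2 * i

theorem sparse_even (M : ℕ) (hM : 2 ≤ M) {T : Type*} [Fintype T] (e : SV (gE M) (qE M) ≃ T)
    (U : Finset T) :
    (2 * M ^ 2 + M + 1 : ℝ) * eIn (seed (gE M) (qE M) false {true} ∅ e) U ≤
      (4 * M ^ 2 : ℝ) * U.card := by
  have hM' : (2:ℝ) ≤ M := by exact_mod_cast hM
  refine sparse (gE M) (qE M) false {true} ∅ (2 * M ^ 2 + M + 1) (4 * M ^ 2) (2 * M + 2)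
    (αE M) υE (fun _ _ => 0) (fun _ => 0) ?_ ?_ ?_ ?_ ?_ ?_ ?_ ?_ ?_ ?_ e U
  · rintro (_ | _) i hi
    · have hi' : (i:ℝ) ≤ M := by exact_mod_cast hi
      have h0 : (0:ℝ) ≤ i := Nat.cast_nonneg i
      simp only [αE, cond_false]
      constructor <;> nlinarith
    · have hi' : (i:ℝ) ≤ 2 * M + 1 := by exact_mod_cast hi
      have h0 : (0:ℝ) ≤ i := Nat.cast_nonneg i
      simp only [αE, cond_true]
      constructor <;> nlinarith
  · rintro (_ | _) i hi
    · have hi' : (i:ℝ) ≤ M := by exact_mod_cast hi
      have h0 : (0:ℝ) ≤ i := Nat.cast_nonneg i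
      simp only [υE, cond_false]
      constructor <;> nlinarith
    · have hi' : (i:ℝ) ≤ 2 * M + 1 := by exact_mod_cast hi
      have h0 : (0:ℝ) ≤ i := Nat.cast_nonneg i
      simp only [υE, cond_true]
      constructor <;> nlinarith
  · intro j i
    exact ⟨le_refl _, by positivity⟩
  · intro j
    exact ⟨le_refl _, by positivity⟩
  · rintro (_ | _)
    · simp [αE, gE]
    · simp [αE, gE]
  · rintro (_ | _) <;> simp [υE]
  · rintro (_ | _) i hi
    · simp only [αE, υE, cond_false]; push_cast; ring
    · simp only [αE, υE, cond_true]; push_cast; ring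
  · ring
  · rintro (_ | _) i hi
    · simp only [αE, υE, qE, cond_false]
      push_cast
      simp
      nlinarith
    · simp only [αE, υE, qE, cond_true]
      rw [Nat.cast_sub (by omega)]
      simp
      nlinarith
  · simp only [sum_empty]
    positivity

theorem gen_even (M : ℕ) (hM : 2 ≤ M) {T : Type*} (e : SV (gE M) (qE M) ≃ T)
    {V : Type*} [Fintype V] (G : SimpleGraph V)
    (hc : Contains (seed (gE M) (qE M) false {true} ∅ e) G)
    (hdeg : ∀ v, 2 * M + 2 ≤ (univ.filter fun w => G.Adj v w).card) :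
    ∃ B : Finset V, 2 * M + 2 ≤ B.card ∧ ∀ u ∈ B, ∀ w ∈ B, u ≠ w →
      2 * M ≤ (univ.filter fun z => (closure (K2 (2 * M + 1)) G).Adj u z ∧
        (closure (K2 (2 * M + 1)) G).Adj w z).card := by
  obtain ⟨φ, hφ, h1, h2, h3, -⟩ := exists_map (gE M) (qE M) false {true} ∅ (by simp) e hc
  have hA : ∀ i j : Fin (gE M false + 1), Twin (closure (K2 (2 * M + 1)) G) (2 * M)
      (φ (cv (gE M) (qE M) false i)) (φ (cv (gE M) (qE M) false j)) := by
    refine chain_twin hdeg (fun i => φ (cv (gE M) (qE M) false i)) fun i => ?_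
    refine twin_of_image (K := Fin (qE M false)) (fun l => φ (zv (gE M) (qE M) false i l)) ?_ ?_
      ?_ ?_
    · intro a b hab
      have := hφ hab
      simpa using this
    · rw [Fintype.card_fin]
      exact le_refl (2 * M)
    · exact fun l => adj_of_adj (h1 false i l)
    · exact fun l => adj_of_adj (h2 false i l)
  have hroot : ∀ (i : Fin (gE M true + 1)) (a : Fin (gE M false + 1)),
      (closure (K2 (2 * M + 1)) G).Adj (φ (cv (gE M) (qE M) true i))
        (φ (cv (gE M) (qE M) false a)) := by
    intro i a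
    refine (hA a 0).adj (fun h => ?_) (adj_of_adj (h3 true (by simp) i)).symm
    have := hφ h
    simp at this
  have hB : ∀ i j : Fin (gE M true + 1), Twin (closure (K2 (2 * M + 1)) G) (2 * M)
      (φ (cv (gE M) (qE M) true i)) (φ (cv (gE M) (qE M) true j)) := by
    refine chain_twin hdeg (fun i => φ (cv (gE M) (qE M) true i)) fun i => ?_
    refine twin_of_image (K := Fin (gE M false + 1) ⊕ Fin (qE M true))
      (Sum.elim (fun a => φ (cv (gE M) (qE M) false a)) (fun l => φ (zv (gE M) (qE M) true i l)))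
      ?_ ?_ ?_ ?_
    · rintro (a | a) (b | b) hab
      · have := hφ hab
        simpa using this
      · have := hφ hab
        simp at this
      · have := hφ hab
        simp at this
      · have := hφ hab
        simpa using this
    · rw [Fintype.card_sum, Fintype.card_fin, Fintype.card_fin]
      change 2 * M ≤ (M + 1) + (M - 1)
      omega
    · rintro (a | l)
      · exact hroot _ a
      · exact adj_of_adj (h1 true i l)
    · rintro (a | l)
      · exact hroot _ a
      · exact adj_of_adj (h2 true i l)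
  refine ⟨univ.image fun i : Fin (gE M true + 1) => φ (cv (gE M) (qE M) true i), ?_, ?_⟩
  · rw [card_image_of_injective, card_univ, Fintype.card_fin]
    · simp [gE]
    · intro a b hab
      have := hφ hab
      simpa using this
  · intro u hu w hw huw
    obtain ⟨i, -, rfl⟩ := mem_image.1 hu
    obtain ⟨j, -, rfl⟩ := mem_image.1 hw
    rcases hB i j with h | h
    · exact absurd h huw
    · exact h

end SG

/-- even case `k = 2 M`, exponent `x = (2M²+M+1)/(4M²)` -/
theorem seed_even (M : ℕ) (hM : 2 ≤ M) :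
    ∃ (m : ℕ) (F : SimpleGraph (Fin m)),
      (∀ U : Finset (Fin m), ((2 * M ^ 2 + M + 1 : ℝ) / (4 * M ^ 2)) * eIn F U ≤ U.card) ∧
      ∀ (V : Type) [Fintype V] (G : SimpleGraph V), Contains F G →
        (∀ v, 2 * M + 2 ≤ (univ.filter fun w => G.Adj v w).card) →
        ∃ B : Finset V, 2 * M + 2 ≤ B.card ∧ ∀ u ∈ B, ∀ w ∈ B, u ≠ w →
          2 * M ≤ (univ.filter fun z => (closure (K2 (2 * M + 1)) G).Adj u z ∧
            (closure (K2 (2 * M + 1)) G).Adj w z).card := by
  refine ⟨Fintype.card (SG.SV (SG.gE M) (SG.qE M)),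
    SG.seed (SG.gE M) (SG.qE M) false {true} ∅ (Fintype.equivFin _), fun U => ?_,
    fun V _ G hc hdeg => SG.gen_even M hM _ G hc hdeg⟩
  have h := SG.sparse_even M hM (Fintype.equivFin (SG.SV (SG.gE M) (SG.qE M))) U
  have hM' : (0:ℝ) < M := by
    have : 0 < M := by omega
    exact_mod_cast this
  rw [div_mul_eq_mul_div, div_le_iff₀ (by positivity)]
  linarith

end MP30c94c
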