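import Mathlib
import Pool.Agent.Lib.MP30c94c.SGSparse

/-! # Module SG2: the odd seed -/

open SimpleGraph Finset Filter

namespace MP30c94c

attribute [local instance] Classical.propDecidable

namespace SG

/-- the four chains of the odd seed -/
inductive J4 | A | D | E | B
  deriving DecidableEq

instance : Fintype J4 := ⟨{J4.A, J4.D, J4.E, J4.B}, by intro x; cases x <;> decide⟩

/-- number of gaps of the chains, `M = m + 2` -/
def gO (m : ℕ) : J4 → ℕ
  | J4.A => m + 1
  | J4.D => m + 1
  | J4.E => m
  | J4.B => 2 * m + 4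
/-- number of middle vertices per gap, `M = m + 2` -/
def qO (m : ℕ) : J4 → ℕ
  | J4.A => 2 * m + 3
  | J4.D => m + 1
  | J4.E => m + 1
  | J4.B => m

/-- payment of the lower end of a gap -/
noncomputable def αO (m : ℕ) : J4 → ℕ → ℝ
  | J4.A, i => 8 * (m + 1) * (m + 1 - i) / (2 * m + 3)
  | J4.D, i => 4 * (m + 1 - i)
  | J4.E, i => 4 * (m - i)
  | J4.B, i => if i < 2 * m + 4 then 4 * m + 7 else 0
/-- payment of the upper end of a gap -/
noncomputable def υO (m : ℕ) : J4 → ℕ → ℝ
  | J4.A, i => if i = 0 then 0 else (8 * (m + 1) * i + 2 * m + 5) / (2 * m + 3)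
  | J4.D, i => if i = 0 then 0 else 4 * i - 1
  | J4.E, i => if i = 0 then 0 else 4 * i + 3
  | J4.B, _ => 0
/-- payment of the root -/
noncomputable def βO (m : ℕ) : J4 → ℕ → ℝ
  | J4.D, i => if i = 0 then 2 * m + 5 else 0
  | _, _ => 0
/-- payment on the edges of the extra vertex -/
noncomputable def γO (m : ℕ) : J4 → ℝ
  | J4.D => m + 4
  | J4.E => 3 * (m + 1)
  | _ => 0

/-- chains adjacent to the root -/
def JrO : Finset J4 := {J4.D, J4.E, J4.B}
/-- chains adjacent to the extra vertex -/
def JvO : Finset J4 := {J4.D, J4.E}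

theorem sparse_odd (m : ℕ) {T : Type*} [Fintype T] (e : SV (gO m) (qO m) ≃ T)
    (U : Finset T) :
    (4 * (m + 2) ^ 2 - 5 * (m + 2) + 4 : ℝ) * eIn (seed (gO m) (qO m) J4.A JrO JvO e) U ≤
      (8 * (m + 2) ^ 2 - 14 * (m + 2) + 9 : ℝ) * U.card := by
  have hm : (0:ℝ) ≤ m := Nat.cast_nonneg m
  have hm2 : (0:ℝ) ≤ (m:ℝ) ^ 2 := by positivity
  have hm3 : (0:ℝ) ≤ (m:ℝ) ^ 3 := by positivity
  have hd : (0:ℝ) < 2 * m + 3 := by positivity
  refine sparse (gO m) (qO m) J4.A JrO JvO (4 * (m + 2) ^ 2 - 5 * (m + 2) + 4)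
    (8 * (m + 2) ^ 2 - 14 * (m + 2) + 9) (4 * m + 7)
    (αO m) (υO m) (βO m) (γO m) ?_ ?_ ?_ ?_ ?_ ?_ ?_ ?_ ?_ ?_ e U
  · rintro (_ | _ | _ | _) i hi
    · have hi' : (i:ℝ) ≤ m + 1 := by exact_mod_cast hi
      have h0 : (0:ℝ) ≤ i := Nat.cast_nonneg i
      simp only [αO]
      constructor
      · apply div_nonneg _ hd.le
        have : (0:ℝ) ≤ m + 1 - i := by linarith
        positivity
      · rw [div_le_iff₀ hd]
        nlinarith [mul_nonneg hm h0]
    · have hi' : (i:ℝ) ≤ m + 1 := by exact_mod_cast hi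
      have h0 : (0:ℝ) ≤ i := Nat.cast_nonneg i
      simp only [αO]
      constructor <;> nlinarith
    · have hi' : (i:ℝ) ≤ m := by exact_mod_cast hi
      have h0 : (0:ℝ) ≤ i := Nat.cast_nonneg i
      simp only [αO]
      constructor <;> nlinarith
    · simp only [αO]
      split_ifs
      · constructor <;> nlinarith
      · constructor <;> nlinarith
  · rintro (_ | _ | _ | _) i hi
    · have hi' : (i:ℝ) ≤ m + 1 := by exact_mod_cast hi
      have h0 : (0:ℝ) ≤ i := Nat.cast_nonneg i
      simp only [υO]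
      split_ifs
      · constructor <;> nlinarith
      · constructor
        · positivity
        · rw [div_le_iff₀ hd]
          nlinarith [mul_nonneg hm h0, mul_nonneg hm (sub_nonneg.2 hi')]
    · have hi' : (i:ℝ) ≤ m + 1 := by exact_mod_cast hi
      simp only [υO]
      split_ifs with h
      · constructor <;> nlinarith
      · have h1 : (1:ℝ) ≤ i := by exact_mod_cast Nat.one_le_iff_ne_zero.2 h
        constructor <;> nlinarith
    · have hi' : (i:ℝ) ≤ m := by exact_mod_cast hi
      simp only [υO]
      split_ifs with h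
      · constructor <;> nlinarith
      · have h1 : (1:ℝ) ≤ i := by exact_mod_cast Nat.one_le_iff_ne_zero.2 h
        constructor <;> nlinarith
    · simp only [υO]
      constructor <;> nlinarith
  · rintro (_ | _ | _ | _) i <;> simp only [βO] <;> (try split_ifs) <;> constructor <;> nlinarith
  · rintro (_ | _ | _ | _) <;> simp only [γO] <;> constructor <;> nlinarith
  · rintro (_ | _ | _ | _) <;> simp [αO, gO]
  · rintro (_ | _ | _ | _) <;> simp [υO]
  · rintro (_ | _ | _ | _) i hi
    · simp only [αO, υO]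
      rw [if_neg (by omega)]
      push_cast
      field_simp
      ring
    · simp only [αO, υO]
      rw [if_neg (by omega)]
      push_cast
      ring
    · simp only [αO, υO]
      rw [if_neg (by omega)]
      push_cast
      ring
    · simp only [αO, υO]
      rw [if_pos (show i < 2 * m + 4 from hi)]
      ring
  · ring
  · have hβs : ∑ j' ∈ JrO, ∑ i' ∈ range (gO m j' + 1), βO m j' i' = 2 * m + 5 := by
      have e1 : ∑ i' ∈ range (gO m J4.D + 1), βO m J4.D i' = 2 * m + 5 := by
        rw [Finset.sum_eq_single 0]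
        · simp [βO]
        · intro i _ hi
          simp [βO, hi]
        · intro h
          exact absurd (mem_range.2 (Nat.succ_pos _)) h
      have e2 : ∑ i' ∈ range (gO m J4.E + 1), βO m J4.E i' = 0 := sum_eq_zero fun _ _ => rfl
      have e3 : ∑ i' ∈ range (gO m J4.B + 1), βO m J4.B i' = 0 := sum_eq_zero fun _ _ => rfl
      rw [JrO, sum_insert (by decide), sum_insert (by decide), sum_singleton, e1, e2, e3]
      ring
    rintro (_ | _ | _ | _) i hi
    · rw [hβs, if_neg (by decide : J4.A ∉ JrO),
        if_neg (fun h : J4.A ∈ JvO ∧ i = 0 => absurd h.1 (by decide))]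
      simp only [αO, υO, qO]
      push_cast
      by_cases h : i = 0
      · subst h
        simp
        field_simp
        nlinarith
      · rw [if_neg h, if_neg (by simp [h])]
        field_simp
        nlinarith
    · rw [hβs, if_pos (by decide : J4.D ∈ JrO), if_neg (by simp)]
      simp only [αO, υO, qO, βO, γO]
      push_cast
      by_cases h : i = 0
      · subst h
        simp [JvO]
        nlinarith
      · rw [if_neg h, if_neg h, if_neg (by simp [h])]
        nlinarith
    · rw [hβs, if_pos (by decide : J4.E ∈ JrO), if_neg (by simp)]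
      simp only [αO, υO, qO, βO, γO]
      push_cast
      by_cases h : i = 0
      · subst h
        simp [JvO]
        nlinarith
      · rw [if_neg h, if_neg (by simp [h])]
        nlinarith
    · rw [hβs, if_pos (by decide : J4.B ∈ JrO), if_neg (by simp),
        if_neg (fun h : J4.B ∈ JvO ∧ i = 0 => absurd h.1 (by decide))]
      simp only [αO, υO, qO, βO]
      split_ifs
      · nlinarith
      · nlinarith
  · rw [JvO, sum_insert (by decide), sum_singleton]
    simp only [γO]
    nlinarith

theorem gen_odd (m : ℕ) {T : Type*} (e : SV (gO m) (qO m) ≃ T)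
    {V : Type*} [Fintype V] (G : SimpleGraph V)
    (hc : Contains (seed (gO m) (qO m) J4.A JrO JvO e) G)
    (hdeg : ∀ v, (2 * m + 3) + 2 ≤ (univ.filter fun w => G.Adj v w).card) :
    ∃ B : Finset V, (2 * m + 3) + 2 ≤ B.card ∧ ∀ u ∈ B, ∀ w ∈ B, u ≠ w →
      2 * m + 3 ≤ (univ.filter fun z => (closure (K2 ((2 * m + 3) + 1)) G).Adj u z ∧
        (closure (K2 ((2 * m + 3) + 1)) G).Adj w z).card := by
  obtain ⟨φ, hφ, h1, h2, h3, h4⟩ := exists_map (gO m) (qO m) J4.A JrO JvO (by decide) e hc
  set H := closure (K2 ((2 * m + 3) + 1)) G with hH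
  have hne : ∀ (j j' : J4) (i : Fin (gO m j + 1)) (i' : Fin (gO m j' + 1)), j ≠ j' →
      φ (cv (gO m) (qO m) j i) ≠ φ (cv (gO m) (qO m) j' i') := by
    intro j j' i i' hj h
    have := hφ h
    have := congrArg (fun w : SV (gO m) (qO m) => match w with
      | Sum.inl p => some p.1
      | Sum.inr _ => none) this
    simp only [Option.some.injEq] at this
    exact hj this
  have hA : ∀ i j : Fin (gO m J4.A + 1), Twin H (2 * m + 3)
      (φ (cv (gO m) (qO m) J4.A i)) (φ (cv (gO m) (qO m) J4.A j)) := by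
    refine chain_twin hdeg (fun i => φ (cv (gO m) (qO m) J4.A i)) fun i => ?_
    refine twin_of_image (K := Fin (qO m J4.A)) (fun l => φ (zv (gO m) (qO m) J4.A i l)) ?_ ?_
      ?_ ?_
    · intro a b hab
      have := hφ hab
      simpa using this
    · rw [Fintype.card_fin]
      exact le_refl (2 * m + 3)
    · exact fun l => adj_of_adj (h1 J4.A i l)
    · exact fun l => adj_of_adj (h2 J4.A i l)
  have hroot : ∀ (j : J4) (hj : j ∈ JrO) (i : Fin (gO m j + 1)) (a : Fin (gO m J4.A + 1)),
      H.Adj (φ (cv (gO m) (qO m) j i)) (φ (cv (gO m) (qO m) J4.A a)) := by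
    intro j hj i a
    refine (hA a 0).adj (hne _ _ _ _ ?_) (adj_of_adj (h3 j hj i)).symm
    rintro rfl
    exact absurd hj (by decide)
  have hchain : ∀ (j : J4) (hj : j ∈ JrO), qO m j = m + 1 →
      ∀ i i' : Fin (gO m j + 1), Twin H (2 * m + 3)
      (φ (cv (gO m) (qO m) j i)) (φ (cv (gO m) (qO m) j i')) := by
    intro j hj hq
    refine chain_twin hdeg (fun i => φ (cv (gO m) (qO m) j i)) fun i => ?_
    refine twin_of_image (K := Fin (gO m J4.A + 1) ⊕ Fin (qO m j))
      (Sum.elim (fun a => φ (cv (gO m) (qO m) J4.A a)) (fun l => φ (zv (gO m) (qO m) j i l)))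
      ?_ ?_ ?_ ?_
    · rintro (a | a) (b | b) hab
      · have := hφ hab
        simpa using this
      · have := hφ hab
        simp at this
      · have := hφ hab
        simp at this
      · have := hφ hab
        simpa using this
    · rw [Fintype.card_sum, Fintype.card_fin, Fintype.card_fin, hq]
      change 2 * m + 3 ≤ (m + 1 + 1) + (m + 1)
      omega
    · rintro (a | l)
      · exact hroot _ hj _ a
      · exact adj_of_adj (h1 j i l)
    · rintro (a | l)
      · exact hroot _ hj _ a
      · exact adj_of_adj (h2 j i l)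
  have hvadj : ∀ (j : J4) (hj : j ∈ JvO) (hj' : j ∈ JrO) (hq : qO m j = m + 1)
      (i : Fin (gO m j + 1)), H.Adj (φ (vv (gO m) (qO m))) (φ (cv (gO m) (qO m) j i)) := by
    intro j hj hj' hq i
    refine (hchain j hj' hq i 0).adj (fun h => ?_) (adj_of_adj (h4 j hj))
    have := hφ h
    simp at this
  have hv : Twin H (2 * m + 3) (φ (cv (gO m) (qO m) J4.A 0)) (φ (vv (gO m) (qO m))) := by
    refine twin_of_image (K := Fin (gO m J4.D + 1) ⊕ Fin (gO m J4.E + 1))
      (Sum.elim (fun a => φ (cv (gO m) (qO m) J4.D a)) (fun a => φ (cv (gO m) (qO m) J4.E a)))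
      ?_ ?_ ?_ ?_
    · rintro (a | a) (b | b) hab
      · have := hφ hab
        simpa using this
      · exact absurd hab (hne _ _ _ _ (by decide))
      · exact absurd hab (hne _ _ _ _ (by decide))
      · have := hφ hab
        simpa using this
    · rw [Fintype.card_sum, Fintype.card_fin, Fintype.card_fin]
      change 2 * m + 3 ≤ (m + 1 + 1) + (m + 1)
      omega
    · rintro (a | a)
      · exact (hroot J4.D (by decide) a 0).symm
      · exact (hroot J4.E (by decide) a 0).symm
    · rintro (a | a)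
      · exact hvadj J4.D (by decide) (by decide) rfl a
      · exact hvadj J4.E (by decide) (by decide) rfl a
  have hBv : ∀ i : Fin (gO m J4.B + 1),
      H.Adj (φ (cv (gO m) (qO m) J4.B i)) (φ (vv (gO m) (qO m))) := by
    intro i
    refine hv.symm.adj (fun h => ?_) (hroot J4.B (by decide) i 0)
    have := hφ h
    simp at this
  have hB : ∀ i j : Fin (gO m J4.B + 1), Twin H (2 * m + 3)
      (φ (cv (gO m) (qO m) J4.B i)) (φ (cv (gO m) (qO m) J4.B j)) := by
    refine chain_twin hdeg (fun i => φ (cv (gO m) (qO m) J4.B i)) fun i => ?_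
    refine twin_of_image (K := Fin (gO m J4.A + 1) ⊕ Unit ⊕ Fin (qO m J4.B))
      (Sum.elim (fun a => φ (cv (gO m) (qO m) J4.A a))
        (Sum.elim (fun _ => φ (vv (gO m) (qO m))) (fun l => φ (zv (gO m) (qO m) J4.B i l))))
      ?_ ?_ ?_ ?_
    · rintro (a | a | a) (b | b | b) hab
      · have := hφ hab
        simpa using this
      · have := hφ hab
        simp at this
      · have := hφ hab
        simp at this
      · have := hφ hab
        simp at this
      · rfl
      · have := hφ hab
        simp at this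
      · have := hφ hab
        simp at this
      · have := hφ hab
        simp at this
      · have := hφ hab
        simpa using this
    · rw [Fintype.card_sum, Fintype.card_sum, Fintype.card_fin, Fintype.card_fin,
        Fintype.card_unit]
      change 2 * m + 3 ≤ (m + 1 + 1) + (1 + m)
      omega
    · rintro (a | a | l)
      · exact hroot _ (by decide) _ a
      · exact hBv _
      · exact adj_of_adj (h1 J4.B i l)
    · rintro (a | a | l)
      · exact hroot _ (by decide) _ a
      · exact hBv _
      · exact adj_of_adj (h2 J4.B i l)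
  refine ⟨univ.image fun i : Fin (gO m J4.B + 1) => φ (cv (gO m) (qO m) J4.B i), ?_, ?_⟩
  · rw [card_image_of_injective, card_univ, Fintype.card_fin]
    · exact le_refl (2 * m + 4 + 1)
    · intro a b hab
      have := hφ hab
      simpa using this
  · intro u hu w hw huw
    obtain ⟨i, -, rfl⟩ := mem_image.1 hu
    obtain ⟨j, -, rfl⟩ := mem_image.1 hw
    rcases hB i j with h | h
    · exact absurd h huw
    · exact h

end SG

/-- odd case `k = 2 M - 1`, exponent `x = (4M²-5M+4)/(8M²-14M+9)` -/
theorem seed_odd (M : ℕ) (hM : 2 ≤ M) :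
    ∃ (m : ℕ) (F : SimpleGraph (Fin m)),
      (∀ U : Finset (Fin m),
        ((4 * M ^ 2 - 5 * M + 4 : ℝ) / (8 * M ^ 2 - 14 * M + 9)) * eIn F U ≤ U.card) ∧
      ∀ (V : Type) [Fintype V] (G : SimpleGraph V), Contains F G →
        (∀ v, 2 * M + 1 ≤ (univ.filter fun w => G.Adj v w).card) →
        ∃ B : Finset V, 2 * M + 1 ≤ B.card ∧ ∀ u ∈ B, ∀ w ∈ B, u ≠ w →
          2 * M - 1 ≤ (univ.filter fun z => (closure (K2 (2 * M)) G).Adj u z ∧
            (closure (K2 (2 * M)) G).Adj w z).card := by
  obtain ⟨m, rfl⟩ : ∃ m, M = m + 2 := ⟨M - 2, by omega⟩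
  refine ⟨Fintype.card (SG.SV (SG.gO m) (SG.qO m)),
    SG.seed (SG.gO m) (SG.qO m) SG.J4.A SG.JrO SG.JvO (Fintype.equivFin _), fun U => ?_,
    fun V _ G hc hdeg => SG.gen_odd m _ G hc hdeg⟩
  have h := SG.sparse_odd m (Fintype.equivFin (SG.SV (SG.gO m) (SG.qO m))) U
  have hm : (0:ℝ) ≤ m := Nat.cast_nonneg m
  push_cast
  rw [div_mul_eq_mul_div, div_le_iff₀ (by nlinarith)]
  linarith

end MP30c94c
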