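import Mathlib
import Pool.Agent.Lib.MP30c94c.Assemble
import Pool.Agent.Lib.MP30c94c.LBNum
import Pool.Agent.Lib.MP30c94c.SG1
import Pool.Agent.Lib.MP30c94c.SG2

/-!
# The critical probability for `K_{2,t}`-bootstrap percolation, `t ≥ 4`

`p_c(n, K_{2,t}) = Θ(n^{-x_t})` with `x_t = (t²-t+2)/(2(t-1)²)` for odd `t` and
`x_t = (2t²-5t+8)/(4t²-14t+18)` for even `t`.
-/

open SimpleGraph Filter

namespace MP30c94c

/-- The exponent `x_t`. -/
noncomputable def expo2 (t : ℕ) : ℝ :=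
  if Odd t then ((t : ℝ) ^ 2 - t + 2) / (2 * ((t : ℝ) - 1) ^ 2)
  else (2 * (t : ℝ) ^ 2 - 5 * t + 8) / (4 * (t : ℝ) ^ 2 - 14 * t + 18)

theorem two_const (t : ℕ) (ht : 4 ≤ t) :
    ∃ c C : ℝ, 0 < c ∧ 0 < C ∧ ∀ᶠ n : ℕ in atTop,
      c * (n : ℝ) ^ (-expo2 t) ≤ pc n (completeBipartiteGraph (Fin 2) (Fin t)) ∧
      pc n (completeBipartiteGraph (Fin 2) (Fin t)) ≤ C * (n : ℝ) ^ (-expo2 t) := by
  rcases Nat.even_or_odd t with he | ho
  · -- `t = 2 M`, `k = 2 M - 1`
    obtain ⟨M, hM⟩ := he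
    have hM2 : 2 ≤ M := by omega
    have hMr : (2:ℝ) ≤ M := by exact_mod_cast hM2
    have htM : t = 2 * M := by omega
    obtain ⟨m, F, hF, hseed⟩ := seed_odd M hM2
    have hk1 : (potOdd M hM2).k + 1 = t := by
      change 2 * M - 1 + 1 = t
      omega
    have hexp : ((potOdd M hM2).X : ℝ) / ((potOdd M hM2).N : ℝ) = expo2 t := by
      change (((4 * (M:ℤ) ^ 2 - 5 * M + 4 : ℤ)) : ℝ) / ((8 * (M:ℤ) ^ 2 - 14 * M + 9 : ℤ) : ℝ) = _
      unfold expo2
      rw [if_neg (by rw [Nat.not_odd_iff_even, htM]; exact even_two_mul M), htM]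
      push_cast
      have h1 : (8 * (M:ℝ) ^ 2 - 14 * M + 9) ≠ 0 := by nlinarith
      have h2 : (4 * (2 * (M:ℝ)) ^ 2 - 14 * (2 * M) + 18) ≠ 0 := by nlinarith
      rw [div_eq_div_iff h1 h2]
      ring
    have key := threshold_of_data (potOdd M hM2)
      (by change (0:ℤ) < 4 * (M:ℤ) ^ 2 - 5 * M + 4
          have : (2:ℤ) ≤ M := by exact_mod_cast hM2
          nlinarith)
      (by change (4 * (M:ℤ) ^ 2 - 5 * M + 4 : ℤ) < 8 * (M:ℤ) ^ 2 - 14 * M + 9
          have : (2:ℤ) ≤ M := by exact_mod_cast hM2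
          nlinarith) m F
      (by
        intro U
        have := hF U
        change ((((4 * (M:ℤ) ^ 2 - 5 * M + 4 : ℤ)) : ℝ) / ((8 * (M:ℤ) ^ 2 - 14 * M + 9 : ℤ) : ℝ)) *
          _ ≤ _
        push_cast
        exact this)
      (by
        intro V _ G hG hdeg
        have e1 : (potOdd M hM2).k + 2 = 2 * M + 1 := by
          change 2 * M - 1 + 2 = 2 * M + 1
          omega
        have e2 : (potOdd M hM2).k + 1 = 2 * M := by
          change 2 * M - 1 + 1 = 2 * M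
          omega
        rw [e1] at hdeg ⊢
        rw [e2]
        exact hseed V G hG hdeg)
    rw [hexp, hk1] at key
    exact key
  · -- `t = 2 M + 1`, `k = 2 M`
    obtain ⟨M, hM⟩ := ho
    have hM2 : 2 ≤ M := by omega
    have hMr : (2:ℝ) ≤ M := by exact_mod_cast hM2
    obtain ⟨m, F, hF, hseed⟩ := seed_even M hM2
    have hk1 : (potEven M hM2).k + 1 = t := by
      change 2 * M + 1 = t
      omega
    have hexp : ((potEven M hM2).X : ℝ) / ((potEven M hM2).N : ℝ) = expo2 t := by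
      change (((2 * (M:ℤ) ^ 2 + M + 1 : ℤ)) : ℝ) / ((4 * (M:ℤ) ^ 2 : ℤ) : ℝ) = _
      unfold expo2
      rw [if_pos (by rw [hM]; exact ⟨M, rfl⟩), hM]
      push_cast
      have h1 : (4 * (M:ℝ) ^ 2) ≠ 0 := by positivity
      have h2 : (2 * (2 * (M:ℝ) + 1 - 1) ^ 2) ≠ 0 := by
        have : 2 * (M:ℝ) + 1 - 1 = 2 * M := by ring
        rw [this]; positivity
      rw [div_eq_div_iff h1 h2]
      ring
    have key := threshold_of_data (potEven M hM2)
      (by change (0:ℤ) < 2 * (M:ℤ) ^ 2 + M + 1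
          positivity)
      (by change (2 * (M:ℤ) ^ 2 + M + 1 : ℤ) < 4 * (M:ℤ) ^ 2
          have : (2:ℤ) ≤ M := by exact_mod_cast hM2
          nlinarith) m F
      (by
        intro U
        have := hF U
        change ((((2 * (M:ℤ) ^ 2 + M + 1 : ℤ)) : ℝ) / ((4 * (M:ℤ) ^ 2 : ℤ) : ℝ)) * _ ≤ _
        push_cast
        exact this)
      (by
        intro V _ G hG hdeg
        exact hseed V G hG hdeg)
    rw [hexp, hk1] at key
    exact key

end MP30c94c
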