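import Mathlib
import Pool.Agent.Lib.MP30c94c.KSt

/-!
# The two exceptional pairs `(3,6)` and `(3,7)`: definitions
-/

open SimpleGraph Finset

namespace MP30c94c

attribute [local instance] Classical.propDecidable

/-- numerical data: `k = t - 1`, lines have at most `L` points, `W` is the maximal discount,
`D` the guaranteed gain of an external helper of a class of discount `W` -/
structure ParX where
  k : ℕ
  L : ℕ
  a : ℤ
  b : ℤ
  W : ℤ
  D : ℤ

/-- the data of `K_{3,7}` -/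
def P6 : ParX := ⟨6, 5, 26, 11, 13, 12⟩

/-- the data of `K_{3,6}` -/
def P5 : ParX := ⟨5, 4, 49, 22, 24, 24⟩

def ParX.Ok (P : ParX) : Prop := P = P6 ∨ P = P5

/-- `η = 3 b - a` (7, 17) -/
def ParX.eta (P : ParX) : ℤ := 3 * P.b - P.a

/-- the second largest discount `μ = k η - 3 b` (9, 19) -/
def ParX.mu (P : ParX) : ℤ := P.k * P.eta - 3 * P.b

/-- the price `kη - a` of a class without discount in a flat (16, 36) -/
def ParX.c0 (P : ParX) : ℤ := P.k * P.eta - P.a

/-- the discount of a class -/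
def ParX.w {V : Type} (P : ParX) (c : Cls V) : ℤ := P.k * P.eta - c.th

/-- the guaranteed net gain of a class in a closed set -/
def ParX.gain (P : ParX) (w : ℤ) : ℤ :=
  if P.k = 6 then
    (if w = 0 then 13 else if w = 9 then 1 else if w = 13 then 0 else 5)
  else
    (if w = 0 then 24 else if w = 2 then 19 else if w = 7 then 17 else if w = 19 then 5 else 0)

variable {V : Type} [Fintype V]

/-- the classes older than `c` inside `X` -/
noncomputable def St.old (st : St V) (c : Cls V) (X : Finset V) : Finset (Cls V) :=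
  st.cls.filter fun c' => c'.t < c.t ∧ c'.U ⊆ X

/-- `p` arises from `q` by activations -/
structure Hist (q p : V → V → ℚ) : Prop where
  flat : ∀ X : Finset V, IsFlat p X → IsFlat q X
  rel : ∀ B A : Finset V, B ⊆ A → rk p A + rk q B ≤ rk q A + rk p B

/-- `q` are the vectors at the time of the activation of the class `c` -/
structure Past (P : ParX) (st : St V) (c : Cls V) (q : V → V → ℚ) : Prop where
  hist : Hist q st.p
  indep : ∀ Y : Finset V, Y.card ≤ 2 → rk q Y = Y.card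
  count : ∀ X : Finset V, IsFlat q X → X.card = rk q X + (st.old c X).card
  cnt2 : ∀ Y : Finset V, rk q Y + (st.old c Y).card ≤ Y.card
  line : ∀ X : Finset V, IsFlat q X → rk q X ≤ 2 → X.card ≤ P.L
  wA : P.w c = P.eta * (c.A.card : ℤ) - P.b * (rk q c.A : ℤ)
  drop : ∀ B : Finset V, B ⊆ c.A → B ≠ c.A →
    P.b * ((rk q c.A : ℤ) - rk q B) + 1 ≤ P.eta * ((c.A \ B).card : ℤ)
  cardA : c.A.card ≤ P.k
  adj : ∀ x ∈ c.A, ∀ u ∈ c.U, st.G.Adj u x

/-- the invariant -/
structure QX (P : ParX) (V : Type) [Fintype V] (st : St V) : Prop where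
  bas : Bas 3 st
  cnt2 : ∀ Y : Finset V, rk st.p Y + (st.cin Y).card ≤ Y.card
  line : ∀ X : Finset V, IsFlat st.p X → rk st.p X ≤ 2 → X.card ≤ P.L
  past : ∀ c ∈ st.cls, ∃ q, Past P st c q
  time : ∀ c ∈ st.cls, c.t < st.cls.card
  tinj : ∀ c ∈ st.cls, ∀ c' ∈ st.cls, c.t = c'.t → c = c'

/-- the potential with all classes at the maximal discount -/
noncomputable def crude (P : ParX) (st : St V) (X : Finset V) : ℤ :=
  P.a * (rk st.p X : ℤ) - (P.c0 - P.W) * ((st.cin X).card : ℤ) - P.b * (ell st.G st.p X : ℤ)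

/-! ### histories -/

lemma QuotRel.hist {p p' : V → V → ℚ} {U : Finset V} (h : QuotRel p p' U) : Hist p p' :=
  ⟨fun _ hX => h.isFlat hX, fun _ _ hBA => h.rk_rel hBA⟩

lemma Hist.refl (p : V → V → ℚ) : Hist p p := ⟨fun _ h => h, fun _ _ _ => le_refl _⟩

lemma Hist.trans {q p p' : V → V → ℚ} (h : Hist q p) (h' : Hist p p') : Hist q p' := by
  refine ⟨fun X hX => h.flat X (h'.flat X hX), fun B A hBA => ?_⟩
  have h1 := h.rel B A hBA
  have h2 := h'.rel B A hBA
  omega

lemma rk_empty (p : V → V → ℚ) : rk p (∅ : Finset V) = 0 := by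
  have h3 := rk_le_card p (∅ : Finset V)
  simpa using h3

lemma Hist.rk_le {q p : V → V → ℚ} (h : Hist q p) (Y : Finset V) : rk p Y ≤ rk q Y := by
  have h1 := h.rel ∅ Y (Finset.empty_subset _)
  have h2 := rk_empty p
  omega

lemma Hist.flt_subset {q p : V → V → ℚ} (h : Hist q p) (Y : Finset V) : flt q Y ⊆ flt p Y :=
  (h.flat _ (flt_isFlat p Y)).flt_subset (subset_flt p Y)

/-! ### numbers -/

lemma P6_eta : P6.eta = 7 := by simp [ParX.eta, P6]
lemma P6_mu : P6.mu = 9 := by simp [ParX.mu, ParX.eta, P6]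
lemma P6_c0 : P6.c0 = 16 := by simp [ParX.c0, ParX.eta, P6]
lemma P5_eta : P5.eta = 17 := by simp [ParX.eta, P5]
lemma P5_mu : P5.mu = 19 := by simp [ParX.mu, ParX.eta, P5]
lemma P5_c0 : P5.c0 = 36 := by simp [ParX.c0, ParX.eta, P5]

/-- for splitting into the two cases: all numbers are replaced by literals -/
lemma ParX.Ok.nums {P : ParX} (h : P.Ok) :
    (P.k = 6 ∧ P.L = 5 ∧ P.a = 26 ∧ P.b = 11 ∧ P.W = 13 ∧ P.D = 12 ∧ P.eta = 7 ∧ P.mu = 9 ∧
      P.c0 = 16) ∨
    (P.k = 5 ∧ P.L = 4 ∧ P.a = 49 ∧ P.b = 22 ∧ P.W = 24 ∧ P.D = 24 ∧ P.eta = 17 ∧ P.mu = 19 ∧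
      P.c0 = 36) := by
  rcases h with rfl | rfl
  · left
    refine ⟨rfl, rfl, rfl, rfl, rfl, rfl, P6_eta, P6_mu, P6_c0⟩
  · right
    refine ⟨rfl, rfl, rfl, rfl, rfl, rfl, P5_eta, P5_mu, P5_c0⟩

end MP30c94c
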