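import Mathlib
import Pool.Agent.Lib.MP30c94c.KXDefs
import Pool.Agent.Lib.MP30c94c.KStepW

/-!
# The exceptional pairs: basic facts on the classes and the potential
-/

open SimpleGraph Finset

namespace MP30c94c

attribute [local instance] Classical.propDecidable

variable {V : Type} [Fintype V]

set_option linter.unusedSectionVars false
set_option linter.unusedVariables false

/-! ### growth of the potentials -/

private lemma KXBas_c0w (P : ParX) (c : Cls V) : P.c0 - P.w c = c.th - P.a := by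
  rw [ParX.c0, ParX.w]
  ring

private lemma KXBas_flat (P : ParX) {st : St V} (hB : Bas 3 st) {X : Finset V}
    (hX : IsFlat st.p X) :
    PhiS P.a P.b st X = P.a * (rk st.p X : ℤ) - (∑ c ∈ st.cin X, (P.c0 - P.w c))
      - P.b * (ell st.G st.p X : ℤ) := by
  have h1 := hB.count X hX
  unfold PhiS
  simp only [KXBas_c0w]
  rw [Finset.sum_sub_distrib, Finset.sum_const, nsmul_eq_mul]
  have h2 : (X.card : ℤ) = rk st.p X + ((st.cin X).card : ℤ) := by exact_mod_cast h1
  rw [h2]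
  ring

/-- change of the potential between two flats -/
lemma PhiS_grow (P : ParX) {st : St V} (hB : Bas 3 st) {X Z : Finset V} (hX : IsFlat st.p X)
    (hZ : IsFlat st.p Z) (hXZ : X ⊆ Z) :
    PhiS P.a P.b st Z = PhiS P.a P.b st X + P.a * ((rk st.p Z : ℤ) - rk st.p X)
      - (∑ c ∈ st.cin Z \ st.cin X, (P.c0 - P.w c))
      - P.b * ((ell st.G st.p Z : ℤ) - ell st.G st.p X) := by
  rw [KXBas_flat P hB hX, KXBas_flat P hB hZ]
  have h3 : ∑ c ∈ st.cin Z \ st.cin X, (P.c0 - P.w c) + ∑ c ∈ st.cin X, (P.c0 - P.w c)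
      = ∑ c ∈ st.cin Z, (P.c0 - P.w c) := Finset.sum_sdiff (cin_mono st hXZ)
  rw [← h3]
  ring

lemma crude_grow (P : ParX) {st : St V} {X Z : Finset V} (hXZ : X ⊆ Z) :
    crude P st Z = crude P st X + P.a * ((rk st.p Z : ℤ) - rk st.p X)
      - (P.c0 - P.W) * ((st.cin Z \ st.cin X).card : ℤ)
      - P.b * ((ell st.G st.p Z : ℤ) - ell st.G st.p X) := by
  have h4 := Finset.card_sdiff_add_card_eq_card (cin_mono st hXZ)
  have h4' : ((st.cin Z).card : ℤ) = ((st.cin Z \ st.cin X).card : ℤ) + (st.cin X).card := by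
    exact_mod_cast h4.symm
  unfold crude
  rw [h4']
  ring

lemma PhiS_eq_crude (P : ParX) {st : St V} (hB : Bas 3 st) {X : Finset V} (hX : IsFlat st.p X) :
    PhiS P.a P.b st X = crude P st X - ∑ c ∈ st.cin X, (P.W - P.w c) := by
  rw [KXBas_flat P hB hX]
  unfold crude
  have h1 : ∑ c ∈ st.cin X, (P.c0 - P.w c)
      = (P.c0 - P.W) * ((st.cin X).card : ℤ) + ∑ c ∈ st.cin X, (P.W - P.w c) := by
    have h2 : ∀ c ∈ st.cin X, P.c0 - P.w c = (P.c0 - P.W) + (P.W - P.w c) := by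
      intro c _
      ring
    rw [Finset.sum_congr rfl h2, Finset.sum_add_distrib, Finset.sum_const, nsmul_eq_mul]
    ring
  rw [h1]
  ring

/-- two points of a set of rank at most two span it -/
lemma card_inter_le_one {st : St V} (hB : Bas 3 st) {A X : Finset V} (hA : rk st.p A ≤ 2)
    (hX : IsFlat st.p X) (hAX : ¬ A ⊆ X) : (A ∩ X).card ≤ 1 := by
  by_contra hcon
  obtain ⟨Y, hYsub, hYc⟩ := Finset.exists_subset_card_eq (show 2 ≤ (A ∩ X).card by omega)
  have h1 := hB.indep Y (by omega)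
  apply hAX
  intro v hv
  have h2 : v ∈ flt st.p Y := by
    rw [mem_flt_iff_rk]
    have h3 := rk_mono st.p (Finset.insert_subset hv (hYsub.trans Finset.inter_subset_left))
    have h4 := rk_mono st.p (Finset.subset_insert v Y)
    omega
  exact hX.flt_subset (hYsub.trans Finset.inter_subset_right) h2

/-! ### the shape of a class -/

private lemma KXBas_shape {P : ParX} {st : St V} {c : Cls V} {q : V → V → ℚ}
    (h : Past P st c q) :
    (c.A = ∅ ∧ rk q c.A = 0 ∧ P.w c = 0) ∨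
    (1 ≤ c.A.card ∧ c.A.card ≤ P.k ∧ P.b * (rk q c.A : ℤ) + 1 ≤ P.eta * (c.A.card : ℤ) ∧
      min c.A.card 2 ≤ rk q c.A ∧ (rk q c.A ≤ 2 → c.A.card ≤ P.L) ∧
      P.w c = P.eta * (c.A.card : ℤ) - P.b * (rk q c.A : ℤ)) := by
  by_cases hA : c.A = ∅
  · left
    have h1 := h.wA
    rw [hA, rk_empty] at h1
    refine ⟨hA, by rw [hA, rk_empty], ?_⟩
    rw [h1]
    simp
  · right
    have h1 := h.drop ∅ (Finset.empty_subset _) (fun h => hA h.symm)
    rw [rk_empty, Finset.sdiff_empty] at h1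
    have h2 : 1 ≤ c.A.card := Finset.card_pos.mpr (Finset.nonempty_iff_ne_empty.mpr hA)
    refine ⟨h2, h.cardA, by simpa using h1, ?_, ?_, h.wA⟩
    · obtain ⟨Y', hY', hc'⟩ := Finset.exists_subset_card_eq
        (show min c.A.card 2 ≤ c.A.card by omega)
      have h3 := h.indep Y' (by omega)
      have h4 := rk_mono q hY'
      omega
    · intro h3
      have h4 := h.line (flt q c.A) (flt_isFlat _ _) (by rw [rk_flt]; exact h3)
      exact (Finset.card_le_card (subset_flt q c.A)).trans h4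

lemma Past.shape6 {st : St V} {c : Cls V} {q : V → V → ℚ} (h : Past P6 st c q) :
    (c.A = ∅ ∧ rk q c.A = 0 ∧ P6.w c = 0) ∨ (c.A.card = 4 ∧ rk q c.A = 2 ∧ P6.w c = 6) ∨
    (c.A.card = 5 ∧ rk q c.A = 2 ∧ P6.w c = 13) ∨ (c.A.card = 5 ∧ rk q c.A = 3 ∧ P6.w c = 2) ∨
    (c.A.card = 6 ∧ rk q c.A = 3 ∧ P6.w c = 9) := by
  rcases KXBas_shape h with h | ⟨h1, h2, h3, h4, h5, h6⟩
  · exact Or.inl h
  · right
    have hb : P6.b = 11 := rfl
    have hk : P6.k = 6 := rfl
    have hL : P6.L = 5 := rfl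
    rw [P6_eta, hb] at h3 h6
    rw [hk] at h2
    rw [hL] at h5
    obtain ⟨m, hm⟩ : ∃ m, m = c.A.card := ⟨_, rfl⟩
    rw [← hm] at h1 h2 h3 h4 h5 h6 ⊢
    clear hm
    interval_cases m <;> omega

lemma Past.shape5 {st : St V} {c : Cls V} {q : V → V → ℚ} (h : Past P5 st c q) :
    (c.A = ∅ ∧ rk q c.A = 0 ∧ P5.w c = 0) ∨ (c.A.card = 3 ∧ rk q c.A = 2 ∧ P5.w c = 7) ∨
    (c.A.card = 4 ∧ rk q c.A = 2 ∧ P5.w c = 24) ∨ (c.A.card = 4 ∧ rk q c.A = 3 ∧ P5.w c = 2) ∨
    (c.A.card = 5 ∧ rk q c.A = 3 ∧ P5.w c = 19) := by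
  rcases KXBas_shape h with h | ⟨h1, h2, h3, h4, h5, h6⟩
  · exact Or.inl h
  · right
    have hb : P5.b = 22 := rfl
    have hk : P5.k = 5 := rfl
    have hL : P5.L = 4 := rfl
    rw [P5_eta, hb] at h3 h6
    rw [hk] at h2
    rw [hL] at h5
    obtain ⟨m, hm⟩ : ∃ m, m = c.A.card := ⟨_, rfl⟩
    rw [← hm] at h1 h2 h3 h4 h5 h6 ⊢
    clear hm
    interval_cases m <;> omega

lemma Past.w_le {P : ParX} (hP : P.Ok) {st : St V} {c : Cls V} {q : V → V → ℚ}
    (h : Past P st c q) : 0 ≤ P.w c ∧ P.w c ≤ P.W ∧ (P.w c = P.W ∨ P.w c ≤ P.mu) := by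
  rcases hP with rfl | rfl
  · have hW : P6.W = 13 := rfl
    rw [P6_mu, hW]
    have := h.shape6
    omega
  · have hW : P5.W = 24 := rfl
    rw [P5_mu, hW]
    have := h.shape5
    omega

lemma Past.w_top {P : ParX} (hP : P.Ok) {st : St V} {c : Cls V} {q : V → V → ℚ}
    (h : Past P st c q) (hw : P.w c = P.W) : c.A.card = P.L ∧ rk q c.A = 2 := by
  rcases hP with rfl | rfl
  · have hW : P6.W = 13 := rfl
    have hL : P6.L = 5 := rfl
    rw [hW] at hw
    rw [hL]
    have := h.shape6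
    omega
  · have hW : P5.W = 24 := rfl
    have hL : P5.L = 4 := rfl
    rw [hW] at hw
    rw [hL]
    have := h.shape5
    omega

lemma Past.w_zero {P : ParX} (hP : P.Ok) {st : St V} {c : Cls V} {q : V → V → ℚ}
    (h : Past P st c q) : (c.A = ∅ ↔ P.w c = 0) ∧ (c.A ≠ ∅ → 3 ≤ c.A.card) := by
  rcases hP with rfl | rfl
  · rcases h.shape6 with ⟨h1, h2, h3⟩ | ⟨h1, h2, h3⟩ | ⟨h1, h2, h3⟩ | ⟨h1, h2, h3⟩ | ⟨h1, h2, h3⟩
    · exact ⟨⟨fun _ => h3, fun _ => h1⟩, fun h => absurd h1 h⟩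
    all_goals
      refine ⟨⟨fun h => ?_, fun h => ?_⟩, fun _ => by omega⟩
      · rw [h] at h1
        simp at h1
      · omega
  · rcases h.shape5 with ⟨h1, h2, h3⟩ | ⟨h1, h2, h3⟩ | ⟨h1, h2, h3⟩ | ⟨h1, h2, h3⟩ | ⟨h1, h2, h3⟩
    · exact ⟨⟨fun _ => h3, fun _ => h1⟩, fun h => absurd h1 h⟩
    all_goals
      refine ⟨⟨fun h => ?_, fun h => ?_⟩, fun _ => by omega⟩
      · rw [h] at h1
        simp at h1
      · omega

/-! ### the past of a class -/

lemma IsFlat.inter {p : V → V → ℚ} {X Y : Finset V} (hX : IsFlat p X) (hY : IsFlat p Y) :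
    IsFlat p (X ∩ Y) := by
  intro v hv
  exact Finset.mem_inter.mpr ⟨hX v (sp_mono p Finset.inter_subset_left hv),
    hY v (sp_mono p Finset.inter_subset_right hv)⟩

/-- the ranks in a helper step, at the time of the activation and now -/
lemma Past.step {P : ParX} (hP : P.Ok) {st : St V} {c : Cls V} {q : V → V → ℚ}
    (h : Past P st c q) {X : Finset V} (hX : IsFlat st.p X) :
    ∃ rs : ℕ, rk st.p (X ∪ c.A) ≤ rk st.p X + rs ∧
      (¬ c.A ⊆ X → P.b * rs + 1 ≤ P.eta * ((c.A \ X).card : ℤ)) ∧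
      rs + rk st.p (c.A ∩ X) ≤ rk q c.A ∧
      (c.A \ X).card ≤ rs + ((st.old c (flt q c.A)).filter fun c' => ¬ c'.U ⊆ X).card := by
  obtain ⟨E, hE⟩ : ∃ E, E = flt q c.A := ⟨_, rfl⟩
  have hEflat : IsFlat q E := by rw [hE]; exact flt_isFlat _ _
  have hAE : c.A ⊆ E := by rw [hE]; exact subset_flt _ _
  have hrE : rk q E = rk q c.A := by rw [hE, rk_flt]
  have hXq : IsFlat q X := h.hist.flat X hX
  have hEX : IsFlat q (E ∩ X) := hEflat.inter hXq
  have hm1 := rk_mono q (Finset.inter_subset_left : E ∩ X ⊆ E)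
  have hm2 := rk_mono q (Finset.inter_subset_inter_right hAE : c.A ∩ X ⊆ E ∩ X)
  have hb : 0 < P.b := by
    rcases hP.nums with ⟨h1, h2, h3, h4, _⟩ | ⟨h1, h2, h3, h4, _⟩ <;> omega
  rw [← hE]
  refine ⟨rk q E - rk q (E ∩ X), ?_, ?_, ?_, ?_⟩
  · have h1 := rk_mono st.p (Finset.union_subset_union_right hAE : X ∪ c.A ⊆ X ∪ E)
    have h2 := rk_rel st.p (B := E ∩ X) (A := E) (X := X) Finset.inter_subset_left
      Finset.inter_subset_right
    have h3 := h.hist.rel (E ∩ X) E Finset.inter_subset_left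
    omega
  · intro hAX
    have h1 := h.drop (c.A ∩ X) Finset.inter_subset_left (fun h => hAX (by
      rw [← h]
      exact Finset.inter_subset_right))
    rw [Finset.sdiff_inter_self_left] at h1
    have h2 : ((rk q E - rk q (E ∩ X) : ℕ) : ℤ) ≤ (rk q c.A : ℤ) - rk q (c.A ∩ X) := by omega
    have h3 := mul_le_mul_of_nonneg_left h2 hb.le
    linarith
  · have h1 := h.hist.rk_le (c.A ∩ X)
    omega
  · have h1 := h.count E hEflat
    have h2 := h.count (E ∩ X) hEX
    have h3 := Finset.card_sdiff_add_card_inter E X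
    have h4 : (c.A \ X).card ≤ (E \ X).card :=
      Finset.card_le_card (Finset.sdiff_subset_sdiff hAE subset_rfl)
    have h5 : (st.old c (E ∩ X)).card + ((st.old c E).filter fun c' => ¬ c'.U ⊆ X).card
        = (st.old c E).card := by
      have h6 : st.old c (E ∩ X) = (st.old c E).filter fun c' => c'.U ⊆ X := by
        ext c'
        simp only [St.old, Finset.mem_filter, Finset.subset_inter_iff]
        tauto
      rw [h6]
      exact Finset.card_filter_add_card_filter_not _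
    omega

/-- every helper is covered by an older class -/
lemma Past.cover {P : ParX} (hP : P.Ok) {st : St V} {c : Cls V} {q : V → V → ℚ}
    (h : Past P st c q) {x : V} (hx : x ∈ c.A) : ∃ c' ∈ st.old c (flt q c.A), x ∈ c'.U := by
  by_contra hcon
  obtain ⟨E, hE⟩ : ∃ E, E = flt q c.A := ⟨_, rfl⟩
  have hEflat : IsFlat q E := by rw [hE]; exact flt_isFlat _ _
  have hAE : c.A ⊆ E := by rw [hE]; exact subset_flt _ _
  have hrE : rk q E = rk q c.A := by rw [hE, rk_flt]
  rw [← hE] at hcon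
  have hne : c.A.erase x ≠ c.A := by
    intro h1
    have h2 := Finset.notMem_erase x c.A
    rw [h1] at h2
    exact h2 hx
  have h1 := h.drop (c.A.erase x) (Finset.erase_subset _ _) hne
  have h2 : (c.A \ c.A.erase x).card = 1 := by
    have h3 := Finset.card_sdiff_add_card_eq_card (Finset.erase_subset x c.A)
    have h4 := Finset.card_erase_of_mem hx
    have h5 : 1 ≤ c.A.card := Finset.card_pos.mpr ⟨x, hx⟩
    omega
  rw [h2] at h1
  have h3 : rk q c.A ≤ rk q (c.A.erase x) := by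
    rcases hP.nums with ⟨_, _, _, h4, _, _, h7, _⟩ | ⟨_, _, _, h4, _, _, h7, _⟩
    · rw [h4, h7] at h1
      omega
    · rw [h4, h7] at h1
      omega
  have h4 := rk_mono q (Finset.erase_subset_erase x hAE)
  have hxE : x ∈ E := hAE hx
  have h5 : st.old c (E.erase x) = st.old c E := by
    ext c'
    simp only [St.old, Finset.mem_filter]
    constructor
    · rintro ⟨h6, h7, h8⟩
      exact ⟨h6, h7, h8.trans (Finset.erase_subset _ _)⟩
    · rintro ⟨h6, h7, h8⟩
      refine ⟨h6, h7, fun v hv => Finset.mem_erase.mpr ⟨?_, h8 hv⟩⟩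
      rintro rfl
      exact hcon ⟨c', Finset.mem_filter.mpr ⟨h6, h7, h8⟩, hv⟩
  have h6 := h.cnt2 (E.erase x)
  rw [h5, Finset.card_erase_of_mem hxE] at h6
  have h7 := h.count E hEflat
  have h8 : 1 ≤ E.card := Finset.card_pos.mpr ⟨x, hxE⟩
  omega

/-- the older classes of the helper flat are contained in every closed set containing `c` -/
lemma Past.old_subset {P : ParX} {st : St V} {c : Cls V} {q : V → V → ℚ}
    (h : Past P st c q) {Z : Finset V} (hZ : IsFlat st.p Z) (hA : c.A ⊆ Z) :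
    st.old c (flt q c.A) ⊆ (st.cin Z).filter fun c' => c'.t < c.t := by
  intro c' hc'
  obtain ⟨h1, h2, h3⟩ := Finset.mem_filter.mp hc'
  refine Finset.mem_filter.mpr ⟨Finset.mem_filter.mpr ⟨h1, ?_⟩, h2⟩
  exact (h3.trans (h.hist.flt_subset c.A)).trans (hZ.flt_subset hA)

/-- an older class with the maximal discount, whose helpers are in `Z`, gives an additional edge -/
lemma QX.top_edge {P : ParX} (hP : P.Ok) {st : St V} (hQ : QX P V st) {X Z : Finset V}
    (hX : IsFlat st.p X) (hXZ : X ⊆ Z) {c c' : Cls V} (hc : c ∈ st.cls) (hU : c.U ⊆ X)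
    (hc' : c' ∈ st.cls) (hw : P.w c' = P.W) (hU' : c'.U ⊆ Z) (hn : ¬ c'.U ⊆ X) (hA' : c'.A ⊆ Z)
    (ht : c'.t < c.t) :
    ∃ x ∈ Z, ∃ y ∈ Z, st.G.Adj x y ∧ y ∉ X ∧ x ∉ flt st.p c.U := by
  obtain ⟨y, hyU, hyX⟩ := Finset.not_subset.mp hn
  obtain ⟨q', h⟩ := hQ.past c' hc'
  obtain ⟨hAL, hA2⟩ := h.w_top hP hw
  by_cases hex : ∃ x ∈ c'.A, x ∉ flt st.p c.U
  · obtain ⟨x, hxA, hxF⟩ := hex
    exact ⟨x, hA' hxA, y, hU' hyU, (h.adj x hxA y hyU).symm, hyX, hxF⟩
  · exfalso
    have hsub : c'.A ⊆ flt st.p c.U := by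
      intro v hv
      by_contra h1
      exact hex ⟨v, hv, h1⟩
    have hrF : rk st.p (flt st.p c.U) = 2 := by
      rw [rk_flt]
      exact (hQ.bas.csize c hc).2
    have hFL := hQ.line (flt st.p c.U) (flt_isFlat _ _) (by omega)
    have hF : c'.A = flt st.p c.U := Finset.eq_of_subset_of_card_le hsub (by omega)
    have hcF := hQ.bas.count (flt st.p c.U) (flt_isFlat _ _)
    have hqL := h.line (flt q' c'.A) (flt_isFlat _ _) (by rw [rk_flt]; omega)
    have hqF : c'.A = flt q' c'.A :=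
      Finset.eq_of_subset_of_card_le (subset_flt _ _) (by omega)
    have hcq := h.count (flt q' c'.A) (flt_isFlat _ _)
    rw [rk_flt, ← hqF] at hcq
    rw [← hF] at hcF hrF
    have hsub2 : st.old c' c'.A ⊆ st.cin c'.A := by
      intro c'' hc''
      obtain ⟨h1, h2, h3⟩ := Finset.mem_filter.mp hc''
      exact Finset.mem_filter.mpr ⟨h1, h3⟩
    have heq : st.old c' c'.A = st.cin c'.A := Finset.eq_of_subset_of_card_le hsub2 (by omega)
    have hcin : c ∈ st.cin c'.A := by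
      rw [hF]
      exact Finset.mem_filter.mpr ⟨hc, subset_flt _ _⟩
    rw [← heq] at hcin
    have h1 := (Finset.mem_filter.mp hcin).2.1
    omega

end MP30c94c
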