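import Mathlib
import Pool.Agent.Lib.MP30c94c.KVecQ

/-!
# Extension of the edge space: one additional edge
-/

open SimpleGraph Finset

namespace MP30c94c

attribute [local instance] Classical.propDecidable

variable {V : Type} [Fintype V]

/-- `ell_ext` with one additional edge `xy`, `y ∉ X`, `x ∉ flt B` -/
theorem ell_ext_one (G : SimpleGraph V) (p : V → V → ℚ) {X Z B D : Finset V} (hX : IsFlat p X)
    (hXZ : X ⊆ Z) (hB : B ⊆ X)
    (hD : ∀ v ∈ B, ∀ d ∈ D, d ∈ flt p (X ∪ Z.filter fun c => G.Adj v c))
    {x y : V} (hx : x ∈ Z) (hy : y ∈ Z) (hxy : G.Adj x y) (hyX : y ∉ X) (hxB : x ∉ flt p B) :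
    ell G p X + rk p B * (rk p (X ∪ D) - rk p X) + 1 ≤ ell G p Z := by
  let W := (V → ℚ) ⧸ sp p X
  let Q : (V → ℚ) →ₗ[ℚ] W := (sp p X).mkQ
  let Θ : Matrix V V ℚ →ₗ[ℚ] (V → W) :=
    { toFun := fun M j => Q (fun i => M i j)
      map_add' := fun M N => by
        funext j
        exact map_add Q (fun i => M i j) (fun i => N i j)
      map_smul' := fun c M => by
        funext j
        exact map_smul Q c (fun i => M i j) }
  have hQX : ∀ x ∈ X, Q (p x) = 0 := by
    intro x hx
    exact (Submodule.Quotient.mk_eq_zero _).2 (mem_sp_self p hx)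
  have hΘ : ∀ a b : V → ℚ, Θ (symm2 a b) = fun j => b j • Q a + a j • Q b := by
    intro a b
    funext j
    change Q (fun i => a i * b j + b i * a j) = _
    rw [← map_smul, ← map_smul, ← map_add]
    congr 1
    funext i
    simp only [Pi.add_apply, Pi.smul_apply, smul_eq_mul]
    ring
  have hker : EL G p X ≤ EL G p Z ⊓ LinearMap.ker Θ := by
    refine le_inf (EL_mono G p hXZ) (Submodule.span_le.2 ?_)
    rintro M ⟨u, hu, v, hv, huv, rfl⟩
    change symm2 (p u) (p v) ∈ LinearMap.ker Θ
    rw [LinearMap.mem_ker, hΘ]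
    funext j
    rw [hQX u hu, hQX v hv, smul_zero, smul_zero, add_zero]
    rfl
  let Y : Submodule ℚ W := (sp p D).map Q
  have hY : rk p (X ∪ D) - rk p X ≤ Module.finrank ℚ Y := by
    have h1 := finrank_map_add_inf_ker Q (sp p (X ∪ D))
    have h2 : (sp p (X ∪ D)).map Q = Y := by
      rw [sp_union, Submodule.map_sup]
      have : (sp p X).map Q = ⊥ := Submodule.mkQ_map_self _
      rw [this, bot_sup_eq]
    have h3 : (sp p (X ∪ D)) ⊓ LinearMap.ker Q ≤ sp p X := by
      have : LinearMap.ker Q = sp p X := Submodule.ker_mkQ _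
      rw [this]
      exact inf_le_right
    have h4 := Submodule.finrank_mono h3
    rw [h2] at h1
    unfold rk
    omega
  have hE : ∀ b ∈ sp p B, ∀ y ∈ Y, (fun j => b j • y) ∈ (EL G p Z).map Θ := by
    intro b hb y hy
    induction hb using Submodule.span_induction with
    | mem b hb =>
      obtain ⟨v, hv, rfl⟩ := hb
      have hv' : v ∈ B := hv
      let lam : W →ₗ[ℚ] (V → W) :=
        { toFun := fun y j => p v j • y
          map_add' := fun y z => by
            funext j
            exact smul_add _ _ _
          map_smul' := fun c y => by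
            funext j
            exact smul_comm _ _ _ }
      have h1 : Y ≤ ((EL G p Z).map Θ).comap lam := by
        have h2 : (sp p (X ∪ Z.filter fun c => G.Adj v c)).map Q ≤
            ((EL G p Z).map Θ).comap lam := by
          refine Submodule.map_le_iff_le_comap.2 (Submodule.span_le.2 ?_)
          rintro _ ⟨c, hc, rfl⟩
          rw [Finset.mem_coe, Finset.mem_union, Finset.mem_filter] at hc
          change lam (Q (p c)) ∈ (EL G p Z).map Θ
          rcases hc with hc | ⟨hcZ, hvc⟩
          · rw [hQX c hc, map_zero]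
            exact Submodule.zero_mem _
          · refine ⟨symm2 (p v) (p c), symm2_mem_EL (hXZ (hB hv')) hcZ hvc, ?_⟩
            rw [hΘ, hQX v (hB hv')]
            funext j
            rw [smul_zero, zero_add]
            rfl
        refine le_trans ?_ h2
        refine Submodule.map_mono (Submodule.span_le.2 ?_)
        rintro _ ⟨d, hd, rfl⟩
        exact mem_flt.1 (hD v hv' d hd)
      exact h1 hy
    | zero =>
      have : (fun j => (0 : V → ℚ) j • y) = 0 := by
        funext j
        rw [Pi.zero_apply, zero_smul]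
        rfl
      rw [this]
      exact Submodule.zero_mem _
    | add b b' _ _ h1 h2 =>
      have : (fun j => (b + b') j • y) = (fun j => b j • y) + (fun j => b' j • y) := by
        funext j
        exact add_smul _ _ _
      rw [this]
      exact Submodule.add_mem _ h1 h2
    | smul c b _ h1 =>
      have : (fun j => (c • b) j • y) = c • (fun j => b j • y) := by
        funext j
        exact mul_smul _ _ _
      rw [this]
      exact Submodule.smul_mem _ _ h1
  -- the span of the elementary tensors
  let T : Submodule ℚ (V → W) :=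
    Submodule.span ℚ {f | ∃ b ∈ sp p B, ∃ y ∈ Y, f = fun j => b j • y}
  have hTE : T ≤ (EL G p Z).map Θ := by
    refine Submodule.span_le.2 ?_
    rintro f ⟨b, hb, y, hy, rfl⟩
    exact hE b hb y hy
  have h5 := finrank_mul_le (sp p B) Y T
    (fun b hb y hy => Submodule.subset_span ⟨b, hb, y, hy, rfl⟩)
  -- the additional edge
  have he : Θ (symm2 (p x) (p y)) ∈ (EL G p Z).map Θ :=
    ⟨_, symm2_mem_EL hx hy hxy, rfl⟩
  have heT : Θ (symm2 (p x) (p y)) ∉ T := by
    intro heT
    have hQy : Q (p y) ≠ 0 := by
      intro h0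
      exact hyX (hX y ((Submodule.Quotient.mk_eq_zero _).1 h0))
    obtain ⟨φ, hφ⟩ : ∃ φ : Module.Dual ℚ W, φ (Q (p y)) ≠ 0 := by
      by_contra hcon
      push Not at hcon
      exact hQy ((Module.forall_dual_apply_eq_zero_iff ℚ (Q (p y))).1 hcon)
    have hmem : ∀ f ∈ T, (fun j => φ (f j)) ∈ sp p B := by
      intro f hf
      induction hf using Submodule.span_induction with
      | mem f hf =>
        obtain ⟨b, hb, y, hy, rfl⟩ := hf
        have : (fun j => φ (b j • y)) = φ y • b := by
          funext j
          rw [map_smul, smul_eq_mul, Pi.smul_apply, smul_eq_mul, mul_comm]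
        rw [this]
        exact Submodule.smul_mem _ _ hb
      | zero =>
        have : (fun j => φ ((0 : V → W) j)) = 0 := by
          funext j
          rw [Pi.zero_apply, map_zero, Pi.zero_apply]
        rw [this]
        exact Submodule.zero_mem _
      | add f f' _ _ h1 h2 =>
        have : (fun j => φ ((f + f') j)) = (fun j => φ (f j)) + fun j => φ (f' j) := by
          funext j
          rw [Pi.add_apply, map_add, Pi.add_apply]
        rw [this]
        exact Submodule.add_mem _ h1 h2
      | smul c f _ h1 =>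
        have : (fun j => φ ((c • f) j)) = c • fun j => φ (f j) := by
          funext j
          rw [Pi.smul_apply, map_smul, Pi.smul_apply]
        rw [this]
        exact Submodule.smul_mem _ _ h1
    have h1 := hmem _ heT
    have h2 : (fun j => φ (Θ (symm2 (p x) (p y)) j)) =
        φ (Q (p x)) • p y + φ (Q (p y)) • p x := by
      funext j
      rw [hΘ]
      simp only [map_add, map_smul, Pi.add_apply, Pi.smul_apply, smul_eq_mul]
      ring
    rw [h2] at h1
    have hBX : sp p B ≤ sp p X := sp_mono p hB
    have h3 : Q (φ (Q (p x)) • p y + φ (Q (p y)) • p x) = 0 :=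
      (Submodule.Quotient.mk_eq_zero _).2 (hBX h1)
    have h4 : φ (Q (p x)) * φ (Q (p y)) + φ (Q (p y)) * φ (Q (p x)) = 0 := by
      have h5 := congrArg φ h3
      rw [map_add, map_smul, map_smul, map_add, map_smul, map_smul, map_zero] at h5
      exact h5
    have h5 : φ (Q (p x)) = 0 := by
      have h6 : φ (Q (p x)) * φ (Q (p y)) = 0 := by linarith
      rcases mul_eq_zero.1 h6 with h | h
      · exact h
      · exact absurd h hφ
    rw [h5, zero_smul, zero_add] at h1
    have h6 : p x ∈ sp p B := by
      have h7 := Submodule.smul_mem _ (φ (Q (p y)))⁻¹ h1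
      rwa [smul_smul, inv_mul_cancel₀ hφ, one_smul] at h7
    exact hxB (mem_flt.2 h6)
  have hlt : T < (EL G p Z).map Θ := lt_of_le_of_ne hTE fun h => heT (h ▸ he)
  have h9 := Submodule.finrank_lt_finrank_of_lt hlt
  have h6 := finrank_map_add_inf_ker Θ (EL G p Z)
  have h7 := Submodule.finrank_mono hker
  have h8 : rk p B * (rk p (X ∪ D) - rk p X) ≤ Module.finrank ℚ (sp p B) * Module.finrank ℚ Y :=
    Nat.mul_le_mul_left _ hY
  unfold ell
  omega

/-- a star: `x` adjacent to all of `U` -/
theorem rk_le_ell_star (G : SimpleGraph V) (p : V → V → ℚ) {Z U : Finset V} {x : V} (hx : x ∈ Z)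
    (hU : U ⊆ Z) (h : ∀ u ∈ U, G.Adj x u) (hp : p x ≠ 0) : rk p U ≤ ell G p Z := by
  let f : (V → ℚ) →ₗ[ℚ] Matrix V V ℚ :=
    { toFun := fun v => symm2 (p x) v
      map_add' := fun v w => symm2_add _ _ _
      map_smul' := fun c v => symm2_smul _ _ _ }
  have hf : LinearMap.ker f = ⊥ := by
    rw [LinearMap.ker_eq_bot']
    intro v hv
    by_contra h0
    exact symm2_ne_zero hp h0 hv
  have h1 : (sp p U).map f ≤ EL G p Z := by
    refine Submodule.map_le_iff_le_comap.2 (Submodule.span_le.2 ?_)
    rintro _ ⟨u, hu, rfl⟩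
    exact symm2_mem_EL hx (hU hu) (h u hu)
  have h2 := Submodule.finrank_mono h1
  have h3 := finrank_map_add_inf_ker f (sp p U)
  rw [hf, inf_bot_eq, finrank_bot, add_zero] at h3
  unfold rk ell
  omega

end MP30c94c
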