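import Mathlib
import Pool.Agent.Lib.MP30c94c.KXBas
import Pool.Agent.Lib.MP30c94c.KXLin

/-!
# The exceptional pairs: one helper step
-/

open SimpleGraph Finset

namespace MP30c94c

attribute [local instance] Classical.propDecidable

variable {V : Type} [Fintype V]

/-- one helper step: `X` flat, `c` a class in `X`, `Z = flt (X ∪ A)`.
`N` is the number of new classes, `M` a bound for the number of the old classes which are new in
`Z`. Without an old new class of maximal discount each of the old ones costs at least `η`. -/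
theorem QX.helper_grow {P : ParX} (hP : P.Ok) {st : St V} (hQ : QX P V st) {X : Finset V}
    (hX : IsFlat st.p X) {c : Cls V} (hc : c ∈ st.cls) (hU : c.U ⊆ X) {q : V → V → ℚ}
    (hq : Past P st c q) :
    ∃ r N M : ℤ, 0 ≤ r ∧ 0 ≤ M ∧ M ≤ N ∧ r = (rk st.p (X ∪ c.A) : ℤ) - rk st.p X ∧
      ((c.A \ X).card : ℤ) - r ≤ N ∧
      M = (((st.old c (flt q c.A)).filter fun c' => ¬ c'.U ⊆ X).card : ℤ) ∧
      -- always
      PhiS P.a P.b st (flt st.p (X ∪ c.A)) ≤ PhiS P.a P.b st X + (P.a - 2 * P.b) * r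
        - (P.c0 - P.W) * N ∧
      -- an additional edge
      ((∃ x ∈ flt st.p (X ∪ c.A), ∃ y ∈ flt st.p (X ∪ c.A), st.G.Adj x y ∧ y ∉ X ∧
          x ∉ flt st.p c.U) →
        PhiS P.a P.b st (flt st.p (X ∪ c.A)) ≤ PhiS P.a P.b st X + (P.a - 2 * P.b) * r
        - (P.c0 - P.W) * N - P.b) ∧
      -- no old new class of maximal discount
      ((∀ c' ∈ st.old c (flt q c.A), ¬ c'.U ⊆ X → P.w c' ≤ P.mu) →
        PhiS P.a P.b st (flt st.p (X ∪ c.A)) ≤ PhiS P.a P.b st X + (P.a - 2 * P.b) * r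
        - (P.c0 - P.W) * N - (P.W - P.mu) * M) := by
  obtain ⟨Z, hZ⟩ : ∃ Z, Z = flt st.p (X ∪ c.A) := ⟨_, rfl⟩
  have hZflat : IsFlat st.p Z := by rw [hZ]; exact flt_isFlat _ _
  have hXZ : X ⊆ Z := by rw [hZ]; exact subset_union_left.trans (subset_flt _ _)
  have hAZ : c.A ⊆ Z := by rw [hZ]; exact subset_union_right.trans (subset_flt _ _)
  have hrZ : rk st.p Z = rk st.p (X ∪ c.A) := by rw [hZ, rk_flt]
  have hb0 : 0 ≤ P.b := by
    rcases hP.nums with ⟨h1, h2, h3, h4, _⟩ | ⟨h1, h2, h3, h4, _⟩ <;> omega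
  rw [← hZ]
  obtain ⟨r, hr⟩ : ∃ r : ℤ, r = (rk st.p (X ∪ c.A) : ℤ) - rk st.p X := ⟨_, rfl⟩
  obtain ⟨N, hN⟩ : ∃ N, N = st.cin Z \ st.cin X := ⟨_, rfl⟩
  obtain ⟨F, hF⟩ : ∃ F, F = (st.old c (flt q c.A)).filter fun c' => ¬ c'.U ⊆ X := ⟨_, rfl⟩
  have hm := rk_mono st.p (subset_union_left : X ⊆ X ∪ c.A)
  have hnc := new_card hQ.bas hX hZflat hXZ
  rw [← hN, hrZ] at hnc
  have hext := PhiS_grow P hQ.bas hX hZflat hXZ
  rw [hrZ, ← hN, ← hr] at hext
  have hFN : F ⊆ N := by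
    intro c' hc'
    rw [hF] at hc'
    obtain ⟨h1, h2⟩ := Finset.mem_filter.mp hc'
    have h3 := (Finset.mem_filter.mp (hq.old_subset hZflat hAZ h1)).1
    rw [hN]
    exact Finset.mem_sdiff.mpr ⟨h3, fun h => h2 (Finset.mem_filter.mp h).2⟩
  have hNcls : ∀ c' ∈ N, c' ∈ st.cls := by
    intro c' hc'
    rw [hN] at hc'
    exact cin_subset _ _ (Finset.mem_sdiff.mp hc').1
  have hw : ∀ c' ∈ N, P.c0 - P.W ≤ P.c0 - P.w c' := by
    intro c' hc'
    obtain ⟨q', hpq⟩ := hQ.past c' (hNcls c' hc')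
    have := (hpq.w_le hP).2.1
    linarith
  have hsum : (P.c0 - P.W) * (N.card : ℤ) ≤ ∑ c' ∈ N, (P.c0 - P.w c') := by
    have h2 := Finset.card_nsmul_le_sum N _ _ hw
    rw [nsmul_eq_mul] at h2
    linarith
  have hD : ∀ v ∈ c.U, ∀ d ∈ c.A, d ∈ flt st.p (X ∪ Z.filter fun c => st.G.Adj v c) := by
    intro v hv d hd
    apply subset_flt
    rw [Finset.mem_union, Finset.mem_filter]
    exact Or.inr ⟨hAZ hd, hq.adj d hd v hv⟩
  have hrU : rk st.p c.U = 2 := (hQ.bas.csize c hc).2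
  have hr' : ((rk st.p (X ∪ c.A) - rk st.p X : ℕ) : ℤ) = r := by omega
  have hell : (ell st.G st.p X : ℤ) + 2 * r ≤ ell st.G st.p Z := by
    have h1 := ell_ext st.G st.p (X := X) (Z := Z) (B := c.U) (D := c.A) hXZ hU hD
    rw [hrU] at h1
    rw [← hr']
    exact_mod_cast h1
  have hAX : ((c.A \ X).card : ℤ) ≤ ((Z \ X).card : ℤ) := by
    exact_mod_cast Finset.card_le_card (Finset.sdiff_subset_sdiff hAZ subset_rfl)
  have hFc : (F.card : ℤ) ≤ (N.card : ℤ) := by exact_mod_cast Finset.card_le_card hFN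
  refine ⟨r, N.card, F.card, by omega, by positivity, hFc, hr, by omega, by rw [hF], ?_, ?_, ?_⟩
  · have h1 := mul_le_mul_of_nonneg_left hell hb0
    rw [hext]
    linarith [h1, hsum]
  · rintro ⟨x, hx, y, hy, hxy, hyX, hxU⟩
    have h0 : (ell st.G st.p X : ℤ) + 2 * r + 1 ≤ ell st.G st.p Z := by
      have h1 := ell_ext_one st.G st.p (X := X) (Z := Z) (B := c.U) (D := c.A) hX hXZ hU hD
        hx hy hxy hyX hxU
      rw [hrU] at h1
      rw [← hr']
      exact_mod_cast h1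
    have h1 := mul_le_mul_of_nonneg_left h0 hb0
    rw [hext]
    linarith [h1, hsum]
  · intro hmu
    have hsum2 : (P.c0 - P.W) * (N.card : ℤ) + (P.W - P.mu) * (F.card : ℤ)
        ≤ ∑ c' ∈ N, (P.c0 - P.w c') := by
      have h1 : ∑ c' ∈ N \ F, (P.c0 - P.w c') + ∑ c' ∈ F, (P.c0 - P.w c')
          = ∑ c' ∈ N, (P.c0 - P.w c') := Finset.sum_sdiff hFN
      have h2 := Finset.card_nsmul_le_sum (N \ F) _ _ fun c' hc' =>
        hw c' (Finset.mem_sdiff.mp hc').1
      have h3 : ∀ c' ∈ F, P.c0 - P.mu ≤ P.c0 - P.w c' := by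
        intro c' hc'
        rw [hF] at hc'
        obtain ⟨h4, h5⟩ := Finset.mem_filter.mp hc'
        have := hmu c' h4 h5
        linarith
      have h4 := Finset.card_nsmul_le_sum F _ _ h3
      have h5 := Finset.card_sdiff_add_card_eq_card hFN
      have h5' : ((N \ F).card : ℤ) = N.card - F.card := by
        have : ((N \ F).card : ℤ) + F.card = N.card := by exact_mod_cast h5
        linarith
      rw [nsmul_eq_mul, h5'] at h2
      rw [nsmul_eq_mul] at h4
      rw [← h1]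
      linarith [h2, h4]
    have h1 := mul_le_mul_of_nonneg_left hell hb0
    rw [hext]
    linarith [h1, hsum2]

end MP30c94c
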