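import Mathlib
import Pool.Agent.Lib.MP30c94c.KXGrow

/-!
# The exceptional pairs: the hull of a flat
-/

open SimpleGraph Finset

namespace MP30c94c

attribute [local instance] Classical.propDecidable

variable {V : Type} [Fintype V]

private lemma rkA_le_three {P : ParX} (hP : P.Ok) {st : St V} {c : Cls V} {q : V → V → ℚ}
    (h : Past P st c q) : rk q c.A ≤ 3 := by
  rcases hP with rfl | rfl
  · rcases h.shape6 with ⟨_, h, _⟩ | ⟨_, h, _⟩ | ⟨_, h, _⟩ | ⟨_, h, _⟩ | ⟨_, h, _⟩ <;> omega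
  · rcases h.shape5 with ⟨_, h, _⟩ | ⟨_, h, _⟩ | ⟨_, h, _⟩ | ⟨_, h, _⟩ | ⟨_, h, _⟩ <;> omega

/-- the numbers of one helper step -/
private lemma hull_step {P : ParX} (hP : P.Ok) {st : St V} (hQ : QX P V st) {X : Finset V}
    (hX : IsFlat st.p X) {c : Cls V} (hc : c ∈ st.cls) (hU : c.U ⊆ X) (hA : ¬ c.A ⊆ X) :
    ∃ r N M y rs : ℤ, 0 ≤ r ∧ r ≤ rs ∧ rs ≤ 3 ∧ 0 ≤ M ∧ M ≤ N ∧ y - r ≤ N ∧ y - rs ≤ M ∧
      P.b * rs + 1 ≤ P.eta * y ∧ (P.w c = P.W → rs ≤ 2 ∧ (P.L : ℤ) - 2 ≤ M) ∧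
      PhiS P.a P.b st (flt st.p (X ∪ c.A)) ≤ PhiS P.a P.b st X + (P.a - 2 * P.b) * r
        - (P.c0 - P.W) * N ∧
      ((∃ c' ∈ st.cls, c'.U ⊆ flt st.p (X ∪ c.A) ∧ P.w c' = P.W ∧
          (c'.A ⊆ flt st.p (X ∪ c.A) →
            PhiS P.a P.b st (flt st.p (X ∪ c.A)) ≤ PhiS P.a P.b st X + (P.a - 2 * P.b) * r
              - (P.c0 - P.W) * N - P.b)) ∨
        PhiS P.a P.b st (flt st.p (X ∪ c.A)) ≤ PhiS P.a P.b st X + (P.a - 2 * P.b) * r
          - (P.c0 - P.W) * N - (P.W - P.mu) * M) := by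
  obtain ⟨q, hq⟩ := hQ.past c hc
  obtain ⟨r, N, M, hr0, hM0, hMN, hr, hN, hM, hall, hedge, hmu⟩ :=
    hQ.helper_grow hP hX hc hU hq
  obtain ⟨rs, hs1, hs2, hs3, hs4⟩ := hq.step hP hX
  have hs2 := hs2 hA
  have h3 := rkA_le_three hP hq
  have hXZ : X ⊆ flt st.p (X ∪ c.A) := subset_union_left.trans (subset_flt _ _)
  have hAZ : c.A ⊆ flt st.p (X ∪ c.A) := subset_union_right.trans (subset_flt _ _)
  have hm := rk_mono st.p (subset_union_left : X ⊆ X ∪ c.A)
  refine ⟨r, N, M, ((c.A \ X).card : ℤ), rs, hr0, by omega, by omega, hM0, hMN, hN, by omega,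
    hs2, ?_, hall, ?_⟩
  · intro hw
    obtain ⟨hc1, hc2⟩ := hq.w_top hP hw
    have h4 : rk st.p c.A ≤ 2 := by
      have := hq.hist.rk_le c.A
      omega
    have h5 := card_inter_le_one hQ.bas h4 hX hA
    have h6 := hQ.bas.indep (c.A ∩ X) (by omega)
    have h7 := Finset.card_sdiff_add_card_inter c.A X
    omega
  · by_cases hex : ∃ c' ∈ st.old c (flt q c.A), ¬ c'.U ⊆ X ∧ P.w c' = P.W
    · left
      obtain ⟨c', hc', hn, hw⟩ := hex
      have h8 := hq.old_subset (flt_isFlat st.p (X ∪ c.A)) hAZ hc'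
      obtain ⟨h9, h10⟩ := Finset.mem_filter.mp h8
      obtain ⟨h11, h12⟩ := Finset.mem_filter.mp h9
      refine ⟨c', h11, h12, hw, fun hA' => hedge ?_⟩
      exact hQ.top_edge hP hX hXZ hc hU h11 hw h12 hn hA' h10
    · right
      apply hmu
      intro c' hc' hn
      have h8 := hq.old_subset (flt_isFlat st.p (X ∪ c.A)) hAZ hc'
      have h11 := (Finset.mem_filter.mp (Finset.mem_filter.mp h8).1).1
      obtain ⟨q', hq'⟩ := hQ.past c' h11
      rcases (hq'.w_le hP).2.2 with h | h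
      · exact absurd ⟨c', hc', hn, h⟩ hex
      · exact h

/-- HULL and external helpers -/
theorem QX.hull {P : ParX} (hP : P.Ok) {st : St V} (hQ : QX P V st) {X : Finset V}
    (hX : IsFlat st.p X) :
    (∃ X', X ⊆ X' ∧ Clo st X' ∧ PhiS P.a P.b st X' ≤ PhiS P.a P.b st X) ∧
    (∀ c ∈ st.cls, c.U ⊆ X → P.w c = P.W → ¬ c.A ⊆ X →
      ∃ X', X ⊆ X' ∧ Clo st X' ∧ PhiS P.a P.b st X' + P.D ≤ PhiS P.a P.b st X) := by
  obtain ⟨n, hn⟩ : ∃ n, n = (univ \ X).card := ⟨_, rfl⟩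
  induction n using Nat.strong_induction_on generalizing X with
  | _ n ih =>
    -- the induction hypothesis for `Z = flt (X ∪ A)`
    have ihZ : ∀ c ∈ st.cls, ¬ c.A ⊆ X →
        (∃ X', flt st.p (X ∪ c.A) ⊆ X' ∧ Clo st X' ∧
          PhiS P.a P.b st X' ≤ PhiS P.a P.b st (flt st.p (X ∪ c.A))) ∧
        (∀ c' ∈ st.cls, c'.U ⊆ flt st.p (X ∪ c.A) → P.w c' = P.W →
          ¬ c'.A ⊆ flt st.p (X ∪ c.A) →
          ∃ X', flt st.p (X ∪ c.A) ⊆ X' ∧ Clo st X' ∧
            PhiS P.a P.b st X' + P.D ≤ PhiS P.a P.b st (flt st.p (X ∪ c.A))) := by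
      intro c hc hA
      have hXZ : X ⊆ flt st.p (X ∪ c.A) := subset_union_left.trans (subset_flt _ _)
      have hAZ : c.A ⊆ flt st.p (X ∪ c.A) := subset_union_right.trans (subset_flt _ _)
      obtain ⟨x, hxA, hxX⟩ := Finset.not_subset.mp hA
      have hcard : (univ \ flt st.p (X ∪ c.A)).card < (univ \ X).card := by
        apply Finset.card_lt_card
        refine ⟨Finset.sdiff_subset_sdiff subset_rfl hXZ, fun hcon => ?_⟩
        have h1 := hcon (Finset.mem_sdiff.mpr ⟨Finset.mem_univ x, hxX⟩)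
        exact (Finset.mem_sdiff.mp h1).2 (hAZ hxA)
      exact ih _ (hn ▸ hcard) (flt_isFlat st.p (X ∪ c.A)) rfl
    have hG : ∀ c ∈ st.cls, c.U ⊆ X → P.w c = P.W → ¬ c.A ⊆ X →
        ∃ X', X ⊆ X' ∧ Clo st X' ∧ PhiS P.a P.b st X' + P.D ≤ PhiS P.a P.b st X := by
      intro c hc hU hw hA
      have hXZ : X ⊆ flt st.p (X ∪ c.A) := subset_union_left.trans (subset_flt _ _)
      obtain ⟨r, N, M, y, rs, h1, h2, h3, h4, h5, h6, h7, h8, h9, h10, h11⟩ :=
        hull_step hP hQ hX hc hU hA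
      obtain ⟨h12, h13⟩ := h9 hw
      obtain ⟨ih1, ih2⟩ := ihZ c hc hA
      rcases h11 with ⟨c', hc', hU', hw', hedge⟩ | hmu
      · by_cases hA' : c'.A ⊆ flt st.p (X ∪ c.A)
        · obtain ⟨X', k1, k2, k3⟩ := ih1
          refine ⟨X', hXZ.trans k1, k2, ?_⟩
          have h14 := hedge hA'
          rcases hP.nums with ⟨_, e1, e2, e3, e4, e5, e6, e7, e8⟩ |
            ⟨_, e1, e2, e3, e4, e5, e6, e7, e8⟩
          · rw [e1] at h13
            rw [e2, e3, e4, e8] at h14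
            rw [e2, e3] at k3
            rw [e2, e3, e5]
            push_cast at h13
            linarith
          · rw [e1] at h13
            rw [e2, e3, e4, e8] at h14
            rw [e2, e3] at k3
            rw [e2, e3, e5]
            push_cast at h13
            linarith
        · obtain ⟨X', k1, k2, k3⟩ := ih2 c' hc' hU' hw' hA'
          refine ⟨X', hXZ.trans k1, k2, ?_⟩
          rcases hP.nums with ⟨_, e1, e2, e3, e4, e5, e6, e7, e8⟩ |
            ⟨_, e1, e2, e3, e4, e5, e6, e7, e8⟩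
          · rw [e1] at h13
            rw [e2, e3, e4, e8] at h10
            rw [e2, e3, e5] at k3
            rw [e2, e3, e5]
            push_cast at h13
            linarith
          · rw [e1] at h13
            rw [e2, e3, e4, e8] at h10
            rw [e2, e3, e5] at k3
            rw [e2, e3, e5]
            push_cast at h13
            linarith
      · obtain ⟨X', k1, k2, k3⟩ := ih1
        refine ⟨X', hXZ.trans k1, k2, ?_⟩
        rcases hP.nums with ⟨_, e1, e2, e3, e4, e5, e6, e7, e8⟩ |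
          ⟨_, e1, e2, e3, e4, e5, e6, e7, e8⟩
        · rw [e1] at h13
          rw [e2, e3, e4, e8, e7] at hmu
          rw [e2, e3] at k3
          rw [e2, e3, e5]
          push_cast at h13
          linarith
        · rw [e1] at h13
          rw [e2, e3, e4, e8, e7] at hmu
          rw [e2, e3] at k3
          rw [e2, e3, e5]
          push_cast at h13
          linarith
    refine ⟨?_, hG⟩
    by_cases hcl : Clo st X
    · exact ⟨X, subset_rfl, hcl, le_rfl⟩
    have hex : ∃ c ∈ st.cls, c.U ⊆ X ∧ ¬ c.A ⊆ X := by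
      by_contra hcon
      apply hcl
      refine ⟨hX, fun c hc hU => ?_⟩
      by_contra hA
      exact hcon ⟨c, hc, hU, hA⟩
    obtain ⟨c, hc, hU, hA⟩ := hex
    by_cases hw : P.w c = P.W
    · obtain ⟨X', k1, k2, k3⟩ := hG c hc hU hw hA
      refine ⟨X', k1, k2, ?_⟩
      have hD : 0 ≤ P.D := by
        rcases hP.nums with ⟨_, _, _, _, _, e5, _⟩ | ⟨_, _, _, _, _, e5, _⟩ <;> rw [e5] <;> norm_num
      linarith
    have hXZ : X ⊆ flt st.p (X ∪ c.A) := subset_union_left.trans (subset_flt _ _)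
    obtain ⟨r, N, M, y, rs, h1, h2, h3, h4, h5, h6, h7, h8, h9, h10, h11⟩ :=
      hull_step hP hQ hX hc hU hA
    obtain ⟨ih1, ih2⟩ := ihZ c hc hA
    rcases h11 with ⟨c', hc', hU', hw', hedge⟩ | hmu
    · by_cases hA' : c'.A ⊆ flt st.p (X ∪ c.A)
      · obtain ⟨X', k1, k2, k3⟩ := ih1
        refine ⟨X', hXZ.trans k1, k2, ?_⟩
        have h14 := hedge hA'
        rcases hP.nums with ⟨_, e1, e2, e3, e4, e5, e6, e7, e8⟩ |
          ⟨_, e1, e2, e3, e4, e5, e6, e7, e8⟩
        · rw [e2, e3, e4, e8] at h14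
          rw [e2, e3] at k3
          rw [e3, e6] at h8
          rw [e2, e3]
          omega
        · rw [e2, e3, e4, e8] at h14
          rw [e2, e3] at k3
          rw [e3, e6] at h8
          rw [e2, e3]
          omega
      · obtain ⟨X', k1, k2, k3⟩ := ih2 c' hc' hU' hw' hA'
        refine ⟨X', hXZ.trans k1, k2, ?_⟩
        rcases hP.nums with ⟨_, e1, e2, e3, e4, e5, e6, e7, e8⟩ |
          ⟨_, e1, e2, e3, e4, e5, e6, e7, e8⟩
        · rw [e2, e3, e4, e8] at h10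
          rw [e2, e3, e5] at k3
          rw [e2, e3]
          omega
        · rw [e2, e3, e4, e8] at h10
          rw [e2, e3, e5] at k3
          rw [e2, e3]
          omega
    · obtain ⟨X', k1, k2, k3⟩ := ih1
      refine ⟨X', hXZ.trans k1, k2, ?_⟩
      rcases hP.nums with ⟨_, e1, e2, e3, e4, e5, e6, e7, e8⟩ |
        ⟨_, e1, e2, e3, e4, e5, e6, e7, e8⟩
      · rw [e2, e3, e4, e8, e7] at hmu
        rw [e2, e3] at k3
        rw [e3, e6] at h8
        rw [e2, e3]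
        omega
      · rw [e2, e3, e4, e8, e7] at hmu
        rw [e2, e3] at k3
        rw [e3, e6] at h8
        rw [e2, e3]
        omega

end MP30c94c
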