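import Mathlib
import Pool.Agent.Lib.MP30c94c.KXHull

/-!
# The exceptional pairs: the activation step
-/

open SimpleGraph Finset

namespace MP30c94c

attribute [local instance] Classical.propDecidable

variable {V : Type} [Fintype V]

/-- choice of the helper set -/
lemma exists_helperX (P : ParX) (p : V → V → ℚ) (T : Finset V) :
    ∃ A ⊆ T, (∀ B ⊆ T, P.eta * (B.card : ℤ) - P.b * (rk p B : ℤ)
        ≤ P.eta * (A.card : ℤ) - P.b * (rk p A : ℤ)) ∧
      (∀ B, B ⊆ A → B ≠ A → P.eta * (B.card : ℤ) - P.b * (rk p B : ℤ) + 1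
        ≤ P.eta * (A.card : ℤ) - P.b * (rk p A : ℤ)) := by
  obtain ⟨M, hM, hMmax⟩ := Finset.exists_max_image T.powerset
    (fun B => P.eta * (B.card : ℤ) - P.b * (rk p B : ℤ)) ⟨∅, Finset.empty_mem_powerset T⟩
  obtain ⟨A, hA, hAmin⟩ := Finset.exists_min_image
    (T.powerset.filter fun B => P.eta * (M.card : ℤ) - P.b * (rk p M : ℤ)
      ≤ P.eta * (B.card : ℤ) - P.b * (rk p B : ℤ)) (fun B => B.card)
    ⟨M, Finset.mem_filter.mpr ⟨hM, le_rfl⟩⟩
  obtain ⟨hA1, hA2⟩ := Finset.mem_filter.mp hA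
  refine ⟨A, Finset.mem_powerset.mp hA1, fun B hB => ?_, fun B hB hne => ?_⟩
  · exact (hMmax B (Finset.mem_powerset.mpr hB)).trans hA2
  · by_contra hcon
    have h1 : P.eta * (A.card : ℤ) - P.b * (rk p A : ℤ)
        ≤ P.eta * (B.card : ℤ) - P.b * (rk p B : ℤ) := by
      by_contra h2
      exact hcon (by linarith [Int.add_one_le_iff.mpr (not_le.mp h2)])
    have h3 := hAmin B (Finset.mem_filter.mpr
      ⟨Finset.mem_powerset.mpr (hB.trans (Finset.mem_powerset.mp hA1)), hA2.trans h1⟩)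
    have h4 := Finset.card_lt_card (Finset.ssubset_iff_subset_ne.mpr ⟨hB, hne⟩)
    omega

private lemma KXAct_cin (st : St V) (p' : V → V → ℚ) {c : Cls V} {U : Finset V} (hcU : c.U = U)
    (X : Finset V) :
    (st.act p' c).cin X = if U ⊆ X then insert c (st.cin X) else st.cin X := by
  show (insert c st.cls).filter (fun c' => c'.U ⊆ X)
    = if U ⊆ X then insert c (st.cls.filter fun c' => c'.U ⊆ X)
      else st.cls.filter fun c' => c'.U ⊆ X
  rw [Finset.filter_insert, hcU]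

lemma QX.act {P : ParX} (hP : P.Ok) {st : St V} (hQ : QX P V st)
    {U A T : Finset V} (hU : U.card = 3) (hrU : rk st.p U = 3) (hT : T.card = P.k)
    (hadj : ∀ u ∈ U, ∀ t ∈ T, st.G.Adj u t) (hAT : A ⊆ T)
    (hAmin : ∀ B, B ⊆ A → B ≠ A → P.eta * (B.card : ℤ) - P.b * (rk st.p B : ℤ) + 1
      ≤ P.eta * (A.card : ℤ) - P.b * (rk st.p A : ℤ))
    (hF : (flt st.p U).card ≤ P.L)
    {p' : V → V → ℚ} (hq : QuotRel st.p p' U) {c : Cls V} (hcU : c.U = U) (hcA : c.A = A)
    (hcth : c.th = P.k * P.eta - (P.eta * (A.card : ℤ) - P.b * (rk st.p A : ℤ)))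
    (hct : c.t = st.cls.card) :
    QX P V (st.act p' c) := by
  have hnot : c ∉ st.cls := by
    intro h
    have h1 := (hQ.bas.csize c h).2
    rw [hcU] at h1
    omega
  have hcard : (st.act p' c).cls.card = st.cls.card + 1 := Finset.card_insert_of_notMem hnot
  have hcls : ∀ c', c' ∈ (st.act p' c).cls → c' = c ∨ c' ∈ st.cls :=
    fun c' h => Finset.mem_insert.mp h
  -- the old classes
  have hold : ∀ X, (st.act p' c).old c X = st.cin X := by
    intro X
    ext c'
    simp only [St.old, St.cin, Finset.mem_filter]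
    constructor
    · rintro ⟨h1, h2, h3⟩
      rcases hcls c' h1 with rfl | h1
      · exact absurd h2 (lt_irrefl _)
      · exact ⟨h1, h3⟩
    · rintro ⟨h1, h2⟩
      exact ⟨Finset.mem_insert_of_mem h1, by rw [hct]; exact hQ.time c' h1, h2⟩
  have hold' : ∀ c' ∈ st.cls, ∀ X, (st.act p' c).old c' X = st.old c' X := by
    intro c' hc' X
    ext c''
    simp only [St.old, Finset.mem_filter]
    constructor
    · rintro ⟨h1, h2, h3⟩
      rcases hcls c'' h1 with rfl | h1
      · have h4 := hQ.time c' hc'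
        omega
      · exact ⟨h1, h2, h3⟩
    · rintro ⟨h1, h2, h3⟩
      exact ⟨Finset.mem_insert_of_mem h1, h2, h3⟩
  refine ⟨hQ.bas.act (by omega) (by rw [hcU]; exact hU) (by rw [hcU]; exact hrU)
    (by rw [hcU]; exact hq), ?_, ?_, ?_, ?_, ?_⟩
  · intro Y
    show rk p' Y + ((st.act p' c).cin Y).card ≤ Y.card
    rw [KXAct_cin st p' hcU]
    have h1 := hQ.cnt2 Y
    by_cases hUY : U ⊆ Y
    · rw [if_pos hUY, Finset.card_insert_of_notMem (fun h => hnot (cin_subset _ _ h))]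
      have h2 := hq.rk1 Y (hUY.trans (subset_flt _ _))
      omega
    · rw [if_neg hUY]
      have h2 := hq.rk_le Y
      omega
  · intro X hX hr
    have hr' : rk p' X ≤ 2 := hr
    have hXp : IsFlat st.p X := hq.isFlat hX
    by_cases hUX : U ⊆ X
    · have h1 := hq.rk1 X (hUX.trans (subset_flt _ _))
      have h2 := flt_eq_of_rk st.p hXp hUX (by omega)
      rw [← h2]
      exact hF
    · have h1 := hq.rk2 X (by rw [hXp.flt_eq]; exact hUX)
      exact hQ.line X hXp (by omega)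
  · intro c' hc'
    rcases hcls c' hc' with rfl | hc'
    · refine ⟨st.p, hq.hist, fun Y hY => hQ.bas.indep Y (by omega), fun X hX => ?_, fun Y => ?_,
        hQ.line, ?_, ?_, ?_, ?_⟩
      · rw [hold]
        exact hQ.bas.count X hX
      · rw [hold]
        exact hQ.cnt2 Y
      · rw [ParX.w, hcth, hcA]
        ring
      · intro B hB hne
        rw [hcA] at hB hne ⊢
        have h1 := hAmin B hB hne
        have h4 := Finset.card_sdiff_add_card_eq_card hB
        have h4' : ((A \ B).card : ℤ) = A.card - B.card := by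
          have : ((A \ B).card : ℤ) + B.card = A.card := by exact_mod_cast h4
          linarith
        rw [h4']
        linarith
      · rw [hcA, ← hT]
        exact Finset.card_le_card hAT
      · intro x hx u hu
        rw [hcA] at hx
        rw [hcU] at hu
        exact hadj u hu x (hAT hx)
    · obtain ⟨q, h⟩ := hQ.past c' hc'
      refine ⟨q, h.hist.trans hq.hist, h.indep, fun X hX => ?_, fun Y => ?_, h.line, h.wA, h.drop,
        h.cardA, h.adj⟩
      · rw [hold' c' hc']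
        exact h.count X hX
      · rw [hold' c' hc']
        exact h.cnt2 Y
  · intro c' hc'
    rw [hcard]
    rcases hcls c' hc' with rfl | hc'
    · omega
    · have := hQ.time c' hc'
      omega
  · intro c₁ hc₁ c₂ hc₂ he
    rcases hcls c₁ hc₁ with rfl | h₁
    · rcases hcls c₂ hc₂ with rfl | h₂
      · rfl
      · have := hQ.time c₂ h₂
        omega
    · rcases hcls c₂ hc₂ with rfl | h₂
      · have := hQ.time c₁ h₁
        omega
      · exact hQ.tinj c₁ h₁ c₂ h₂ he

lemma QX.act_phi {P : ParX} (hP : P.Ok) {st : St V} (hQ : QX P V st)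
    {U A T : Finset V} (hU : U.card = 3) (hrU : rk st.p U = 3) (hT : T.card = P.k)
    (hadj : ∀ u ∈ U, ∀ t ∈ T, st.G.Adj u t)
    (hAmax : ∀ B ⊆ T, P.eta * (B.card : ℤ) - P.b * (rk st.p B : ℤ)
        ≤ P.eta * (A.card : ℤ) - P.b * (rk st.p A : ℤ))
    (hF : (flt st.p U).card ≤ P.L)
    {p' : V → V → ℚ} (hq : QuotRel st.p p' U) {c : Cls V} (hcU : c.U = U)
    (hcth : c.th = P.k * P.eta - (P.eta * (A.card : ℤ) - P.b * (rk st.p A : ℤ)))
    {X : Finset V} (hX : Clo (st.act p' c) X) :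
    ∃ X', X ⊆ X' ∧ Clo st X' ∧ PhiS P.a P.b st X' ≤ PhiS P.a P.b (st.act p' c) X ∧
      (U ⊆ X → P.k ≤ (X'.filter fun t => ∀ u ∈ U, st.G.Adj u t).card) := by
  have hXp' : IsFlat p' X := hX.1
  have hXp : IsFlat st.p X := hq.isFlat hX.1
  have hnot : c ∉ st.cls := by
    intro h
    have h1 := (hQ.bas.csize c h).2
    rw [hcU] at h1
    omega
  by_cases hUX : U ⊆ X
  swap
  · refine ⟨X, subset_rfl, ⟨hXp, fun c' hc' hU' => hX.2 c' (Finset.mem_insert_of_mem hc') hU'⟩,
      ?_, fun h => absurd h hUX⟩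
    have h1 : (st.act p' c).cin X = st.cin X := by
      rw [KXAct_cin st p' hcU, if_neg hUX]
    have h2 : ell (st.act p' c).G (st.act p' c).p X = ell st.G st.p X :=
      hq.ell2 st.G X (by rw [hXp.flt_eq]; exact hUX)
    unfold PhiS
    rw [h1, h2]
  obtain ⟨Z, hZ⟩ : ∃ Z, Z = flt st.p (X ∪ T) := ⟨_, rfl⟩
  have hZflat : IsFlat st.p Z := by rw [hZ]; exact flt_isFlat _ _
  have hXZ : X ⊆ Z := by rw [hZ]; exact subset_union_left.trans (subset_flt _ _)
  have hTZ : T ⊆ Z := by rw [hZ]; exact subset_union_right.trans (subset_flt _ _)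
  have hrZ : rk st.p Z = rk st.p (X ∪ T) := by rw [hZ, rk_flt]
  -- it is enough to bound the potential of a closed set containing `Z`
  suffices hmain : ∃ X', Z ⊆ X' ∧ Clo st X' ∧
      PhiS P.a P.b st X' ≤ PhiS P.a P.b (st.act p' c) X by
    obtain ⟨X', h1, h2, h3⟩ := hmain
    refine ⟨X', hXZ.trans h1, h2, h3, fun _ => ?_⟩
    rw [← hT]
    apply Finset.card_le_card
    intro t ht
    exact Finset.mem_filter.mpr ⟨h1 (hTZ ht), fun u hu => hadj u hu t ht⟩
  have hPhi : PhiS P.a P.b (st.act p' c) X = PhiS P.a P.b st X - c.th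
      + P.b * ((ell st.G st.p X : ℤ) - ell st.G p' X) := by
    have h4 : ell (st.act p' c).G (st.act p' c).p X = ell st.G p' X := rfl
    unfold PhiS
    rw [KXAct_cin st p' hcU, if_pos hUX, h4, Finset.sum_insert (fun h => hnot (cin_subset _ _ h))]
    ring
  have hext := PhiS_grow P hQ.bas hXp hZflat hXZ
  rw [hrZ] at hext
  -- edges
  have he1 := hq.ell1 st.G Z T (hUX.trans hXZ) hTZ hadj
  have he1' : (ell st.G p' Z : ℤ) + rk st.p T ≤ ell st.G st.p Z := by exact_mod_cast he1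
  have hD : ∀ v ∈ U, ∀ d ∈ T, d ∈ flt p' (X ∪ Z.filter fun c => st.G.Adj v c) := by
    intro v hv d hd
    apply subset_flt
    rw [Finset.mem_union, Finset.mem_filter]
    exact Or.inr ⟨hTZ hd, hadj v hv d hd⟩
  have hr1 := hq.rk1 U (subset_flt _ _)
  have hr2 := hq.rk1 X (hUX.trans (subset_flt _ _))
  have hr3 := hq.rk1 (X ∪ T) ((hUX.trans subset_union_left).trans (subset_flt _ _))
  have hm := rk_mono st.p (subset_union_left : X ⊆ X ∪ T)
  have hrU' : rk p' U = 2 := by omega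
  have he2 := ell_ext st.G p' (X := X) (Z := Z) (B := U) (D := T) hXZ hUX hD
  rw [hrU'] at he2
  -- numbers
  obtain ⟨r, hr⟩ : ∃ r : ℤ, r = (rk st.p (X ∪ T) : ℤ) - rk st.p X := ⟨_, rfl⟩
  obtain ⟨R, hR⟩ : ∃ R : ℤ, R = (rk st.p T : ℤ) := ⟨_, rfl⟩
  obtain ⟨qq, hqq⟩ : ∃ qq : ℤ, qq = (rk st.p (T ∩ X) : ℤ) := ⟨_, rfl⟩
  obtain ⟨e, he⟩ : ∃ e : ℤ, e = ((T ∩ X).card : ℤ) := ⟨_, rfl⟩
  obtain ⟨om, hom⟩ : ∃ om : ℤ, om = P.eta * (A.card : ℤ) - P.b * (rk st.p A : ℤ) := ⟨_, rfl⟩
  have h8 := rk_rel st.p (B := T ∩ X) (A := T) (X := X) Finset.inter_subset_left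
    Finset.inter_subset_right
  have h8' : r + qq ≤ R := by omega
  have hr0 : 0 ≤ r := by omega
  have hom1 : P.eta * e - P.b * qq ≤ om := by
    rw [he, hqq, hom]
    exact hAmax (T ∩ X) Finset.inter_subset_left
  have hom2 : P.eta * P.k - P.b * R ≤ om := by
    rw [hR, hom, ← hT]
    exact hAmax T subset_rfl
  have hom3 : 0 ≤ om := by
    have h1 := hAmax ∅ (Finset.empty_subset _)
    rw [rk_empty] at h1
    rw [hom]
    simpa using h1
  -- the classes
  obtain ⟨N, hN⟩ : ∃ N, N = st.cin Z \ st.cin X := ⟨_, rfl⟩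
  have hnc := new_card hQ.bas hXp hZflat hXZ
  rw [← hN, hrZ] at hnc
  rw [← hN] at hext
  have h6 : ((T \ X).card : ℤ) ≤ ((Z \ X).card : ℤ) := by
    exact_mod_cast Finset.card_le_card (Finset.sdiff_subset_sdiff hTZ subset_rfl)
  have h11 := Finset.card_sdiff_add_card_inter T X
  have h11' : ((T \ X).card : ℤ) = P.k - e := by
    rw [hT] at h11
    omega
  have hNcard : P.k - e - r ≤ (N.card : ℤ) := by omega
  have hNcls : ∀ c' ∈ N, c' ∈ st.cls ∧ c'.U ⊆ Z ∧ ¬ c'.U ⊆ X := by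
    intro c' hc'
    rw [hN] at hc'
    obtain ⟨h1, h2⟩ := Finset.mem_sdiff.mp hc'
    obtain ⟨h3, h4⟩ := Finset.mem_filter.mp h1
    exact ⟨h3, h4, fun h => h2 (Finset.mem_filter.mpr ⟨h3, h⟩)⟩
  -- the bound for the potential of `Z`
  have hbase : PhiS P.a P.b st Z = PhiS P.a P.b (st.act p' c) X + P.a * r + P.k * P.eta - om
      - (∑ c ∈ N, (P.c0 - P.w c)) - P.b * ((ell st.G st.p Z : ℤ) - ell st.G p' X) := by
    rw [hPhi, hcth, hext, hr, hom]
    ring
  have hb0 : 0 ≤ P.b := by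
    rcases hP.nums with ⟨h1, h2, h3, h4, _⟩ | ⟨h1, h2, h3, h4, _⟩ <;> omega
  have hellZ : (ell st.G p' X : ℤ) + 2 * r + R ≤ ell st.G st.p Z := by
    have h5 : ((rk p' (X ∪ T) - rk p' X : ℕ) : ℤ) = r := by omega
    have he2' : (ell st.G p' X : ℤ) + 2 * ((rk p' (X ∪ T) - rk p' X : ℕ) : ℤ)
        ≤ ell st.G p' Z := by exact_mod_cast he2
    rw [h5] at he2'
    omega
  -- points of `T`
  have hlineT : ∀ Y : Finset V, Y ⊆ T → rk st.p Y ≤ 2 → Y.card ≤ P.L := by
    intro Y _ hY2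
    have h1 := hQ.line (flt st.p Y) (flt_isFlat _ _) (by rw [rk_flt]; exact hY2)
    exact (Finset.card_le_card (subset_flt st.p Y)).trans h1
  have hindep : ∀ Y : Finset V, min Y.card 2 ≤ rk st.p Y := by
    intro Y
    obtain ⟨Y', hY', hc'⟩ := Finset.exists_subset_card_eq (show min Y.card 2 ≤ Y.card by omega)
    have h1 := hQ.bas.indep Y' (by omega)
    have h2 := rk_mono st.p hY'
    omega
  have hR3 : 3 ≤ R := by
    have h1 := hlineT T subset_rfl
    rcases hP.nums with ⟨h2, h3, _⟩ | ⟨h2, h3, _⟩ <;> omega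
  have hqe : qq ≤ 2 → e ≤ P.L := by
    intro h
    have h1 := hlineT (T ∩ X) Finset.inter_subset_left (by omega)
    omega
  have hqe1 : min e 2 ≤ qq := by
    have h1 := hindep (T ∩ X)
    omega
  have heT : e ≤ P.k := by
    have h1 := Finset.card_le_card (Finset.inter_subset_left : T ∩ X ⊆ T)
    omega
  have hqR : qq ≤ R := by omega
  by_cases htop : ∃ c' ∈ N, P.w c' = P.W
  · -- CASE A
    obtain ⟨c', hc'N, hw'⟩ := htop
    obtain ⟨hc', hU'Z, hU'X⟩ := hNcls c' hc'N
    have hsum : (P.c0 - P.W) * (N.card : ℤ) ≤ ∑ c ∈ N, (P.c0 - P.w c) := by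
      have h1 : ∀ c'' ∈ N, P.c0 - P.W ≤ P.c0 - P.w c'' := by
        intro c'' hc''
        obtain ⟨q, hpq⟩ := hQ.past c'' (hNcls c'' hc'').1
        have := (hpq.w_le hP).2.1
        linarith
      have h2 := Finset.card_nsmul_le_sum N _ _ h1
      rw [nsmul_eq_mul] at h2
      linarith
    have hnum : (P.a - 2 * P.b) * r - P.b * R + P.k * P.eta - om
        - (P.c0 - P.W) * (P.k - e - r) - P.b ≤ 0 := by
      rcases hP.nums with ⟨h1, h2, h3, h4, h5, h6, h7, h8, h9⟩ | ⟨h1, h2, h3, h4, h5, h6, h7, h8, h9⟩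
      · rw [h7, h4] at hom1 hom2
        rw [h1] at hom2 heT
        rw [h2] at hqe
        rw [h1, h3, h4, h5, h7, h9]
        push_cast at hom2 hqe heT ⊢
        omega
      · rw [h7, h4] at hom1 hom2
        rw [h1] at hom2 heT
        rw [h2] at hqe
        rw [h1, h3, h4, h5, h7, h9]
        push_cast at hom2 hqe heT ⊢
        omega
    have hcN : (P.c0 - P.W) * (P.k - e - r) ≤ (P.c0 - P.W) * (N.card : ℤ) := by
      apply mul_le_mul_of_nonneg_left hNcard
      rcases hP.nums with ⟨h1, h2, h3, h4, h5, h6, h7, h8, h9⟩ | ⟨h1, h2, h3, h4, h5, h6, h7, h8, h9⟩ <;>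
        rw [h5, h9] <;> norm_num
    by_cases hA'Z : c'.A ⊆ Z
    · -- an additional edge
      obtain ⟨y, hyU, hyX⟩ := Finset.not_subset.mp hU'X
      obtain ⟨q, hpq⟩ := hQ.past c' hc'
      obtain ⟨hAL, hA2⟩ := hpq.w_top hP hw'
      have hxex : ∃ x ∈ c'.A, x ∉ flt p' U := by
        by_contra hcon
        have hsub : c'.A ⊆ flt st.p U := by
          intro v hv
          have h1 : v ∈ flt p' U := by
            by_contra h
            exact hcon ⟨v, hv, h⟩
          rw [mem_flt_iff_rk] at h1 ⊢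
          have h2 := hq.rk1 (insert v U) ((Finset.subset_insert v U).trans (subset_flt _ _))
          omega
        have heq : c'.A = flt st.p U := Finset.eq_of_subset_of_card_le hsub (by omega)
        have h1 := hpq.hist.rk_le c'.A
        rw [heq, rk_flt, hrU] at h1
        rw [heq] at hA2
        omega
      obtain ⟨x, hxA, hxF⟩ := hxex
      have he3 := ell_ext_one st.G p' (X := X) (Z := Z) (B := U) (D := T) hXp' hXZ hUX hD
        (hA'Z hxA) (hU'Z hyU) (hpq.adj x hxA y hyU).symm hyX hxF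
      rw [hrU'] at he3
      have hellZ' : (ell st.G p' X : ℤ) + 2 * r + R + 1 ≤ ell st.G st.p Z := by
        have h5 : ((rk p' (X ∪ T) - rk p' X : ℕ) : ℤ) = r := by omega
        have he2' : (ell st.G p' X : ℤ) + 2 * ((rk p' (X ∪ T) - rk p' X : ℕ) : ℤ) + 1
            ≤ ell st.G p' Z := by exact_mod_cast he3
        rw [h5] at he2'
        omega
      obtain ⟨X', h1, h2, h3⟩ := (hQ.hull hP hZflat).1
      refine ⟨X', h1, h2, h3.trans ?_⟩
      have h4 := mul_le_mul_of_nonneg_left hellZ' hb0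
      rw [hbase]
      linarith [h4, hsum, hnum, hcN]
    · -- an external helper
      obtain ⟨X', h1, h2, h3⟩ := (hQ.hull hP hZflat).2 c' hc' hU'Z hw' hA'Z
      refine ⟨X', h1, h2, ?_⟩
      have h4 := mul_le_mul_of_nonneg_left hellZ hb0
      have hDb : P.b ≤ P.D := by
        rcases hP.nums with ⟨h1, h2, h3, h4, h5, h6, _⟩ | ⟨h1, h2, h3, h4, h5, h6, _⟩ <;> omega
      rw [hbase] at h3
      linarith [h4, hsum, hnum, hcN]
  · -- CASE B
    have hsum : P.eta * (N.card : ℤ) ≤ ∑ c ∈ N, (P.c0 - P.w c) := by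
      have h1 : ∀ c'' ∈ N, P.eta ≤ P.c0 - P.w c'' := by
        intro c'' hc''
        obtain ⟨q, hpq⟩ := hQ.past c'' (hNcls c'' hc'').1
        have h2 := (hpq.w_le hP).2.2
        have h3 : P.w c'' ≤ P.mu := by
          rcases h2 with h2 | h2
          · exact absurd ⟨c'', hc'', h2⟩ htop
          · exact h2
        have h4 : P.c0 - P.mu = P.eta := by
          rcases hP.nums with ⟨h1, h2, h3, h4, h5, h6, h7, h8, h9⟩ | ⟨h1, h2, h3, h4, h5, h6, h7, h8, h9⟩ <;>
            rw [h7, h8, h9] <;> norm_num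
        linarith
      have h2 := Finset.card_nsmul_le_sum N _ _ h1
      rw [nsmul_eq_mul] at h2
      linarith
    have hcN : P.eta * (P.k - e - r) ≤ P.eta * (N.card : ℤ) := by
      apply mul_le_mul_of_nonneg_left hNcard
      rcases hP.nums with ⟨h1, h2, h3, h4, h5, h6, h7, h8, h9⟩ | ⟨h1, h2, h3, h4, h5, h6, h7, h8, h9⟩ <;>
        rw [h7] <;> norm_num
    obtain ⟨X', h1, h2, h3⟩ := (hQ.hull hP hZflat).1
    refine ⟨X', h1, h2, h3.trans ?_⟩
    have h4 := mul_le_mul_of_nonneg_left hellZ hb0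
    have h5 := mul_le_mul_of_nonneg_left h8' hb0
    have h6 : P.a * r = 3 * P.b * r - P.eta * r := by
      rw [ParX.eta]
      ring
    rw [hbase]
    linarith [h4, h5, h6, hsum, hcN, hom1]

end MP30c94c
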