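import Mathlib
import Pool.Agent.Lib.MP30c94c.KXHull

/-!
# The exceptional pairs: the edge step
-/

open SimpleGraph Finset

namespace MP30c94c

attribute [local instance] Classical.propDecidable

variable {V : Type} [Fintype V]

lemma QX.addEdge {P : ParX} {st : St V} (hQ : QX P V st) (w z : V) : QX P V (st.addEdge w z) := by
  refine ⟨hQ.bas.addEdge w z, hQ.cnt2, hQ.line, fun c hc => ?_, hQ.time, hQ.tinj⟩
  obtain ⟨q, hq⟩ := hQ.past c hc
  refine ⟨q, ⟨hq.hist, hq.indep, hq.count, hq.cnt2, hq.line, hq.wA, hq.drop, hq.cardA, ?_⟩⟩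
  intro x hx u hu
  exact Or.inl (hq.adj x hx u hu)

/-! ### one new dimension -/

/-- edges to one new dimension -/
lemma KXEdge.ext1 (G : SimpleGraph V) (p : V → V → ℚ) {X X1 B : Finset V} (hX : IsFlat p X)
    (hX1 : IsFlat p X1) (hXX1 : X ⊆ X1) (hr : rk p X1 = rk p X + 1) (hB : B ⊆ X)
    (hadj : ∀ v ∈ B, ∃ u ∈ X1, u ∉ X ∧ G.Adj v u) :
    ell G p X + rk p B ≤ ell G p X1 ∧
      ((∃ x ∈ X1, ∃ y ∈ X1, G.Adj x y ∧ y ∉ X ∧ x ∉ X) → ell G p X + rk p B + 1 ≤ ell G p X1) := by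
  have hD : ∀ v ∈ B, ∀ d ∈ X1, d ∈ flt p (X ∪ X1.filter fun c => G.Adj v c) := by
    intro v hv d hd
    obtain ⟨u, hu1, hu2, hu3⟩ := hadj v hv
    have h1 : insert u X ⊆ X ∪ X1.filter fun c => G.Adj v c := by
      intro x hx
      rcases Finset.mem_insert.mp hx with rfl | hx
      · exact Finset.mem_union_right _ (Finset.mem_filter.mpr ⟨hu1, hu3⟩)
      · exact Finset.mem_union_left _ hx
    have h2 : insert u X ⊆ X1 := Finset.insert_subset hu1 hXX1
    have h3 : rk p X1 ≤ rk p (insert u X) := by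
      have h4 : rk p X ≤ rk p (insert u X) := rk_mono p (Finset.subset_insert _ _)
      have h5 : rk p (insert u X) ≠ rk p X := by
        intro h6
        have h7 := (mem_flt_iff_rk p X u).mpr h6
        rw [hX.flt_eq] at h7
        exact hu2 h7
      omega
    have h4 : flt p (insert u X) = X1 := flt_eq_of_rk p hX1 h2 h3
    have h5 := flt_mono p h1
    rw [h4] at h5
    exact h5 hd
  have hU : X ∪ X1 = X1 := Finset.union_eq_right.mpr hXX1
  have hdim : rk p (X ∪ X1) - rk p X = 1 := by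
    rw [hU]
    omega
  constructor
  · have h := ell_ext G p (X := X) (Z := X1) (B := B) (D := X1) hXX1 hB hD
    rw [hdim, mul_one] at h
    exact h
  · rintro ⟨x, hx, y, hy, hxy, hyX, hxX⟩
    have h := ell_ext_one G p (X := X) (Z := X1) (B := B) (D := X1) hX hXX1 hB hD hx hy hxy hyX
      (fun h => hxX (hX.flt_subset hB h))
    rw [hdim, mul_one] at h
    exact h

/-- two points which are independent -/
lemma KXEdge.two_le_rk {st : St V} (hB : Bas 3 st) {Y : Finset V} (h : 2 ≤ Y.card) :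
    2 ≤ rk st.p Y := by
  obtain ⟨Y', h1, h2⟩ := Finset.exists_subset_card_eq h
  rw [← h2, ← hB.indep Y' (by omega)]
  exact rk_mono _ h1

/-! ### numbers -/

lemma KXEdge.numA {P : ParX} (hP : P.Ok) {om n R : ℤ} (hom : om ≤ P.W) (hn : 0 ≤ n) :
    (1 ≤ R → P.a - (P.c0 - om) - (P.c0 - P.W) * n - P.b * R - P.D ≤ 0) ∧
    (2 ≤ R → 1 ≤ n → P.a - (P.c0 - om) - (P.c0 - P.W) * n - P.b * R ≤ 0) ∧
    (3 ≤ R → P.a - (P.c0 - om) - (P.c0 - P.W) * n - P.b * R ≤ 0) ∧
    (1 ≤ R → om ≤ 0 → P.a - (P.c0 - om) - (P.c0 - P.W) * n - P.b * R ≤ 0) ∧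
    (2 ≤ R → om ≤ P.mu → P.a - (P.c0 - om) - (P.c0 - P.W) * n - P.b * R ≤ 0) := by
  rcases hP.nums with ⟨h1, h2, h3, h4, h5, h6, h7, h8, h9⟩ | ⟨h1, h2, h3, h4, h5, h6, h7, h8, h9⟩ <;>
  rw [h5] at hom <;> rw [h3, h4, h5, h6, h8, h9] <;> refine ⟨?_, ?_, ?_, ?_, ?_⟩ <;> intros <;> omega

/-! ### the set-up -/

lemma KXEdge.setup {P : ParX} (hP : P.Ok) {st : St V} (hQ : QX P V st)
    {U : Finset V} {w z : V} (hU : U.card = 3) (hrU : rk st.p U = 2) (hz : z ∈ U)
    (hw : w ∉ U) (hadj : ∀ u ∈ U, u ≠ z → st.G.Adj w u) {X : Finset V} (hX : Clo st X)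
    (hwX : w ∈ X) (hzX : z ∈ X) (hFX : ¬ flt st.p U ⊆ X) :
    ∃ X1 : Finset V, ∃ c ∈ st.cls, IsFlat st.p X1 ∧ X ⊆ X1 ∧ flt st.p U ⊆ X1 ∧
      rk st.p X1 = rk st.p X + 1 ∧ (∀ y ∈ flt st.p U, y ∈ X → y = z) ∧ c.U ⊆ flt st.p U ∧
      c ∈ st.cin X1 \ st.cin X ∧
      ((st.cin X1 \ st.cin X).card : ℤ) = ((X1 \ X).card : ℤ) - 1 ∧
      (∀ R : ℤ, (ell (st.addEdge w z).G st.p X : ℤ) + R ≤ ell (st.addEdge w z).G st.p X1 →
        PhiS P.a P.b st X1 ≤ PhiS P.a P.b (st.addEdge w z) X + P.a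
          - (∑ c ∈ st.cin X1 \ st.cin X, (P.c0 - P.w c)) - P.b * R) := by
  obtain ⟨F, hF⟩ : ∃ F, F = flt st.p U := ⟨_, rfl⟩
  rw [← hF] at hFX ⊢
  have hFflat : IsFlat st.p F := by rw [hF]; exact flt_isFlat _ _
  have hUF : U ⊆ F := by rw [hF]; exact subset_flt _ _
  have hrF : rk st.p F = 2 := by rw [hF, rk_flt, hrU]
  have hwz : w ≠ z := fun h => hw (h ▸ hz)
  have hcer : (U.erase z).card = 2 := by rw [Finset.card_erase_of_mem hz, hU]
  have hzC : z ∈ flt st.p (U.erase z) := by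
    rw [mem_flt_iff_rk, Finset.insert_erase hz, hrU, hQ.bas.indep (U.erase z) (by omega), hcer]
  have hell0 : ∀ Z : Finset V, w ∈ Z → F ⊆ Z →
      ell (st.addEdge w z).G st.p Z = ell st.G st.p Z := by
    intro Z hwZ hFZ
    exact ell_add_edge st.G st.p (C := U.erase z)
      ((Finset.erase_subset _ _).trans (hUF.trans hFZ)) hwZ
      (fun c hc => hadj c (Finset.mem_of_mem_erase hc) (Finset.ne_of_mem_erase hc)) hzC
  have hone : ∀ y ∈ F, y ∈ X → y = z := by
    intro y hyF hyX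
    by_contra hne
    have h1 : ({y, z} : Finset V).card = 2 := Finset.card_pair hne
    have h2 := hQ.bas.indep {y, z} (by omega)
    have h3 : ({y, z} : Finset V) ⊆ F := by
      intro x hx
      rcases Finset.mem_insert.mp hx with rfl | hx
      · exact hyF
      · rw [Finset.mem_singleton.mp hx]; exact hUF hz
    have h4 : flt st.p {y, z} = F := flt_eq_of_rk st.p hFflat h3 (by omega)
    apply hFX
    rw [← h4]
    apply hX.1.flt_subset
    intro x hx
    rcases Finset.mem_insert.mp hx with rfl | hx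
    · exact hyX
    · rw [Finset.mem_singleton.mp hx]; exact hzX
  have hcap : F ∩ X = {z} := by
    ext y
    rw [Finset.mem_inter, Finset.mem_singleton]
    constructor
    · rintro ⟨h1, h2⟩
      exact hone y h1 h2
    · rintro rfl
      exact ⟨hUF hz, hzX⟩
  obtain ⟨c, hcF⟩ : (st.cin F).Nonempty := by
    rw [← Finset.card_pos]
    have h1 := hQ.bas.count F hFflat
    have h2 := Finset.card_le_card hUF
    omega
  have hc : c ∈ st.cls := cin_subset _ _ hcF
  have hcUF : c.U ⊆ F := (Finset.mem_filter.mp hcF).2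
  obtain ⟨X1, hX1⟩ : ∃ X1, X1 = flt st.p (X ∪ F) := ⟨_, rfl⟩
  have hX1flat : IsFlat st.p X1 := by rw [hX1]; exact flt_isFlat _ _
  have hXX1 : X ⊆ X1 := by rw [hX1]; exact subset_union_left.trans (subset_flt _ _)
  have hFX1 : F ⊆ X1 := by rw [hX1]; exact subset_union_right.trans (subset_flt _ _)
  have hrX1 : rk st.p X1 = rk st.p (X ∪ F) := by rw [hX1, rk_flt]
  have h5 := rk_rel st.p (B := F ∩ X) (A := F) (X := X) Finset.inter_subset_left
    Finset.inter_subset_right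
  have h6 : rk st.p (F ∩ X) = 1 := by
    rw [hcap, hQ.bas.indep {z} (by simp), Finset.card_singleton]
  have h7 : rk st.p X < rk st.p (X ∪ F) := by
    by_contra hcon
    have h8 : flt st.p X = X1 := flt_eq_of_rk st.p hX1flat hXX1 (by omega)
    rw [hX.1.flt_eq] at h8
    exact hFX (h8 ▸ hFX1)
  have hr1 : rk st.p X1 = rk st.p X + 1 := by omega
  have hcs := hQ.bas.csize c hc
  have hcN : c ∈ st.cin X1 \ st.cin X := by
    rw [Finset.mem_sdiff]
    refine ⟨Finset.mem_filter.mpr ⟨hc, hcUF.trans hFX1⟩, fun h => ?_⟩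
    have h1 := (Finset.mem_filter.mp h).2
    have h2 : c.U ⊆ {z} := by
      rw [← hcap]
      exact Finset.subset_inter hcUF h1
    have h3 := Finset.card_le_card h2
    rw [Finset.card_singleton] at h3
    omega
  refine ⟨X1, c, hc, hX1flat, hXX1, hFX1, hr1, hone, hcUF, hcN, ?_, ?_⟩
  · rw [new_card hQ.bas hX.1 hX1flat hXX1, hr1]
    push_cast
    ring
  · intro R hR
    have h1 := PhiS_grow P hQ.bas hX.1 hX1flat hXX1
    have h2 := hell0 X1 (hXX1 hwX) hFX1
    rw [h2] at hR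
    rw [PhiS_addEdge, h1, hr1]
    have hb : 0 ≤ P.b := by
      rcases hP.nums with h | h
      · omega
      · omega
    have h3 := mul_le_mul_of_nonneg_left hR hb
    push_cast
    linarith

lemma KXEdge.numB1 {P : ParX} (hP : P.Ok) {m rho om n R r rs N y0 y1 y2 q1 : ℤ}
    (hshape : (P.k = 6 → (m = 4 ∧ rho = 2 ∧ om = 6) ∨ (m = 5 ∧ rho = 3 ∧ om = 2) ∨
        (m = 6 ∧ rho = 3 ∧ om = 9)) ∧
      (P.k = 5 → (m = 3 ∧ rho = 2 ∧ om = 7) ∨ (m = 4 ∧ rho = 3 ∧ om = 2) ∨
        (m = 5 ∧ rho = 3 ∧ om = 19)))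
    (hm : m = y0 + y1 + y2) (h0 : 0 ≤ y0) (h1 : 0 ≤ y1) (h2 : 0 ≤ y2) (hr : 0 ≤ r)
    (hrs : r ≤ rs) (hdrop : P.b * rs + 1 ≤ P.eta * y2) (hq1 : rs + q1 ≤ rho)
    (hq1a : 1 ≤ y0 + y1 → 1 ≤ q1) (hq1b : 2 ≤ y0 + y1 → 2 ≤ q1) (hq0 : 0 ≤ q1)
    (hN : y2 - r ≤ N) (hn : y1 ≤ n) (hR : 1 ≤ R) :
    P.a - (P.c0 - om) - (P.c0 - P.mu) * n - P.b * R + (P.a - 2 * P.b) * r - (P.c0 - P.W) * N
      - P.b ≤ 0 := by
  rcases hP.nums with ⟨e1, e2, e3, e4, e5, e6, e7, e8, e9⟩ | ⟨e1, e2, e3, e4, e5, e6, e7, e8, e9⟩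
  · have hs := hshape.1 e1
    rw [e4, e7] at hdrop
    rw [e3, e4, e5, e8, e9]
    rcases hs with ⟨hs1, hs2, hs3⟩ | ⟨hs1, hs2, hs3⟩ | ⟨hs1, hs2, hs3⟩ <;> omega
  · have hs := hshape.2 e1
    rw [e4, e7] at hdrop
    rw [e3, e4, e5, e8, e9]
    rcases hs with ⟨hs1, hs2, hs3⟩ | ⟨hs1, hs2, hs3⟩ | ⟨hs1, hs2, hs3⟩ <;> omega

lemma KXEdge.numB2 {P : ParX} (hP : P.Ok) {rho om n R r rs N M y0 y1 y2 q1 : ℤ}
    (hom : om = P.eta * (y0 + y1 + y2) - P.b * rho) (hmu : om ≤ P.mu)
    (h0 : 0 ≤ y0) (h1 : 0 ≤ y1) (h2 : 0 ≤ y2) (hr : 0 ≤ r)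
    (hrs : r ≤ rs) (hdrop : P.b * rs + 1 ≤ P.eta * y2) (hq1 : rs + q1 ≤ rho)
    (hq1a : 1 ≤ y0 → 1 ≤ q1) (hq0 : 0 ≤ q1)
    (hN : y2 - r ≤ N) (hM : y2 - rs ≤ M) (hn : y1 ≤ n) (hR : 1 ≤ R) (hR2 : 2 ≤ y0 → 2 ≤ R) :
    P.a - (P.c0 - om) - (P.c0 - P.mu) * n - P.b * R + (P.a - 2 * P.b) * r - (P.c0 - P.W) * N
      - (P.W - P.mu) * M ≤ 0 := by
  rcases hP.nums with ⟨e1, e2, e3, e4, e5, e6, e7, e8, e9⟩ | ⟨e1, e2, e3, e4, e5, e6, e7, e8, e9⟩
  · rw [e4, e7] at hdrop hom
    rw [e8] at hmu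
    rw [e3, e4, e5, e8, e9]
    omega
  · rw [e4, e7] at hdrop hom
    rw [e8] at hmu
    rw [e3, e4, e5, e8, e9]
    omega

/-- the shapes with a helper set and a discount at most `μ` -/
lemma KXEdge.shape {P : ParX} (hP : P.Ok) {st : St V} {c : Cls V} {q : V → V → ℚ}
    (hq : Past P st c q) (hA : c.A ≠ ∅) (hmu : P.w c ≤ P.mu) :
    (P.k = 6 → ((c.A.card : ℤ) = 4 ∧ (rk q c.A : ℤ) = 2 ∧ P.w c = 6) ∨
        ((c.A.card : ℤ) = 5 ∧ (rk q c.A : ℤ) = 3 ∧ P.w c = 2) ∨
        ((c.A.card : ℤ) = 6 ∧ (rk q c.A : ℤ) = 3 ∧ P.w c = 9)) ∧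
      (P.k = 5 → ((c.A.card : ℤ) = 3 ∧ (rk q c.A : ℤ) = 2 ∧ P.w c = 7) ∨
        ((c.A.card : ℤ) = 4 ∧ (rk q c.A : ℤ) = 3 ∧ P.w c = 2) ∨
        ((c.A.card : ℤ) = 5 ∧ (rk q c.A : ℤ) = 3 ∧ P.w c = 19)) := by
  rcases hP with rfl | rfl
  · rw [P6_mu] at hmu
    refine ⟨fun _ => ?_, fun h => absurd h (by simp [P6])⟩
    rcases hq.shape6 with h | h | h | h | h
    · exact absurd h.1 hA
    · left; omega
    · omega
    · right; left; omega
    · right; right; omega
  · rw [P5_mu] at hmu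
    refine ⟨fun h => absurd h (by simp [P5]), fun _ => ?_⟩
    rcases hq.shape5 with h | h | h | h | h
    · exact absurd h.1 hA
    · left; omega
    · omega
    · right; left; omega
    · right; right; omega

/-! ### sums over the new classes -/

lemma KXEdge.sum_ge {P : ParX} {N : Finset (Cls V)} {c : Cls V} (hc : c ∈ N) (v : ℤ)
    (h : ∀ c' ∈ N, P.w c' ≤ v) :
    (P.c0 - P.w c) + (P.c0 - v) * ((N.card : ℤ) - 1) ≤ ∑ c' ∈ N, (P.c0 - P.w c') := by
  rw [← Finset.add_sum_erase N _ hc]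
  have h1 : ∀ c' ∈ N.erase c, P.c0 - v ≤ P.c0 - P.w c' := by
    intro c' hc'
    have := h c' (Finset.mem_of_mem_erase hc')
    linarith
  have h2 := Finset.card_nsmul_le_sum (N.erase c) _ _ h1
  rw [nsmul_eq_mul, Finset.card_erase_of_mem hc] at h2
  have h3 := Finset.card_pos.mpr ⟨c, hc⟩
  have h4 : ((N.card - 1 : ℕ) : ℤ) = (N.card : ℤ) - 1 := by omega
  rw [h4] at h2
  linarith [mul_comm ((N.card : ℤ) - 1) (P.c0 - v)]

theorem QX.edge_phi {P : ParX} (hP : P.Ok) {st : St V} (hQ : QX P V st)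
    {U : Finset V} {w z : V} (hU : U.card = 3) (hrU : rk st.p U = 2) (hz : z ∈ U)
    (hw : w ∉ U) (hadj : ∀ u ∈ U, u ≠ z → st.G.Adj w u) (hnadj : ¬ st.G.Adj w z)
    {X : Finset V} (hX : Clo st X) :
    ∃ X', X ⊆ X' ∧ Clo st X' ∧ PhiS P.a P.b st X' ≤ PhiS P.a P.b (st.addEdge w z) X ∧
        (w ∈ X → z ∈ X → U ⊆ X') := by
  by_cases hwX : w ∈ X ∧ z ∈ X
  swap
  · refine ⟨X, subset_rfl, hX, ?_, fun h1 h2 => absurd ⟨h1, h2⟩ hwX⟩
    have h1 : ell (st.addEdge w z).G st.p X = ell st.G st.p X := ell_addEdge_of_notMem _ _ hwX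
    rw [PhiS_addEdge, h1]
    simp
  obtain ⟨hwX, hzX⟩ := hwX
  by_cases hFX : flt st.p U ⊆ X
  · refine ⟨X, subset_rfl, hX, ?_, fun _ _ => (subset_flt _ _).trans hFX⟩
    have hcer : (U.erase z).card = 2 := by rw [Finset.card_erase_of_mem hz, hU]
    have hzC : z ∈ flt st.p (U.erase z) := by
      rw [mem_flt_iff_rk, Finset.insert_erase hz, hrU, hQ.bas.indep (U.erase z) (by omega), hcer]
    have h1 : ell (st.addEdge w z).G st.p X = ell st.G st.p X :=
      ell_add_edge st.G st.p (C := U.erase z)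
        ((Finset.erase_subset _ _).trans ((subset_flt _ _).trans hFX)) hwX
        (fun c hc => hadj c (Finset.mem_of_mem_erase hc) (Finset.ne_of_mem_erase hc)) hzC
    rw [PhiS_addEdge, h1]
    simp
  obtain ⟨X1, c, hc, hX1, hXX1, hFX1, hr1, hone, hcUF, hcN, hN, hbase⟩ :=
    KXEdge.setup hP hQ hU hrU hz hw hadj hX hwX hzX hFX
  suffices h : ∃ X', X1 ⊆ X' ∧ Clo st X' ∧ PhiS P.a P.b st X' ≤ PhiS P.a P.b (st.addEdge w z) X by
    obtain ⟨X', h1, h2, h3⟩ := h
    exact ⟨X', hXX1.trans h1, h2, h3, fun _ _ => ((subset_flt _ _).trans hFX1).trans h1⟩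
  obtain ⟨F, hF⟩ : ∃ F, F = flt st.p U := ⟨_, rfl⟩
  rw [← hF] at hFX hFX1 hone hcUF
  have hUF : U ⊆ F := by rw [hF]; exact subset_flt _ _
  obtain ⟨N1, hN1⟩ : ∃ N1, N1 = st.cin X1 \ st.cin X := ⟨_, rfl⟩
  rw [← hN1] at hcN hN hbase
  -- classes of `N1`
  have hmem : ∀ c' ∈ N1, c' ∈ st.cls ∧ c'.U ⊆ X1 ∧ ∃ u ∈ c'.U, u ∉ X := by
    intro c' hc'
    rw [hN1, Finset.mem_sdiff] at hc'
    obtain ⟨h1, h2⟩ := hc'
    obtain ⟨h3, h4⟩ := Finset.mem_filter.mp h1
    refine ⟨h3, h4, ?_⟩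
    by_contra hcon
    push Not at hcon
    exact h2 (Finset.mem_filter.mpr ⟨h3, hcon⟩)
  have hwle : ∀ c' ∈ N1, P.w c' ≤ P.W := by
    intro c' hc'
    obtain ⟨q, hq⟩ := hQ.past c' (hmem c' hc').1
    exact (hq.w_le hP).2.1
  have hsumW := KXEdge.sum_ge (P := P) hcN P.W hwle
  have hn1 : 1 ≤ N1.card := Finset.card_pos.mpr ⟨c, hcN⟩
  have hn1' : (0 : ℤ) ≤ (N1.card : ℤ) - 1 := by omega
  have hcW := hwle c hcN
  -- `w` is adjacent to a new point
  obtain ⟨u0, hu0, hu0z⟩ : ∃ u ∈ U, u ≠ z := by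
    obtain ⟨a, ha, b, hb, hab⟩ := Finset.one_lt_card.mp (by omega : 1 < U.card)
    by_cases h : a = z
    · exact ⟨b, hb, fun h' => hab (h.trans h'.symm)⟩
    · exact ⟨a, ha, h⟩
  have hu0X : u0 ∉ X := fun h => hu0z (hone u0 (hUF hu0) h)
  have hwadj : ∃ u ∈ X1, u ∉ X ∧ (st.addEdge w z).G.Adj w u :=
    ⟨u0, hFX1 (hUF hu0), hu0X, Or.inl (hadj u0 hu0 hu0z)⟩
  have hAadj : ∀ c' ∈ N1, ∀ v ∈ c'.A, ∃ u ∈ X1, u ∉ X ∧ (st.addEdge w z).G.Adj v u := by
    intro c' hc' v hv
    obtain ⟨h1, h2, u, hu, huX⟩ := hmem c' hc'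
    obtain ⟨q, hq⟩ := hQ.past c' h1
    exact ⟨u, h2 hu, huX, Or.inl (hq.adj v hv u hu).symm⟩
  have hrkw : rk st.p ({w} : Finset V) = 1 := by
    rw [hQ.bas.indep {w} (by simp), Finset.card_singleton]
  have hR1 := KXEdge.ext1 (st.addEdge w z).G st.p hX.1 hX1 hXX1 hr1
    (Finset.singleton_subset_iff.mpr hwX)
    (fun v hv => by rw [Finset.mem_singleton.mp hv]; exact hwadj)
  rw [hrkw] at hR1
  obtain ⟨hR1, hR1'⟩ := hR1
  have hR1c : (ell (st.addEdge w z).G st.p X : ℤ) + 1 ≤ ell (st.addEdge w z).G st.p X1 := by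
    exact_mod_cast hR1
  have hB1 := hbase 1 hR1c
  have hhull := hQ.hull hP hX1
  -- the end of most cases
  have hend : ∀ X2 : Finset V, X1 ⊆ X2 → IsFlat st.p X2 →
      PhiS P.a P.b st X2 ≤ PhiS P.a P.b (st.addEdge w z) X →
      ∃ X', X1 ⊆ X' ∧ Clo st X' ∧ PhiS P.a P.b st X' ≤ PhiS P.a P.b (st.addEdge w z) X := by
    intro X2 h1 h2 h3
    obtain ⟨X', h4, h5, h6⟩ := (hQ.hull hP h2).1
    exact ⟨X', h1.trans h4, h5, h6.trans h3⟩
  -- `A` in `X`
  have hAX : ∀ c' ∈ N1, c'.A ⊆ X → (ell (st.addEdge w z).G st.p X : ℤ)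
      + (rk st.p (insert w c'.A) : ℤ) ≤ ell (st.addEdge w z).G st.p X1 := by
    intro c' hc' hAX
    have h := (KXEdge.ext1 (st.addEdge w z).G st.p hX.1 hX1 hXX1 hr1
      (B := insert w c'.A) (Finset.insert_subset hwX hAX)
      (fun v hv => by
        rcases Finset.mem_insert.mp hv with rfl | hv
        · exact hwadj
        · exact hAadj c' hc' v hv)).1
    exact_mod_cast h
  -- `A` in `X1`, not in `X`
  have hAX1 : ∀ c' ∈ N1, c'.A ⊆ X1 → ¬ c'.A ⊆ X → (ell (st.addEdge w z).G st.p X : ℤ)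
      + 2 ≤ ell (st.addEdge w z).G st.p X1 := by
    intro c' hc' h1 h2
    obtain ⟨h3, h4, u, hu, huX⟩ := hmem c' hc'
    obtain ⟨q, hq⟩ := hQ.past c' h3
    obtain ⟨x, hxA, hxX⟩ := Finset.not_subset.mp h2
    have h := hR1' ⟨x, h1 hxA, u, h4 hu, Or.inl (hq.adj x hxA u hu).symm, huX, hxX⟩
    have h' : (ell (st.addEdge w z).G st.p X : ℤ) + 1 + 1 ≤ ell (st.addEdge w z).G st.p X1 := by
      exact_mod_cast h
    linarith
  by_cases hA : ∃ c' ∈ N1, P.w c' = P.W
  · -- CASE A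
    obtain ⟨c', hc'N, hc'W⟩ := hA
    obtain ⟨hc', hU', u', hu', hu'X⟩ := hmem c' hc'N
    obtain ⟨q, hq⟩ := hQ.past c' hc'
    obtain ⟨hAL, hrA⟩ := hq.w_top hP hc'W
    have hrA' : rk st.p c'.A ≤ 2 := hrA ▸ hq.hist.rk_le c'.A
    by_cases h1 : c'.A ⊆ X1
    · by_cases h2 : c'.A ⊆ X
      · have h3 := hAX c' hc'N h2
        have h4 := hbase _ h3
        refine hend X1 subset_rfl hX1 (h4.trans ?_)
        have hL4 : 4 ≤ P.L := by rcases hP.nums with h | h <;> omega
        have h5 : 2 ≤ rk st.p c'.A := KXEdge.two_le_rk hQ.bas (by omega)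
        have h6 : rk st.p c'.A ≤ rk st.p (insert w c'.A) :=
          rk_mono _ (Finset.subset_insert _ _)
        rcases Nat.lt_or_ge 1 N1.card with h7 | h7
        · have h8 := (KXEdge.numA hP (n := (N1.card : ℤ) - 1)
            (R := (rk st.p (insert w c'.A) : ℤ)) hcW hn1').2.1 (by omega) (by omega)
          linarith
        · have h8 : N1.card = 1 := by omega
          obtain ⟨c'', hc''⟩ := Finset.card_eq_one.mp h8
          have e1 : c = c'' := Finset.mem_singleton.mp (hc'' ▸ hcN)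
          have e2 : c' = c'' := Finset.mem_singleton.mp (hc'' ▸ hc'N)
          have e3 : c' = c := e2.trans e1.symm
          -- `F = U = c.U`
          have h9 : (F.erase z).card ≤ (X1 \ X).card := by
            apply Finset.card_le_card
            intro y hy
            rw [Finset.mem_sdiff]
            refine ⟨hFX1 (Finset.mem_of_mem_erase hy), fun h => ?_⟩
            exact Finset.ne_of_mem_erase hy (hone y (Finset.mem_of_mem_erase hy) h)
          rw [Finset.card_erase_of_mem (hUF hz)] at h9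
          have h10 : c.U = F := by
            apply Finset.eq_of_subset_of_card_le hcUF
            have := (hQ.bas.csize c hc).1
            omega
          have h11 : w ∉ c'.A := by
            intro h
            apply hnadj
            have h12 := hq.adj w h z (by rw [e3, h10]; exact hUF hz)
            exact h12.symm
          have h12 : flt st.p c'.A = c'.A := by
            symm
            apply Finset.eq_of_subset_of_card_le (subset_flt _ _)
            rw [hAL]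
            exact hQ.line _ (flt_isFlat _ _) (by rw [rk_flt]; exact hrA')
          have h13 : rk st.p (insert w c'.A) ≠ rk st.p c'.A := by
            intro h
            have h14 := (mem_flt_iff_rk st.p c'.A w).mpr h
            rw [h12] at h14
            exact h11 h14
          have h14 := (KXEdge.numA hP (n := (N1.card : ℤ) - 1)
            (R := (rk st.p (insert w c'.A) : ℤ)) hcW hn1').2.2.1 (by omega)
          linarith
      · have h3 := hAX1 c' hc'N h1 h2
        have h4 := hbase 2 h3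
        refine hend X1 subset_rfl hX1 (h4.trans ?_)
        have h5 := card_inter_le_one hQ.bas hrA' hX.1 h2
        have h6 := Finset.card_sdiff_add_card_inter c'.A X
        have h7 : (c'.A \ X).card ≤ (X1 \ X).card :=
          Finset.card_le_card (Finset.sdiff_subset_sdiff h1 subset_rfl)
        have hL4 : 4 ≤ P.L := by rcases hP.nums with h | h <;> omega
        have h8 := (KXEdge.numA hP (n := (N1.card : ℤ) - 1) (R := 2) hcW hn1').2.1 (by omega)
          (by omega)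
        linarith
    · obtain ⟨X', h2, h3, h4⟩ := hhull.2 c' hc' hU' hc'W h1
      refine ⟨X', h2, h3, ?_⟩
      have h5 := (KXEdge.numA hP (n := (N1.card : ℤ) - 1) (R := 1) hcW hn1').1 (by omega)
      linarith
  · -- CASE B
    push Not at hA
    have hmu : ∀ c' ∈ N1, P.w c' ≤ P.mu := by
      intro c' hc'
      obtain ⟨q, hq⟩ := hQ.past c' (hmem c' hc').1
      rcases (hq.w_le hP).2.2 with h | h
      · exact absurd h (hA c' hc')
      · exact h
    have hsumM := KXEdge.sum_ge (P := P) hcN P.mu hmu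
    have hcmu := hmu c hcN
    obtain ⟨q, hq⟩ := hQ.past c hc
    by_cases hA0 : c.A = ∅
    · have h1 := (hq.w_zero hP).1.mp hA0
      refine hend X1 subset_rfl hX1 (hB1.trans ?_)
      have h2 := (KXEdge.numA hP (n := (N1.card : ℤ) - 1) (R := 1) hcW hn1').2.2.2.1 le_rfl h1.le
      linarith
    · have hA3 := (hq.w_zero hP).2 hA0
      by_cases h1 : c.A ⊆ X1
      · by_cases h2 : c.A ⊆ X
        · have h3 := hAX c hcN h2
          have h4 := hbase _ h3
          refine hend X1 subset_rfl hX1 (h4.trans ?_)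
          have h5 : 2 ≤ rk st.p c.A := KXEdge.two_le_rk hQ.bas (by omega)
          have h6 : rk st.p c.A ≤ rk st.p (insert w c.A) := rk_mono _ (Finset.subset_insert _ _)
          have h7 := (KXEdge.numA hP (n := (N1.card : ℤ) - 1)
            (R := (rk st.p (insert w c.A) : ℤ)) hcW hn1').2.2.2.2 (by omega) hcmu
          linarith
        · have h3 := hAX1 c hcN h1 h2
          have h4 := hbase 2 h3
          refine hend X1 subset_rfl hX1 (h4.trans ?_)
          have h7 := (KXEdge.numA hP (n := (N1.card : ℤ) - 1) (R := 2) hcW hn1').2.2.2.2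
            le_rfl hcmu
          linarith
      · -- `A` not in `X1`
        have hcUX1 : c.U ⊆ X1 := (hmem c hcN).2.1
        obtain ⟨r, N, M, hr0, hM0, hMN, hr, hNy, hM, hg1, hg2, hg3⟩ :=
          hQ.helper_grow hP hX1 hc hcUX1 hq
        obtain ⟨rs, hs1, hs2, hs3, hs4⟩ := hq.step hP hX1
        have hs2' := hs2 h1
        obtain ⟨X2, hX2⟩ : ∃ X2, X2 = flt st.p (X1 ∪ c.A) := ⟨_, rfl⟩
        rw [← hX2] at hg1 hg2 hg3
        have hX2f : IsFlat st.p X2 := by rw [hX2]; exact flt_isFlat _ _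
        have hX12 : X1 ⊆ X2 := by rw [hX2]; exact subset_union_left.trans (subset_flt _ _)
        have hAX2 : c.A ⊆ X2 := by rw [hX2]; exact subset_union_right.trans (subset_flt _ _)
        -- the edges to the first new dimension
        have hell := (KXEdge.ext1 (st.addEdge w z).G st.p hX.1 hX1 hXX1 hr1
          (B := insert w (c.A ∩ X)) (Finset.insert_subset hwX Finset.inter_subset_right)
          (fun v hv => by
            rcases Finset.mem_insert.mp hv with rfl | hv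
            · exact hwadj
            · exact hAadj c hcN v (Finset.mem_inter.mp hv).1)).1
        obtain ⟨R, hR⟩ : ∃ R : ℤ, R = (rk st.p (insert w (c.A ∩ X)) : ℤ) := ⟨_, rfl⟩
        have hell' : (ell (st.addEdge w z).G st.p X : ℤ) + R
            ≤ ell (st.addEdge w z).G st.p X1 := by
          rw [hR]
          exact_mod_cast hell
        have hbR := hbase R hell'
        have hRone : 1 ≤ R := by
          have h2 : rk st.p ({w} : Finset V) ≤ rk st.p (insert w (c.A ∩ X)) :=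
            rk_mono _ (Finset.singleton_subset_iff.mpr (Finset.mem_insert_self _ _))
          omega
        have hRtwo : 2 ≤ ((c.A ∩ X).card : ℤ) → 2 ≤ R := by
          intro h2
          have h3 : 2 ≤ rk st.p (c.A ∩ X) := KXEdge.two_le_rk hQ.bas (by omega)
          have h4 : rk st.p (c.A ∩ X) ≤ rk st.p (insert w (c.A ∩ X)) :=
            rk_mono _ (Finset.subset_insert _ _)
          omega
        -- cardinalities
        have hcd1 := Finset.card_sdiff_add_card_inter c.A X1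
        have hcd2 := Finset.card_sdiff_add_card_inter (c.A ∩ X1) X
        have hcd3 : (c.A ∩ X1) ∩ X = c.A ∩ X := by
          rw [Finset.inter_assoc, Finset.inter_eq_right.mpr hXX1]
        rw [hcd3] at hcd2
        have hUX2 : 2 ≤ (c.U \ X).card := by
          have h2 := Finset.card_sdiff_add_card_inter c.U X
          have h3 := (hQ.bas.csize c hc).1
          have h4 : (c.U ∩ X).card ≤ 1 := by
            have h5 : c.U ∩ X ⊆ {z} := by
              intro y hy
              rw [Finset.mem_singleton]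
              exact hone y (hcUF (Finset.mem_inter.mp hy).1) (Finset.mem_inter.mp hy).2
            have h6 := Finset.card_le_card h5
            rwa [Finset.card_singleton] at h6
          omega
        have hdisj : Disjoint (c.U \ X) ((c.A ∩ X1) \ X) := by
          rw [Finset.disjoint_left]
          intro v hv1 hv2
          have h2 := (Finset.mem_sdiff.mp hv1).1
          have h3 := (Finset.mem_inter.mp (Finset.mem_sdiff.mp hv2).1).1
          exact (hq.adj v h3 v h2).ne rfl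
        have hpts : (c.U \ X).card + ((c.A ∩ X1) \ X).card ≤ (X1 \ X).card := by
          rw [← Finset.card_union_of_disjoint hdisj]
          apply Finset.card_le_card
          intro v hv
          rcases Finset.mem_union.mp hv with hv | hv
          · have h2 := Finset.mem_sdiff.mp hv
            exact Finset.mem_sdiff.mpr ⟨hcUX1 h2.1, h2.2⟩
          · have h2 := Finset.mem_sdiff.mp hv
            exact Finset.mem_sdiff.mpr ⟨(Finset.mem_inter.mp h2.1).2, h2.2⟩
        have hn : (((c.A ∩ X1) \ X).card : ℤ) ≤ (N1.card : ℤ) - 1 := by omega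
        -- ranks
        have hq1a : 1 ≤ ((c.A ∩ X1).card : ℤ) → 1 ≤ (rk st.p (c.A ∩ X1) : ℤ) := by
          intro h2
          obtain ⟨v, hv⟩ := Finset.card_pos.mp (by omega : 0 < (c.A ∩ X1).card)
          have h3 : rk st.p ({v} : Finset V) ≤ rk st.p (c.A ∩ X1) :=
            rk_mono _ (Finset.singleton_subset_iff.mpr hv)
          rw [hQ.bas.indep {v} (by simp), Finset.card_singleton] at h3
          exact_mod_cast h3
        have hq1b : 2 ≤ ((c.A ∩ X1).card : ℤ) → 2 ≤ (rk st.p (c.A ∩ X1) : ℤ) := by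
          intro h2
          have h3 : 2 ≤ rk st.p (c.A ∩ X1) := KXEdge.two_le_rk hQ.bas (by omega)
          exact_mod_cast h3
        have hshape := KXEdge.shape hP hq hA0 hcmu
        have hsplit : (c.A.card : ℤ) = ((c.A ∩ X).card : ℤ) + (((c.A ∩ X1) \ X).card : ℤ)
            + ((c.A \ X1).card : ℤ) := by
          clear hnadj hadj hbase hmem hwle hsumW hwadj hAadj hhull hend hAX hAX1 hsumM hg1 hg2 hg3
            hell hell' hbR hshape
          omega
        have hsplit2 : ((c.A ∩ X1).card : ℤ)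
            = ((c.A ∩ X).card : ℤ) + (((c.A ∩ X1) \ X).card : ℤ) := by
          clear hnadj hadj hbase hmem hwle hsumW hwadj hAadj hhull hend hAX hAX1 hsumM hg1 hg2 hg3
            hell hell' hbR hshape hsplit
          omega
        have hrrs : r ≤ (rs : ℤ) := by
          rw [hr]
          have : (rk st.p (X1 ∪ c.A) : ℤ) ≤ rk st.p X1 + rs := by exact_mod_cast hs1
          linarith
        have hs3' : (rs : ℤ) + (rk st.p (c.A ∩ X1) : ℤ) ≤ rk q c.A := by exact_mod_cast hs3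
        have hs4' : ((c.A \ X1).card : ℤ) - rs ≤ M := by
          rw [hM]
          have : ((c.A \ X1).card : ℤ) ≤ rs
            + (((st.old c (flt q c.A)).filter fun c' => ¬ c'.U ⊆ X1).card : ℤ) := by
            exact_mod_cast hs4
          linarith
        have hp0 : (0 : ℤ) ≤ ((c.A ∩ X).card : ℤ) := by positivity
        have hp1 : (0 : ℤ) ≤ (((c.A ∩ X1) \ X).card : ℤ) := by positivity
        have hp2 : (0 : ℤ) ≤ ((c.A \ X1).card : ℤ) := by positivity
        have hp3 : (0 : ℤ) ≤ (rk st.p (c.A ∩ X1) : ℤ) := by positivity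
        by_cases hB : ∃ c' ∈ st.old c (flt q c.A), ¬ c'.U ⊆ X1 ∧ P.w c' = P.W
        · obtain ⟨c', hc'old, hc'X1, hc'W⟩ := hB
          obtain ⟨h2, h3, h4⟩ := Finset.mem_filter.mp hc'old
          have hc'U2 : c'.U ⊆ X2 :=
            h4.trans ((hq.hist.flt_subset c.A).trans (hX2f.flt_subset hAX2))
          have hnum := KXEdge.numB1 hP (m := (c.A.card : ℤ)) (rho := (rk q c.A : ℤ))
            (om := P.w c) (n := (N1.card : ℤ) - 1) (R := R) (r := r) (rs := rs) (N := N)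
            (y0 := ((c.A ∩ X).card : ℤ)) (y1 := (((c.A ∩ X1) \ X).card : ℤ))
            (y2 := ((c.A \ X1).card : ℤ)) (q1 := (rk st.p (c.A ∩ X1) : ℤ)) hshape
            hsplit hp0 hp1 hp2 hr0 hrrs hs2' hs3' (fun h => hq1a (hsplit2 ▸ h))
            (fun h => hq1b (hsplit2 ▸ h)) hp3 hNy hn hRone
          by_cases h5 : c'.A ⊆ X2
          · have h6 := hg2 (hQ.top_edge hP hX1 hX12 hc hcUX1 h2 hc'W hc'U2 hc'X1 h5 h3)
            exact hend X2 hX12 hX2f (by linarith)
          · obtain ⟨X', h6, h7, h8⟩ := (hQ.hull hP hX2f).2 c' h2 hc'U2 hc'W h5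
            refine ⟨X', hX12.trans h6, h7, ?_⟩
            have hDb : P.b ≤ P.D := by rcases hP.nums with h | h <;> omega
            linarith
        · push Not at hB
          have hB' : ∀ c' ∈ st.old c (flt q c.A), ¬ c'.U ⊆ X1 → P.w c' ≤ P.mu := by
            intro c' hc' h2
            obtain ⟨q', hq'⟩ := hQ.past c' (Finset.mem_filter.mp hc').1
            rcases (hq'.w_le hP).2.2 with h | h
            · exact absurd h (hB c' hc' h2)
            · exact h
          have h6 := hg3 hB'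
          have hnum := KXEdge.numB2 hP (rho := (rk q c.A : ℤ))
            (om := P.w c) (n := (N1.card : ℤ) - 1) (R := R) (r := r) (rs := rs) (N := N) (M := M)
            (y0 := ((c.A ∩ X).card : ℤ)) (y1 := (((c.A ∩ X1) \ X).card : ℤ))
            (y2 := ((c.A \ X1).card : ℤ)) (q1 := (rk st.p (c.A ∩ X1) : ℤ))
            (by rw [← hsplit]; exact hq.wA) hcmu hp0 hp1 hp2 hr0 hrrs hs2' hs3'
            (fun h => hq1a (by rw [hsplit2]; linarith)) hp3 hNy hs4' hn hRone hRtwo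
          exact hend X2 hX12 hX2f (by linarith)

end MP30c94c
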