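import Mathlib
import Pool.Agent.Lib.MP30c94c.KXBas

/-!
# The exceptional pairs: crude closure and the gains of a closed set
-/

open SimpleGraph Finset

namespace MP30c94c

attribute [local instance] Classical.propDecidable

variable {V : Type} [Fintype V]

/-- the loss of the crude closure at a class of discount `w` -/
private def KXGain_kap (P : ParX) (w : ℤ) : ℤ :=
  if P.k = 6 then (if w = 9 then 3 else if w = 6 then 2 else if w = 2 then 6 else 0)
  else (if w = 2 then 3 else 0)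

private lemma KXGain_kap_nonneg (P : ParX) (w : ℤ) : 0 ≤ KXGain_kap P w := by
  unfold KXGain_kap
  split_ifs <;> norm_num

/-- the modified crude potential -/
private noncomputable def KXGain_psi (P : ParX) (st : St V) (X : Finset V) : ℤ :=
  crude P st X - ∑ c ∈ (st.cin X).filter (fun c => c.A ⊆ X), KXGain_kap P (P.w c)

/-- the gain is `W - w - kap` -/
private lemma KXGain_gain {P : ParX} (hP : P.Ok) {st : St V} {c : Cls V} {q : V → V → ℚ}
    (h : Past P st c q) : P.gain (P.w c) = P.W - P.w c - KXGain_kap P (P.w c) := by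
  rcases hP with rfl | rfl
  · have hk : P6.k = 6 := rfl
    have hW : P6.W = 13 := rfl
    unfold ParX.gain KXGain_kap
    rw [if_pos hk, if_pos hk, hW]
    rcases h.shape6 with ⟨_, _, hw⟩ | ⟨_, _, hw⟩ | ⟨_, _, hw⟩ | ⟨_, _, hw⟩ | ⟨_, _, hw⟩ <;>
      rw [hw] <;> norm_num
  · have hk : ¬ P5.k = 6 := by simp [P5]
    have hW : P5.W = 24 := rfl
    unfold ParX.gain KXGain_kap
    rw [if_neg hk, if_neg hk, hW]
    rcases h.shape5 with ⟨_, _, hw⟩ | ⟨_, _, hw⟩ | ⟨_, _, hw⟩ | ⟨_, _, hw⟩ | ⟨_, _, hw⟩ <;>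
      rw [hw] <;> norm_num

/-- the numerical inequality of one step -/
private lemma KXGain_num {P : ParX} (hP : P.Ok) {st : St V} (hB : Bas 3 st) {c : Cls V}
    {q : V → V → ℚ} (h : Past P st c q) {X : Finset V} (hX : IsFlat st.p X)
    (hA : ¬ c.A ⊆ X) :
    (P.a - 2 * P.b) * ((rk st.p (X ∪ c.A) : ℤ) - rk st.p X)
      - (P.c0 - P.W) * (((c.A \ X).card : ℤ) - ((rk st.p (X ∪ c.A) : ℤ) - rk st.p X)) ≤
      KXGain_kap P (P.w c) := by
  obtain ⟨rs, h1, h2, h3, _⟩ := h.step hP hX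
  have h2' := h2 hA
  have hne : c.A ≠ ∅ := by
    intro he
    exact hA (by rw [he]; exact Finset.empty_subset _)
  have hcard := Finset.card_sdiff_add_card_inter c.A X
  -- the rank of `A ∩ X`
  have hrk : rk st.p (c.A ∩ X) = (c.A ∩ X).card ∨
      (2 ≤ rk st.p (c.A ∩ X) ∧ 2 ≤ (c.A ∩ X).card) := by
    by_cases hc : (c.A ∩ X).card ≤ 2
    · exact Or.inl (hB.indep _ (by omega))
    · right
      refine ⟨?_, by omega⟩
      obtain ⟨Y, hYsub, hYc⟩ := Finset.exists_subset_card_eq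
        (show 2 ≤ (c.A ∩ X).card by omega)
      have h4 := hB.indep Y (by omega)
      rw [← hYc, ← h4]
      exact rk_mono st.p hYsub
  obtain ⟨r, hr⟩ : ∃ r : ℤ, r = (rk st.p (X ∪ c.A) : ℤ) - rk st.p X := ⟨_, rfl⟩
  have hrs : r ≤ rs := by omega
  rw [← hr]
  generalize hy : (c.A \ X).card = y at *
  generalize hz : (c.A ∩ X).card = z at *
  generalize hrz : rk st.p (c.A ∩ X) = rz at *
  rcases hP with rfl | rfl
  · have ha : P6.a = 26 := rfl
    have hb : P6.b = 11 := rfl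
    have hW : P6.W = 13 := rfl
    rw [P6_c0, ha, hb, hW]
    rw [hb, P6_eta] at h2'
    unfold KXGain_kap
    rw [if_pos (show P6.k = 6 from rfl)]
    rcases h.shape6 with ⟨hcA, _, hw⟩ | ⟨hcA, hq, hw⟩ | ⟨hcA, hq, hw⟩ | ⟨hcA, hq, hw⟩ |
      ⟨hcA, hq, hw⟩
    · exact absurd hcA hne
    all_goals
      rw [hw]
      rw [hcA] at hcard
      rw [hq] at h3
      norm_num
      have hrs3 : rs ≤ 3 := by omega
      interval_cases rs <;> omega
  · have ha : P5.a = 49 := rfl
    have hb : P5.b = 22 := rfl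
    have hW : P5.W = 24 := rfl
    rw [P5_c0, ha, hb, hW]
    rw [hb, P5_eta] at h2'
    unfold KXGain_kap
    rw [if_neg (show ¬ P5.k = 6 by simp [P5])]
    rcases h.shape5 with ⟨hcA, _, hw⟩ | ⟨hcA, hq, hw⟩ | ⟨hcA, hq, hw⟩ | ⟨hcA, hq, hw⟩ |
      ⟨hcA, hq, hw⟩
    · exact absurd hcA hne
    all_goals
      rw [hw]
      rw [hcA] at hcard
      rw [hq] at h3
      norm_num
      have hrs3 : rs ≤ 3 := by omega
      interval_cases rs <;> omega

/-- one step of the crude closure -/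
private lemma KXGain_step {P : ParX} (hP : P.Ok) {st : St V} (hQ : QX P V st) {X : Finset V}
    (hX : IsFlat st.p X) {c : Cls V} (hc : c ∈ st.cls) (hU : c.U ⊆ X) (hA : ¬ c.A ⊆ X) :
    KXGain_psi P st (flt st.p (X ∪ c.A)) ≤ KXGain_psi P st X := by
  obtain ⟨q, hq⟩ := hQ.past c hc
  obtain ⟨Z, hZ⟩ : ∃ Z, Z = flt st.p (X ∪ c.A) := ⟨_, rfl⟩
  have hZflat : IsFlat st.p Z := by rw [hZ]; exact flt_isFlat _ _
  have hXZ : X ⊆ Z := by rw [hZ]; exact subset_union_left.trans (subset_flt _ _)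
  have hAZ : c.A ⊆ Z := by rw [hZ]; exact subset_union_right.trans (subset_flt _ _)
  have hrZ : rk st.p Z = rk st.p (X ∪ c.A) := by rw [hZ, rk_flt]
  have hb0 : 0 ≤ P.b := by
    rcases hP.nums with ⟨h1, h2, h3, h4, _⟩ | ⟨h1, h2, h3, h4, _⟩ <;> omega
  have hc0W : 0 ≤ P.c0 - P.W := by
    rcases hP.nums with ⟨h1, h2, h3, h4, h5, h6, h7, h8, h9⟩ |
      ⟨h1, h2, h3, h4, h5, h6, h7, h8, h9⟩ <;> omega
  rw [← hZ]
  have hm := rk_mono st.p (subset_union_left : X ⊆ X ∪ c.A)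
  have hnc := new_card hQ.bas hX hZflat hXZ
  have hext := crude_grow P (st := st) hXZ
  rw [hnc, hrZ] at hext
  have hD : ∀ v ∈ c.U, ∀ d ∈ c.A, d ∈ flt st.p (X ∪ Z.filter fun c => st.G.Adj v c) := by
    intro v hv d hd
    apply subset_flt
    rw [Finset.mem_union, Finset.mem_filter]
    exact Or.inr ⟨hAZ hd, hq.adj d hd v hv⟩
  have hrU : rk st.p c.U = 2 := (hQ.bas.csize c hc).2
  have hell : (ell st.G st.p X : ℤ) + 2 * ((rk st.p (X ∪ c.A) : ℤ) - rk st.p X)
      ≤ ell st.G st.p Z := by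
    have h1 := ell_ext st.G st.p (X := X) (Z := Z) (B := c.U) (D := c.A) hXZ hU hD
    rw [hrU] at h1
    have hr' : ((rk st.p (X ∪ c.A) - rk st.p X : ℕ) : ℤ) =
      (rk st.p (X ∪ c.A) : ℤ) - rk st.p X := by omega
    rw [← hr']
    exact_mod_cast h1
  have hAX : ((c.A \ X).card : ℤ) ≤ ((Z \ X).card : ℤ) := by
    exact_mod_cast Finset.card_le_card (Finset.sdiff_subset_sdiff hAZ subset_rfl)
  have hnum := KXGain_num hP hQ.bas hq hX hA
  -- the sums
  have hsub : insert c ((st.cin X).filter (fun c => c.A ⊆ X)) ⊆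
      (st.cin Z).filter (fun c => c.A ⊆ Z) := by
    intro c' hc'
    rcases Finset.mem_insert.1 hc' with rfl | hc'
    · exact Finset.mem_filter.2 ⟨Finset.mem_filter.2 ⟨hc, hU.trans hXZ⟩, hAZ⟩
    · obtain ⟨h1, h2⟩ := Finset.mem_filter.1 hc'
      exact Finset.mem_filter.2 ⟨cin_mono st hXZ h1, h2.trans hXZ⟩
  have hnot : c ∉ (st.cin X).filter (fun c => c.A ⊆ X) := fun h =>
    hA (Finset.mem_filter.1 h).2
  have hsum := Finset.sum_le_sum_of_subset_of_nonneg hsub
    (f := fun c => KXGain_kap P (P.w c)) (fun c' _ _ => KXGain_kap_nonneg P _)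
  rw [Finset.sum_insert hnot] at hsum
  unfold KXGain_psi
  have h1 := mul_le_mul_of_nonneg_left hell hb0
  have h2 := mul_le_mul_of_nonneg_left hAX hc0W
  rw [hext]
  linarith

/-- crude closure -/
theorem QX.crude_hull {P : ParX} (hP : P.Ok) {st : St V} (hQ : QX P V st) {X : Finset V}
    (hX : IsFlat st.p X) :
    ∃ Z, X ⊆ Z ∧ Clo st Z ∧ PhiS P.a P.b st Z + ∑ c ∈ st.cin Z, P.gain (P.w c) ≤ crude P st X := by
  have key : ∀ (n : ℕ) (Y : Finset V), (univ \ Y).card = n → IsFlat st.p Y →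
      ∃ Z, Y ⊆ Z ∧ Clo st Z ∧ PhiS P.a P.b st Z + ∑ c ∈ st.cin Z, P.gain (P.w c) ≤
        KXGain_psi P st Y := by
    intro n
    induction n using Nat.strong_induction_on with
    | _ n ih =>
      intro Y hn hY
      by_cases hcl : Clo st Y
      · refine ⟨Y, subset_rfl, hcl, ?_⟩
        have h1 := PhiS_eq_crude P hQ.bas hY
        have h2 : (st.cin Y).filter (fun c => c.A ⊆ Y) = st.cin Y := by
          refine Finset.filter_true_of_mem (fun c hc => ?_)
          obtain ⟨h3, h4⟩ := Finset.mem_filter.1 hc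
          exact hcl.2 c h3 h4
        unfold KXGain_psi
        rw [h2, h1]
        have h3 : ∑ c ∈ st.cin Y, P.gain (P.w c) =
            ∑ c ∈ st.cin Y, (P.W - P.w c) - ∑ c ∈ st.cin Y, KXGain_kap P (P.w c) := by
          rw [← Finset.sum_sub_distrib]
          refine Finset.sum_congr rfl (fun c hc => ?_)
          obtain ⟨q, hq⟩ := hQ.past c (cin_subset _ _ hc)
          exact KXGain_gain hP hq
        rw [h3]
        linarith
      · have hex : ∃ c ∈ st.cls, c.U ⊆ Y ∧ ¬ c.A ⊆ Y := by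
          by_contra hcon
          apply hcl
          refine ⟨hY, fun c hc hU => ?_⟩
          by_contra hA
          exact hcon ⟨c, hc, hU, hA⟩
        obtain ⟨c, hc, hU, hA⟩ := hex
        have hsub : Y ⊆ flt st.p (Y ∪ c.A) := subset_union_left.trans (subset_flt _ _)
        have hAsub : c.A ⊆ flt st.p (Y ∪ c.A) := subset_union_right.trans (subset_flt _ _)
        obtain ⟨x, hxA, hxY⟩ := Finset.not_subset.1 hA
        have hlt : (univ \ flt st.p (Y ∪ c.A)).card < n := by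
          rw [← hn]
          apply Finset.card_lt_card
          rw [Finset.ssubset_iff_of_subset (Finset.sdiff_subset_sdiff subset_rfl hsub)]
          exact ⟨x, Finset.mem_sdiff.2 ⟨Finset.mem_univ _, hxY⟩,
            fun h => (Finset.mem_sdiff.1 h).2 (hAsub hxA)⟩
        obtain ⟨Z, h1, h2, h3⟩ := ih _ hlt _ rfl (flt_isFlat _ _)
        exact ⟨Z, hsub.trans h1, h2, h3.trans (KXGain_step hP hQ hY hc hU hA)⟩
  obtain ⟨Z, h1, h2, h3⟩ := key _ X rfl hX
  refine ⟨Z, h1, h2, h3.trans ?_⟩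
  unfold KXGain_psi
  have h4 : 0 ≤ ∑ c ∈ (st.cin X).filter (fun c => c.A ⊆ X), KXGain_kap P (P.w c) :=
    Finset.sum_nonneg fun c _ => KXGain_kap_nonneg P _
  linarith

end MP30c94c
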