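import Mathlib
import Pool.Agent.Lib.MP30c94c.KXBas

/-!
# The pair `(3,6)`: the gains of a closed set
-/

open SimpleGraph Finset

namespace MP30c94c

attribute [local instance] Classical.propDecidable

variable {V : Type} [Fintype V]

omit [Fintype V] in
/-- the helpers and the active set of a class are disjoint -/
private lemma sum5_disj {st : St V} {c : Cls V} {q : V → V → ℚ} (h : Past P5 st c q) :
    Disjoint c.A c.U := by
  rw [Finset.disjoint_left]
  intro x hx hx'
  exact (h.adj x hx x hx').ne rfl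

/-- the older classes of a nonzero class -/
private lemma sum5_old {st : St V} (hQ : QX P5 V st) {Z : Finset V} (hZ : Clo st Z) {c : Cls V}
    (hc : c ∈ st.cin Z) (hA : c.A ≠ ∅) :
    ∃ (O : Finset (Cls V)) (ρ : ℕ) (E : Finset V), O ⊆ (st.cin Z).filter (fun c' => c'.t < c.t) ∧
      1 ≤ O.card ∧ E.card = ρ + O.card ∧ ρ ≤ 3 ∧ (∀ c' ∈ O, c'.U ⊆ E) ∧
      (O.card ≤ 1 → P5.w c = 7 ∧ ∃ c' ∈ O, c.A = c'.U) := by
  have hc' : c ∈ st.cls ∧ c.U ⊆ Z := by
    simpa [St.cin] using hc
  obtain ⟨q, hq⟩ := hQ.past c hc'.1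
  have hAZ : c.A ⊆ Z := hZ.2 c hc'.1 hc'.2
  have hcount := hq.count (flt q c.A) (flt_isFlat q c.A)
  rw [rk_flt] at hcount
  have hsub := hq.old_subset hZ.1 hAZ
  have hle : c.A.card ≤ (flt q c.A).card := Finset.card_le_card (subset_flt q c.A)
  have hshape := hq.shape5
  have hA0 : c.A.card ≠ 0 := fun h => hA (Finset.card_eq_zero.1 h)
  refine ⟨st.old c (flt q c.A), rk q c.A, flt q c.A, hsub, ?_, hcount, ?_, ?_, ?_⟩
  · rcases hshape with h | h | h | h | h
    · exact absurd h.1 hA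
    all_goals omega
  · rcases hshape with h | h | h | h | h <;> omega
  · intro c' hc'
    have h1 : c' ∈ st.cls ∧ c'.t < c.t ∧ c'.U ⊆ flt q c.A := by
      simpa [St.old] using hc'
    exact h1.2.2
  · intro h1
    have h2 : (st.old c (flt q c.A)).card = 1 := by
      rcases hshape with h | h | h | h | h
      · exact absurd h.1 hA
      all_goals omega
    obtain ⟨c', hc'⟩ := Finset.card_eq_one.1 h2
    have h3 : c.A ⊆ c'.U := by
      intro x hx
      obtain ⟨c'', hc'', hx'⟩ := hq.cover (Or.inr rfl) hx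
      rw [hc', Finset.mem_singleton] at hc''
      rw [← hc'']
      exact hx'
    have h4 : c' ∈ st.cls := by
      have h5 : c' ∈ st.old c (flt q c.A) := by rw [hc']; exact Finset.mem_singleton_self _
      have h6 : c' ∈ st.cls ∧ c'.t < c.t ∧ c'.U ⊆ flt q c.A := by
        simpa [St.old] using h5
      exact h6.1
    have h5 := (hQ.bas.csize c' h4).1
    have h6 := Finset.card_le_card h3
    have h7 : c.A = c'.U := by
      refine Finset.eq_of_subset_of_card_le h3 ?_
      rcases hshape with h | h | h | h | h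
      · exact absurd h.1 hA
      all_goals omega
    refine ⟨?_, c', by rw [hc']; exact Finset.mem_singleton_self _, h7⟩
    rcases hshape with h | h | h | h | h
    · exact absurd h.1 hA
    · exact h.2.2
    all_goals omega

theorem QX.gain5 {st : St V} (hQ : QX P5 V st) {Z : Finset V} (hZ : Clo st Z) :
    (1 ≤ (st.cin Z).card → 24 ≤ ∑ c ∈ st.cin Z, P5.gain (P5.w c)) ∧
    (2 ≤ (st.cin Z).card → 41 ≤ ∑ c ∈ st.cin Z, P5.gain (P5.w c)) ∧
    (3 ≤ (st.cin Z).card → 48 ≤ ∑ c ∈ st.cin Z, P5.gain (P5.w c)) := by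
  set C := st.cin Z with hC
  have hCc : ∀ c ∈ C, c ∈ st.cls := by
    intro c hc
    have h1 : c ∈ st.cls ∧ c.U ⊆ Z := by
      simpa [hC, St.cin] using hc
    exact h1.1
  have hk : ¬ P5.k = 6 := by simp [P5]
  have g0 : P5.gain 0 = 24 := by simp [ParX.gain, hk]
  have g7 : P5.gain 7 = 17 := by simp [ParX.gain, hk]
  have hnn : ∀ c ∈ C, 0 ≤ P5.gain (P5.w c) := by
    intro c hc
    obtain ⟨q, hq⟩ := hQ.past c (hCc c hc)
    rcases hq.shape5 with h | h | h | h | h <;> rw [h.2.2] <;> simp [ParX.gain, hk]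
  have hz : ∀ c ∈ C, c.A = ∅ → P5.w c = 0 := by
    intro c hc hA
    obtain ⟨q, hq⟩ := hQ.past c (hCc c hc)
    exact (hq.w_zero (Or.inr rfl)).1.1 hA
  -- the sum over a subset is a lower bound
  have hsum : ∀ D : Finset (Cls V), D ⊆ C →
      ∑ c ∈ D, P5.gain (P5.w c) ≤ ∑ c ∈ C, P5.gain (P5.w c) := by
    intro D hD
    exact Finset.sum_le_sum_of_subset_of_nonneg hD fun c hc _ => hnn c hc
  set Z0 := C.filter fun c => c.A = ∅ with hZ0
  set N0 := C.filter fun c => ¬ c.A = ∅ with hN0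
  have hcard : Z0.card + N0.card = C.card := Finset.card_filter_add_card_filter_not _
  have hsZ0 : ∑ c ∈ Z0, P5.gain (P5.w c) = 24 * Z0.card := by
    rw [Finset.sum_congr rfl (g := fun _ => (24 : ℤ)), Finset.sum_const, nsmul_eq_mul, mul_comm]
    intro c hc
    have h1 := Finset.mem_filter.1 hc
    rw [hz c h1.1 h1.2, g0]
  have hZ0sum := hsum Z0 (Finset.filter_subset _ _)
  rw [hsZ0] at hZ0sum
  by_cases hz2 : 2 ≤ Z0.card
  · refine ⟨fun _ => ?_, fun _ => ?_, fun _ => ?_⟩ <;> omega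
  push Not at hz2
  by_cases hn0 : N0 = ∅
  · rw [hn0, Finset.card_empty, add_zero] at hcard
    refine ⟨fun h => ?_, fun h => ?_, fun h => ?_⟩ <;> omega
  -- the oldest nonzero class
  obtain ⟨c1, hc1, hmin1⟩ := Finset.exists_min_image N0 (fun c => c.t)
    (Finset.nonempty_iff_ne_empty.2 hn0)
  have hc1' := Finset.mem_filter.1 hc1
  obtain ⟨O1, ρ1, E1, hO1, hO1c, hE1, hρ1, hU1, hw1⟩ := sum5_old hQ hZ hc1'.1 hc1'.2
  have hO1Z : O1 ⊆ Z0 := by
    intro c hc
    have h1 := Finset.mem_filter.1 (hO1 hc)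
    by_contra hcon
    have h2 : c ∈ N0 := Finset.mem_filter.2 ⟨h1.1, fun h => hcon (Finset.mem_filter.2 ⟨h1.1, h⟩)⟩
    have h3 := hmin1 c h2
    have h4 := h1.2
    omega
  have hO1Zc := Finset.card_le_card hO1Z
  obtain ⟨hw1', z1, hz1, hAz1⟩ := hw1 (by omega)
  have hO1eq : O1 = {z1} := by
    obtain ⟨x, hx⟩ := Finset.card_eq_one.1 (show O1.card = 1 by omega)
    rw [hx, Finset.mem_singleton] at hz1
    rw [hx, hz1]
  have hZ0eq : Z0 = {z1} := by
    have h1 : O1 = Z0 := Finset.eq_of_subset_of_card_le hO1Z (by omega)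
    rw [← h1, hO1eq]
  have hz1Z : z1 ∈ Z0 := hO1Z hz1
  have hz1C := (Finset.mem_filter.1 hz1Z).1
  have hz1w := hz z1 hz1C (Finset.mem_filter.1 hz1Z).2
  have hne1 : z1 ≠ c1 := by
    rintro rfl
    exact hc1'.2 (Finset.mem_filter.1 hz1Z).2
  have h41 : 41 ≤ ∑ c ∈ C, P5.gain (P5.w c) := by
    have h1 := hsum {z1, c1} (by
      intro c hc
      rw [Finset.mem_insert, Finset.mem_singleton] at hc
      rcases hc with rfl | rfl
      · exact hz1C
      · exact hc1'.1)
    rw [Finset.sum_pair hne1, hz1w, hw1', g0, g7] at h1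
    exact h1
  refine ⟨fun _ => by omega, fun _ => h41, fun h3 => ?_⟩
  have hN2 : 2 ≤ N0.card := by
    rw [hZ0eq, Finset.card_singleton] at hcard
    omega
  have hne : (N0.erase c1).Nonempty := by
    rw [← Finset.card_pos, Finset.card_erase_of_mem hc1]
    omega
  obtain ⟨c2, hc2, hmin2⟩ := Finset.exists_min_image (N0.erase c1) (fun c => c.t) hne
  have hc2' := Finset.mem_erase.1 hc2
  have hc2'' := Finset.mem_filter.1 hc2'.2
  obtain ⟨O2, ρ2, E2, hO2, hO2c, hE2, hρ2, hU2, hw2⟩ := sum5_old hQ hZ hc2''.1 hc2''.2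
  have hO2s : O2 ⊆ {z1, c1} := by
    intro c hc
    have h1 := Finset.mem_filter.1 (hO2 hc)
    rw [Finset.mem_insert, Finset.mem_singleton]
    by_contra hcon
    push Not at hcon
    have h2 : c ∈ N0.erase c1 := by
      refine Finset.mem_erase.2 ⟨hcon.2, Finset.mem_filter.2 ⟨h1.1, fun h => hcon.1 ?_⟩⟩
      have h3 : c ∈ Z0 := Finset.mem_filter.2 ⟨h1.1, h⟩
      rw [hZ0eq, Finset.mem_singleton] at h3
      exact h3
    have h3 := hmin2 c h2
    have h4 := h1.2
    omega
  have hO2le : O2.card ≤ 1 := by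
    by_contra hcon
    have h1 : O2 = {z1, c1} := by
      refine Finset.eq_of_subset_of_card_le hO2s ?_
      rw [Finset.card_pair hne1]
      omega
    have h2 : z1.U ⊆ E2 := hU2 z1 (by rw [h1]; simp)
    have h3 : c1.U ⊆ E2 := hU2 c1 (by rw [h1]; simp)
    obtain ⟨q, hq⟩ := hQ.past c1 (hCc c1 hc1'.1)
    have h4 := sum5_disj hq
    rw [hAz1] at h4
    have h5 := Finset.card_union_of_disjoint h4
    have h6 := Finset.card_le_card (Finset.union_subset h2 h3)
    have h7 := (hQ.bas.csize z1 (hCc z1 hz1C)).1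
    have h8 := (hQ.bas.csize c1 (hCc c1 hc1'.1)).1
    rw [h1, Finset.card_pair hne1] at hE2
    omega
  obtain ⟨hw2', _⟩ := hw2 hO2le
  have hne2 : z1 ≠ c2 := by
    rintro rfl
    exact hc2''.2 (Finset.mem_filter.1 hz1Z).2
  have h1 := hsum {z1, c1, c2} (by
    intro c hc
    rw [Finset.mem_insert, Finset.mem_insert, Finset.mem_singleton] at hc
    rcases hc with rfl | rfl | rfl
    · exact hz1C
    · exact hc1'.1
    · exact hc2''.1)
  rw [Finset.sum_insert (by
    rw [Finset.mem_insert, Finset.mem_singleton]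
    push Not
    exact ⟨hne1, hne2⟩), Finset.sum_pair (Ne.symm hc2'.1), hz1w, hw1', hw2', g0, g7] at h1
  omega

end MP30c94c
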