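import Mathlib
import Pool.Agent.Lib.MP30c94c.KXBas

/-!
# The pair `(3,7)`: the gains of a closed set
-/

open SimpleGraph Finset

namespace MP30c94c

attribute [local instance] Classical.propDecidable

variable {V : Type} [Fintype V]

private lemma g6_0 : P6.gain 0 = 13 := by simp [ParX.gain, P6]
private lemma g6_6 : P6.gain 6 = 5 := by simp [ParX.gain, P6]
private lemma g6_2 : P6.gain 2 = 5 := by simp [ParX.gain, P6]
private lemma g6_13 : P6.gain 13 = 0 := by simp [ParX.gain, P6]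
private lemma g6_9 : P6.gain 9 = 1 := by simp [ParX.gain, P6]

/-- what is used about a class in a closed set -/
private lemma info6 {st : St V} (hQ : QX P6 V st) {Z : Finset V} (hZ : Clo st Z) {c : Cls V}
    (hc : c ∈ st.cin Z) :
    ∃ (E : Finset V) (O : Finset (Cls V)) (ρ : ℕ),
      (∀ c' ∈ O, c' ∈ st.cin Z ∧ c'.t < c.t) ∧
      E.card = ρ + O.card ∧ c.A ⊆ E ∧ (∀ c' ∈ O, c'.U ⊆ E) ∧
      (∀ x ∈ c.A, ∃ c' ∈ O, x ∈ c'.U) ∧ (∀ x ∈ c.A, x ∉ c.U) ∧ ρ ≤ 3 ∧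
      0 ≤ P6.gain (P6.w c) ∧
      (P6.w c ≠ 0 → (P6.gain (P6.w c) = 5 ∧ c.A.card = ρ + 2) ∨ c.A.card = ρ + 3) := by
  obtain ⟨hc1, hc2⟩ := Finset.mem_filter.mp hc
  obtain ⟨q, hq⟩ := hQ.past c hc1
  have hA : c.A ⊆ Z := hZ.2 c hc1 hc2
  refine ⟨flt q c.A, st.old c (flt q c.A), rk q c.A, ?_, ?_, subset_flt _ _, ?_, ?_, ?_, ?_⟩
  · intro c' hc'
    exact Finset.mem_filter.mp (hq.old_subset hZ.1 hA hc')
  · have h := hq.count (flt q c.A) (flt_isFlat _ _)
    rwa [rk_flt] at h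
  · intro c' hc'
    exact (Finset.mem_filter.mp hc').2.2
  · intro x hx
    exact hq.cover (Or.inl rfl) hx
  · intro x hx hxU
    exact (hq.adj x hx x hxU).ne rfl
  · rcases hq.shape6 with ⟨h1, h2, h3⟩ | ⟨h1, h2, h3⟩ | ⟨h1, h2, h3⟩ | ⟨h1, h2, h3⟩ |
      ⟨h1, h2, h3⟩
    · rw [h3, g6_0]
      exact ⟨by omega, by norm_num, fun h => absurd rfl h⟩
    · rw [h3, g6_6]
      exact ⟨by omega, by norm_num, fun _ => Or.inl ⟨rfl, by omega⟩⟩
    · rw [h3, g6_13]
      exact ⟨by omega, by norm_num, fun _ => Or.inr (by omega)⟩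
    · rw [h3, g6_2]
      exact ⟨by omega, by norm_num, fun _ => Or.inl ⟨rfl, by omega⟩⟩
    · rw [h3, g6_9]
      exact ⟨by omega, by norm_num, fun _ => Or.inr (by omega)⟩

/-- the union of the triples of different classes -/
private lemma union6 {st : St V} (hB : Bas 3 st) {O : Finset (Cls V)} (hO : O ⊆ st.cls)
    {S : Finset V} (hS : ∀ c ∈ O, c.U ⊆ S) :
    (1 ≤ O.card → 3 ≤ S.card) ∧ (2 ≤ O.card → 4 ≤ S.card) := by
  constructor
  · intro h
    obtain ⟨c, hc⟩ := Finset.card_pos.mp h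
    have h1 := (hB.csize c (hO hc)).1
    have h2 := Finset.card_le_card (hS c hc)
    omega
  · intro h
    obtain ⟨c, hc, c', hc', hne⟩ := Finset.one_lt_card.mp h
    have h1 := (hB.csize c (hO hc)).1
    have h1' := (hB.csize c' (hO hc')).1
    by_contra hcon
    have h2 := Finset.card_le_card (hS c hc)
    have h3 : c.U = S := Finset.eq_of_subset_of_card_le (hS c hc) (by omega)
    have h4 : c'.U = S := Finset.eq_of_subset_of_card_le (hS c' hc') (by omega)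
    exact hne (hB.inj c (hO hc) c' (hO hc') (h3.trans h4.symm))

/-- the number of points of a set containing classes in `K` and classes disjoint from `K` -/
private lemma count6 {st : St V} (hB : Bas 3 st) {O Zr : Finset (Cls V)} (hO : O ⊆ st.cls)
    {E K : Finset V} (hE : ∀ c ∈ O, c.U ⊆ E) (hK : ∀ c ∈ Zr, c.U ⊆ K)
    (hK' : ∀ c ∈ O, c ∉ Zr → ∀ x ∈ K, x ∉ c.U) :
    ∃ m m' e e' : ℕ, m = (O ∩ Zr).card ∧ m' = (O \ Zr).card ∧ O.card = m + m' ∧
      E.card = e + e' ∧ (1 ≤ m → 3 ≤ e) ∧ (2 ≤ m → 4 ≤ e) ∧ (1 ≤ m' → 3 ≤ e') ∧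
      (2 ≤ m' → 4 ≤ e') := by
  have h1 := union6 hB (O := O ∩ Zr) (Finset.inter_subset_left.trans hO) (S := E ∩ K) (by
    intro c hc
    obtain ⟨h1, h2⟩ := Finset.mem_inter.mp hc
    exact Finset.subset_inter (hE c h1) (hK c h2))
  have h2 := union6 hB (O := O \ Zr) (Finset.sdiff_subset.trans hO) (S := E \ K) (by
    intro c hc x hx
    obtain ⟨h1, h2⟩ := Finset.mem_sdiff.mp hc
    exact Finset.mem_sdiff.mpr ⟨hE c h1 hx, fun h => hK' c h1 h2 x h hx⟩)
  refine ⟨_, _, (E ∩ K).card, (E \ K).card, rfl, rfl, ?_, ?_, h1.1, h1.2, h2.1, h2.2⟩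
  · exact (Finset.card_inter_add_card_sdiff O Zr).symm
  · exact (Finset.card_inter_add_card_sdiff E K).symm

theorem QX.gain6 {st : St V} (hQ : QX P6 V st) {Z : Finset V} (hZ : Clo st Z) :
    (1 ≤ (st.cin Z).card → 13 ≤ ∑ c ∈ st.cin Z, P6.gain (P6.w c)) ∧
    (2 ≤ (st.cin Z).card → 26 ≤ ∑ c ∈ st.cin Z, P6.gain (P6.w c)) ∧
    (3 ≤ (st.cin Z).card → 31 ≤ ∑ c ∈ st.cin Z, P6.gain (P6.w c)) ∧
    (4 ≤ (st.cin Z).card → 36 ≤ ∑ c ∈ st.cin Z, P6.gain (P6.w c)) ∧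
    (5 ≤ (st.cin Z).card → 39 ≤ ∑ c ∈ st.cin Z, P6.gain (P6.w c)) := by
  have hsub : st.cin Z ⊆ st.cls := cin_subset st Z
  obtain ⟨Zr, hZr⟩ : ∃ Zr, Zr = (st.cin Z).filter fun c => P6.w c = 0 := ⟨_, rfl⟩
  obtain ⟨N, hN⟩ : ∃ N, N = (st.cin Z).filter fun c => ¬ P6.w c = 0 := ⟨_, rfl⟩
  have hcard : (st.cin Z).card = Zr.card + N.card := by
    rw [hZr, hN]
    exact (Finset.card_filter_add_card_filter_not _).symm
  have hsum : ∑ c ∈ st.cin Z, P6.gain (P6.w c)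
      = 13 * (Zr.card : ℤ) + ∑ c ∈ N, P6.gain (P6.w c) := by
    rw [← Finset.sum_filter_add_sum_filter_not (st.cin Z) (fun c => P6.w c = 0), ← hZr, ← hN]
    congr 1
    rw [Finset.sum_congr rfl (g := fun _ => (13 : ℤ)) (fun c hc => by
      rw [hZr] at hc
      rw [(Finset.mem_filter.mp hc).2, g6_0]), Finset.sum_const, nsmul_eq_mul]
    ring
  have hNC : ∀ c ∈ N, c ∈ st.cin Z := fun c hc => by
    rw [hN] at hc
    exact (Finset.mem_filter.mp hc).1
  have hNw : ∀ c ∈ N, P6.w c ≠ 0 := fun c hc => by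
    rw [hN] at hc
    exact (Finset.mem_filter.mp hc).2
  have hZC : ∀ c ∈ Zr, c ∈ st.cin Z := fun c hc => by
    rw [hZr] at hc
    exact (Finset.mem_filter.mp hc).1
  have hZN : ∀ c ∈ st.cin Z, c ∉ Zr → c ∈ N := fun c hc h => by
    rw [hZr, Finset.mem_filter] at h
    rw [hN, Finset.mem_filter]
    exact ⟨hc, fun h' => h ⟨hc, h'⟩⟩
  have hg0 : ∀ c ∈ N, 0 ≤ P6.gain (P6.w c) := fun c hc => by
    obtain ⟨_, _, _, _, _, _, _, _, _, _, h, _⟩ := info6 hQ hZ (hNC c hc)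
    exact h
  rw [hsum]
  rcases N.eq_empty_or_nonempty with hNe | hNne
  · rw [hNe] at hcard ⊢
    rw [Finset.sum_empty]
    rw [Finset.card_empty] at hcard
    omega
  -- the oldest class with a helper
  obtain ⟨c1, hc1, hmin1⟩ := Finset.exists_min_image N (fun c => c.t) hNne
  have hsum1 := Finset.add_sum_erase N (fun c => P6.gain (P6.w c)) hc1
  obtain ⟨E1, O1, ρ1, hO1, hE1, hAE1, hUE1, hcov1, hdis1, hρ1, hg1, hw1⟩ := info6 hQ hZ (hNC c1 hc1)
  have hw1 := hw1 (hNw c1 hc1)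
  have hO1Z : O1 ⊆ Zr := by
    intro c hc
    by_contra h
    have h1 := hmin1 c (hZN c (hO1 c hc).1 h)
    have h2 := (hO1 c hc).2
    omega
  have hAE1' := Finset.card_le_card hAE1
  have hO1c := Finset.card_le_card hO1Z
  have hZr2 : 2 ≤ Zr.card := by omega
  have hr1 : 0 ≤ ∑ c ∈ N.erase c1, P6.gain (P6.w c) :=
    Finset.sum_nonneg fun c hc => hg0 c (Finset.mem_of_mem_erase hc)
  by_cases hZr3 : 3 ≤ Zr.card
  · rw [← hsum1]
    omega
  have hZr2' : Zr.card = 2 := by omega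
  -- a class whose past consists of the two zero classes
  obtain ⟨K, hK⟩ : ∃ K, K = Zr.biUnion fun c => c.U := ⟨_, rfl⟩
  have hZK : ∀ c ∈ Zr, c.U ⊆ K := by
    intro c hc
    rw [hK]
    exact Finset.subset_biUnion_of_mem (fun c => c.U) hc
  have hlev : ∀ c ∈ N, ∀ (E : Finset V) (O : Finset (Cls V)) (ρ : ℕ),
      E.card = ρ + O.card → c.A ⊆ E → (∀ c' ∈ O, c'.U ⊆ E) →
      (∀ x ∈ c.A, ∃ c' ∈ O, x ∈ c'.U) → (∀ x ∈ c.A, x ∉ c.U) →
      ((P6.gain (P6.w c) = 5 ∧ c.A.card = ρ + 2) ∨ c.A.card = ρ + 3) → O = Zr →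
      P6.gain (P6.w c) = 5 ∧ ∀ x ∈ K, x ∉ c.U := by
    intro c hc E O ρ h1 h2 h3 h4 h5 h6 h7
    rw [h7] at h1 h3
    have h8 := Finset.card_le_card h2
    rcases h6 with ⟨h6, h9⟩ | h9
    · refine ⟨h6, fun x hx => h5 x ?_⟩
      have h10 : c.A = E := Finset.eq_of_subset_of_card_le h2 (by omega)
      rw [hK, Finset.mem_biUnion] at hx
      obtain ⟨c', hc', hx⟩ := hx
      rw [h10]
      exact h3 c' hc' hx
    · omega
  have hO1e : O1 = Zr := Finset.eq_of_subset_of_card_le hO1Z (by omega)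
  obtain ⟨hG1, hK1⟩ := hlev c1 hc1 E1 O1 ρ1 hE1 hAE1 hUE1 hcov1 hdis1 hw1 hO1e
  rw [← hsum1]
  rcases (N.erase c1).eq_empty_or_nonempty with hN2 | hN2
  · have h1 := Finset.card_erase_of_mem hc1
    rw [hN2, Finset.card_empty] at h1
    rw [hG1]
    omega
  -- the second class with a helper
  obtain ⟨c2, hc2, hmin2⟩ := Finset.exists_min_image (N.erase c1) (fun c => c.t) hN2
  have hc2N := Finset.mem_of_mem_erase hc2
  have hsum2 := Finset.add_sum_erase (N.erase c1) (fun c => P6.gain (P6.w c)) hc2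
  obtain ⟨E2, O2, ρ2, hO2, hE2, hAE2, hUE2, hcov2, hdis2, hρ2, hg2, hw2⟩ :=
    info6 hQ hZ (hNC c2 hc2N)
  have hw2 := hw2 (hNw c2 hc2N)
  have hAE2' := Finset.card_le_card hAE2
  have hO2d : O2 \ Zr ⊆ {c1} := by
    intro c hc
    obtain ⟨h1, h2⟩ := Finset.mem_sdiff.mp hc
    rw [Finset.mem_singleton]
    by_contra h
    have h3 := hmin2 c (Finset.mem_erase.mpr ⟨h, hZN c (hO2 c h1).1 h2⟩)
    have h4 := (hO2 c h1).2
    omega
  have hO2e : O2 = Zr := by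
    obtain ⟨m, m', e, e', h1, h2, h3, h4, h5, h6, h7, h8⟩ := count6 hQ.bas (O := O2) (Zr := Zr)
      (fun c hc => hsub (hO2 c hc).1) (E := E2) (K := K) hUE2 hZK (by
        intro c hc hcZ
        have h := Finset.mem_singleton.mp (hO2d (Finset.mem_sdiff.mpr ⟨hc, hcZ⟩))
        rw [h]
        exact hK1)
    have h9 := Finset.card_le_card hO2d
    rw [Finset.card_singleton] at h9
    have h10 := Finset.card_le_card (Finset.inter_subset_right : O2 ∩ Zr ⊆ Zr)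
    have h11 : m' = 0 := by omega
    have h12 : O2 ⊆ Zr := by
      rw [← Finset.sdiff_eq_empty_iff_subset, ← Finset.card_eq_zero]
      omega
    exact Finset.eq_of_subset_of_card_le h12 (by omega)
  obtain ⟨hG2, hK2⟩ := hlev c2 hc2N E2 O2 ρ2 hE2 hAE2 hUE2 hcov2 hdis2 hw2 hO2e
  rw [← hsum2]
  have hcd1 := Finset.card_erase_of_mem hc1
  have hcd2 := Finset.card_erase_of_mem hc2
  rcases ((N.erase c1).erase c2).eq_empty_or_nonempty with hN3 | hN3
  · rw [hN3, Finset.sum_empty]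
    rw [hN3, Finset.card_empty] at hcd2
    rw [hG1, hG2]
    omega
  -- the third class with a helper
  obtain ⟨c3, hc3, hmin3⟩ := Finset.exists_min_image ((N.erase c1).erase c2) (fun c => c.t) hN3
  have hc3N := Finset.mem_of_mem_erase (Finset.mem_of_mem_erase hc3)
  have hsum3 := Finset.add_sum_erase ((N.erase c1).erase c2) (fun c => P6.gain (P6.w c)) hc3
  have hr3 : 0 ≤ ∑ c ∈ ((N.erase c1).erase c2).erase c3, P6.gain (P6.w c) :=
    Finset.sum_nonneg fun c hc => hg0 c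
      (Finset.mem_of_mem_erase (Finset.mem_of_mem_erase (Finset.mem_of_mem_erase hc)))
  obtain ⟨E3, O3, ρ3, hO3, hE3, hAE3, hUE3, hcov3, hdis3, hρ3, hg3, hw3⟩ :=
    info6 hQ hZ (hNC c3 hc3N)
  have hw3 := hw3 (hNw c3 hc3N)
  have hAE3' := Finset.card_le_card hAE3
  have hO3d : O3 \ Zr ⊆ {c1, c2} := by
    intro c hc
    obtain ⟨h1, h2⟩ := Finset.mem_sdiff.mp hc
    rw [Finset.mem_insert, Finset.mem_singleton]
    by_contra h
    rw [not_or] at h
    have h3 := hmin3 c (Finset.mem_erase.mpr ⟨h.2,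
      Finset.mem_erase.mpr ⟨h.1, hZN c (hO3 c h1).1 h2⟩⟩)
    have h4 := (hO3 c h1).2
    omega
  have hG3 : P6.gain (P6.w c3) = 5 := by
    rcases hw3 with hw3 | hw3
    · exact hw3.1
    exfalso
    obtain ⟨m, m', e, e', h1, h2, h3, h4, h5, h6, h7, h8⟩ := count6 hQ.bas (O := O3) (Zr := Zr)
      (fun c hc => hsub (hO3 c hc).1) (E := E3) (K := K) hUE3 hZK (by
        intro c hc hcZ
        have h := hO3d (Finset.mem_sdiff.mpr ⟨hc, hcZ⟩)
        rw [Finset.mem_insert, Finset.mem_singleton] at h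
        rcases h with rfl | rfl
        · exact hK1
        · exact hK2)
    have h9 := Finset.card_le_card hO3d
    have h9' := Finset.card_le_two (a := c1) (b := c2)
    have h10 := Finset.card_le_card (Finset.inter_subset_right : O3 ∩ Zr ⊆ Zr)
    omega
  rw [← hsum3]
  rw [hG1, hG2, hG3]
  omega

end MP30c94c
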