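import Mathlib
import Pool.Agent.Lib.MP30c94c.KXGain
import Pool.Agent.Lib.MP30c94c.KXSum5
import Pool.Agent.Lib.MP30c94c.KXSum6
import Pool.Agent.Lib.MP30c94c.KXLin

/-!
# The exceptional pairs: the plane spanned by a triple with `k` common neighbours
-/

open SimpleGraph Finset

namespace MP30c94c

attribute [local instance] Classical.propDecidable

variable {V : Type} [Fintype V]

private lemma plane_gain_nonneg {P : ParX} (w : ℤ) : 0 ≤ P.gain w := by
  unfold ParX.gain
  split_ifs <;> norm_num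

private lemma plane_cin_mono (st : St V) {X Y : Finset V} (h : X ⊆ Y) :
    st.cin X ⊆ st.cin Y := by
  intro c hc
  unfold St.cin at hc ⊢
  rw [Finset.mem_filter] at hc ⊢
  exact ⟨hc.1, hc.2.trans h⟩

/-- the consequence of positivity and of the crude closure -/
private lemma plane_pos {P : ParX} (hP : P.Ok) {st : St V} (hQ : QX P V st)
    (hPos : Pos P.a P.b st) {Y : Finset V} (hY : IsFlat st.p Y) (hYne : Y.Nonempty) :
    ∃ S : ℤ, 0 ≤ S ∧ 1 + S ≤ crude P st Y ∧
      (P.k = 6 → (1 ≤ (st.cin Y).card → 13 ≤ S) ∧ (2 ≤ (st.cin Y).card → 26 ≤ S) ∧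
        (3 ≤ (st.cin Y).card → 31 ≤ S) ∧ (4 ≤ (st.cin Y).card → 36 ≤ S) ∧
        (5 ≤ (st.cin Y).card → 39 ≤ S)) ∧
      (P.k = 5 → (1 ≤ (st.cin Y).card → 24 ≤ S) ∧ (2 ≤ (st.cin Y).card → 41 ≤ S) ∧
        (3 ≤ (st.cin Y).card → 48 ≤ S)) := by
  obtain ⟨Z, hYZ, hZ, hle⟩ := hQ.crude_hull hP hY
  have hm : (st.cin Y).card ≤ (st.cin Z).card := Finset.card_le_card (plane_cin_mono st hYZ)
  have h1 := hPos Z (hYne.mono hYZ) hZ
  refine ⟨∑ c ∈ st.cin Z, P.gain (P.w c), ?_, by linarith, ?_, ?_⟩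
  · exact Finset.sum_nonneg fun c _ => plane_gain_nonneg _
  · intro hk
    rcases hP with rfl | rfl
    · obtain ⟨g1, g2, g3, g4, g5⟩ := hQ.gain6 hZ
      exact ⟨fun h => g1 (h.trans hm), fun h => g2 (h.trans hm), fun h => g3 (h.trans hm),
        fun h => g4 (h.trans hm), fun h => g5 (h.trans hm)⟩
    · exact absurd hk (by decide)
  · intro hk
    rcases hP with rfl | rfl
    · exact absurd hk (by decide)
    · obtain ⟨g1, g2, g3⟩ := hQ.gain5 hZ
      exact ⟨fun h => g1 (h.trans hm), fun h => g2 (h.trans hm), fun h => g3 (h.trans hm)⟩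

theorem QX.plane {P : ParX} (hP : P.Ok) {st : St V} (hQ : QX P V st) (hPos : Pos P.a P.b st)
    {U T : Finset V} (hU : U.card = 3) (hrU : rk st.p U = 3) (hT : T.card = P.k)
    (hadj : ∀ u ∈ U, ∀ t ∈ T, st.G.Adj u t) :
    (flt st.p U).card ≤ P.L ∧ ∀ t ∈ T, t ∉ flt st.p U := by
  have hUne : U.Nonempty := Finset.card_pos.1 (by omega)
  set F := flt st.p U with hF
  have hFf : IsFlat st.p F := flt_isFlat _ _
  have hUF : U ⊆ F := subset_flt _ _
  set Y := flt st.p (F ∪ T) with hYdef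
  have hYf : IsFlat st.p Y := flt_isFlat _ _
  have hFTY : F ∪ T ⊆ Y := subset_flt _ _
  have hFY : F ⊆ Y := Finset.subset_union_left.trans hFTY
  have hTY : T ⊆ Y := Finset.subset_union_right.trans hFTY
  have hUY : U ⊆ Y := hUF.trans hFY
  have hrF : rk st.p F = 3 := by rw [hF, rk_flt, hrU]
  have hrY : rk st.p Y = rk st.p (F ∪ T) := by rw [hYdef, rk_flt]
  set R := rk st.p Y with hR
  set ρ := rk st.p T with hρ
  have hcF := hQ.bas.count F hFf
  have hcY := hQ.bas.count Y hYf
  set N := (st.cin F).card with hN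
  set m := (st.cin Y).card with hm
  have hNm : N ≤ m := Finset.card_le_card (plane_cin_mono st hFY)
  have hρk : ρ ≤ T.card := rk_le_card _ _
  -- `T` has rank at least three
  have hρ3 : 3 ≤ ρ := by
    by_contra hlt
    have h1 := hQ.line (flt st.p T) (flt_isFlat _ _) (by rw [rk_flt]; omega)
    have h2 := Finset.card_le_card (subset_flt st.p T)
    rcases hP.nums with ⟨h3, h4, -⟩ | ⟨h3, h4, -⟩ <;> omega
  have hsub := rk_submod st.p F T
  rw [← hrY] at hsub
  have hRρ : ρ ≤ R := rk_mono _ hTY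
  have hR3 : 3 ≤ R := by rw [← hrF]; exact rk_mono _ hFY
  have hUT : Disjoint U T := by
    rw [Finset.disjoint_left]
    intro u hu hu'
    exact (hadj u hu u hu').ne rfl
  have hcard : (F ∪ T).card + (F ∩ T).card = F.card + T.card := Finset.card_union_add_card_inter _ _
  have hcard2 : (F ∪ T).card ≤ Y.card := Finset.card_le_card hFTY
  have heN : 3 + (F ∩ T).card ≤ F.card := by
    have h1 : Disjoint U (F ∩ T) := hUT.mono_right Finset.inter_subset_right
    have h2 : U ∪ (F ∩ T) ⊆ F := Finset.union_subset hUF Finset.inter_subset_left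
    have h3 := Finset.card_le_card h2
    rw [Finset.card_union_of_disjoint h1, hU] at h3
    exact h3
  obtain ⟨S, hS0, hS1, hS6, hS5⟩ := plane_pos hP hQ hPos hYf (hUne.mono hUY)
  rw [crude, ← hR, ← hm] at hS1
  rw [← hm] at hS6 hS5
  -- step 1
  have hdisj : F ∩ T = ∅ := by
    by_contra hne
    obtain ⟨t0, ht0⟩ := Finset.nonempty_iff_ne_empty.2 hne
    rw [Finset.mem_inter] at ht0
    have hrt : rk st.p {t0} = 1 := by
      have := hQ.bas.indep {t0} (by simp)
      simpa using this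
    have hp0 : st.p t0 ≠ 0 := by
      intro h0
      have h1 : rk st.p {t0} = 0 := by
        unfold rk sp
        rw [Finset.coe_singleton, Set.image_singleton, h0]
        simp
      omega
    have h1 : 1 ≤ rk st.p (F ∩ T) := by
      rw [← hrt]
      exact rk_mono _ (by simpa using ht0)
    have h2 : 3 ≤ ell st.G st.p F := by
      rw [← hrU]
      exact rk_le_ell_star st.G st.p ht0.1 hUF (fun u hu => (hadj u hu t0 ht0.2).symm) hp0
    have h3 := ell_ext st.G st.p (X := F) (Z := Y) (B := U) (D := T) hFY hUF (by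
      intro v hv d hd
      refine subset_flt _ _ (Finset.mem_union_right _ ?_)
      rw [Finset.mem_filter]
      exact ⟨hTY hd, hadj v hv d hd⟩)
    rw [← hrY, hrF, hrU] at h3
    have h4 : 1 ≤ (F ∩ T).card := Finset.card_pos.2 ⟨t0, Finset.mem_inter.2 ht0⟩
    have h5 : 3 + 3 * (R - 3) ≤ ell st.G st.p Y := by omega
    have h6 : (3 : ℤ) + 3 * ((R : ℤ) - 3) ≤ (ell st.G st.p Y : ℤ) := by
      have : ((3 + 3 * (R - 3) : ℕ) : ℤ) ≤ (ell st.G st.p Y : ℤ) := by exact_mod_cast h5
      push_cast [Nat.cast_sub hR3] at this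
      linarith
    rcases hP.nums with ⟨e1, -, e3, e4, e5, -, -, -, e9⟩ | ⟨e1, -, e3, e4, e5, -, -, -, e9⟩
    · obtain ⟨g1, g2, g3, g4, g5⟩ := hS6 e1
      rw [e3, e4, e5, e9] at hS1
      rw [e1] at hT
      have hk8 : R ≤ 8 := by omega
      have hmR : 9 ≤ m + R := by omega
      have hm1 : 1 ≤ m := by omega
      omega
    · obtain ⟨g1, g2, g3⟩ := hS5 e1
      rw [e3, e4, e5, e9] at hS1
      rw [e1] at hT
      have hk8 : R ≤ 7 := by omega
      have hmR : 8 ≤ m + R := by omega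
      have hm1 : 1 ≤ m := by omega
      omega
  refine ⟨?_, ?_⟩
  · by_contra hgt
    push Not at hgt
    have hrk0 : rk st.p (F ∩ T) = 0 := by rw [hdisj]; exact rk_empty _
    have hc0 : (F ∩ T).card = 0 := by rw [hdisj]; rfl
    obtain ⟨p', hp'⟩ := exists_quotRel st.p U hUne (by rw [hrU, hU])
    have h1 := hp'.ell1 st.G Y T hUY hTY hadj
    have h2 := ell_ext st.G p' (X := F) (Z := Y) (B := U) (D := T) hFY hUF (by
      intro v hv d hd
      refine subset_flt _ _ (Finset.mem_union_right _ ?_)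
      rw [Finset.mem_filter]
      exact ⟨hTY hd, hadj v hv d hd⟩)
    have h3 := hp'.rk1 U (subset_flt _ _)
    have h4 := hp'.rk1 (F ∪ T) ((hUF.trans Finset.subset_union_left).trans (subset_flt _ _))
    have h5 := hp'.rk1 F (hUF.trans (subset_flt _ _))
    rw [← hrY] at h4
    have h6 : rk p' U = 2 := by omega
    have h7 : rk p' (F ∪ T) - rk p' F = R - 3 := by omega
    rw [h6, h7] at h2
    have h8 : ρ + 2 * (R - 3) ≤ ell st.G st.p Y := by omega
    have h9 : (ρ : ℤ) + 2 * ((R : ℤ) - 3) ≤ (ell st.G st.p Y : ℤ) := by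
      have : ((ρ + 2 * (R - 3) : ℕ) : ℤ) ≤ (ell st.G st.p Y : ℤ) := by exact_mod_cast h8
      push_cast [Nat.cast_sub hR3] at this
      linarith
    rcases hP.nums with ⟨e1, e2, e3, e4, e5, -, -, -, e9⟩ | ⟨e1, e2, e3, e4, e5, -, -, -, e9⟩
    · obtain ⟨g1, g2, g3, g4, g5⟩ := hS6 e1
      rw [e3, e4, e5, e9] at hS1
      rw [e1] at hT
      rw [e2] at hgt
      have hk8 : R ≤ 3 + ρ := by omega
      have hmR : 12 ≤ m + R := by omega
      have hm1 : 3 ≤ m := by omega
      omega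
    · obtain ⟨g1, g2, g3⟩ := hS5 e1
      rw [e3, e4, e5, e9] at hS1
      rw [e1] at hT
      rw [e2] at hgt
      have hk8 : R ≤ 3 + ρ := by omega
      have hmR : 10 ≤ m + R := by omega
      have hm1 : 2 ≤ m := by omega
      omega
  · intro t ht htF
    have : t ∈ F ∩ T := Finset.mem_inter.2 ⟨htF, ht⟩
    rw [hdisj] at this
    exact absurd this (Finset.notMem_empty t)

end MP30c94c
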