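import Mathlib
import Pool.Agent.Lib.MP30c94c.KXEdge
import Pool.Agent.Lib.MP30c94c.KXPlane
import Pool.Agent.Lib.MP30c94c.KXAct

/-!
# The exceptional pairs: the scheme
-/

open SimpleGraph Finset

namespace MP30c94c

attribute [local instance] Classical.propDecidable

lemma QX.init (P : ParX) {V : Type} [Fintype V] (G : SimpleGraph V) (hP : P.Ok) :
    QX P V (St.init G) := by
  have h0 : (St.init G).cls = ∅ := rfl
  refine ⟨Bas.init _ _, ?_, ?_, ?_, ?_, ?_⟩
  · intro Y
    have h1 : (St.init G).cin Y = ∅ := by simp [St.cin, St.init]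
    rw [h1, Finset.card_empty, add_zero]
    exact rk_le_card _ _
  · intro X hX hr
    have h1 : X.card = rk (St.init G).p X := (rk_basisVec X).symm
    have h2 := hP.nums
    omega
  · intro c hc
    rw [h0] at hc
    simp at hc
  · intro c hc
    rw [h0] at hc
    simp at hc
  · intro c hc
    rw [h0] at hc
    simp at hc

theorem scheme_X (P : ParX) (hP : P.Ok) :
    Scheme 3 P.k P.a P.b (2 * P.a - P.b) (QX P) := by
  have hnum := hP.nums
  refine ⟨fun V _ st h => h.bas, fun V _ G => QX.init P G hP, ?_, ?_, ?_⟩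
  · intro V _ st hQ _ U w z hU hrU hz hw hadj hn
    exact ⟨hQ.addEdge w z, fun X hX => hQ.edge_phi hP hU hrU hz hw hadj hn hX⟩
  · intro V _ st hQ hPos _ U T hU hrU hT hadj
    obtain ⟨hF, hdis⟩ := hQ.plane hP hPos hU hrU hT hadj
    obtain ⟨A, hAT, hAmax, hAmin⟩ := exists_helperX P st.p T
    obtain ⟨p', hq⟩ := exists_quotRel st.p U (Finset.card_pos.mp (by omega)) (by rw [hrU, hU])
    obtain ⟨c, hcU, hcA, hcth, hct⟩ : ∃ c : Cls V, c.U = U ∧ c.A = A ∧
        c.th = P.k * P.eta - (P.eta * (A.card : ℤ) - P.b * (rk st.p A : ℤ)) ∧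
        c.t = st.cls.card := ⟨⟨U, A, _, _⟩, rfl, rfl, rfl, rfl⟩
    refine ⟨Or.inr ⟨rfl, by omega⟩, fun t0 ht0 ht0F => absurd ht0F (hdis t0 ht0), p', c, hcU, hq,
      hQ.act hP hU hrU hT hadj hAT hAmin hF hq hcU hcA hcth hct,
      fun X hX => hQ.act_phi hP hU hrU hT hadj hAmax hF hq hcU hcth hX⟩
  · intro V _ st hQ hPos u v huv
    have hne : u ≠ v := huv.ne
    have hflat := flt_isFlat st.p ({u, v} : Finset V)
    obtain ⟨X', h1, h2, h3⟩ := (hQ.hull hP hflat).1
    have hu : u ∈ flt st.p ({u, v} : Finset V) :=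
      subset_flt _ _ (Finset.mem_insert_self _ _)
    have hv : v ∈ flt st.p ({u, v} : Finset V) :=
      subset_flt _ _ (Finset.mem_insert_of_mem (Finset.mem_singleton_self _))
    refine ⟨X', h1 hu, h1 hv, h2, h3.trans ?_⟩
    rw [PhiS_eq_crude P hQ.bas hflat]
    unfold crude
    rw [rk_flt]
    have h4 : rk st.p ({u, v} : Finset V) = 2 := by
      rw [hQ.bas.indep _ (by rw [Finset.card_pair hne]), Finset.card_pair hne]
    have h5 : 0 ≤ ∑ c ∈ st.cin (flt st.p ({u, v} : Finset V)), (P.W - P.w c) := by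
      apply Finset.sum_nonneg
      intro c hc
      obtain ⟨q, hq⟩ := hQ.past c (cin_subset _ _ hc)
      linarith [(hq.w_le hP).2.1]
    have h6 : 0 ≤ (P.c0 - P.W) * ((st.cin (flt st.p ({u, v} : Finset V))).card : ℤ) := by
      apply mul_nonneg
      · omega
      · positivity
    have hne0 : ∀ x : V, st.p x ≠ 0 := by
      intro x hx
      have h7 : x ∈ flt st.p (∅ : Finset V) := by
        rw [mem_flt, hx]
        exact Submodule.zero_mem _
      rw [mem_flt_iff_rk, hQ.bas.indep ∅ (by simp), hQ.bas.indep _ (by simp)] at h7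
      simp at h7
    have h8 := one_le_ell st.G st.p hu hv huv (hne0 u) (hne0 v)
    have h8' : (1 : ℤ) ≤ ell st.G st.p (flt st.p ({u, v} : Finset V)) := by exact_mod_cast h8
    have hb : 0 ≤ P.b := by omega
    have h9 := mul_le_mul_of_nonneg_left h8' hb
    rw [h4]
    push_cast
    linarith

theorem hull_36 : HullProp (Kst 3 6) 49 22 76 := by
  have h := hullProp_of_scheme 3 5 49 22 76 (by norm_num) (by norm_num) (QX P5)
    (by
      have h1 := scheme_X P5 (Or.inr rfl)
      have e : (2 * P5.a - P5.b) = ((76 : ℕ) : ℤ) := by simp [P5]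
      rw [e] at h1
      exact h1)
  exact h

theorem hull_37 : HullProp (Kst 3 7) 26 11 41 := by
  have h := hullProp_of_scheme 3 6 26 11 41 (by norm_num) (by norm_num) (QX P6)
    (by
      have h1 := scheme_X P6 (Or.inl rfl)
      have e : (2 * P6.a - P6.b) = ((41 : ℕ) : ℤ) := by simp [P6]
      rw [e] at h1
      exact h1)
  exact h

end MP30c94c
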