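import Mathlib
import Pool.Agent.Lib.MP30c94c.KFin
import Pool.Agent.Lib.MP30c94c.KXFin
import Pool.Agent.Lib.MP30c94c.KAStar
import Pool.Agent.Lib.MP30c94c.KAStarL
import Pool.Agent.Lib.MP30c94c.KAIso
import Pool.Agent.Lib.MP30c94c.KATwo
import Pool.Agent.Lib.MP30c94c.KAComm
import Pool.Agent.Lib.MP30c94c.KTwoFin

/-!
# All pairs
-/

open SimpleGraph Finset Filter

namespace MP30c94c

/-- `p_c` has order `n^{-x}` up to a polylogarithmic factor -/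
def Order (s t : ℕ) (x : ℝ) : Prop :=
  ∃ C : ℝ, 0 < C ∧ ∀ᶠ n : ℕ in atTop,
    (n : ℝ) ^ (-x) * (Real.log n) ^ (-C) ≤ pc n (Kst s t) ∧
    pc n (Kst s t) ≤ (n : ℝ) ^ (-x) * (Real.log n) ^ C

lemma Order.mk' {s t : ℕ} {x : ℝ}
    (h1 : ∃ C : ℝ, 0 < C ∧ ∀ᶠ n : ℕ in atTop,
      (n : ℝ) ^ (-x) * (Real.log n) ^ (-C) ≤ pc n (Kst s t))
    (h2 : ∃ C : ℝ, 0 < C ∧ ∀ᶠ n : ℕ in atTop,
      pc n (Kst s t) ≤ (n : ℝ) ^ (-x) * (Real.log n) ^ C) : Order s t x := by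
  obtain ⟨C1, hC1, h1⟩ := h1
  obtain ⟨C2, hC2, h2⟩ := h2
  refine ⟨max C1 C2, lt_max_of_lt_left hC1, ?_⟩
  have hlog : ∀ᶠ n : ℕ in atTop, 1 ≤ Real.log n :=
    (Real.tendsto_log_atTop.comp tendsto_natCast_atTop_atTop).eventually_ge_atTop 1
  filter_upwards [h1, h2, hlog] with n h1 h2 hl
  have hn : 0 ≤ (n : ℝ) ^ (-x) := Real.rpow_nonneg (Nat.cast_nonneg n) _
  refine ⟨le_trans (mul_le_mul_of_nonneg_left ?_ hn) h1, h2.trans (mul_le_mul_of_nonneg_left ?_ hn)⟩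
  · exact Real.rpow_le_rpow_of_exponent_le hl (neg_le_neg (le_max_left _ _))
  · exact Real.rpow_le_rpow_of_exponent_le hl (le_max_right _ _)

lemma order_star (t : ℕ) (ht : 2 ≤ t) : Order 1 t ((t : ℝ) / (t - 1)) :=
  Order.mk' (star_lower t ht) (star_upper t ht)

lemma order_two (t : ℕ) (ht : t = 2 ∨ t = 3) : Order 2 t 1 := by
  refine Order.mk' (isolated_lower t (by omega)) ?_
  have h : HasGadgets (Kst 2 t) 1 1 := by
    rcases ht with rfl | rfl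
    · exact hasGadgets_22
    · exact hasGadgets_23
  have := upper_of_gadgets (Kst 2 t) 1 1 (by norm_num) le_rfl h
  simpa using this

/-- constants instead of logarithms -/
lemma order_of_const {s t : ℕ} {x : ℝ} (h : ∃ c C : ℝ, 0 < c ∧ 0 < C ∧ ∀ᶠ n : ℕ in atTop,
      c * (n : ℝ) ^ (-x) ≤ pc n (Kst s t) ∧ pc n (Kst s t) ≤ C * (n : ℝ) ^ (-x)) :
    Order s t x := by
  obtain ⟨c, C, hc, hC, h⟩ := h
  refine ⟨1, one_pos, ?_⟩
  have hlog : ∀ᶠ n : ℕ in atTop, max (max 1 C) c⁻¹ ≤ Real.log n :=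
    (Real.tendsto_log_atTop.comp tendsto_natCast_atTop_atTop).eventually_ge_atTop _
  filter_upwards [h, hlog] with n h hl
  have hn : 0 ≤ (n : ℝ) ^ (-x) := Real.rpow_nonneg (Nat.cast_nonneg n) _
  have hl1 : 1 ≤ Real.log n := ((le_max_left _ _).trans (le_max_left _ _)).trans hl
  have hl2 : C ≤ Real.log n := ((le_max_right _ _).trans (le_max_left _ _)).trans hl
  have hl3 : c⁻¹ ≤ Real.log n := (le_max_right _ _).trans hl
  have hl0 : 0 < Real.log n := by linarith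
  constructor
  · refine le_trans ?_ h.1
    rw [mul_comm]
    refine mul_le_mul_of_nonneg_right ?_ hn
    rw [Real.rpow_neg hl0.le, Real.rpow_one]
    exact inv_le_of_inv_le₀ hc hl3
  · refine h.2.trans ?_
    rw [mul_comm, Real.rpow_one]
    exact mul_le_mul_of_nonneg_left hl2 hn

end MP30c94c
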